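import Pool.Agent.Mg.F4d0c14.Gec9bb9

section

/-! Abstract compact induction: matrix valued functions on `G`, convolution over `G ⧸ H`. -/

namespace Pool.Agent.MP_4d0c14_b

open scoped Matrix

/-- A subgroup `H` whose double cosets are finite unions of cosets, with a representation `μ`. -/
structure Fib (G E ι : Type) [Group G] [Field E] [Fintype ι] [DecidableEq ι] where
  H : Subgroup G
  μ : G → Matrix ι ι E
  μ_one : μ 1 = 1
  μ_mul : ∀ h ∈ H, ∀ h' ∈ H, μ (h * h') = μ h * μ h'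
  fin : ∀ g : G, ∃ T : Finset G, ∀ h ∈ H, ∃ t ∈ T, t⁻¹ * (h * g) ∈ H

namespace Fib

section Alg

variable {G E ι : Type} [Group G] [Field E] [Fintype ι] [DecidableEq ι] (D : Fib G E ι)

theorem μ_inv_mul {h : G} (hh : h ∈ D.H) : D.μ h⁻¹ * D.μ h = 1 := by
  rw [← D.μ_mul _ (D.H.inv_mem hh) _ hh, inv_mul_cancel, D.μ_one]

theorem μ_mul_inv {h : G} (hh : h ∈ D.H) : D.μ h * D.μ h⁻¹ = 1 := by
  rw [← D.μ_mul _ hh _ (D.H.inv_mem hh), mul_inv_cancel, D.μ_one]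

/-- right equivariance -/
def Eqv (Y : G → Matrix ι ι E) : Prop := ∀ x, ∀ h ∈ D.H, Y (x * h) = D.μ h⁻¹ * Y x

/-- left equivariance -/
def LEqv (Y : G → Matrix ι ι E) : Prop := ∀ x, ∀ h ∈ D.H, Y (h * x) = Y x * D.μ h⁻¹

/-- support in finitely many cosets `t H` -/
def Fin0 (Y : G → Matrix ι ι E) : Prop :=
  ∃ T : Finset G, ∀ x, Y x ≠ 0 → ∃ t ∈ T, t⁻¹ * x ∈ D.H

/-- elements of the Hecke algebra -/
def Ker (Y : G → Matrix ι ι E) : Prop := D.Eqv Y ∧ D.LEqv Y ∧ D.Fin0 Y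

/-- convolution -/
noncomputable def conv (κ Y : G → Matrix ι ι E) : G → Matrix ι ι E :=
  fun x => ∑ᶠ q : G ⧸ D.H, κ (q.out⁻¹ * x) * Y q.out

open Classical in
/-- the unit -/
noncomputable def del : G → Matrix ι ι E := fun x => if x ∈ D.H then D.μ x⁻¹ else 0

/-- the dual data -/
def dual : Fib G E ι where
  H := D.H
  μ := fun h => (D.μ h⁻¹)ᵀ
  μ_one := by simp [D.μ_one]
  μ_mul := fun h hh h' hh' => by
    rw [mul_inv_rev, D.μ_mul _ (D.H.inv_mem hh') _ (D.H.inv_mem hh), Matrix.transpose_mul]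
  fin := D.fin

end Alg

section Normed

variable {G E ι : Type} [Group G] [NormedField E] [Fintype ι] [DecidableEq ι] (D : Fib G E ι)

/-- `μ` is bounded on `H` -/
def Bdd : Prop := ∃ C : ℝ, 0 < C ∧ ∀ h ∈ D.H, MLe C (D.μ h)

/-- tends to zero on `G ⧸ H` -/
def Dec (Y : G → Matrix ι ι E) : Prop :=
  ∀ ε : ℝ, 0 < ε → ∃ T : Finset G, ∀ x, (∀ t ∈ T, t⁻¹ * x ∉ D.H) → MLe ε (Y x)

/-- The image of the operators `κ i` is dense. -/
def Dense {d : ℕ} (κ : Fin d → G → Matrix ι ι E) : Prop :=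
  ∀ ε : ℝ, 0 < ε → ∃ Y : Fin d → G → Matrix ι ι E, (∀ i, D.Eqv (Y i) ∧ D.Fin0 (Y i)) ∧
    ∀ x, MLe ε (D.del x - ∑ i, D.conv (κ i) (Y i) x)

/-- The ideal of the Hecke algebra generated by the `κ i` is dense. -/
def Approx {d : ℕ} (κ : Fin d → G → Matrix ι ι E) : Prop :=
  ∀ ε : ℝ, 0 < ε → ∃ Y : Fin d → G → Matrix ι ι E, (∀ i, D.Ker (Y i)) ∧
    ∀ x, MLe ε (D.del x - ∑ i, D.conv (κ i) (Y i) x)

/-- The data used to kill the obstruction in degree one. -/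
structure H1Data where
  K : ℕ → Subgroup G
  Kp : Subgroup G
  Z : Subgroup G
  anti : Antitone K
  K_le : K 0 ≤ Kp
  Kp_le : Kp ≤ D.H
  Z_le : Z ≤ D.H
  Z_cen : ∀ z ∈ Z, ∀ g, z * g = g * z
  Z_sc : ∀ z ∈ Z, ∃ c : E, D.μ z = c • (1 : Matrix ι ι E)
  Kp_dec : ∀ g ∈ Kp, ∃ k ∈ K 0, ∃ z ∈ Z, g = k * z
  Kp_fin : ∃ T : Finset G, ∀ h ∈ D.H, ∃ t ∈ T, t⁻¹ * h ∈ Kp
  K_fin : ∀ i, ∃ T : Finset G, ∀ k ∈ K 0, ∃ t ∈ T, k * t⁻¹ ∈ K i
  cont : ∀ (x : G) (ε : ℝ), 0 < ε → ∃ i, ∀ k ∈ K i,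
    x⁻¹ * k * x ∈ D.H ∧ MLe ε (D.μ (x⁻¹ * k * x) - 1)
  loc : ∃ C : ℝ, 0 < C ∧ ∀ (x : G) (u : G → Matrix ι ι E),
    (∀ k ∈ K 0, ∀ k' ∈ K 0, x⁻¹ * k * x ∈ Kp → x⁻¹ * k' * x ∈ Kp →
      u (k * k') = u k + D.μ (x⁻¹ * k * x) * u k' * D.μ k⁻¹) →
    (∀ z ∈ Z, z ∈ K 0 → u z = 0) →
    (∀ ε : ℝ, 0 < ε → ∃ i, ∀ k ∈ K i, x⁻¹ * k * x ∈ Kp → MLe ε (u k)) →
    ∃ b : Matrix ι ι E,
      (∀ k ∈ K 0, x⁻¹ * k * x ∈ Kp → u k = D.μ (x⁻¹ * k * x) * b * D.μ k⁻¹ - b) ∧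
      ∀ M : ℝ, 0 ≤ M → (∀ k ∈ K 0, x⁻¹ * k * x ∈ Kp → MLe M (u k)) → MLe (C * M) b

end Normed

end Fib

/-- the adjoint kernel -/
def dK {G E ι : Type} [Group G] (κ : G → Matrix ι ι E) : G → Matrix ι ι E := fun x => (κ x⁻¹)ᵀ

/-- A residually finite subgroup acting on `G ⧸ H` with finitely many orbits and finite
stabilisers. -/
def HasLat {G : Type} [Group G] (H : Subgroup G) : Prop :=
  ∃ Γ : Subgroup G, Group.ResiduallyFinite Γ ∧
    (∃ T : Finset G, ∀ x, ∃ γ ∈ Γ, ∃ t ∈ T, (γ * t)⁻¹ * x ∈ H) ∧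
    ∀ x : G, {γ | γ ∈ Γ ∧ x⁻¹ * γ * x ∈ H}.Finite

/-- A residually finite subgroup acting freely on `G ⧸ H` with finitely many orbits. -/
structure FreeLat {G : Type} [Group G] (H : Subgroup G) where
  Γ : Subgroup G
  rf : Group.ResiduallyFinite Γ
  N : ℕ
  a : Fin N → G
  bij : Function.Bijective fun p : Γ × Fin N => (((p.1 : G) * a p.2 : G) : G ⧸ H)

section Gam

variable {Γ J E : Type} [Group Γ] [Fintype J] [DecidableEq J]

/-- The operator `(op k y) γ = ∑ η, k η (y (γ η))`. -/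
noncomputable def op [Field E] (k : Γ →₀ Matrix J J E) (y : Γ → J → E) : Γ → J → E :=
  fun γ => k.sum fun η A => A *ᵥ y (γ * η)

/-- The adjoint kernel `η ↦ (k η⁻¹)ᵀ`. -/
noncomputable def st [Field E] (k : Γ →₀ Matrix J J E) : Γ →₀ Matrix J J E :=
  Finsupp.mapRange Matrix.transpose Matrix.transpose_zero (Finsupp.equivMapDomain (Equiv.inv Γ) k)

omit [Fintype J] [DecidableEq J] in
@[simp] theorem st_apply [Field E] (k : Γ →₀ Matrix J J E) (η : Γ) : st k η = (k η⁻¹)ᵀ := by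
  simp [st]

/-- tends to zero at infinity -/
def C0 [NormedField E] (y : Γ → J → E) : Prop := ∀ ε : ℝ, 0 < ε → {γ | ε < ‖y γ‖}.Finite

open Classical in
/-- the generators are approximated by the images of the operators -/
def DenseG [NormedField E] {d : ℕ} (a : Fin d → Γ →₀ Matrix J J E) : Prop :=
  ∀ j : J, ∃ y : Fin d → Γ → J → E, (∀ i, (Function.support (y i)).Finite) ∧
    ∀ γ, ‖(if γ = 1 then Pi.single j 1 else 0 : J → E) - ∑ i, op (a i) (y i) γ‖ ≤ 1 / 2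

end Gam

end Pool.Agent.MP_4d0c14_b

end

section

/-! Abstract Iwahori decomposition and the Hecke operators of positive elements. -/

namespace Pool.Agent.MP_4d0c14_b

open scoped Matrix Kronecker
open Filter

/-- `H` has an Iwahori decomposition with respect to `P` and `L`; `lam` is a representation of `H`
and of `P`, trivial on `L ∩ H`. -/
structure Iw (G E ι : Type) [Group G] [Field E] [Fintype ι] [DecidableEq ι] where
  H : Subgroup G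
  P : Subgroup G
  L : Subgroup G
  lam : G → Matrix ι ι E
  Pos : G → Prop
  t : G
  lam_one : lam 1 = 1
  lam_mulH : ∀ h ∈ H, ∀ h' ∈ H, lam (h * h') = lam h * lam h'
  lam_mulP : ∀ p ∈ P, ∀ p' ∈ P, lam (p * p') = lam p * lam p'
  lam_L : ∀ c ∈ L, c ∈ H → lam c = 1
  fin : ∀ g : G, ∃ T : Finset G, ∀ h ∈ H, ∃ t ∈ T, t⁻¹ * (h * g) ∈ H
  dec : ∀ h ∈ H, ∃ p ∈ P, ∃ c ∈ L, p ∈ H ∧ c ∈ H ∧ h = p * c
  pos_one : Pos 1
  pos_mul : ∀ j j', Pos j → Pos j' → Pos (j * j')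
  pos_t : Pos t
  pos_mem : ∀ j, Pos j → j ∈ P
  pos_L : ∀ j, Pos j → ∀ c ∈ L, j * c * j⁻¹ ∈ L ∧ j⁻¹ * c * j ∈ L ∧ (c ∈ H → j * c * j⁻¹ ∈ H)
  pos_P : ∀ j, Pos j → ∀ p ∈ P, p ∈ H → j⁻¹ * p * j ∈ H
  ev_P : ∀ p ∈ P, ∀ᶠ K : ℕ in atTop, ∃ j, Pos j ∧ j⁻¹ * (p * t ^ K) ∈ H
  ev_pos : ∀ j, Pos j → ∀ᶠ K : ℕ in atTop, Pos (j⁻¹ * t ^ K)

namespace Iw

variable {G E ι : Type} [Group G] [Field E] [Fintype ι] [DecidableEq ι] (D : Iw G E ι)

/-- the underlying fibre data -/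
def fib : Fib G E ι where
  H := D.H
  μ := D.lam
  μ_one := D.lam_one
  μ_mul := D.lam_mulH
  fin := D.fin

open Classical in
/-- `phi (p h) = lam p * lam h`, zero outside `P H` -/
noncomputable def phi (x : G) : Matrix ι ι E :=
  if h : ∃ y : G × G, y.1 ∈ D.P ∧ y.2 ∈ D.H ∧ x = y.1 * y.2 then
    D.lam h.choose.1 * D.lam h.choose.2 else 0

open Classical in
/-- `kap j (h j h') = lam h'⁻¹ * lam j⁻¹ * lam h⁻¹`, zero outside `H j H` -/
noncomputable def kap (j x : G) : Matrix ι ι E :=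
  if h : ∃ y : G × G, y.1 ∈ D.H ∧ y.2 ∈ D.H ∧ x = y.1 * j * y.2 then
    D.lam h.choose.2⁻¹ * D.lam j⁻¹ * D.lam h.choose.1⁻¹ else 0

/-- the map from the compact induction to the parabolic induction -/
noncomputable def pmap (Y : G → Matrix ι ι E) (u : G) : Matrix ι ι E :=
  ∑ᶠ q : G ⧸ D.H, D.phi (u * q.out) * Y q.out

/-- the positive elements `γ i` generate all positive elements, up to `H` and cancellation -/
def Gen {d : ℕ} (γ : Fin d → G) : Prop :=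
  (∀ i, D.Pos (γ i)) ∧ ∀ j, D.Pos j → ∃ a ∈ Submonoid.closure (Set.range γ),
    ∃ b ∈ Submonoid.closure (Set.range γ), b⁻¹ * (j * a) ∈ D.H

variable {ι₁ : Type} [Fintype ι₁] [DecidableEq ι₁] (ρ : G →* Matrix ι₁ ι₁ E)

/-- the fibre data of `ρ ⊗ lam` -/
def tfib : Fib G E (ι₁ × ι) where
  H := D.H
  μ := fun h => ρ h ⊗ₖ D.lam h
  μ_one := by rw [map_one, D.lam_one, Matrix.one_kronecker_one]
  μ_mul := fun h hh h' hh' => by rw [map_mul, D.lam_mulH h hh h' hh', Matrix.mul_kronecker_mul]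
  fin := D.fin

/-- the kernel of `U_j - 1` on the compact induction of `ρ ⊗ lam` -/
noncomputable def tker (j : G) : G → Matrix (ι₁ × ι) (ι₁ × ι) E :=
  fun x => ρ x⁻¹ ⊗ₖ (D.kap j x - D.fib.del x)

/-- the map from the compact induction of `ρ ⊗ lam` to `ρ ⊗ π` -/
noncomputable def tpmap (Y : G → Matrix (ι₁ × ι) (ι₁ × ι) E) (u : G) :
    Matrix (ι₁ × ι) (ι₁ × ι) E :=
  ∑ᶠ q : G ⧸ D.H, (ρ q.out ⊗ₖ D.phi (u * q.out)) * Y q.out

end Iw

end Pool.Agent.MP_4d0c14_b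

end

section

/-! Algebraic properties of the convolution. -/

namespace Pool.Agent.MP_4d0c14_b

open scoped Matrix

namespace Fib

variable {G E ι : Type} [Group G] [Field E] [Fintype ι] [DecidableEq ι] {D : Fib G E ι}
  {φ κ κ' Y Y' : G → Matrix ι ι E}

theorem Eqv.zero : D.Eqv 0 := fun x h _ => by simp
theorem Eqv.add (h : D.Eqv Y) (h' : D.Eqv Y') : D.Eqv (Y + Y') := fun x g hg => by
  simp only [Pi.add_apply, h x g hg, h' x g hg, mul_add]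
theorem Eqv.neg (h : D.Eqv Y) : D.Eqv (-Y) := fun x g hg => by
  simp only [Pi.neg_apply, h x g hg, mul_neg]
theorem Eqv.sub (h : D.Eqv Y) (h' : D.Eqv Y') : D.Eqv (Y - Y') := fun x g hg => by
  simp only [Pi.sub_apply, h x g hg, h' x g hg, mul_sub]
theorem Eqv.smul (h : D.Eqv Y) (c : E) : D.Eqv (c • Y) := fun x g hg => by
  simp only [Pi.smul_apply, h x g hg, Matrix.mul_smul]
theorem Eqv.sum {σ : Type} {s : Finset σ} {Y : σ → G → Matrix ι ι E} (h : ∀ i ∈ s, D.Eqv (Y i)) :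
    D.Eqv (∑ i ∈ s, Y i) := fun x g hg => by
  simp only [Finset.sum_apply, Finset.mul_sum]
  exact Finset.sum_congr rfl fun i hi => h i hi x g hg
theorem Eqv.translate (h : D.Eqv Y) (g : G) (A : Matrix ι ι E) :
    D.Eqv fun x => Y (g * x) * A := fun x k hk => by
  show Y (g * (x * k)) * A = D.μ k⁻¹ * (Y (g * x) * A)
  rw [← mul_assoc g, h _ k hk, mul_assoc]

theorem LEqv.zero : D.LEqv 0 := fun x h _ => by simp
theorem LEqv.add (h : D.LEqv Y) (h' : D.LEqv Y') : D.LEqv (Y + Y') := fun x g hg => by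
  simp only [Pi.add_apply, h x g hg, h' x g hg, add_mul]
theorem LEqv.neg (h : D.LEqv Y) : D.LEqv (-Y) := fun x g hg => by
  simp only [Pi.neg_apply, h x g hg, neg_mul]
theorem LEqv.sub (h : D.LEqv Y) (h' : D.LEqv Y') : D.LEqv (Y - Y') := fun x g hg => by
  simp only [Pi.sub_apply, h x g hg, h' x g hg, sub_mul]
theorem LEqv.sum {σ : Type} {s : Finset σ} {Y : σ → G → Matrix ι ι E}
    (h : ∀ i ∈ s, D.LEqv (Y i)) : D.LEqv (∑ i ∈ s, Y i) := fun x g hg => by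
  simp only [Finset.sum_apply, Finset.sum_mul]
  exact Finset.sum_congr rfl fun i hi => h i hi x g hg

theorem C1_mono (h : D.Fin0 Y) (hs : ∀ x, Y' x ≠ 0 → Y x ≠ 0) : D.Fin0 Y' := by
  obtain ⟨T, hT⟩ := h
  exact ⟨T, fun x hx => hT x (hs x hx)⟩

theorem Fin0.zero : D.Fin0 0 := ⟨∅, fun _ hx => (hx rfl).elim⟩
theorem Fin0.add (h : D.Fin0 Y) (h' : D.Fin0 Y') : D.Fin0 (Y + Y') := by
  classical
  obtain ⟨T, hT⟩ := h
  obtain ⟨T', hT'⟩ := h'
  refine ⟨T ∪ T', fun x hx => ?_⟩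
  by_cases h1 : Y x = 0
  · have h2 : Y' x ≠ 0 := fun h2 => hx (by simp [h1, h2])
    obtain ⟨t, ht, hh⟩ := hT' x h2
    exact ⟨t, Finset.mem_union_right _ ht, hh⟩
  · obtain ⟨t, ht, hh⟩ := hT x h1
    exact ⟨t, Finset.mem_union_left _ ht, hh⟩
theorem Fin0.neg (h : D.Fin0 Y) : D.Fin0 (-Y) :=
  C1_mono h fun x hx h0 => hx (by simp [h0])
theorem Fin0.sub (h : D.Fin0 Y) (h' : D.Fin0 Y') : D.Fin0 (Y - Y') := by
  rw [sub_eq_add_neg]
  exact h.add h'.neg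
theorem Fin0.smul (h : D.Fin0 Y) (c : E) : D.Fin0 (c • Y) :=
  C1_mono h fun x hx h0 => hx (by simp [h0])
theorem Fin0.sum {σ : Type} {s : Finset σ} {Y : σ → G → Matrix ι ι E}
    (h : ∀ i ∈ s, D.Fin0 (Y i)) : D.Fin0 (∑ i ∈ s, Y i) :=
  Finset.sum_induction Y D.Fin0 (fun _ _ a b => a.add b) Fin0.zero h
theorem Fin0.translate (h : D.Fin0 Y) (g : G) (A : Matrix ι ι E) :
    D.Fin0 fun x => Y (g * x) * A := by
  classical
  obtain ⟨T, hT⟩ := h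
  refine ⟨T.image fun t => g⁻¹ * t, fun x hx => ?_⟩
  have h1 : Y (g * x) ≠ 0 := fun h0 => hx (by simp [h0])
  obtain ⟨t, ht, hh⟩ := hT _ h1
  refine ⟨g⁻¹ * t, Finset.mem_image_of_mem _ ht, ?_⟩
  simpa [mul_assoc] using hh

theorem Ker.sub (h : D.Ker Y) (h' : D.Ker Y') : D.Ker (Y - Y') :=
  ⟨h.1.sub h'.1, h.2.1.sub h'.2.1, h.2.2.sub h'.2.2⟩

theorem del_ker : D.Ker D.del := by
  refine ⟨fun x h hh => ?_, fun x h hh => ?_, ⟨{1}, fun x hx => ?_⟩⟩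
  · by_cases hx : x ∈ D.H
    · have h1 : x * h ∈ D.H := D.H.mul_mem hx hh
      simp only [del, hx, h1, if_true]
      rw [mul_inv_rev, D.μ_mul _ (D.H.inv_mem hh) _ (D.H.inv_mem hx)]
    · have h1 : x * h ∉ D.H := fun h1 => hx ((D.H.mul_mem_cancel_right hh).1 h1)
      simp [del, hx, h1]
  · by_cases hx : x ∈ D.H
    · have h1 : h * x ∈ D.H := D.H.mul_mem hh hx
      simp only [del, hx, h1, if_true]
      rw [mul_inv_rev, D.μ_mul _ (D.H.inv_mem hx) _ (D.H.inv_mem hh)]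
    · have h1 : h * x ∉ D.H := fun h1 => hx ((D.H.mul_mem_cancel_left hh).1 h1)
      simp [del, hx, h1]
  · refine ⟨1, Finset.mem_singleton_self _, ?_⟩
    by_contra h1
    apply hx
    have h2 : x ∉ D.H := by simpa using h1
    simp [del, h2]

/-- the support of `x ↦ κ x⁻¹` -/
theorem C1_inv (h : D.Fin0 κ) : ∃ T : Finset G, ∀ x, κ x⁻¹ ≠ 0 → ∃ t ∈ T, t⁻¹ * x ∈ D.H := by
  classical
  obtain ⟨T, hT⟩ := h
  choose U hU using D.fin
  refine ⟨T.biUnion fun t => U t⁻¹, fun x hx => ?_⟩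
  obtain ⟨t, ht, hh⟩ := hT _ hx
  obtain ⟨u, hu, hk⟩ := hU t⁻¹ _ (D.H.inv_mem hh)
  refine ⟨u, Finset.mem_biUnion.2 ⟨t, ht, hu⟩, ?_⟩
  simpa [mul_assoc] using hk

theorem Ker.dual (h : D.Ker κ) : D.dual.Ker (dK κ) := by
  refine ⟨fun x k hk => ?_, fun x k hk => ?_, ?_⟩
  · have hk' : k ∈ D.H := hk
    show (κ (x * k)⁻¹)ᵀ = (D.μ k⁻¹⁻¹)ᵀ * (κ x⁻¹)ᵀ
    rw [mul_inv_rev, h.2.1 _ _ (D.H.inv_mem hk'), Matrix.transpose_mul]
  · have hk' : k ∈ D.H := hk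
    show (κ (k * x)⁻¹)ᵀ = (κ x⁻¹)ᵀ * (D.μ k⁻¹⁻¹)ᵀ
    rw [mul_inv_rev, h.1 _ _ (D.H.inv_mem hk'), Matrix.transpose_mul]
  · obtain ⟨T, hT⟩ := C1_inv h.2.2
    refine ⟨T, fun x hx => hT x fun h0 => hx ?_⟩
    simp [dK, h0]

/-- inequivalent representatives -/
theorem exists_reps (H : Subgroup G) (T : Finset G) : ∃ T' : Finset G, T' ⊆ T ∧
    (∀ t ∈ T', ∀ t' ∈ T', t⁻¹ * t' ∈ H → t = t') ∧ ∀ t ∈ T, ∃ t' ∈ T', t'⁻¹ * t ∈ H := by
  classical
  induction T using Finset.induction_on with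
  | empty => exact ⟨∅, by simp, by simp, by simp⟩
  | insert a T _ ih =>
    obtain ⟨T', h1, h2, h3⟩ := ih
    by_cases ha : ∃ t' ∈ T', t'⁻¹ * a ∈ H
    · refine ⟨T', h1.trans (Finset.subset_insert _ _), h2, fun t ht => ?_⟩
      rcases Finset.mem_insert.1 ht with rfl | ht
      · exact ha
      · exact h3 t ht
    · refine ⟨insert a T', Finset.insert_subset_insert _ h1, fun t ht t' ht' hh => ?_,
        fun t ht => ?_⟩
      · rcases Finset.mem_insert.1 ht with e | ht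
        · rcases Finset.mem_insert.1 ht' with e' | ht'
          · rw [e, e']
          · refine (ha ⟨t', ht', ?_⟩).elim
            have := H.inv_mem hh
            rw [e] at this
            simpa using this
        · rcases Finset.mem_insert.1 ht' with e' | ht'
          · exact (ha ⟨t, ht, e' ▸ hh⟩).elim
          · exact h2 t ht t' ht' hh
      · rcases Finset.mem_insert.1 ht with e | ht
        · exact ⟨a, Finset.mem_insert_self _ _, by simp [e]⟩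
        · obtain ⟨t', ht', hh⟩ := h3 t ht
          exact ⟨t', Finset.mem_insert_of_mem ht', hh⟩

/-- a finite union of double cosets is a finite union of cosets -/
theorem exists_sat (D : Fib G E ι) (T : Finset G) : ∃ T' : Finset G,
    ∀ h ∈ D.H, ∀ x, (∃ t ∈ T, t⁻¹ * x ∈ D.H) → ∃ t' ∈ T', t'⁻¹ * (h * x) ∈ D.H := by
  classical
  choose U hU using D.fin
  refine ⟨T.biUnion U, fun h hh x hx => ?_⟩
  obtain ⟨t, ht, hk⟩ := hx
  obtain ⟨u, hu, hl⟩ := hU t h hh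
  refine ⟨u, Finset.mem_biUnion.2 ⟨t, ht, hu⟩, ?_⟩
  have := D.H.mul_mem hl hk
  simpa [mul_assoc] using this

theorem C1_fin {P : G → Prop} (h : ∃ T : Finset G, ∀ x, P x → ∃ t ∈ T, t⁻¹ * x ∈ D.H) :
    {q : G ⧸ D.H | P q.out}.Finite := by
  obtain ⟨T, hT⟩ := h
  refine (T.finite_toSet.image fun t : G => (t : G ⧸ D.H)).subset fun q hq => ?_
  obtain ⟨t, ht, hh⟩ := hT _ hq
  refine ⟨t, ht, ?_⟩
  show (t : G ⧸ D.H) = q
  rw [← QuotientGroup.out_eq' q]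
  exact QuotientGroup.eq.2 hh

theorem C1_finR (h : D.Fin0 Y) : {q : G ⧸ D.H | Y q.out ≠ 0}.Finite := C1_fin h

theorem C1_finL (h : D.Fin0 κ) (x : G) : {q : G ⧸ D.H | κ (q.out⁻¹ * x) ≠ 0}.Finite := by
  classical
  refine C1_fin (P := fun g => κ (g⁻¹ * x) ≠ 0) ?_
  obtain ⟨T, hT⟩ := C1_inv h
  refine ⟨T.image fun t => x * t, fun g hg => ?_⟩
  obtain ⟨t, ht, hh⟩ := hT (x⁻¹ * g) (by simpa using hg)
  refine ⟨x * t, Finset.mem_image_of_mem _ ht, ?_⟩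
  simpa [mul_assoc] using hh

theorem term_finite (hf : D.Fin0 κ ∨ D.Fin0 Y) (x : G) :
    (Function.support fun q : G ⧸ D.H => κ (q.out⁻¹ * x) * Y q.out).Finite := by
  rcases hf with h | h
  · exact (C1_finL h x).subset fun q hq h0 => hq (by simp [h0])
  · exact (C1_finR h).subset fun q hq h0 => hq (by simp [h0])

theorem term_out (hκ : D.LEqv κ) (hY : D.Eqv Y) (g x : G) :
    κ ((g : G ⧸ D.H).out⁻¹ * x) * Y (g : G ⧸ D.H).out = κ (g⁻¹ * x) * Y g := by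
  obtain ⟨h, hh⟩ := QuotientGroup.mk_out_eq_mul D.H g
  rw [hh, mul_inv_rev, mul_assoc, hκ _ _ (D.H.inv_mem h.2), hY _ _ h.2, inv_inv, mul_assoc,
    ← mul_assoc (D.μ h), D.μ_mul_inv h.2, one_mul]

theorem conv_eq_sum (hκ : D.LEqv κ) (hY : D.Eqv Y) (x : G) (T : Finset G)
    (hT : ∀ t ∈ T, ∀ t' ∈ T, t⁻¹ * t' ∈ D.H → t = t')
    (hs : ∀ g, κ (g⁻¹ * x) * Y g ≠ 0 → ∃ t ∈ T, t⁻¹ * g ∈ D.H) :
    D.conv κ Y x = ∑ t ∈ T, κ (t⁻¹ * x) * Y t := by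
  classical
  unfold conv
  rw [finsum_eq_sum_of_support_subset _ (s := T.image fun t : G => (t : G ⧸ D.H)),
    Finset.sum_image]
  · exact Finset.sum_congr rfl fun t _ => term_out hκ hY t x
  · intro t ht t' ht' e
    exact hT t ht t' ht' (QuotientGroup.eq.1 e)
  · intro q hq
    obtain ⟨t, ht, hh⟩ := hs _ hq
    refine Finset.mem_coe.2 (Finset.mem_image.2 ⟨t, ht, ?_⟩)
    rw [← QuotientGroup.out_eq' q]
    exact QuotientGroup.eq.2 hh

theorem conv_zero_right : D.conv κ 0 = 0 := by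
  funext x
  simp [conv]

theorem conv_add_right (hf : D.Fin0 κ ∨ D.Fin0 Y ∧ D.Fin0 Y') :
    D.conv κ (Y + Y') = D.conv κ Y + D.conv κ Y' := by
  funext x
  simp only [conv, Pi.add_apply, mul_add]
  exact finsum_add_distrib (term_finite (hf.imp_right And.left) x)
    (term_finite (hf.imp_right And.right) x)

theorem conv_neg_right : D.conv κ (-Y) = -D.conv κ Y := by
  funext x
  simp only [conv, Pi.neg_apply, mul_neg]
  exact finsum_neg_distrib _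

theorem conv_sub_right (hf : D.Fin0 κ ∨ D.Fin0 Y ∧ D.Fin0 Y') :
    D.conv κ (Y - Y') = D.conv κ Y - D.conv κ Y' := by
  funext x
  simp only [conv, Pi.sub_apply, mul_sub]
  exact finsum_sub_distrib (term_finite (hf.imp_right And.left) x)
    (term_finite (hf.imp_right And.right) x)

theorem conv_smul_right (c : E) : D.conv κ (c • Y) = c • D.conv κ Y := by
  funext x
  simp only [conv, Pi.smul_apply, Matrix.mul_smul]
  exact (smul_finsum c _).symm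

theorem conv_sum_right {σ : Type} {s : Finset σ} {Y : σ → G → Matrix ι ι E}
    (hf : D.Fin0 κ ∨ ∀ i ∈ s, D.Fin0 (Y i)) :
    D.conv κ (∑ i ∈ s, Y i) = ∑ i ∈ s, D.conv κ (Y i) := by
  funext x
  simp only [conv, Finset.sum_apply, Finset.mul_sum]
  exact finsum_sum_comm s (fun (q : G ⧸ D.H) i => κ (q.out⁻¹ * x) * Y i q.out)
    fun i hi => term_finite (hf.imp_right fun h => h i hi) x

theorem conv_sub_left (hf : D.Fin0 κ ∧ D.Fin0 κ' ∨ D.Fin0 Y) :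
    D.conv (κ - κ') Y = D.conv κ Y - D.conv κ' Y := by
  funext x
  simp only [conv, Pi.sub_apply, sub_mul]
  exact finsum_sub_distrib (term_finite (hf.imp_left And.left) x)
    (term_finite (hf.imp_left And.right) x)

theorem conv_eqv (hκ : D.Eqv κ) (hf : D.Fin0 κ ∨ D.Fin0 Y) : D.Eqv (D.conv κ Y) := by
  intro x h hh
  unfold conv
  rw [mul_finsum' _ _ (term_finite hf x)]
  refine finsum_congr fun q => ?_
  rw [← mul_assoc, hκ _ _ hh, mul_assoc]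

theorem conv_translate (hκ : D.LEqv κ) (hY : D.Eqv Y) (hf : D.Fin0 κ ∨ D.Fin0 Y) (g : G)
    (A : Matrix ι ι E) (x : G) :
    D.conv κ (fun y => Y (g * y) * A) x = D.conv κ Y (g * x) * A := by
  unfold conv
  rw [finsum_mul' _ _ (term_finite hf (g * x))]
  conv_rhs => rw [← finsum_comp_equiv (MulAction.toPerm g : Equiv.Perm (G ⧸ D.H))]
  refine finsum_congr fun q => ?_
  have e : (MulAction.toPerm g : Equiv.Perm (G ⧸ D.H)) q = ((g * q.out : G) : G ⧸ D.H) := by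
    rw [MulAction.toPerm_apply]
    conv_lhs => rw [← QuotientGroup.out_eq' q]
    rfl
  rw [e, term_out hκ hY, ← mul_assoc]
  congr 3
  group

theorem conv_leqv (hκ : D.LEqv κ) (hY : D.Eqv Y) (hY' : D.LEqv Y) (hf : D.Fin0 κ ∨ D.Fin0 Y) :
    D.LEqv (D.conv κ Y) := by
  intro x h hh
  have h1 := conv_translate hκ hY hf h 1 x
  have h2 := conv_translate hκ hY hf 1 (D.μ h⁻¹) x
  rw [mul_one] at h1
  rw [one_mul] at h2
  rw [← h1, ← h2]
  congr 1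
  funext y
  rw [mul_one, one_mul, hY' _ _ hh]

theorem conv_fin0 (hκ : D.Fin0 κ) (hY : D.Fin0 Y) : D.Fin0 (D.conv κ Y) := by
  classical
  obtain ⟨S, hS⟩ := hκ
  obtain ⟨T, hT⟩ := hY
  obtain ⟨U, hU⟩ := exists_sat D S
  refine ⟨(T ×ˢ U).image fun p => p.1 * p.2, fun x hx => ?_⟩
  have h1 : ∃ q : G ⧸ D.H, κ (q.out⁻¹ * x) * Y q.out ≠ 0 := by
    by_contra h0
    apply hx
    push Not at h0
    simp [conv, h0]
  obtain ⟨q, hq⟩ := h1
  obtain ⟨t, ht, hh⟩ := hT q.out fun h0 => hq (by simp [h0])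
  obtain ⟨u, hu, hk⟩ := hU _ hh _ (hS (q.out⁻¹ * x) fun h0 => hq (by simp [h0]))
  refine ⟨t * u, Finset.mem_image.2 ⟨(t, u), Finset.mem_product.2 ⟨ht, hu⟩, rfl⟩, ?_⟩
  simpa [mul_assoc] using hk

theorem Ker.conv (hκ : D.Ker κ) (hY : D.Ker Y) : D.Ker (D.conv κ Y) :=
  ⟨conv_eqv hκ.1 (Or.inl hκ.2.2), conv_leqv hκ.2.1 hY.1 hY.2.1 (Or.inl hκ.2.2),
    conv_fin0 hκ.2.2 hY.2.2⟩

theorem C1_del_one : D.del 1 = 1 := by
  simp [del, D.μ_one]

theorem C1_del_mem {x : G} (h : D.del x ≠ 0) : x ∈ D.H := by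
  by_contra h1
  exact h (by simp [del, h1])

theorem conv_del (hκ : D.LEqv κ) : D.conv κ D.del = κ := by
  funext x
  rw [conv_eq_sum hκ del_ker.1 x {1}]
  · simp [C1_del_one]
  · intro t ht t' ht' _
    rw [Finset.mem_singleton.1 ht, Finset.mem_singleton.1 ht']
  · intro g hg
    refine ⟨1, Finset.mem_singleton_self _, ?_⟩
    have : g ∈ D.H := C1_del_mem fun h0 => hg (by simp [h0])
    simpa using this

theorem del_conv (hY : D.Eqv Y) : D.conv D.del Y = Y := by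
  funext x
  rw [conv_eq_sum del_ker.2.1 hY x {x}]
  · simp [C1_del_one]
  · intro t ht t' ht' _
    rw [Finset.mem_singleton.1 ht, Finset.mem_singleton.1 ht']
  · intro g hg
    refine ⟨x, Finset.mem_singleton_self _, ?_⟩
    have : g⁻¹ * x ∈ D.H := C1_del_mem fun h0 => hg (by simp [h0])
    simpa using D.H.inv_mem this

theorem C1_pair {α β : Type} {S : Set α} {R : α → Set β} (hS : S.Finite)
    (hR : ∀ a, (R a).Finite) : {p : α × β | p.1 ∈ S ∧ p.2 ∈ R p.1}.Finite := by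
  refine (hS.biUnion fun a _ => (hR a).image fun b => (a, b)).subset fun p hp => ?_
  exact Set.mem_biUnion hp.1 ⟨p.2, hp.2, rfl⟩

theorem C1_swap {α β M : Type} [AddCommMonoid M] (f : α → β → M)
    (hf : (Function.support fun p : α × β => f p.1 p.2).Finite) :
    ∑ᶠ a, ∑ᶠ b, f a b = ∑ᶠ b, ∑ᶠ a, f a b := by
  have h1 := finsum_curry (fun p : α × β => f p.1 p.2) hf
  have h2 := finsum_curry (fun p : β × α => f p.2 p.1)
    ((hf.image Prod.swap).subset fun p hp => ⟨p.swap, hp, rfl⟩)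
  rw [← h1, ← h2, ← finsum_comp_equiv (Equiv.prodComm β α)]
  rfl

theorem conv_assoc (hφ : D.LEqv φ) (hκ : D.Ker κ) (hY : D.Eqv Y) (hf : D.Fin0 φ ∨ D.Fin0 Y) :
    D.conv φ (D.conv κ Y) = D.conv (D.conv φ κ) Y := by
  funext x
  have hL : D.conv φ (D.conv κ Y) x = ∑ᶠ (q : G ⧸ D.H) (p : G ⧸ D.H),
      φ (q.out⁻¹ * x) * (κ (p.out⁻¹ * q.out) * Y p.out) := by
    refine finsum_congr fun q => ?_
    exact mul_finsum' _ _ (term_finite (Or.inl hκ.2.2) q.out)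
  have hR : D.conv (D.conv φ κ) Y x = ∑ᶠ (p : G ⧸ D.H) (q : G ⧸ D.H),
      φ (q.out⁻¹ * x) * (κ (p.out⁻¹ * q.out) * Y p.out) := by
    refine finsum_congr fun p => ?_
    rw [← conv_translate hφ hκ.1 (Or.inr hκ.2.2)]
    rfl
  rw [hL, hR]
  apply C1_swap
  rcases hf with h | h
  · refine (C1_pair (C1_finL h x) fun q : G ⧸ D.H => C1_finL hκ.2.2 q.out).subset fun p hp => ?_
    exact ⟨fun h0 => hp (by simp [h0]), fun h0 => hp (by simp [h0])⟩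
  · have h2 := (C1_pair (C1_finR h) fun p : G ⧸ D.H =>
      C1_finR (hκ.2.2.translate p.out⁻¹ 1)).image Prod.swap
    refine h2.subset fun p hp => ⟨p.swap, ⟨fun h0 => hp ?_, fun h0 => hp ?_⟩, rfl⟩
    · have h3 : Y p.2.out = 0 := h0
      simp [h3]
    · have h3 : κ (p.2.out⁻¹ * p.1.out) * 1 = 0 := h0
      rw [mul_one] at h3
      simp [h3]

end Fib

end Pool.Agent.MP_4d0c14_b

end

section

/-! Norm estimates, truncation and averaging. -/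

namespace Pool.Agent.MP_4d0c14_b

open scoped Matrix

namespace Fib

set_option linter.unusedSectionVars false

variable {G E ι : Type} [Group G] [NormedField E] [IsUltrametricDist E] [Fintype ι]
  [DecidableEq ι] {D : Fib G E ι} {κ Y Y' : G → Matrix ι ι E}

theorem C2_dec_mono_aux {a b : ℝ} (hb : 0 < b) : b * (a / b) = a := by field_simp

theorem Bdd.dual (h : D.Bdd) : D.dual.Bdd := by
  obtain ⟨C, hC, h⟩ := h
  exact ⟨C, hC, fun g hg => (h _ (D.H.inv_mem hg)).transpose⟩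

theorem Fin0.dec (h : D.Fin0 Y) : D.Dec Y := by
  obtain ⟨T, hT⟩ := h
  refine fun ε hε => ⟨T, fun x hx => ?_⟩
  by_cases h0 : Y x = 0
  · rw [h0]; exact MLe.zero hε.le
  · obtain ⟨t, ht, h⟩ := hT x h0
    exact absurd h (hx t ht)

theorem Dec.add (h : D.Dec Y) (h' : D.Dec Y') : D.Dec (Y + Y') := by
  classical
  intro ε hε
  obtain ⟨T, hT⟩ := h ε hε
  obtain ⟨T', hT'⟩ := h' ε hε
  exact ⟨T ∪ T', fun x hx => (hT x fun t ht => hx t (Finset.mem_union_left _ ht)).add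
    (hT' x fun t ht => hx t (Finset.mem_union_right _ ht))⟩

theorem Dec.neg (h : D.Dec Y) : D.Dec (-Y) := fun ε hε => by
  obtain ⟨T, hT⟩ := h ε hε
  exact ⟨T, fun x hx => (hT x hx).neg⟩

theorem Dec.sub (h : D.Dec Y) (h' : D.Dec Y') : D.Dec (Y - Y') := by
  rw [sub_eq_add_neg]; exact h.add h'.neg

theorem Dec.smul (h : D.Dec Y) (c : E) : D.Dec (c • Y) := fun ε hε => by
  have hc : 0 < ‖c‖ + 1 := by positivity
  obtain ⟨T, hT⟩ := h (ε / (‖c‖ + 1)) (div_pos hε hc)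
  refine ⟨T, fun x hx => ((hT x hx).smul c).mono ?_⟩
  calc ‖c‖ * (ε / (‖c‖ + 1)) ≤ (‖c‖ + 1) * (ε / (‖c‖ + 1)) :=
        mul_le_mul_of_nonneg_right (by linarith) (div_pos hε hc).le
    _ = ε := C2_dec_mono_aux hc

theorem Dec.sum {σ : Type} {s : Finset σ} {Y : σ → G → Matrix ι ι E} (h : ∀ i ∈ s, D.Dec (Y i)) :
    D.Dec (∑ i ∈ s, Y i) :=
  Finset.sum_induction Y D.Dec (fun _ _ => Dec.add) Fin0.zero.dec h

theorem Dec.translate (h : D.Dec Y) (g : G) (A : Matrix ι ι E) :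
    D.Dec fun x => Y (g * x) * A := fun ε hε => by
  classical
  obtain ⟨C, hC, hA⟩ := MLe.exists_bound A
  obtain ⟨T, hT⟩ := h (ε / C) (div_pos hε hC)
  refine ⟨T.image (g⁻¹ * ·), fun x hx => ?_⟩
  have h1 := (hT (g * x) fun t ht hm => hx (g⁻¹ * t) (Finset.mem_image_of_mem _ ht)
    (by simpa [mul_assoc] using hm)).mul hA (div_pos hε hC).le hC.le
  rwa [div_mul_cancel₀ _ hC.ne'] at h1

theorem C2_dec_right (h : D.Dec Y) {g : G} (hg : g ∈ D.H) (A : Matrix ι ι E) :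
    D.Dec fun x => A * Y (x * g) := fun ε hε => by
  obtain ⟨C, hC, hA⟩ := MLe.exists_bound A
  obtain ⟨T, hT⟩ := h (ε / C) (div_pos hε hC)
  refine ⟨T, fun x hx => ?_⟩
  have h1 := hA.mul (hT (x * g) fun t ht hm => hx t ht
    (by simpa [mul_assoc] using D.H.mul_mem hm (D.H.inv_mem hg))) hC.le (div_pos hε hC).le
  rwa [C2_dec_mono_aux hC] at h1

theorem Dec.exists_bound (hB : D.Bdd) (he : D.Eqv Y) (h : D.Dec Y) :
    ∃ M : ℝ, 0 < M ∧ ∀ x, MLe M (Y x) := by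
  obtain ⟨C, hC, hμ⟩ := hB
  obtain ⟨T, hT⟩ := h 1 one_pos
  choose c hc hcY using fun t : G => MLe.exists_bound (Y t)
  have hs : 0 ≤ ∑ t ∈ T, c t := Finset.sum_nonneg fun t _ => (hc t).le
  refine ⟨1 + C * ∑ t ∈ T, c t, by positivity, fun x => ?_⟩
  by_cases hx : ∀ t ∈ T, t⁻¹ * x ∉ D.H
  · exact (hT x hx).mono (le_add_of_nonneg_right (by positivity))
  · push Not at hx
    obtain ⟨t, ht, hm⟩ := hx
    have e : Y x = D.μ (t⁻¹ * x)⁻¹ * Y t := by rw [← he t _ hm, mul_inv_cancel_left]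
    rw [e]
    refine ((hμ _ (D.H.inv_mem hm)).mul (hcY t) hC.le (hc t).le).mono ?_
    have := Finset.single_le_sum (f := c) (fun t _ => (hc t).le) ht
    nlinarith

theorem conv_mle {a b : ℝ} (ha : 0 ≤ a) (hb : 0 ≤ b) (hκ : ∀ x, MLe a (κ x))
    (hY : ∀ x, MLe b (Y x)) (x : G) : MLe (a * b) (D.conv κ Y x) :=
  MLe.finsum (mul_nonneg ha hb) fun _ => (hκ _).mul (hY _) ha hb

theorem conv_dec (hB : D.Bdd) (hκ : D.Ker κ) (hY : D.Dec Y) : D.Dec (D.conv κ Y) := by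
  classical
  intro ε hε
  obtain ⟨M, hM, hκM⟩ := Dec.exists_bound hB hκ.1 hκ.2.2.dec
  obtain ⟨S, hS⟩ := hY (ε / M) (div_pos hε hM)
  obtain ⟨T, hT⟩ := hκ.2.2
  obtain ⟨T', hT'⟩ := exists_sat D T
  refine ⟨Finset.image₂ (· * ·) S T', fun x hx => MLe.finsum hε.le fun q => ?_⟩
  by_cases hq : ∀ s ∈ S, s⁻¹ * q.out ∉ D.H
  · have h1 := (hκM (q.out⁻¹ * x)).mul (hS _ hq) hM.le (div_pos hε hM).le
    rwa [C2_dec_mono_aux hM] at h1
  · push Not at hq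
    obtain ⟨s, hs, hm⟩ := hq
    by_cases h0 : κ (q.out⁻¹ * x) = 0
    · rw [h0, Matrix.zero_mul]; exact MLe.zero hε.le
    · obtain ⟨t', ht', h2⟩ := hT' _ hm _ (hT _ h0)
      exact absurd (by simpa [mul_assoc] using h2)
        (hx (s * t') (Finset.mem_image₂_of_mem hs ht'))

/-- truncation of a bi-equivariant function tending to zero -/
theorem exists_trunc (he : D.Eqv Y) (hl : D.LEqv Y) (hd : D.Dec Y) {ε : ℝ} (hε : 0 < ε) :
    ∃ Y', D.Ker Y' ∧ ∀ x, MLe ε (Y x - Y' x) := by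
  classical
  obtain ⟨T, hT⟩ := hd ε hε
  obtain ⟨T', hT'⟩ := exists_sat D T
  let P : G → Prop := fun x => ∃ h ∈ D.H, ∃ t ∈ T, t⁻¹ * (h * x) ∈ D.H
  have hr : ∀ x, ∀ h ∈ D.H, P x → P (x * h) := fun x h hh ⟨k, hk, t, ht, hm⟩ =>
    ⟨k, hk, t, ht, by simpa [mul_assoc] using D.H.mul_mem hm hh⟩
  have hL : ∀ x, ∀ h ∈ D.H, P x → P (h * x) := fun x h hh ⟨k, hk, t, ht, hm⟩ =>
    ⟨k * h⁻¹, D.H.mul_mem hk (D.H.inv_mem hh), t, ht, by simpa [mul_assoc] using hm⟩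
  refine ⟨fun x => if P x then Y x else 0, ⟨fun x h hh => ?_, fun x h hh => ?_, T', ?_⟩, ?_⟩
  · by_cases hx : P x
    · simp only [if_pos hx, if_pos (hr x h hh hx)]
      exact he x h hh
    · have hx' : ¬P (x * h) := fun hp => hx (by simpa using hr _ _ (D.H.inv_mem hh) hp)
      simp only [if_neg hx, if_neg hx', Matrix.mul_zero]
  · by_cases hx : P x
    · simp only [if_pos hx, if_pos (hL x h hh hx)]
      exact hl x h hh
    · have hx' : ¬P (h * x) := fun hp => hx (by simpa using hL _ _ (D.H.inv_mem hh) hp)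
      simp only [if_neg hx, if_neg hx', Matrix.zero_mul]
  · intro x hx
    have hp : P x := by
      by_contra hp
      exact hx (if_neg hp)
    obtain ⟨h, hh, t, ht, hm⟩ := hp
    simpa using hT' _ (D.H.inv_mem hh) _ ⟨t, ht, hm⟩
  · intro x
    by_cases hx : P x
    · simp only [if_pos hx, sub_self]
      exact MLe.zero hε.le
    · simp only [if_neg hx, sub_zero]
      exact hT x fun t ht hm => hx ⟨1, D.H.one_mem, t, ht, by simpa using hm⟩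

/-- an exact bi-equivariant solution gives approximate solutions of finite support -/
theorem approx_of_sol (hB : D.Bdd) {d : ℕ} {κ : Fin d → G → Matrix ι ι E} (hκ : ∀ i, D.Ker (κ i))
    (Y : Fin d → G → Matrix ι ι E) (hY : ∀ i, D.Eqv (Y i) ∧ D.LEqv (Y i) ∧ D.Dec (Y i))
    (h : ∑ i, D.conv (κ i) (Y i) = D.del) : D.Approx κ := by
  intro ε hε
  choose M hM hκM using fun i => Dec.exists_bound hB (hκ i).1 (hκ i).2.2.dec
  choose Y' hY' hb using fun i =>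
    exists_trunc (hY i).1 (hY i).2.1 (hY i).2.2 (div_pos hε (hM i))
  refine ⟨Y', hY', fun x => ?_⟩
  have e : D.del x - ∑ i, D.conv (κ i) (Y' i) x = ∑ i, D.conv (κ i) (Y i - Y' i) x := by
    rw [← h, Finset.sum_apply, ← Finset.sum_sub_distrib]
    refine Finset.sum_congr rfl fun i _ => ?_
    rw [conv_sub_right (Or.inl (hκ i).2.2), Pi.sub_apply]
  rw [e]
  refine MLe.sum hε.le fun i _ => ?_
  have h1 := conv_mle (D := D) (hM i).le (div_pos hε (hM i)).le (hκM i) (Y := Y i - Y' i)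
    (fun y => hb i y) x
  rwa [C2_dec_mono_aux (hM i)] at h1

/-- representatives of `H / K`; left translation permutes them -/
theorem C2_reps {M : Type} [AddCommMonoid M] (H K : Subgroup G)
    (hfin : ∃ T : Finset G, ∀ h ∈ H, ∃ t ∈ T, t⁻¹ * h ∈ K) (hK : K ≤ H) :
    ∃ R : Finset G, R.Nonempty ∧ (∀ t ∈ R, t ∈ H) ∧ ∀ F : G → M,
      (∀ t ∈ H, ∀ k ∈ K, F (t * k) = F t) → ∀ h ∈ H, ∑ t ∈ R, F (h * t) = ∑ t ∈ R, F t := by
  classical
  obtain ⟨T, hT⟩ := hfin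
  obtain ⟨R, hsub, hinj, hcov⟩ := exists_reps K (T.filter (· ∈ H))
  have hRH : ∀ t ∈ R, t ∈ H := fun t ht => (Finset.mem_filter.1 (hsub ht)).2
  have hc : ∀ g : G, ∃ r, g ∈ H → r ∈ R ∧ r⁻¹ * g ∈ K := by
    intro g
    by_cases hg : g ∈ H
    · obtain ⟨t, ht, hm⟩ := hT g hg
      have htH : t ∈ H := by simpa using H.mul_mem hg (H.inv_mem (hK hm))
      obtain ⟨r, hr, hm'⟩ := hcov t (Finset.mem_filter.2 ⟨ht, htH⟩)
      exact ⟨r, fun _ => ⟨hr, by simpa [mul_assoc] using K.mul_mem hm' hm⟩⟩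
    · exact ⟨1, fun h => absurd h hg⟩
  choose σ hσ using hc
  refine ⟨R, ⟨σ 1, (hσ 1 H.one_mem).1⟩, hRH, fun F hF h hh => ?_⟩
  have key : ∀ h ∈ H, ∀ t ∈ R, σ (h⁻¹ * σ (h * t)) = t := by
    intro h hh t ht
    have h1 := hσ (h * t) (H.mul_mem hh (hRH t ht))
    have h2 := hσ (h⁻¹ * σ (h * t)) (H.mul_mem (H.inv_mem hh) (hRH _ h1.1))
    exact hinj _ h2.1 _ ht (by simpa [mul_assoc] using K.mul_mem h2.2 h1.2)
  refine Finset.sum_nbij' (fun t => σ (h * t)) (fun t => σ (h⁻¹ * t))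
    (fun t ht => (hσ _ (H.mul_mem hh (hRH t ht))).1)
    (fun t ht => (hσ _ (H.mul_mem (H.inv_mem hh) (hRH t ht))).1)
    (fun t ht => key h hh t ht) (fun t ht => ?_) (fun t ht => ?_)
  · simpa using key h⁻¹ (H.inv_mem hh) t ht
  · have h1 := hσ (h * t) (H.mul_mem hh (hRH t ht))
    rw [← hF _ (hRH _ h1.1) _ h1.2, mul_inv_cancel_left]

/-- averaging on the left over `H / K` -/
theorem exists_avg_left [CharZero E] (K : Subgroup G) (hK : K ≤ D.H)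
    (hfin : ∃ T : Finset G, ∀ h ∈ D.H, ∃ t ∈ T, t⁻¹ * h ∈ K) {d : ℕ}
    {κ : Fin d → G → Matrix ι ι E} (hκ : ∀ i, D.Ker (κ i)) (Y : Fin d → G → Matrix ι ι E)
    (hY : ∀ i, D.Eqv (Y i) ∧ D.Dec (Y i))
    (hl : ∀ i, ∀ k ∈ K, ∀ x, Y i (k⁻¹ * x) * D.μ k⁻¹ = Y i x)
    (h : ∑ i, D.conv (κ i) (Y i) = D.del) :
    ∃ Y' : Fin d → G → Matrix ι ι E, (∀ i, D.Eqv (Y' i) ∧ D.LEqv (Y' i) ∧ D.Dec (Y' i)) ∧
      ∑ i, D.conv (κ i) (Y' i) = D.del := by
  obtain ⟨R, hne, hRH, hperm⟩ := C2_reps (M := Matrix ι ι E) D.H K hfin hK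
  have hc : (R.card : E) ≠ 0 := Nat.cast_ne_zero.2 hne.card_pos.ne'
  refine ⟨fun i => (R.card : E)⁻¹ • ∑ t ∈ R, fun x => Y i (t⁻¹ * x) * D.μ t⁻¹,
    fun i => ⟨?_, ?_, ?_⟩, ?_⟩
  · exact (Eqv.sum fun t _ => (hY i).1.translate _ _).smul _
  · intro x h hh
    simp only [Pi.smul_apply, Finset.sum_apply, Matrix.smul_mul, Finset.sum_mul]
    congr 1
    rw [← hperm (fun t => Y i (t⁻¹ * (h * x)) * D.μ t⁻¹) ?_ h hh]
    · refine Finset.sum_congr rfl fun t ht => ?_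
      simp only [mul_inv_rev]
      rw [D.μ_mul _ (D.H.inv_mem (hRH t ht)) _ (D.H.inv_mem hh), Matrix.mul_assoc]
      simp [mul_assoc]
    · intro t ht k hk
      simp only [mul_inv_rev]
      rw [D.μ_mul _ (D.H.inv_mem (hK hk)) _ (D.H.inv_mem ht), ← Matrix.mul_assoc, mul_assoc k⁻¹,
        hl i k hk]
  · exact (Dec.sum fun t _ => (hY i).2.translate _ _).smul _
  · funext x
    have e : ∀ i, D.conv (κ i) ((R.card : E)⁻¹ • ∑ t ∈ R, fun x => Y i (t⁻¹ * x) * D.μ t⁻¹) x =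
        (R.card : E)⁻¹ • ∑ t ∈ R, D.conv (κ i) (Y i) (t⁻¹ * x) * D.μ t⁻¹ := by
      intro i
      rw [conv_smul_right, conv_sum_right (Or.inl (hκ i).2.2), Pi.smul_apply, Finset.sum_apply]
      congr 1
      exact Finset.sum_congr rfl fun t _ =>
        conv_translate (hκ i).2.1 (hY i).1 (Or.inl (hκ i).2.2) _ _ _
    have e2 : ∀ t ∈ R, ∑ i, D.conv (κ i) (Y i) (t⁻¹ * x) * D.μ t⁻¹ = D.del x := by
      intro t ht
      rw [← Finset.sum_mul, ← Finset.sum_apply, h,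
        (del_ker (D := D)).2.1 x _ (D.H.inv_mem (hRH t ht)), inv_inv, Matrix.mul_assoc,
        D.μ_mul_inv (hRH t ht), Matrix.mul_one]
    rw [Finset.sum_apply, Finset.sum_congr rfl fun i _ => e i, ← Finset.smul_sum,
      Finset.sum_comm, Finset.sum_congr rfl e2, Finset.sum_const, ← Nat.cast_smul_eq_nsmul E,
      smul_smul, inv_mul_cancel₀ hc, one_smul]

/-- averaging on the right over `H / K` -/
theorem exists_avg_right [CharZero E] (K : Subgroup G) (hK : K ≤ D.H)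
    (hfin : ∃ T : Finset G, ∀ h ∈ D.H, ∃ t ∈ T, t⁻¹ * h ∈ K) (β : G → Matrix ι ι E)
    (hβ : ∀ x, ∀ k ∈ K, β (x * k) = D.μ k⁻¹ * β x) (hd : D.Dec β) :
    ∃ β' : G → Matrix ι ι E, D.Eqv β' ∧ D.Dec β' ∧
      ∀ (g : G) (A : Matrix ι ι E) (Z : G → Matrix ι ι E), D.Eqv Z →
        (∀ x, Z x = β (g * x) * A - β x) → ∀ x, Z x = β' (g * x) * A - β' x := by
  obtain ⟨R, hne, hRH, hperm⟩ := C2_reps (M := Matrix ι ι E) D.H K hfin hK
  have hc : (R.card : E) ≠ 0 := Nat.cast_ne_zero.2 hne.card_pos.ne'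
  refine ⟨(R.card : E)⁻¹ • ∑ t ∈ R, fun y => D.μ t * β (y * t), ?_, ?_, ?_⟩
  · intro x h hh
    simp only [Pi.smul_apply, Finset.sum_apply, Matrix.mul_smul]
    congr 1
    rw [← hperm (fun t => D.μ t * β (x * t)) ?_ h hh, Finset.mul_sum]
    · refine Finset.sum_congr rfl fun t ht => ?_
      rw [D.μ_mul _ hh _ (hRH t ht), ← Matrix.mul_assoc, ← Matrix.mul_assoc, D.μ_inv_mul hh,
        Matrix.one_mul, mul_assoc x]
    · intro t ht k hk
      rw [D.μ_mul _ ht _ (hK hk), ← mul_assoc x, hβ _ k hk, Matrix.mul_assoc,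
        ← Matrix.mul_assoc (D.μ k), D.μ_mul_inv (hK hk), Matrix.one_mul]
  · exact (Dec.sum fun t ht => C2_dec_right hd (hRH t ht) _).smul _
  · intro g A Z hZ hZβ x
    have e : ∀ t ∈ R, D.μ t * β (g * x * t) * A - D.μ t * β (x * t) = Z x := by
      intro t ht
      rw [Matrix.mul_assoc, ← Matrix.mul_sub, mul_assoc g, ← hZβ, hZ x t (hRH t ht),
        ← Matrix.mul_assoc, D.μ_mul_inv (hRH t ht), Matrix.one_mul]
    simp only [Pi.smul_apply, Finset.sum_apply, Matrix.smul_mul, Finset.sum_mul]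
    rw [← smul_sub, ← Finset.sum_sub_distrib, Finset.sum_congr rfl e, Finset.sum_const,
      ← Nat.cast_smul_eq_nsmul E, smul_smul, inv_mul_cancel₀ hc, one_smul]

end Fib

end Pool.Agent.MP_4d0c14_b

end

section

/-! Gluing the local coboundaries. -/

namespace Pool.Agent.MP_4d0c14_b

open scoped Matrix

namespace Fib

variable {G E ι : Type} [Group G] [NormedField E] [IsUltrametricDist E] [CharZero E] [Fintype ι]
  [DecidableEq ι] {D : Fib G E ι}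

omit [IsUltrametricDist E] [CharZero E] in
theorem C3_conj {Y : G → Matrix ι ι E} (hY : D.Eqv Y) {s x : G} (h : x⁻¹ * s * x ∈ D.H) :
    Y (s⁻¹ * x) = D.μ (x⁻¹ * s * x) * Y x := by
  have := hY x _ (D.H.inv_mem h)
  rw [inv_inv] at this
  rw [← this]
  congr 1
  group

omit [CharZero E] in
theorem C3_unif (hB : D.Bdd) (X : D.H1Data) (Z : G → G → Matrix ι ι E)
    (hZ : ∀ k ∈ D.H, D.Eqv (Z k) ∧ D.Dec (Z k))
    (hc : ∀ k ∈ D.H, ∀ k' ∈ D.H, ∀ x, Z (k * k') x = Z k x + Z k' (k⁻¹ * x) * D.μ k⁻¹)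
    (hcont : ∀ ε : ℝ, 0 < ε → ∃ i, ∀ k ∈ X.K i, ∀ x, MLe ε (Z k x)) {δ : ℝ} (hδ : 0 < δ) :
    ∃ T : Finset G, ∀ k ∈ X.K 0, ∀ x, (∀ t ∈ T, t⁻¹ * x ∉ D.H) → MLe δ (Z k x) := by
  classical
  obtain ⟨C, hC, hμ⟩ := hB
  obtain ⟨i, hi⟩ := hcont δ hδ
  obtain ⟨T, hT⟩ := X.K_fin i
  have hKH : ∀ k ∈ X.K 0, k ∈ D.H := fun k hk => X.Kp_le (X.K_le hk)
  have h1 : ∀ t : G, ∃ S : Finset G, t ∈ D.H → ∀ h ∈ D.H, ∀ x, (∀ s ∈ S, s⁻¹ * x ∉ D.H) →
      MLe (δ / C) (Z t (h⁻¹ * x)) := by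
    intro t
    by_cases ht : t ∈ D.H
    · obtain ⟨S0, hS0⟩ := (hZ t ht).2 (δ / C) (div_pos hδ hC)
      obtain ⟨S, hS⟩ := exists_sat D S0
      refine ⟨S, fun _ h hh x hx => hS0 _ fun s hs hs' => ?_⟩
      obtain ⟨t', ht', h'⟩ := hS h hh _ ⟨s, hs, hs'⟩
      rw [mul_inv_cancel_left] at h'
      exact hx t' ht' h'
    · exact ⟨∅, fun h => absurd h ht⟩
  choose S hS using h1
  refine ⟨T.biUnion S, fun k hk x hx => ?_⟩
  obtain ⟨t, ht, hkt⟩ := hT k hk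
  have hk' : k * t⁻¹ ∈ D.H := hKH _ (X.anti (Nat.zero_le i) hkt)
  have htH : t ∈ D.H := by
    have := D.H.mul_mem (D.H.inv_mem hk') (hKH k hk)
    rwa [mul_inv_rev, inv_inv, inv_mul_cancel_right] at this
  have e := hc _ hk' t htH x
  rw [inv_mul_cancel_right] at e
  rw [e]
  refine (hi _ hkt x).add ?_
  have h2 := (hS t htH _ hk' x fun s hs => hx s (Finset.mem_biUnion.2 ⟨t, ht, hs⟩)).mul
    (hμ _ (D.H.inv_mem hk')) (div_pos hδ hC).le hC.le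
  rwa [div_mul_cancel₀ _ hC.ne'] at h2

theorem glue (hB : D.Bdd) (X : D.H1Data) (Z : G → G → Matrix ι ι E)
    (hZ : ∀ k ∈ D.H, D.Eqv (Z k) ∧ D.Dec (Z k))
    (hc : ∀ k ∈ D.H, ∀ k' ∈ D.H, ∀ x, Z (k * k') x = Z k x + Z k' (k⁻¹ * x) * D.μ k⁻¹)
    (hz : ∀ z ∈ X.Z, Z z = 0)
    (hcont : ∀ ε : ℝ, 0 < ε → ∃ i, ∀ k ∈ X.K i, ∀ x, MLe ε (Z k x)) :
    ∃ β : G → Matrix ι ι E, D.Eqv β ∧ D.Dec β ∧
      ∀ k ∈ X.K 0, ∀ x, Z k x = β (k⁻¹ * x) * D.μ k⁻¹ - β x := by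
  classical
  have hKH : ∀ k ∈ X.K 0, k ∈ D.H := fun k hk => X.Kp_le (X.K_le hk)
  obtain ⟨C, hC, hloc⟩ := X.loc
  have h1 : ∀ x : G, ∃ b : Matrix ι ι E,
      (∀ k ∈ X.K 0, x⁻¹ * k * x ∈ X.Kp → Z k x = D.μ (x⁻¹ * k * x) * b * D.μ k⁻¹ - b) ∧
      ∀ M : ℝ, 0 ≤ M → (∀ k ∈ X.K 0, x⁻¹ * k * x ∈ X.Kp → MLe M (Z k x)) → MLe (C * M) b := by
    intro x
    refine hloc x (fun k => Z k x) (fun k hk k' hk' h _ => ?_) (fun z hz' _ => ?_) fun ε hε => ?_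
    · rw [hc k (hKH k hk) k' (hKH k' hk'), C3_conj (hZ k' (hKH k' hk')).1 (X.Kp_le h)]
    · rw [hz z hz']; rfl
    · obtain ⟨i, hi⟩ := hcont ε hε
      exact ⟨i, fun k hk _ => hi k hk x⟩
  choose b hb hbM using h1
  let F : G → G → G → Matrix ι ι E := fun x k h => D.μ h⁻¹ * (b x + Z k x) * D.μ k
  have hF : ∀ x, ∀ k ∈ X.K 0, ∀ h ∈ X.Kp, ∀ k' ∈ X.K 0, ∀ h' ∈ X.Kp,
      k⁻¹ * x * h = k'⁻¹ * x * h' → F x k h = F x k' h' := by
    intro x k hk h hh k' hk' h' hh' e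
    have hs : k' * k⁻¹ ∈ X.K 0 := (X.K 0).mul_mem hk' ((X.K 0).inv_mem hk)
    have e1 : x⁻¹ * (k' * k⁻¹) * x = h' * h⁻¹ := by
      have : k⁻¹ * x = k'⁻¹ * x * h' * h⁻¹ := by rw [← e]; group
      calc x⁻¹ * (k' * k⁻¹) * x = x⁻¹ * k' * (k⁻¹ * x) := by group
        _ = h' * h⁻¹ := by rw [this]; group
    have hp : x⁻¹ * (k' * k⁻¹) * x ∈ X.Kp := e1 ▸ X.Kp.mul_mem hh' (X.Kp.inv_mem hh)
    have e2 := hc _ (hKH _ hs) k (hKH k hk) x
    rw [inv_mul_cancel_right, C3_conj (hZ k (hKH k hk)).1 (X.Kp_le hp), hb x _ hs hp, e1] at e2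
    have e3 : b x + Z k' x = D.μ (h' * h⁻¹) * (b x + Z k x) * D.μ (k' * k⁻¹)⁻¹ := by
      rw [e2, Matrix.mul_add, Matrix.add_mul]; abel
    have e4 : D.μ h'⁻¹ * D.μ (h' * h⁻¹) = D.μ h⁻¹ := by
      rw [← D.μ_mul _ (D.H.inv_mem (X.Kp_le hh')) _ (X.Kp_le (e1 ▸ hp)), inv_mul_cancel_left]
    have e5 : D.μ (k' * k⁻¹)⁻¹ * D.μ k' = D.μ k := by
      rw [← D.μ_mul _ (D.H.inv_mem (hKH _ hs)) _ (hKH _ hk'), mul_inv_rev, inv_inv,
        inv_mul_cancel_right]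
    change D.μ h⁻¹ * (b x + Z k x) * D.μ k = D.μ h'⁻¹ * (b x + Z k' x) * D.μ k'
    rw [e3, ← e4, ← e5]
    simp only [Matrix.mul_assoc]
  let S : Setoid G :=
    { r := fun x y => ∃ k ∈ X.K 0, ∃ h ∈ X.Kp, y = k⁻¹ * x * h
      iseqv :=
        { refl := fun x => ⟨1, (X.K 0).one_mem, 1, X.Kp.one_mem, by group⟩
          symm := by
            rintro x y ⟨k, hk, h, hh, rfl⟩
            exact ⟨k⁻¹, (X.K 0).inv_mem hk, h⁻¹, X.Kp.inv_mem hh, by group⟩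
          trans := by
            rintro x y z ⟨k, hk, h, hh, rfl⟩ ⟨k', hk', h', hh', rfl⟩
            exact ⟨k * k', (X.K 0).mul_mem hk hk', h * h', X.Kp.mul_mem hh hh', by group⟩ } }
  let rep : G → G := fun y => (Quotient.mk S y).out
  have hrep : ∀ y, ∃ k ∈ X.K 0, ∃ h ∈ X.Kp, y = k⁻¹ * rep y * h := fun y =>
    Quotient.exact (Quotient.out_eq (Quotient.mk S y))
  have hrep' : ∀ y, ∀ k ∈ X.K 0, ∀ h ∈ X.Kp, rep (k⁻¹ * y * h) = rep y := fun y k hk h hh => by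
    have : Quotient.mk S y = Quotient.mk S (k⁻¹ * y * h) := Quotient.sound ⟨k, hk, h, hh, rfl⟩
    simp only [rep, this]
  choose kk hkk hh hhh hy using hrep
  let β : G → Matrix ι ι E := fun y => F (rep y) (kk y) (hh y)
  have hβ : ∀ y, ∀ k ∈ X.K 0, ∀ h ∈ X.Kp,
      β (k⁻¹ * y * h) = F (rep y) (kk y * k) (hh y * h) := by
    intro y k hk h hh'
    have e := hy (k⁻¹ * y * h)
    change F (rep (k⁻¹ * y * h)) _ _ = _
    rw [hrep' y k hk h hh'] at e ⊢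
    refine hF _ _ (hkk _) _ (hhh _) _ ((X.K 0).mul_mem (hkk y) hk) _
      (X.Kp.mul_mem (hhh y) hh') ?_
    rw [← e]
    conv_lhs => rw [hy y]
    group
  have hβ1 : ∀ y, ∀ h ∈ X.Kp, β (y * h) = D.μ h⁻¹ * β y := by
    intro y h hh'
    have e := hβ y 1 (X.K 0).one_mem h hh'
    rw [inv_one, one_mul, mul_one] at e
    rw [e]
    change D.μ (hh y * h)⁻¹ * _ * _ = D.μ h⁻¹ * (D.μ (hh y)⁻¹ * _ * _)
    rw [mul_inv_rev, D.μ_mul _ (D.H.inv_mem (X.Kp_le hh')) _ (D.H.inv_mem (X.Kp_le (hhh y)))]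
    simp only [Matrix.mul_assoc]
  have hβ2 : ∀ k ∈ X.K 0, ∀ y, Z k y = β (k⁻¹ * y) * D.μ k⁻¹ - β y := by
    intro k hk y
    have e := hβ y k hk 1 X.Kp.one_mem
    rw [mul_one, mul_one] at e
    rw [e]
    have e1 : Z k y = D.μ (hh y)⁻¹ * Z k ((kk y)⁻¹ * rep y) := by
      conv_lhs => rw [hy y]
      exact (hZ k (hKH k hk)).1 _ _ (X.Kp_le (hhh y))
    change _ = D.μ (hh y)⁻¹ * (b (rep y) + Z (kk y * k) (rep y)) * D.μ (kk y * k) * D.μ k⁻¹ -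
      D.μ (hh y)⁻¹ * (b (rep y) + Z (kk y) (rep y)) * D.μ (kk y)
    rw [e1, hc _ (hKH _ (hkk y)) k (hKH k hk), D.μ_mul _ (hKH _ (hkk y)) _ (hKH k hk),
      Matrix.mul_assoc _ _ (D.μ k⁻¹), Matrix.mul_assoc _ _ (D.μ k⁻¹), D.μ_mul_inv (hKH k hk),
      Matrix.mul_one, ← add_assoc, Matrix.mul_add _ (_ + _), Matrix.add_mul, add_sub_cancel_left,
      Matrix.mul_assoc, Matrix.mul_assoc, D.μ_inv_mul (hKH _ (hkk y)), Matrix.mul_one]
  have hd : D.Dec β := by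
    intro ε hε
    obtain ⟨C0, hC0, hμ⟩ := id hB
    have hδ : 0 < ε / (C0 * (C + 1) * C0) := by positivity
    obtain ⟨T1, hT1⟩ := C3_unif hB X Z hZ hc hcont hδ
    obtain ⟨T2, hT2⟩ := exists_sat D T1
    refine ⟨T2, fun y hy' => ?_⟩
    have hx : ∀ t ∈ T1, t⁻¹ * rep y ∉ D.H := by
      intro t ht h'
      obtain ⟨t', ht', h''⟩ := hT2 _ (D.H.inv_mem (hKH _ (hkk y))) (rep y * hh y)
        ⟨t, ht, by rw [← mul_assoc]; exact D.H.mul_mem h' (X.Kp_le (hhh y))⟩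
      rw [← mul_assoc (kk y)⁻¹, ← hy y] at h''
      exact hy' t' ht' h''
    set δ := ε / (C0 * (C + 1) * C0) with hδe
    have a1 : MLe ((C + 1) * δ) (b (rep y) + Z (kk y) (rep y)) :=
      ((hbM _ δ hδ.le fun k hk _ => hT1 k hk _ hx).mono (by nlinarith)).add
        ((hT1 _ (hkk y) _ hx).mono (by nlinarith))
    have a2 := ((hμ _ (D.H.inv_mem (X.Kp_le (hhh y)))).mul a1 hC0.le (by positivity)).mul
      (hμ _ (hKH _ (hkk y))) (by positivity) hC0.le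
    refine a2.mono (le_of_eq ?_)
    rw [hδe]
    field_simp
  obtain ⟨β', h1, h2, h3⟩ := exists_avg_right X.Kp X.Kp_le X.Kp_fin β hβ1 hd
  exact ⟨β', h1, h2, fun k hk => h3 k⁻¹ (D.μ k⁻¹) (Z k) (hZ k (hKH k hk)).1 (hβ2 k hk)⟩

end Fib

end Pool.Agent.MP_4d0c14_b

end
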