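import Pool.Agent.Mg.F4d0c14.Gec9bb9
import Mathlib

section

/-! The Cartan decomposition. -/

namespace Pool.Agent.MP_4d0c14_b

open scoped Matrix

section aux

variable {n : ℕ} {F : Type} [NormedField F]

/-- Equivalence under the maximal bounded subgroup. -/
def M2_E (X Y : Matrix (Fin n) (Fin n) F) : Prop :=
  ∃ k₁ k₂ : GL (Fin n) F, Bnd 1 k₁ ∧ Bnd 1 k₂ ∧
    X = (k₁ : Matrix (Fin n) (Fin n) F) * Y * (k₂ : Matrix (Fin n) (Fin n) F)

theorem M2_one : Bnd 1 (1 : GL (Fin n) F) := bnd_iff.2 ⟨MLe.one, by rw [inv_one]; exact MLe.one⟩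

theorem M2_tr {X Y : Matrix (Fin n) (Fin n) F} (h : M2_E Xᵀ Y) : M2_E X Yᵀ := by
  obtain ⟨k₁, k₂, h1, h2, h⟩ := h
  refine ⟨tr k₂, tr k₁, h2.tr, h1.tr, ?_⟩
  rw [coe_tr, coe_tr, ← Matrix.transpose_mul, ← Matrix.transpose_mul, ← Matrix.mul_assoc, ← h,
    Matrix.transpose_transpose]

/-- Permutation matrices. -/
def M2_pm (σ : Equiv.Perm (Fin n)) : GL (Fin n) F where
  val := σ.permMatrix F
  inv := σ⁻¹.permMatrix F
  val_inv := by rw [← Matrix.permMatrix_mul]; simp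
  inv_val := by rw [← Matrix.permMatrix_mul]; simp

theorem M2_pm_le (σ : Equiv.Perm (Fin n)) : MLe 1 (σ.permMatrix F) := fun i j => by
  rw [Equiv.Perm.permMatrix, PEquiv.toMatrix_apply]
  split_ifs <;> simp

theorem M2_perm (X : Matrix (Fin n) (Fin n) F) (σ τ : Equiv.Perm (Fin n)) :
    M2_E X (X.submatrix σ τ) := by
  refine ⟨M2_pm σ.symm, M2_pm τ, bnd_iff.2 ⟨M2_pm_le _, M2_pm_le _⟩,
    bnd_iff.2 ⟨M2_pm_le _, M2_pm_le _⟩, ?_⟩
  change X = (σ.symm.toPEquiv.toMatrix : Matrix _ _ F) * _ * (τ.toPEquiv.toMatrix : Matrix _ _ F)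
  rw [PEquiv.toMatrix_toPEquiv_mul, PEquiv.mul_toMatrix_toPEquiv]
  ext a c
  simp

theorem M2_div {x y : F} (h : ‖y‖ ≤ ‖x‖) : y / x * x = y ∧ ‖y / x‖ ≤ 1 := by
  refine ⟨?_, by rw [norm_div]; exact div_le_one_of_le₀ h (norm_nonneg _)⟩
  by_cases hx : x = 0
  · rw [hx, norm_zero, norm_le_zero_iff] at h
    rw [h, hx, mul_zero]
  · exact div_mul_cancel₀ _ hx

variable [IsUltrametricDist F]

theorem M2_trans {X Y Z : Matrix (Fin n) (Fin n) F} (h : M2_E X Y) (h' : M2_E Y Z) :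
    M2_E X Z := by
  obtain ⟨k₁, k₂, h1, h2, rfl⟩ := h
  obtain ⟨l₁, l₂, h3, h4, rfl⟩ := h'
  refine ⟨k₁ * l₁, l₂ * k₂, by simpa using h1.mul h3 zero_le_one zero_le_one,
    by simpa using h4.mul h2 zero_le_one zero_le_one, ?_⟩
  simp only [Units.val_mul, Matrix.mul_assoc]

theorem M2_row (X : Matrix (Fin n) (Fin n) F) (i : Fin n) (u : Fin n → F) (hu : u i = 0)
    (h1 : ∀ a, ‖u a‖ ≤ 1) : M2_E X (Matrix.of fun a c => X a c - u a * X i c) := by
  set N : Matrix (Fin n) (Fin n) F := Matrix.of fun a b => if b = i then u a else 0 with hN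
  have hm : ∀ (Y : Matrix (Fin n) (Fin n) F) a c, (N * Y) a c = u a * Y i c := fun Y a c => by
    simp [hN, Matrix.mul_apply]
  have h0 : N * N = 0 := by
    ext a c
    rw [hm]
    simp [hN, hu]
  have hl : MLe 1 N := fun a b => by
    simp only [hN, Matrix.of_apply]
    split_ifs
    · exact h1 a
    · simp
  refine ⟨⟨1 + N, 1 - N, ?_, ?_⟩, 1, bnd_iff.2 ⟨MLe.one.add hl, MLe.one.sub hl⟩, M2_one, ?_⟩
  · rw [Matrix.add_mul, Matrix.one_mul, Matrix.mul_sub, h0, Matrix.mul_one]; abel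
  · rw [Matrix.sub_mul, Matrix.one_mul, Matrix.mul_add, h0, Matrix.mul_one]; abel
  · rw [Units.val_one, Matrix.mul_one]
    change X = (1 + N) * _
    ext a c
    rw [Matrix.add_mul, Matrix.one_mul, Matrix.add_apply, hm]
    simp [hu]

theorem M2_step (X : Matrix (Fin n) (Fin n) F) (i : Fin n) (h1 : ∀ a, ‖X a i‖ ≤ ‖X i i‖)
    (h2 : ∀ c, ‖X i c‖ ≤ ‖X i i‖) : ∃ Y, M2_E X Y ∧ (∀ a, a ≠ i → Y a i = 0 ∧ Y i a = 0) ∧
      ∀ a c, a ≠ i → c ≠ i → Y a c = X a c - X a i / X i i * X i c := by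
  have e1 := M2_row X i (fun a => if a = i then 0 else X a i / X i i) (if_pos rfl) fun a => by
    split_ifs
    · simp
    · exact (M2_div (h1 a)).2
  have e2 := fun Y : Matrix (Fin n) (Fin n) F => M2_tr (M2_row Yᵀ i
    (fun a => if a = i then 0 else X i a / X i i) (if_pos rfl) fun a => by
      split_ifs
      · simp
      · exact (M2_div (h2 a)).2)
  refine ⟨_, M2_trans e1 (e2 _), fun a ha => ⟨?_, ?_⟩, fun a c ha hc => ?_⟩
  · simp [ha, (M2_div (h1 a)).1]
  · simp [ha, (M2_div (h2 a)).1]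
  · simp [ha, hc, (M2_div (h1 a)).1]

theorem M2_diag (S : Finset (Fin n)) : ∀ X : Matrix (Fin n) (Fin n) F,
    (∀ a c, a ≠ c → a ∉ S ∨ c ∉ S → X a c = 0) → ∃ d, M2_E X (Matrix.diagonal d) := by
  induction S using Finset.strongInduction with
  | H S ih =>
  intro X hX
  rcases S.eq_empty_or_nonempty with rfl | hS
  · refine ⟨fun a => X a a, 1, 1, M2_one, M2_one, ?_⟩
    ext a c
    by_cases h : a = c
    · simp [h]
    · simp [h, hX a c h (by simp)]
  obtain ⟨⟨i, j⟩, hij, hmax⟩ := Finset.exists_max_image (S ×ˢ S) (fun p => ‖X p.1 p.2‖)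
    (hS.product hS)
  obtain ⟨hi, hj⟩ := Finset.mem_product.1 hij
  have hs : ∀ c, Equiv.swap i j c ∈ S ↔ c ∈ S := fun c => by
    rw [Equiv.swap_apply_def]
    split_ifs with h1 h2
    · simp [h1, hi, hj]
    · simp [h2, hi, hj]
    · rfl
  set X₁ := X.submatrix (Equiv.refl _) (Equiv.swap i j) with hX₁
  have e1 : M2_E X X₁ := M2_perm X _ _
  have h0 : ∀ a c, a ≠ c → a ∉ S ∨ c ∉ S → X₁ a c = 0 := fun a c hac h => by
    refine hX a (Equiv.swap i j c) ?_ (by rwa [hs])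
    by_cases hc : c ∈ S
    · rintro rfl
      exact h.elim (fun h => h ((hs c).2 hc)) fun h => h hc
    · rwa [Equiv.swap_apply_of_ne_of_ne (ne_of_mem_of_not_mem hi hc).symm
        (ne_of_mem_of_not_mem hj hc).symm]
  have hm : ∀ a c, a = i ∨ c = i → ‖X₁ a c‖ ≤ ‖X₁ i i‖ := fun a c hac => by
    by_cases h : a ∈ S ∧ c ∈ S
    · simpa [hX₁] using hmax (a, Equiv.swap i j c) (Finset.mem_product.2 ⟨h.1, (hs c).2 h.2⟩)
    · rw [h0 a c ?_ (not_and_or.1 h), norm_zero]
      · exact norm_nonneg _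
      · rintro rfl
        exact h (by rcases hac with rfl | rfl <;> exact ⟨hi, hi⟩)
  obtain ⟨Y, e2, h1, h2⟩ := M2_step X₁ i (fun a => hm a i (Or.inr rfl)) fun c => hm i c (Or.inl rfl)
  obtain ⟨d, e3⟩ := ih (S.erase i) (Finset.erase_ssubset hi) Y fun a c hac h => by
    by_cases ha : a = i
    · subst ha
      exact (h1 c hac.symm).2
    by_cases hc : c = i
    · subst hc
      exact (h1 a ha).1
    simp only [Finset.mem_erase, ne_eq, ha, hc, not_false_eq_true, true_and] at h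
    rw [h2 a c ha hc, h0 a c hac h]
    rcases h with h | h
    · simp [h0 a i ha (Or.inl h)]
    · simp [h0 i c (Ne.symm hc) (Or.inr h)]
  exact ⟨d, M2_trans e1 (M2_trans e2 e3)⟩

end aux

theorem exists_cartan {n : ℕ} {F : Type} [NormedField F] [IsUltrametricDist F]
    (g : GL (Fin n) F) : ∃ (k₁ k₂ : GL (Fin n) F) (t : Fin n → Fˣ), Bnd 1 k₁ ∧ Bnd 1 k₂ ∧
      (Monotone fun i => ‖(t i : F)‖) ∧ g = k₁ * dg t * k₂ := by
  obtain ⟨d, hd⟩ := M2_diag Finset.univ (g : Matrix (Fin n) (Fin n) F) fun a c _ h => by simp at h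
  have e := M2_trans hd (M2_perm _ (Tuple.sort fun i => ‖d i‖) (Tuple.sort fun i => ‖d i‖))
  rw [Matrix.submatrix_diagonal_equiv] at e
  obtain ⟨k₁, k₂, h1, h2, h⟩ := e
  have h0 : ∀ i, (d ∘ Tuple.sort fun i => ‖d i‖) i ≠ 0 := fun i => by
    have := g.det_ne_zero
    rw [h, Matrix.det_mul, Matrix.det_mul, Matrix.det_diagonal] at this
    exact Finset.prod_ne_zero_iff.1 (right_ne_zero_of_mul (left_ne_zero_of_mul this)) i
      (Finset.mem_univ i)
  exact ⟨k₁, k₂, fun i => Units.mk0 _ (h0 i), h1, h2, Tuple.monotone_sort fun i => ‖d i‖,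
    Units.ext h⟩

end Pool.Agent.MP_4d0c14_b

end

section

/-! Orders with a positive involution and the arithmetic lattice. -/

namespace Pool.Agent.MP_4d0c14_b

open scoped Matrix

/-- An order `S` of rank `d` with a positive involution, embedded in the integers of `F`. -/
structure IsOrd (p : ℕ) {F S : Type} [NormedField F] [CommRing S] [StarRing S] {d : ℕ}
    (j : S →+* F) (bas : Module.Basis (Fin d) ℤ S) (t : S →+ ℝ) : Prop where
  inj : Function.Injective j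
  int : ∀ s, ‖j s‖ ≤ 1
  sat : ∃ c : ℕ, ∀ (m : ℕ) (s : S), ‖j s‖ ≤ ‖(p : F)‖ ^ (m + c) →
    ‖j (star s)‖ ≤ ‖(p : F)‖ ^ (m + c) → ∃ s', s = (p : S) ^ m * s'
  nonneg : ∀ s, 0 ≤ t (star s * s)
  fin : ∀ C : ℝ, {s | t (star s * s) ≤ C}.Finite

/-- `X` represents `p ^ m g`. -/
def Repr (p : ℕ) {n : ℕ} {F S : Type} [Field F] [CommRing S] [StarRing S] (j : S →+* F)
    (g : GL (Fin n) F) (m : ℕ) (X : Matrix (Fin n) (Fin n) S) : Prop :=
  (p : F) ^ m • (g : Matrix (Fin n) (Fin n) F) = X.map j ∧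
    (p : F) ^ m • ((g⁻¹ : GL (Fin n) F) : Matrix (Fin n) (Fin n) F) = Xᴴ.map j

/-- The vector `x` lies in the lattice attached to `g`, at scale `M`. -/
def InLat (p : ℕ) {n : ℕ} {F S : Type} [NormedField F] [CommRing S] [StarRing S] (j : S →+* F)
    (g : GL (Fin n) F) (M : ℕ) (x : Fin n → S) : Prop :=
  (∀ i, ‖(((g⁻¹ : GL (Fin n) F) : Matrix (Fin n) (Fin n) F) *ᵥ fun c => j (x c)) i‖ ≤
    ‖(p : F)‖ ^ M) ∧
  ∀ i, ‖((fun c => j (star (x c))) ᵥ* (g : Matrix (Fin n) (Fin n) F)) i‖ ≤ ‖(p : F)‖ ^ M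

theorem Repr.mul {p n : ℕ} {F S : Type} [Field F] [CommRing S] [StarRing S] {j : S →+* F}
    {g h : GL (Fin n) F} {m m' : ℕ} {X X' : Matrix (Fin n) (Fin n) S} (hg : Repr p j g m X)
    (hh : Repr p j h m' X') : Repr p j (g * h) (m + m') (X * X') := by
  constructor
  · rw [Matrix.map_mul, ← hg.1, ← hh.1, pow_add, Units.val_mul, Matrix.smul_mul, Matrix.mul_smul,
      smul_smul]
  · rw [Matrix.conjTranspose_mul, Matrix.map_mul, ← hg.2, ← hh.2, pow_add, mul_inv_rev,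
      Units.val_mul, Matrix.smul_mul, Matrix.mul_smul, smul_smul, mul_comm]

theorem Repr.inv {p n : ℕ} {F S : Type} [Field F] [CommRing S] [StarRing S] {j : S →+* F}
    {g : GL (Fin n) F} {m : ℕ} {X : Matrix (Fin n) (Fin n) S} (hg : Repr p j g m X) :
    Repr p j g⁻¹ m Xᴴ :=
  ⟨hg.2, by rw [inv_inv, Matrix.conjTranspose_conjTranspose]; exact hg.1⟩

/-- The lattice. -/
def Gam (p n : ℕ) {F S : Type} [NormedField F] [CommRing S] [StarRing S] (j : S →+* F) :
    Subgroup (GL (Fin n) F) where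
  carrier := {g | ‖(g : Matrix (Fin n) (Fin n) F).det‖ = 1 ∧ ∃ m X, Repr p j g m X}
  mul_mem' := by
    rintro g h ⟨hg, m, X, hX⟩ ⟨hh, m', X', hX'⟩
    exact ⟨by rw [Units.val_mul, Matrix.det_mul, norm_mul, hg, hh, mul_one], _, _, hX.mul hX'⟩
  one_mem' := ⟨by simp, 0, 1, by simp, by simp⟩
  inv_mem' := by
    rintro g ⟨hg, m, X, hX⟩
    exact ⟨by simp [hg], _, _, hX.inv⟩

end Pool.Agent.MP_4d0c14_b

end

section

/-! A generator of `F / ℚ_p` whose minimal polynomial has integer coefficients and real roots. -/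

namespace Pool.Agent.MP_4d0c14_b

open Polynomial

open Filter in
lemma L1_alt (M : ℕ) (hM : 0 < M) (f : ℕ) (c : ℕ → ℤ) :
    ∃ P : ℤ[X], P.Monic ∧ P.natDegree = f ∧ (∀ i < f, (M : ℤ) ∣ P.coeff i - c i) ∧
      ∃ y : ℕ → ℝ, (∀ i j, i < j → j ≤ f → y i < y j) ∧
        ∀ i ≤ f, 0 < (-1) ^ (f + i) * aeval (y i) P := by
  induction f generalizing c with
  | zero =>
    refine ⟨1, monic_one, natDegree_one, fun i hi => absurd hi (Nat.not_lt_zero i), fun _ => 0,
      fun i j h1 h2 => by omega, fun i hi => ?_⟩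
    obtain rfl := Nat.le_zero.1 hi
    simp
  | succ f ih =>
    obtain ⟨Q, h1, h2, h3, y, h4, h5⟩ := ih fun i => c (i + 1)
    have hN : ∀ᶠ N : ℕ in atTop, ∀ i ∈ Finset.range (f + 1),
        |(c 0 : ℝ)| < ((N : ℝ) * M - y i) * ((-1) ^ (f + i) * aeval (y i) Q) := by
      refine (Finset.eventually_all _).2 fun i hi => ?_
      refine Tendsto.eventually_gt_atTop (Tendsto.atTop_mul_const
        (h5 i (Nat.lt_succ_iff.1 (Finset.mem_range.1 hi))) ?_) _
      exact tendsto_atTop_add_const_right _ _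
        (tendsto_natCast_atTop_atTop.atTop_mul_const (by exact_mod_cast hM))
    obtain ⟨N, hN⟩ := hN.exists
    have h6 : ((X - C ((N : ℤ) * M)) * Q).Monic := (monic_X_sub_C _).mul h1
    have h7 : ((X - C ((N : ℤ) * M)) * Q).natDegree = f + 1 := by
      rw [(monic_X_sub_C _).natDegree_mul h1, natDegree_X_sub_C, h2, add_comm]
    have h8 : ((X - C ((N : ℤ) * M)) * Q + C (c 0)).natDegree = f + 1 := by
      rw [natDegree_add_C, h7]
    have h9 : ((X - C ((N : ℤ) * M)) * Q + C (c 0)).Monic :=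
      h6.add_of_left (degree_C_le.trans_lt (natDegree_pos_iff_degree_pos.1 (by omega)))
    have h10 := ((((X - C ((N : ℤ) * M)) * Q + C (c 0)).map
      (algebraMap ℤ ℝ)).tendsto_atTop_of_leadingCoeff_nonneg (by
        rw [h9.degree_map]
        exact natDegree_pos_iff_degree_pos.1 (by omega)) (by
        rw [(h9.map _).leadingCoeff]
        exact zero_le_one)).eventually_gt_atTop 0
    obtain ⟨z, hz1, hz2⟩ := (h10.and (eventually_gt_atTop (y f))).exists
    rw [eval_map_algebraMap] at hz1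
    refine ⟨_, h9, h8, fun i hi => ?_, fun i => if i ≤ f then y i else z, fun i j hij hj => ?_,
      fun i hi => ?_⟩
    · rw [sub_mul, coeff_add, coeff_sub, coeff_C_mul]
      cases i with
      | zero =>
        rw [coeff_X_mul_zero, coeff_C_zero]
        exact ⟨-N * Q.coeff 0, by ring⟩
      | succ i =>
        obtain ⟨t, ht⟩ := h3 i (by omega)
        rw [coeff_X_mul, coeff_C_succ]
        exact ⟨t - N * Q.coeff (i + 1), by linear_combination ht⟩
    · simp only [if_pos (by omega : i ≤ f)]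
      split_ifs with h
      · exact h4 i j hij h
      · rcases (by omega : i < f ∨ i = f) with h' | rfl
        · exact (h4 i f h' le_rfl).trans hz2
        · exact hz2
    · by_cases h : i ≤ f
      · have e := hN i (Finset.mem_range.2 (by omega))
        simp only [if_pos h]
        rw [map_add, map_mul, map_sub, aeval_X, aeval_C, aeval_C, eq_intCast, eq_intCast,
          Int.cast_mul, Int.cast_natCast, Int.cast_natCast]
        have e2 : |(-1 : ℝ) ^ (f + i) * c 0| = |(c 0 : ℝ)| := by simp [abs_mul]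
        have e3 := le_abs_self ((-1 : ℝ) ^ (f + i) * c 0)
        rw [show f + 1 + i = f + i + 1 by ring, pow_succ]
        linarith
      · obtain rfl : i = f + 1 := by omega
        simp only [if_neg h]
        rwa [← two_mul, pow_mul, neg_one_sq, one_pow, one_mul]

theorem exists_real_rooted (f : ℕ) (c : ℕ → ℤ) (M : ℕ) (hM : 0 < M) :
    ∃ P : ℤ[X], P.Monic ∧ P.natDegree = f ∧ (∀ i < f, (M : ℤ) ∣ P.coeff i - c i) ∧
      ∃ x : Fin f → ℝ, Function.Injective x ∧ ∀ i, aeval (x i) P = 0 := by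
  obtain ⟨P, h1, h2, h3, y, h4, h5⟩ := L1_alt M hM f c
  have key : ∀ i : Fin f, ∃ x ∈ Set.Ioo (y i) (y (i + 1)), aeval x P = 0 := fun i => by
    have a1 := h5 i i.2.le
    have a2 := h5 (i + 1) i.2
    have hc : Continuous fun t : ℝ => (-1 : ℝ) ^ (f + (i + 1)) * aeval t P :=
      continuous_const.mul P.continuous_aeval
    obtain ⟨x, hx, e⟩ := intermediate_value_Ioo (h4 i (i + 1) (Nat.lt_succ_self _) i.2).le
      hc.continuousOn (show (0 : ℝ) ∈ _ from ⟨by
        rw [← add_assoc, pow_succ]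
        linarith, a2⟩)
    exact ⟨x, hx, (mul_eq_zero.1 e).resolve_left (pow_ne_zero _ (by norm_num))⟩
  choose x hx hx' using key
  refine ⟨P, h1, h2, h3, x, StrictMono.injective fun i j hij => ?_, hx'⟩
  refine (hx i).2.trans (lt_of_le_of_lt ?_ (hx j).1)
  rcases (Nat.succ_le_of_lt hij : (i : ℕ) + 1 ≤ j).lt_or_eq with h | h
  · exact (h4 _ _ h j.2.le).le
  · exact (congrArg y h).le

section
variable {F : Type} [NontriviallyNormedField F] [IsUltrametricDist F]

lemma L1_pow {x y : F} (hx : ‖x‖ ≤ 1) (hy : ‖y‖ ≤ 1) (i : ℕ) : ‖x ^ i - y ^ i‖ ≤ ‖x - y‖ := by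
  induction i with
  | zero => simp
  | succ i ih =>
    rw [show x ^ (i + 1) - y ^ (i + 1) = x * (x ^ i - y ^ i) + (x - y) * y ^ i by ring]
    refine (IsUltrametricDist.norm_add_le_max _ _).trans (max_le ?_ ?_)
    · rw [norm_mul]
      exact (mul_le_of_le_one_left (norm_nonneg _) hx).trans ih
    · rw [norm_mul, norm_pow]
      exact mul_le_of_le_one_right (norm_nonneg _) (pow_le_one₀ (norm_nonneg _) hy)

lemma L1_eval {Q : F[X]} {δ : ℝ} (h : ∀ i, ‖Q.coeff i‖ ≤ δ) {x y : F} (hx : ‖x‖ ≤ 1)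
    (hy : ‖y‖ ≤ 1) : ‖Q.eval x‖ ≤ δ ∧ ‖Q.eval x - Q.eval y‖ ≤ δ * ‖x - y‖ := by
  have h0 : 0 ≤ δ := (norm_nonneg _).trans (h 0)
  rw [eval_eq_sum_range, eval_eq_sum_range, ← Finset.sum_sub_distrib]
  refine ⟨IsUltrametricDist.norm_sum_le_of_forall_le_of_nonneg h0 fun i _ => ?_,
    IsUltrametricDist.norm_sum_le_of_forall_le_of_nonneg (by positivity) fun i _ => ?_⟩
  · rw [norm_mul, norm_pow]
    exact (mul_le_of_le_one_right (norm_nonneg _) (pow_le_one₀ (norm_nonneg _) hx)).trans (h i)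
  · rw [← mul_sub, norm_mul]
    exact mul_le_mul (h i) (L1_pow hx hy i) (norm_nonneg _) h0

lemma L1_near {x y : F} (hy : ‖y‖ ≤ 1) (h : ‖x - y‖ ≤ 1) : ‖x‖ ≤ 1 := by
  rw [← sub_add_cancel x y]
  exact (IsUltrametricDist.norm_add_le_max _ _).trans (max_le h hy)

end

theorem exists_root_near {F : Type} [NontriviallyNormedField F] [IsUltrametricDist F]
    [CompleteSpace F] (P₀ : F[X]) (hP₀ : ∀ i, ‖P₀.coeff i‖ ≤ 1) (θ₀ : F) (hθ₀ : ‖θ₀‖ ≤ 1)
    (h0 : P₀.eval θ₀ = 0) (h1 : P₀.derivative.eval θ₀ ≠ 0) {ε : ℝ} (hε : 0 < ε) :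
    ∃ δ : ℝ, 0 < δ ∧ ∀ P : F[X], (∀ i, ‖(P - P₀).coeff i‖ ≤ δ) →
      ∃ θ : F, ‖θ - θ₀‖ ≤ ε ∧ P.eval θ = 0 := by
  set d := P₀.derivative.eval θ₀ with hd
  have hd0 : 0 < ‖d‖ := norm_pos_iff.2 h1
  obtain ⟨s, hs, ha⟩ := (P₀.hasStrictDerivAt θ₀).hasStrictFDerivAt.approximates_deriv_on_nhds
    (c := ‖d‖₊ / 4) (Or.inr (by have := nnnorm_pos.2 h1; positivity))
  obtain ⟨r, hr, hrs⟩ := Metric.nhds_basis_closedBall.mem_iff.1 hs
  have hρ : 0 < min r (min ε 1) := by positivity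
  set ρ := min r (min ε 1) with hρd
  have hρ1 : ρ ≤ 1 := (min_le_right _ _).trans (min_le_right _ _)
  refine ⟨‖d‖ / 4 * ρ, by positivity, fun P hP => ?_⟩
  have hb : ∀ x ∈ Metric.closedBall θ₀ ρ, ‖x‖ ≤ 1 := fun x hx =>
    L1_near hθ₀ ((mem_closedBall_iff_norm.1 hx).trans hρ1)
  have h2 : ApproximatesLinearOn (fun x => P.eval x) (ContinuousLinearMap.toSpanSingleton F d)
      (Metric.closedBall θ₀ ρ) (‖d‖₊ / 2) := fun x hx y hy => by
    have a1 := ha x (hrs (Metric.closedBall_subset_closedBall (min_le_left _ _) hx)) y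
      (hrs (Metric.closedBall_subset_closedBall (min_le_left _ _) hy))
    have a2 := (L1_eval hP (hb x hx) (hb y hy)).2
    have a3 : ‖d‖ / 4 * ρ * ‖x - y‖ ≤ ‖d‖ / 4 * ‖x - y‖ := by
      gcongr
      exact mul_le_of_le_one_right (by positivity) hρ1
    have a4 := norm_add_le (P₀.eval x - P₀.eval y - ContinuousLinearMap.toSpanSingleton F d (x - y))
      ((P - P₀).eval x - (P - P₀).eval y)
    rw [show P₀.eval x - P₀.eval y - ContinuousLinearMap.toSpanSingleton F d (x - y) +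
      ((P - P₀).eval x - (P - P₀).eval y) =
        P.eval x - P.eval y - ContinuousLinearMap.toSpanSingleton F d (x - y) by
      simp only [eval_sub]; ring] at a4
    push_cast at a1 ⊢
    linarith
  obtain ⟨θ, hθ, e⟩ := h2.surjOn_closedBall_of_nonlinearRightInverse
    ⟨fun y => y / d, ‖d‖₊⁻¹, fun y => by simp [div_eq_inv_mul], fun y => by simp [h1]⟩ hρ.le
    subset_rfl (show (0 : F) ∈ _ by
      have a1 := (L1_eval hP hθ₀ hθ₀).1
      rw [eval_sub, h0, sub_zero] at a1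
      rw [mem_closedBall_iff_norm', sub_zero]
      refine a1.trans (mul_le_mul_of_nonneg_right ?_ hρ.le)
      push_cast
      rw [inv_inv]
      linarith)
  exact ⟨θ, (mem_closedBall_iff_norm.1 hθ).trans ((min_le_right _ _).trans (min_le_left _ _)), e⟩

open IntermediateField in
theorem exists_theta (p : ℕ) [Fact p.Prime] (F : Type) [NontriviallyNormedField F]
    [IsUltrametricDist F] [NormedAlgebra ℚ_[p] F] [FiniteDimensional ℚ_[p] F] :
    ∃ (θ : F) (P : ℤ[X]), ‖θ‖ ≤ 1 ∧ P.Monic ∧ P.natDegree = Module.finrank ℚ_[p] F ∧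
      aeval θ P = 0 ∧
      LinearIndependent ℚ_[p] (fun i : Fin (Module.finrank ℚ_[p] F) => θ ^ (i : ℕ)) ∧
      ∃ x : Fin (Module.finrank ℚ_[p] F) → ℝ, Function.Injective x ∧ ∀ i, aeval (x i) P = 0 := by
  have := FiniteDimensional.complete ℚ_[p] F
  obtain ⟨θ₀, h1, h2⟩ : ∃ θ₀ : F, ‖θ₀‖ ≤ 1 ∧ ℚ_[p]⟮θ₀⟯ = ⊤ := by
    obtain ⟨α, hα⟩ := Field.exists_primitive_element ℚ_[p] F
    obtain ⟨c, hc0, hc⟩ := NormedField.exists_norm_lt ℚ_[p] (r := (‖α‖ + 1)⁻¹) (by positivity)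
    refine ⟨c • α, ?_, ?_⟩
    · rw [norm_smul]
      refine (mul_le_mul hc.le (le_add_of_nonneg_right zero_le_one) (norm_nonneg _)
        (by positivity)).trans (inv_mul_cancel₀ (by positivity)).le
    · rw [eq_top_iff, ← hα, adjoin_simple_le_iff]
      have := smul_mem _ (mem_adjoin_simple_self ℚ_[p] (c • α)) (x := c⁻¹)
      rwa [inv_smul_smul₀ (norm_pos_iff.1 hc0)] at this
  have hn := (Field.primitive_element_iff_minpoly_natDegree_eq _ _).1 h2
  have hm := minpoly.monic (Algebra.IsIntegral.isIntegral (R := ℚ_[p]) θ₀)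
  have h3 : ∀ i, ‖(minpoly ℚ_[p] θ₀).coeff i‖ ≤ 1 := (spectralValue_le_one_iff hm).1
    ((NormedAlgebra.norm_eq_spectralNorm ℚ_[p] θ₀).symm.trans_le h1)
  have h4 : LinearIndependent ℚ_[p] (fun i : Fin (Module.finrank ℚ_[p] F) => θ₀ ^ (i : ℕ)) :=
    hn ▸ linearIndependent_pow θ₀
  have h5 : ∀ᶠ θ in nhds θ₀,
      LinearIndependent ℚ_[p] (fun i : Fin (Module.finrank ℚ_[p] F) => θ ^ (i : ℕ)) :=
    ((by fun_prop : Continuous fun (θ : F) (i : Fin (Module.finrank ℚ_[p] F)) =>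
      θ ^ (i : ℕ)).tendsto θ₀).eventually h4.eventually
  obtain ⟨ε, hε, h6⟩ := Metric.nhds_basis_closedBall.mem_iff.1 h5
  obtain ⟨δ, hδ, h7⟩ := exists_root_near ((minpoly ℚ_[p] θ₀).map (algebraMap ℚ_[p] F))
    (fun i => by rw [coeff_map, norm_algebraMap']; exact h3 i) θ₀ h1
    (by rw [eval_map_algebraMap, minpoly.aeval])
    (by
      rw [derivative_map, eval_map_algebraMap]
      exact (Algebra.IsSeparable.isSeparable ℚ_[p] θ₀).aeval_derivative_ne_zero (minpoly.aeval _ _))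
    (lt_min hε one_pos)
  obtain ⟨N, hN⟩ := PadicInt.exists_pow_neg_lt p hδ
  choose c hc using fun i => PadicInt.denseRange_intCast.exists_dist_lt
    (⟨_, h3 i⟩ : ℤ_[p]) hδ
  obtain ⟨P, a1, a2, a3, a4⟩ := exists_real_rooted (Module.finrank ℚ_[p] F) c (p ^ N)
    (pow_pos (Fact.out : p.Prime).pos N)
  obtain ⟨θ, b1, b2⟩ := h7 (P.map (algebraMap ℤ F)) fun i => by
    have e : (P.map (algebraMap ℤ F) - (minpoly ℚ_[p] θ₀).map (algebraMap ℚ_[p] F)).coeff i =
        algebraMap ℚ_[p] F (P.coeff i - (minpoly ℚ_[p] θ₀).coeff i) := by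
      simp
    rw [e, norm_algebraMap']
    rcases lt_trichotomy i (Module.finrank ℚ_[p] F) with h | h | h
    · have c1 : ‖((P.coeff i - c i : ℤ) : ℚ_[p])‖ ≤ δ :=
        ((Padic.norm_int_le_pow_iff_dvd _ N).2 (by exact_mod_cast a3 i h)).trans hN.le
      have c2 : ‖(c i : ℚ_[p]) - (minpoly ℚ_[p] θ₀).coeff i‖ ≤ δ := by
        have := (hc i).le
        rw [dist_comm, dist_eq_norm, PadicInt.norm_def] at this
        simpa using this
      rw [← sub_add_sub_cancel _ (c i : ℚ_[p]), ← Int.cast_sub]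
      exact (IsUltrametricDist.norm_add_le_max _ _).trans (max_le c1 c2)
    · have c1 : P.coeff i = 1 := by rw [h, ← a2]; exact a1.coeff_natDegree
      have c2 : (minpoly ℚ_[p] θ₀).coeff i = 1 := by rw [h, ← hn]; exact hm.coeff_natDegree
      simp [c1, c2, hδ.le]
    · rw [coeff_eq_zero_of_natDegree_lt (a2.trans_lt h),
        coeff_eq_zero_of_natDegree_lt (hn.trans_lt h)]
      simp [hδ.le]
  exact ⟨θ, P, L1_near h1 (b1.trans (min_le_right _ _)), a1, a2, by rwa [← eval_map_algebraMap],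
    h6 (mem_closedBall_iff_norm.2 (b1.trans (min_le_left _ _))), a4⟩

end Pool.Agent.MP_4d0c14_b

end

section

/-! Existence of an order with a positive involution. -/

namespace Pool.Agent.MP_4d0c14_b

theorem exists_sqrt_neg (p : ℕ) [Fact p.Prime] : ∃ δ : ℤ_[p], δ ^ 2 = 1 - 8 * p := by
  have h2 : (0 : ℝ) < ‖(2 : ℤ_[p])‖ := norm_pos_iff.2 two_ne_zero
  have h2' : ‖(2 : ℤ_[p])‖ ≤ 1 := PadicInt.norm_le_one _
  have hp : ‖(p : ℤ_[p])‖ < 1 := by
    rw [PadicInt.norm_p]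
    exact inv_lt_one_of_one_lt₀ (by exact_mod_cast (Fact.out : p.Prime).one_lt)
  obtain ⟨z, hz, -⟩ := hensels_lemma (p := p) (R := ℤ_[p])
    (F := Polynomial.X ^ 2 - Polynomial.C (1 - 8 * (p : ℤ_[p]))) (a := 1) (by
      have e1 : Polynomial.aeval (1 : ℤ_[p])
          (Polynomial.X ^ 2 - Polynomial.C (1 - 8 * (p : ℤ_[p]))) = 2 * 2 * (2 * p) := by
        simp only [map_sub, map_pow, Polynomial.aeval_X, Polynomial.aeval_C, Algebra.algebraMap_self,
          RingHom.id_apply]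
        ring
      have e2 : Polynomial.aeval (1 : ℤ_[p]) (Polynomial.derivative
          (Polynomial.X ^ 2 - Polynomial.C (1 - 8 * (p : ℤ_[p])))) = 2 := by
        rw [Polynomial.derivative_sub, Polynomial.derivative_C, sub_zero,
          Polynomial.derivative_X_pow]
        simp
      rw [e1, e2, norm_mul, norm_mul, norm_mul, pow_two]
      have h3 : ‖(2 : ℤ_[p])‖ * ‖(p : ℤ_[p])‖ < 1 :=
        mul_lt_one_of_nonneg_of_lt_one_right h2' (norm_nonneg _) hp
      have h4 := mul_pos h2 h2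
      nlinarith)
  refine ⟨z, ?_⟩
  simp only [map_sub, map_pow, Polynomial.aeval_X, Polynomial.aeval_C, Algebra.algebraMap_self,
    RingHom.id_apply] at hz
  exact sub_eq_zero.1 hz

theorem L2_coord {k E : Type} [NontriviallyNormedField k] [CompleteSpace k] [NormedAddCommGroup E]
    [NormedSpace k E] {f : ℕ} (v : Fin f → E) (hv : LinearIndependent k v) :
    ∃ K : ℝ, 0 < K ∧ ∀ (a : Fin f → k) (l : Fin f), ‖a l‖ ≤ K * ‖∑ i, a i • v i‖ := by
  obtain ⟨K, hK, h⟩ := (Fintype.linearCombination k v).exists_antilipschitzWith (by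
    rw [LinearMap.ker_eq_bot']
    intro a ha
    rw [Fintype.linearCombination_apply] at ha
    exact funext (Fintype.linearIndependent_iff.1 hv a ha))
  refine ⟨K, hK, fun a l => (norm_le_pi_norm a l).trans ?_⟩
  have h1 := h.le_mul_dist a 0
  rw [map_zero, dist_zero_right, dist_zero_right, Fintype.linearCombination_apply] at h1
  exact h1

theorem L2_expand {R T : Type} [CommRing R] [CommRing T] {f : ℕ} (b : Module.Basis (Fin f) ℤ R)
    (φ : R →+* T) (r : R) : φ r = ∑ l, ((b.repr r l : ℤ) : T) * φ (b l) := by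
  conv_lhs => rw [← b.sum_repr r]
  simp only [map_sum, zsmul_eq_mul, map_mul, map_intCast]

theorem L2_R (p : ℕ) [Fact p.Prime] (F : Type) [NontriviallyNormedField F]
    [IsUltrametricDist F] [NormedAlgebra ℚ_[p] F] [FiniteDimensional ℚ_[p] F] :
    ∃ (R : Type) (_ : CommRing R) (j0 : R →+* F)
      (b : Module.Basis (Fin (Module.finrank ℚ_[p] F)) ℤ R)
      (σ : Fin (Module.finrank ℚ_[p] F) → (R →+* ℝ)),
      (∀ l, ‖j0 (b l)‖ ≤ 1) ∧ LinearIndependent ℚ_[p] (fun l => j0 (b l)) ∧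
        LinearIndependent ℝ (fun l => fun i => σ i (b l)) := by
  obtain ⟨θ, P, hθ, hP, hd, h0, hli, x, hx, hx0⟩ := exists_theta p F
  let b : Module.Basis (Fin (Module.finrank ℚ_[p] F)) ℤ (AdjoinRoot P) :=
    (AdjoinRoot.powerBasis' hP).basis.reindex (finCongr hd)
  have hb : ∀ l, b l = AdjoinRoot.root P ^ (l : ℕ) := by
    intro l
    simp only [b, Module.Basis.reindex_apply, PowerBasis.basis_eq_pow]
    rfl
  refine ⟨AdjoinRoot P, inferInstance,
    AdjoinRoot.lift (algebraMap ℤ F) θ (by rw [← Polynomial.aeval_def]; exact h0), b,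
    fun i => AdjoinRoot.lift (algebraMap ℤ ℝ) (x i) (by rw [← Polynomial.aeval_def]; exact hx0 i),
    fun l => ?_, ?_, ?_⟩
  · rw [hb, map_pow, AdjoinRoot.lift_root, norm_pow]
    exact pow_le_one₀ (norm_nonneg _) hθ
  · simpa only [hb, map_pow, AdjoinRoot.lift_root] using hli
  · simp only [hb, map_pow, AdjoinRoot.lift_root]
    rw [Fintype.linearIndependent_iff]
    intro a ha
    have h := Matrix.eq_zero_of_forall_index_sum_mul_pow_eq_zero (v := a) hx (fun i => by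
      have := congrFun ha i
      simpa only [Finset.sum_apply, Pi.smul_apply, smul_eq_mul, Pi.zero_apply] using this)
    exact fun l => congrFun h l

theorem L2_fin {R : Type} [CommRing R] {f : ℕ} (b : Module.Basis (Fin f) ℤ R)
    (σ : Fin f → (R →+* ℝ)) (h : LinearIndependent ℝ (fun l => fun i => σ i (b l))) (C : ℝ) :
    {r : R | ∀ i, |σ i r| ≤ C}.Finite := by
  obtain ⟨K, hK, hc⟩ := L2_coord _ h
  obtain ⟨D, hD⟩ := exists_int_ge (K * max C 0)
  have hfin : (Set.pi Set.univ fun _ : Fin f => Set.Icc (-D) D).Finite :=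
    Set.Finite.pi fun _ => Set.finite_Icc _ _
  refine (hfin.preimage (f := b.equivFun) b.equivFun.injective.injOn).subset ?_
  intro r hr l _
  have h1 := hc (fun l => ((b.repr r l : ℤ) : ℝ)) l
  have h2 : ‖∑ i, ((b.repr r i : ℤ) : ℝ) • (fun j => σ j (b i))‖ ≤ max C 0 := by
    refine (pi_norm_le_iff_of_nonneg (le_max_right _ _)).2 fun j => ?_
    simp only [Finset.sum_apply, Pi.smul_apply, smul_eq_mul]
    rw [← L2_expand b (σ j) r]
    exact (hr j).trans (le_max_left _ _)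
  have h3 : |((b.repr r l : ℤ) : ℝ)| ≤ D :=
    h1.trans ((mul_le_mul_of_nonneg_left h2 hK.le).trans hD)
  have h4 : |(b.repr r l : ℤ)| ≤ D := by exact_mod_cast h3
  exact abs_le.1 h4

theorem L2_smul (p : ℕ) [Fact p.Prime] {F : Type} [NontriviallyNormedField F]
    [NormedAlgebra ℚ_[p] F] {R : Type} [CommRing R] {f : ℕ} (b : Module.Basis (Fin f) ℤ R)
    (j0 : R →+* F) (r : R) : j0 r = ∑ l, ((b.repr r l : ℤ) : ℚ_[p]) • j0 (b l) := by
  rw [L2_expand b j0 r]
  refine Finset.sum_congr rfl fun l _ => ?_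
  rw [Algebra.smul_def, map_intCast]

theorem L2_sat (p : ℕ) [Fact p.Prime] {F : Type} [NontriviallyNormedField F]
    [NormedAlgebra ℚ_[p] F] {R : Type} [CommRing R] {f : ℕ} (b : Module.Basis (Fin f) ℤ R)
    (j0 : R →+* F) (h : LinearIndependent ℚ_[p] (fun l => j0 (b l))) :
    ∃ K : ℝ, 0 < K ∧ ∀ (m : ℕ) (r : R), K * ‖j0 r‖ ≤ ‖(p : F)‖ ^ m →
      ∃ r', r = (p : R) ^ m * r' := by
  obtain ⟨K, hK, hc⟩ := L2_coord _ h
  refine ⟨K, hK, fun m r hr => ?_⟩
  have hp : ‖(p : F)‖ = (p : ℝ)⁻¹ := by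
    rw [← map_natCast (algebraMap ℚ_[p] F), norm_algebraMap', Padic.norm_p]
  have hd : ∀ l, ((p : ℤ) ^ m) ∣ b.repr r l := by
    intro l
    rw [← Padic.norm_int_le_pow_iff_dvd]
    have h1 := hc (fun l => ((b.repr r l : ℤ) : ℚ_[p])) l
    rw [← L2_smul p b j0 r] at h1
    refine h1.trans (hr.trans_eq ?_)
    rw [hp, zpow_neg, zpow_natCast, inv_pow]
  choose c hc using hd
  refine ⟨∑ l, c l • b l, ?_⟩
  conv_lhs => rw [← b.sum_repr r]
  rw [Finset.mul_sum]
  refine Finset.sum_congr rfl fun l _ => ?_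
  rw [hc l, zsmul_eq_mul, zsmul_eq_mul]
  push_cast
  ring

theorem L2_inj (p : ℕ) [Fact p.Prime] {F : Type} [NontriviallyNormedField F]
    [NormedAlgebra ℚ_[p] F] {R : Type} [CommRing R] {f : ℕ} (b : Module.Basis (Fin f) ℤ R)
    (j0 : R →+* F) (h : LinearIndependent ℚ_[p] (fun l => j0 (b l))) (δ : ℚ_[p])
    (hδ : δ ^ 2 = 1 - 8 * p) (r s : R) (h0 : j0 r + algebraMap ℚ_[p] F δ * j0 s = 0) :
    r = 0 ∧ s = 0 := by
  have h1 : ∑ l, (((b.repr r l : ℤ) : ℚ_[p]) + δ * ((b.repr s l : ℤ) : ℚ_[p])) • j0 (b l) = 0 := by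
    rw [← h0, ← Algebra.smul_def, L2_smul p b j0 r, L2_smul p b j0 s, Finset.smul_sum,
      ← Finset.sum_add_distrib]
    refine Finset.sum_congr rfl fun l _ => ?_
    rw [add_smul, mul_smul]
  have h2 := Fintype.linearIndependent_iff.1 h _ h1
  have h3 : ∀ l, b.repr r l = 0 ∧ b.repr s l = 0 := by
    intro l
    have h4 : ((b.repr r l : ℤ) : ℚ_[p]) = -(δ * ((b.repr s l : ℤ) : ℚ_[p])) :=
      eq_neg_of_add_eq_zero_left (h2 l)
    have h5 : (((b.repr r l : ℤ) ^ 2 : ℤ) : ℚ_[p]) =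
        (((1 - 8 * p) * (b.repr s l : ℤ) ^ 2 : ℤ) : ℚ_[p]) := by
      push_cast
      rw [h4, neg_sq, mul_pow, hδ]
    have h6 : (b.repr r l : ℤ) ^ 2 = (1 - 8 * p) * (b.repr s l : ℤ) ^ 2 := Int.cast_injective h5
    have hp : (1 : ℤ) ≤ p := by exact_mod_cast (Fact.out : p.Prime).one_lt.le
    have h7 := sq_nonneg (b.repr r l : ℤ)
    have h8 := sq_nonneg (b.repr s l : ℤ)
    have h9 : (b.repr s l : ℤ) ^ 2 = 0 := by nlinarith
    rw [h9, mul_zero] at h6
    exact ⟨pow_eq_zero_iff two_ne_zero |>.1 h6, pow_eq_zero_iff two_ne_zero |>.1 h9⟩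
  exact ⟨b.repr.injective (by ext l; simp [(h3 l).1]), b.repr.injective (by ext l; simp [(h3 l).2])⟩

theorem L2_bas {R S : Type} [CommRing R] [CommRing S] [Algebra R S] {f : ℕ}
    (b : Module.Basis (Fin f) ℤ R) (c : Module.Basis (Fin 2) R S) :
    Nonempty (Module.Basis (Fin (2 * f)) ℤ S) :=
  ⟨(b.smulTower' c).reindex finProdFinEquiv⟩

/-- The embedding of the quadratic extension. -/
def L2_j {R F : Type} [CommRing R] [CommRing F] (a : R) (j0 : R →+* F) (d : F)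
    (hd : d * d = j0 a) : QuadraticAlgebra R a 0 →+* F where
  toFun z := j0 z.re + d * j0 z.im
  map_one' := by simp [QuadraticAlgebra.re_one, QuadraticAlgebra.im_one]
  map_mul' z w := by
    simp only [QuadraticAlgebra.re_mul, QuadraticAlgebra.im_mul, map_add, map_mul, map_zero, ← hd]
    ring
  map_zero' := by simp
  map_add' z w := by
    simp only [QuadraticAlgebra.re_add, QuadraticAlgebra.im_add, map_add]
    ring

/-- The trace form. -/
def L2_t {R : Type} [CommRing R] (a : R) {f : ℕ} (σ : Fin f → (R →+* ℝ)) :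
    QuadraticAlgebra R a 0 →+ ℝ where
  toFun z := ∑ i, σ i z.re
  map_zero' := by simp
  map_add' z w := by simp only [QuadraticAlgebra.re_add, map_add, Finset.sum_add_distrib]

theorem L2_t_norm {R : Type} [CommRing R] (p : ℕ) {f : ℕ} (σ : Fin f → (R →+* ℝ))
    (z : QuadraticAlgebra R (1 - 8 * p) 0) :
    L2_t (1 - 8 * (p : R)) σ (star z * z) =
      ∑ i, ((σ i z.re) ^ 2 + (8 * p - 1) * (σ i z.im) ^ 2) := by
  show ∑ i, σ i (star z * z).re = _
  refine Finset.sum_congr rfl fun i _ => ?_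
  simp only [QuadraticAlgebra.re_mul, QuadraticAlgebra.re_star, QuadraticAlgebra.im_star, map_add,
    map_mul, map_zero, map_sub, map_one, map_neg, map_natCast, map_ofNat]
  ring

theorem exists_ord (p : ℕ) [Fact p.Prime] (F : Type) [NontriviallyNormedField F]
    [IsUltrametricDist F] [NormedAlgebra ℚ_[p] F] [FiniteDimensional ℚ_[p] F] :
    ∃ (S : Type) (_ : CommRing S) (_ : StarRing S) (j : S →+* F)
      (bas : Module.Basis (Fin (2 * Module.finrank ℚ_[p] F)) ℤ S) (t : S →+ ℝ),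
      IsOrd p j bas t := by
  obtain ⟨R, _, j0, b, σ, h1, h2, h3⟩ := L2_R p F
  obtain ⟨δ0, hδ0⟩ := exists_sqrt_neg p
  have hδ : (δ0 : ℚ_[p]) ^ 2 = 1 - 8 * p := by
    have h := congrArg (algebraMap ℤ_[p] ℚ_[p]) hδ0
    simp only [map_pow, map_sub, map_one, map_mul, map_natCast, map_ofNat] at h
    exact h
  have hp1 : (1 : ℝ) ≤ p := by exact_mod_cast (Fact.out : p.Prime).one_lt.le
  have hδn : (δ0 : ℚ_[p]) ≠ 0 := by
    intro h
    rw [h] at hδ
    have h' : (((1 : ℤ) - 8 * p : ℤ) : ℚ_[p]) = ((0 : ℤ) : ℚ_[p]) := by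
      push_cast
      rw [← hδ]
      ring
    have h'' := Int.cast_injective h'
    omega
  set d : F := algebraMap ℚ_[p] F δ0 with hdd
  have hd : d * d = j0 (1 - 8 * p) := by
    rw [hdd, ← map_mul, ← pow_two, hδ]
    simp only [map_sub, map_mul, map_one, map_natCast, map_ofNat]
  have hd1 : ‖d‖ ≤ 1 := by
    rw [hdd, norm_algebraMap']
    exact δ0.2
  have hd0 : 0 < ‖d‖ := by
    rw [hdd, norm_algebraMap']
    exact norm_pos_iff.2 hδn
  have h20 : 0 < ‖(2 : F)‖ := by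
    rw [← map_ofNat (algebraMap ℚ_[p] F) 2, norm_algebraMap']
    exact norm_pos_iff.2 two_ne_zero
  have hpF : ‖(p : F)‖ < 1 := by
    rw [← map_natCast (algebraMap ℚ_[p] F), norm_algebraMap']
    exact Padic.norm_p_lt_one
  have hint : ∀ r, ‖j0 r‖ ≤ 1 := by
    intro r
    rw [L2_expand b j0 r]
    refine IsUltrametricDist.norm_sum_le_of_forall_le_of_nonneg zero_le_one fun l _ => ?_
    rw [norm_mul]
    exact mul_le_one₀ (IsUltrametricDist.norm_intCast_le_one F _) (norm_nonneg _) (h1 l)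
  obtain ⟨bas⟩ := L2_bas b (QuadraticAlgebra.basis (1 - 8 * (p : R)) 0)
  have hj : ∀ z, L2_j (1 - 8 * (p : R)) j0 d hd z = j0 z.re + d * j0 z.im := fun _ => rfl
  have hnn : ∀ (z : QuadraticAlgebra R (1 - 8 * p) 0) (i : Fin (Module.finrank ℚ_[p] F)),
      (0 : ℝ) ≤ (σ i z.re) ^ 2 + (8 * p - 1) * (σ i z.im) ^ 2 := fun z i =>
    add_nonneg (sq_nonneg _) (mul_nonneg (by linarith) (sq_nonneg _))
  refine ⟨QuadraticAlgebra R (1 - 8 * p) 0, inferInstance, inferInstance,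
    L2_j (1 - 8 * (p : R)) j0 d hd, bas, L2_t (1 - 8 * (p : R)) σ, ?_, ?_, ?_, ?_, ?_⟩
  · rw [injective_iff_map_eq_zero]
    intro z hz
    obtain ⟨e1, e2⟩ := L2_inj p b j0 h2 δ0 hδ z.re z.im hz
    exact QuadraticAlgebra.ext e1 e2
  · intro z
    rw [hj]
    refine (IsUltrametricDist.norm_add_le_max _ _).trans (max_le (hint _) ?_)
    rw [norm_mul]
    exact mul_le_one₀ hd1 (norm_nonneg _) (hint _)
  · obtain ⟨K, hK, hs⟩ := L2_sat p b j0 h2
    obtain ⟨c, hc⟩ := exists_pow_lt_of_lt_one (div_pos (mul_pos h20 hd0) hK) hpF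
    refine ⟨c, fun m z hz hz' => ?_⟩
    rw [hj] at hz hz'
    simp only [QuadraticAlgebra.re_star, QuadraticAlgebra.im_star, zero_mul, add_zero,
      map_neg] at hz'
    have hq : 0 ≤ ‖(p : F)‖ ^ m := pow_nonneg (norm_nonneg _) m
    have hb : K * ‖(p : F)‖ ^ (m + c) ≤ ‖(2 : F)‖ * ‖d‖ * ‖(p : F)‖ ^ m := by
      rw [lt_div_iff₀ hK] at hc
      rw [pow_add]
      nlinarith
    have e1 : ‖(2 : F)‖ * ‖j0 z.re‖ ≤ ‖(p : F)‖ ^ (m + c) := by
      rw [← norm_mul]
      have e : 2 * j0 z.re = (j0 z.re + d * j0 z.im) + (j0 z.re + d * -j0 z.im) := by ring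
      rw [e]
      exact (IsUltrametricDist.norm_add_le_max _ _).trans (max_le hz hz')
    have e2 : ‖(2 : F)‖ * ‖d‖ * ‖j0 z.im‖ ≤ ‖(p : F)‖ ^ (m + c) := by
      rw [← norm_mul, ← norm_mul]
      have e : 2 * d * j0 z.im = (j0 z.re + d * j0 z.im) + -(j0 z.re + d * -j0 z.im) := by ring
      rw [e]
      exact (IsUltrametricDist.norm_add_le_max _ _).trans (max_le hz (by rwa [norm_neg]))
    obtain ⟨r1, hr1⟩ := hs m z.re (by
      refine le_of_mul_le_mul_left ?_ h20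
      have e3 := mul_le_mul_of_nonneg_left e1 hK.le
      have e4 : ‖(2 : F)‖ * ‖d‖ * ‖(p : F)‖ ^ m ≤ ‖(2 : F)‖ * 1 * ‖(p : F)‖ ^ m :=
        mul_le_mul_of_nonneg_right (mul_le_mul_of_nonneg_left hd1 h20.le) hq
      nlinarith)
    obtain ⟨r2, hr2⟩ := hs m z.im (by
      refine le_of_mul_le_mul_left ?_ (mul_pos h20 hd0)
      have e3 := mul_le_mul_of_nonneg_left e2 hK.le
      nlinarith)
    refine ⟨⟨r1, r2⟩, ?_⟩
    rw [← Nat.cast_pow]
    refine QuadraticAlgebra.ext ?_ ?_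
    · simp only [QuadraticAlgebra.re_mul, QuadraticAlgebra.re_natCast, QuadraticAlgebra.im_natCast]
      rw [hr1]
      push_cast
      ring
    · simp only [QuadraticAlgebra.im_mul, QuadraticAlgebra.re_natCast, QuadraticAlgebra.im_natCast]
      rw [hr2]
      push_cast
      ring
  · intro z
    rw [L2_t_norm]
    exact Finset.sum_nonneg fun i _ => hnn z i
  · intro C
    have hf := L2_fin b σ h3 (C + 1)
    refine ((hf.prod hf).preimage (f := QuadraticAlgebra.equivProd (1 - 8 * (p : R)) 0)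
      (Equiv.injective _).injOn).subset ?_
    intro z hz
    have hz' : ∑ i, ((σ i z.re) ^ 2 + (8 * p - 1) * (σ i z.im) ^ 2) ≤ C := by
      rw [← L2_t_norm]
      exact hz
    have hi : ∀ i, (σ i z.re) ^ 2 + (8 * p - 1) * (σ i z.im) ^ 2 ≤ C := fun i =>
      (Finset.single_le_sum (fun i _ => hnn z i) (Finset.mem_univ i)).trans hz'
    have hab : ∀ y : ℝ, y ^ 2 ≤ C → |y| ≤ C + 1 := by
      intro y hy
      have := sq_abs y
      nlinarith [sq_nonneg (|y| - 1), abs_nonneg y]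
    refine ⟨fun i => hab (σ i z.re) ?_, fun i => hab (σ i z.im) ?_⟩
    · have := hi i
      nlinarith [sq_nonneg (σ i z.im)]
    · have := hi i
      nlinarith [sq_nonneg (σ i z.im), sq_nonneg (σ i z.re)]

end Pool.Agent.MP_4d0c14_b

end

section

/-! The lattice is discrete and residually finite. -/

namespace Pool.Agent.MP_4d0c14_b

open scoped Matrix

variable {p n d : ℕ} {F S : Type} [NormedField F] [CommRing S] [StarRing S] {j : S →+* F}
  {bas : Module.Basis (Fin d) ℤ S} {t : S →+ ℝ}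

omit [StarRing S] in
theorem L3_tf (bas : Module.Basis (Fin d) ℤ S) {s : S} {a : ℤ} (ha : a ≠ 0) (h : a • s = 0) :
    s = 0 := by
  apply bas.repr.injective
  ext i
  have h2 := congrArg (fun z => bas.repr z i) h
  simp only [map_zsmul, Finsupp.smul_apply, smul_eq_mul, map_zero, Finsupp.zero_apply] at h2
  simpa using (mul_eq_zero.1 h2).resolve_left ha

theorem L3_zero (h : IsOrd p j bas t) {s : S} (hs : t (star s * s) = 0) : s = 0 := by
  have hsub : Set.range (fun k : ℤ => k • s) ⊆ {s | t (star s * s) ≤ 0} := by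
    rintro _ ⟨k, rfl⟩
    have e : star (k • s) * (k • s) = (k * k) • (star s * s) := by
      rw [star_zsmul, smul_mul_smul_comm]
    simp only [Set.mem_ofPred_eq, e, map_zsmul, hs, smul_zero, le_refl]
  by_contra hne
  refine Set.infinite_range_of_injective (f := fun k : ℤ => k • s) ?_ ((h.fin 0).subset hsub)
  intro a b hab
  by_contra hab'
  exact hne (L3_tf bas (sub_ne_zero.2 hab') (by rw [sub_smul]; exact sub_eq_zero.2 hab))

theorem IsOrd.eq_zero (h : IsOrd p j bas t) {x : Fin n → S} (hx : ∑ i, star (x i) * x i = 0) :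
    x = 0 := by
  have h1 : ∑ i, t (star (x i) * x i) = 0 := by rw [← map_sum, hx, map_zero]
  funext i
  exact L3_zero h ((Finset.sum_eq_zero_iff_of_nonneg fun i _ => h.nonneg (x i)).1 h1 i
    (Finset.mem_univ i))

omit [StarRing S] in
theorem L3_map_smul {R : Type} [CommRing R] (φ : S →+* R) (e : ℕ)
    (X : Matrix (Fin n) (Fin n) S) : ((p : S) ^ e • X).map φ = (p : R) ^ e • X.map φ := by
  ext a b
  simp

theorem L3_ct_smul (e : ℕ) (X : Matrix (Fin n) (Fin n) S) :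
    ((p : S) ^ e • X)ᴴ = (p : S) ^ e • Xᴴ := by
  ext a b
  simp [mul_comm]

theorem L3_up {g : GL (Fin n) F} {m : ℕ} {X : Matrix (Fin n) (Fin n) S} (hX : Repr p j g m X)
    (e : ℕ) : Repr p j g (e + m) ((p : S) ^ e • X) := by
  constructor
  · rw [L3_map_smul, ← hX.1, smul_smul, pow_add]
  · rw [L3_ct_smul, L3_map_smul, ← hX.2, smul_smul, pow_add]

theorem L3_down (hp0 : (p : F) ≠ 0) {g : GL (Fin n) F} {m e : ℕ} {X : Matrix (Fin n) (Fin n) S}
    (hX : Repr p j g (e + m) ((p : S) ^ e • X)) : Repr p j g m X := by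
  have hi := smul_right_injective (Matrix (Fin n) (Fin n) F) (pow_ne_zero e hp0)
  constructor
  · apply hi
    have h1 := hX.1
    rw [L3_map_smul, pow_add, ← smul_smul] at h1
    exact h1
  · apply hi
    have h1 := hX.2
    rw [L3_ct_smul, L3_map_smul, pow_add, ← smul_smul] at h1
    exact h1

theorem L3_unif (h : IsOrd p j bas t) (hp0 : (p : F) ≠ 0) (hp : ‖(p : F)‖ < 1) (C : ℝ) :
    ∃ m0 : ℕ, ∀ g ∈ Gam p n j, Bnd C g → ∃ X, Repr p j g m0 X := by
  obtain ⟨c, hc⟩ := h.sat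
  have hM : 0 < max C 1 := lt_max_of_lt_right one_pos
  obtain ⟨c', hc'⟩ := exists_pow_lt_of_lt_one (one_div_pos.2 hM) hp
  rw [lt_div_iff₀ hM] at hc'
  refine ⟨c + c', ?_⟩
  rintro g ⟨-, m, X, hX⟩ hg
  rcases le_total m (c + c') with hm | hm
  · obtain ⟨e, he⟩ := Nat.exists_eq_add_of_le' hm
    exact ⟨_, he ▸ L3_up hX e⟩
  · obtain ⟨e, rfl⟩ := Nat.exists_eq_add_of_le' hm
    have key : ∀ y : F, ‖y‖ ≤ C → ‖(p : F) ^ (e + (c + c')) * y‖ ≤ ‖(p : F)‖ ^ (e + c) := by
      intro y hy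
      rw [norm_mul, norm_pow, ← add_assoc, pow_add, mul_assoc]
      refine mul_le_of_le_one_right (by positivity) (le_trans ?_ hc'.le)
      exact mul_le_mul_of_nonneg_left (hy.trans (le_max_left _ _)) (by positivity)
    have hdiv : ∀ a b, ∃ s', X a b = (p : S) ^ e * s' := by
      intro a b
      apply hc e
      · have e1 := congrFun (congrFun hX.1 a) b
        rw [Matrix.smul_apply, Matrix.map_apply, smul_eq_mul] at e1
        rw [← e1]
        exact key _ (hg a b).1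
      · have e1 := congrFun (congrFun hX.2 b) a
        rw [Matrix.smul_apply, Matrix.map_apply, smul_eq_mul, Matrix.conjTranspose_apply] at e1
        rw [← e1]
        exact key _ (hg b a).2
    choose X' hX' using hdiv
    have e2 : X = (p : S) ^ e • Matrix.of X' := by
      ext a b
      simp [hX']
    exact ⟨Matrix.of X', L3_down hp0 (e2 ▸ hX)⟩

theorem L3_gram (h : IsOrd p j bas t) {g : GL (Fin n) F} {m : ℕ} {X : Matrix (Fin n) (Fin n) S}
    (hX : Repr p j g m X) (a b : Fin n) : t (star (X a b) * X a b) ≤ t ((p : S) ^ (m + m)) := by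
  have h1 : Xᴴ * X = (p : S) ^ (m + m) • (1 : Matrix (Fin n) (Fin n) S) := by
    apply Matrix.map_injective h.inj
    simp only
    rw [Matrix.map_mul, L3_map_smul, ← hX.1, ← hX.2, Matrix.smul_mul, Matrix.mul_smul, smul_smul,
      ← Units.val_mul, inv_mul_cancel, pow_add, Matrix.map_one _ (map_zero j) (map_one j)]
    rfl
  have h2 := congrFun (congrFun h1 b) b
  simp only [Matrix.mul_apply, Matrix.conjTranspose_apply, Matrix.smul_apply,
    Matrix.one_apply_eq, smul_eq_mul, mul_one] at h2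
  rw [← h2, map_sum]
  exact Finset.single_le_sum (f := fun a => t (star (X a b) * X a b))
    (fun a _ => h.nonneg _) (Finset.mem_univ a)

theorem IsOrd.finite_bnd (h : IsOrd p j bas t) (hp0 : (p : F) ≠ 0) (hp : ‖(p : F)‖ < 1) (C : ℝ) :
    {g | g ∈ Gam p n j ∧ Bnd C g}.Finite := by
  obtain ⟨m, hm⟩ := L3_unif (n := n) h hp0 hp C
  have hT : {X : Matrix (Fin n) (Fin n) S | ∀ a, X a ∈
      {r : Fin n → S | ∀ b, r b ∈ {s | t (star s * s) ≤ t ((p : S) ^ (m + m))}}}.Finite :=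
    Set.Finite.pi' fun _ => Set.Finite.pi' fun _ => h.fin _
  refine (hT.biUnion (t := fun X => {g | Repr p j g m X}) fun X _ => ?_).subset ?_
  · refine Set.Subsingleton.finite fun g hg g' hg' => Units.ext ?_
    exact smul_right_injective (Matrix (Fin n) (Fin n) F) (pow_ne_zero m hp0)
      (hg.1.trans hg'.1.symm)
  · rintro g ⟨hg, hb⟩
    obtain ⟨X, hX⟩ := hm g hg hb
    exact Set.mem_iUnion₂.2 ⟨X, fun a b => L3_gram h hX a b, hX⟩

theorem L3_indep (h : IsOrd p j bas t) {R : Type} [CommRing R] (φ : S →+* R) {u : R}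
    (hu : u * (p : R) = 1) {g : GL (Fin n) F} {m m' : ℕ} {X X' : Matrix (Fin n) (Fin n) S}
    (hX : Repr p j g m X) (hX' : Repr p j g m' X') : u ^ m • X.map φ = u ^ m' • X'.map φ := by
  have h1 : (p : S) ^ m' • X = (p : S) ^ m • X' := by
    apply Matrix.map_injective h.inj
    simp only
    rw [← (L3_up hX m').1, ← (L3_up hX' m).1, add_comm]
  have h2 := congrArg (fun Y : Matrix (Fin n) (Fin n) S => (u ^ m * u ^ m') • Y.map φ) h1
  simp only [L3_map_smul, smul_smul] at h2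
  have e1 : u ^ m * u ^ m' * (p : R) ^ m' = u ^ m := by
    rw [mul_assoc, ← mul_pow, hu, one_pow, mul_one]
  have e2 : u ^ m * u ^ m' * (p : R) ^ m = u ^ m' := by
    rw [mul_right_comm, ← mul_pow, hu, one_pow, one_mul]
  rwa [e1, e2] at h2

theorem L3_hom (h : IsOrd p j bas t) {R : Type} [CommRing R] (φ : S →+* R) {u : R}
    (hu : u * (p : R) = 1) : ∃ f : Gam p n j →* Matrix (Fin n) (Fin n) R,
      ∀ (g : Gam p n j) m X, Repr p j (g : GL (Fin n) F) m X → f g = u ^ m • X.map φ := by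
  choose M Y hY using fun g : Gam p n j => g.2.2
  have key : ∀ (g : Gam p n j) m X, Repr p j (g : GL (Fin n) F) m X →
      u ^ M g • (Y g).map φ = u ^ m • X.map φ := fun g m X hX => L3_indep h φ hu (hY g) hX
  refine ⟨⟨⟨fun g => u ^ M g • (Y g).map φ, ?_⟩, fun g g' => ?_⟩, key⟩
  · rw [key 1 0 1 ⟨by simp, by simp⟩]
    simp
  · simp only
    rw [key (g * g') _ _ ((hY g).mul (hY g')), Matrix.map_mul, Matrix.smul_mul, Matrix.mul_smul,
      smul_smul, pow_add]

theorem IsOrd.residuallyFinite (h : IsOrd p j bas t) (hp0 : (p : F) ≠ 0) :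
    Group.ResiduallyFinite (Gam p n j) := by
  refine Group.residuallyFinite_of_forall_exists_finite_monoidHom.{_, 0} fun g hg => ?_
  obtain ⟨-, m, X, hX⟩ := g.2
  have hne : ∃ a b i, bas.repr ((X - (p : S) ^ m • (1 : Matrix (Fin n) (Fin n) S)) a b) i ≠ 0 := by
    by_contra hcon
    push Not at hcon
    have h0 : X = (p : S) ^ m • (1 : Matrix (Fin n) (Fin n) S) := by
      rw [← sub_eq_zero]
      ext a b
      apply bas.repr.injective
      ext i
      simpa using hcon a b i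
    apply hg
    refine Subtype.ext (Units.ext ?_)
    apply smul_right_injective (Matrix (Fin n) (Fin n) F) (pow_ne_zero m hp0)
    simp only
    rw [hX.1, h0, L3_map_smul, Matrix.map_one _ (map_zero j) (map_one j)]
    rfl
  obtain ⟨a, b, i, hk⟩ := hne
  set s := (X - (p : S) ^ m • (1 : Matrix (Fin n) (Fin n) S)) a b with hs
  set k : ℤ := bas.repr s i with hkd
  have hp1 : (1 : ℤ) ≤ p := by
    rcases Nat.eq_zero_or_pos p with rfl | h1
    · exact absurd Nat.cast_zero hp0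
    · exact_mod_cast h1
  have hlt : |k| < p * |k| + 1 := by nlinarith [abs_nonneg k]
  have hN0 : (p : ℤ) * |k| + 1 ≠ 0 := ((abs_nonneg k).trans_lt hlt).ne'
  have : IsDomain S := h.inj.isDomain j
  have : Module.Free ℤ S := Module.Free.of_basis bas
  have : Module.Finite ℤ S := Module.Finite.of_basis bas
  let I : Ideal S := Ideal.span {(((p : ℤ) * |k| + 1 : ℤ) : S)}
  have hI : I ≠ ⊥ := by
    rw [Ne, Ideal.span_singleton_eq_bot]
    intro h0
    exact one_ne_zero (L3_tf bas (s := (1 : S)) hN0 (by rw [zsmul_one]; exact h0))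
  have : Finite (S ⧸ I) := I.finiteQuotientOfFreeOfNeBot hI
  have hu : ((-|k| : ℤ) : S ⧸ I) * (p : S ⧸ I) = 1 := by
    have h0 : Ideal.Quotient.mk I (((p : ℤ) * |k| + 1 : ℤ) : S) = 0 :=
      Ideal.Quotient.eq_zero_iff_mem.2 (Ideal.mem_span_singleton_self _)
    rw [map_intCast] at h0
    push_cast at h0 ⊢
    linear_combination -h0
  obtain ⟨f, hf⟩ := L3_hom (n := n) h (Ideal.Quotient.mk I) hu
  refine ⟨(Matrix (Fin n) (Fin n) (S ⧸ I))ˣ, inferInstance, inferInstance, f.toHomUnits, ?_⟩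
  intro h1
  have h2 : f g = 1 := congrArg Units.val h1
  rw [hf g m X hX] at h2
  have h3 : X.map (Ideal.Quotient.mk I) = (p : S ⧸ I) ^ m • (1 : Matrix (Fin n) (Fin n) (S ⧸ I)) := by
    rw [← h2, smul_smul, ← mul_pow, mul_comm, hu, one_pow, one_smul]
  have h4 : Ideal.Quotient.mk I s = 0 := by
    have e1 := congrFun (congrFun h3 a) b
    have e2 := congrFun (congrFun (L3_map_smul (p := p) (Ideal.Quotient.mk I) m
      (1 : Matrix (Fin n) (Fin n) S)) a) b
    rw [Matrix.map_one _ (map_zero _) (map_one _), ← e1, Matrix.map_apply, Matrix.map_apply] at e2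
    rw [hs, Matrix.sub_apply, map_sub, e2, sub_self]
  obtain ⟨s', hs'⟩ := Ideal.mem_span_singleton'.1 (Ideal.Quotient.eq_zero_iff_mem.1 h4)
  have h5 : ((p : ℤ) * |k| + 1) ∣ k := by
    refine ⟨bas.repr s' i, ?_⟩
    conv_lhs => rw [hkd, ← hs', mul_comm, ← zsmul_eq_mul, map_zsmul]
    rfl
  exact hk (Int.eq_zero_of_abs_lt_dvd h5 hlt)

end Pool.Agent.MP_4d0c14_b

end

section

/-! Counting residue classes. -/

namespace Pool.Agent.MP_4d0c14_b

open scoped Matrix

theorem L4_norm_p (p : ℕ) [Fact p.Prime] (F : Type) [NontriviallyNormedField F]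
    [NormedAlgebra ℚ_[p] F] : ‖(p : F)‖ = (p : ℝ)⁻¹ := by
  rw [← map_natCast (algebraMap ℚ_[p] F) p, norm_algebraMap', Padic.norm_p]

theorem L4_coord (p : ℕ) [hp : Fact p.Prime] (F : Type) [NontriviallyNormedField F]
    [NormedAlgebra ℚ_[p] F] [FiniteDimensional ℚ_[p] F] {ι : Type} [Fintype ι]
    (b : Module.Basis ι ℚ_[p] F) :
    ∃ c : ℕ, (∀ l x, ‖b.coord l x‖ ≤ (p : ℝ) ^ c * ‖x‖) ∧ ∀ l, ‖b l‖ ≤ (p : ℝ) ^ c := by
  have h1 : (1 : ℝ) < p := by exact_mod_cast hp.out.one_lt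
  obtain ⟨K, hK⟩ := (Set.finite_range fun l : ι =>
    max ‖LinearMap.toContinuousLinearMap (b.coord l)‖ ‖b l‖).bddAbove
  obtain ⟨c, hc⟩ := pow_unbounded_of_one_lt K h1
  refine ⟨c, fun l x => ?_, fun l => ((le_max_right _ _).trans (hK ⟨l, rfl⟩)).trans hc.le⟩
  have h2 := (LinearMap.toContinuousLinearMap (b.coord l)).le_opNorm x
  rw [LinearMap.coe_toContinuousLinearMap'] at h2
  exact h2.trans (mul_le_mul_of_nonneg_right
    (((le_max_left _ _).trans (hK ⟨l, rfl⟩)).trans hc.le) (norm_nonneg _))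

theorem L4_zmod (p : ℕ) [Fact p.Prime] (N : ℕ) (u v : ℤ_[p])
    (h : PadicInt.toZModPow N u = PadicInt.toZModPow N v) :
    ‖(u : ℚ_[p]) - (v : ℚ_[p])‖ ≤ ((p : ℝ) ^ N)⁻¹ := by
  rw [← sub_eq_zero, ← map_sub, ← RingHom.mem_ker, PadicInt.ker_toZModPow,
    ← PadicInt.norm_le_pow_iff_mem_span_pow, PadicInt.norm_def, PadicInt.coe_sub, zpow_neg,
    zpow_natCast] at h
  exact h

theorem exists_net (p : ℕ) [Fact p.Prime] (F : Type) [NontriviallyNormedField F]
    [IsUltrametricDist F] [NormedAlgebra ℚ_[p] F] [FiniteDimensional ℚ_[p] F] :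
    ∃ C : ℕ, ∀ a : ℕ, ∃ h : F → Fin (C * p ^ (a * Module.finrank ℚ_[p] F)),
      ∀ x y : F, ‖x‖ ≤ 1 → ‖y‖ ≤ 1 → h x = h y → ‖x - y‖ ≤ ‖(p : F)‖ ^ a := by
  classical
  have hp : p.Prime := Fact.out
  have h0 : (0 : ℝ) < p := by exact_mod_cast hp.pos
  set f := Module.finrank ℚ_[p] F with hf
  let b : Module.Basis (Fin f) ℚ_[p] F := Module.finBasis ℚ_[p] F
  obtain ⟨c, hc, hb⟩ := L4_coord p F b
  refine ⟨p ^ (2 * c * f), fun a => ?_⟩
  have : NeZero (p ^ (a + 2 * c)) := ⟨pow_ne_zero _ hp.ne_zero⟩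
  have hcard : Fintype.card (Fin f → ZMod (p ^ (a + 2 * c))) = p ^ (2 * c * f) * p ^ (a * f) := by
    rw [Fintype.card_fun, ZMod.card, Fintype.card_fin, ← pow_mul, ← pow_add]
    congr 1
    ring
  let e := Fintype.equivFinOfCardEq hcard
  have hint : ∀ (x : F), ‖x‖ ≤ 1 → ∀ l, ‖(p : ℚ_[p]) ^ c * b.coord l x‖ ≤ 1 := by
    intro x hx l
    rw [norm_mul, norm_pow, Padic.norm_p, inv_pow, inv_mul_le_iff₀ (pow_pos h0 c)]
    exact (hc l x).trans (mul_le_mul_of_nonneg_left hx (pow_pos h0 c).le)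
  refine ⟨fun x => e fun l => if hx : ‖x‖ ≤ 1 then
    PadicInt.toZModPow (a + 2 * c) (⟨(p : ℚ_[p]) ^ c * b.coord l x, hint x hx l⟩ : ℤ_[p]) else 0,
    fun x y hx hy hxy => ?_⟩
  have h1 := e.injective hxy
  have h2 : ∀ l, ‖b.coord l (x - y)‖ ≤ ((p : ℝ) ^ (a + c))⁻¹ := by
    intro l
    have h3 := congrFun h1 l
    simp only [dif_pos hx, dif_pos hy] at h3
    replace h3 : ‖(p : ℚ_[p]) ^ c * b.coord l x - (p : ℚ_[p]) ^ c * b.coord l y‖ ≤
        ((p : ℝ) ^ (a + 2 * c))⁻¹ := L4_zmod p _ _ _ h3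
    rw [← mul_sub, ← map_sub, norm_mul, norm_pow, Padic.norm_p, inv_pow,
      inv_mul_le_iff₀ (pow_pos h0 c)] at h3
    refine h3.trans (le_of_eq ?_)
    field_simp
    ring
  rw [← b.sum_repr (x - y), L4_norm_p p F]
  refine IsUltrametricDist.norm_sum_le_of_forall_le_of_nonneg (by positivity) fun l _ => ?_
  rw [norm_smul]
  have h4 := h2 l
  rw [Module.Basis.coord_apply] at h4
  refine (mul_le_mul h4 (hb l) (norm_nonneg _) (by positivity)).trans (le_of_eq ?_)
  rw [inv_pow]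
  field_simp
  ring

theorem L4_vecMul {α β E : Type*} [NormedField E] [IsUltrametricDist E] [Fintype α] [Fintype β]
    {a : ℝ} {X : Matrix α β E} (hX : MLe a X) (ha : 0 ≤ a) (v : α → E) :
    ‖v ᵥ* X‖ ≤ a * ‖v‖ := by
  rw [← Matrix.mulVec_transpose]
  exact hX.transpose.mulVec ha v

theorem exists_hash (p : ℕ) [Fact p.Prime] (n : ℕ) {F S : Type} [NontriviallyNormedField F]
    [IsUltrametricDist F] [NormedAlgebra ℚ_[p] F] [FiniteDimensional ℚ_[p] F] [CommRing S]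
    [StarRing S] (j : S →+* F) (hj : ∀ s, ‖j s‖ ≤ 1) :
    ∃ C : ℕ, ∀ g : GL (Fin n) F, ∃ M₀ : ℕ, ∀ M, M₀ ≤ M →
      ∃ h : (Fin n → S) → Fin (C * (p ^ M) ^ (2 * Module.finrank ℚ_[p] F * n)),
        ∀ x y, h x = h y → InLat p j g M (x - y) := by
  classical
  have hp : p.Prime := Fact.out
  have h0 : (0 : ℝ) < p := by exact_mod_cast hp.pos
  have h1 : (1 : ℝ) < p := by exact_mod_cast hp.one_lt
  obtain ⟨C, hC⟩ := exists_net p F
  generalize Module.finrank ℚ_[p] F = f at hC ⊢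
  choose net hnet using hC
  refine ⟨(C ^ 2 * p ^ f) ^ n, fun g => ?_⟩
  obtain ⟨k₁, k₂, t, hk₁, hk₂, -, rfl⟩ := exists_cartan g
  rw [bnd_iff] at hk₁ hk₂
  have ht : ∀ i, ∃ c : ℤ, ‖(t i : F)‖ ∈ Set.Ico ((p : ℝ) ^ c) ((p : ℝ) ^ (c + 1)) := fun i =>
    exists_mem_Ico_zpow (norm_pos_iff.2 (t i).ne_zero) h1
  choose c hc using ht
  obtain ⟨M₀, hM₀⟩ := (Set.finite_range fun i => (c i).natAbs).bddAbove
  refine ⟨M₀, fun M hM => ?_⟩
  have hcM : ∀ i, (c i).natAbs ≤ M := fun i => (hM₀ ⟨i, rfl⟩).trans hM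
  let a : Fin n → ℕ := fun i => ((M : ℤ) - c i).toNat
  let b : Fin n → ℕ := fun i => ((M : ℤ) + c i + 1).toNat
  have ha : ∀ i, (a i : ℤ) = M - c i := fun i => by
    have := hcM i
    simp only [a]
    omega
  have hb : ∀ i, (b i : ℤ) = M + c i + 1 := fun i => by
    have := hcM i
    simp only [b]
    omega
  have hab : ∀ i, a i + b i = 2 * M + 1 := fun i => by
    have := ha i
    have := hb i
    omega
  have hcard : Fintype.card (∀ i : Fin n, Fin (C * p ^ (a i * f)) × Fin (C * p ^ (b i * f))) =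
      (C ^ 2 * p ^ f) ^ n * (p ^ M) ^ (2 * f * n) := by
    rw [Fintype.card_pi]
    have e : ∀ i : Fin n, Fintype.card (Fin (C * p ^ (a i * f)) × Fin (C * p ^ (b i * f))) =
        C ^ 2 * p ^ f * (p ^ M) ^ (2 * f) := by
      intro i
      rw [Fintype.card_prod, Fintype.card_fin, Fintype.card_fin]
      calc C * p ^ (a i * f) * (C * p ^ (b i * f)) = C ^ 2 * p ^ ((a i + b i) * f) := by ring
        _ = _ := by rw [hab i]; ring
    rw [Finset.prod_congr rfl fun i _ => e i, Finset.prod_const, Finset.card_univ,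
      Fintype.card_fin, mul_pow, ← pow_mul (p ^ M)]
  let e := Fintype.equivFinOfCardEq hcard
  let u : (Fin n → S) → Fin n → F := fun x =>
    ((k₁⁻¹ : GL (Fin n) F) : Matrix (Fin n) (Fin n) F) *ᵥ fun c => j (x c)
  let w : (Fin n → S) → Fin n → F := fun x =>
    (fun c => j (star (x c))) ᵥ* (k₁ : Matrix (Fin n) (Fin n) F)
  have hu : ∀ x i, ‖u x i‖ ≤ 1 := fun x i => by
    refine (norm_le_pi_norm _ i).trans ((hk₁.2.mulVec zero_le_one _).trans ?_)
    rw [one_mul]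
    exact (pi_norm_le_iff_of_nonneg zero_le_one).2 fun c => hj _
  have hw : ∀ x i, ‖w x i‖ ≤ 1 := fun x i => by
    refine (norm_le_pi_norm _ i).trans ((L4_vecMul hk₁.1 zero_le_one _).trans ?_)
    rw [one_mul]
    exact (pi_norm_le_iff_of_nonneg zero_le_one).2 fun c => hj _
  have hus : ∀ x y, u (x - y) = u x - u y := fun x y => by
    simp only [u]
    rw [← Matrix.mulVec_sub]
    congr 1
    ext c
    simp
  have hws : ∀ x y, w (x - y) = w x - w y := fun x y => by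
    simp only [w]
    rw [← Matrix.sub_vecMul]
    congr 1
    ext c
    simp
  refine ⟨fun x => e fun i => (net (a i) (u x i), net (b i) (w x i)), fun x y hxy => ?_⟩
  have h2 := e.injective hxy
  have h3 : ∀ i, ‖u (x - y) i‖ ≤ (p : ℝ) ^ (c i - M) := fun i => by
    have h4 := hnet (a i) _ _ (hu x i) (hu y i) (congrArg Prod.fst (congrFun h2 i))
    rw [L4_norm_p p F, inv_pow, ← zpow_natCast, ← zpow_neg, ha, neg_sub] at h4
    rw [hus]
    exact h4
  have h5 : ∀ i, ‖w (x - y) i‖ ≤ (p : ℝ) ^ (-((M : ℤ) + c i + 1)) := fun i => by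
    have h4 := hnet (b i) _ _ (hw x i) (hw y i) (congrArg Prod.snd (congrFun h2 i))
    rw [L4_norm_p p F, inv_pow, ← zpow_natCast, ← zpow_neg, hb] at h4
    rw [hws]
    exact h4
  have hq : ‖(p : F)‖ ^ M = (p : ℝ) ^ (-(M : ℤ)) := by
    rw [L4_norm_p p F, inv_pow, ← zpow_natCast, ← zpow_neg]
  have hq0 : (0 : ℝ) ≤ (p : ℝ) ^ (-(M : ℤ)) := by positivity
  constructor
  · intro i
    have e1 : (((k₁ * dg t * k₂)⁻¹ : GL (Fin n) F) : Matrix (Fin n) (Fin n) F) *ᵥ
        (fun c => j ((x - y) c)) = ((k₂⁻¹ : GL (Fin n) F) : Matrix (Fin n) (Fin n) F) *ᵥ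
          fun i => (((t i)⁻¹ : Fˣ) : F) * u (x - y) i := by
      rw [mul_inv_rev, mul_inv_rev, ← dg_inv, Units.val_mul, Units.val_mul,
        ← Matrix.mulVec_mulVec, ← Matrix.mulVec_mulVec, coe_dg]
      congr 1
      ext i
      rw [Matrix.mulVec_diagonal]
      rfl
    rw [e1, hq]
    refine (norm_le_pi_norm _ i).trans ((hk₂.2.mulVec zero_le_one _).trans ?_)
    rw [one_mul]
    refine (pi_norm_le_iff_of_nonneg hq0).2 fun l => ?_
    rw [norm_mul, Units.val_inv_eq_inv_val, norm_inv,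
      inv_mul_le_iff₀ (norm_pos_iff.2 (t l).ne_zero)]
    refine (h3 l).trans ?_
    rw [sub_eq_add_neg, zpow_add₀ h0.ne']
    exact mul_le_mul_of_nonneg_right (hc l).1 hq0
  · intro i
    have e1 : (fun c => j (star ((x - y) c))) ᵥ*
        ((k₁ * dg t * k₂ : GL (Fin n) F) : Matrix (Fin n) (Fin n) F) =
        (fun i => w (x - y) i * (t i : F)) ᵥ* (k₂ : Matrix (Fin n) (Fin n) F) := by
      rw [Units.val_mul, Units.val_mul, ← Matrix.vecMul_vecMul, ← Matrix.vecMul_vecMul, coe_dg]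
      congr 1
      ext i
      rw [Matrix.vecMul_diagonal]
    rw [e1, hq]
    refine (norm_le_pi_norm _ i).trans ((L4_vecMul hk₂.1 zero_le_one _).trans ?_)
    rw [one_mul]
    refine (pi_norm_le_iff_of_nonneg hq0).2 fun l => ?_
    rw [norm_mul]
    refine (mul_le_mul (h5 l) (hc l).2.le (norm_nonneg _) (by positivity)).trans (le_of_eq ?_)
    rw [← zpow_add₀ h0.ne']
    congr 1
    ring

theorem card_le_of_incongruent {V : Type} [AddCommGroup V] [Module.Free ℤ V] [Module.Finite ℤ V]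
    (A : Submodule ℤ V) (m : ℕ) (hm : 0 < m) (Y : Finset V) (hY : ∀ y ∈ Y, y ∈ A)
    (h : ∀ y ∈ Y, ∀ y' ∈ Y, ∀ z ∈ A, y - y' = (m : ℤ) • z → y = y') :
    Y.card ≤ m ^ Module.finrank ℤ A := by
  classical
  have : NeZero m := ⟨hm.ne'⟩
  let b := Module.finBasis ℤ A
  let φ : V → Fin (Module.finrank ℤ A) → ZMod m := fun y l =>
    if hy : y ∈ A then ((b.repr ⟨y, hy⟩ l : ℤ) : ZMod m) else 0
  have h1 : Y.card ≤ (Finset.univ : Finset (Fin (Module.finrank ℤ A) → ZMod m)).card := by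
    refine Finset.card_le_card_of_injOn φ (fun _ _ => Finset.mem_coe.2 (Finset.mem_univ _)) ?_
    intro y hy y' hy' hyy
    have hy := Finset.mem_coe.1 hy
    have hy' := Finset.mem_coe.1 hy'
    have h2 : ∀ l, ∃ z : ℤ, b.repr (⟨y, hY y hy⟩ - ⟨y', hY y' hy'⟩) l = (m : ℤ) * z := by
      intro l
      have h3 := congrFun hyy l
      simp only [φ, dif_pos (hY y hy), dif_pos (hY y' hy')] at h3
      rw [map_sub, Finsupp.sub_apply]
      exact (ZMod.intCast_eq_intCast_iff_dvd_sub _ _ _).1 h3.symm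
    choose z hz using h2
    have h4 : (⟨y, hY y hy⟩ - ⟨y', hY y' hy'⟩ : A) = (m : ℤ) • ∑ l, z l • b l := by
      rw [← b.sum_repr (⟨y, hY y hy⟩ - ⟨y', hY y' hy'⟩), Finset.smul_sum]
      exact Finset.sum_congr rfl fun l _ => by rw [hz l, mul_smul]
    exact h y hy y' hy' (∑ l, z l • b l : A) (Submodule.coe_mem _) (congrArg Subtype.val h4)
  rwa [Finset.card_univ, Fintype.card_fun, ZMod.card, Fintype.card_fin] at h1

end Pool.Agent.MP_4d0c14_b

end
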