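import Pool.Agent.Mg.F4d0c14.Gec9bb9
import Pool.Agent.Mg.F4d0c14.G0f4b62

section

/-! Slopes, invariant bounds and the group `H` attached to a type. -/

namespace Pool.Agent.MP_4d0c14_b

open scoped Matrix

namespace TypeData

variable {n k m : ℕ} {F E : Type} [NormedField F] [Field E] (D : TypeData n k m F E)

/-- The central element with entry `z i` on the block `i`. -/
def cen (z : Fin k → Fˣ) : GL (Fin n) F := dg fun a => z (D.b a)

/-- The block diagonal part. -/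
def dpart (X : Matrix (Fin n) (Fin n) F) : Matrix (Fin n) (Fin n) F :=
  Matrix.of fun a c => if D.b a = D.b c then X a c else 0

/-- The slope of the block `i`. -/
noncomputable def sl (j : GL (Fin n) F) (i : Fin k) : ℝ :=
  ‖((j : Matrix (Fin n) (Fin n) F).toSquareBlock D.b i).det‖ ^
    (1 / (Fintype.card {a // D.b a = i} : ℝ))

/-- The `J`-invariant bound. -/
def Bd (s : ℝ) (X : Matrix (Fin n) (Fin n) F) : Prop :=
  ∀ j ∈ D.J, ∀ j' ∈ D.J, ∀ a c,
    ‖((j : Matrix (Fin n) (Fin n) F) * X * (j' : Matrix (Fin n) (Fin n) F)) a c‖ ≤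
      s * D.sl j (D.b a) * D.sl j' (D.b c)

/-- All slopes are equal. -/
def Flat (j : GL (Fin n) F) : Prop := ∀ i i', D.sl j i = D.sl j i'

open Classical in
/-- `lam` of the block diagonal part. -/
noncomputable def lamF (g : GL (Fin n) F) : Matrix (Fin m) (Fin m) E :=
  if h : ∃ j : D.J, ((j : GL (Fin n) F) : Matrix (Fin n) (Fin n) F) = D.dpart g then
    D.lam h.choose else 0

/-- Membership in `H`. -/
def InH (r : ℝ) (g : GL (Fin n) F) : Prop :=
  ∃ j ∈ D.J, D.Flat j ∧ ∃ X, D.dpart X = 0 ∧ D.Bd r X ∧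
    (g : Matrix (Fin n) (Fin n) F) = (j : Matrix (Fin n) (Fin n) F) * (1 + X)

/-- An admissible radius. -/
def Good (r : ℝ) : Prop :=
  0 < r ∧ r < 1 ∧ ∀ g, IsLevi D.b g → Near r g → ∃ h : g ∈ D.J, D.lam ⟨g, h⟩ = 1

/-- Positive elements. -/
def Pos (j : GL (Fin n) F) : Prop := j ∈ D.J ∧ Antitone (D.sl j)

/-- A strictly positive central element. -/
def tt (ϖ : Fˣ) : GL (Fin n) F := D.cen fun i => ϖ ^ (i : ℕ)

theorem cen_mem (z : Fin k → Fˣ) : D.cen z ∈ D.J := (D.centre z).1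

theorem lam_cen (z : Fin k → Fˣ) :
    D.lam ⟨D.cen z, D.cen_mem z⟩ = (D.omega z : E) • (1 : Matrix (Fin m) (Fin m) E) :=
  (D.centre z).2

theorem cen_mul (z z' : Fin k → Fˣ) : D.cen (z * z') = D.cen z * D.cen z' := dg_mul _ _

theorem cen_inv (z : Fin k → Fˣ) : D.cen z⁻¹ = (D.cen z)⁻¹ := dg_inv _

theorem exists_good : ∃ r, D.Good r := by
  obtain ⟨r, hr, h⟩ := D.smooth
  exact ⟨min r (1 / 2), lt_min hr (by norm_num), (min_le_right _ _).trans_lt (by norm_num),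
    fun g hg hn => h g hg (hn.mono (min_le_left _ _))⟩

end TypeData

end Pool.Agent.MP_4d0c14_b

end

section

/-! Slopes and invariant bounds. -/

namespace Pool.Agent.MP_4d0c14_b

open scoped Matrix

section Blocks

variable {n k : ℕ} {F : Type} [Field F] {b : Fin n → Fin k} {g h : GL (Fin n) F}

theorem GE1_bt {α : Type} [LinearOrder α] {c : Fin n → α}
    (hg : (g : Matrix (Fin n) (Fin n) F).BlockTriangular c) :
    ((g⁻¹ : GL (Fin n) F) : Matrix (Fin n) (Fin n) F).BlockTriangular c := by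
  rw [Matrix.GeneralLinearGroup.coe_inv]
  letI := g.invertible
  exact Matrix.blockTriangular_inv_of_blockTriangular hg

theorem GE1_levi_bt (hg : IsLevi b g) : (g : Matrix (Fin n) (Fin n) F).BlockTriangular b :=
  fun i j hij => hg i j hij.ne'

theorem GE1_unip_bt (hg : IsUnip b g) : (g : Matrix (Fin n) (Fin n) F).BlockTriangular b :=
  fun i j hij => (hg i j hij.le).trans (Matrix.one_apply_ne fun e => hij.ne' (congrArg b e))

theorem GE1_unip_mul (hg : IsUnip b g) {Y : Matrix (Fin n) (Fin n) F} (hY : Y.BlockTriangular b)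
    {i j : Fin n} (hij : b j ≤ b i) : ((g : Matrix (Fin n) (Fin n) F) * Y) i j = Y i j := by
  rw [Matrix.mul_apply, Finset.sum_eq_single i]
  · rw [hg i i le_rfl, Matrix.one_apply_eq, one_mul]
  · intro e _ he
    rcases le_or_gt (b e) (b i) with h1 | h1
    · rw [hg i e h1, Matrix.one_apply_ne he.symm, zero_mul]
    · rw [hY (hij.trans_lt h1), mul_zero]
  · exact fun h1 => absurd (Finset.mem_univ i) h1

theorem GE1_blk_mul (hg : IsLevi b g) (Y : Matrix (Fin n) (Fin n) F) (i : Fin k) :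
    ((g : Matrix (Fin n) (Fin n) F) * Y).toSquareBlock b i =
      (g : Matrix (Fin n) (Fin n) F).toSquareBlock b i * Y.toSquareBlock b i := by
  ext a c
  simp only [Matrix.toSquareBlock_def, Matrix.of_apply, Matrix.mul_apply]
  rw [← Finset.sum_subtype (Finset.univ.filter fun e => b e = i) (by simp)
    fun e => (g : Matrix (Fin n) (Fin n) F) a e * Y e c]
  refine (Finset.sum_filter_of_ne fun e _ he => ?_).symm
  by_contra h1
  exact he (by rw [hg a e fun h2 => h1 (h2.symm.trans a.2), zero_mul])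

theorem GE1_blk_one (b : Fin n → Fin k) (i : Fin k) :
    (1 : Matrix (Fin n) (Fin n) F).toSquareBlock b i = 1 := by
  ext a c
  simp [Matrix.toSquareBlock_def, Matrix.one_apply, Subtype.ext_iff]

theorem GE1_det_ne (hg : IsLevi b g) (i : Fin k) :
    ((g : Matrix (Fin n) (Fin n) F).toSquareBlock b i).det ≠ 0 := by
  have h1 := GE1_blk_mul hg ((g⁻¹ : GL (Fin n) F) : Matrix (Fin n) (Fin n) F) i
  rw [Units.mul_inv, GE1_blk_one] at h1
  have h2 := congrArg Matrix.det h1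
  rw [Matrix.det_one, Matrix.det_mul] at h2
  exact left_ne_zero_of_mul_eq_one h2.symm

theorem GE1_entry (hg : IsLevi b g) (hh : IsLevi b h) {X Y : Matrix (Fin n) (Fin n) F}
    {a c : Fin n} (hXY : ∀ a' c', b a' = b a → b c' = b c → X a' c' = Y a' c') :
    ((g : Matrix (Fin n) (Fin n) F) * X * (h : Matrix (Fin n) (Fin n) F)) a c =
      ((g : Matrix (Fin n) (Fin n) F) * Y * (h : Matrix (Fin n) (Fin n) F)) a c := by
  simp only [Matrix.mul_apply]
  refine Finset.sum_congr rfl fun c' _ => ?_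
  by_cases h1 : b c' = b c
  · congr 1
    refine Finset.sum_congr rfl fun a' _ => ?_
    by_cases h2 : b a' = b a
    · rw [hXY a' c' h2 h1]
    · rw [hg a a' (Ne.symm h2), zero_mul, zero_mul]
  · rw [hh c' c h1, mul_zero, mul_zero]

theorem IsLevi.mul (hg : IsLevi b g) (hh : IsLevi b h) : IsLevi b (g * h) := by
  intro i j hij
  rw [Units.val_mul, Matrix.mul_apply]
  refine Finset.sum_eq_zero fun e _ => ?_
  by_cases h1 : b i = b e
  · rw [hh e j (h1 ▸ hij), mul_zero]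
  · rw [hg i e h1, zero_mul]

theorem IsLevi.inv (hg : IsLevi b g) : IsLevi b g⁻¹ := by
  intro i j hij
  rcases lt_or_gt_of_ne hij with h1 | h1
  · exact GE1_bt (c := fun a => OrderDual.toDual (b a)) (fun a c hac => hg a c hac.ne') h1
  · exact GE1_bt (GE1_levi_bt hg) h1

theorem isLevi_dg (b : Fin n → Fin k) (t : Fin n → Fˣ) : IsLevi b (dg t) := fun _ _ hij =>
  Matrix.diagonal_apply_ne _ fun e => hij (congrArg b e)

theorem IsLevi.tr (hg : IsLevi b g) : IsLevi b (tr g) := fun i j hij => hg j i hij.symm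

theorem IsLevi.cen_comm (hg : IsLevi b g) (z : Fin k → Fˣ) :
    dg (fun a => z (b a)) * g = g * dg (fun a => z (b a)) := by
  ext a c
  by_cases hac : b a = b c
  · simp [hac, mul_comm]
  · simp [hg a c hac]

theorem isUnip_one : IsUnip b (1 : GL (Fin n) F) := fun _ _ _ => rfl

theorem IsUnip.mul (hg : IsUnip b g) (hh : IsUnip b h) : IsUnip b (g * h) := fun i j hij =>
  (GE1_unip_mul hg (GE1_unip_bt hh) hij).trans (hh i j hij)

theorem IsUnip.inv (hg : IsUnip b g) : IsUnip b g⁻¹ := fun i j hij => by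
  rw [← GE1_unip_mul hg (GE1_bt (GE1_unip_bt hg)) hij, Units.mul_inv]

theorem IsUnip.conj (hg : IsUnip b g) (hh : IsLevi b h) : IsUnip b (h * g * h⁻¹) := by
  intro i j hij
  rw [mul_assoc, Units.val_mul, Units.val_mul, ← h.mul_inv, Matrix.mul_apply,
    Matrix.mul_apply (M := (h : Matrix (Fin n) (Fin n) F))]
  refine Finset.sum_congr rfl fun e _ => ?_
  by_cases h1 : b i = b e
  · rw [GE1_unip_mul hg (GE1_levi_bt hh.inv) (h1 ▸ hij)]
  · rw [hh i e h1, zero_mul, zero_mul]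

theorem IsUnip.isUp1 (hb : Monotone b) (hg : IsUnip b g) : IsUp1 g := fun i j hij =>
  hg i j (hb hij)

end Blocks

namespace TypeData

variable {n k m : ℕ} {F E : Type} [NormedField F] [Field E] (D : TypeData n k m F E)
  {j j' : GL (Fin n) F} {X Y : Matrix (Fin n) (Fin n) F} {s s' : ℝ}

theorem GE1_card (i : Fin k) : Fintype.card {a // D.b a = i} ≠ 0 := by
  obtain ⟨a, ha⟩ := D.surj i
  exact (Fintype.card_pos_iff.2 ⟨⟨a, ha⟩⟩).ne'

theorem GE1_nonneg (j : GL (Fin n) F) (i : Fin k) : 0 ≤ D.sl j i :=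
  Real.rpow_nonneg (norm_nonneg _) _

theorem GE1_pow (j : GL (Fin n) F) (i : Fin k) : D.sl j i ^ Fintype.card {a // D.b a = i} =
    ‖((j : Matrix (Fin n) (Fin n) F).toSquareBlock D.b i).det‖ := by
  rw [sl, one_div, Real.rpow_inv_natCast_pow (norm_nonneg _) (D.GE1_card i)]

theorem sl_pos (hj : IsLevi D.b j) (i : Fin k) : 0 < D.sl j i :=
  Real.rpow_pos_of_pos (norm_pos_iff.2 (GE1_det_ne hj i)) _

theorem sl_mul (hj : IsLevi D.b j) (hj' : IsLevi D.b j') (i : Fin k) :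
    D.sl (j * j') i = D.sl j i * D.sl j' i := by
  rw [sl, sl, sl, Units.val_mul, GE1_blk_mul hj, Matrix.det_mul, norm_mul,
    Real.mul_rpow (norm_nonneg _) (norm_nonneg _)]

theorem sl_one (i : Fin k) : D.sl 1 i = 1 := by
  rw [sl, Units.val_one, GE1_blk_one, Matrix.det_one, norm_one, Real.one_rpow]

theorem sl_inv (hj : IsLevi D.b j) (i : Fin k) : D.sl j⁻¹ i = (D.sl j i)⁻¹ := by
  refine eq_inv_of_mul_eq_one_right ?_
  rw [← D.sl_mul hj hj.inv, mul_inv_cancel, sl_one]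

theorem sl_cen (z : Fin k → Fˣ) (i : Fin k) : D.sl (D.cen z) i = ‖(z i : F)‖ := by
  have e : ((D.cen z : GL (Fin n) F) : Matrix (Fin n) (Fin n) F).toSquareBlock D.b i =
      Matrix.diagonal fun _ => (z i : F) := by
    ext a c
    simp [cen, Matrix.toSquareBlock_def, Matrix.diagonal_apply, Subtype.ext_iff, a.2]
  rw [sl, e, Matrix.det_diagonal, Finset.prod_const, Finset.card_univ, norm_pow, one_div,
    Real.pow_rpow_inv_natCast (norm_nonneg _) (D.GE1_card i)]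

theorem sl_tr (j : GL (Fin n) F) (i : Fin k) : D.transpose.sl (tr j) i = D.sl j i := by
  change ‖(((j : Matrix (Fin n) (Fin n) F).toSquareBlock D.b i)ᵀ).det‖ ^
    (1 / (Fintype.card {a // D.b a = i} : ℝ)) = _
  rw [Matrix.det_transpose, sl]

theorem norm_det_of_flat (hj : IsLevi D.b j) (h : ∀ i, D.sl j i = s) :
    ‖(j : Matrix (Fin n) (Fin n) F).det‖ = s ^ n := by
  have e : ∑ i, Fintype.card {a // D.b a = i} = n := by
    rw [← Fintype.card_sigma, Fintype.card_congr (Equiv.sigmaFiberEquiv D.b), Fintype.card_fin]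
  rw [(GE1_levi_bt hj).det_fintype, norm_prod]
  simp only [← D.GE1_pow, h]
  rw [Finset.prod_pow_eq_pow_sum, e]

theorem sl_pow_factorial (ϖ : Fˣ) (hz : ∀ x : F, x ≠ 0 → ∃ e : ℤ, ‖x‖ = ‖(ϖ : F)‖ ^ e)
    (hj : IsLevi D.b j) (i : Fin k) : ∃ e : ℤ, D.sl j i ^ n.factorial = ‖(ϖ : F)‖ ^ e := by
  obtain ⟨e, he⟩ := hz _ (GE1_det_ne hj i)
  have h1 : Fintype.card {a // D.b a = i} ≤ n :=
    (Fintype.card_subtype_le _).trans (Fintype.card_fin n).le
  obtain ⟨q, hq⟩ := Nat.dvd_factorial (Nat.pos_of_ne_zero (D.GE1_card i)) h1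
  exact ⟨e * q, by rw [hq, pow_mul, GE1_pow, he, zpow_mul, zpow_natCast]⟩

theorem Bd.mle (h : D.Bd s X) : MLe s X := fun a c => by
  simpa [sl_one] using h 1 D.J.one_mem 1 D.J.one_mem a c

theorem Bd.mono (h : D.Bd s X) (hs : s ≤ s') : D.Bd s' X := fun j hj j' hj' a c =>
  (h j hj j' hj' a c).trans (mul_le_mul_of_nonneg_right
    (mul_le_mul_of_nonneg_right hs (D.GE1_nonneg _ _)) (D.GE1_nonneg _ _))

theorem bd_zero (hs : 0 ≤ s) : D.Bd s 0 := fun j _ j' _ a c => by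
  rw [Matrix.mul_zero, Matrix.zero_mul, Matrix.zero_apply, norm_zero]
  exact mul_nonneg (mul_nonneg hs (D.GE1_nonneg _ _)) (D.GE1_nonneg _ _)

theorem Bd.neg (h : D.Bd s X) : D.Bd s (-X) := fun j hj j' hj' a c => by
  rw [Matrix.mul_neg, Matrix.neg_mul, Matrix.neg_apply, norm_neg]
  exact h j hj j' hj' a c

theorem Bd.mask (h : D.Bd s X) (hs : 0 ≤ s) (R : Fin k → Fin k → Prop) [DecidableRel R] :
    D.Bd s (Matrix.of fun a c => if R (D.b a) (D.b c) then X a c else 0) := by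
  intro j hj j' hj' a c
  by_cases hR : R (D.b a) (D.b c)
  · rw [GE1_entry (Y := X) (D.levi j hj) (D.levi j' hj') fun a' c' h1 h2 => by
      rw [Matrix.of_apply, h1, h2, if_pos hR]]
    exact h j hj j' hj' a c
  · rw [GE1_entry (Y := 0) (D.levi j hj) (D.levi j' hj') fun a' c' h1 h2 => by
      rw [Matrix.of_apply, h1, h2, if_neg hR, Matrix.zero_apply]]
    exact D.bd_zero hs j hj j' hj' a c

theorem Bd.left (h : D.Bd s X) (hs : 0 ≤ s) (hj : j ∈ D.J) {θ : ℝ} (hθ : ∀ i, D.sl j i ≤ θ) :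
    D.Bd (θ * s) ((j : Matrix (Fin n) (Fin n) F) * X) := by
  intro j1 h1 j2 h2 a c
  have h3 := h _ (D.J.mul_mem h1 hj) j2 h2 a c
  rw [D.sl_mul (D.levi _ h1) (D.levi _ hj), Units.val_mul,
    Matrix.mul_assoc (j1 : Matrix (Fin n) (Fin n) F)] at h3
  refine h3.trans (mul_le_mul_of_nonneg_right ?_ (D.GE1_nonneg _ _))
  have h4 := mul_le_mul_of_nonneg_left (hθ (D.b a)) (mul_nonneg hs (D.GE1_nonneg j1 (D.b a)))
  linarith

theorem Bd.conj (h : D.Bd s X) (hs : 0 ≤ s) (hj : j ∈ D.J) {θ : ℝ} (hθ0 : 0 ≤ θ)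
    (hθ : ∀ a c, X a c ≠ 0 → D.sl j (D.b a) ≤ θ * D.sl j (D.b c)) :
    D.Bd (θ * s) ((j : Matrix (Fin n) (Fin n) F) * X *
      ((j⁻¹ : GL (Fin n) F) : Matrix (Fin n) (Fin n) F)) := by
  intro j1 h1 j2 h2 a c
  have l1 := D.levi _ (D.J.mul_mem h1 hj)
  have l2 := D.levi _ (D.J.mul_mem (D.J.inv_mem hj) h2)
  have e : (j1 : Matrix (Fin n) (Fin n) F) * ((j : Matrix (Fin n) (Fin n) F) * X *
      ((j⁻¹ : GL (Fin n) F) : Matrix (Fin n) (Fin n) F)) * (j2 : Matrix (Fin n) (Fin n) F) =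
      ((j1 * j : GL (Fin n) F) : Matrix (Fin n) (Fin n) F) * X *
        ((j⁻¹ * j2 : GL (Fin n) F) : Matrix (Fin n) (Fin n) F) := by
    simp only [Units.val_mul, Matrix.mul_assoc]
  rw [e]
  by_cases h0 : ∀ a' c', D.b a' = D.b a → D.b c' = D.b c → X a' c' = 0
  · rw [GE1_entry (Y := 0) l1 l2 h0, Matrix.mul_zero, Matrix.zero_mul, Matrix.zero_apply, norm_zero]
    exact mul_nonneg (mul_nonneg (mul_nonneg hθ0 hs) (D.GE1_nonneg _ _)) (D.GE1_nonneg _ _)
  · push Not at h0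
    obtain ⟨a', c', e1, e2, h0⟩ := h0
    have h4 := hθ a' c' h0
    rw [e1, e2, ← div_le_iff₀ (D.sl_pos (D.levi _ hj) _), div_eq_mul_inv] at h4
    have h3 := h _ (D.J.mul_mem h1 hj) _ (D.J.mul_mem (D.J.inv_mem hj) h2) a c
    rw [D.sl_mul (D.levi _ h1) (D.levi _ hj), D.sl_mul (D.levi _ hj).inv (D.levi _ h2),
      D.sl_inv (D.levi _ hj)] at h3
    have h5 := mul_le_mul_of_nonneg_left h4
      (mul_nonneg (mul_nonneg hs (D.GE1_nonneg j1 (D.b a))) (D.GE1_nonneg j2 (D.b c)))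
    linarith

theorem bd_tr : D.transpose.Bd s Xᵀ ↔ D.Bd s X := by
  have e : ∀ (g g' : GL (Fin n) F) (a c : Fin n),
      (((tr g' : GL (Fin n) F) : Matrix (Fin n) (Fin n) F) * Xᵀ *
        ((tr g : GL (Fin n) F) : Matrix (Fin n) (Fin n) F)) c a =
      ((g : Matrix (Fin n) (Fin n) F) * X * (g' : Matrix (Fin n) (Fin n) F)) a c := by
    intro g g' a c
    rw [coe_tr, coe_tr, ← Matrix.transpose_mul, ← Matrix.transpose_mul, Matrix.transpose_apply,
      Matrix.mul_assoc]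
  constructor
  · intro h j hj j' hj' a c
    have h1 := h (tr j') hj' (tr j) hj c a
    rw [e, sl_tr, sl_tr, mul_right_comm] at h1
    exact h1
  · intro h j hj j' hj' a c
    have h1 := h (tr j') hj' (tr j) hj c a
    rw [← e, ← D.sl_tr (tr j'), ← D.sl_tr (tr j), mul_right_comm] at h1
    exact h1

variable [IsUltrametricDist F]

theorem GE1_le {C : ℝ} (hC : 0 < C) (h : Bnd C j) (i : Fin k) : D.sl j i ≤ C := by
  refine le_of_pow_le_pow_left₀ (D.GE1_card i) hC.le ?_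
  rw [GE1_pow]
  exact MLe.norm_det_le hC.le fun a c => (h a c).1

theorem sl_le_of_bnd {C : ℝ} (hC : 0 < C) (hj : IsLevi D.b j) (h : Bnd C j) (i : Fin k) :
    C⁻¹ ≤ D.sl j i ∧ D.sl j i ≤ C := by
  refine ⟨?_, D.GE1_le hC h i⟩
  have h1 := D.GE1_le hC h.inv i
  rw [D.sl_inv hj] at h1
  exact inv_le_of_inv_le₀ (D.sl_pos hj i) h1

theorem entry_le : ∃ C : ℝ, 0 < C ∧ ∀ j ∈ D.J, ∀ a c,
    ‖(j : Matrix (Fin n) (Fin n) F) a c‖ ≤ C * D.sl j (D.b a) := by
  obtain ⟨C, hC⟩ := D.bdd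
  have h0 : 0 < max C 1 := lt_max_of_lt_right one_pos
  refine ⟨max C 1 * max C 1, mul_pos h0 h0, fun j hj a c => ?_⟩
  obtain ⟨z, hz⟩ := hC j hj
  have hz' : Bnd (max C 1) (D.cen z * j) := hz.mono (le_max_left _ _)
  have l1 : IsLevi D.b (D.cen z) := isLevi_dg _ _
  have h1 := (D.sl_le_of_bnd h0 (l1.mul (D.levi j hj)) hz' (D.b a)).1
  rw [D.sl_mul l1 (D.levi j hj), sl_cen, inv_le_iff_one_le_mul₀ h0] at h1
  have h2 := (hz' a c).1
  rw [Units.val_mul, cen, coe_dg, Matrix.diagonal_mul, norm_mul] at h2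
  have h3 := mul_le_mul_of_nonneg_left h1 (norm_nonneg ((j : Matrix (Fin n) (Fin n) F) a c))
  have h4 := mul_le_mul_of_nonneg_right h2 (mul_nonneg h0.le (D.GE1_nonneg j (D.b a)))
  linarith

theorem bd_of_mle : ∃ C : ℝ, 0 < C ∧ ∀ (s : ℝ) (X : Matrix (Fin n) (Fin n) F), 0 ≤ s → MLe s X →
    D.Bd (C * s) X := by
  obtain ⟨C, hC, h⟩ := D.entry_le
  refine ⟨C * C, mul_pos hC hC, fun s X hs hX j hj j' hj' a c => ?_⟩
  have p1 := mul_nonneg hC.le (D.GE1_nonneg j (D.b a))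
  have p2 := mul_nonneg hC.le (D.GE1_nonneg j' (D.b c))
  have e : C * C * s * D.sl j (D.b a) * D.sl j' (D.b c) =
      C * D.sl j (D.b a) * s * (C * D.sl j' (D.b c)) := by ring
  rw [e, Matrix.mul_apply]
  refine IsUltrametricDist.norm_sum_le_of_forall_le_of_nonneg
    (mul_nonneg (mul_nonneg p1 hs) p2) fun c' _ => ?_
  rw [norm_mul]
  refine mul_le_mul ?_ ?_ (norm_nonneg _) (mul_nonneg p1 hs)
  · rw [Matrix.mul_apply]
    refine IsUltrametricDist.norm_sum_le_of_forall_le_of_nonneg (mul_nonneg p1 hs) fun a' _ => ?_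
    rw [norm_mul]
    exact mul_le_mul (h j hj a a') (hX a' c') (norm_nonneg _) p1
  · by_cases h1 : D.b c' = D.b c
    · exact h1 ▸ h j' hj' c' c
    · rw [D.levi j' hj' c' c h1, norm_zero]
      exact p2

theorem Bd.add (h : D.Bd s X) (h' : D.Bd s Y) : D.Bd s (X + Y) := fun j hj j' hj' a c => by
  rw [Matrix.mul_add, Matrix.add_mul, Matrix.add_apply]
  exact (IsUltrametricDist.norm_add_le_max _ _).trans
    (max_le (h j hj j' hj' a c) (h' j hj j' hj' a c))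

theorem Bd.sub (h : D.Bd s X) (h' : D.Bd s Y) : D.Bd s (X - Y) := by
  rw [sub_eq_add_neg]
  exact Bd.add D h (Bd.neg D h')

theorem Bd.mul (h : D.Bd s X) (h' : D.Bd s' Y) (hs : 0 ≤ s) (hs' : 0 ≤ s') :
    D.Bd (s * s') (X * Y) := by
  intro j hj j' hj' a c
  have p1 := mul_nonneg hs (D.GE1_nonneg j (D.b a))
  have p2 := mul_nonneg hs' (D.GE1_nonneg j' (D.b c))
  have e : s * s' * D.sl j (D.b a) * D.sl j' (D.b c) =
      s * D.sl j (D.b a) * (s' * D.sl j' (D.b c)) := by ring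
  rw [e, ← Matrix.mul_assoc, Matrix.mul_assoc _ Y, Matrix.mul_apply]
  refine IsUltrametricDist.norm_sum_le_of_forall_le_of_nonneg (mul_nonneg p1 p2) fun x _ => ?_
  have h1 := h j hj 1 D.J.one_mem a x
  have h2 := h' 1 D.J.one_mem j' hj' x c
  rw [sl_one, mul_one, Units.val_one, Matrix.mul_one] at h1
  rw [sl_one, mul_one, Units.val_one, Matrix.one_mul] at h2
  rw [norm_mul]
  exact mul_le_mul h1 h2 (norm_nonneg _) p1

/-- a priori bound for the solution of a contraction equation -/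
theorem bd_of_fix {r : ℝ} (hr0 : 0 ≤ r) (hr : r < 1) (hs : 0 ≤ s)
    (h : ∀ t : ℝ, 0 ≤ t → D.Bd t Y → D.Bd (max s (r * t)) Y) : D.Bd s Y := by
  obtain ⟨C, hC, h1⟩ := D.bd_of_mle
  obtain ⟨t, ht, h2⟩ := MLe.exists_bound Y
  have h3 : ∀ p : ℕ, D.Bd (max s (r ^ p * (C * t))) Y := by
    intro p
    induction p with
    | zero =>
      rw [pow_zero, one_mul]
      exact Bd.mono D (h1 t Y ht.le h2) (le_max_right _ _)
    | succ p ih =>
      refine Bd.mono D (h _ (le_max_of_le_left hs) ih) (max_le (le_max_left _ _) ?_)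
      rw [mul_max_of_nonneg _ _ hr0, pow_succ', mul_assoc]
      exact max_le_max (mul_le_of_le_one_left hs hr.le) le_rfl
  intro j hj j' hj' a c
  have h4 : Filter.Tendsto (fun p : ℕ => max s (r ^ p * (C * t)) * D.sl j (D.b a) * D.sl j' (D.b c))
      Filter.atTop (nhds (max s (0 * (C * t)) * D.sl j (D.b a) * D.sl j' (D.b c))) :=
    ((tendsto_const_nhds.max ((tendsto_pow_atTop_nhds_zero_of_lt_one hr0 hr).mul_const _)).mul_const
      _).mul_const _
  rw [zero_mul, max_eq_left hs] at h4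
  exact ge_of_tendsto' h4 fun p => h3 p j hj j' hj' a c

end TypeData

end Pool.Agent.MP_4d0c14_b

end

section

/-! The groups `H`, `P`, `L` and the representation `lamF`. -/

namespace Pool.Agent.MP_4d0c14_b

open scoped Matrix

namespace TypeData

variable {n k m : ℕ} {F E : Type} [NormedField F] [Field E] (D : TypeData n k m F E)
  {g h j : GL (Fin n) F} {r : ℝ}

theorem dpart_levi (hj : IsLevi D.b j) : D.dpart j = j := by
  ext a c
  by_cases h : D.b a = D.b c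
  · simp [dpart, h]
  · simp [dpart, h, hj a c h]

theorem dpart_levi_mul (hj : IsLevi D.b j) (X : Matrix (Fin n) (Fin n) F) :
    D.dpart ((j : Matrix (Fin n) (Fin n) F) * X) = j * D.dpart X := by
  ext a c
  simp only [dpart, Matrix.of_apply, Matrix.mul_apply]
  by_cases h : D.b a = D.b c
  · rw [if_pos h]
    refine Finset.sum_congr rfl fun e _ => ?_
    by_cases he : D.b e = D.b c
    · rw [if_pos he]
    · rw [if_neg he, hj a e (fun h' => he (h'.symm.trans h)), zero_mul, zero_mul]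
  · rw [if_neg h]
    refine (Finset.sum_eq_zero fun e _ => ?_).symm
    by_cases he : D.b e = D.b c
    · rw [hj a e (fun h' => h (h'.trans he)), zero_mul]
    · rw [if_neg he, mul_zero]

theorem dpart_mul_levi (hj : IsLevi D.b j) (X : Matrix (Fin n) (Fin n) F) :
    D.dpart (X * (j : Matrix (Fin n) (Fin n) F)) = D.dpart X * j := by
  ext a c
  simp only [dpart, Matrix.of_apply, Matrix.mul_apply]
  by_cases h : D.b a = D.b c
  · rw [if_pos h]
    refine Finset.sum_congr rfl fun e _ => ?_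
    by_cases he : D.b a = D.b e
    · rw [if_pos he]
    · rw [if_neg he, hj e c (fun h' => he (h.trans h'.symm)), mul_zero, mul_zero]
  · rw [if_neg h]
    refine (Finset.sum_eq_zero fun e _ => ?_).symm
    by_cases he : D.b a = D.b e
    · rw [hj e c (fun h' => h (he.trans h')), mul_zero]
    · rw [if_neg he, zero_mul]

theorem dpart_add (X Y : Matrix (Fin n) (Fin n) F) : D.dpart (X + Y) = D.dpart X + D.dpart Y := by
  ext a c
  by_cases h : D.b a = D.b c <;> simp [dpart, h]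

theorem GE2_dpart_neg (X : Matrix (Fin n) (Fin n) F) : D.dpart (-X) = -D.dpart X := by
  ext a c
  by_cases h : D.b a = D.b c <;> simp [dpart, h]

theorem GE2_dpart_sub (X Y : Matrix (Fin n) (Fin n) F) :
    D.dpart (X - Y) = D.dpart X - D.dpart Y := by
  rw [sub_eq_add_neg, D.dpart_add, D.GE2_dpart_neg, ← sub_eq_add_neg]

theorem GE2_dpart_dpart (X : Matrix (Fin n) (Fin n) F) : D.dpart (D.dpart X) = D.dpart X := by
  ext a c
  by_cases h : D.b a = D.b c <;> simp [dpart, h]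

theorem GE2_dpart_zero : D.dpart 0 = 0 := by
  ext a c
  simp [dpart]

theorem GE2_dpart_one : D.dpart 1 = 1 := by
  ext a c
  by_cases h : D.b a = D.b c
  · simp [dpart, h]
  · have : a ≠ c := fun h' => h (by rw [h'])
    simp [dpart, h, Matrix.one_apply_ne this]

theorem GE2_dpart_of (hj : IsLevi D.b j) {X : Matrix (Fin n) (Fin n) F} (hX : D.dpart X = 0)
    (hg : (g : Matrix (Fin n) (Fin n) F) = (j : Matrix (Fin n) (Fin n) F) * (1 + X)) :
    D.dpart g = j := by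
  rw [hg, D.dpart_levi_mul hj, D.dpart_add, hX, D.GE2_dpart_one, add_zero, Matrix.mul_one]

theorem GE2_bd_dpart {s : ℝ} {X : Matrix (Fin n) (Fin n) F} (h : D.Bd s X) (hs : 0 ≤ s) :
    D.Bd s (D.dpart X) :=
  Bd.mask D h hs fun i i' => i = i'

theorem GE2_flat_inv (hj : j ∈ D.J) (hf : D.Flat j) : D.Flat j⁻¹ := fun i i' => by
  rw [D.sl_inv (D.levi _ hj), D.sl_inv (D.levi _ hj), hf i i']

theorem GE2_flat_mul {j' : GL (Fin n) F} (hj : j ∈ D.J) (hj' : j' ∈ D.J) (hf : D.Flat j)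
    (hf' : D.Flat j') : D.Flat (j * j') := fun i i' => by
  rw [D.sl_mul (D.levi _ hj) (D.levi _ hj'), D.sl_mul (D.levi _ hj) (D.levi _ hj'), hf i i',
    hf' i i']

theorem GE2_bd_conj {s : ℝ} {X : Matrix (Fin n) (Fin n) F} (h : D.Bd s X) (hs : 0 ≤ s)
    (hj : j ∈ D.J) (hf : D.Flat j) :
    D.Bd s ((j : Matrix (Fin n) (Fin n) F) * X *
      ((j⁻¹ : GL (Fin n) F) : Matrix (Fin n) (Fin n) F)) := by
  have := Bd.conj D h hs hj (θ := 1) zero_le_one fun a c _ => by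
    rw [one_mul]; exact (hf _ _).le
  rwa [one_mul] at this

theorem dpart_unip (hg : IsUnip D.b g) : D.dpart g = 1 := by
  ext a c
  by_cases h : D.b a = D.b c
  · rw [← hg a c h.ge]
    simp [dpart, h]
  · have : a ≠ c := fun h' => h (by rw [h'])
    simp [dpart, h, Matrix.one_apply_ne this]

theorem lamF_eq (hj : j ∈ D.J) (h : (j : Matrix (Fin n) (Fin n) F) = D.dpart g) :
    D.lamF g = D.lam ⟨j, hj⟩ := by
  have hex : ∃ j : D.J, ((j : GL (Fin n) F) : Matrix (Fin n) (Fin n) F) = D.dpart g :=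
    ⟨⟨j, hj⟩, h⟩
  unfold lamF
  rw [dif_pos hex]
  congr 1
  exact Subtype.ext (Units.ext (hex.choose_spec.trans h.symm))

theorem lamF_of_mem (hj : j ∈ D.J) : D.lamF j = D.lam ⟨j, hj⟩ :=
  D.lamF_eq hj (D.dpart_levi (D.levi _ hj)).symm

theorem lamF_mul_unip (hj : j ∈ D.J) (hg : IsUnip D.b g) : D.lamF (j * g) = D.lam ⟨j, hj⟩ :=
  D.lamF_eq hj (by
    rw [Units.val_mul, D.dpart_levi_mul (D.levi _ hj), D.dpart_unip hg, Matrix.mul_one])

theorem inH_iff_flat (hr : D.Good r) (hj : IsLevi D.b j) : D.InH r j ↔ j ∈ D.J ∧ D.Flat j := by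
  constructor
  · rintro ⟨j0, hj0, hf, X, hX, -, e⟩
    have h1 := D.GE2_dpart_of (D.levi _ hj0) hX e
    rw [D.dpart_levi hj] at h1
    have h2 : j = j0 := Units.ext h1
    rw [h2]
    exact ⟨hj0, hf⟩
  · rintro ⟨h1, h2⟩
    exact ⟨j, h1, h2, 0, D.GE2_dpart_zero, D.bd_zero hr.1.le, by simp⟩

theorem InH.bd_of_dpart (hg : D.InH r g) (h : D.dpart g = 1) :
    D.Bd r ((g : Matrix (Fin n) (Fin n) F) - 1) := by
  obtain ⟨j0, hj0, -, X, hX, hb, e⟩ := hg
  have h1 := D.GE2_dpart_of (D.levi _ hj0) hX e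
  rw [h] at h1
  rw [e, ← h1, Matrix.one_mul, add_sub_cancel_left]
  exact hb

/-- The group `J N`. -/
def PP : Subgroup (GL (Fin n) F) where
  carrier := {g | ∃ j ∈ D.J, ∃ u, IsUnip D.b u ∧ g = j * u}
  mul_mem' := by
    rintro _ _ ⟨j, hj, u, hu, rfl⟩ ⟨j', hj', u', hu', rfl⟩
    exact ⟨j * j', D.J.mul_mem hj hj', j'⁻¹ * u * j'⁻¹⁻¹ * u',
      (hu.conj (D.levi _ hj').inv).mul hu', by group⟩
  one_mem' := ⟨1, D.J.one_mem, 1, isUnip_one, by simp⟩
  inv_mem' := by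
    rintro _ ⟨j, hj, u, hu, rfl⟩
    exact ⟨j⁻¹, D.J.inv_mem hj, j * u⁻¹ * j⁻¹, hu.inv.conj (D.levi _ hj), by group⟩

/-- The unipotent radical. -/
def UU : Subgroup (GL (Fin n) F) where
  carrier := {g | IsUnip D.b g}
  mul_mem' := IsUnip.mul
  one_mem' := isUnip_one
  inv_mem' := IsUnip.inv

/-- The opposite unipotent radical. -/
def LL : Subgroup (GL (Fin n) F) where
  carrier := {g | IsUnip D.b (tr g)}
  mul_mem' := fun {g h} hg hh => by
    change IsUnip D.b (tr (g * h))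
    rw [tr_mul]
    exact IsUnip.mul hh hg
  one_mem' := by
    change IsUnip D.b (tr 1)
    rw [tr_one]
    exact isUnip_one
  inv_mem' := fun {g} hg => by
    change IsUnip D.b (tr g⁻¹)
    rw [tr_inv]
    exact IsUnip.inv hg

theorem lamF_mulP (hg : g ∈ D.PP) (hh : h ∈ D.PP) : D.lamF (g * h) = D.lamF g * D.lamF h := by
  obtain ⟨j, hj, u, hu, rfl⟩ := hg
  obtain ⟨j', hj', u', hu', rfl⟩ := hh
  have e : j * u * (j' * u') = j * j' * (j'⁻¹ * u * j'⁻¹⁻¹ * u') := by group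
  rw [e, D.lamF_mul_unip (D.J.mul_mem hj hj') ((hu.conj (D.levi _ hj').inv).mul hu'),
    D.lamF_mul_unip hj hu, D.lamF_mul_unip hj' hu', ← map_mul]
  rfl

theorem lamF_L (hg : g ∈ D.LL) : D.lamF g = 1 := by
  have hu : IsUnip D.b (tr g) := hg
  have h1 : D.dpart g = 1 := by
    ext a c
    by_cases h : D.b a = D.b c
    · have h2 := hu c a h.le
      rw [coe_tr, Matrix.transpose_apply] at h2
      simp [dpart, h, h2, Matrix.one_apply, eq_comm]
    · have : a ≠ c := fun h' => h (by rw [h'])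
      simp [dpart, h, Matrix.one_apply_ne this]
  rw [D.lamF_eq D.J.one_mem (by rw [h1, Units.val_one])]
  exact map_one D.lam

variable [IsUltrametricDist F]

/-- a perturbation with a small block diagonal part -/
theorem inH_of (hr : D.Good r) (hj : j ∈ D.J) (hf : D.Flat j) {Y : Matrix (Fin n) (Fin n) F}
    (hY : D.Bd r Y) (hd : D.Bd (r * r) (D.dpart Y))
    (hg : (g : Matrix (Fin n) (Fin n) F) = (j : Matrix (Fin n) (Fin n) F) * (1 + Y)) :
    D.InH r g ∧ D.lamF g = D.lam ⟨j, hj⟩ := by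
  obtain ⟨hr0, hr1, hr2⟩ := hr
  have hrr : r * r < r := by nlinarith
  obtain ⟨j0, hj0⟩ := exists_gl_of_mle (hrr.trans hr1) (Bd.mle D hd)
  have hl : IsLevi D.b j0 := fun a c h => by
    have : a ≠ c := fun h' => h (by rw [h'])
    simp [hj0, dpart, h, Matrix.one_apply_ne this]
  have hn : Near r j0 := fun a c => by
    rw [hj0, add_sub_cancel_left]
    exact (Bd.mle D hd a c).trans_lt hrr
  obtain ⟨hm, hlam⟩ := hr2 j0 hl hn
  have hs : ∀ i, D.sl j0 i = 1 := fun i => by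
    have := D.sl_le_of_bnd one_pos hl (hn.bnd hr0 hr1.le) i
    rw [inv_one] at this
    exact le_antisymm this.2 this.1
  have hf0 : D.Flat j0 := fun i i' => by rw [hs, hs]
  have hb : D.Bd r (((j0⁻¹ : GL (Fin n) F) : Matrix (Fin n) (Fin n) F) * (Y - D.dpart Y)) := by
    have := Bd.left D (Bd.sub D hY (Bd.mono D hd hrr.le)) hr0.le (D.J.inv_mem hm) (θ := 1)
      fun i => by rw [D.sl_inv hl, hs, inv_one]
    rwa [one_mul] at this
  have hz : D.dpart (((j0⁻¹ : GL (Fin n) F) : Matrix (Fin n) (Fin n) F) * (Y - D.dpart Y)) = 0 := by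
    rw [D.dpart_levi_mul hl.inv, D.GE2_dpart_sub, D.GE2_dpart_dpart, sub_self, Matrix.mul_zero]
  have e : (g : Matrix (Fin n) (Fin n) F) = ((j * j0 : GL (Fin n) F) : Matrix (Fin n) (Fin n) F) *
      (1 + ((j0⁻¹ : GL (Fin n) F) : Matrix (Fin n) (Fin n) F) * (Y - D.dpart Y)) := by
    rw [hg, Units.val_mul, Matrix.mul_assoc, Matrix.mul_add (j0 : Matrix (Fin n) (Fin n) F),
      ← Matrix.mul_assoc (j0 : Matrix (Fin n) (Fin n) F), Units.mul_inv, Matrix.one_mul,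
      Matrix.mul_one, hj0]
    congr 1
    abel
  refine ⟨⟨j * j0, D.J.mul_mem hj hm, D.GE2_flat_mul hj hm hf hf0, _, hz, hb, e⟩, ?_⟩
  rw [D.lamF_eq (D.J.mul_mem hj hm) (D.GE2_dpart_of (D.levi _ (D.J.mul_mem hj hm)) hz e).symm]
  have : (⟨j * j0, D.J.mul_mem hj hm⟩ : D.J) = ⟨j, hj⟩ * ⟨j0, hm⟩ := rfl
  rw [this, map_mul, hlam, mul_one]

theorem InH.mul (hr : D.Good r) (hg : D.InH r g) (hh : D.InH r h) :
    D.InH r (g * h) ∧ D.lamF (g * h) = D.lamF g * D.lamF h := by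
  obtain ⟨j, hj, hf, X, hX, hb, e⟩ := hg
  obtain ⟨j', hj', hf', X', hX', hb', e'⟩ := hh
  have hr0 := hr.1.le
  have hrr : r * r ≤ r := by nlinarith [hr.2.1]
  have hb1 := D.GE2_bd_conj hb hr0 (D.J.inv_mem hj') (D.GE2_flat_inv hj' hf')
  rw [inv_inv] at hb1
  set X1 := ((j'⁻¹ : GL (Fin n) F) : Matrix (Fin n) (Fin n) F) * X *
    (j' : Matrix (Fin n) (Fin n) F) with hX1
  have hd1 : D.dpart X1 = 0 := by
    rw [hX1, D.dpart_mul_levi (D.levi _ hj'), D.dpart_levi_mul (D.levi _ hj').inv, hX,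
      Matrix.mul_zero, Matrix.zero_mul]
  have hm := Bd.mul D hb1 hb' hr0 hr0
  have hY : D.Bd r (X1 + X' + X1 * X') := Bd.add D (Bd.add D hb1 hb') (Bd.mono D hm hrr)
  have hd : D.Bd (r * r) (D.dpart (X1 + X' + X1 * X')) := by
    rw [D.dpart_add, D.dpart_add, hd1, hX', add_zero, zero_add]
    exact D.GE2_bd_dpart hm (mul_nonneg hr0 hr0)
  have e1 : (j' : Matrix (Fin n) (Fin n) F) * X1 = X * j' := by
    rw [hX1, ← Matrix.mul_assoc, ← Matrix.mul_assoc, Units.mul_inv, Matrix.one_mul]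
  have e2 : ((g * h : GL (Fin n) F) : Matrix (Fin n) (Fin n) F) =
      ((j * j' : GL (Fin n) F) : Matrix (Fin n) (Fin n) F) * (1 + (X1 + X' + X1 * X')) := by
    have e3 : (1 : Matrix (Fin n) (Fin n) F) + (X1 + X' + X1 * X') = (1 + X1) * (1 + X') := by
      noncomm_ring
    have e4 : (j' : Matrix (Fin n) (Fin n) F) * (1 + X1) = (1 + X) * j' := by
      rw [Matrix.mul_add, Matrix.add_mul, e1, Matrix.mul_one, Matrix.one_mul]
    rw [Units.val_mul, Units.val_mul, e, e', e3, Matrix.mul_assoc, Matrix.mul_assoc,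
      ← Matrix.mul_assoc (j' : Matrix (Fin n) (Fin n) F), e4, Matrix.mul_assoc]
  obtain ⟨h1, h2⟩ := D.inH_of hr (D.J.mul_mem hj hj') (D.GE2_flat_mul hj hj' hf hf') hY hd e2
  refine ⟨h1, ?_⟩
  rw [h2, D.lamF_eq hj (D.GE2_dpart_of (D.levi _ hj) hX e).symm,
    D.lamF_eq hj' (D.GE2_dpart_of (D.levi _ hj') hX' e').symm, ← map_mul]
  rfl

theorem InH.inv (hr : D.Good r) (hg : D.InH r g) : D.InH r g⁻¹ := by
  obtain ⟨j, hj, hf, X, hX, hb, e⟩ := hg
  have hr0 := hr.1.le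
  obtain ⟨Y, hY⟩ : ∃ Y : Matrix (Fin n) (Fin n) F,
      1 + Y = ((g⁻¹ * j : GL (Fin n) F) : Matrix (Fin n) (Fin n) F) :=
    ⟨((g⁻¹ * j : GL (Fin n) F) : Matrix (Fin n) (Fin n) F) - 1, by abel⟩
  have e0 : 1 + X = ((j⁻¹ * g : GL (Fin n) F) : Matrix (Fin n) (Fin n) F) := by
    rw [Units.val_mul, e, ← Matrix.mul_assoc, Units.inv_mul, Matrix.one_mul]
  have e1 : (1 + X) * (1 + Y) = 1 := by
    rw [e0, hY, ← Units.val_mul]
    have : j⁻¹ * g * (g⁻¹ * j) = 1 := by group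
    rw [this, Units.val_one]
  have e2 : Y = -X - X * Y := by
    have e3 : (1 + X) * (1 + Y) = 1 + (Y - (-X - X * Y)) := by noncomm_ring
    rw [e3] at e1
    exact sub_eq_zero.1 (by simpa using e1)
  have hbY : D.Bd r Y := D.bd_of_fix hr0 hr.2.1 hr0 fun t ht h => by
    rw [e2]
    exact Bd.sub D (Bd.mono D (Bd.neg D hb) (le_max_left _ _))
      (Bd.mono D (Bd.mul D hb h hr0 ht) (le_max_right _ _))
  have hrr : 0 ≤ r * r := mul_nonneg hr0 hr0
  have hd : D.Bd (r * r) (D.dpart Y) := by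
    rw [e2, D.GE2_dpart_sub, D.GE2_dpart_neg, hX, neg_zero, zero_sub]
    exact Bd.neg D (D.GE2_bd_dpart (Bd.mul D hb hbY hr0 hr0) hrr)
  have hd' : D.Bd (r * r) (D.dpart ((j : Matrix (Fin n) (Fin n) F) * Y *
      ((j⁻¹ : GL (Fin n) F) : Matrix (Fin n) (Fin n) F))) := by
    rw [D.dpart_mul_levi (D.levi _ hj).inv, D.dpart_levi_mul (D.levi _ hj)]
    exact D.GE2_bd_conj hd hrr hj hf
  refine (D.inH_of hr (D.J.inv_mem hj) (D.GE2_flat_inv hj hf) (D.GE2_bd_conj hbY hr0 hj hf) hd'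
    ?_).1
  have e4 : (1 : Matrix (Fin n) (Fin n) F) + (j : Matrix (Fin n) (Fin n) F) * Y *
      ((j⁻¹ : GL (Fin n) F) : Matrix (Fin n) (Fin n) F) = (j : Matrix (Fin n) (Fin n) F) * (1 + Y) *
      ((j⁻¹ : GL (Fin n) F) : Matrix (Fin n) (Fin n) F) := by
    rw [Matrix.mul_add, Matrix.add_mul, Matrix.mul_one, Units.mul_inv]
  rw [e4, hY, ← Units.val_mul, ← Units.val_mul, ← Units.val_mul]
  congr 1
  group

/-- The group `H`. -/
def HH (hr : D.Good r) : Subgroup (GL (Fin n) F) where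
  carrier := {g | D.InH r g}
  mul_mem' := fun hg hh => (InH.mul D hr hg hh).1
  one_mem' := (D.inH_iff_flat hr (D.levi _ D.J.one_mem)).2
    ⟨D.J.one_mem, fun i i' => by rw [D.sl_one, D.sl_one]⟩
  inv_mem' := InH.inv D hr

theorem mem_HH {hr : D.Good r} : g ∈ D.HH hr ↔ D.InH r g := Iff.rfl

end TypeData

end Pool.Agent.MP_4d0c14_b

end

section

/-! Iwahori decomposition of `H` and positive elements. -/

namespace Pool.Agent.MP_4d0c14_b

open scoped Matrix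
open Filter

namespace TypeData

variable {n k m : ℕ} {F E : Type} [NormedField F] [IsUltrametricDist F] [Field E]
  (D : TypeData n k m F E) {r : ℝ} (hr : D.Good r)

/-- The strictly lower block part. -/
def GE3_low : Matrix (Fin n) (Fin n) F →ₗ[F] Matrix (Fin n) (Fin n) F where
  toFun X := Matrix.of fun a c => if D.b c < D.b a then X a c else 0
  map_add' X Y := by
    ext a c
    by_cases h : D.b c < D.b a <;> simp [h]
  map_smul' t X := by
    ext a c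
    by_cases h : D.b c < D.b a <;> simp [h]

omit [IsUltrametricDist F] in
theorem GE3_low_apply (X : Matrix (Fin n) (Fin n) F) (a c : Fin n) :
    D.GE3_low X a c = if D.b c < D.b a then X a c else 0 := rfl

omit [IsUltrametricDist F] in
theorem GE3_low_low (X : Matrix (Fin n) (Fin n) F) : D.GE3_low (D.GE3_low X) = D.GE3_low X := by
  ext a c
  by_cases h : D.b c < D.b a <;> simp [GE3_low_apply, h]

omit [IsUltrametricDist F] in
theorem GE3_low_one : D.GE3_low 1 = 0 := by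
  ext a c
  rw [GE3_low_apply]
  split_ifs with h
  · exact Matrix.one_apply_ne fun e => by rw [e] at h; exact lt_irrefl _ h
  · rfl

omit [IsUltrametricDist F] in
theorem GE3_low_bd {s : ℝ} {X : Matrix (Fin n) (Fin n) F} (h : D.Bd s X) (hs : 0 ≤ s) :
    D.Bd s (D.GE3_low X) := Bd.mask D h hs fun i i' => i' < i

omit [IsUltrametricDist F] in
theorem GE3_low_levi {j : GL (Fin n) F} (hj : IsLevi D.b j) (X : Matrix (Fin n) (Fin n) F) :
    D.GE3_low ((j : Matrix (Fin n) (Fin n) F) * X) = j * D.GE3_low X := by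
  ext a c
  rw [GE3_low_apply, Matrix.mul_apply, Matrix.mul_apply]
  split_ifs with h
  · refine Finset.sum_congr rfl fun d _ => ?_
    by_cases e : D.b a = D.b d
    · rw [GE3_low_apply, if_pos (e ▸ h)]
    · rw [hj a d e, zero_mul, zero_mul]
  · refine (Finset.sum_eq_zero fun d _ => ?_).symm
    by_cases e : D.b a = D.b d
    · rw [GE3_low_apply, if_neg (e ▸ h), mul_zero]
    · rw [hj a d e, zero_mul]

theorem GE3_fix {r s : ℝ} (hr0 : 0 ≤ r) (hr1 : r < 1) (hs : 0 ≤ s)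
    {X W Z : Matrix (Fin n) (Fin n) F} (hX : D.Bd r X) (hW : D.Bd s W)
    (h : Z + D.GE3_low (X * D.GE3_low Z) = D.GE3_low W) : D.GE3_low Z = Z ∧ D.Bd s Z := by
  have e : Z = D.GE3_low (W - X * D.GE3_low Z) := by rw [map_sub, ← h, add_sub_cancel_right]
  have e1 : D.GE3_low Z = Z := by
    have := D.GE3_low_low (W - X * D.GE3_low Z)
    rwa [← e] at this
  refine ⟨e1, D.bd_of_fix hr0 hr1 hs fun t ht hZ => ?_⟩
  rw [e1] at e
  have h1 : D.Bd (max s (r * t)) (W - X * Z) :=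
    Bd.sub D (Bd.mono D hW (le_max_left _ _))
      (Bd.mono D (Bd.mul D hX hZ hr0 ht) (le_max_right _ _))
  have h2 := D.GE3_low_bd h1 (le_max_of_le_left hs)
  rwa [← e] at h2

theorem GE3_solve {r : ℝ} (hr0 : 0 ≤ r) (hr1 : r < 1) {X : Matrix (Fin n) (Fin n) F}
    (hX : D.Bd r X) : ∃ Z, D.GE3_low Z = Z ∧ D.Bd r Z ∧ D.GE3_low ((1 + X) * (1 + Z)) = 0 := by
  let T : Matrix (Fin n) (Fin n) F →ₗ[F] Matrix (Fin n) (Fin n) F :=
    LinearMap.id + D.GE3_low ∘ₗ LinearMap.mulLeft F X ∘ₗ D.GE3_low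
  have hT : ∀ Z, T Z = Z + D.GE3_low (X * D.GE3_low Z) := fun Z => rfl
  have hi : Function.Injective T := by
    refine (injective_iff_map_eq_zero T).2 fun Z hZ => ?_
    rw [hT, ← map_zero D.GE3_low] at hZ
    have h1 := (D.GE3_fix hr0 hr1 le_rfl hX (D.bd_zero le_rfl) hZ).2
    exact MLe.eq_zero fun ε hε => (Bd.mle D h1).mono hε.le
  obtain ⟨Z, hZ⟩ := LinearMap.injective_iff_surjective.1 hi (D.GE3_low (-X))
  rw [hT] at hZ
  obtain ⟨h1, h2⟩ := D.GE3_fix hr0 hr1 hr0 hX (Bd.neg D hX) hZ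
  refine ⟨Z, h1, h2, ?_⟩
  rw [h1, map_neg] at hZ
  have e : (1 + X) * (1 + Z) = 1 + X + (Z + X * Z) := by noncomm_ring
  rw [e, map_add, map_add, map_add, GE3_low_one, h1, hZ]
  abel

omit [IsUltrametricDist F] in
theorem GE3_flat_one : D.Flat 1 := fun i i' => by rw [D.sl_one, D.sl_one]

omit [IsUltrametricDist F] in
theorem GE3_dpart_one : D.dpart 1 = 1 := D.dpart_levi (D.levi _ D.J.one_mem)

omit [IsUltrametricDist F] in
theorem GE3_conj_inH {r : ℝ} {j c : GL (Fin n) F} (hj : j ∈ D.J) (hd : D.dpart c = 1)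
    (hb : D.Bd r ((j : Matrix (Fin n) (Fin n) F) * ((c : Matrix (Fin n) (Fin n) F) - 1) *
      ((j⁻¹ : GL (Fin n) F) : Matrix (Fin n) (Fin n) F))) : D.InH r (j * c * j⁻¹) := by
  refine ⟨1, D.J.one_mem, D.GE3_flat_one, _, ?_, hb, ?_⟩
  · have h1 := D.dpart_add ((c : Matrix (Fin n) (Fin n) F) - 1) 1
    rw [sub_add_cancel, hd, GE3_dpart_one, eq_comm, add_eq_right] at h1
    rw [D.dpart_mul_levi (D.levi _ hj).inv, D.dpart_levi_mul (D.levi _ hj), h1, Matrix.mul_zero,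
      Matrix.zero_mul]
  · rw [Units.val_one, Matrix.one_mul, Matrix.mul_sub, Matrix.sub_mul, Matrix.mul_one,
      Units.mul_inv, Units.val_mul, Units.val_mul]
    abel

omit [IsUltrametricDist F] in
theorem GE3_conj_LL {g c : GL (Fin n) F} (hg : IsLevi D.b g) (hc : c ∈ D.LL) :
    g * c * g⁻¹ ∈ D.LL := by
  change IsUnip D.b (tr (g * c * g⁻¹))
  have h := IsUnip.conj (show IsUnip D.b (tr c) from hc) hg.tr.inv
  rwa [inv_inv, ← tr_inv, mul_assoc, ← tr_mul, ← tr_mul] at h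

omit [IsUltrametricDist F] in
theorem GE3_unip_lt {u : GL (Fin n) F} (hu : IsUnip D.b u) {a c : Fin n}
    (h : ((u : Matrix (Fin n) (Fin n) F) - 1) a c ≠ 0) : D.b a < D.b c := by
  by_contra h1
  exact h (by rw [Matrix.sub_apply, hu a c (not_lt.1 h1), sub_self])

omit [IsUltrametricDist F] in
theorem GE3_tt_pow (ϖ : Fˣ) (K : ℕ) : D.tt ϖ ^ K = D.cen fun i => ϖ ^ (K * (i : ℕ)) := by
  have h := map_pow (dgHom (n := n) (F := F)) (fun a => ϖ ^ (D.b a : ℕ)) K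
  refine h.symm.trans (congrArg dg ?_)
  funext a
  rw [Pi.pow_apply, ← pow_mul, mul_comm]

omit [IsUltrametricDist F] in
theorem GE3_sl_tt (ϖ : Fˣ) (K : ℕ) (i : Fin k) :
    D.sl (D.tt ϖ ^ K) i = ‖(ϖ : F)‖ ^ (K * (i : ℕ)) := by
  rw [GE3_tt_pow, sl_cen, Units.val_pow_eq_pow_val, norm_pow]

theorem GE3_pow_le {x : ℝ} (h0 : 0 ≤ x) (h1 : x ≤ 1) (K : ℕ) {a c : ℕ} (h : a < c) :
    x ^ (K * c) ≤ x ^ (K * a) * x ^ K := by
  rw [← pow_add]
  exact pow_le_pow_of_le_one h0 h1 (by nlinarith)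

theorem GE3_ev {x A B : ℝ} (h0 : 0 ≤ x) (h1 : x < 1) (hB : 0 < B) :
    ∀ᶠ K : ℕ in atTop, x ^ K * A ≤ B := by
  have h := (tendsto_pow_atTop_nhds_zero_of_lt_one h0 h1).mul_const A
  rw [zero_mul] at h
  exact (h.eventually (gt_mem_nhds hB)).mono fun K hK => hK.le

theorem hh_dec {h : GL (Fin n) F} (hh : h ∈ D.HH hr) :
    ∃ p ∈ D.PP, ∃ c ∈ D.LL, p ∈ D.HH hr ∧ c ∈ D.HH hr ∧ h = p * c := by
  obtain ⟨j, hj, hf, X, hX0, hX, he⟩ := D.mem_HH.1 hh
  obtain ⟨Z, hZ1, hZ2, hZ3⟩ := D.GE3_solve hr.1.le hr.2.1 hX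
  obtain ⟨g, hg⟩ := exists_gl_of_mle hr.2.1 (Bd.mle D hZ2)
  have hZ0 : ∀ a c, D.b a ≤ D.b c → Z a c = 0 := fun a c h => by
    rw [← hZ1, GE3_low_apply, if_neg (not_lt.2 h)]
  have hgL : g ∈ D.LL := fun a c h => by
    rw [coe_tr, Matrix.transpose_apply, hg, Matrix.add_apply, hZ0 c a h, add_zero]
    exact congrFun₂ Matrix.transpose_one a c
  have hgH : g ∈ D.HH hr := by
    refine ⟨1, D.J.one_mem, D.GE3_flat_one, Z, ?_, hZ2, by rw [hg, Units.val_one, Matrix.one_mul]⟩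
    ext a c
    change (if D.b a = D.b c then Z a c else 0) = 0
    split_ifs with h
    · exact hZ0 a c h.le
    · rfl
  have hp : h * g ∈ D.HH hr := (D.HH hr).mul_mem hh hgH
  obtain ⟨j', hj', -, X', hX0', -, he'⟩ := D.mem_HH.1 hp
  refine ⟨h * g, ⟨j', hj', j'⁻¹ * (h * g), fun a c hac => ?_, by group⟩, g⁻¹,
    D.LL.inv_mem hgL, hp, (D.HH hr).inv_mem hgH, by group⟩
  rcases hac.eq_or_lt with e | e
  · have h1 : D.dpart X' a c = X' a c := if_pos e.symm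
    rw [Units.val_mul, he', ← Matrix.mul_assoc, Units.inv_mul, Matrix.one_mul, Matrix.add_apply,
      ← h1, hX0', Matrix.zero_apply, add_zero]
  · have h1 : D.GE3_low ((j'⁻¹ * (h * g) : GL (Fin n) F) : Matrix (Fin n) (Fin n) F) = 0 := by
      rw [Units.val_mul, D.GE3_low_levi (D.levi _ hj').inv, Units.val_mul, he, hg,
        Matrix.mul_assoc, D.GE3_low_levi (D.levi _ hj), hZ3, Matrix.mul_zero, Matrix.mul_zero]
    have h2 := congrFun₂ h1 a c
    rw [GE3_low_apply, if_pos e] at h2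
    rw [h2, Matrix.zero_apply,
      Matrix.one_apply_ne fun e' => by rw [e'] at e; exact lt_irrefl _ e]

omit [IsUltrametricDist F] in
theorem pos_one : D.Pos 1 := ⟨D.J.one_mem, fun a c _ => by rw [D.sl_one, D.sl_one]⟩

omit [IsUltrametricDist F] in
theorem Pos.mul {j j' : GL (Fin n) F} (hj : D.Pos j) (hj' : D.Pos j') : D.Pos (j * j') := by
  refine ⟨D.J.mul_mem hj.1 hj'.1, fun a c hac => ?_⟩
  rw [D.sl_mul (D.levi _ hj.1) (D.levi _ hj'.1), D.sl_mul (D.levi _ hj.1) (D.levi _ hj'.1)]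
  exact mul_le_mul (hj.2 hac) (hj'.2 hac) (D.sl_pos (D.levi _ hj'.1) _).le
    (D.sl_pos (D.levi _ hj.1) _).le

omit [IsUltrametricDist F] in
theorem pos_tt (ϖ : Fˣ) (hϖ : ‖(ϖ : F)‖ < 1) : D.Pos (D.tt ϖ) := by
  refine ⟨D.cen_mem _, fun a c hac => ?_⟩
  unfold tt
  rw [sl_cen, sl_cen, Units.val_pow_eq_pow_val, Units.val_pow_eq_pow_val, norm_pow, norm_pow]
  exact pow_le_pow_of_le_one (norm_nonneg _) hϖ.le hac

omit [IsUltrametricDist F] in
theorem mem_PP_of_mem {j : GL (Fin n) F} (hj : j ∈ D.J) : j ∈ D.PP :=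
  ⟨j, hj, 1, isUnip_one, (mul_one j).symm⟩

theorem pos_LL {j : GL (Fin n) F} (hj : D.Pos j) {c : GL (Fin n) F} (hc : c ∈ D.LL) :
    j * c * j⁻¹ ∈ D.LL ∧ j⁻¹ * c * j ∈ D.LL ∧ (c ∈ D.HH hr → j * c * j⁻¹ ∈ D.HH hr) := by
  refine ⟨D.GE3_conj_LL (D.levi _ hj.1) hc, ?_, fun hH => ?_⟩
  · have h := D.GE3_conj_LL (D.levi _ hj.1).inv hc
    rwa [inv_inv] at h
  · have h1 : ∀ a d, D.b a ≤ D.b d →
        (c : Matrix (Fin n) (Fin n) F) a d = (1 : Matrix (Fin n) (Fin n) F) a d := fun a d h =>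
      (hc d a h).trans (congrFun₂ Matrix.transpose_one a d)
    have hd : D.dpart c = 1 := by
      ext a d
      change (if D.b a = D.b d then (c : Matrix (Fin n) (Fin n) F) a d else 0) = _
      split_ifs with h
      · exact h1 a d h.le
      · exact (Matrix.one_apply_ne fun e => h (by rw [e])).symm
    refine D.GE3_conj_inH hj.1 hd ?_
    have h2 := Bd.conj D (InH.bd_of_dpart D hH hd) hr.1.le hj.1 zero_le_one fun a d h => by
      rw [one_mul]
      refine hj.2 (le_of_not_ge fun h3 => h ?_)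
      rw [Matrix.sub_apply, h1 a d h3, sub_self]
    rwa [one_mul] at h2

theorem pos_PP {j : GL (Fin n) F} (hj : D.Pos j) {p : GL (Fin n) F} (hp : p ∈ D.PP)
    (hp' : p ∈ D.HH hr) : j⁻¹ * p * j ∈ D.HH hr := by
  obtain ⟨j0, hj0, u, hu, rfl⟩ := hp
  obtain ⟨j1, hj1, hf, X, hX0, -, he⟩ := D.mem_HH.1 hp'
  have e : j0 = j1 := by
    have h1 := congrArg D.dpart he
    rw [Units.val_mul, D.dpart_levi_mul (D.levi _ hj0), D.dpart_levi_mul (D.levi _ hj1),
      D.dpart_unip hu, D.dpart_add, GE3_dpart_one, hX0, add_zero, Matrix.mul_one,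
      Matrix.mul_one] at h1
    exact Units.ext h1
  subst e
  have l := D.levi _ hj.1
  have l0 := D.levi _ hj0
  have h0 : j0 ∈ D.HH hr := (D.inH_iff_flat hr l0).2 ⟨hj0, hf⟩
  have huH : u ∈ D.HH hr := by
    have := (D.HH hr).mul_mem ((D.HH hr).inv_mem h0) hp'
    rwa [inv_mul_cancel_left] at this
  have h1 : j⁻¹ * j0 * j ∈ D.HH hr := by
    refine (D.inH_iff_flat hr ((l.inv.mul l0).mul l)).2
      ⟨D.J.mul_mem (D.J.mul_mem (D.J.inv_mem hj.1) hj0) hj.1, fun i i' => ?_⟩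
    rw [D.sl_mul (l.inv.mul l0) l, D.sl_mul (l.inv.mul l0) l, D.sl_mul l.inv l0,
      D.sl_mul l.inv l0, D.sl_inv l, D.sl_inv l, hf i i']
    have := (D.sl_pos l i).ne'
    have := (D.sl_pos l i').ne'
    field_simp
  have h2 : j⁻¹ * u * j⁻¹⁻¹ ∈ D.HH hr := by
    refine D.GE3_conj_inH (D.J.inv_mem hj.1) (D.dpart_unip hu) ?_
    have h3 := Bd.conj D (InH.bd_of_dpart D huH (D.dpart_unip hu)) hr.1.le (D.J.inv_mem hj.1)
      zero_le_one fun a d h => by
        rw [one_mul, D.sl_inv l, D.sl_inv l]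
        exact inv_anti₀ (D.sl_pos l _) (hj.2 (D.GE3_unip_lt hu h).le)
    rwa [one_mul] at h3
  have h3 := (D.HH hr).mul_mem h1 h2
  rwa [show j⁻¹ * j0 * j * (j⁻¹ * u * j⁻¹⁻¹) = j⁻¹ * (j0 * u) * j by group] at h3

omit [IsUltrametricDist F] in
theorem ev_pos_tt (ϖ : Fˣ) (hϖ : ‖(ϖ : F)‖ < 1) {j : GL (Fin n) F} (hj : j ∈ D.J) :
    ∀ᶠ K : ℕ in atTop, D.Pos (j * D.tt ϖ ^ K) := by
  have l := D.levi _ hj
  have h1 : ∀ᶠ K : ℕ in atTop, ∀ i i' : Fin k, ‖(ϖ : F)‖ ^ K * D.sl j i' ≤ D.sl j i :=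
    eventually_all.2 fun i => eventually_all.2 fun i' =>
      GE3_ev (norm_nonneg _) hϖ (D.sl_pos l i)
  filter_upwards [h1] with K hK
  have ht : D.tt ϖ ^ K ∈ D.J := D.J.pow_mem (D.cen_mem _) K
  refine ⟨D.J.mul_mem hj ht, fun a c hac => ?_⟩
  rcases hac.eq_or_lt with e | e
  · rw [e]
  · rw [D.sl_mul l (D.levi _ ht), D.sl_mul l (D.levi _ ht), GE3_sl_tt, GE3_sl_tt]
    have h2 := GE3_pow_le (norm_nonneg (ϖ : F)) hϖ.le K (show (a : ℕ) < c from e)
    have h3 : 0 ≤ ‖(ϖ : F)‖ ^ (K * (a : ℕ)) := by positivity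
    calc D.sl j c * ‖(ϖ : F)‖ ^ (K * (c : ℕ))
        ≤ D.sl j c * (‖(ϖ : F)‖ ^ (K * (a : ℕ)) * ‖(ϖ : F)‖ ^ K) :=
          mul_le_mul_of_nonneg_left h2 (D.sl_pos l c).le
      _ = ‖(ϖ : F)‖ ^ K * D.sl j c * ‖(ϖ : F)‖ ^ (K * (a : ℕ)) := by ring
      _ ≤ D.sl j a * ‖(ϖ : F)‖ ^ (K * (a : ℕ)) := mul_le_mul_of_nonneg_right (hK a c) h3

theorem ev_PP (ϖ : Fˣ) (hϖ : ‖(ϖ : F)‖ < 1) {p : GL (Fin n) F} (hp : p ∈ D.PP) :
    ∀ᶠ K : ℕ in atTop, ∃ j, D.Pos j ∧ j⁻¹ * (p * D.tt ϖ ^ K) ∈ D.HH hr := by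
  obtain ⟨j0, hj0, u, hu, rfl⟩ := hp
  obtain ⟨C, hC, hC'⟩ := D.bd_of_mle
  obtain ⟨s, hs, hs'⟩ := MLe.exists_bound ((u : Matrix (Fin n) (Fin n) F) - 1)
  have hb := hC' s _ hs.le hs'
  filter_upwards [D.ev_pos_tt ϖ hϖ hj0,
    GE3_ev (A := C * s) (norm_nonneg (ϖ : F)) hϖ hr.1] with K hK hK'
  refine ⟨_, hK, ?_⟩
  have ht : D.tt ϖ ^ K ∈ D.J := D.J.pow_mem (D.cen_mem _) K
  have l := D.levi _ ht
  have h0 : 0 < ‖(ϖ : F)‖ := norm_pos_iff.2 ϖ.ne_zero
  have h2 : (D.tt ϖ ^ K)⁻¹ * u * (D.tt ϖ ^ K)⁻¹⁻¹ ∈ D.HH hr := by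
    refine D.GE3_conj_inH (D.J.inv_mem ht) (D.dpart_unip hu) (Bd.mono D ?_ hK')
    refine Bd.conj D hb (mul_pos hC hs).le (D.J.inv_mem ht) (by positivity) fun a d h => ?_
    rw [D.sl_inv l, D.sl_inv l, GE3_sl_tt, GE3_sl_tt, ← div_eq_mul_inv,
      le_div_iff₀ (by positivity), inv_mul_le_iff₀ (by positivity)]
    exact GE3_pow_le h0.le hϖ.le K (D.GE3_unip_lt hu h)
  generalize D.tt ϖ ^ K = t at h2 ⊢
  rwa [show t⁻¹ * u * t⁻¹⁻¹ = (j0 * t)⁻¹ * (j0 * u * t) by group] at h2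

end TypeData

end Pool.Agent.MP_4d0c14_b

end

section

/-! `H` is open and compact modulo the centre. -/

namespace Pool.Agent.MP_4d0c14_b

open scoped Matrix

namespace TypeData

variable {n k m : ℕ} {F E : Type} [NormedField F] [IsUltrametricDist F]

section

variable [Field E] (D : TypeData n k m F E) {r : ℝ} (hr : D.Good r)

theorem GE4_dec {h : GL (Fin n) F} (hh : h ∈ D.HH hr) :
    ∃ j w, j ∈ D.J ∧ D.Flat j ∧ Bnd 1 w ∧ h = j * w := by
  obtain ⟨j, hj, hf, X, -, hX, e⟩ := hh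
  refine ⟨j, j⁻¹ * h, hj, hf, Near.bnd one_pos le_rfl fun a c => ?_, by group⟩
  rw [Units.val_mul, e, ← Matrix.mul_assoc, Units.inv_mul, Matrix.one_mul, add_sub_cancel_left]
  exact (Bd.mle D hX a c).trans_lt hr.2.1

theorem GE4_bnd : ∃ C : ℝ, 0 < C ∧ ∀ (θ : ℝ) (j w : GL (Fin n) F), 0 < θ → j ∈ D.J → Bnd 1 w →
    (∀ a, θ⁻¹ ≤ D.sl j (D.b a) ∧ D.sl j (D.b a) ≤ θ) → Bnd (C * θ) (j * w) := by
  obtain ⟨C, hC, h⟩ := D.entry_le
  refine ⟨C, hC, fun θ j w hθ hj hw hs => ?_⟩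
  have h1 : Bnd (C * θ) j := fun a c =>
    ⟨(h j hj a c).trans (mul_le_mul_of_nonneg_left (hs a).2 hC.le),
      (h _ (D.J.inv_mem hj) a c).trans (mul_le_mul_of_nonneg_left (by
        rw [D.sl_inv (D.levi _ hj)]
        exact inv_le_of_inv_le₀ hθ (hs a).1) hC.le)⟩
  simpa using h1.mul hw (by positivity) zero_le_one

theorem near_mem : ∃ r₁ : ℝ, 0 < r₁ ∧ r₁ ≤ 1 ∧ ∀ g, Near r₁ g → g ∈ D.HH hr ∧ D.lamF g = 1 := by
  obtain ⟨C, hC, h⟩ := D.bd_of_mle
  have h0 := hr.1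
  have h1 : 0 < min 1 (r * r / C) := lt_min one_pos (by positivity)
  refine ⟨_, h1, min_le_left _ _, fun g hg => ?_⟩
  obtain ⟨s, hs0, hs, hs'⟩ := hg.exists_le h1
  have h2 : C * s ≤ r * r := by
    rw [mul_comm]
    exact (le_div_iff₀ hC).1 (hs.le.trans (min_le_right _ _))
  have h3 := Bd.mono D (h s _ hs0 hs') h2
  have h4 := D.inH_of (g := g) hr D.J.one_mem (fun i i' => by rw [D.sl_one, D.sl_one])
    (Bd.mono D h3 (mul_le_of_le_one_right h0.le hr.2.1.le))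
    (Bd.mask D h3 (by positivity) (· = ·)) (by simp)
  exact ⟨h4.1, h4.2.trans (map_one D.lam)⟩

theorem scalar_mem (z : Fˣ) : dg (fun _ => z) ∈ D.HH hr ∧
    D.lamF (dg fun _ => z) = (D.omega fun _ => z : E) • (1 : Matrix (Fin m) (Fin m) E) := by
  have h := D.cen_mem fun _ => z
  exact ⟨(D.inH_iff_flat hr (D.levi _ h)).2 ⟨h, fun i i' => by rw [D.sl_cen, D.sl_cen]⟩,
    (D.lamF_of_mem h).trans (D.lam_cen _)⟩

theorem hh_bnd (ϖ : Fˣ) (hϖ : ‖(ϖ : F)‖ < 1) :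
    ∃ C : ℝ, 0 < C ∧ ∀ h ∈ D.HH hr, ∃ e : ℤ, Bnd C (dg (fun _ => ϖ ^ e) * h) := by
  obtain ⟨C, hC, hb⟩ := D.GE4_bnd
  have h0 : 0 < ‖(ϖ : F)‖ := norm_pos_iff.2 ϖ.ne_zero
  have h1 : 1 < ‖(ϖ : F)‖⁻¹ := (one_lt_inv₀ h0).2 hϖ
  refine ⟨C * ‖(ϖ : F)‖⁻¹, by positivity, fun h hh => ?_⟩
  obtain ⟨j, w, hj, hf, hw, rfl⟩ := D.GE4_dec hr hh
  rcases isEmpty_or_nonempty (Fin n) with hn | ⟨⟨a₀⟩⟩
  · exact ⟨0, fun a => hn.elim a⟩
  obtain ⟨e, h2, h3⟩ := exists_mem_Ioc_zpow (D.sl_pos (D.levi _ hj) (D.b a₀)) h1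
  have h4 := D.cen_mem fun _ => ϖ ^ e
  have h5 : 0 < ‖(ϖ : F)‖ ^ e := zpow_pos h0 e
  refine ⟨e, ?_⟩
  rw [← mul_assoc]
  refine hb _ (D.cen (fun _ => ϖ ^ e) * j) w (by positivity) (D.J.mul_mem h4 hj) hw fun a => ?_
  rw [D.sl_mul (D.levi _ h4) (D.levi _ hj), D.sl_cen, hf _ (D.b a₀), inv_inv,
    Units.val_zpow_eq_zpow_val, norm_zpow]
  rw [zpow_add_one₀ (by positivity), inv_zpow] at h3
  rw [inv_zpow, inv_lt_iff_one_lt_mul₀' h5] at h2
  exact ⟨hϖ.le.trans h2.le, (le_inv_mul_iff₀ h5).1 h3⟩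

theorem hh_bnd_of_det : ∃ C : ℝ, 0 < C ∧ ∀ h ∈ D.HH hr,
    ‖(h : Matrix (Fin n) (Fin n) F).det‖ = 1 → Bnd C h := by
  obtain ⟨C, hC, hb⟩ := D.GE4_bnd
  refine ⟨C * 1, by positivity, fun h hh hd => ?_⟩
  obtain ⟨j, w, hj, hf, hw, rfl⟩ := D.GE4_dec hr hh
  refine hb 1 j w one_pos hj hw fun a => ?_
  rw [Units.val_mul, Matrix.det_mul, norm_mul, hw.norm_det, mul_one,
    D.norm_det_of_flat (D.levi _ hj) fun i => hf i (D.b a),
    pow_eq_one_iff_of_nonneg (D.sl_pos (D.levi _ hj) _).le a.pos.ne'] at hd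
  rw [hd, inv_one]
  exact ⟨le_rfl, le_rfl⟩

variable [ProperSpace F]

theorem hh_cover (ϖ : Fˣ) (hϖ : ‖(ϖ : F)‖ < 1) {s : ℝ} (hs : 0 < s) :
    ∃ T : Finset (GL (Fin n) F), (∀ t ∈ T, t ∈ D.HH hr) ∧ ∀ h ∈ D.HH hr, ∃ t ∈ T, ∃ e : ℤ,
      Near s (t⁻¹ * (dg (fun _ => ϖ ^ e) * h)) := by
  obtain ⟨C, -, hC⟩ := D.hh_bnd hr ϖ hϖ
  obtain ⟨T, h1, h2⟩ := finite_cover_of_subset C hs {h | h ∈ D.HH hr ∧ Bnd C h} fun g hg => hg.2
  refine ⟨T, fun t ht => (h1 t ht).1, fun h hh => ?_⟩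
  obtain ⟨e, he⟩ := hC h hh
  obtain ⟨t, ht, h3⟩ := h2 _ ⟨(D.HH hr).mul_mem (D.scalar_mem hr _).1 hh, he⟩
  exact ⟨t, ht, e, h3⟩

theorem hh_fin (ϖ : Fˣ) (hϖ : ‖(ϖ : F)‖ < 1) (g : GL (Fin n) F) :
    ∃ T : Finset (GL (Fin n) F), ∀ h ∈ D.HH hr, ∃ t ∈ T, t⁻¹ * (h * g) ∈ D.HH hr := by
  classical
  obtain ⟨r₁, h0, -, h1⟩ := D.near_mem hr
  obtain ⟨s, hs, h2⟩ := exists_near_conj g h0
  obtain ⟨T, -, h3⟩ := D.hh_cover hr ϖ hϖ hs
  refine ⟨T.image (· * g), fun h hh => ?_⟩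
  obtain ⟨t, ht, e, h4⟩ := h3 h hh
  refine ⟨t * g, Finset.mem_image_of_mem _ ht, ?_⟩
  have h5 := (h1 _ (h2 _ h4)).1
  have h6 : g⁻¹ * (t⁻¹ * (dg (fun _ => ϖ ^ e) * h)) * g =
      dg (fun _ => ϖ ^ e) * ((t * g)⁻¹ * (h * g)) := by
    rw [← mul_assoc (dg _), dg_const_comm _ (t * g)⁻¹, mul_inv_rev]
    simp only [mul_assoc]
  rw [h6] at h5
  exact ((D.HH hr).mul_mem_cancel_left (D.scalar_mem hr _).1).1 h5

end

theorem lam_bdd [ProperSpace F] [NormedField E] [IsUltrametricDist E] (D : TypeData n k m F E)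
    (C : ℝ) : ∃ C' : ℝ, 0 < C' ∧ ∀ j ∈ D.J, Bnd C j → MLe C' (D.lamF j) := by
  obtain ⟨r, hr, h⟩ := D.smooth
  obtain ⟨T, h1, h2⟩ := finite_cover_of_subset C hr {j | j ∈ D.J ∧ Bnd C j} fun g hg => hg.2
  choose f hf hf' using fun t : GL (Fin n) F => MLe.exists_bound (D.lamF t)
  have h0 := Finset.sum_nonneg fun t (_ : t ∈ T) => (hf t).le
  refine ⟨∑ t ∈ T, f t + 1, by positivity, fun j hj hC => ?_⟩
  obtain ⟨t, ht, h3⟩ := h2 j ⟨hj, hC⟩
  have h4 := (h1 t ht).1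
  obtain ⟨h5, h6⟩ := h _ (D.levi _ (D.J.mul_mem (D.J.inv_mem h4) hj)) h3
  have h7 : D.lamF j = D.lamF t := by
    rw [D.lamF_of_mem hj, D.lamF_of_mem h4, ← mul_one (D.lam ⟨t, h4⟩), ← h6, ← map_mul]
    exact congrArg _ (Subtype.ext (mul_inv_cancel_left t j).symm)
  rw [h7]
  exact (hf' t).mono ((Finset.single_le_sum (fun t _ => (hf t).le) ht).trans (by linarith))

end TypeData

end Pool.Agent.MP_4d0c14_b

end

section

/-! The Iwahori data of a type. -/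

namespace Pool.Agent.MP_4d0c14_b

namespace TypeData

variable {n k m : ℕ} {F E : Type} [NormedField F] [IsUltrametricDist F] [ProperSpace F] [Field E]
  (D : TypeData n k m F E) {r : ℝ} (hr : D.Good r) (ϖ : Fˣ) (hϖ : ‖(ϖ : F)‖ < 1)

/-- The Iwahori data. -/
noncomputable def iw : Iw (GL (Fin n) F) E (Fin m) where
  H := D.HH hr
  P := D.PP
  L := D.LL
  lam := D.lamF
  Pos := D.Pos
  t := D.tt ϖ
  lam_one := D.lamF_L D.LL.one_mem
  lam_mulH := fun _ hh _ hh' => (InH.mul D hr hh hh').2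
  lam_mulP := fun _ hp _ hp' => D.lamF_mulP hp hp'
  lam_L := fun _ hc _ => D.lamF_L hc
  fin := D.hh_fin hr ϖ hϖ
  dec := fun _ hh => D.hh_dec hr hh
  pos_one := D.pos_one
  pos_mul := fun _ _ hj hj' => Pos.mul D hj hj'
  pos_t := D.pos_tt ϖ hϖ
  pos_mem := fun _ hj => D.mem_PP_of_mem hj.1
  pos_L := fun _ hj _ hc => D.pos_LL hr hj hc
  pos_P := fun _ hj _ hp hp' => D.pos_PP hr hj hp hp'
  ev_P := fun _ hp => D.ev_PP hr ϖ hϖ hp
  ev_pos := fun _ hj => D.ev_pos_tt ϖ hϖ (D.J.inv_mem hj.1)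

end TypeData

end Pool.Agent.MP_4d0c14_b

end

section

/-! Divisibility of the index of a subgroup of the unipotent radical. -/

namespace Pool.Agent.MP_4d0c14_b

open scoped Matrix

theorem index_mul_dvd {A C : Type} [Group A] [Group C] (ψ : A →* C) (hψ : Function.Surjective ψ)
    (S : Subgroup A) (L : Subgroup C) (h : ∀ s ∈ S, ψ s ∈ L) :
    L.index * S.relIndex ψ.ker ∣ S.index := by
  have h1 : S.relIndex ψ.ker = S.relIndex (ψ.ker ⊔ S) := by
    refine Nat.card_congr (Equiv.ofBijective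
      (Subgroup.quotientSubgroupOfEmbeddingOfLE S (le_sup_left : ψ.ker ≤ ψ.ker ⊔ S))
      ⟨(Subgroup.quotientSubgroupOfEmbeddingOfLE _ _).injective, fun q => ?_⟩)
    obtain ⟨⟨g, hg⟩, rfl⟩ := QuotientGroup.mk_surjective q
    obtain ⟨y, hy, z, hz, rfl⟩ := Subgroup.mem_sup_of_normal_left.1 hg
    refine ⟨QuotientGroup.mk ⟨y, hy⟩, ?_⟩
    rw [Subgroup.quotientSubgroupOfEmbeddingOfLE_apply_mk, QuotientGroup.eq,
      Subgroup.mem_subgroupOf]
    simpa using hz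
  have h2 : ψ.ker ⊔ S ≤ L.comap ψ := sup_le (Subgroup.ker_le_comap ψ L) h
  rw [← Subgroup.relIndex_mul_index (le_sup_right : S ≤ ψ.ker ⊔ S), h1, mul_comm,
    ← Subgroup.index_comap_of_surjective L hψ]
  exact Nat.mul_dvd_mul_left _ (Subgroup.index_dvd_of_le h2)

section

variable {n k : ℕ} {F : Type} [NormedField F] {b : Fin n → Fin k}

theorem E2_mul {g g' : GL (Fin n) F} (hg : IsUnip b g) (hg' : IsUnip b g') {a c : Fin n}
    (hac : b a < b c) (h0 : ∀ x, b a < b x → b x < b c →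
      (g : Matrix (Fin n) (Fin n) F) a x * (g' : Matrix (Fin n) (Fin n) F) x c = 0) :
    ((g * g' : GL (Fin n) F) : Matrix (Fin n) (Fin n) F) a c =
      (g : Matrix (Fin n) (Fin n) F) a c + (g' : Matrix (Fin n) (Fin n) F) a c := by
  have h : ∀ x, (g : Matrix (Fin n) (Fin n) F) a x * (g' : Matrix (Fin n) (Fin n) F) x c =
      (if x = c then (g : Matrix (Fin n) (Fin n) F) a c else 0) +
        if a = x then (g' : Matrix (Fin n) (Fin n) F) a c else 0 := fun x => by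
    rcases le_or_gt (b x) (b a) with h1 | h1
    · have h2 : x ≠ c := fun e => absurd (e ▸ h1) hac.not_ge
      rw [hg a x h1, if_neg h2, Matrix.one_apply]
      split_ifs with h3
      · rw [h3, one_mul, zero_add]
      · simp
    · have h2 : a ≠ x := fun e => absurd (e ▸ h1) (lt_irrefl _)
      rw [if_neg h2, add_zero]
      rcases le_or_gt (b c) (b x) with h3 | h3
      · rw [hg' x c h3, Matrix.one_apply]
        split_ifs with h4
        · rw [h4, mul_one]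
        · simp
      · rw [h0 x h1 h3, if_neg fun e => absurd (e ▸ h3) (lt_irrefl _)]
  rw [Units.val_mul, Matrix.mul_apply, Finset.sum_congr rfl fun x _ => h x,
    Finset.sum_add_distrib]
  simp

theorem E2_ne {a c : Fin n} (hac : b a < b c) : a ≠ c := fun e => absurd (e ▸ hac) (lt_irrefl _)

theorem E2_sub (g : GL (Fin n) F) {a c : Fin n} (hac : b a < b c) :
    ((g : Matrix (Fin n) (Fin n) F) - 1) a c = (g : Matrix (Fin n) (Fin n) F) a c := by
  rw [Matrix.sub_apply, Matrix.one_apply_ne (E2_ne hac), sub_zero]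

theorem E2_add {g g' : GL (Fin n) F} (hg : IsUnip b g) (hg' : IsUnip b g') {a c : Fin n}
    (hac : b a < b c) {h : ℕ} (hh : (b c : ℕ) - b a ≤ h) (h0 : ∀ a' c', b a' < b c' →
      (b c' : ℕ) - b a' < h → (g : Matrix (Fin n) (Fin n) F) a' c' = 0) :
    ((g * g' : GL (Fin n) F) : Matrix (Fin n) (Fin n) F) a c =
      (g : Matrix (Fin n) (Fin n) F) a c + (g' : Matrix (Fin n) (Fin n) F) a c :=
  E2_mul hg hg' hac fun x h1 h2 => by
    rw [h0 a x h1 (by rw [Fin.lt_def] at h1 h2; omega), zero_mul]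

variable [IsUltrametricDist F]

variable (b) in
/-- The height filtration. -/
def E2_A (r : ℝ) (h₀ : 0 < r) (h₁ : r ≤ 1) (h : ℕ) : Subgroup (GL (Fin n) F) where
  carrier := {g | IsUnip b g ∧ Near r g ∧ ∀ a c, b a < b c → (b c : ℕ) - b a < h →
    (g : Matrix (Fin n) (Fin n) F) a c = 0}
  mul_mem' := fun {g g'} hg hg' => ⟨hg.1.mul hg'.1, hg.2.1.mul h₀ h₁ hg'.2.1, fun a c h1 h2 => by
    rw [E2_add hg.1 hg'.1 h1 h2.le hg.2.2, hg.2.2 a c h1 h2, hg'.2.2 a c h1 h2, add_zero]⟩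
  one_mem' := ⟨isUnip_one, near_one h₀, fun a c h1 _ => Matrix.one_apply_ne (E2_ne h1)⟩
  inv_mem' := fun {g} hg => ⟨hg.1.inv, hg.2.1.inv h₀ h₁, fun a c h1 h2 => by
    have := E2_add hg.1 hg.1.inv h1 h2.le hg.2.2
    rw [mul_inv_cancel, hg.2.2 a c h1 h2, zero_add] at this
    rw [← this]
    exact Matrix.one_apply_ne (E2_ne h1)⟩

variable (b) in
/-- The entries of a given height. -/
def E2_ψ (r : ℝ) (h₀ : 0 < r) (h₁ : r ≤ 1) (h : ℕ) : E2_A (F := F) b r h₀ h₁ h →*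
    ({x : Fin n × Fin n // b x.1 < b x.2 ∧ (b x.2 : ℕ) - b x.1 = h} →
      Multiplicative (ballG F r h₀)) :=
  MonoidHom.mk' (fun g x => Multiplicative.ofAdd
    ⟨(g.1 : Matrix (Fin n) (Fin n) F) x.1.1 x.1.2, by
      have := g.2.2.1 x.1.1 x.1.2
      rwa [E2_sub _ x.2.1] at this⟩) fun g g' => by
    funext x
    exact congrArg Multiplicative.ofAdd
      (Subtype.ext (E2_add g.2.1 g'.2.1 x.2.1 x.2.2.le g.2.2.2))

theorem E2_ker (r : ℝ) (h₀ : 0 < r) (h₁ : r ≤ 1) (h : ℕ) : (E2_ψ (F := F) b r h₀ h₁ h).ker =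
    (E2_A b r h₀ h₁ (h + 1)).subgroupOf (E2_A b r h₀ h₁ h) := by
  ext g
  rw [MonoidHom.mem_ker, Subgroup.mem_subgroupOf]
  constructor
  · refine fun H => ⟨g.2.1, g.2.2.1, fun a c h1 h2 => ?_⟩
    rcases Nat.lt_succ_iff_lt_or_eq.1 h2 with h3 | h3
    · exact g.2.2.2 a c h1 h3
    · exact congrArg (fun y => (Multiplicative.toAdd y).1) (congrFun H ⟨(a, c), h1, h3⟩)
  · intro H
    funext x
    exact congrArg Multiplicative.ofAdd
      (Subtype.ext (H.2.2 _ _ x.2.1 (Nat.lt_succ_of_le x.2.2.le)))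

theorem E2_surj (hb : Monotone b) (r : ℝ) (h₀ : 0 < r) (h₁ : r ≤ 1) (h : ℕ) :
    Function.Surjective (E2_ψ (F := F) b r h₀ h₁ h) := by
  intro y
  obtain ⟨X, hX, hX'⟩ : ∃ X : Matrix (Fin n) (Fin n) F,
      (∀ x : {x : Fin n × Fin n // b x.1 < b x.2 ∧ (b x.2 : ℕ) - b x.1 = h},
        X x.1.1 x.1.2 = (Multiplicative.toAdd (y x)).1) ∧
      ∀ a c, ¬(b a < b c ∧ (b c : ℕ) - b a = h) → X a c = 0 :=
    ⟨Matrix.of fun a c => if H : b a < b c ∧ (b c : ℕ) - b a = h then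
      (Multiplicative.toAdd (y ⟨(a, c), H⟩)).1 else 0, fun x => dif_pos x.2,
      fun a c H => dif_neg H⟩
  have h2 : ∀ a c, b c ≤ b a → (1 + X) a c = (1 : Matrix (Fin n) (Fin n) F) a c := fun a c H => by
    rw [Matrix.add_apply, hX' a c fun H' => H.not_gt H'.1, add_zero]
  have h3 : (1 + X).det ≠ 0 := by
    rw [Matrix.det_of_isUpperTriangular fun a c (H : c < a) => by
      rw [h2 a c (hb H.le), Matrix.one_apply_ne H.ne']]
    simp [h2]
  have h4 : ∀ a c, b a < b c → (1 + X) a c = X a c := fun a c H => by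
    rw [Matrix.add_apply, Matrix.one_apply_ne (E2_ne H), zero_add]
  refine ⟨⟨Matrix.GeneralLinearGroup.mkOfDetNeZero _ h3, h2, fun a c => ?_, fun a c H H' => ?_⟩, ?_⟩
  · change ‖(1 + X - 1) a c‖ < r
    rw [add_sub_cancel_left]
    by_cases H : b a < b c ∧ (b c : ℕ) - b a = h
    · rw [hX ⟨(a, c), H⟩]
      exact (Multiplicative.toAdd (y ⟨(a, c), H⟩)).2
    · rwa [hX' a c H, norm_zero]
  · exact (h4 a c H).trans (hX' a c fun H'' => H'.ne H''.2)
  · funext x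
    exact congrArg Multiplicative.ofAdd (Subtype.ext ((h4 _ _ x.2.1).trans (hX x)))

end

namespace TypeData

variable {n k m : ℕ} {F E : Type} [NormedField F] [Field E] (D : TypeData n k m F E)

/-- conjugation does not change the lowest nonzero entries -/
theorem conj_entry {s u : GL (Fin n) F} (hs : IsUnip D.b s) (hu : IsUnip D.b u) {a c : Fin n}
    (hac : D.b a < D.b c) (h0 : ∀ a' c', D.b a' < D.b c' →
      (D.b c' : ℕ) - D.b a' < (D.b c : ℕ) - D.b a → (s : Matrix (Fin n) (Fin n) F) a' c' = 0) :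
    ((u⁻¹ * s * u : GL (Fin n) F) : Matrix (Fin n) (Fin n) F) a c =
      (s : Matrix (Fin n) (Fin n) F) a c := by
  have h : ∀ x, ((u⁻¹ : GL (Fin n) F) : Matrix (Fin n) (Fin n) F) a x *
      ((s * u : GL (Fin n) F) : Matrix (Fin n) (Fin n) F) x c =
      ((u⁻¹ : GL (Fin n) F) : Matrix (Fin n) (Fin n) F) a x * (u : Matrix (Fin n) (Fin n) F) x c +
        if a = x then (s : Matrix (Fin n) (Fin n) F) a c else 0 := fun x => by
    rcases le_or_gt (D.b x) (D.b a) with h1 | h1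
    · rw [hu.inv a x h1, Matrix.one_apply]
      split_ifs with h3
      · rw [← h3, E2_add hs hu hac le_rfl h0, one_mul, one_mul, add_comm]
      · simp
    · rw [if_neg (E2_ne h1), add_zero]
      rcases le_or_gt (D.b c) (D.b x) with h3 | h3
      · rw [hs.mul hu x c h3, hu x c h3]
      · have h4 : (D.b c : ℕ) - D.b x < (D.b c : ℕ) - D.b a := by
          rw [Fin.lt_def] at h1 h3
          omega
        rw [E2_add hs hu h3 h4.le h0, h0 x c h3 h4, zero_add]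
  rw [mul_assoc, Units.val_mul, Matrix.mul_apply, Finset.sum_congr rfl fun x _ => h x,
    Finset.sum_add_distrib, ← Matrix.mul_apply, Units.inv_mul, Matrix.one_apply_ne (E2_ne hac)]
  simp

theorem pow_dvd_relIndex [IsUltrametricDist F] (ϖ : Fˣ) (hϖ : ‖(ϖ : F)‖ < 1)
    (hmax : ∀ x : F, ‖x‖ < 1 → ‖x‖ ≤ ‖(ϖ : F)‖) (c₀ : ℕ) (h₀ : 0 < ‖(ϖ : F)‖ ^ c₀)
    (h₁ : ‖(ϖ : F)‖ ^ c₀ ≤ 1) (S : Subgroup (GL (Fin n) F)) (e : Fin n × Fin n → ℕ)
    (hS : ∀ s ∈ S, IsUnip D.b s → Near (‖(ϖ : F)‖ ^ c₀) s → ∀ a c, D.b a < D.b c →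
      (∀ a' c', D.b a' < D.b c' → (D.b c' : ℕ) - D.b a' < (D.b c : ℕ) - D.b a →
        (s : Matrix (Fin n) (Fin n) F) a' c' = 0) →
      ‖(s : Matrix (Fin n) (Fin n) F) a c‖ < ‖(ϖ : F)‖ ^ (c₀ + e (a, c))) :
    resCard F ^ (∑ x ∈ Finset.univ.filter (fun x : Fin n × Fin n => D.b x.1 < D.b x.2), e x) ∣
      S.relIndex (D.UU ⊓ KK n F (‖(ϖ : F)‖ ^ c₀) h₀ h₁) := by
  have key : ∀ h ≤ k, resCard F ^ (∑ x ∈ Finset.univ.filter (fun x : Fin n × Fin n =>
      D.b x.1 < D.b x.2 ∧ h ≤ (D.b x.2 : ℕ) - D.b x.1), e x) ∣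
      S.relIndex (E2_A D.b _ h₀ h₁ h) := by
    intro h hk
    induction hk using Nat.decreasingInduction with
    | self =>
      rw [Finset.filter_false_of_mem fun x _ H => absurd H.2 (by have := (D.b x.2).2; omega)]
      simp
    | of_succ h hk ih =>
      have h2 := index_mul_dvd _ (E2_surj D.mono _ h₀ h₁ h) (S.subgroupOf _)
        (Subgroup.pi Set.univ fun x => AddSubgroup.toSubgroup
          ((ballG F (‖(ϖ : F)‖ ^ (c₀ + e x.1))
            (pow_pos (norm_pos_iff.2 ϖ.ne_zero) _)).addSubgroupOf (ballG F _ h₀)))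
        fun s hs x _ => hS s hs s.2.1 s.2.2.1 _ _ x.2.1 fun a' c' H H' =>
          s.2.2.2 a' c' H (H'.trans_eq x.2.2)
      have h3 : E2_A (F := F) D.b _ h₀ h₁ (h + 1) ≤ E2_A D.b _ h₀ h₁ h := fun g hg =>
        ⟨hg.1, hg.2.1, fun a c H H' => hg.2.2 a c H (Nat.lt_succ_of_lt H')⟩
      rw [E2_ker, Subgroup.relIndex_subgroupOf h3, Subgroup.index_pi] at h2
      refine dvd_trans (dvd_of_eq ?_) ((Nat.mul_dvd_mul_left _ ih).trans h2)
      have h4 : ∀ x : Fin n × Fin n, (AddSubgroup.toSubgroup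
          ((ballG F (‖(ϖ : F)‖ ^ (c₀ + e x))
            (pow_pos (norm_pos_iff.2 ϖ.ne_zero) _)).addSubgroupOf (ballG F _ h₀))).index =
          resCard F ^ e x := fun x => by
        rw [AddSubgroup.index_toSubgroup]
        exact relIndex_ballG ϖ hϖ hmax c₀ (e x)
      rw [Finset.prod_congr rfl fun x _ => h4 x.1, Finset.prod_pow_eq_pow_sum, ← pow_add,
        ← Finset.sum_subtype (Finset.univ.filter fun x : Fin n × Fin n =>
          D.b x.1 < D.b x.2 ∧ (D.b x.2 : ℕ) - D.b x.1 = h) (by simp) e,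
        Finset.sum_filter, Finset.sum_filter, Finset.sum_filter, ← Finset.sum_add_distrib]
      refine congrArg _ (Finset.sum_congr rfl fun x _ => ?_)
      split_ifs <;> omega
  have h5 := key 0 k.zero_le
  have h6 : E2_A (F := F) D.b _ h₀ h₁ 0 = D.UU ⊓ KK n F (‖(ϖ : F)‖ ^ c₀) h₀ h₁ :=
    Subgroup.ext fun g => ⟨fun H => ⟨H.1, H.2.1⟩,
      fun H => ⟨H.1, H.2, fun _ _ _ H' => absurd H' (Nat.not_lt_zero _)⟩⟩
  simpa only [h6, Nat.zero_le, and_true] using h5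

end TypeData

end Pool.Agent.MP_4d0c14_b

end
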