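import Mathlib

section

/-! Abstract set-up: formal compact induction `G →₀ V`, relations, the Hecke operator. -/

namespace Pool.Agent.MP_4d0c14_nt

open scoped TensorProduct

section Alg

variable {G E J : Type*} [Group G] [Field E]

/-- The relations `[g h] v = lam h • [g] v` for `h ∈ H`. -/
noncomputable def relH (H : Subgroup G) (lam : G → E) (V : Type*) [AddCommGroup V] [Module E V] :
    Submodule E (G →₀ V) :=
  Submodule.span E {z | ∃ (g h : G) (v : V), h ∈ H ∧
    z = Finsupp.single (g * h) v - lam h • Finsupp.single g v}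

/-- The operator `[g] v ↦ ∑ j, [g γ j] v - α • [g] v`. -/
noncomputable def aop (S : Finset J) (γ : J → G) (α : E) (V : Type*) [AddCommGroup V]
    [Module E V] : (G →₀ V) →ₗ[E] (G →₀ V) :=
  Finsupp.lsum E fun g => (∑ j ∈ S, Finsupp.lsingle (g * γ j)) - α • Finsupp.lsingle g

@[simp] theorem aop_single (S : Finset J) (γ : J → G) (α : E) {V : Type*} [AddCommGroup V]
    [Module E V] (g : G) (v : V) : aop S γ α V (Finsupp.single g v) =
      ∑ j ∈ S, Finsupp.single (g * γ j) v - α • Finsupp.single g v := by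
  simp [aop, LinearMap.sum_apply]

open Classical in
/-- The function equal to `lam⁻¹` on `H` and to zero outside. -/
noncomputable def del (H : Subgroup G) (lam : G → E) (x : G) : E :=
  if x ∈ H then (lam x)⁻¹ else 0

/-- The map `[g] v ↦ v ⊗ g f₀`. -/
noncomputable def pv (V : Type*) [AddCommGroup V] [Module E V] {W : Type*} [AddCommGroup W]
    [Module E W] (π : Representation E G W) (f₀ : W) : (G →₀ V) →ₗ[E] V ⊗[E] W :=
  Finsupp.lsum E fun g => (TensorProduct.mk E V W).flip (π g f₀)

@[simp] theorem pv_single {V : Type*} [AddCommGroup V] [Module E V] {W : Type*} [AddCommGroup W]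
    [Module E W] (π : Representation E G W) (f₀ : W) (g : G) (v : V) :
    pv V π f₀ (Finsupp.single g v) = v ⊗ₜ π g f₀ := by
  simp [pv]

/-- The diagonal action on formal sums: `γ • [g] v = [γ g] (ρ γ v)`. -/
noncomputable def act {V : Type*} [AddCommGroup V] [Module E V] (ρ : Representation E G V)
    (γ : G) : (G →₀ V) →ₗ[E] (G →₀ V) :=
  Finsupp.lsum E fun g => (Finsupp.lsingle (γ * g)).comp (ρ γ)

@[simp] theorem act_single {V : Type*} [AddCommGroup V] [Module E V] (ρ : Representation E G V)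
    (γ g : G) (v : V) : act ρ γ (Finsupp.single g v) = Finsupp.single (γ * g) (ρ γ v) := by
  simp [act]

theorem act_apply {V : Type*} [AddCommGroup V] [Module E V] (ρ : Representation E G V)
    (γ : G) (z : G →₀ V) (x : G) : act ρ γ z x = ρ γ (z (γ⁻¹ * x)) := by
  classical
  induction z using Finsupp.induction_linear with
  | zero => simp
  | add a b ha hb => simp [ha, hb]
  | single g v =>
    rw [act_single, Finsupp.single_apply, Finsupp.single_apply]
    by_cases h : γ * g = x
    · subst h; simp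
    · have : g ≠ γ⁻¹ * x := fun h' => h (by rw [h']; simp)
      simp [h, this]

end Alg

section Normed

variable {G E ι : Type*} [Group G] [NormedField E] [Fintype ι]

/-- `z` has norm at most `r` in the compact induction. -/
def Small (ρ : Representation E G (ι → E)) (r : ℝ) (z : G →₀ (ι → E)) : Prop :=
  ∀ g, ‖ρ g⁻¹ (z g)‖ ≤ r

theorem Small.act {ρ : Representation E G (ι → E)} {r : ℝ} {z : G →₀ (ι → E)}
    (h : Small ρ r z) (γ : G) : Small ρ r (act ρ γ z) := by
  intro g
  have := h (γ⁻¹ * g)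
  rw [act_apply, ← Module.End.mul_apply, ← map_mul]
  simpa using this

end Normed

/-- The data of the abstract argument. -/
structure CoreData (G E ι J : Type*) [Group G] [NormedField E] [Fintype ι] where
  ρ : Representation E G (ι → E)
  H : Subgroup G
  lam : G → E
  S : Finset J
  γ : J → G
  δ : J → G
  α : E
  θ : G →* G
  β : (ι → E) →ₗ[E] (ι → E) →ₗ[E] E
  lam_one : lam 1 = 1
  lam_mul : ∀ h ∈ H, ∀ h' ∈ H, lam (h * h') = lam h * lam h'
  iso : ∀ h ∈ H, ∀ v, ‖lam h • ρ h v‖ = ‖v‖
  hU : ∀ x, ∑ j ∈ S, del H lam (x * δ j) = ∑ j ∈ S, del H lam ((γ j)⁻¹ * x)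
  θ_mem : ∀ h ∈ H, θ h ∈ H
  θ_lam : ∀ h ∈ H, lam (θ h) * lam h = 1
  θ_γ : ∀ j, θ (γ j) = δ j
  β_inv : ∀ g v w, β (ρ g v) (ρ (θ g) w) = β v w
  β_nd : ∀ w, (∀ v, β v w = 0) → w = 0

namespace CoreData

variable {G E ι J : Type*} [Group G] [NormedField E] [Fintype ι] (D : CoreData G E ι J)

/-- The generators `[1] v` are limits of elements of the image of the Hecke operator. -/
def Dense : Prop :=
  ∀ (v : ι → E) (ε : ℝ), 0 < ε → ∃ z z' : G →₀ (ι → E), Small D.ρ ε z ∧
    Finsupp.single 1 v - z - aop D.S D.γ D.α (ι → E) z' ∈ relH D.H D.lam (ι → E)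

/-- bounded functions -/
def Bdd (y : G → ι → E) : Prop := ∃ C : ℝ, ∀ x, ‖D.ρ x⁻¹ (y x)‖ ≤ C

/-- equivariant functions -/
def Eqv (y : G → ι → E) : Prop := ∀ x, ∀ h ∈ D.H, D.lam h • y (x * h) = y x

/-- functions tending to zero at infinity -/
def Dec (y : G → ι → E) : Prop :=
  ∀ ε : ℝ, 0 < ε → ∃ T : Finset G, ∀ x, (∀ s ∈ T, s⁻¹ * x ∉ D.H) → ‖D.ρ x⁻¹ (y x)‖ ≤ ε

end CoreData

end Pool.Agent.MP_4d0c14_nt

end

section

/-! The quotient seminorm: either it is a norm, or the image of the Hecke operator is dense. -/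

namespace Pool.Agent.MP_4d0c14_nt

open scoped TensorProduct

section Alg

variable {G E J V W : Type*} [Group G] [Field E] [AddCommGroup V] [Module E V] [AddCommGroup W]
  [Module E W]

theorem SF_irr (π : Representation E G W) (hirr : π.IsIrreducible) (U : Submodule E W)
    (hU : ∀ g, ∀ w ∈ U, π g w ∈ U) {w : W} (hw : w ∈ U) (h0 : w ≠ 0) : U = ⊤ := by
  let U' : Subrepresentation π := ⟨U, fun g v hv => hU g v hv⟩
  rcases hirr.eq_bot_or_eq_top U' with h | h
  · have : U = ⊥ := congrArg Subrepresentation.toSubmodule h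
    rw [this] at hw
    exact absurd hw h0
  · exact congrArg Subrepresentation.toSubmodule h

theorem pv_surjective (π : Representation E G W) (hirr : π.IsIrreducible) (f₀ : W)
    (hf₀ : f₀ ≠ 0) : Function.Surjective (pv V π f₀) := by
  have htop : Submodule.span E (Set.range fun g => π g f₀) = ⊤ := by
    refine SF_irr π hirr _ (fun g w hw => ?_) (Submodule.subset_span ⟨1, by simp⟩) hf₀
    have : Submodule.span E (Set.range fun g => π g f₀) ≤
        (Submodule.span E (Set.range fun g => π g f₀)).comap (π g) := by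
      rw [Submodule.span_le]
      rintro _ ⟨h, rfl⟩
      exact Submodule.subset_span ⟨g * h, by simp⟩
    exact this hw
  rw [← LinearMap.range_eq_top, eq_top_iff]
  rintro x -
  induction x using TensorProduct.induction_on with
  | zero => exact zero_mem _
  | add a b ha hb => exact add_mem ha hb
  | tmul v w =>
    have : Submodule.span E (Set.range fun g => π g f₀) ≤
        (LinearMap.range (pv V π f₀)).comap (TensorProduct.mk E V W v) := by
      rw [Submodule.span_le]
      rintro _ ⟨h, rfl⟩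
      exact ⟨Finsupp.single h v, by simp⟩
    exact this (by rw [htop]; trivial)

theorem SF_lift (H : Subgroup G) (lam : G → E) (S : Finset J) (γ : J → G) (α : E) (v : V)
    (w : G →₀ E) (hw : w ∈ relH H lam E ⊔ LinearMap.range (aop S γ α E)) :
    Finsupp.mapRange.linearMap (LinearMap.toSpanSingleton E V v) w ∈
      relH H lam V ⊔ LinearMap.range (aop S γ α V) := by
  have : relH H lam E ⊔ LinearMap.range (aop S γ α E) ≤
      (relH H lam V ⊔ LinearMap.range (aop S γ α V)).comap
        (Finsupp.mapRange.linearMap (LinearMap.toSpanSingleton E V v)) := by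
    refine sup_le ?_ ?_
    · rw [relH, Submodule.span_le]
      rintro _ ⟨g, h, a, hh, rfl⟩
      refine Submodule.mem_sup_left (Submodule.subset_span ⟨g, h, a • v, hh, ?_⟩)
      rw [map_sub, map_smul]
      simp
    · rintro _ ⟨u, rfl⟩
      refine Submodule.mem_sup_right
        ⟨Finsupp.mapRange.linearMap (LinearMap.toSpanSingleton E V v) u, ?_⟩
      induction u using Finsupp.induction_linear with
      | zero => simp only [map_zero]
      | add a b ha hb => simp only [map_add, ha, hb]
      | single g a =>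
        rw [aop_single, map_sub, map_smul, map_sum]
        simp
  exact this hw

theorem pv_ker (H : Subgroup G) (lam : G → E) (S : Finset J) (γ : J → G) (α : E)
    (π : Representation E G W) (f₀ : W)
    (hker : ∀ z : G →₀ E, Finsupp.linearCombination E (fun g => π g f₀) z = 0 →
      z ∈ relH H lam E ⊔ LinearMap.range (aop S γ α E))
    (z : G →₀ V) (hz : pv V π f₀ z = 0) :
    z ∈ relH H lam V ⊔ LinearMap.range (aop S γ α V) := by
  classical
  have h1 : ∀ (φ : V →ₗ[E] E) (y : G →₀ V),
      Finsupp.linearCombination E (fun g => π g f₀) (Finsupp.mapRange.linearMap φ y) =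
        TensorProduct.lid E W (φ.rTensor W (pv V π f₀ y)) := by
    intro φ y
    induction y using Finsupp.induction_linear with
    | zero => simp only [map_zero]
    | add a b ha hb => simp only [map_add, ha, hb]
    | single g v => simp
  let b := Module.Basis.ofVectorSpace E V
  have h2 : z = ∑ i ∈ z.support.biUnion (fun g => (b.repr (z g)).support),
      Finsupp.mapRange.linearMap (LinearMap.toSpanSingleton E V (b i))
        (Finsupp.mapRange.linearMap (b.coord i) z) := by
    ext g
    rw [Finsupp.finsetSum_apply]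
    simp only [Finsupp.mapRange.linearMap_apply, Finsupp.mapRange_apply,
      LinearMap.toSpanSingleton_apply, Module.Basis.coord_apply]
    by_cases hg : z g = 0
    · simp [hg]
    · conv_lhs => rw [← b.linearCombination_repr (z g), Finsupp.linearCombination_apply]
      refine Finsupp.sum_of_support_subset _ ?_ _ (by simp)
      exact Finset.subset_biUnion_of_mem (fun g => (b.repr (z g)).support)
        (Finsupp.mem_support_iff.2 hg)
  rw [h2]
  refine Submodule.sum_mem _ fun i _ => SF_lift H lam S γ α _ _ (hker _ ?_)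
  rw [h1, hz, map_zero, map_zero]

theorem prasad [FiniteDimensional E V] (ρ : Representation E G V) (π : Representation E G W)
    (hirr : π.IsIrreducible)
    (hsm : ∀ T : Finset W, Submodule.span E {a | ∃ k, (∀ w ∈ T, π k w = w) ∧ a = ρ k} = ⊤)
    (N : Submodule E (V ⊗[E] W)) (hN : ∀ g, ∀ x ∈ N, ρ.tprod π g x ∈ N) : N = ⊥ ∨ N = ⊤ := by
  classical
  rw [or_iff_not_imp_left]
  intro hb
  obtain ⟨x, hx, hx0⟩ := (Submodule.ne_bot_iff N).1 hb
  let b := Module.finBasis E V
  obtain ⟨w, hw⟩ : ∃ w : Fin (Module.finrank E V) → W, x = ∑ i, b i ⊗ₜ[E] w i := by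
    obtain ⟨c, rfl⟩ := (TensorProduct.equivFinsuppOfBasisLeft b).symm.surjective x
    exact ⟨c, by rw [TensorProduct.equivFinsuppOfBasisLeft_symm_apply,
      Finsupp.sum_fintype _ _ (by simp)]⟩
  have hall : ∀ a : V →ₗ[E] V, a.rTensor W x ∈ N := by
    intro a
    have : Submodule.span E {a | ∃ k, (∀ u ∈ Finset.univ.image w, π k u = u) ∧ a = ρ k} ≤
        N.comap ((LinearMap.applyₗ x).comp (LinearMap.rTensorHom W)) := by
      rw [Submodule.span_le]
      rintro _ ⟨k, hk, rfl⟩
      change (ρ k).rTensor W x ∈ N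
      have e : (ρ k).rTensor W x = ρ.tprod π k x := by
        rw [hw, map_sum, map_sum]
        refine Finset.sum_congr rfl fun i _ => ?_
        simp [hk (w i) (Finset.mem_image_of_mem _ (Finset.mem_univ i))]
      rw [e]; exact hN k x hx
    rw [hsm] at this
    exact this (Submodule.mem_top (x := a))
  obtain ⟨i, hi⟩ : ∃ i, w i ≠ 0 := by
    by_contra! h
    exact hx0 (by simp [hw, h])
  let U : Submodule E W := ⨅ v : V, N.comap (TensorProduct.mk E V W v)
  have hU : ∀ u, u ∈ U ↔ ∀ v : V, v ⊗ₜ[E] u ∈ N := fun u => by simp [U]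
  have htop : U = ⊤ := by
    refine SF_irr π hirr U (fun g u hu => (hU _).2 fun v => ?_) (w := w i) ((hU _).2 fun v => ?_) hi
    · have := hN g _ ((hU u).1 hu (ρ g⁻¹ v))
      simpa using this
    · have := hall ((b.coord i).smulRight v)
      rw [hw, map_sum, Finset.sum_eq_single i] at this
      · simpa using this
      · intro j _ hj
        simp [hj]
      · simp
  rw [eq_top_iff]
  rintro y -
  induction y using TensorProduct.induction_on with
  | zero => exact zero_mem _
  | add a b ha hb => exact add_mem ha hb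
  | tmul v u => exact (hU u).1 (by rw [htop]; trivial) v

theorem SF_pv_act (ρ : Representation E G V) (π : Representation E G W) (f₀ : W) (g : G)
    (z : G →₀ V) : pv V π f₀ (act ρ g z) = ρ.tprod π g (pv V π f₀ z) := by
  induction z using Finsupp.induction_linear with
  | zero => simp only [map_zero]
  | add a b ha hb => simp only [map_add, ha, hb]
  | single h v => simp

end Alg

variable {G E ι J W : Type*} [Group G] [NontriviallyNormedField E] [IsUltrametricDist E]
  [Fintype ι] [AddCommGroup W] [Module E W]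

theorem exists_quot_seminorm (ρ : Representation E G (ι → E)) (π : Representation E G W) (f₀ : W)
    (hs : Function.Surjective (pv (ι → E) π f₀)) :
    ∃ N : Seminorm E ((ι → E) ⊗[E] W), (∀ x y, N (x + y) ≤ max (N x) (N y)) ∧
      (∀ g x, N (ρ.tprod π g x) = N x) ∧
      ∀ x, N x = 0 → ∀ ε : ℝ, 0 < ε → ∃ z, pv (ι → E) π f₀ z = x ∧ Small ρ ε z := by
  let A : (ι → E) ⊗[E] W → Set ℝ := fun x => {r | ∃ z, pv (ι → E) π f₀ z = x ∧ Small ρ r z}
  have hne : ∀ x, (A x).Nonempty := by
    intro x
    obtain ⟨z, rfl⟩ := hs x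
    refine ⟨∑ g ∈ z.support, ‖ρ g⁻¹ (z g)‖, z, rfl, fun g => ?_⟩
    by_cases hg : z g = 0
    · rw [hg, map_zero, norm_zero]
      exact Finset.sum_nonneg fun _ _ => norm_nonneg _
    · exact Finset.single_le_sum (f := fun g => ‖ρ g⁻¹ (z g)‖) (fun _ _ => norm_nonneg _)
        (Finsupp.mem_support_iff.2 hg)
  have hpos : ∀ x, ∀ r ∈ A x, 0 ≤ r := by
    rintro x r ⟨z, -, hz⟩
    exact (norm_nonneg _).trans (hz 1)
  have hbd : ∀ x, BddBelow (A x) := fun x => ⟨0, hpos x⟩
  have hnn : ∀ x, 0 ≤ sInf (A x) := fun x => le_csInf (hne x) (hpos x)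
  have hlt : ∀ x r, sInf (A x) < r → r ∈ A x := by
    intro x r hr
    obtain ⟨s, ⟨z, hz, hz'⟩, hsr⟩ := exists_lt_of_csInf_lt (hne x) hr
    exact ⟨z, hz, fun g => (hz' g).trans hsr.le⟩
  have h0 : sInf (A 0) = 0 :=
    le_antisymm (csInf_le (hbd 0) ⟨0, map_zero _, fun g => by simp⟩) (hnn 0)
  have hmax : ∀ x y, sInf (A (x + y)) ≤ max (sInf (A x)) (sInf (A y)) := by
    intro x y
    refine le_of_forall_gt_imp_ge_of_dense fun r hr => csInf_le (hbd _) ?_
    obtain ⟨z, hz, hz'⟩ := hlt x r ((le_max_left _ _).trans_lt hr)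
    obtain ⟨u, hu, hu'⟩ := hlt y r ((le_max_right _ _).trans_lt hr)
    refine ⟨z + u, by rw [map_add, hz, hu], fun g => ?_⟩
    rw [Finsupp.add_apply, map_add]
    exact (IsUltrametricDist.norm_add_le_max _ _).trans (max_le (hz' g) (hu' g))
  have hsm : ∀ (a : E) x, sInf (A (a • x)) ≤ ‖a‖ * sInf (A x) := by
    intro a x
    by_cases ha : a = 0
    · rw [ha, zero_smul, h0, norm_zero, zero_mul]
    have ha' : 0 < ‖a‖ := norm_pos_iff.2 ha
    rw [← div_le_iff₀' ha']
    refine le_csInf (hne x) ?_
    rintro r ⟨z, hz, hz'⟩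
    rw [div_le_iff₀' ha']
    refine csInf_le (hbd _) ⟨a • z, by rw [map_smul, hz], fun g => ?_⟩
    rw [Finsupp.smul_apply, map_smul, norm_smul]
    exact mul_le_mul_of_nonneg_left (hz' g) ha'.le
  have hact : ∀ g x, A x ⊆ A (ρ.tprod π g x) := by
    rintro g x r ⟨z, rfl, hz⟩
    exact ⟨act ρ g z, SF_pv_act ρ π f₀ g z, hz.act g⟩
  refine ⟨Seminorm.ofSMulLE (fun x => sInf (A x)) h0 (fun x y => (hmax x y).trans
    (max_le (le_add_of_nonneg_right (hnn y)) (le_add_of_nonneg_left (hnn x)))) hsm, hmax,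
    fun g x => ?_, fun x hx ε hε => hlt x ε ?_⟩
  · change sInf (A _) = sInf (A x)
    congr 1
    refine subset_antisymm ?_ (hact g x)
    have := hact g⁻¹ (ρ.tprod π g x)
    rwa [Representation.inv_self_apply] at this
  · change sInf (A x) = 0 at hx
    rwa [hx]

theorem norm_or_dense (D : CoreData G E ι J) (π : Representation E G W) (hirr : π.IsIrreducible)
    (f₀ : W) (hf₀ : f₀ ≠ 0)
    (hker : ∀ z : G →₀ E, Finsupp.linearCombination E (fun g => π g f₀) z = 0 →
      z ∈ relH D.H D.lam E ⊔ LinearMap.range (aop D.S D.γ D.α E))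
    (hsm : ∀ T : Finset W, Submodule.span E {a | ∃ k, (∀ w ∈ T, π k w = w) ∧ a = D.ρ k} = ⊤) :
    (∃ N : Seminorm E ((ι → E) ⊗[E] W), (∀ x, N x = 0 → x = 0) ∧
      (∀ x y, N (x + y) ≤ max (N x) (N y)) ∧ ∀ g x, N (D.ρ.tprod π g x) = N x) ∨ D.Dense := by
  obtain ⟨N, h1, h2, h3⟩ := exists_quot_seminorm D.ρ π f₀ (pv_surjective π hirr f₀ hf₀)
  let K : Submodule E ((ι → E) ⊗[E] W) :=
    { carrier := {x | N x = 0}
      add_mem' := fun {a b} (ha : N a = 0) (hb : N b = 0) =>
        le_antisymm ((h1 a b).trans (by rw [ha, hb, max_self])) (apply_nonneg N _)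
      zero_mem' := map_zero N
      smul_mem' := fun c x (hx : N x = 0) => by
        change N (c • x) = 0
        rw [map_smul_eq_mul, hx, mul_zero] }
  rcases prasad D.ρ π hirr hsm K (fun g x (hx : N x = 0) => (h2 g x).trans hx) with h | h
  · refine Or.inl ⟨N, fun x hx => ?_, h1, h2⟩
    have : x ∈ K := hx
    rwa [h] at this
  · refine Or.inr fun v ε hε => ?_
    have hx : pv (ι → E) π f₀ (Finsupp.single 1 v) ∈ K := by rw [h]; trivial
    obtain ⟨z, hz, hz'⟩ := h3 _ hx ε hε
    have := pv_ker D.H D.lam D.S D.γ D.α π f₀ hker (Finsupp.single 1 v - z)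
      (by rw [map_sub, hz, sub_self])
    obtain ⟨a, ha, _, ⟨z', rfl⟩, he⟩ := Submodule.mem_sup.1 this
    refine ⟨z, z', hz', ?_⟩
    rw [← he, add_sub_cancel_right]
    exact ha

end Pool.Agent.MP_4d0c14_nt

end
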