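import Pool.Agent.MP_4d0c14_b.Stmt
import Mathlib
import Pool.Agent.Mg.F4d0c14.G69f392

section

/-! Entrywise bounds for matrices over an ultrametric field. -/

namespace Pool.Agent.MP_4d0c14_b

open scoped Matrix Kronecker

/-- All entries have norm at most `C`. -/
def MLe {α β E : Type*} [Norm E] (C : ℝ) (X : Matrix α β E) : Prop := ∀ i j, ‖X i j‖ ≤ C

namespace MLe

variable {α β γ δ E : Type*} [NormedField E] {a b : ℝ}

theorem mono {X : Matrix α β E} (h : MLe a X) (hab : a ≤ b) : MLe b X :=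
  fun i j => (h i j).trans hab

theorem zero (ha : 0 ≤ a) : MLe a (0 : Matrix α β E) := fun _ _ => by simpa using ha

theorem one [DecidableEq α] : MLe 1 (1 : Matrix α α E) := fun i j => by
  by_cases h : i = j <;> simp [Matrix.one_apply, h]

theorem neg {X : Matrix α β E} (h : MLe a X) : MLe a (-X) := fun i j => by simpa using h i j

theorem transpose {X : Matrix α β E} (h : MLe a X) : MLe a Xᵀ := fun i j => h j i

theorem smul {X : Matrix α β E} (h : MLe a X) (c : E) : MLe (‖c‖ * a) (c • X) := fun i j => by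
  rw [Matrix.smul_apply, norm_smul]
  exact mul_le_mul_of_nonneg_left (h i j) (norm_nonneg _)

theorem kron {X : Matrix α β E} {Y : Matrix γ δ E} (hX : MLe a X) (hY : MLe b Y) :
    MLe (a * b) (X ⊗ₖ Y) := fun i j => by
  rw [Matrix.kroneckerMap_apply, norm_mul]
  exact mul_le_mul (hX _ _) (hY _ _) (norm_nonneg _) ((norm_nonneg _).trans (hX i.1 j.1))

theorem eq_zero {X : Matrix α β E} (h : ∀ ε : ℝ, 0 < ε → MLe ε X) : X = 0 := by
  ext i j
  exact norm_le_zero_iff.1 (le_of_forall_pos_le_add fun ε hε => by simpa using h ε hε i j)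

theorem exists_bound [Finite α] [Finite β] (X : Matrix α β E) : ∃ C, 0 < C ∧ MLe C X := by
  obtain ⟨C, hC⟩ := (Set.finite_range fun x : α × β => ‖X x.1 x.2‖).bddAbove
  exact ⟨max C 1, lt_max_of_lt_right one_pos, fun i j => (hC ⟨(i, j), rfl⟩).trans (le_max_left _ _)⟩

variable [IsUltrametricDist E]

theorem add {X Y : Matrix α β E} (hX : MLe a X) (hY : MLe a Y) : MLe a (X + Y) := fun i j =>
  (IsUltrametricDist.norm_add_le_max _ _).trans (max_le (hX i j) (hY i j))

theorem sub {X Y : Matrix α β E} (hX : MLe a X) (hY : MLe a Y) : MLe a (X - Y) := by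
  rw [sub_eq_add_neg]; exact hX.add hY.neg

theorem sum {σ : Type*} {s : Finset σ} {X : σ → Matrix α β E} (ha : 0 ≤ a)
    (h : ∀ x ∈ s, MLe a (X x)) : MLe a (∑ x ∈ s, X x) := fun i j => by
  rw [Matrix.sum_apply]
  exact IsUltrametricDist.norm_sum_le_of_forall_le_of_nonneg ha fun x hx => h x hx i j

theorem finsum {σ : Type*} {X : σ → Matrix α β E} (ha : 0 ≤ a) (h : ∀ x, MLe a (X x)) :
    MLe a (∑ᶠ x, X x) :=
  finsum_induction (MLe a) (zero ha) (fun _ _ => add) h

theorem mul [Fintype β] {X : Matrix α β E} {Y : Matrix β γ E} (hX : MLe a X) (hY : MLe b Y)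
    (ha : 0 ≤ a) (hb : 0 ≤ b) : MLe (a * b) (X * Y) := fun i j => by
  rw [Matrix.mul_apply]
  refine IsUltrametricDist.norm_sum_le_of_forall_le_of_nonneg (mul_nonneg ha hb) fun x _ => ?_
  rw [norm_mul]
  exact mul_le_mul (hX _ _) (hY _ _) (norm_nonneg _) ha

theorem mulVec [Fintype α] [Fintype β] {X : Matrix α β E} (hX : MLe a X) (ha : 0 ≤ a)
    (v : β → E) : ‖X *ᵥ v‖ ≤ a * ‖v‖ := by
  refine (pi_norm_le_iff_of_nonneg (mul_nonneg ha (norm_nonneg _))).2 fun i => ?_
  refine IsUltrametricDist.norm_sum_le_of_forall_le_of_nonneg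
    (mul_nonneg ha (norm_nonneg _)) fun x _ => ?_
  rw [norm_mul]
  exact mul_le_mul (hX _ _) (norm_le_pi_norm v x) (norm_nonneg _) ha

end MLe

section GLn

variable {n : ℕ} {F : Type}

@[simp] theorem coe_tr [Field F] (g : GL (Fin n) F) :
    ((tr g : GL (Fin n) F) : Matrix (Fin n) (Fin n) F) = (g : Matrix (Fin n) (Fin n) F)ᵀ := rfl

@[simp] theorem tr_tr [Field F] (g : GL (Fin n) F) : tr (tr g) = g := Units.ext rfl

@[simp] theorem coe_dg [Field F] (t : Fin n → Fˣ) :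
    ((dg t : GL (Fin n) F) : Matrix (Fin n) (Fin n) F) = Matrix.diagonal fun i => (t i : F) := rfl

theorem dg_mul [Field F] (s t : Fin n → Fˣ) : dg (s * t) = dg s * dg t :=
  Units.ext (by simp [Matrix.diagonal_mul_diagonal])

theorem dg_one [Field F] : dg (1 : Fin n → Fˣ) = 1 := Units.ext (by simp)

theorem dg_inv [Field F] (t : Fin n → Fˣ) : dg t⁻¹ = (dg t)⁻¹ := Units.ext rfl

/-- The diagonal embedding as a homomorphism. -/
def dgHom [Field F] : (Fin n → Fˣ) →* GL (Fin n) F where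
  toFun := dg
  map_one' := dg_one
  map_mul' := dg_mul

theorem dg_const_comm [Field F] (z : Fˣ) (g : GL (Fin n) F) :
    dg (fun _ => z) * g = g * dg (fun _ => z) := by
  ext i j
  simp [mul_comm]

/-- The elementary matrix `1 + s E_{i j}` for `i ≠ j`. -/
def tv [Field F] (i j : Fin n) (h : i ≠ j) (s : F) : GL (Fin n) F where
  val := Matrix.transvection i j s
  inv := Matrix.transvection i j (-s)
  val_inv := by rw [Matrix.transvection_mul_transvection_same _ _ h]; simp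
  inv_val := by rw [Matrix.transvection_mul_transvection_same _ _ h]; simp

@[simp] theorem coe_tv [Field F] (i j : Fin n) (h : i ≠ j) (s : F) :
    ((tv i j h s : GL (Fin n) F) : Matrix (Fin n) (Fin n) F) = Matrix.transvection i j s := rfl

theorem tv_add [Field F] (i j : Fin n) (h : i ≠ j) (s s' : F) :
    tv i j h (s + s') = tv i j h s * tv i j h s' :=
  Units.ext (Matrix.transvection_mul_transvection_same _ _ h _ _).symm

theorem tv_zero [Field F] (i j : Fin n) (h : i ≠ j) : tv i j h (0 : F) = 1 :=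
  Units.ext (Matrix.transvection_zero _ _)

theorem tv_neg [Field F] (i j : Fin n) (h : i ≠ j) (s : F) : tv i j h (-s) = (tv i j h s)⁻¹ :=
  Units.ext (by simp [tv])

/-- Upper triangular. -/
def IsUp [Field F] (g : GL (Fin n) F) : Prop :=
  ∀ i j, j < i → (g : Matrix (Fin n) (Fin n) F) i j = 0

/-- Upper triangular with diagonal entries `1`. -/
def IsUp1 [Field F] (g : GL (Fin n) F) : Prop :=
  ∀ i j, j ≤ i → (g : Matrix (Fin n) (Fin n) F) i j = (1 : Matrix (Fin n) (Fin n) F) i j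

/-- Lower triangular with diagonal entries `1`. -/
def IsLow1 [Field F] (g : GL (Fin n) F) : Prop :=
  ∀ i j, i ≤ j → (g : Matrix (Fin n) (Fin n) F) i j = (1 : Matrix (Fin n) (Fin n) F) i j

variable [NormedField F]

theorem bnd_iff {C : ℝ} {g : GL (Fin n) F} : Bnd C g ↔ MLe C (g : Matrix (Fin n) (Fin n) F) ∧
    MLe C ((g⁻¹ : GL (Fin n) F) : Matrix (Fin n) (Fin n) F) :=
  ⟨fun h => ⟨fun i j => (h i j).1, fun i j => (h i j).2⟩, fun h i j => ⟨h.1 i j, h.2 i j⟩⟩

theorem Bnd.mono {C C' : ℝ} {g : GL (Fin n) F} (h : Bnd C g) (hC : C ≤ C') : Bnd C' g :=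
  fun i j => ⟨(h i j).1.trans hC, (h i j).2.trans hC⟩

theorem Bnd.inv {C : ℝ} {g : GL (Fin n) F} (h : Bnd C g) : Bnd C g⁻¹ :=
  fun i j => ⟨(h i j).2, by rw [inv_inv]; exact (h i j).1⟩

theorem Bnd.tr {C : ℝ} {g : GL (Fin n) F} (h : Bnd C g) : Bnd C (tr g) :=
  fun i j => ⟨(h j i).1, (h j i).2⟩

theorem exists_bnd (g : GL (Fin n) F) : ∃ C, 0 < C ∧ Bnd C g := by
  obtain ⟨a, ha, h⟩ := MLe.exists_bound (g : Matrix (Fin n) (Fin n) F)
  obtain ⟨b, -, h'⟩ := MLe.exists_bound ((g⁻¹ : GL (Fin n) F) : Matrix (Fin n) (Fin n) F)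
  exact ⟨max a b, lt_max_of_lt_left ha,
    bnd_iff.2 ⟨h.mono (le_max_left _ _), h'.mono (le_max_right _ _)⟩⟩

theorem Near.mono {r s : ℝ} {g : GL (Fin n) F} (h : Near r g) (hrs : r ≤ s) : Near s g :=
  fun i j => (h i j).trans_le hrs

theorem Near.tr {r : ℝ} {g : GL (Fin n) F} (h : Near r g) : Near r (tr g) := fun i j => by
  simpa [Matrix.one_apply, eq_comm] using h j i

theorem near_one {r : ℝ} (hr : 0 < r) : Near r (1 : GL (Fin n) F) := fun i j => by simpa using hr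

variable [IsUltrametricDist F]

theorem Bnd.mul {C C' : ℝ} {g h : GL (Fin n) F} (hg : Bnd C g) (hh : Bnd C' h) (hC : 0 ≤ C)
    (hC' : 0 ≤ C') : Bnd (C * C') (g * h) := by
  rw [bnd_iff] at *
  refine ⟨hg.1.mul hh.1 hC hC', ?_⟩
  rw [mul_inv_rev, mul_comm C]
  exact hh.2.mul hg.2 hC' hC

omit [IsUltrametricDist F] in
theorem Near.exists_le {r : ℝ} (hr : 0 < r) {g : GL (Fin n) F} (h : Near r g) :
    ∃ s, 0 ≤ s ∧ s < r ∧ MLe s ((g : Matrix (Fin n) (Fin n) F) - 1) := by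
  let Y : Fin n → Fin n → F := fun i j => ((g : Matrix (Fin n) (Fin n) F) - 1) i j
  refine ⟨‖Y‖, norm_nonneg _, (pi_norm_lt_iff hr).2 fun i => (pi_norm_lt_iff hr).2 (h i),
    fun i j => (norm_le_pi_norm (Y i) j).trans (norm_le_pi_norm Y i)⟩

theorem Near.mle_one {r : ℝ} (hr : r ≤ 1) {g : GL (Fin n) F} (h : Near r g) :
    MLe 1 (g : Matrix (Fin n) (Fin n) F) := by
  have : (g : Matrix (Fin n) (Fin n) F) = (g - 1) + 1 := by simp
  rw [this]
  exact MLe.add (fun i j => (h i j).le.trans hr) MLe.one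

theorem Near.mul {r : ℝ} (hr0 : 0 < r) (hr : r ≤ 1) {g h : GL (Fin n) F} (hg : Near r g)
    (hh : Near r h) : Near r (g * h) := by
  obtain ⟨s, hs0, hs, hs'⟩ := hg.exists_le hr0
  obtain ⟨u, hu0, hu, hu'⟩ := hh.exists_le hr0
  have e : ((g * h : GL (Fin n) F) : Matrix (Fin n) (Fin n) F) - 1 =
      ((g : Matrix (Fin n) (Fin n) F) - 1) * h + (h - 1) := by
    rw [Units.val_mul, Matrix.sub_mul, Matrix.one_mul]; abel
  have h1 := hs'.mul (hh.mle_one hr) hs0 zero_le_one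
  rw [mul_one] at h1
  intro i j
  rw [e]
  exact ((h1.mono (le_max_left s u)).add (hu'.mono (le_max_right s u)) i j).trans_lt
    (max_lt hs hu)

theorem Near.inv {r : ℝ} (hr0 : 0 < r) (hr : r ≤ 1) {g : GL (Fin n) F} (hg : Near r g) :
    Near r g⁻¹ := by
  obtain ⟨s, hs0, hs, hs'⟩ := hg.exists_le hr0
  set X := (g : Matrix (Fin n) (Fin n) F) - 1 with hX
  set Y := ((g⁻¹ : GL (Fin n) F) : Matrix (Fin n) (Fin n) F) - 1 with hY
  have e : Y = -X - X * Y := by
    have := g.mul_inv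
    rw [hX, hY, Matrix.mul_sub, Matrix.sub_mul, this, Matrix.one_mul, Matrix.mul_one]
    abel
  let Z : Fin n → Fin n → F := fun i j => Y i j
  have hZ : MLe ‖Z‖ Y := fun i j => (norm_le_pi_norm (Z i) j).trans (norm_le_pi_norm Z i)
  have h1 : MLe (max s (s * ‖Z‖)) Y := by
    rw [e]
    exact (hs'.neg.mono (le_max_left _ _)).sub
      ((hs'.mul hZ hs0 (norm_nonneg _)).mono (le_max_right _ _))
  have h0 : 0 ≤ max s (s * ‖Z‖) := le_max_of_le_left hs0
  have h2 : ‖Z‖ ≤ max s (s * ‖Z‖) :=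
    (pi_norm_le_iff_of_nonneg h0).2 fun i => (pi_norm_le_iff_of_nonneg h0).2 (h1 i)
  have h3 : ‖Z‖ ≤ s := by
    rcases le_max_iff.1 h2 with h | h
    · exact h
    · have : ‖Z‖ ≤ 0 := by nlinarith [norm_nonneg Z]
      exact this.trans hs0
  exact fun i j => (hZ i j).trans_lt (h3.trans_lt hs)

theorem Near.bnd {r : ℝ} (hr0 : 0 < r) (hr : r ≤ 1) {g : GL (Fin n) F} (hg : Near r g) :
    Bnd 1 g := bnd_iff.2 ⟨hg.mle_one hr, (hg.inv hr0 hr).mle_one hr⟩

theorem Near.conj {r : ℝ} (hr0 : 0 < r) {g k : GL (Fin n) F} (hg : Near r g) (hk : Bnd 1 k) :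
    Near r (k⁻¹ * g * k) := by
  obtain ⟨s, hs0, hs, hs'⟩ := hg.exists_le hr0
  have e : ((k⁻¹ * g * k : GL (Fin n) F) : Matrix (Fin n) (Fin n) F) - 1 =
      ((k⁻¹ : GL (Fin n) F) : Matrix (Fin n) (Fin n) F) * (g - 1) * k := by
    rw [Matrix.mul_sub, Matrix.sub_mul, Matrix.mul_one, ← Units.val_mul, ← Units.val_mul,
      ← Units.val_mul, inv_mul_cancel, Units.val_one]
  rw [bnd_iff] at hk
  have h1 := (hk.2.mul hs' zero_le_one hs0).mul hk.1 (by simpa using hs0) zero_le_one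
  intro i j
  rw [e]
  exact (h1 i j).trans_lt (by simpa using hs)

variable (n F) in
/-- The congruence subgroup of radius `r ≤ 1`. -/
def KK (r : ℝ) (hr0 : 0 < r) (hr : r ≤ 1) : Subgroup (GL (Fin n) F) where
  carrier := {g | Near r g}
  mul_mem' := Near.mul hr0 hr
  one_mem' := near_one hr0
  inv_mem' := Near.inv hr0 hr

theorem mem_KK {r : ℝ} {hr0 : 0 < r} {hr : r ≤ 1} {g : GL (Fin n) F} :
    g ∈ KK n F r hr0 hr ↔ Near r g := Iff.rfl

end GLn

end Pool.Agent.MP_4d0c14_b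

end

section

/-! Iwahori factorisation of the congruence subgroups and generation by transvections. -/

namespace Pool.Agent.MP_4d0c14_b

open scoped Matrix

variable {n : ℕ} {F : Type}

theorem M1_iff [Field F] {g : GL (Fin n) F} : IsUp1 g ↔
    (g : Matrix (Fin n) (Fin n) F).BlockTriangular id ∧
      ∀ i, (g : Matrix (Fin n) (Fin n) F) i i = 1 := by
  refine ⟨fun h => ⟨fun i j hij => (h i j (le_of_lt hij)).trans (Matrix.one_apply_ne (ne_of_gt hij)),
    fun i => (h i i le_rfl).trans (Matrix.one_apply_eq i)⟩, fun h i j hij => ?_⟩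
  rcases hij.eq_or_lt with rfl | hij
  · rw [h.2, Matrix.one_apply_eq]
  · rw [h.1 hij, Matrix.one_apply_ne hij.ne']

theorem M1_diag [Field F] {A B : Matrix (Fin n) (Fin n) F} (hA : A.BlockTriangular id)
    (hB : B.BlockTriangular id) (i : Fin n) : (A * B) i i = A i i * B i i := by
  rw [Matrix.mul_apply]
  refine Finset.sum_eq_single i (fun j _ hj => ?_) (by simp)
  rcases lt_or_gt_of_ne hj with h | h
  · rw [hA h, zero_mul]
  · rw [hB h, mul_zero]

theorem M1_tr_tv [Field F] (i j : Fin n) (h : i ≠ j) (s : F) :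
    tr (tv i j h s) = tv j i h.symm s :=
  Units.ext (by simp [Matrix.transvection])

/-- The strictly upper triangular part. -/
def M1_up [Field F] : Matrix (Fin n) (Fin n) F →ₗ[F] Matrix (Fin n) (Fin n) F where
  toFun U := Matrix.of fun i j => if i < j then U i j else 0
  map_add' U V := by
    ext i j
    by_cases h : i < j <;> simp [h]
  map_smul' c U := by
    ext i j
    by_cases h : i < j <;> simp [h]

theorem IsUp1.mul [Field F] {g h : GL (Fin n) F} (hg : IsUp1 g) (hh : IsUp1 h) : IsUp1 (g * h) := by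
  rw [M1_iff] at *
  exact ⟨hg.1.mul hh.1, fun i => by rw [Units.val_mul, M1_diag hg.1 hh.1, hg.2, hh.2, one_mul]⟩

theorem IsUp1.inv [Field F] {g : GL (Fin n) F} (hg : IsUp1 g) : IsUp1 g⁻¹ := by
  rw [M1_iff] at *
  have h1 : ((g⁻¹ : GL (Fin n) F) : Matrix (Fin n) (Fin n) F).BlockTriangular id := by
    let _ := g.invertible
    rw [Matrix.coe_units_inv]
    exact Matrix.blockTriangular_inv_of_blockTriangular hg.1
  refine ⟨h1, fun i => ?_⟩
  have h2 := M1_diag hg.1 h1 i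
  rwa [Units.mul_inv, Matrix.one_apply_eq, hg.2, one_mul, eq_comm] at h2

theorem isLow1_iff [Field F] {g : GL (Fin n) F} : IsLow1 g ↔ IsUp1 (tr g) :=
  ⟨fun h i j hij => (h j i hij).trans (by simp [Matrix.one_apply, eq_comm]),
    fun h i j hij => (h j i hij).trans (by simp [Matrix.one_apply, eq_comm])⟩

theorem IsLow1.mul [Field F] {g h : GL (Fin n) F} (hg : IsLow1 g) (hh : IsLow1 h) :
    IsLow1 (g * h) := by
  rw [isLow1_iff] at *
  rw [tr_mul]
  exact hh.mul hg

theorem IsLow1.inv [Field F] {g : GL (Fin n) F} (hg : IsLow1 g) : IsLow1 g⁻¹ :=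
  isLow1_iff.2 (isLow1_iff.1 hg).inv

theorem IsUp1.det [Field F] {g : GL (Fin n) F} (hg : IsUp1 g) :
    (g : Matrix (Fin n) (Fin n) F).det = 1 := by
  rw [M1_iff] at hg
  rw [Matrix.det_of_isUpperTriangular hg.1]
  exact Finset.prod_eq_one fun i _ => hg.2 i

theorem isUp1_tv [Field F] {i j : Fin n} (h : i < j) (s : F) : IsUp1 (tv i j h.ne s) := by
  intro a b hab
  rw [coe_tv, Matrix.transvection, Matrix.add_apply, Matrix.single_apply_of_ne, add_zero]
  rintro ⟨rfl, rfl⟩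
  exact hab.not_gt h

theorem isLow1_tv [Field F] {i j : Fin n} (h : j < i) (s : F) : IsLow1 (tv i j h.ne' s) := by
  rw [isLow1_iff, M1_tr_tv]
  exact isUp1_tv h s

theorem dg_conj_tv [Field F] (t : Fin n → Fˣ) (i j : Fin n) (h : i ≠ j) (s : F) :
    dg t * tv i j h s * (dg t)⁻¹ = tv i j h (t i * s / t j) := by
  ext a b
  rw [← dg_inv, Units.val_mul, Units.val_mul, coe_dg, coe_dg, coe_tv, coe_tv,
    Matrix.mul_diagonal, Matrix.diagonal_mul, Matrix.transvection, Matrix.transvection,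
    Matrix.add_apply, Matrix.add_apply, mul_add, add_mul]
  congr 1
  · by_cases e : a = b
    · subst e
      simp
    · simp [e]
  · by_cases e : i = a ∧ j = b
    · obtain ⟨rfl, rfl⟩ := e
      simp [div_eq_mul_inv]
    · simp [Matrix.single_apply_of_ne _ _ _ _ _ e]

variable [NormedField F]

theorem near_tv {r : ℝ} (hr : 0 < r) (i j : Fin n) (h : i ≠ j) (s : F) :
    Near r (tv i j h s) ↔ ‖s‖ < r := by
  simp only [Near, coe_tv, Matrix.transvection, add_sub_cancel_left]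
  refine ⟨fun H => by simpa using H i j, fun H a b => ?_⟩
  rw [Matrix.single_apply]
  split_ifs
  · exact H
  · rwa [norm_zero]

theorem near_dg {r : ℝ} (hr : 0 < r) (t : Fin n → Fˣ) :
    Near r (dg t) ↔ ∀ i, ‖(t i : F) - 1‖ < r := by
  refine ⟨fun H i => by simpa using H i i, fun H a b => ?_⟩
  by_cases e : a = b
  · simpa [e] using H b
  · simpa [e] using hr

variable [IsUltrametricDist F]

theorem exists_gl_of_mle {s : ℝ} (hs : s < 1) {X : Matrix (Fin n) (Fin n) F} (hX : MLe s X) :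
    ∃ g : GL (Fin n) F, (g : Matrix (Fin n) (Fin n) F) = 1 + X := by
  refine ⟨Matrix.GeneralLinearGroup.mkOfDetNeZero (1 + X) fun h => ?_, rfl⟩
  obtain ⟨v, h1, h2⟩ := Matrix.exists_mulVec_eq_zero_iff.2 h
  rw [Matrix.add_mulVec, Matrix.one_mulVec, add_eq_zero_iff_neg_eq] at h2
  have h3 := (hX.mono (le_max_left s 0)).mulVec (le_max_right s 0) v
  rw [← h2, norm_neg] at h3
  exact h3.not_gt (mul_lt_of_lt_one_left (norm_pos_iff.2 h1) (max_lt hs one_pos))

theorem MLe.norm_det_le {α : Type} [Fintype α] [DecidableEq α] {C : ℝ} (hC : 0 ≤ C)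
    {X : Matrix α α F} (hX : MLe C X) : ‖X.det‖ ≤ C ^ Fintype.card α := by
  rw [Matrix.det_apply']
  refine IsUltrametricDist.norm_sum_le_of_forall_le_of_nonneg (pow_nonneg hC _) fun σ _ => ?_
  rw [norm_mul, norm_prod]
  refine (mul_le_of_le_one_left (Finset.prod_nonneg fun _ _ => norm_nonneg _)
    (IsUltrametricDist.norm_intCast_le_one F _)).trans ?_
  rw [← Finset.card_univ, ← Finset.prod_const]
  exact Finset.prod_le_prod (fun _ _ => norm_nonneg _) fun i _ => hX _ _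

theorem Bnd.norm_det {g : GL (Fin n) F} (hg : Bnd 1 g) :
    ‖(g : Matrix (Fin n) (Fin n) F).det‖ = 1 := by
  rw [bnd_iff] at hg
  have h1 := hg.1.norm_det_le zero_le_one
  have h2 := hg.2.norm_det_le zero_le_one
  have h3 := congrArg (fun M => ‖Matrix.det M‖) g.mul_inv
  simp only [Matrix.det_mul, norm_mul, Matrix.det_one, norm_one] at h3
  rw [one_pow] at h1 h2
  exact le_antisymm h1 (h3.ge.trans (mul_le_of_le_one_right (norm_nonneg _) h2))

theorem M1_fix {s a : ℝ} (hs0 : 0 ≤ s) (hs : s < 1) (ha : 0 ≤ a) {X Y U : Matrix (Fin n) (Fin n) F}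
    (hX : MLe s X) (hY : MLe a Y) (h : U + M1_up (Y + X * U) = 0) : MLe a U := by
  let Z : Fin n → Fin n → F := fun i j => U i j
  have hZ : MLe ‖Z‖ U := fun i j => (norm_le_pi_norm (Z i) j).trans (norm_le_pi_norm Z i)
  have h0 : 0 ≤ max a (s * ‖Z‖) := le_max_of_le_left ha
  have h1 : MLe (max a (s * ‖Z‖)) U := fun i j => by
    have h2 : U i j + (if i < j then (Y + X * U) i j else 0) = 0 := congrFun (congrFun h i) j
    rw [eq_neg_of_add_eq_zero_left h2, norm_neg]
    split_ifs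
    · exact (hY.mono (le_max_left _ _)).add
        ((hX.mul hZ hs0 (norm_nonneg _)).mono (le_max_right _ _)) i j
    · rwa [norm_zero]
  have h2 : ‖Z‖ ≤ max a (s * ‖Z‖) :=
    (pi_norm_le_iff_of_nonneg h0).2 fun i => (pi_norm_le_iff_of_nonneg h0).2 (h1 i)
  refine hZ.mono ((le_max_iff.1 h2).elim id fun h3 => le_trans ?_ ha)
  nlinarith [norm_nonneg Z]

theorem exists_ldu {r : ℝ} (hr0 : 0 < r) (hr : r ≤ 1) {k : GL (Fin n) F} (hk : Near r k) :
    ∃ (l u : GL (Fin n) F) (t : Fin n → Fˣ), IsLow1 l ∧ IsUp1 u ∧ Near r l ∧ Near r u ∧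
      Near r (dg t) ∧ k = l * dg t * u := by
  obtain ⟨s, hs0, hs, hX⟩ := hk.exists_le hr0
  obtain ⟨X, e⟩ : ∃ X, (k : Matrix (Fin n) (Fin n) F) - 1 = X := ⟨_, rfl⟩
  rw [e] at hX
  have hi : Function.Injective
      (LinearMap.id + M1_up ∘ₗ LinearMap.mulLeft F X : Matrix (Fin n) (Fin n) F →ₗ[F] _) := by
    refine (injective_iff_map_eq_zero _).2 fun U hU => ?_
    have h1 := M1_fix hs0 (hs.trans_le hr) le_rfl hX (MLe.zero le_rfl) (U := U)
      (by rw [zero_add]; exact hU)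
    exact MLe.eq_zero fun ε hε => h1.mono hε.le
  obtain ⟨U, hU⟩ := LinearMap.surjective_of_injective hi (-M1_up X)
  have h1 : U + M1_up (X + X * U) = 0 := by
    rw [map_add, add_left_comm, add_eq_zero_iff_neg_eq]
    exact hU.symm
  have h2 := M1_fix hs0 (hs.trans_le hr) hs0 hX hX h1
  have h3 : ∀ i j, U i j + (if i < j then (X + X * U) i j else 0) = 0 := fun i j =>
    congrFun (congrFun h1 i) j
  obtain ⟨g, hg⟩ := exists_gl_of_mle (hs.trans_le hr) h2
  have h4 : IsUp1 g := fun i j hij => by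
    have h5 := h3 i j
    rw [if_neg hij.not_gt, add_zero] at h5
    rw [hg, Matrix.add_apply, h5, add_zero]
  have h5 : Near r g := fun i j => by
    rw [hg, add_sub_cancel_left]
    exact (h2 i j).trans_lt hs
  have h6 := hk.mul hr0 hr h5
  have h7 : ∀ i j, i < j → ((k * g : GL (Fin n) F) : Matrix (Fin n) (Fin n) F) i j = 0 := by
    intro i j hij
    have h8 := h3 i j
    rw [if_pos hij] at h8
    rw [Units.val_mul, hg, ← add_sub_cancel 1 (k : Matrix (Fin n) (Fin n) F), e,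
      add_mul, one_mul, mul_add, mul_one, add_assoc, Matrix.add_apply, Matrix.add_apply,
      Matrix.one_apply_ne hij.ne, zero_add, h8]
  have h8 : ∀ i, ((k * g : GL (Fin n) F) : Matrix (Fin n) (Fin n) F) i i ≠ 0 := fun i h => by
    have h9 := h6 i i
    rw [Matrix.sub_apply, h, Matrix.one_apply_eq, zero_sub, norm_neg, norm_one] at h9
    exact h9.not_ge hr
  have h9 : Near r (dg fun i => Units.mk0 _ (h8 i)) := (near_dg hr0 _).2 fun i => by
    simpa using h6 i i
  refine ⟨k * g * (dg fun i => Units.mk0 _ (h8 i))⁻¹, g⁻¹, _, fun i j hij => ?_, h4.inv,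
    h6.mul hr0 hr (h9.inv hr0 hr), h5.inv hr0 hr, h9, by group⟩
  rw [← dg_inv, Units.val_mul, coe_dg, Matrix.mul_diagonal]
  rcases hij.eq_or_lt with rfl | hij
  · rw [Matrix.one_apply_eq, Pi.inv_apply, Units.val_inv_eq_inv_val, Units.val_mk0,
      mul_inv_cancel₀ (h8 i)]
  · rw [h7 i j hij, zero_mul, Matrix.one_apply_ne hij.ne]

theorem up1_induction {r : ℝ} (hr0 : 0 < r) (hr : r ≤ 1) (Q : GL (Fin n) F → Prop) (h1 : Q 1)
    (hstep : ∀ (i j : Fin n) (h : i < j) (s : F) (u : GL (Fin n) F), ‖s‖ < r → IsUp1 u →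
      Near r u → Q u → Q (tv i j h.ne s * u))
    {u : GL (Fin n) F} (hu : IsUp1 u) (hn : Near r u) : Q u := by
  classical
  obtain ⟨S, hS⟩ : ∃ S : Finset (Fin n × Fin n), ∀ i j, i < j →
      (u : Matrix (Fin n) (Fin n) F) i j ≠ 0 → (i, j) ∈ S := ⟨Finset.univ, by simp⟩
  induction S using Finset.induction_on_max_value (f := fun p : Fin n × Fin n => p.1) generalizing u with
  | empty =>
    obtain rfl : u = 1 := by
      ext i j
      rcases le_or_gt j i with h | h
      · exact hu i j h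
      · rw [Units.val_one, Matrix.one_apply_ne h.ne]
        by_contra h2
        simpa using hS i j h h2
    exact h1
  | insert p S _ hm ih =>
    obtain ⟨i, j⟩ := p
    rcases le_or_gt j i with h | h
    · refine ih hu hn fun a b hab h2 => (Finset.mem_insert.1 (hS a b hab h2)).resolve_left ?_
      rintro ⟨⟩
      exact h.not_gt hab
    have h2 : ∀ b, (u : Matrix (Fin n) (Fin n) F) j b = (1 : Matrix (Fin n) (Fin n) F) j b := by
      intro b
      rcases le_or_gt b j with h3 | h3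
      · exact hu j b h3
      · rw [Matrix.one_apply_ne h3.ne]
        by_contra h4
        rcases Finset.mem_insert.1 (hS j b h3 h4) with h5 | h5
        · exact h.ne' (congrArg Prod.fst h5)
        · exact (hm _ h5).not_gt h
    have h3 : ‖(u : Matrix (Fin n) (Fin n) F) i j‖ < r := by
      simpa [h.ne] using hn i j
    have h4 := (isUp1_tv h (-(u : Matrix (Fin n) (Fin n) F) i j)).mul hu
    have h5 := ((near_tv hr0 i j h.ne _).2 (by rwa [norm_neg] :
      ‖-(u : Matrix (Fin n) (Fin n) F) i j‖ < r)).mul hr0 hr hn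
    have h6 := hstep i j h _ _ h3 h4 h5 (ih h4 h5 fun a b hab h7 => by
      rw [Units.val_mul, coe_tv] at h7
      by_cases e : a = i
      · subst e
        rw [Matrix.transvection_mul_apply_same, h2] at h7
        by_cases e : j = b
        · subst e
          simp at h7
        · rw [Matrix.one_apply_ne e, mul_zero, add_zero] at h7
          exact (Finset.mem_insert.1 (hS a b hab h7)).resolve_left
            fun h8 => e (congrArg Prod.snd h8).symm
      · rw [Matrix.transvection_mul_apply_of_ne _ _ _ _ e] at h7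
        exact (Finset.mem_insert.1 (hS a b hab h7)).resolve_left
          fun h8 => e (congrArg Prod.fst h8))
    rwa [tv_neg, mul_inv_cancel_left] at h6

theorem low1_induction {r : ℝ} (hr0 : 0 < r) (hr : r ≤ 1) (Q : GL (Fin n) F → Prop) (h1 : Q 1)
    (hstep : ∀ (i j : Fin n) (h : j < i) (s : F) (u : GL (Fin n) F), ‖s‖ < r → IsLow1 u →
      Near r u → Q u → Q (u * tv i j h.ne' s))
    {u : GL (Fin n) F} (hu : IsLow1 u) (hn : Near r u) : Q u := by
  have e : tr (1 : GL (Fin n) F) = 1 := Units.ext Matrix.transpose_one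
  refine up1_induction hr0 hr (fun g => Q (tr g)) (by rwa [e]) (fun i j h s v hs hv hv' hq => ?_)
    (isLow1_iff.1 hu) hn.tr
  rw [tr_mul, M1_tr_tv]
  exact hstep j i h s _ hs (isLow1_iff.2 hv) hv'.tr hq

end Pool.Agent.MP_4d0c14_b

end

section

/-!
Statement-level definitions for the Breuil-Schneider conjecture for GL(2, F):
algebraic representations, smooth characters, smooth principal series.
-/

namespace Pool.Agent.MP_4d0c14_nt

open scoped TensorProduct
open MvPolynomial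

/-- The linear substitution `X j ↦ ∑ i, g i j * X i` on polynomials in two variables. -/
noncomputable def subst {E : Type*} [Field E] (g : Matrix (Fin 2) (Fin 2) E) :
    MvPolynomial (Fin 2) E →ₐ[E] MvPolynomial (Fin 2) E :=
  aeval fun j => ∑ i, C (g i j) * X i

theorem subst_mem {E : Type*} [Field E] (g : Matrix (Fin 2) (Fin 2) E) (d : ℕ)
    (P : MvPolynomial (Fin 2) E) (hP : P ∈ homogeneousSubmodule (Fin 2) E d) :
    (subst g).toLinearMap P ∈ homogeneousSubmodule (Fin 2) E d := by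
  rw [mem_homogeneousSubmodule] at hP ⊢
  have h : ∀ j, (∑ i, C (g i j) * X i : MvPolynomial (Fin 2) E).IsHomogeneous 1 := fun j =>
    IsHomogeneous.sum _ _ _ fun i _ => (isHomogeneous_X E i).C_mul _
  simpa [subst] using hP.aeval _ h

theorem subst_one {E : Type*} [Field E] :
    subst (1 : Matrix (Fin 2) (Fin 2) E) = AlgHom.id E _ := by
  apply MvPolynomial.algHom_ext
  intro j
  fin_cases j <;> simp [subst, Fin.sum_univ_two]

theorem subst_mul {E : Type*} [Field E] (g h : Matrix (Fin 2) (Fin 2) E) :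
    subst (g * h) = (subst g).comp (subst h) := by
  apply MvPolynomial.algHom_ext
  intro j
  simp only [subst, AlgHom.comp_apply, aeval_X, map_add, map_mul, aeval_C, Fin.sum_univ_two,
    Matrix.mul_apply, algebraMap_eq]
  ring

/-- `GL(2, F)` acts on polynomials in two variables over `E` by
`g • P = κ(det g)^m * P(substituted by κ(g))`. -/
noncomputable def polyRep {F E : Type} [Field F] [Field E] (κ : F →+* E) (m : ℤ) :
    Representation E (GL (Fin 2) F) (MvPolynomial (Fin 2) E) where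
  toFun g := (κ (g : Matrix (Fin 2) (Fin 2) F).det) ^ m •
    (subst ((g : Matrix (Fin 2) (Fin 2) F).map κ)).toLinearMap
  map_one' := by
    refine LinearMap.ext fun P => ?_
    simp [subst_one]
  map_mul' g h := by
    refine LinearMap.ext fun P => ?_
    simp [Matrix.map_mul, subst_mul, mul_zpow, smul_smul, mul_comm]

theorem polyRep_le {F E : Type} [Field F] [Field E] (κ : F →+* E) (d : ℕ) (m : ℤ)
    (g : GL (Fin 2) F) :
    homogeneousSubmodule (Fin 2) E d ≤ (homogeneousSubmodule (Fin 2) E d).comap (polyRep κ m g) :=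
  fun P hP => Submodule.smul_mem _ _ (subst_mem _ d P hP)

/-- `(Sym^d ⊗ det^m) ∘ κ`, realised on binary forms of degree `d`. -/
noncomputable def symDet {F E : Type} [Field F] [Field E] (κ : F →+* E) (d : ℕ) (m : ℤ) :
    Rep E (GL (Fin 2) F) :=
  Rep.of ((polyRep κ m).subrepresentation (homogeneousSubmodule (Fin 2) E d) (polyRep_le κ d m))

theorem piMap_one {ι G E : Type} [Monoid G] [Field E] (A : ι → Rep E G) :
    (PiTensorProduct.map fun i => (A i).ρ 1) = 1 := by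
  simp only [map_one]
  exact PiTensorProduct.map_one

theorem piMap_mul {ι G E : Type} [Monoid G] [Field E] (A : ι → Rep E G) (g h : G) :
    (PiTensorProduct.map fun i => (A i).ρ (g * h)) =
      (PiTensorProduct.map fun i => (A i).ρ g) * PiTensorProduct.map fun i => (A i).ρ h := by
  simp only [map_mul]
  exact PiTensorProduct.map_mul _ _

/-- The tensor product of a family of representations. -/
noncomputable def piRep {ι G E : Type} [Monoid G] [Field E] (A : ι → Rep E G) : Rep E G :=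
  Rep.of (X := ⨂[E] i, (A i).V)
    { toFun := fun g => PiTensorProduct.map fun i => (A i).ρ g
      map_one' := piMap_one A
      map_mul' := piMap_mul A }

/-- The algebraic representation `⊗_κ (Sym^(d κ) ⊗ det^(m κ)) ∘ κ` of `GL(2, F)` over `E`, the
tensor product running over all `K`-embeddings `κ : F → E`. -/
noncomputable def algebraicRep {K F E : Type} [Field K] [Field F] [Field E] [Algebra K F]
    [Algebra K E] (d : (F →ₐ[K] E) → ℕ) (m : (F →ₐ[K] E) → ℤ) : Rep E (GL (Fin 2) F) :=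
  piRep fun κ : F →ₐ[K] E => symDet κ.toRingHom (d κ) (m κ)

/-- A character of `Fˣ` is smooth if it is trivial near `1`. -/
def IsSmoothChar {F E : Type*} [NormedField F] [Field E] (χ : Fˣ →* Eˣ) : Prop :=
  ∃ r : ℝ, 0 < r ∧ ∀ x : Fˣ, ‖(x : F) - 1‖ < r → χ x = 1

/-- All entries of `k - 1` have norm less than `r`. -/
def Near {F : Type*} [NormedField F] (r : ℝ) (k : GL (Fin 2) F) : Prop :=
  ∀ i j, ‖((k : Matrix (Fin 2) (Fin 2) F) - 1) i j‖ < r

theorem Near.mono {F : Type*} [NormedField F] {r s : ℝ} {k : GL (Fin 2) F} (h : Near r k)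
    (hrs : r ≤ s) : Near s k := fun i j => (h i j).trans_le hrs

theorem exists_small_mul {F : Type*} [NormedField F] (A B : Matrix (Fin 2) (Fin 2) F) {r : ℝ}
    (hr : 0 < r) : ∃ s : ℝ, 0 < s ∧ ∀ Y : Matrix (Fin 2) (Fin 2) F, (∀ i j, ‖Y i j‖ < s) →
      ∀ i j, ‖(A * Y * B) i j‖ < r := by
  have hnn : ∀ i a b j, 0 ≤ ‖A i a‖ * ‖B b j‖ := fun _ _ _ _ =>
    mul_nonneg (norm_nonneg _) (norm_nonneg _)
  obtain ⟨T, hT⟩ := (Set.finite_range
    fun x : Fin 2 × Fin 2 => ∑ a, ∑ b, ‖A x.1 a‖ * ‖B b x.2‖).bddAbove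
  have h3 : ∀ i j, ∑ a, ∑ b, ‖A i a‖ * ‖B b j‖ ≤ T := fun i j => hT ⟨(i, j), rfl⟩
  have hT0 : 0 ≤ T := le_trans (Finset.sum_nonneg fun a _ => Finset.sum_nonneg fun b _ =>
    hnn 0 a b 0) (h3 0 0)
  have hs : 0 < r / (T + 1) := div_pos hr (by linarith)
  refine ⟨r / (T + 1), hs, fun Y hY i j => ?_⟩
  have h2 : (A * Y * B) i j = ∑ a, ∑ b, A i a * Y a b * B b j := by
    simp only [Matrix.mul_apply, Finset.sum_mul]
    exact Finset.sum_comm
  calc ‖(A * Y * B) i j‖ ≤ ∑ a, ∑ b, ‖A i a‖ * ‖B b j‖ * (r / (T + 1)) := by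
        rw [h2]
        refine (norm_sum_le _ _).trans (Finset.sum_le_sum fun a _ =>
          (norm_sum_le _ _).trans (Finset.sum_le_sum fun b _ => ?_))
        rw [norm_mul, norm_mul]
        calc ‖A i a‖ * ‖Y a b‖ * ‖B b j‖ = ‖A i a‖ * ‖B b j‖ * ‖Y a b‖ := by ring
          _ ≤ _ := mul_le_mul_of_nonneg_left (hY a b).le (hnn _ _ _ _)
    _ = (∑ a, ∑ b, ‖A i a‖ * ‖B b j‖) * (r / (T + 1)) := by simp only [Finset.sum_mul]
    _ ≤ T * (r / (T + 1)) := mul_le_mul_of_nonneg_right (h3 i j) hs.le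
    _ < (T + 1) * (r / (T + 1)) := mul_lt_mul_of_pos_right (by linarith) hs
    _ = r := by field_simp

theorem exists_near_conj {F : Type*} [NormedField F] (g : GL (Fin 2) F) {r : ℝ} (hr : 0 < r) :
    ∃ s : ℝ, 0 < s ∧ ∀ k : GL (Fin 2) F, Near s k → Near r (g⁻¹ * k * g) := by
  obtain ⟨s, hs, h⟩ := exists_small_mul ((g⁻¹ : GL (Fin 2) F) : Matrix (Fin 2) (Fin 2) F)
    (g : Matrix (Fin 2) (Fin 2) F) hr
  refine ⟨s, hs, fun k hk i j => ?_⟩
  have h1 := h _ hk i j
  rwa [Matrix.mul_sub, Matrix.sub_mul, Matrix.mul_one, ← Units.val_mul, ← Units.val_mul,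
    ← Units.val_mul, inv_mul_cancel, Units.val_one] at h1

/-- The space of the smooth (unnormalised) principal series `Ind_B^G (χ₁ ⊗ χ₂)`: functions
`f : GL(2, F) → E` with `f (b g) = χ₁(a) χ₂(d) f g` for upper triangular `b` with diagonal `(a, d)`,
and right invariant under all `k` close enough to `1`. -/
def psSpace {F E : Type*} [NormedField F] [Field E] (χ₁ χ₂ : Fˣ →* Eˣ) :
    Submodule E (GL (Fin 2) F → E) where
  carrier := {f | (∀ (b g : GL (Fin 2) F) (a d : Fˣ),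
      (b : Matrix (Fin 2) (Fin 2) F) 0 0 = a → (b : Matrix (Fin 2) (Fin 2) F) 1 1 = d →
      (b : Matrix (Fin 2) (Fin 2) F) 1 0 = 0 → f (b * g) = (χ₁ a : E) * (χ₂ d : E) * f g) ∧
    ∃ r : ℝ, 0 < r ∧ ∀ k g : GL (Fin 2) F, Near r k → f (g * k) = f g}
  zero_mem' := ⟨by simp, 1, one_pos, by simp⟩
  add_mem' := by
    rintro f f' ⟨hf, r, hr, hfr⟩ ⟨hf', r', hr', hfr'⟩
    refine ⟨fun b g a d h1 h2 h3 => ?_, min r r', lt_min hr hr', fun k g hk => ?_⟩
    · simp only [Pi.add_apply, hf b g a d h1 h2 h3, hf' b g a d h1 h2 h3, mul_add]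
    · simp only [Pi.add_apply, hfr k g (hk.mono (min_le_left _ _)),
        hfr' k g (hk.mono (min_le_right _ _))]
  smul_mem' := by
    rintro c f ⟨hf, r, hr, hfr⟩
    refine ⟨fun b g a d h1 h2 h3 => ?_, r, hr, fun k g hk => ?_⟩
    · simp only [Pi.smul_apply, smul_eq_mul, hf b g a d h1 h2 h3]
      ring
    · simp only [Pi.smul_apply, hfr k g hk]

theorem translate_mem {F E : Type*} [NormedField F] [Field E] {χ₁ χ₂ : Fˣ →* Eˣ}
    (γ : GL (Fin 2) F) {f : GL (Fin 2) F → E} (hf : f ∈ psSpace χ₁ χ₂) :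
    (fun x => f (x * γ)) ∈ psSpace χ₁ χ₂ := by
  obtain ⟨hf, r, hr, hfr⟩ := hf
  obtain ⟨s, hs, hsr⟩ := exists_near_conj γ hr
  refine ⟨fun b g a d h1 h2 h3 => ?_, s, hs, fun k g hk => ?_⟩
  · simp only [mul_assoc b, hf b _ a d h1 h2 h3]
  · have := hfr _ (g * γ) (hsr k hk)
    simpa [mul_assoc] using this

/-- Right translation on all functions `G → E`. -/
def rightReg (G E : Type) [Monoid G] [Field E] : Representation E G (G → E) where
  toFun γ := LinearMap.funLeft E E fun x => x * γ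
  map_one' := by
    ext f x
    simp [LinearMap.funLeft_apply]
  map_mul' g h := by
    ext f x
    simp [LinearMap.funLeft_apply, mul_assoc]

/-- Right translation on an invariant space of functions. -/
noncomputable def subRight {G E : Type} [Monoid G] [Field E] (W : Submodule E (G → E))
    (hW : ∀ γ, W ≤ W.comap (rightReg G E γ)) : Rep E G :=
  Rep.of ((rightReg G E).subrepresentation W hW)

theorem psSpace_le {F E : Type} [NormedField F] [Field E] (χ₁ χ₂ : Fˣ →* Eˣ) (γ : GL (Fin 2) F) :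
    psSpace χ₁ χ₂ ≤ (psSpace χ₁ χ₂).comap (rightReg (GL (Fin 2) F) E γ) :=
  fun _ hf => translate_mem γ hf

/-- The smooth principal series `Ind_B^G (χ₁ ⊗ χ₂)`, with `GL(2, F)` acting by right
translation. -/
noncomputable def principalSeries {F E : Type} [NormedField F] [Field E] (χ₁ χ₂ : Fˣ →* Eˣ) :
    Rep E (GL (Fin 2) F) :=
  subRight (psSpace χ₁ χ₂) (psSpace_le χ₁ χ₂)

/-- The tensor product `A ⊗ B` carries a `G`-invariant non-archimedean norm. -/
def HasInvariantNorm {G E : Type} [Monoid G] [NormedField E] (A B : Rep E G) : Prop :=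
  ∃ N : A.V ⊗[E] B.V → ℝ, (∀ x, 0 ≤ N x) ∧ (∀ x, N x = 0 → x = 0) ∧
    (∀ (c : E) x, N (c • x) = ‖c‖ * N x) ∧ (∀ x y, N (x + y) ≤ max (N x) (N y)) ∧
    ∀ g x, N (A.ρ.tprod B.ρ g x) = N x

end Pool.Agent.MP_4d0c14_nt

end

section

/-! Unbundled versions of the representations, used in the proof. -/

namespace Pool.Agent.MP_4d0c14_nt

open scoped TensorProduct
open MvPolynomial

/-- `(Sym^d ⊗ det^m) ∘ κ`: the group `GL(2, F)` acts on binary forms of degree `d` over `E` by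
`g • P = κ(det g)^m * P(substituted by κ(g))`. -/
noncomputable def symRep {F E : Type*} [Field F] [Field E] (κ : F →+* E) (d : ℕ) (m : ℤ) :
    Representation E (GL (Fin 2) F) (homogeneousSubmodule (Fin 2) E d) where
  toFun g := (κ (g : Matrix (Fin 2) (Fin 2) F).det) ^ m •
    (subst ((g : Matrix (Fin 2) (Fin 2) F).map κ)).toLinearMap.restrict (subst_mem _ d)
  map_one' := by
    ext P : 2
    simp [subst_one]
  map_mul' g h := by
    ext P : 2
    simp [Matrix.map_mul, subst_mul, mul_zpow, smul_smul, mul_comm]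

/-- The algebraic representation `⊗_κ (Sym^(d κ) ⊗ det^(m κ)) ∘ κ` of `GL(2, F)` over `E`, the
tensor product running over all `K`-embeddings `κ : F → E`. -/
noncomputable def algRep {K F E : Type*} [Field K] [Field F] [Field E] [Algebra K F] [Algebra K E]
    (d : (F →ₐ[K] E) → ℕ) (m : (F →ₐ[K] E) → ℤ) :
    Representation E (GL (Fin 2) F)
      (⨂[E] κ : F →ₐ[K] E, homogeneousSubmodule (Fin 2) E (d κ)) where
  toFun g := PiTensorProduct.map fun κ : F →ₐ[K] E => symRep (κ : F →+* E) (d κ) (m κ) g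
  map_one' := by
    simp only [map_one]
    exact PiTensorProduct.map_one
  map_mul' g h := by
    simp only [map_mul]
    exact PiTensorProduct.map_mul _ _

/-- The smooth principal series `Ind_B^G (χ₁ ⊗ χ₂)`, with `GL(2, F)` acting by right
translation. -/
def psRep {F E : Type*} [NormedField F] [Field E] (χ₁ χ₂ : Fˣ →* Eˣ) :
    Representation E (GL (Fin 2) F) (psSpace χ₁ χ₂) where
  toFun γ :=
    { toFun := fun f => ⟨fun x => f.1 (x * γ), translate_mem γ f.2⟩
      map_add' := fun _ _ => rfl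
      map_smul' := fun _ _ => rfl }
  map_one' := by
    ext f x
    simp
  map_mul' g h := by
    ext f x
    simp [mul_assoc]

end Pool.Agent.MP_4d0c14_nt

end

section

/-! Entries of elements of `GL(2, F)` and some standard elements. -/

namespace Pool.Agent.MP_4d0c14_nt

section Field

variable {F : Type*} [Field F]

/-- upper left entry -/
def ea (g : GL (Fin 2) F) : F := (g : Matrix (Fin 2) (Fin 2) F) 0 0
/-- upper right entry -/
def eb (g : GL (Fin 2) F) : F := (g : Matrix (Fin 2) (Fin 2) F) 0 1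
/-- lower left entry -/
def ec (g : GL (Fin 2) F) : F := (g : Matrix (Fin 2) (Fin 2) F) 1 0
/-- lower right entry -/
def ed (g : GL (Fin 2) F) : F := (g : Matrix (Fin 2) (Fin 2) F) 1 1
/-- determinant -/
def dt (g : GL (Fin 2) F) : F := ea g * ed g - eb g * ec g

theorem dt_eq_det (g : GL (Fin 2) F) : dt g = (g : Matrix (Fin 2) (Fin 2) F).det := by
  rw [Matrix.det_fin_two]; rfl

theorem dt_ne_zero (g : GL (Fin 2) F) : dt g ≠ 0 := by
  rw [dt_eq_det]; exact Matrix.GeneralLinearGroup.det_ne_zero g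

theorem gl_ext {g h : GL (Fin 2) F} (h1 : ea g = ea h) (h2 : eb g = eb h) (h3 : ec g = ec h)
    (h4 : ed g = ed h) : g = h := by
  apply Units.ext
  ext i j
  fin_cases i <;> fin_cases j
  exacts [h1, h2, h3, h4]

@[simp] theorem ea_mul (g h : GL (Fin 2) F) : ea (g * h) = ea g * ea h + eb g * ec h := by
  simp [ea, eb, ec, Matrix.mul_apply, Fin.sum_univ_two]
@[simp] theorem eb_mul (g h : GL (Fin 2) F) : eb (g * h) = ea g * eb h + eb g * ed h := by
  simp [ea, eb, ed, Matrix.mul_apply, Fin.sum_univ_two]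
@[simp] theorem ec_mul (g h : GL (Fin 2) F) : ec (g * h) = ec g * ea h + ed g * ec h := by
  simp [ea, ec, ed, Matrix.mul_apply, Fin.sum_univ_two]
@[simp] theorem ed_mul (g h : GL (Fin 2) F) : ed (g * h) = ec g * eb h + ed g * ed h := by
  simp [eb, ec, ed, Matrix.mul_apply, Fin.sum_univ_two]
@[simp] theorem dt_mul (g h : GL (Fin 2) F) : dt (g * h) = dt g * dt h := by
  simp only [dt, ea_mul, eb_mul, ec_mul, ed_mul]; ring

@[simp] theorem ea_one : ea (1 : GL (Fin 2) F) = 1 := by simp [ea]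
@[simp] theorem eb_one : eb (1 : GL (Fin 2) F) = 0 := by simp [eb]
@[simp] theorem ec_one : ec (1 : GL (Fin 2) F) = 0 := by simp [ec]
@[simp] theorem ed_one : ed (1 : GL (Fin 2) F) = 1 := by simp [ed]
@[simp] theorem dt_one : dt (1 : GL (Fin 2) F) = 1 := by simp [dt]

/-- The element with entries `a, b, c, d`. -/
noncomputable def mkGL (a b c d : F) (h : a * d - b * c ≠ 0) : GL (Fin 2) F :=
  Matrix.GeneralLinearGroup.mkOfDetNeZero !![a, b; c, d] (by rwa [Matrix.det_fin_two_of])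

@[simp] theorem ea_mkGL (a b c d : F) (h) : ea (mkGL a b c d h) = a := rfl
@[simp] theorem eb_mkGL (a b c d : F) (h) : eb (mkGL a b c d h) = b := rfl
@[simp] theorem ec_mkGL (a b c d : F) (h) : ec (mkGL a b c d h) = c := rfl
@[simp] theorem ed_mkGL (a b c d : F) (h) : ed (mkGL a b c d h) = d := rfl

theorem inv_eq_mkGL (g : GL (Fin 2) F) : g⁻¹ = mkGL (ed g / dt g) (-eb g / dt g) (-ec g / dt g)
    (ea g / dt g) (by
      have := dt_ne_zero g
      have h : ed g / dt g * (ea g / dt g) - -eb g / dt g * (-ec g / dt g) = (dt g)⁻¹ := by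
        field_simp; simp only [dt]; ring
      rw [h]; exact inv_ne_zero this) := by
  have := dt_ne_zero g
  rw [inv_eq_iff_mul_eq_one]
  apply gl_ext <;> simp <;> field_simp <;> simp only [dt] <;> ring

@[simp] theorem ea_inv (g : GL (Fin 2) F) : ea g⁻¹ = ed g / dt g := by rw [inv_eq_mkGL]; rfl
@[simp] theorem eb_inv (g : GL (Fin 2) F) : eb g⁻¹ = -eb g / dt g := by rw [inv_eq_mkGL]; rfl
@[simp] theorem ec_inv (g : GL (Fin 2) F) : ec g⁻¹ = -ec g / dt g := by rw [inv_eq_mkGL]; rfl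
@[simp] theorem ed_inv (g : GL (Fin 2) F) : ed g⁻¹ = ea g / dt g := by rw [inv_eq_mkGL]; rfl
@[simp] theorem dt_inv (g : GL (Fin 2) F) : dt g⁻¹ = (dt g)⁻¹ := by
  have h := dt_mul g⁻¹ g
  rw [inv_mul_cancel, dt_one] at h
  exact eq_inv_of_mul_eq_one_left h.symm

/-- upper unipotent element -/
noncomputable def uu (x : F) : GL (Fin 2) F := mkGL 1 x 0 1 (by simp)
/-- lower unipotent element -/
noncomputable def ll (x : F) : GL (Fin 2) F := mkGL 1 0 x 1 (by simp)
/-- diagonal element -/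
noncomputable def dg (a d : Fˣ) : GL (Fin 2) F := mkGL (a : F) 0 0 (d : F) (by simp)
/-- transpose -/
noncomputable def tr (g : GL (Fin 2) F) : GL (Fin 2) F :=
  mkGL (ea g) (ec g) (eb g) (ed g) (by have := dt_ne_zero g; rwa [dt, mul_comm (eb g)] at this)

@[simp] theorem ea_uu (x : F) : ea (uu x) = 1 := rfl
@[simp] theorem eb_uu (x : F) : eb (uu x) = x := rfl
@[simp] theorem ec_uu (x : F) : ec (uu x) = 0 := rfl
@[simp] theorem ed_uu (x : F) : ed (uu x) = 1 := rfl
@[simp] theorem dt_uu (x : F) : dt (uu x) = 1 := by simp [dt]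
@[simp] theorem ea_ll (x : F) : ea (ll x) = 1 := rfl
@[simp] theorem eb_ll (x : F) : eb (ll x) = 0 := rfl
@[simp] theorem ec_ll (x : F) : ec (ll x) = x := rfl
@[simp] theorem ed_ll (x : F) : ed (ll x) = 1 := rfl
@[simp] theorem dt_ll (x : F) : dt (ll x) = 1 := by simp [dt]
@[simp] theorem ea_dg (a d : Fˣ) : ea (dg a d) = a := rfl
@[simp] theorem eb_dg (a d : Fˣ) : eb (dg a d) = 0 := rfl
@[simp] theorem ec_dg (a d : Fˣ) : ec (dg a d) = 0 := rfl
@[simp] theorem ed_dg (a d : Fˣ) : ed (dg a d) = d := rfl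
@[simp] theorem dt_dg (a d : Fˣ) : dt (dg a d) = a * d := by simp [dt]
@[simp] theorem ea_tr (g : GL (Fin 2) F) : ea (tr g) = ea g := rfl
@[simp] theorem eb_tr (g : GL (Fin 2) F) : eb (tr g) = ec g := rfl
@[simp] theorem ec_tr (g : GL (Fin 2) F) : ec (tr g) = eb g := rfl
@[simp] theorem ed_tr (g : GL (Fin 2) F) : ed (tr g) = ed g := rfl
@[simp] theorem dt_tr (g : GL (Fin 2) F) : dt (tr g) = dt g := by simp [dt, mul_comm]

theorem tr_mul (g h : GL (Fin 2) F) : tr (g * h) = tr h * tr g := by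
  apply gl_ext <;> simp <;> ring

theorem tr_tr (g : GL (Fin 2) F) : tr (tr g) = g := by
  apply gl_ext <;> simp

theorem tr_one : tr (1 : GL (Fin 2) F) = 1 := by
  apply gl_ext <;> simp

theorem uu_add (x y : F) : uu (x + y) = uu x * uu y := by
  apply gl_ext <;> simp [add_comm]

theorem ll_add (x y : F) : ll (x + y) = ll x * ll y := by
  apply gl_ext <;> simp

theorem uu_zero : uu (0 : F) = 1 := by apply gl_ext <;> simp

theorem ll_zero : ll (0 : F) = 1 := by apply gl_ext <;> simp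

theorem uu_inv (x : F) : (uu x)⁻¹ = uu (-x) := by apply gl_ext <;> simp

theorem ll_inv (x : F) : (ll x)⁻¹ = ll (-x) := by apply gl_ext <;> simp

theorem dg_mul (a d a' d' : Fˣ) : dg (a * a') (d * d') = dg a d * dg a' d' := by
  apply gl_ext <;> simp

theorem dg_one : dg (1 : Fˣ) 1 = 1 := by apply gl_ext <;> simp

theorem dg_inv (a d : Fˣ) : (dg a d)⁻¹ = dg a⁻¹ d⁻¹ := by
  rw [inv_eq_iff_mul_eq_one, ← dg_mul, mul_inv_cancel, mul_inv_cancel, dg_one]

theorem coe_eq (g : GL (Fin 2) F) :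
    (g : Matrix (Fin 2) (Fin 2) F) = !![ea g, eb g; ec g, ed g] := by
  ext i j; fin_cases i <;> fin_cases j <;> rfl

end Field

section Normed

variable {F : Type*} [NormedField F]

theorem near_iff (r : ℝ) (k : GL (Fin 2) F) :
    Near r k ↔ ‖ea k - 1‖ < r ∧ ‖eb k‖ < r ∧ ‖ec k‖ < r ∧ ‖ed k - 1‖ < r := by
  simp [Near, Fin.forall_fin_two, ea, eb, ec, ed, and_assoc]

/-- `k ∈ GL(2, O)`. -/
def IsInt (k : GL (Fin 2) F) : Prop :=
  ‖ea k‖ ≤ 1 ∧ ‖eb k‖ ≤ 1 ∧ ‖ec k‖ ≤ 1 ∧ ‖ed k‖ ≤ 1 ∧ ‖dt k‖ = 1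

end Normed

end Pool.Agent.MP_4d0c14_nt

end

section

/-! The local data: uniformiser, level, residue representatives, the group `H = K_0(ϖ^c) Z`. -/

namespace Pool.Agent.MP_4d0c14_nt

open Classical in
/-- Extension by zero of a character of `Fˣ`. -/
noncomputable def ch {F E : Type*} [Field F] [Field E] (χ : Fˣ →* Eˣ) (x : F) : E :=
  if h : x = 0 then 0 else (χ (Units.mk0 x h) : E)

section ch

variable {F E : Type*} [Field F] [Field E] (χ : Fˣ →* Eˣ)

@[simp] theorem ch_units (a : Fˣ) : ch χ (a : F) = χ a := by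
  simp [ch]

@[simp] theorem ch_zero : ch χ (0 : F) = 0 := by simp [ch]

@[simp] theorem ch_one : ch χ (1 : F) = 1 := by simpa using ch_units χ 1

theorem ch_mul (x y : F) : ch χ (x * y) = ch χ x * ch χ y := by
  by_cases hx : x = 0
  · simp [hx]
  by_cases hy : y = 0
  · simp [hy]
  have := ch_units χ (Units.mk0 x hx * Units.mk0 y hy)
  rw [map_mul, Units.val_mul, Units.val_mul, ← ch_units, ← ch_units] at this
  simpa using this

theorem ch_ne_zero {x : F} (hx : x ≠ 0) : ch χ x ≠ 0 := by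
  simp [ch, hx]

theorem ch_inv (x : F) : ch χ x⁻¹ = (ch χ x)⁻¹ := by
  by_cases hx : x = 0
  · simp [hx]
  apply eq_inv_of_mul_eq_one_left
  rw [← ch_mul, inv_mul_cancel₀ hx, ch_one]

theorem ch_div (x y : F) : ch χ (x / y) = ch χ x / ch χ y := by
  rw [div_eq_mul_inv, ch_mul, ch_inv, div_eq_mul_inv]

end ch

/-- Local data. -/
structure LD (F E : Type*) [NormedField F] [Field E] where
  ϖ : Fˣ
  c : ℕ
  R : Finset F
  χ₁ : Fˣ →* Eˣ
  χ₂ : Fˣ →* Eˣ
  ϖ_lt : ‖(ϖ : F)‖ < 1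
  ϖ_max : ∀ x : F, ‖x‖ < 1 → ‖x‖ ≤ ‖(ϖ : F)‖
  c_pos : 1 ≤ c
  ch₁ : ∀ y : F, ‖y‖ ≤ ‖(ϖ : F)‖ ^ c → ch χ₁ (1 + y) = 1
  ch₂ : ∀ y : F, ‖y‖ ≤ ‖(ϖ : F)‖ ^ c → ch χ₂ (1 + y) = 1
  R_le : ∀ r ∈ R, ‖r‖ ≤ 1
  R_rep : ∀ x : F, ‖x‖ ≤ 1 → ∃! r, r ∈ R ∧ ‖x - r‖ ≤ ‖(ϖ : F)‖

namespace LD

variable {F E : Type*} [NormedField F] [IsUltrametricDist F] [Field E] (D : LD F E)

omit [IsUltrametricDist F] in
theorem ϖ_pos : 0 < ‖(D.ϖ : F)‖ := norm_pos_iff.2 D.ϖ.ne_zero

omit [IsUltrametricDist F] in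
theorem ϖc_lt : ‖(D.ϖ : F)‖ ^ D.c < 1 :=
  pow_lt_one₀ (norm_nonneg _) D.ϖ_lt (by have := D.c_pos; omega)

omit [IsUltrametricDist F] in
theorem ϖc_pos : 0 < ‖(D.ϖ : F)‖ ^ D.c := pow_pos D.ϖ_pos _

/-- Membership in `K_0(ϖ^c) Z`. -/
def InH (h : GL (Fin 2) F) : Prop :=
  ‖eb h‖ ≤ ‖ea h‖ ∧ ‖ec h‖ ≤ ‖(D.ϖ : F)‖ ^ D.c * ‖ea h‖ ∧ ‖dt h‖ = ‖ea h‖ ^ 2

omit [IsUltrametricDist F] in
theorem InH.ea_pos {D : LD F E} {h : GL (Fin 2) F} (hh : D.InH h) : 0 < ‖ea h‖ := by
  have h1 : 0 < ‖dt h‖ := norm_pos_iff.2 (dt_ne_zero h)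
  rw [hh.2.2] at h1
  rcases (norm_nonneg (ea h)).eq_or_lt with h0 | h0
  · rw [← h0] at h1; simp at h1
  · exact h0

omit [IsUltrametricDist F] in
theorem InH.bc_le {D : LD F E} {h : GL (Fin 2) F} (hh : D.InH h) :
    ‖eb h * ec h‖ ≤ ‖(D.ϖ : F)‖ ^ D.c * ‖ea h‖ ^ 2 := by
  rw [norm_mul]
  calc ‖eb h‖ * ‖ec h‖ ≤ ‖ea h‖ * (‖(D.ϖ : F)‖ ^ D.c * ‖ea h‖) :=
        mul_le_mul hh.1 hh.2.1 (norm_nonneg _) (norm_nonneg _)
    _ = _ := by ring

theorem InH.norm_ed {D : LD F E} {h : GL (Fin 2) F} (hh : D.InH h) : ‖ed h‖ = ‖ea h‖ := by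
  have ha := hh.ea_pos
  have h1 : ‖eb h * ec h‖ < ‖dt h‖ := by
    rw [hh.2.2]
    refine hh.bc_le.trans_lt ?_
    have := D.ϖc_lt
    have h2 : 0 < ‖ea h‖ ^ 2 := by positivity
    nlinarith
  have h2 : ea h * ed h = dt h + eb h * ec h := by simp [dt]
  have h3 : ‖ea h * ed h‖ = ‖dt h‖ := by
    rw [h2, IsUltrametricDist.norm_add_eq_max_of_norm_ne_norm h1.ne', max_eq_left h1.le]
  rw [norm_mul, hh.2.2, sq] at h3
  exact mul_left_cancel₀ ha.ne' h3

theorem InH.norm_ea_mul {D : LD F E} {h k : GL (Fin 2) F} (hh : D.InH h) (hk : D.InH k) :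
    ‖ea (h * k)‖ = ‖ea h‖ * ‖ea k‖ := by
  have ha := hh.ea_pos
  have hb := hk.ea_pos
  have h1 : ‖eb h * ec k‖ < ‖ea h * ea k‖ := by
    rw [norm_mul, norm_mul]
    calc ‖eb h‖ * ‖ec k‖ ≤ ‖ea h‖ * (‖(D.ϖ : F)‖ ^ D.c * ‖ea k‖) :=
          mul_le_mul hh.1 hk.2.1 (norm_nonneg _) (norm_nonneg _)
      _ < ‖ea h‖ * (1 * ‖ea k‖) := by
          have := D.ϖc_lt
          gcongr
      _ = _ := by ring
  rw [ea_mul, IsUltrametricDist.norm_add_eq_max_of_norm_ne_norm h1.ne', max_eq_left h1.le,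
    norm_mul]

/-- The group `H = K_0(ϖ^c) Z`. -/
def H : Subgroup (GL (Fin 2) F) where
  carrier := {h | D.InH h}
  one_mem' := by
    have := D.ϖc_pos
    simp [InH, this.le]
  mul_mem' := by
    intro h k hh hk
    have hh : D.InH h := hh
    have hk : D.InH k := hk
    have e := hh.norm_ea_mul hk
    refine ⟨?_, ?_, ?_⟩
    · rw [e, eb_mul]
      refine (IsUltrametricDist.norm_add_le_max _ _).trans (max_le ?_ ?_)
      · rw [norm_mul]; exact mul_le_mul_of_nonneg_left hk.1 (norm_nonneg _)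
      · rw [norm_mul, hk.norm_ed]; exact mul_le_mul_of_nonneg_right hh.1 (norm_nonneg _)
    · rw [e, ec_mul]
      refine (IsUltrametricDist.norm_add_le_max _ _).trans (max_le ?_ ?_)
      · rw [norm_mul, ← mul_assoc]; exact mul_le_mul_of_nonneg_right hh.2.1 (norm_nonneg _)
      · rw [norm_mul, hh.norm_ed, mul_left_comm]
        exact mul_le_mul_of_nonneg_left hk.2.1 (norm_nonneg _)
    · rw [e, dt_mul, norm_mul, hh.2.2, hk.2.2, mul_pow]
  inv_mem' := by
    intro h hh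
    have hh : D.InH h := hh
    have ha := hh.ea_pos
    refine ⟨?_, ?_, ?_⟩
    · simp only [eb_inv, ea_inv, norm_div, norm_neg, hh.norm_ed]
      exact div_le_div_of_nonneg_right hh.1 (norm_nonneg _)
    · simp only [ec_inv, ea_inv, norm_div, norm_neg, hh.norm_ed, ← mul_div_assoc]
      exact div_le_div_of_nonneg_right hh.2.1 (norm_nonneg _)
    · simp only [dt_inv, ea_inv, norm_div, norm_inv, hh.norm_ed, hh.2.2]
      field_simp

theorem mem_H {h : GL (Fin 2) F} : h ∈ D.H ↔ D.InH h := Iff.rfl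

/-- The character of `H`. -/
noncomputable def lam (h : GL (Fin 2) F) : E := ch D.χ₁ (ea h) * ch D.χ₂ (dt h / ea h)

open Classical in
/-- The generating vector of the principal series. -/
noncomputable def f0 (g : GL (Fin 2) F) : E :=
  if ‖ec g‖ ≤ ‖(D.ϖ : F)‖ ^ D.c * ‖ed g‖ then ch D.χ₁ (dt g / ed g) * ch D.χ₂ (ed g) else 0

/-- `t = diag(ϖ, 1)`. -/
noncomputable def t : GL (Fin 2) F := dg D.ϖ 1

/-- `γ r = u⁻(ϖ^c r) t⁻¹`. -/
noncomputable def gam (r : F) : GL (Fin 2) F := ll ((D.ϖ : F) ^ D.c * r) * D.t⁻¹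

/-- `δ r = u(r) t`. -/
noncomputable def dlt (r : F) : GL (Fin 2) F := uu r * D.t

/-- The eigenvalue. -/
noncomputable def alpha : E := ((D.χ₁ D.ϖ : Eˣ) : E)⁻¹

/-- `s = diag(-ϖ^c, 1)`. -/
noncomputable def sθ : GL (Fin 2) F := dg (-D.ϖ ^ D.c) 1

/-- The involution `g ↦ s⁻¹ (gᵀ)⁻¹ s`. -/
noncomputable def theta : GL (Fin 2) F →* GL (Fin 2) F where
  toFun g := D.sθ⁻¹ * (tr g)⁻¹ * D.sθ
  map_one' := by simp [tr_one]
  map_mul' g h := by simp [tr_mul, mul_assoc]

omit [IsUltrametricDist F] in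
theorem theta_apply (g : GL (Fin 2) F) : D.theta g = D.sθ⁻¹ * (tr g)⁻¹ * D.sθ := rfl

end LD

end Pool.Agent.MP_4d0c14_nt

end

section

/-! Local field facts and the final recursion. -/

namespace Pool.Agent.MP_4d0c14_nt

open Filter Topology

theorem norm_emb (p : ℕ) [Fact p.Prime] {F E : Type*} [NontriviallyNormedField F]
    [NormedAlgebra ℚ_[p] F] [FiniteDimensional ℚ_[p] F] [NormedField E] [NormedAlgebra ℚ_[p] E]
    (κ : F →ₐ[ℚ_[p]] E) (x : F) : ‖κ x‖ = ‖x‖ := by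
  let f : AbsoluteValue F ℝ :=
    { toFun := fun y => ‖κ y‖
      map_mul' := fun a b => by simp
      nonneg' := fun a => norm_nonneg _
      eq_zero' := fun a => by simp
      add_le' := fun a b => by simpa using norm_add_le (κ a) (κ b) }
  let g : AbsoluteValue F ℝ :=
    { toFun := fun y => ‖y‖
      map_mul' := fun a b => by simp
      nonneg' := fun a => norm_nonneg _
      eq_zero' := fun a => by simp
      add_le' := fun a b => norm_add_le a b }
  have h1 : f x = spectralNorm ℚ_[p] F x :=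
    spectralNorm_unique_field_norm_ext (f := f) (fun y => by
      show ‖κ (algebraMap ℚ_[p] F y)‖ = ‖y‖
      rw [κ.commutes, norm_algebraMap']) x
  have h2 : g x = spectralNorm ℚ_[p] F x :=
    spectralNorm_unique_field_norm_ext (f := g) (fun y => by
      show ‖algebraMap ℚ_[p] F y‖ = ‖y‖
      rw [norm_algebraMap']) x
  exact h1.trans h2.symm

theorem norm_char_unit {F E : Type*} [NormedField F] [ProperSpace F] [NormedField E]
    (χ : Fˣ →* Eˣ) (hχ : IsSmoothChar χ) (u : Fˣ) (hu : ‖(u : F)‖ = 1) :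
    ‖((χ u : Eˣ) : E)‖ = 1 := by
  obtain ⟨r, hr, hχ⟩ := hχ
  have hmem : ∀ k : ℕ, (u : F) ^ k ∈ Metric.closedBall (0 : F) 1 := fun k => by
    simp [hu]
  obtain ⟨a, -, φ, hφ, hlim⟩ := (isCompact_closedBall (0 : F) 1).tendsto_subseq hmem
  obtain ⟨N, hN⟩ := Metric.cauchySeq_iff'.1 hlim.cauchySeq r hr
  have h1 := hN (N + 1) (Nat.le_succ N)
  have hlt : φ N < φ (N + 1) := hφ (Nat.lt_succ_self N)
  obtain ⟨m, hm⟩ : ∃ m, φ (N + 1) = φ N + (m + 1) := ⟨φ (N + 1) - φ N - 1, by omega⟩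
  simp only [Function.comp_apply, dist_eq_norm, hm] at h1
  have h2 : (u : F) ^ (φ N + (m + 1)) - (u : F) ^ φ N = (u : F) ^ φ N * ((u : F) ^ (m + 1) - 1) := by
    ring
  rw [h2, norm_mul, norm_pow, hu, one_pow, one_mul] at h1
  have h3 := hχ (u ^ (m + 1)) (by simpa using h1)
  rw [map_pow] at h3
  have h4 : ‖((χ u : Eˣ) : E)‖ ^ (m + 1) = 1 := by
    rw [← norm_pow, ← Units.val_pow_eq_pow_val, h3]
    simp
  exact (pow_eq_one_iff_of_nonneg (norm_nonneg _) (Nat.succ_ne_zero m)).1 h4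

theorem SA_ch_one {F E : Type*} [NormedField F] [Field E] (χ : Fˣ →* Eˣ) {r : ℝ}
    (hχ : ∀ x : Fˣ, ‖(x : F) - 1‖ < r → χ x = 1) {y : F} (h1 : ‖y‖ < 1) (hr : ‖y‖ < r) :
    ch χ (1 + y) = 1 := by
  have h0 : (1 + y : F) ≠ 0 := by
    intro h
    have : y = -1 := by linear_combination h
    rw [this] at h1
    simp at h1
  have := ch_units χ (Units.mk0 (1 + y) h0)
  rw [hχ _ (by simpa using hr)] at this
  simpa using this

theorem SA_mem {F : Type*} [NormedField F] [IsUltrametricDist F] (x : F) :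
    x ∈ (NormedField.valuation (K := F)).valuationSubring ↔ ‖x‖ ≤ 1 := by
  rw [Valuation.mem_valuationSubring_iff, NormedField.valuation_apply, ← NNReal.coe_le_coe]
  simp

theorem SA_res_eq {F : Type*} [NormedField F] [IsUltrametricDist F]
    (x y : (NormedField.valuation (K := F)).valuationSubring) :
    IsLocalRing.residue _ x = IsLocalRing.residue _ y ↔ ‖(x : F) - y‖ < 1 := by
  rw [← sub_eq_zero, ← map_sub, IsLocalRing.residue_eq_zero_iff,
    Valuation.mem_maximalIdeal_iff, NormedField.valuation_apply, ← NNReal.coe_lt_coe]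
  simp

theorem SA_finite {F : Type*} [NormedField F] [IsUltrametricDist F] [ProperSpace F] :
    Finite (IsLocalRing.ResidueField (NormedField.valuation (K := F)).valuationSubring) := by
  obtain ⟨t, ht, hfin, hcov⟩ := finite_cover_balls_of_compact (isCompact_closedBall (0 : F) 1)
    (e := 1) one_pos
  have : Finite t := hfin.to_subtype
  let f : t → IsLocalRing.ResidueField (NormedField.valuation (K := F)).valuationSubring :=
    fun z => IsLocalRing.residue _ ⟨z.1, (SA_mem _).2 (by simpa using ht z.2)⟩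
  refine Finite.of_surjective f fun a => ?_
  obtain ⟨x, rfl⟩ := IsLocalRing.residue_surjective a
  have hx : (x : F) ∈ Metric.closedBall (0 : F) 1 := by simpa using (SA_mem _).1 x.2
  obtain ⟨z, hz, hxz⟩ := Set.mem_iUnion₂.1 (hcov hx)
  refine ⟨⟨z, hz⟩, ?_⟩
  refine ((SA_res_eq _ _).2 ?_).symm
  simpa [dist_eq_norm] using hxz

theorem exists_LD {F E : Type*} [NormedField F] [IsUltrametricDist F] [ProperSpace F] [Field E]
    (χ₁ χ₂ : Fˣ →* Eˣ) (h₁ : IsSmoothChar χ₁) (h₂ : IsSmoothChar χ₂) (ϖ : Fˣ)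
    (hϖ : ‖(ϖ : F)‖ < 1) (hmax : ∀ x : F, ‖x‖ < 1 → ‖x‖ ≤ ‖(ϖ : F)‖) :
    ∃ D : LD F E, D.ϖ = ϖ ∧ D.χ₁ = χ₁ ∧ D.χ₂ = χ₂ ∧ D.R.card =
      Nat.card (IsLocalRing.ResidueField (NormedField.valuation (K := F)).valuationSubring) := by
  classical
  obtain ⟨r₁, hr₁, h₁⟩ := h₁
  obtain ⟨r₂, hr₂, h₂⟩ := h₂
  obtain ⟨c, hc⟩ := exists_pow_lt_of_lt_one (lt_min hr₁ hr₂) hϖ
  have hc1 : ‖(ϖ : F)‖ ^ (c + 1) ≤ ‖(ϖ : F)‖ ^ c :=
    pow_le_pow_of_le_one (norm_nonneg _) hϖ.le (Nat.le_succ c)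
  have hc2 : ‖(ϖ : F)‖ ^ (c + 1) < 1 := pow_lt_one₀ (norm_nonneg _) hϖ (Nat.succ_ne_zero c)
  have := SA_finite (F := F)
  have := Fintype.ofFinite
    (IsLocalRing.ResidueField (NormedField.valuation (K := F)).valuationSubring)
  let s : IsLocalRing.ResidueField (NormedField.valuation (K := F)).valuationSubring →
      (NormedField.valuation (K := F)).valuationSubring :=
    Function.surjInv IsLocalRing.residue_surjective
  have hs : ∀ a, IsLocalRing.residue _ (s a) = a := fun a => Function.surjInv_eq _ a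
  have hinj : Function.Injective fun a => (s a : F) := fun a b hab => by
    rw [← hs a, ← hs b, Subtype.ext hab]
  refine ⟨{ ϖ := ϖ, c := c + 1, R := Finset.univ.image fun a => (s a : F), χ₁ := χ₁, χ₂ := χ₂,
            ϖ_lt := hϖ, ϖ_max := hmax, c_pos := Nat.le_add_left 1 c,
            ch₁ := fun y hy => SA_ch_one χ₁ h₁ (hy.trans_lt hc2)
              ((hy.trans hc1).trans_lt (hc.trans_le (min_le_left _ _))),
            ch₂ := fun y hy => SA_ch_one χ₂ h₂ (hy.trans_lt hc2)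
              ((hy.trans hc1).trans_lt (hc.trans_le (min_le_right _ _))),
            R_le := ?_, R_rep := ?_ }, rfl, rfl, rfl, ?_⟩
  · intro r hr
    obtain ⟨a, -, rfl⟩ := Finset.mem_image.1 hr
    exact (SA_mem _).1 (s a).2
  · intro x hx
    let x' : (NormedField.valuation (K := F)).valuationSubring := ⟨x, (SA_mem _).2 hx⟩
    refine ⟨s (IsLocalRing.residue _ x'), ⟨Finset.mem_image.2 ⟨_, Finset.mem_univ _, rfl⟩, ?_⟩, ?_⟩
    · exact hmax _ ((SA_res_eq x' _).1 (hs _).symm)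
    · rintro r ⟨hr, hxr⟩
      obtain ⟨a, -, rfl⟩ := Finset.mem_image.1 hr
      have := (SA_res_eq x' (s a)).2 (hxr.trans_lt hϖ)
      rw [this, hs]
  · show (Finset.univ.image fun a => (s a : F)).card = _
    rw [Finset.card_image_of_injective _ hinj, Finset.card_univ, Nat.card_eq_fintype_card]

open Classical in
theorem SA_sum_ind {F E : Type*} [NormedField F] [IsUltrametricDist F] [Field E]
    (D : LD F E) (z : F) (b : E) :
    ∑ r ∈ D.R, (if ‖z + r‖ ≤ ‖(D.ϖ : F)‖ then b else 0) = if ‖z‖ ≤ 1 then b else 0 := by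
  by_cases hz : ‖z‖ ≤ 1
  · obtain ⟨r, ⟨hr, hzr⟩, huniq⟩ := D.R_rep (-z) (by simpa using hz)
    have e : ∀ w : F, ‖-z - w‖ = ‖z + w‖ := fun w => by
      rw [← norm_neg]
      congr 1
      ring
    rw [if_pos hz, Finset.sum_eq_single r]
    · rw [if_pos (e r ▸ hzr)]
    · intro w hw hne
      rw [if_neg]
      intro h
      exact hne (huniq w ⟨hw, by rw [e]; exact h⟩)
    · intro h
      exact absurd hr h
  · rw [if_neg hz]
    refine Finset.sum_eq_zero fun r hr => if_neg fun h => hz ?_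
    have e : z = (z + r) + -r := by ring
    rw [e]
    refine (IsUltrametricDist.norm_add_le_max _ _).trans (max_le (h.trans D.ϖ_lt.le) ?_)
    rw [norm_neg]
    exact D.R_le r hr

open Classical in
theorem no_decay_solution {F E : Type*} [NormedField F] [IsUltrametricDist F] [NormedField E]
    (D : LD F E) (α : E) (hα : α ≠ 0) (C : ℤ → F → E)
    (hinv : ∀ n x y, ‖y‖ ≤ 1 → C n (x + y) = C n x)
    (heq : ∀ n x, ∑ r ∈ D.R, C (n + 1) (x + (D.ϖ : F) ^ n * r) - α * C n x =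
      if n = 0 ∧ ‖x‖ ≤ 1 then 1 else 0)
    (hpos : ∀ x, Tendsto (fun n : ℕ => ((D.R.card : E) / α) ^ n * C n x) atTop (𝓝 0))
    (hneg : Tendsto (fun n : ℕ => α ^ n * C (-n) 0) atTop (𝓝 0)) : False := by
  have hϖ0 : (D.ϖ : F) ≠ 0 := D.ϖ.ne_zero
  have hup : ∀ (n : ℕ) (x : F), (D.R.card : E) * C (n + 1) x - α * C n x =
      if (n : ℤ) = 0 ∧ ‖x‖ ≤ 1 then 1 else 0 := by
    intro n x
    rw [← heq n x, Finset.sum_congr rfl fun r hr => hinv _ x _ ?_]
    · simp
    · rw [zpow_natCast, norm_mul, norm_pow]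
      exact mul_le_one₀ (pow_le_one₀ (norm_nonneg _) D.ϖ_lt.le) (norm_nonneg _) (D.R_le r hr)
  have hconst : ∀ (x : F) (n : ℕ), ((D.R.card : E) / α) ^ (n + 1) * C ((n + 1 : ℕ) : ℤ) x =
      (D.R.card : E) / α * C 1 x := by
    intro x n
    induction n with
    | zero => simp
    | succ n ih =>
      have h := hup (n + 1) x
      rw [if_neg (by rintro ⟨h, -⟩; omega)] at h
      rw [← ih, pow_succ, Nat.cast_succ (n + 1)]
      have h' : (D.R.card : E) / α * C (((n + 1 : ℕ) : ℤ) + 1) x = C ((n + 1 : ℕ) : ℤ) x := by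
        field_simp
        linear_combination h
      rw [mul_assoc, h']
  have hone : ∀ x, (D.R.card : E) * C 1 x = 0 := by
    intro x
    have h1 := (tendsto_add_atTop_iff_nat 1).2 (hpos x)
    simp only [hconst] at h1
    have h2 := tendsto_nhds_unique h1 tendsto_const_nhds
    field_simp at h2
    linear_combination -h2
  have hdown : ∀ (k : ℕ) (x : F), α ^ (k + 1) * C (-k) x =
      if ‖(D.ϖ : F) ^ k * x‖ ≤ 1 then -1 else 0 := by
    intro k
    induction k with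
    | zero =>
      intro x
      have h := hup 0 x
      simp only [Nat.cast_zero, zero_add, hone, true_and] at h
      simp only [Nat.cast_zero, neg_zero, zero_add, pow_one, pow_zero, one_mul]
      split_ifs at h ⊢
      · linear_combination -h
      · linear_combination -h
    | succ k ih =>
      intro x
      have h := heq (-((k + 1 : ℕ) : ℤ)) x
      rw [if_neg (by rintro ⟨h, -⟩; omega)] at h
      have e1 : -((k + 1 : ℕ) : ℤ) + 1 = -(k : ℤ) := by push_cast; ring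
      rw [e1] at h
      have e2 : ∀ r : F, ‖(D.ϖ : F) ^ k * (x + (D.ϖ : F) ^ (-((k + 1 : ℕ) : ℤ)) * r)‖ ≤ 1 ↔
          ‖(D.ϖ : F) ^ (k + 1) * x + r‖ ≤ ‖(D.ϖ : F)‖ := by
        intro r
        have e3 : (D.ϖ : F) ^ (k + 1) * x + r =
            D.ϖ * ((D.ϖ : F) ^ k * (x + (D.ϖ : F) ^ (-((k + 1 : ℕ) : ℤ)) * r)) := by
          rw [zpow_neg, zpow_natCast]
          field_simp
          ring
        rw [e3, norm_mul (D.ϖ : F)]
        exact (mul_le_iff_le_one_right D.ϖ_pos).symm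
      rw [← SA_sum_ind D ((D.ϖ : F) ^ (k + 1) * x) (-1 : E)]
      simp only [← e2, ← ih]
      rw [← Finset.mul_sum]
      linear_combination (-α ^ (k + 1)) * h
  have hc : ∀ n : ℕ, α ^ n * C (-n) 0 = -α⁻¹ := by
    intro n
    have h := hdown n 0
    rw [if_pos (by simp)] at h
    field_simp
    linear_combination h
  simp only [hc] at hneg
  have h2 := tendsto_nhds_unique hneg tendsto_const_nhds
  exact hα (by simpa using h2.symm)

end Pool.Agent.MP_4d0c14_nt

end

section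

/-! Compactness and discreteness facts for a local field. -/

namespace Pool.Agent.MP_4d0c14_b

open scoped Matrix

variable {n : ℕ} {F : Type} [NormedField F] [IsUltrametricDist F]

/-- The open ball of radius `r` as an additive subgroup. -/
def ballG (F : Type) [NormedField F] [IsUltrametricDist F] (r : ℝ) (hr : 0 < r) :
    AddSubgroup F where
  carrier := {x | ‖x‖ < r}
  add_mem' := fun {a b} ha hb => (IsUltrametricDist.norm_add_le_max a b).trans_lt (max_lt ha hb)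
  zero_mem' := by simpa using hr
  neg_mem' := fun {a} ha => by simpa using ha

/-- The cardinality of the residue field. -/
noncomputable def resCard (F : Type) [NormedField F] [IsUltrametricDist F] : ℕ :=
  Nat.card (IsLocalRing.ResidueField (NormedField.valuation (K := F)).valuationSubring)

theorem exists_norm_eq_zpow (ϖ : Fˣ) (hϖ : ‖(ϖ : F)‖ < 1)
    (hmax : ∀ x : F, ‖x‖ < 1 → ‖x‖ ≤ ‖(ϖ : F)‖) {x : F} (hx : x ≠ 0) :
    ∃ e : ℤ, ‖x‖ = ‖(ϖ : F)‖ ^ e := by
  have hp : 0 < ‖(ϖ : F)‖ := norm_pos_iff.2 ϖ.ne_zero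
  obtain ⟨k, h1, h2⟩ := exists_mem_Ioc_zpow (norm_pos_iff.2 hx) ((one_lt_inv₀ hp).2 hϖ)
  have hz : 0 < ‖(ϖ : F)‖ ^ (k + 1) := zpow_pos hp _
  have h3 : ‖x * (ϖ : F) ^ (k + 1)‖ = ‖x‖ * ‖(ϖ : F)‖ ^ (k + 1) := by
    rw [norm_mul, norm_zpow]
  have h4 : ‖x‖ * ‖(ϖ : F)‖ ^ (k + 1) ≤ 1 := by
    rwa [inv_zpow, ← one_div, le_div_iff₀ hz] at h2
  have h5 : ‖(ϖ : F)‖ < ‖x‖ * ‖(ϖ : F)‖ ^ (k + 1) := by
    rw [inv_zpow, ← one_div, div_lt_iff₀ (zpow_pos hp _)] at h1
    rw [zpow_add_one₀ hp.ne', ← mul_assoc]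
    exact lt_mul_of_one_lt_left hp h1
  have h6 : ‖x‖ * ‖(ϖ : F)‖ ^ (k + 1) = 1 := by
    refine h4.antisymm (not_lt.1 fun h => ?_)
    have := hmax _ (h3 ▸ h)
    rw [h3] at this
    exact absurd this (not_le.2 h5)
  exact ⟨-(k + 1), by rw [zpow_neg]; exact eq_inv_of_mul_eq_one_left h6⟩

theorem M3_step (ϖ : Fˣ) (hϖ : ‖(ϖ : F)‖ < 1)
    (hmax : ∀ x : F, ‖x‖ < 1 → ‖x‖ ≤ ‖(ϖ : F)‖) (c : ℕ) :
    (ballG F (‖(ϖ : F)‖ ^ (c + 1)) (pow_pos (norm_pos_iff.2 ϖ.ne_zero) _)).relIndex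
      (ballG F (‖(ϖ : F)‖ ^ c) (pow_pos (norm_pos_iff.2 ϖ.ne_zero) _)) = resCard F := by
  have hp : 0 < ‖(ϖ : F)‖ := norm_pos_iff.2 ϖ.ne_zero
  have hϖ0 : (ϖ : F) ≠ 0 := ϖ.ne_zero
  have hm : ∀ x : F, ‖x‖ < ‖(ϖ : F)‖ ^ c →
      x / (ϖ : F) ^ (c + 1) ∈ (NormedField.valuation (K := F)).valuationSubring := by
    intro x hx
    rw [MP_4d0c14_nt.SA_mem, norm_div, norm_pow, div_le_one (pow_pos hp _)]
    have h1 := hmax (x / (ϖ : F) ^ c) (by
      rw [norm_div, norm_pow, div_lt_one (pow_pos hp _)]; exact hx)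
    rw [norm_div, norm_pow, div_le_iff₀ (pow_pos hp _)] at h1
    rw [pow_succ']
    exact h1
  let f : ballG F (‖(ϖ : F)‖ ^ c) (pow_pos hp _) →+
      IsLocalRing.ResidueField (NormedField.valuation (K := F)).valuationSubring :=
    AddMonoidHom.mk' (fun x => IsLocalRing.residue _ ⟨x.1 / (ϖ : F) ^ (c + 1), hm x.1 x.2⟩)
      fun x y => by
        rw [← map_add]
        congr 1
        exact Subtype.ext (add_div _ _ _)
  have hs : Function.Surjective f := by
    intro a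
    obtain ⟨y, rfl⟩ := IsLocalRing.residue_surjective a
    have hy : ‖(y : F)‖ ≤ 1 := (MP_4d0c14_nt.SA_mem _).1 y.2
    have h1 : ‖(y : F) * (ϖ : F) ^ (c + 1)‖ < ‖(ϖ : F)‖ ^ c := by
      rw [norm_mul, norm_pow]
      calc ‖(y : F)‖ * ‖(ϖ : F)‖ ^ (c + 1) ≤ 1 * ‖(ϖ : F)‖ ^ (c + 1) :=
            mul_le_mul_of_nonneg_right hy (pow_pos hp _).le
        _ < ‖(ϖ : F)‖ ^ c := by
            rw [one_mul, pow_succ]
            exact mul_lt_of_lt_one_right (pow_pos hp _) hϖ
    refine ⟨⟨_, h1⟩, ?_⟩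
    change IsLocalRing.residue _ _ = _
    congr 1
    exact Subtype.ext (mul_div_cancel_right₀ _ (pow_ne_zero _ hϖ0))
  have hk : (ballG F (‖(ϖ : F)‖ ^ (c + 1)) (pow_pos hp _)).addSubgroupOf
      (ballG F (‖(ϖ : F)‖ ^ c) (pow_pos hp _)) = f.ker := by
    ext x
    rw [AddSubgroup.mem_addSubgroupOf, AddMonoidHom.mem_ker]
    have h1 := MP_4d0c14_nt.SA_res_eq (F := F) ⟨x.1 / (ϖ : F) ^ (c + 1), hm x.1 x.2⟩ 0
    rw [map_zero] at h1
    refine Iff.trans ?_ h1.symm
    change ‖x.1‖ < _ ↔ ‖x.1 / (ϖ : F) ^ (c + 1) - 0‖ < 1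
    rw [sub_zero, norm_div, norm_pow, div_lt_one (pow_pos hp _)]
  rw [AddSubgroup.relIndex, hk, AddSubgroup.index_ker, AddMonoidHom.range_eq_top.2 hs,
    AddSubgroup.card_top]
  rfl

theorem relIndex_ballG (ϖ : Fˣ) (hϖ : ‖(ϖ : F)‖ < 1)
    (hmax : ∀ x : F, ‖x‖ < 1 → ‖x‖ ≤ ‖(ϖ : F)‖) (c e : ℕ) :
    (ballG F (‖(ϖ : F)‖ ^ (c + e)) (pow_pos (norm_pos_iff.2 ϖ.ne_zero) _)).relIndex
      (ballG F (‖(ϖ : F)‖ ^ c) (pow_pos (norm_pos_iff.2 ϖ.ne_zero) _)) = resCard F ^ e := by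
  have hp : 0 < ‖(ϖ : F)‖ := norm_pos_iff.2 ϖ.ne_zero
  have hle : ∀ a b : ℕ, a ≤ b → ballG F (‖(ϖ : F)‖ ^ b) (pow_pos hp _) ≤
      ballG F (‖(ϖ : F)‖ ^ a) (pow_pos hp _) := fun a b hab x hx =>
    lt_of_lt_of_le hx (pow_le_pow_of_le_one hp.le hϖ.le hab)
  induction e with
  | zero => simp
  | succ e ih =>
    have h1 := AddSubgroup.relIndex_mul_relIndex _ _ _ (hle (c + e) (c + e + 1) (Nat.le_succ _))
      (hle c (c + e) (Nat.le_add_right _ _))
    rw [M3_step ϖ hϖ hmax, ih] at h1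
    rw [pow_succ']
    exact h1.symm

variable [ProperSpace F]

theorem resCard_ne_zero : resCard F ≠ 0 := by
  have := MP_4d0c14_nt.SA_finite (F := F)
  exact Nat.card_pos.ne'

theorem M3_cover (C : ℝ) {r : ℝ} (hr : 0 < r) (A : Set (GL (Fin n) F))
    (hA : ∀ g ∈ A, Bnd C g) : ∃ T : Finset (GL (Fin n) F), (∀ t ∈ T, t ∈ A) ∧
      ∀ g ∈ A, ∃ t ∈ T, Near r (t⁻¹ * g) := by
  classical
  let D : ℝ := max C 1
  have hD : 0 < D := lt_max_of_lt_right one_pos
  let φ : GL (Fin n) F → Fin n → Fin n → F := fun g i j => (g : Matrix (Fin n) (Fin n) F) i j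
  have hsub : φ '' A ⊆ Metric.closedBall 0 D := by
    rintro _ ⟨g, hg, rfl⟩
    rw [mem_closedBall_zero_iff]
    exact (pi_norm_le_iff_of_nonneg hD.le).2 fun i => (pi_norm_le_iff_of_nonneg hD.le).2
      fun j => (hA g hg i j).1.trans (le_max_left _ _)
  have htb : TotallyBounded (φ '' A) :=
    (isCompact_closedBall (0 : Fin n → Fin n → F) D).totallyBounded.subset hsub
  obtain ⟨t, ht, hfin, hcov⟩ := Metric.finite_approx_of_totallyBounded htb (r / D) (div_pos hr hD)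
  obtain ⟨T, hTA, hT, rfl⟩ := Set.Finite.exists_subset_finite_image_eq hfin ht
  refine ⟨hT.toFinset, fun u hu => hTA (hT.mem_toFinset.1 hu), fun g hg => ?_⟩
  obtain ⟨_, ⟨u, hu, rfl⟩, hgu⟩ := Set.mem_iUnion₂.1 (hcov ⟨g, hg, rfl⟩)
  refine ⟨u, hT.mem_toFinset.2 hu, ?_⟩
  rw [Metric.mem_ball, dist_eq_norm] at hgu
  have h1 : MLe ‖φ g - φ u‖ 
      ((g : Matrix (Fin n) (Fin n) F) - (u : Matrix (Fin n) (Fin n) F)) := fun i j =>
    (norm_le_pi_norm ((φ g - φ u) i) j).trans (norm_le_pi_norm (φ g - φ u) i)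
  have h2 : MLe D ((u⁻¹ : GL (Fin n) F) : Matrix (Fin n) (Fin n) F) :=
    (bnd_iff.1 (hA u (hTA hu))).2.mono (le_max_left _ _)
  have h3 := h2.mul h1 hD.le (norm_nonneg _)
  have e : ((u⁻¹ * g : GL (Fin n) F) : Matrix (Fin n) (Fin n) F) - 1 =
      ((u⁻¹ : GL (Fin n) F) : Matrix (Fin n) (Fin n) F) *
        ((g : Matrix (Fin n) (Fin n) F) - (u : Matrix (Fin n) (Fin n) F)) := by
    rw [Matrix.mul_sub, ← Units.val_mul, ← Units.val_mul, inv_mul_cancel, Units.val_one]
  intro i j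
  rw [e]
  refine (h3 i j).trans_lt ?_
  rwa [lt_div_iff₀' hD] at hgu

theorem finite_cover (C : ℝ) {r : ℝ} (hr : 0 < r) : ∃ T : Finset (GL (Fin n) F),
    ∀ g, Bnd C g → ∃ t ∈ T, Bnd C t ∧ Near r (t⁻¹ * g) := by
  obtain ⟨T, h1, h2⟩ := M3_cover (n := n) (F := F) C hr {g | Bnd C g} fun _ hg => hg
  refine ⟨T, fun g hg => ?_⟩
  obtain ⟨t, ht, h3⟩ := h2 g hg
  exact ⟨t, ht, h1 t ht, h3⟩

/-- a version relative to a subset -/
theorem finite_cover_of_subset (C : ℝ) {r : ℝ} (hr : 0 < r) (A : Set (GL (Fin n) F))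
    (hA : ∀ g ∈ A, Bnd C g) : ∃ T : Finset (GL (Fin n) F), (∀ t ∈ T, t ∈ A) ∧
      ∀ g ∈ A, ∃ t ∈ T, Near r (t⁻¹ * g) := M3_cover C hr A hA

theorem exists_pow_near {g : GL (Fin n) F} (hg : Bnd 1 g) {r : ℝ} (hr : 0 < r) :
    ∃ m : ℕ, 0 < m ∧ Near r (g ^ m) := by
  have hb : ∀ m : ℕ, Bnd 1 (g ^ m) := by
    intro m
    induction m with
    | zero => rw [pow_zero]; exact (near_one one_pos).bnd one_pos le_rfl
    | succ m ih =>
      have := ih.mul hg zero_le_one zero_le_one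
      rwa [one_mul, ← pow_succ] at this
  have hs : 0 < min r 1 := lt_min hr one_pos
  obtain ⟨T, hT⟩ := finite_cover (n := n) (F := F) 1 hs
  choose t ht _ hn using fun m : ℕ => hT (g ^ m) (hb m)
  have key : ∀ a b : ℕ, a < b → t a = t b → ∃ m : ℕ, 0 < m ∧ Near r (g ^ m) := by
    intro a b hab h
    refine ⟨b - a, Nat.sub_pos_of_lt hab, ?_⟩
    have h1 := ((hn a).inv hs (min_le_right _ _)).mul hs (min_le_right _ _) (hn b)
    have e : ((t a)⁻¹ * g ^ a)⁻¹ * ((t b)⁻¹ * g ^ b) = g ^ (b - a) := by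
      obtain ⟨k, rfl⟩ := Nat.exists_eq_add_of_le hab.le
      rw [h, Nat.add_sub_cancel_left, pow_add]
      group
    rw [e] at h1
    exact h1.mono (min_le_left _ _)
  obtain ⟨a, b, hab, h⟩ := Finite.exists_ne_map_eq_of_infinite
    (fun m : ℕ => (⟨t m, ht m⟩ : T))
  have h' : t a = t b := congrArg Subtype.val h
  rcases lt_or_gt_of_ne hab with h1 | h1
  · exact key a b h1 h'
  · exact key b a h1 h'.symm

theorem exists_pow_sub_one_lt {x : F} (hx : ‖x‖ = 1) {r : ℝ} (hr : 0 < r) :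
    ∃ m : ℕ, 0 < m ∧ ‖x ^ m - 1‖ < r := by
  have hmem : ∀ k : ℕ, x ^ k ∈ Metric.closedBall (0 : F) 1 := fun k => by
    simp [hx]
  obtain ⟨a, -, φ, hφ, hlim⟩ := (isCompact_closedBall (0 : F) 1).tendsto_subseq hmem
  obtain ⟨N, hN⟩ := Metric.cauchySeq_iff'.1 hlim.cauchySeq r hr
  have h1 := hN (N + 1) (Nat.le_succ N)
  have hlt : φ N < φ (N + 1) := hφ (Nat.lt_succ_self N)
  obtain ⟨m, hm⟩ : ∃ m, φ (N + 1) = φ N + (m + 1) := ⟨φ (N + 1) - φ N - 1, by omega⟩
  simp only [Function.comp_apply, dist_eq_norm, hm] at h1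
  have h2 : x ^ (φ N + (m + 1)) - x ^ φ N = x ^ φ N * (x ^ (m + 1) - 1) := by
    ring
  rw [h2, norm_mul, norm_pow, hx, one_pow, one_mul] at h1
  exact ⟨m + 1, Nat.succ_pos m, h1⟩

end Pool.Agent.MP_4d0c14_b

end

section

/-! A continuous unipotent one-parameter group is polynomial, so it contains no logarithm. -/

namespace Pool.Agent.MP_4d0c14_b

/-- The span of the geometric sequences. -/
def Geo (L : Type) [Field L] : Submodule L (ℕ → L) :=
  Submodule.span L (Set.range fun (β : L) (m : ℕ) => β ^ m)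

theorem Geo.mul {L : Type} [Field L] {x y : ℕ → L} (hx : x ∈ Geo L) (hy : y ∈ Geo L) :
    x * y ∈ Geo L := by
  have h := Submodule.mul_mem_mul hx hy
  rw [Geo, Submodule.span_mul_span] at h
  refine Submodule.span_mono ?_ h
  rintro _ ⟨_, ⟨a, rfl⟩, _, ⟨b, rfl⟩, rfl⟩
  exact ⟨a * b, funext fun m => mul_pow a b m⟩

theorem Geo.eq_zero {L : Type} [Field L] [CharZero L] {χ c : L} (hχ : χ ≠ 0)
    (h : (fun m : ℕ => (m : L) * χ ^ m * c) ∈ Geo L) : c = 0 := by
  have hli : LinearIndependent L fun (β : L) (m : ℕ) => β ^ m :=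
    (linearIndependent_monoidHom (Multiplicative ℕ) L).comp _ (powersHom L).injective
  obtain ⟨a, ha⟩ := Finsupp.mem_span_range_iff_exists_finsupp.1 h
  have h1 : ∀ m : ℕ, ∑ β ∈ a.support, a β * β ^ m = m * χ ^ m * c := fun m => by
    simpa [Finsupp.sum] using congrFun ha m
  have h2 := linearIndependent_iff'.1 hli a.support (fun β => a β * (β - χ) ^ 2) (funext fun m => by
    have e : ∀ β, a β * (β - χ) ^ 2 * β ^ m =
        a β * β ^ (m + 2) - 2 * χ * (a β * β ^ (m + 1)) + χ ^ 2 * (a β * β ^ m) := fun β => by ring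
    simp only [Finset.sum_apply, Pi.smul_apply, smul_eq_mul, e, Finset.sum_add_distrib,
      Finset.sum_sub_distrib, ← Finset.mul_sum, h1, Pi.zero_apply]
    push_cast
    ring)
  have h3 : ∑ β ∈ a.support, a β * β ^ 1 = χ * ∑ β ∈ a.support, a β * β ^ 0 := by
    rw [Finset.mul_sum]
    refine Finset.sum_congr rfl fun β hβ => ?_
    rw [sub_eq_zero.1 (pow_eq_zero_iff two_ne_zero |>.1
      ((mul_eq_zero.1 (h2 β hβ)).resolve_left (Finsupp.mem_support_iff.1 hβ)))]
    ring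
  rw [h1, h1] at h3
  simpa [hχ] using h3

theorem Geo.linear {K F L : Type} [Field K] [CharZero K] [Field F] [Algebra K F]
    [FiniteDimensional K F] [Field L] [Algebra K L] [IsAlgClosed L] (f : F →ₗ[K] L) (c θ : F) :
    (fun m : ℕ => f (c * θ ^ m)) ∈ Geo L := by
  have h := (linearIndependent_algHom_toLinearMap K F L).span_eq_top_of_card_eq_finrank'
    (by rw [AlgHom.card, Module.finrank_linearMap_self])
  have hf : f ∈ (⊤ : Submodule L _) := trivial
  rw [← h] at hf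
  induction hf using Submodule.span_induction with
  | mem _ h =>
    obtain ⟨σ, rfl⟩ := h
    have h : (fun m : ℕ => σ θ ^ m) ∈ Geo L := Submodule.subset_span ⟨_, rfl⟩
    simpa only [AlgHom.toLinearMap_apply, map_mul, map_pow] using! Submodule.smul_mem _ (σ c) h
  | zero => exact zero_mem _
  | add _ _ _ _ h h' => exact add_mem h h'
  | smul a _ _ h => exact Submodule.smul_mem _ a h

/-- The sequences that become sums of geometric sequences over the algebraic closure. -/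
noncomputable def H2_G (E : Type) [Field E] : Subalgebra E (ℕ → E) where
  carrier := {x | (fun m => algebraMap E (AlgebraicClosure E) (x m)) ∈ Geo _}
  mul_mem' hx hy := by simpa only [Set.mem_ofPred_eq, Pi.mul_apply, map_mul] using! Geo.mul hx hy
  add_mem' hx hy := by
    simpa only [Set.mem_ofPred_eq, Pi.add_apply, map_add] using! (Geo _).add_mem hx hy
  algebraMap_mem' c := by
    have h : (fun m : ℕ => (1 : AlgebraicClosure E) ^ m) ∈ Geo _ := Submodule.subset_span ⟨1, rfl⟩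
    simpa only [Pi.smul_def, one_pow, smul_eq_mul, mul_one] using!
      Submodule.smul_mem _ (algebraMap E (AlgebraicClosure E) c) h

theorem H2_poly {K E : Type} [Field K] [Field E] [Algebra K E] {z : ℕ → K}
    (hz : (fun m => algebraMap K E (z m)) ∈ H2_G E) (P : Polynomial K) :
    (fun m => algebraMap K E (P.eval (z m))) ∈ H2_G E := by
  induction P using Polynomial.induction_on' with
  | add P Q hP hQ => simpa only [Polynomial.eval_add, map_add] using! add_mem hP hQ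
  | monomial n a =>
    simpa only [Polynomial.eval_monomial, map_mul, map_pow] using!
      (H2_G E).smul_mem (pow_mem hz n) (algebraMap K E a)

theorem H2_pow {K R : Type} [Field K] [CharZero K] [Ring R] [Algebra K R] {A : R} {D : ℕ}
    (hA : A ^ D = 0) (m : ℕ) : (A + 1) ^ m = ∑ j ∈ Finset.range D,
      (descPochhammer K j).eval (m : K) • ((j.factorial : K)⁻¹ • A ^ j) := by
  have h : ∀ j, (descPochhammer K j).eval (m : K) • ((j.factorial : K)⁻¹ • A ^ j) =
      A ^ j * 1 ^ (m - j) * m.choose j := fun j => by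
    rw [smul_smul, ← div_eq_mul_inv, ← Nat.cast_choose_eq_descPochhammer_div, one_pow, mul_one,
      Nat.cast_smul_eq_nsmul, nsmul_eq_mul']
  simp only [h]
  rw [(Commute.one_right A).add_pow]
  refine (Finset.sum_subset (Finset.range_mono (Nat.le_add_right _ D)) fun j _ hj => ?_).trans
    (Finset.sum_subset (Finset.range_mono (Nat.le_add_left _ _)) fun j _ hj => ?_).symm
  · rw [Nat.choose_eq_zero_of_lt (by simpa using hj), Nat.cast_zero, mul_zero]
  · rw [pow_eq_zero_of_le (by simpa using hj) hA, zero_mul, zero_mul]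

section

open Filter Topology

variable {p : ℕ} [Fact p.Prime] {F E J : Type} [NontriviallyNormedField F]
  [IsUltrametricDist F] [NormedAlgebra ℚ_[p] F] [NormedField E] [NormedAlgebra ℚ_[p] E]
  [Fintype J] [DecidableEq J] {U : F → Matrix J J E} {s : ℝ}

omit [IsUltrametricDist F] in
theorem H2_lt {x : F} (hx : ‖x‖ < s) {z : ℚ_[p]} (hz : ‖z‖ ≤ 1) : ‖z • x‖ < s :=
  (norm_smul z x).trans_lt ((mul_le_of_le_one_left (norm_nonneg _) hz).trans_lt hx)

omit [IsUltrametricDist F] in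
theorem H2_one (hadd : ∀ x y : F, ‖x‖ < s → ‖y‖ < s → U (x + y) = U x * U y) (h0 : U 0 = 1)
    (hc : Tendsto U (𝓝 0) (𝓝 1)) {x : F} (hx : ‖x‖ < s) {D : ℕ} (hD : (U x - 1) ^ D = 0)
    (z : ℤ_[p]) : U ((z : ℚ_[p]) • x) = ∑ j ∈ Finset.range D,
      (descPochhammer ℚ_[p] j).eval (z : ℚ_[p]) • ((j.factorial : ℚ_[p])⁻¹ • (U x - 1) ^ j) := by
  refine PadicInt.denseRange_natCast.induction_on z (isClosed_eq
    (continuous_iff_continuousAt.2 fun z₀ => ?_) (by fun_prop)) fun m => ?_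
  · have h1 : Continuous fun z : ℤ_[p] => ((z - z₀ : ℤ_[p]) : ℚ_[p]) • x := by fun_prop
    have h2 := (hc.comp (h1.tendsto' z₀ 0 (by simp))).const_mul (U ((z₀ : ℚ_[p]) • x))
    rw [mul_one] at h2
    refine h2.congr fun z => ?_
    rw [Function.comp_apply, ← hadd _ _ (H2_lt hx z₀.2) (H2_lt hx (z - z₀).2), ← add_smul,
      PadicInt.coe_sub, add_sub_cancel]
  · rw [PadicInt.coe_natCast, ← H2_pow hD, sub_add_cancel]
    induction m with
    | zero => rw [Nat.cast_zero, zero_smul, h0, pow_zero]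
    | succ m ih =>
      rw [Nat.cast_succ, add_smul, one_smul, hadd _ _ (H2_lt hx
        (IsUltrametricDist.norm_natCast_le_one _ m)) hx, ih, pow_succ]

theorem H2_sum (hs : 0 < s) (hadd : ∀ x y : F, ‖x‖ < s → ‖y‖ < s → U (x + y) = U x * U y)
    (hnil : ∀ x : F, ‖x‖ < s → IsNilpotent (U x - 1)) (h0 : U 0 = 1)
    (hc : Tendsto U (𝓝 0) (𝓝 1)) {ι : Type} (e : ι → F) (he : ∀ k, ‖e k‖ < s)
    (z : ι → ℕ → ℚ_[p]) (h1 : ∀ k m, ‖z k m‖ ≤ 1)
    (h2 : ∀ k, (fun m => algebraMap ℚ_[p] E (z k m)) ∈ H2_G E) (T : Finset ι) :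
    (∀ m, ‖∑ k ∈ T, z k m • e k‖ < s) ∧
      ∀ i j, (fun m => U (∑ k ∈ T, z k m • e k) i j) ∈ H2_G E := by
  induction T using Finset.cons_induction with
  | empty => exact ⟨fun _ => by simpa using hs, fun i j => by
      simpa only [Finset.sum_empty, h0] using! (H2_G E).algebraMap_mem _⟩
  | cons k T hk ih =>
    simp only [Finset.sum_cons]
    refine ⟨fun m => (IsUltrametricDist.norm_add_le_max _ _).trans_lt
      (max_lt (H2_lt (he k) (h1 k m)) (ih.1 m)), fun i j => ?_⟩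
    obtain ⟨D, hD⟩ := hnil _ (he k)
    have h3 : ∀ m, U (z k m • e k) = _ := fun m => H2_one hadd h0 hc (he k) hD ⟨z k m, h1 k m⟩
    simp only [fun m => hadd _ _ (H2_lt (he k) (h1 k m)) (ih.1 m), Matrix.mul_apply, h3,
      Matrix.sum_apply, Matrix.smul_apply, Algebra.smul_def (A := E)]
    rw [← Finset.sum_fn]
    refine sum_mem fun l _ => mul_mem (a := fun m => _) ?_ (ih.2 l j)
    rw [← Finset.sum_fn]
    exact sum_mem fun d _ => mul_mem (H2_poly (h2 k) _) ((H2_G E).algebraMap_mem _)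

end

theorem unip_no_log (p : ℕ) [Fact p.Prime] {F E J : Type} [NontriviallyNormedField F]
    [IsUltrametricDist F] [NormedAlgebra ℚ_[p] F] [FiniteDimensional ℚ_[p] F] [NormedField E]
    [IsUltrametricDist E] [NormedAlgebra ℚ_[p] E] [Fintype J] [DecidableEq J]
    (U : F → Matrix J J E) {s : ℝ} (hs : 0 < s)
    (hadd : ∀ x y : F, ‖x‖ < s → ‖y‖ < s → U (x + y) = U x * U y)
    (hnil : ∀ x : F, ‖x‖ < s → IsNilpotent (U x - 1))
    (hcont : ∀ ε : ℝ, 0 < ε → ∃ δ : ℝ, 0 < δ ∧ ∀ x : F, ‖x‖ < δ → MLe ε (U x - 1)) :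
    ∃ s' : ℝ, 0 < s' ∧ s' ≤ s ∧ ∀ θ c : F, (∀ m : ℕ, ‖c * (θ ^ m - 1)‖ < s') →
      ∀ (A : Matrix J J E) (χ h : E), χ ≠ 0 →
        (∀ m : ℕ, (m : E) * χ ^ m * h = ∑ i, ∑ j, A i j * U (c * (θ ^ m - 1)) i j) → h = 0 := by
  have h0 : U 0 = 1 := sub_eq_zero.1 (MLe.eq_zero fun ε hε => by
    obtain ⟨δ, h1, h2⟩ := hcont ε hε
    exact h2 0 (by simpa using h1))
  have hc : Filter.Tendsto U (nhds 0) (nhds 1) :=
    tendsto_pi_nhds.2 fun i => tendsto_pi_nhds.2 fun j =>
      Metric.nhds_basis_closedBall.tendsto_right_iff.2 fun ε hε => by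
        obtain ⟨δ, h1, h2⟩ := hcont ε hε
        filter_upwards [Metric.ball_mem_nhds 0 h1] with x hx
        exact mem_closedBall_iff_norm.2 (h2 x (mem_ball_zero_iff.1 hx) i j)
  let b := Module.finBasis ℚ_[p] F
  obtain ⟨t, ht, t0⟩ := (((Filter.eventually_all.2 fun k => ContinuousAt.eventually_lt
    (f := fun t : ℚ_[p] => ‖t • b k‖) (x₀ := 0) (by fun_prop) continuousAt_const
    (by simpa using hs)).filter_mono nhdsWithin_le_nhds).and
    (self_mem_nhdsWithin (s := {0}ᶜ))).exists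
  obtain ⟨s', h1, h2⟩ := Metric.eventually_nhds_iff.1 (Filter.eventually_all.2 fun k =>
    ContinuousAt.eventually_lt (f := fun x => ‖(t⁻¹ • b.coord k) x‖) (x₀ := 0)
      (t⁻¹ • b.coord k).continuous_of_finiteDimensional.norm.continuousAt
      (continuousAt_const (y := 1)) (by simp))
  refine ⟨min s' s, lt_min h1 hs, min_le_right _ _, fun θ c hm A χ h hχ he => ?_⟩
  have h3 := (H2_sum hs hadd hnil h0 hc _ ht (fun k m => (t⁻¹ • b.coord k) (c * (θ ^ m - 1)))
    (fun k m => (h2 ((dist_zero_right _).trans_lt ((hm m).trans_le (min_le_left _ _))) k).le) (fun k => by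
      have h4 := fun θ => Geo.linear
        (Algebra.linearMap ℚ_[p] (AlgebraicClosure E) ∘ₗ (t⁻¹ • b.coord k)) c θ
      change _ ∈ Geo _
      simpa only [mul_sub, map_sub, ← IsScalarTower.algebraMap_apply, one_pow] using!
        sub_mem (h4 θ) (h4 1)) Finset.univ).2
  simp only [LinearMap.smul_apply, smul_smul, smul_eq_mul, mul_right_comm t⁻¹,
    inv_mul_cancel₀ t0, one_mul, Module.Basis.coord_apply, Module.Basis.sum_repr] at h3
  have h5 : (fun m : ℕ => (m : E) * χ ^ m * h) ∈ H2_G E := by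
    have h4 := sum_mem (t := Finset.univ) fun i _ => sum_mem (t := Finset.univ) fun j _ =>
      (H2_G E).smul_mem (h3 i j) (A i j)
    convert h4 using 1
    funext m
    simp only [he, Finset.sum_apply, Pi.smul_apply, smul_eq_mul]
  have : CharZero (AlgebraicClosure E) :=
    charZero_of_injective_algebraMap (algebraMap ℚ_[p] _).injective
  have hi := (algebraMap E (AlgebraicClosure E)).injective
  refine (map_eq_zero_iff _ hi).1 (Geo.eq_zero ((map_ne_zero_iff _ hi).2 hχ) ?_)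
  change _ ∈ Geo _ at h5
  simpa only [map_mul, map_pow, map_natCast] using h5

end Pool.Agent.MP_4d0c14_b

end
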