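import Pool.Agent.Mg.F4d0c14.Ge1179e
import Pool.Agent.MP_4d0c14_b.Stmt
import Pool.Agent.Mg.F4d0c14.G40661c
import Pool.Agent.Mg.F4d0c14.G2b7368
import Pool.Agent.Mg.F4d0c14.Gec9bb9

section

/-! Whitehead lemma for congruence subgroups. -/

namespace Pool.Agent.MP_4d0c14_b

open scoped Matrix

section Aux

variable {n N : ℕ} {F E : Type}

theorem H4_mul_inv [Field F] [Field E] (ρ : GL (Fin n) F →* Matrix (Fin N) (Fin N) E)
    (k : GL (Fin n) F) : ρ k * ρ k⁻¹ = 1 := by rw [← map_mul, mul_inv_cancel, map_one]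

theorem H4_inv_mul [Field F] [Field E] (ρ : GL (Fin n) F →* Matrix (Fin N) (Fin N) E)
    (k : GL (Fin n) F) : ρ k⁻¹ * ρ k = 1 := by rw [← map_mul, inv_mul_cancel, map_one]

theorem H4_coc_sub [NormedField F] [Field E] {ρ : GL (Fin n) F →* Matrix (Fin N) (Fin N) E}
    {s : ℝ} {u : GL (Fin n) F → Matrix (Fin N) (Fin N) E} (hu : Coc ρ s u)
    (b : Matrix (Fin N) (Fin N) E) : Coc ρ s fun k => u k - (ρ k * b * ρ k⁻¹ - b) := by
  intro k k' hk hk'
  simp only [hu k k' hk hk', mul_inv_rev, map_mul, mul_sub, sub_mul, mul_assoc]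
  abel

theorem H4_coc_one [NormedField F] [Field E] {ρ : GL (Fin n) F →* Matrix (Fin N) (Fin N) E}
    {s : ℝ} (hs0 : 0 < s) {u : GL (Fin n) F → Matrix (Fin N) (Fin N) E} (hu : Coc ρ s u) :
    u 1 = 0 := by
  have := hu 1 1 (near_one hs0) (near_one hs0)
  simpa using this

theorem H4_zpow_ne [Field E] [CharZero E] {z : ℕ} (hz : 2 ≤ z) {d : ℤ} (hd : d ≠ 0) :
    (z : E) ^ d - 1 ≠ 0 := by
  intro h
  have h1 : ((z : ℚ) ^ d) = 1 := by
    have : (((z : ℚ) ^ d : ℚ) : E) = ((1 : ℚ) : E) := by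
      push_cast
      exact sub_eq_zero.1 h
    exact_mod_cast this
  have h2 : (1 : ℚ) < z := by exact_mod_cast hz
  exact hd ((zpow_eq_one_iff_right₀ (by positivity) h2.ne').1 h1)

/-- the action on the extension -/
def H4_R [Field E] (A B : Matrix (Fin N) (Fin N) E) :
    ((Fin N → E) × (Fin N → E)) →ₗ[E] ((Fin N → E) × (Fin N → E)) where
  toFun x := (A *ᵥ x.1 + B *ᵥ x.2, A *ᵥ x.2)
  map_add' x y := by
    simp only [Prod.fst_add, Prod.snd_add, Matrix.mulVec_add, Prod.mk_add_mk]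
    congr 1
    abel
  map_smul' c x := by
    simp [Matrix.mulVec_smul]

theorem H4_R_apply [Field E] (A B : Matrix (Fin N) (Fin N) E) (x y : Fin N → E) :
    H4_R A B (x, y) = (A *ᵥ x + B *ᵥ y, A *ᵥ y) := rfl

theorem H4_R_mul [NormedField F] [Field E] {ρ : GL (Fin n) F →* Matrix (Fin N) (Fin N) E}
    {s : ℝ} {u : GL (Fin n) F → Matrix (Fin N) (Fin N) E} (hu : Coc ρ s u)
    {k k' : GL (Fin n) F} (hk : Near s k) (hk' : Near s k') (x : (Fin N → E) × (Fin N → E)) :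
    H4_R (ρ (k * k')) (u (k * k') * ρ (k * k')) x =
      H4_R (ρ k) (u k * ρ k) (H4_R (ρ k') (u k' * ρ k') x) := by
  obtain ⟨x, y⟩ := x
  have e : u (k * k') * ρ (k * k') = ρ k * (u k' * ρ k') + u k * ρ k * ρ k' := by
    rw [hu k k' hk hk', map_mul, add_mul, mul_assoc (ρ k * u k'), ← mul_assoc (ρ k⁻¹),
      H4_inv_mul, one_mul, add_comm]
    simp only [mul_assoc]
  rw [e]
  simp only [H4_R_apply, map_mul, Matrix.mulVec_add, Matrix.add_mulVec, Matrix.mulVec_mulVec,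
    add_assoc]

variable {ι : Type} [Fintype ι] {a : ι → Fin n → ℤ} {D : ℕ}

theorem H4_pi_w [Field F] [Field E] {κ : ι → F →+* E}
    {ρ : GL (Fin n) F →* Matrix (Fin N) (Fin N) E} {w l : Fin N → E}
    {π : Fin (D + 1) → Matrix (Fin N) (Fin N) E} (hg : Graded κ a ρ w l π) (x : Fin N → E) :
    π 0 *ᵥ x = (l ⬝ᵥ x) • w := by
  rw [hg.zero, Matrix.vecMulVec_mulVec, op_smul_eq_smul]

theorem H4_l_pi [Field F] [Field E] {κ : ι → F →+* E}
    {ρ : GL (Fin n) F →* Matrix (Fin N) (Fin N) E} {w l : Fin N → E}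
    {π : Fin (D + 1) → Matrix (Fin N) (Fin N) E} (hg : Graded κ a ρ w l π) :
    l ᵥ* π 0 = l := by
  rw [hg.zero, Matrix.vecMul_vecMulVec, hg.lw, one_smul]

theorem H4_left [Field F] [Field E] {κ : ι → F →+* E}
    {ρ : GL (Fin n) F →* Matrix (Fin N) (Fin N) E} {w l : Fin N → E}
    {π : Fin (D + 1) → Matrix (Fin N) (Fin N) E} (hg : Graded κ a ρ w l π)
    (X : Matrix (Fin N) (Fin N) E) : X *ᵥ w = ∑ M, (π M * X * π 0) *ᵥ w := by
  have h1 : π 0 *ᵥ w = w := by rw [H4_pi_w hg, hg.lw, one_smul]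
  rw [← Matrix.sum_mulVec, ← Finset.sum_mul, ← Finset.sum_mul, hg.sum, one_mul,
    ← Matrix.mulVec_mulVec, h1]

theorem H4_right [Field F] [Field E] {κ : ι → F →+* E}
    {ρ : GL (Fin n) F →* Matrix (Fin N) (Fin N) E} {w l : Fin N → E}
    {π : Fin (D + 1) → Matrix (Fin N) (Fin N) E} (hg : Graded κ a ρ w l π)
    (X : Matrix (Fin N) (Fin N) E) (h : ∀ M, π 0 * X * π M = 0) : l ᵥ* X = 0 := by
  have h1 : π 0 * X = 0 := by
    rw [← mul_one (π 0 * X), ← hg.sum, Finset.mul_sum]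
    exact Finset.sum_eq_zero fun M _ => h M
  rw [← H4_l_pi hg, Matrix.vecMul_vecMul, h1, Matrix.vecMul_zero]

variable [NormedField F] [CharZero F] [Field E] [CharZero E] {κ : ι → F →+* E}
  {ρ : GL (Fin n) F →* Matrix (Fin N) (Fin N) E} {w l : Fin N → E}
  {π : Fin (D + 1) → Matrix (Fin N) (Fin N) E} {s : ℝ}
  {u : GL (Fin n) F → Matrix (Fin N) (Fin N) E}

theorem H4_dg (hg : Graded κ a ρ w l π) (hu : Coc ρ s u) {z : ℕ} (hz : 2 ≤ z) {ζ : Fˣ}
    (hζ : (ζ : F) = z) (hτ : Near s (dg fun i : Fin n => ζ ^ (i : ℕ)))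
    (h0 : ∀ M M', M ≠ M' → π M * u (dg fun i : Fin n => ζ ^ (i : ℕ)) * π M' = 0)
    (t : Fin n → Fˣ) (ht : Near s (dg t)) (M M' : Fin (D + 1)) (hM : M ≠ M') :
    π M * u (dg t) * π M' = 0 := by
  have h1 := hu _ _ hτ ht
  have h2 := hu _ _ ht hτ
  rw [← dg_mul, mul_comm, dg_mul, h2] at h1
  have h3 := congrArg (fun X => π M * X * π M') h1
  simp only [mul_add, add_mul] at h3
  rw [hg.conj ζ (z : ℚ) (by simpa using hζ), h0 M M' hM, zero_add] at h3
  have h4 : π M * (ρ (dg t) * u (dg fun i : Fin n => ζ ^ (i : ℕ)) * ρ (dg t)⁻¹) * π M' = 0 := by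
    rw [← dg_inv, mul_assoc (π M), mul_assoc _ (ρ (dg t⁻¹)), ← hg.comm_dg, ← mul_assoc,
      ← mul_assoc, ← mul_assoc, hg.comm_dg, mul_assoc (ρ (dg t)), mul_assoc (ρ (dg t)),
      h0 M M' hM, mul_zero, zero_mul]
  rw [h4, add_zero, Rat.cast_natCast] at h3
  have h5 : ((z : E) ^ (((M : ℕ) : ℤ) - ((M' : ℕ) : ℤ)) - 1) • (π M * u (dg t) * π M') = 0 := by
    rw [sub_smul, one_smul, ← h3, sub_self]
  refine (smul_eq_zero.1 h5).resolve_left (H4_zpow_ne hz ?_)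
  intro h
  exact hM (Fin.ext (by omega))

theorem H4_root [IsUltrametricDist F] (hg : Graded κ a ρ w l π) (hs0 : 0 < s)
    (hu : Coc ρ s u) {z c : ℕ} (hz : 2 ≤ z) (hc : 1 ≤ c) {ζ : Fˣ} {y : ℚ} (hζ : (ζ : F) = y)
    (hτ : Near s (dg fun i : Fin n => ζ ^ (i : ℕ)))
    (h0 : ∀ M M', M ≠ M' → π M * u (dg fun i : Fin n => ζ ^ (i : ℕ)) * π M' = 0)
    {i j : Fin n} (h : i ≠ j) (hij : (ζ : F) ^ (i : ℕ) / (ζ : F) ^ (j : ℕ) = (z : F) ^ c)
    (deg : Fin (D + 1) → ℤ)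
    (hdeg : ∀ M M' : Fin (D + 1),
      (y : E) ^ (((M : ℕ) : ℤ) - ((M' : ℕ) : ℤ)) = (z : E) ^ (deg M - deg M'))
    (hU : ∀ x M M', deg M ≤ deg M' → π M * (ρ (tv i j h x) - 1) * π M' = 0)
    (x : F) (hx : ‖x‖ < s) (M M' : Fin (D + 1)) (hM : deg M ≤ deg M') :
    π M * u (tv i j h x) * π M' = 0 := by
  refine extreme_component (ballG F s hs0) π deg hg.sum hg.orth (fun x => ρ (tv i j h x))
    (fun x => u (tv i j h x)) (u (dg fun i : Fin n => ζ ^ (i : ℕ))) z hz c hc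
    (fun x _ => hU x) ?_ (fun M M' hM => h0 M M' fun e => hM (by rw [e])) ?_ x hx M M' hM
  · intro x hx x' hx'
    simp only [tv_add, tv_neg]
    exact hu _ _ ((near_tv hs0 i j h x).2 hx) ((near_tv hs0 i j h x').2 hx')
  · intro x hx M M'
    have hx' : ‖(z ^ c • x : F)‖ < s := (ballG F s hs0).nsmul_mem hx _
    have e : tv i j h (z ^ c • x) * (dg fun i : Fin n => ζ ^ (i : ℕ)) =
        (dg fun i : Fin n => ζ ^ (i : ℕ)) * tv i j h x := by
      rw [← eq_mul_inv_iff_mul_eq, dg_conj_tv]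
      congr 1
      rw [nsmul_eq_mul, Nat.cast_pow, ← hij]
      simp only [Units.val_pow_eq_pow_val]
      ring
    have h1 := hu _ _ ((near_tv hs0 i j h _).2 hx') hτ
    rw [e, hu _ _ hτ ((near_tv hs0 i j h x).2 hx)] at h1
    have h2 := eq_sub_of_add_eq h1.symm
    simp only [tv_neg]
    rw [h2, ← hdeg, ← hg.conj ζ y hζ]
    simp only [mul_add, add_mul, mul_sub, sub_mul]
    abel

end Aux

variable (p : ℕ) [Fact p.Prime] {n N : ℕ} {F E ι : Type} [NontriviallyNormedField F]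
  [IsUltrametricDist F] [NormedAlgebra ℚ_[p] F] [FiniteDimensional ℚ_[p] F] [NormedField E]
  [IsUltrametricDist E] [NormedAlgebra ℚ_[p] E] [Fintype ι] {κ : ι → F →+* E}
  {a : ι → Fin n → ℤ} {ρ : GL (Fin n) F →* Matrix (Fin N) (Fin N) E}

omit [IsUltrametricDist F] [FiniteDimensional ℚ_[p] F] in
theorem H4_norm_p : ‖(p : F)‖ < 1 := by
  rw [← map_natCast (algebraMap ℚ_[p] F), norm_algebraMap']
  exact Padic.norm_p_lt_one

omit [NormedAlgebra ℚ_[p] F] [FiniteDimensional ℚ_[p] F] [NormedAlgebra ℚ_[p] E] in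
theorem H4_cts (ok : AlgOK κ a ρ) (hκ : ∀ σ x, ‖κ σ x‖ = ‖x‖)
    {u : GL (Fin n) F → Matrix (Fin N) (Fin N) E} (hc : Cts u) (b : Matrix (Fin N) (Fin N) E) :
    Cts fun k => u k - (ρ k * b * ρ k⁻¹ - b) := by
  intro ε hε
  obtain ⟨C, hC, hb⟩ := MLe.exists_bound b
  obtain ⟨δ, hδ, h1⟩ := hc ε hε
  have hη : 0 < min 1 (ε / C) := lt_min one_pos (div_pos hε hC)
  obtain ⟨r, hr, h2⟩ := ok.cont hκ hη
  have h0 : 0 < min 1 (min δ r) := lt_min one_pos (lt_min hδ hr)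
  refine ⟨min 1 (min δ r), h0, fun k hk => ?_⟩
  have hk' := hk.inv h0 (min_le_left _ _)
  have h3 := h2 k (hk.mono ((min_le_right _ _).trans (min_le_right _ _)))
  have h4 := h2 k⁻¹ (hk'.mono ((min_le_right _ _).trans (min_le_right _ _)))
  have h5 : MLe 1 (ρ k⁻¹) := by
    have := (h4.mono (min_le_left _ _)).add MLe.one
    rwa [sub_add_cancel] at this
  have h6 : min 1 (ε / C) * C ≤ ε := (le_div_iff₀ hC).1 (min_le_right _ _)
  have e : ρ k * b * ρ k⁻¹ - b = (ρ k - 1) * b * ρ k⁻¹ + b * (ρ k⁻¹ - 1) := by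
    simp only [sub_mul, mul_sub, one_mul, mul_one]
    abel
  refine (h1 k (hk.mono ((min_le_right _ _).trans (min_le_left _ _)))).sub ?_
  rw [e]
  refine MLe.add (((h3.mul hb hη.le hC.le).mul h5 (mul_pos hη hC).le zero_le_one).mono ?_)
    ((hb.mul h4 hC.le hη.le).mono ?_)
  · rwa [mul_one]
  · rwa [mul_comm]

include p in
/-- after subtracting a coboundary the cocycle kills the highest weight vector -/
theorem normalise (ok : AlgOK κ a ρ) (hκ : ∀ σ x, ‖κ σ x‖ = ‖x‖) {D : ℕ} {w l : Fin N → E}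
    {π : Fin (D + 1) → Matrix (Fin N) (Fin N) E} (hg : Graded κ a ρ w l π) {s : ℝ} (hs0 : 0 < s)
    (hs : s ≤ 1) {u : GL (Fin n) F → Matrix (Fin N) (Fin N) E} (hu : Coc ρ s u) (hc : Cts u)
    (hz : ∀ z : Fˣ, Near s (dg fun _ : Fin n => z) → u (dg fun _ => z) = 0) :
    ∃ b : Matrix (Fin N) (Fin N) E,
      (∀ k, Near s k → IsUp1 k → (u k - (ρ k * b * ρ k⁻¹ - b)) *ᵥ w = 0) ∧
      (∀ k, Near s k → IsLow1 k → l ᵥ* (u k - (ρ k * b * ρ k⁻¹ - b)) = 0) ∧
      ∀ t, Near s (dg t) → (u (dg t) - (ρ (dg t) * b * ρ (dg t)⁻¹ - b)) *ᵥ w = 0 := by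
  have : CharZero F := charZero_of_injective_algebraMap (algebraMap ℚ_[p] F).injective
  have : CharZero E := charZero_of_injective_algebraMap (algebraMap ℚ_[p] E).injective
  obtain ⟨m, hm⟩ := exists_pow_lt_of_lt_one hs0 (H4_norm_p p (F := F))
  obtain ⟨z, hzd⟩ : ∃ z : ℕ, z = p ^ m + 1 := ⟨_, rfl⟩
  have hz2 : 2 ≤ z := by
    have := Nat.one_le_pow m p (Fact.out : p.Prime).pos
    omega
  have hz0 : (z : F) ≠ 0 := Nat.cast_ne_zero.2 (by omega)
  have hz1 : ‖(z : F) - 1‖ < s := by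
    rw [hzd]
    simpa using hm
  have hzi : ∀ i : ℕ, ‖(z : F) ^ i - 1‖ < s := by
    intro i
    induction i with
    | zero => simpa using hs0
    | succ i ih =>
      have e : (z : F) ^ (i + 1) - 1 = z * ((z : F) ^ i - 1) + ((z : F) - 1) := by ring
      rw [e]
      refine (IsUltrametricDist.norm_add_le_max _ _).trans_lt (max_lt ?_ hz1)
      rw [norm_mul]
      exact (mul_le_of_le_one_left (norm_nonneg _)
        (IsUltrametricDist.norm_natCast_le_one F z)).trans_lt ih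
  obtain ⟨ζ, hζ⟩ : ∃ ζ : Fˣ, (ζ : F) = z := ⟨Units.mk0 _ hz0, rfl⟩
  have hτ : Near s (dg fun i : Fin n => ζ ^ (i : ℕ)) :=
    (near_dg hs0 _).2 fun i => by simpa [hζ] using hzi i
  have hτ' : Near s (dg fun i : Fin n => ζ⁻¹ ^ (i : ℕ)) := by
    have := hτ.inv hs0 hs
    rw [← dg_inv] at this
    convert this using 2
    ext i
    simp
  obtain ⟨b, hb⟩ : ∃ b : Matrix (Fin N) (Fin N) E, ∀ M M' : Fin (D + 1), π M * b * π M' =
      ((z : E) ^ (((M : ℕ) : ℤ) - ((M' : ℕ) : ℤ)) - 1)⁻¹ •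
        (π M * u (dg fun i : Fin n => ζ ^ (i : ℕ)) * π M') := by
    refine ⟨∑ M : Fin (D + 1), ∑ M' : Fin (D + 1),
      ((z : E) ^ (((M : ℕ) : ℤ) - ((M' : ℕ) : ℤ)) - 1)⁻¹ •
        (π M * u (dg fun i : Fin n => ζ ^ (i : ℕ)) * π M'), fun M M' => ?_⟩
    have e : ∀ (X : Matrix (Fin N) (Fin N) E) (A B : Fin (D + 1)),
        π M * (π A * X * π B) * π M' = if M = A then if B = M' then π M * X * π M' else 0
          else 0 := by
      intro X A B
      rw [mul_assoc (π M), mul_assoc _ (π B), hg.orth, ← mul_assoc, ← mul_assoc, hg.orth]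
      split_ifs with h1 h2 h2 <;> simp [*]
    simp only [Finset.mul_sum, Finset.sum_mul, mul_smul_comm, smul_mul_assoc, e]
    rw [Finset.sum_eq_single M, Finset.sum_eq_single M'] <;> simp +contextual [eq_comm]
  refine ⟨b, ?_⟩
  have hu' := H4_coc_sub hu b
  have hc' := H4_cts ok hκ hc b
  have hz' : ∀ z : Fˣ, Near s (dg fun _ : Fin n => z) →
      (fun k => u k - (ρ k * b * ρ k⁻¹ - b)) (dg fun _ => z) = 0 := by
    intro z h
    have e : ρ (dg fun _ : Fin n => z) * b = b * ρ (dg fun _ : Fin n => z) := by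
      rw [ok.cen]
      simp
    simp only [hz z h, e, mul_assoc, H4_mul_inv, mul_one, sub_self]
  have h0 : ∀ M M', M ≠ M' → π M * (fun k => u k - (ρ k * b * ρ k⁻¹ - b))
      (dg fun i : Fin n => ζ ^ (i : ℕ)) * π M' = 0 := by
    intro M M' hM
    have h1 : (z : E) ^ (((M : ℕ) : ℤ) - ((M' : ℕ) : ℤ)) - 1 ≠ 0 :=
      H4_zpow_ne hz2 fun h => hM (Fin.ext (by omega))
    simp only [mul_sub, sub_mul]
    rw [hg.conj ζ (z : ℚ) (by simpa using hζ), Rat.cast_natCast]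
    nth_rewrite 2 [← one_smul E (π M * b * π M')]
    rw [← sub_smul, hb, smul_smul, mul_inv_cancel₀ h1, one_smul, sub_self]
  show (∀ k, Near s k → IsUp1 k → (fun k => u k - (ρ k * b * ρ k⁻¹ - b)) k *ᵥ w = 0) ∧
      (∀ k, Near s k → IsLow1 k → l ᵥ* (fun k => u k - (ρ k * b * ρ k⁻¹ - b)) k = 0) ∧
      ∀ t, Near s (dg t) → (fun k => u k - (ρ k * b * ρ k⁻¹ - b)) (dg t) *ᵥ w = 0
  generalize (fun k => u k - (ρ k * b * ρ k⁻¹ - b)) = v at hu' hc' hz' h0 ⊢
  have hdg := H4_dg hg hu' hz2 hζ hτ h0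
  have hup : ∀ (i j : Fin n) (h : i < j) (x : F), ‖x‖ < s → v (tv i j h.ne x) *ᵥ w = 0 := by
    intro i j h x hx
    have hij : (i : ℕ) < j := h
    rw [H4_left hg]
    refine Finset.sum_eq_zero fun M _ => ?_
    rw [H4_root (c := j - i) (y := (z : ℚ)⁻¹) hg hs0 hu' hz2 (by omega) (by simp [hζ]) hτ'
      (hdg _ hτ') h.ne ?_ (fun M => -((M : ℕ) : ℤ)) ?_ ?_ x hx M 0 (by simp), Matrix.zero_mulVec]
    · rw [Units.val_inv_eq_inv_val, hζ, pow_sub₀ _ hz0 hij.le, inv_pow, inv_pow, div_inv_eq_mul,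
        mul_comm]
    · intro M M'
      rw [Rat.cast_inv, Rat.cast_natCast, inv_zpow']
      congr 1
      ring
    · intro x M M' hM
      exact hg.deg_up ok.reg h x (Fin.le_def.2 (by omega))
  have hlow : ∀ (i j : Fin n) (h : j < i) (x : F), ‖x‖ < s → l ᵥ* v (tv i j h.ne' x) = 0 := by
    intro i j h x hx
    have hij : (j : ℕ) < i := h
    refine H4_right hg _ fun M => ?_
    refine H4_root (c := i - j) (y := (z : ℚ)) hg hs0 hu' hz2 (by omega) (by simp [hζ]) hτ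
      h0 h.ne' ?_ (fun M => ((M : ℕ) : ℤ)) ?_ ?_ x hx 0 M (by simp)
    · rw [hζ, pow_sub₀ _ hz0 hij.le, div_eq_mul_inv]
    · intro M M'
      rw [Rat.cast_natCast]
    · intro x M M' hM
      exact hg.deg_low ok.reg h x (Fin.le_def.2 (by omega))
  refine ⟨fun k hk hk' => ?_, fun k hk hk' => ?_,
    torus_part p ok hκ hg hs0 hs hu' hc' hz' hup hlow fun t ht => ?_⟩
  · refine up1_induction hs0 hs (fun k => v k *ᵥ w = 0) (by simp [H4_coc_one hs0 hu']) ?_ hk' hk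
    intro i j h x k hx _ hk hq
    rw [hu' _ _ ((near_tv hs0 i j _ x).2 hx) hk, Matrix.add_mulVec, hup i j h x hx, zero_add,
      ← Matrix.mulVec_mulVec, hg.up _ (isUp1_tv h x).inv, ← Matrix.mulVec_mulVec, hq,
      Matrix.mulVec_zero]
  · refine low1_induction hs0 hs (fun k => l ᵥ* v k = 0) (by simp [H4_coc_one hs0 hu']) ?_ hk' hk
    intro i j h x k hx hl hk hq
    rw [hu' _ _ hk ((near_tv hs0 i j _ x).2 hx), Matrix.vecMul_add, hq, zero_add,
      ← Matrix.vecMul_vecMul, ← Matrix.vecMul_vecMul, hg.low _ hl, hlow i j h x hx,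
      Matrix.zero_vecMul]
  · refine ⟨l ⬝ᵥ ((v (dg t) * π 0) *ᵥ w), ?_⟩
    rw [H4_left hg, Finset.sum_eq_single 0, ← H4_pi_w hg, Matrix.mulVec_mulVec, mul_assoc]
    · intro M _ hM
      rw [hdg t ht M 0 hM, Matrix.zero_mulVec]
    · simp

include p in
theorem whitehead (ok : AlgOK κ a ρ) (hκ : ∀ σ x, ‖κ σ x‖ = ‖x‖) {s : ℝ} (hs0 : 0 < s)
    (hs : s ≤ 1) {u : GL (Fin n) F → Matrix (Fin N) (Fin N) E} (hu : Coc ρ s u) (hc : Cts u)
    (hz : ∀ z : Fˣ, Near s (dg fun _ : Fin n => z) → u (dg fun _ => z) = 0) :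
    ∃ b : Matrix (Fin N) (Fin N) E, ∀ k, Near s k → u k = ρ k * b * ρ k⁻¹ - b := by
  have : CharZero F := charZero_of_injective_algebraMap (algebraMap ℚ_[p] F).injective
  have : CharZero E := charZero_of_injective_algebraMap (algebraMap ℚ_[p] E).injective
  have hp0 : p ≠ 0 := (Fact.out : p.Prime).ne_zero
  have hp := H4_norm_p p (F := F)
  obtain ⟨w, l, D, π, hg⟩ := ok.grad
  obtain ⟨b, h1, h2, h3⟩ := normalise p ok hκ hg hs0 hs hu hc hz
  have hu' := H4_coc_sub hu b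
  suffices h : ∃ b' : Matrix (Fin N) (Fin N) E, ∀ k, Near s k →
      (fun k => u k - (ρ k * b * ρ k⁻¹ - b)) k * ρ k = b' * ρ k - ρ k * b' by
    obtain ⟨b', hb'⟩ := h
    refine ⟨b - b', fun k hk => ?_⟩
    have h4 := congrArg (· * ρ k⁻¹) (hb' k hk)
    simp only [sub_mul (b' * ρ k), mul_assoc _ (ρ k) (ρ k⁻¹), H4_mul_inv, mul_one] at h4
    rw [sub_eq_iff_eq_add.1 h4, mul_sub, sub_mul]
    abel
  change ∀ k, Near s k → IsUp1 k → (fun k => u k - (ρ k * b * ρ k⁻¹ - b)) k *ᵥ w = 0 at h1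
  change ∀ k, Near s k → IsLow1 k → l ᵥ* (fun k => u k - (ρ k * b * ρ k⁻¹ - b)) k = 0 at h2
  change ∀ t, Near s (dg t) → (fun k => u k - (ρ k * b * ρ k⁻¹ - b)) (dg t) *ᵥ w = 0 at h3
  generalize (fun k => u k - (ρ k * b * ρ k⁻¹ - b)) = v at hu' h1 h2 h3 ⊢
  let Y : Submodule E ((Fin N → E) × (Fin N → E)) :=
    Submodule.span E {x | ∃ k, IsLow1 k ∧ Near s k ∧ x = H4_R (ρ k) (v k * ρ k) (0, w)}
  have hY : ∀ k, Near s k → ∀ x ∈ Y, H4_R (ρ k) (v k * ρ k) x ∈ Y := by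
    intro k hk
    refine Submodule.span_le (p := Y.comap (H4_R (ρ k) (v k * ρ k))).2 ?_
    rintro _ ⟨k', -, hk', rfl⟩
    obtain ⟨c, d, t, hc1, hd1, hc2, hd2, ht, e⟩ := exists_ldu hs0 hs (hk.mul hs0 hs hk')
    have e1 : H4_R (ρ d) (v d * ρ d) (0, w) = (0, w) := by
      rw [H4_R_apply, ← Matrix.mulVec_mulVec, hg.up d hd1, h1 d hd2 hd1]
      simp
    have e2 : H4_R (ρ (dg t)) (v (dg t) * ρ (dg t)) (0, w) = chi κ a t • (0, w) := by
      rw [H4_R_apply, ← Matrix.mulVec_mulVec, hg.tor, Matrix.mulVec_smul, h3 t ht]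
      simp
    show H4_R (ρ k) (v k * ρ k) _ ∈ Y
    rw [← H4_R_mul hu' hk hk', e, H4_R_mul hu' (hc2.mul hs0 hs ht) hd2, H4_R_mul hu' hc2 ht, e1,
      e2, map_smul]
    exact Y.smul_mem _ (Submodule.subset_span ⟨c, hc1, hc2, rfl⟩)
  have hl : ∀ x ∈ Y, l ⬝ᵥ x.1 = 0 := by
    intro x hx
    induction hx using Submodule.span_induction with
    | mem x hx =>
      obtain ⟨k, hk1, hk, rfl⟩ := hx
      rw [H4_R_apply, Matrix.mulVec_zero, zero_add, ← Matrix.mulVec_mulVec,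
        Matrix.dotProduct_mulVec, h2 k hk hk1, zero_dotProduct]
    | zero => simp
    | add x y _ _ hx hy => simp [hx, hy]
    | smul c x _ hx => simp [hx]
  have hX : ∀ x, (x, 0) ∈ Y → x = 0 := by
    intro x hx
    by_contra h0
    have h4 := ok.irred p hp0 hp hs0 (Y.comap (LinearMap.inl E _ _))
      (fun k hk y hy => by simpa [H4_R_apply] using hY k hk _ hy) (v := x) hx h0
    have h5 : (w, 0) ∈ Y := by
      have : w ∈ Y.comap (LinearMap.inl E _ _) := h4 ▸ Submodule.mem_top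
      exact this
    have h6 := hl _ h5
    rw [hg.lw] at h6
    exact one_ne_zero h6
  have hw : w ≠ 0 := by
    intro h
    have := hg.lw
    simp [h] at this
  have hS : LinearMap.range ((LinearMap.snd E _ _).comp Y.subtype) = ⊤ := by
    refine ok.irred p hp0 hp hs0 _ ?_ (v := w) ?_ hw
    · rintro k hk _ ⟨x, rfl⟩
      exact ⟨⟨_, hY k hk _ x.2⟩, rfl⟩
    · refine ⟨⟨_, Submodule.subset_span ⟨1, fun _ _ _ => rfl, near_one hs0, rfl⟩⟩, ?_⟩
      simp [H4_R_apply]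
  obtain ⟨g, hg'⟩ := LinearMap.exists_rightInverse_of_surjective _ hS
  have hb' : ∀ y, (LinearMap.toMatrix' ((LinearMap.fst E _ _).comp (Y.subtype.comp g)) *ᵥ y, y)
      ∈ Y := by
    intro y
    have e : (g y).1.2 = y := LinearMap.congr_fun hg' y
    have e' : LinearMap.toMatrix' ((LinearMap.fst E _ _).comp (Y.subtype.comp g)) *ᵥ y =
        (g y).1.1 := by
      rw [← Matrix.toLin'_apply, Matrix.toLin'_toMatrix']
      rfl
    rw [e']
    convert (g y).2 using 1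
    exact Prod.ext rfl e.symm
  generalize LinearMap.toMatrix' ((LinearMap.fst E _ _).comp (Y.subtype.comp g)) = b' at hb'
  refine ⟨b', fun k hk => Matrix.toLin'.injective (LinearMap.ext fun y => ?_)⟩
  have h4 := Y.sub_mem (hY k hk _ (hb' y)) (hb' (ρ k *ᵥ y))
  rw [H4_R_apply, Prod.mk_sub_mk, sub_self] at h4
  have h5 := hX _ h4
  simp only [Matrix.toLin'_apply, Matrix.sub_mulVec]
  simp only [Matrix.mulVec_mulVec] at h5
  rw [← sub_eq_zero, ← h5]
  abel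

end Pool.Agent.MP_4d0c14_b

end

section

/-! The Emerton condition in every chamber. -/

namespace Pool.Agent.MP_4d0c14_b

open Finset in
theorem E3_ind {n k m : ℕ} {F E ι : Type} [NormedField F] [NormedField E] [Fintype ι]
    (D : TypeData n k m F E) (a : ι → Fin n → ℤ) (ϖ : Fˣ) (q : ℕ)
    (hcent : ‖((D.omega fun _ => ϖ : Eˣ) : E)‖ * ‖(ϖ : F)‖ ^ (∑ σ, ∑ i, a σ i) = 1)
    (hE : ∀ I, Emerton D a ϖ q I) (s : Equiv.Perm (Fin n)) (c : ℤ) (t : ℕ) :
    ∀ v : Fin k → ℤ, (∀ i, c ≤ v i ∧ v i ≤ c + t) → (Antitone fun i => v (D.b (s i))) →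
      ‖((D.omega fun i => ϖ ^ v i : Eˣ) : E)‖ *
        ‖(q : E)‖ ^ (∑ x ∈ univ.filter (fun x : Fin n × Fin n => D.b x.1 < D.b x.2),
          (v (D.b x.1) - v (D.b x.2)).toNat) *
        ‖(ϖ : F)‖ ^ (∑ σ, ∑ i, a σ i * v (D.b (s i))) ≤ 1 := by
  induction t with
  | zero =>
    intro v hv _
    obtain rfl : v = fun _ => c := funext fun i => by have := hv i; omega
    have h1 : (fun _ : Fin k => ϖ ^ c) = (fun _ => ϖ) ^ c := rfl
    simp only [h1, map_zpow, Units.val_zpow_eq_zpow_val, norm_zpow, sub_self, Int.toNat_zero,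
      sum_const_zero, pow_zero, mul_one, ← sum_mul, zpow_mul, ← mul_zpow, hcent, one_zpow, le_refl]
  | succ t ih =>
    intro v hv ha
    obtain ⟨I, hI⟩ : ∃ I : Finset (Fin k), ∀ i, i ∈ I ↔ v i = c + t + 1 :=
      ⟨univ.filter fun i => v i = c + t + 1, fun i => by simp⟩
    push_cast at hv
    have h1 := ih (fun i => v i - if i ∈ I then 1 else 0)
      (fun i => by have := hv i; simp only [hI]; split_ifs <;> omega) fun i j hij => by
        have := ha hij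
        have := hv (D.b (s i))
        simp only [hI] at *
        split_ifs <;> omega
    have h2 := mul_le_one₀ h1 (by positivity) (hE I)
    have e1 : (fun i => ϖ ^ v i) =
        (fun i => ϖ ^ (v i - if i ∈ I then 1 else 0)) * fun i => if i ∈ I then ϖ else 1 := by
      funext i
      rw [Pi.mul_apply]
      split_ifs
      · rw [zpow_sub_one, inv_mul_cancel_right]
      · rw [sub_zero, mul_one]
    have e2 : ∑ x ∈ univ.filter (fun x : Fin n × Fin n => D.b x.1 < D.b x.2),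
        (v (D.b x.1) - v (D.b x.2)).toNat =
        ∑ x ∈ univ.filter (fun x : Fin n × Fin n => D.b x.1 < D.b x.2),
          ((v (D.b x.1) - if D.b x.1 ∈ I then 1 else 0) -
            (v (D.b x.2) - if D.b x.2 ∈ I then 1 else 0)).toNat +
        (univ.filter fun x : Fin n × Fin n =>
          D.b x.1 < D.b x.2 ∧ D.b x.1 ∈ I ∧ D.b x.2 ∉ I).card := by
      rw [← filter_filter, card_filter, ← sum_add_distrib]
      refine sum_congr rfl fun x _ => ?_
      have := hv (D.b x.1)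
      have := hv (D.b x.2)
      simp only [hI]
      split_ifs <;> omega
    have e3 : ∀ i : Fin n, (i : ℕ) < (univ.filter fun x => D.b x ∈ I).card ↔ D.b (s i) ∈ I := by
      intro i
      rw [← card_equiv s (s := univ.filter fun i => D.b (s i) ∈ I) (by simp)]
      refine Fin.lt_card_filter_univ_iff_apply_of_imp (fun i => D.b (s i) ∈ I) fun i j hij h => ?_
      have := ha hij
      have := hv (D.b (s j))
      simp only [hI] at *
      omega
    have e4 : ∑ σ, ∑ i, a σ i * v (D.b (s i)) =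
        ∑ σ, ∑ i, a σ i * (v (D.b (s i)) - if D.b (s i) ∈ I then 1 else 0) +
        ∑ σ, ∑ i ∈ univ.filter
          (fun i : Fin n => (i : ℕ) < (univ.filter fun x => D.b x ∈ I).card), a σ i := by
      simp only [e3, sum_filter, ← sum_add_distrib]
      refine sum_congr rfl fun σ _ => sum_congr rfl fun i _ => ?_
      split_ifs <;> ring
    rw [e1, e2, e4, map_mul, Units.val_mul, norm_mul, pow_add,
      zpow_add₀ (norm_ne_zero_iff.2 ϖ.ne_zero)]
    refine le_of_eq_of_le ?_ h2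
    ring

theorem emerton_all {n k m : ℕ} {F E ι : Type} [NormedField F] [NormedField E] [Fintype ι]
    (D : TypeData n k m F E) (a : ι → Fin n → ℤ) (ϖ : Fˣ) (q : ℕ)
    (hcent : ‖((D.omega fun _ => ϖ : Eˣ) : E)‖ * ‖(ϖ : F)‖ ^ (∑ σ, ∑ i, a σ i) = 1)
    (hE : ∀ I, Emerton D a ϖ q I) (v : Fin k → ℤ) : ∃ s : Equiv.Perm (Fin n),
      ‖((D.omega fun i => ϖ ^ v i : Eˣ) : E)‖ *
        ‖(q : E)‖ ^ (∑ x ∈ Finset.univ.filter (fun x : Fin n × Fin n => D.b x.1 < D.b x.2),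
          (v (D.b x.1) - v (D.b x.2)).toNat) *
        ‖(ϖ : F)‖ ^ (∑ σ, ∑ i, a σ i * v (D.b (s i))) ≤ 1 := by
  refine ⟨Tuple.sort fun i => -v (D.b i), E3_ind D a ϖ q hcent hE _ (-(∑ i, (v i).natAbs : ℕ))
    (2 * ∑ i, (v i).natAbs) v (fun i => ?_) fun i j hij =>
      neg_le_neg_iff.1 (Tuple.monotone_sort (fun i => -v (D.b i)) hij)⟩
  have := Finset.single_le_sum (f := fun i => (v i).natAbs) (fun _ _ => Nat.zero_le _)
    (Finset.mem_univ i)
  omega

end Pool.Agent.MP_4d0c14_b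

end

section

/-! The orbit estimate. -/

namespace Pool.Agent.MP_4d0c14_b

open scoped Matrix

theorem E4_bnd_dg {n : ℕ} {F : Type} [NormedField F] (t : Fin n → Fˣ)
    (ht : ∀ i, ‖(t i : F)‖ = 1) : Bnd 1 (dg t) := by
  intro i j
  rw [← dg_inv, coe_dg, coe_dg]
  by_cases h : i = j
  · subst h
    simp [ht i]
  · simp [Matrix.diagonal_apply_ne _ h]

theorem E4_stab {G : Type} [Group G] (H : Subgroup G) (x s : G)
    (hs : s ∈ MulAction.stabilizer G (x : G ⧸ H)) : x⁻¹ * s * x ∈ H := by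
  rw [MulAction.mem_stabilizer_iff, MulAction.Quotient.smul_coe, smul_eq_mul,
    QuotientGroup.eq] at hs
  have := H.inv_mem hs
  simpa [mul_assoc] using this

theorem E4_conj_sub {n : ℕ} {F : Type} [Field F] (j y : GL (Fin n) F) :
    ((j * y * j⁻¹ : GL (Fin n) F) : Matrix (Fin n) (Fin n) F) - 1 =
      (j : Matrix (Fin n) (Fin n) F) * ((y : Matrix (Fin n) (Fin n) F) - 1) *
        ((j⁻¹ : GL (Fin n) F) : Matrix (Fin n) (Fin n) F) := by
  rw [Matrix.mul_sub, Matrix.sub_mul, Matrix.mul_one, ← Units.val_mul, ← Units.val_mul,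
    ← Units.val_mul, mul_inv_cancel, Units.val_one]

theorem E4_zpow_sum {α : Type} {x : ℝ} (hx : x ≠ 0) (s : Finset α) (f : α → ℤ) :
    x ^ (∑ i ∈ s, f i) = ∏ i ∈ s, x ^ f i := by
  classical
  induction s using Finset.induction_on with
  | empty => simp
  | insert a s ha ih => rw [Finset.sum_insert ha, Finset.prod_insert ha, zpow_add₀ hx, ih]

namespace TypeData

variable {n k m N : ℕ} {F E ι : Type} [NormedField F] [IsUltrametricDist F] [ProperSpace F]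
  [NormedField E] [IsUltrametricDist E] [CharZero E] [Fintype ι]
  (D : TypeData n k m F E) {r : ℝ} (hr : D.Good r) (ϖ : Fˣ) (hϖ : ‖(ϖ : F)‖ < 1)
  (hmax : ∀ x : F, ‖x‖ < 1 → ‖x‖ ≤ ‖(ϖ : F)‖)

omit [ProperSpace F] [IsUltrametricDist E] [CharZero E] in
include hϖ hmax in
theorem exists_cen_pow : ∃ C : ℝ, 0 < C ∧ ∀ j ∈ D.J, ∃ (v : Fin k → ℤ) (j' : GL (Fin n) F),
    j' ∈ D.J ∧ Bnd C j' ∧ j = D.cen (fun i => ϖ ^ v i) * j' := by
  obtain ⟨C, hC⟩ := D.bdd
  have hC1 : 0 < max C 1 := lt_max_of_lt_right one_pos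
  refine ⟨1 * max C 1, by simp, fun j hj => ?_⟩
  obtain ⟨z, hz⟩ := hC j hj
  have h1 : ∀ i, ∃ e : ℤ, ‖(((z i)⁻¹ : Fˣ) : F)‖ = ‖(ϖ : F)‖ ^ e := fun i =>
    exists_norm_eq_zpow ϖ hϖ hmax (Units.ne_zero _)
  choose v hv using h1
  have hp : (0 : ℝ) < ‖(ϖ : F)‖ := norm_pos_iff.2 ϖ.ne_zero
  let ε : Fin k → Fˣ := fun i => (ϖ ^ v i)⁻¹ * (z i)⁻¹
  have hε : ∀ i, ‖(ε i : F)‖ = 1 := fun i => by
    simp only [ε, Units.val_mul, norm_mul, hv i, Units.val_inv_eq_inv_val (ϖ ^ v i), norm_inv,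
      Units.val_zpow_eq_zpow_val, norm_zpow]
    exact inv_mul_cancel₀ (zpow_pos hp _).ne'
  refine ⟨v, D.cen ε * (D.cen z * j),
    D.J.mul_mem (D.cen_mem _) (D.J.mul_mem (D.cen_mem _) hj),
    Bnd.mul (E4_bnd_dg _ fun a => hε _) (Bnd.mono hz (le_max_left _ _)) zero_le_one hC1.le, ?_⟩
  rw [← mul_assoc, ← mul_assoc, ← D.cen_mul, ← D.cen_mul]
  have : (fun i => ϖ ^ v i) * ε * z = 1 := by
    funext i
    simp [ε]
  rw [this]
  exact (one_mul j).symm.trans (congrArg (· * j) dg_one.symm)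

omit [ProperSpace F] [IsUltrametricDist E] [CharZero E] in
theorem E4_entry {C : ℝ} (hC : 0 ≤ C) (v : Fin k → ℤ) {w j' : GL (Fin n) F} (hw : IsUnip D.b w)
    (hj' : j' ∈ D.J) (hb : Bnd C j')
    (hH : (D.cen (fun i => ϖ ^ v i) * j')⁻¹ * w * (D.cen (fun i => ϖ ^ v i) * j') ∈ D.HH hr)
    {a c : Fin n} (hac : a ≠ c) :
    ‖(w : Matrix (Fin n) (Fin n) F) a c‖ ≤ C * C * ‖(ϖ : F)‖ ^ (v (D.b a) - v (D.b c)) := by
  have hp : (0 : ℝ) < ‖(ϖ : F)‖ := norm_pos_iff.2 ϖ.ne_zero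
  set t := D.cen (fun i => ϖ ^ v i) with ht
  have hl : IsLevi D.b (t * j')⁻¹ := (D.levi _ (D.J.mul_mem (D.cen_mem _) hj')).inv
  have hu : IsUnip D.b ((t * j')⁻¹ * w * (t * j')) := by
    simpa only [inv_inv] using hw.conj hl
  have h1 : MLe 1 ((((t * j')⁻¹ * w * (t * j') : GL (Fin n) F) : Matrix (Fin n) (Fin n) F) - 1) :=
    (Bd.mle D (InH.bd_of_dpart D hH (D.dpart_unip hu))).mono hr.2.1.le
  rw [bnd_iff] at hb
  have h2 := (hb.1.mul h1 hC zero_le_one).mul hb.2 (by simpa using hC) hC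
  rw [← E4_conj_sub, mul_one] at h2
  have e : j' * ((t * j')⁻¹ * w * (t * j')) * j'⁻¹ = t⁻¹ * w * t := by group
  have h3 := h2 a c
  rw [e, Matrix.sub_apply, Matrix.one_apply_ne hac, sub_zero, ht, ← D.cen_inv, Units.val_mul,
    Units.val_mul, cen, cen, coe_dg, coe_dg, Matrix.mul_diagonal, Matrix.diagonal_mul, norm_mul,
    norm_mul] at h3
  simp only [Pi.inv_apply, Units.val_inv_eq_inv_val, norm_inv, Units.val_zpow_eq_zpow_val,
    norm_zpow] at h3
  rw [zpow_sub₀ hp.ne']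
  have h4 := zpow_pos hp (v (D.b a))
  have h5 := zpow_pos hp (v (D.b c))
  calc ‖(w : Matrix (Fin n) (Fin n) F) a c‖
      = ((‖(ϖ : F)‖ ^ v (D.b a))⁻¹ * ‖(w : Matrix (Fin n) (Fin n) F) a c‖ *
          ‖(ϖ : F)‖ ^ v (D.b c)) * (‖(ϖ : F)‖ ^ v (D.b a) / ‖(ϖ : F)‖ ^ v (D.b c)) := by
        field_simp
    _ ≤ _ := mul_le_mul_of_nonneg_right h3 (div_pos h4 h5).le

include hϖ hmax in
theorem norm_relIndex_le (c₀ : ℕ) (h₀ : 0 < ‖(ϖ : F)‖ ^ c₀) (h₁ : ‖(ϖ : F)‖ ^ c₀ ≤ 1) (C : ℝ) :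
    ∃ C' : ℝ, 0 < C' ∧ ∀ (v : Fin k → ℤ) (u j' : GL (Fin n) F), IsUnip D.b u → j' ∈ D.J →
      Bnd C j' →
      ‖(((MulAction.stabilizer (GL (Fin n) F)
          ((u * D.cen (fun i => ϖ ^ v i) * j' : GL (Fin n) F) : GL (Fin n) F ⧸ D.HH hr)).relIndex
          (D.UU ⊓ KK n F (‖(ϖ : F)‖ ^ c₀) h₀ h₁) : ℕ) : E)‖ ≤
        C' * ‖(resCard F : E)‖ ^
          (∑ x ∈ Finset.univ.filter (fun x : Fin n × Fin n => D.b x.1 < D.b x.2),
            (v (D.b x.1) - v (D.b x.2)).toNat) := by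
  have hp : (0 : ℝ) < ‖(ϖ : F)‖ := norm_pos_iff.2 ϖ.ne_zero
  have hC1 : 0 < max C 1 := lt_max_of_lt_right one_pos
  obtain ⟨c₁, hc₁⟩ := exists_pow_lt_of_lt_one (inv_pos.2 (mul_pos hC1 hC1)) hϖ
  have hc₁' : max C 1 * max C 1 * ‖(ϖ : F)‖ ^ c₁ < 1 := by
    rwa [← one_div, lt_div_iff₀ (mul_pos hC1 hC1), mul_comm] at hc₁
  have hq0 : 0 < ‖(resCard F : E)‖ := norm_pos_iff.2 (Nat.cast_ne_zero.2 resCard_ne_zero)
  have hq1 : ‖(resCard F : E)‖ ≤ 1 := IsUltrametricDist.norm_natCast_le_one E _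
  refine ⟨(‖(resCard F : E)‖ ^ (n * n * (c₀ + c₁)))⁻¹, inv_pos.2 (pow_pos hq0 _),
    fun v u j' hu hj' hb => ?_⟩
  let e : Fin n × Fin n → ℕ := fun x => (v (D.b x.1) - v (D.b x.2) - c₀ - c₁).toNat
  have hdvd := D.pow_dvd_relIndex ϖ hϖ hmax c₀ h₀ h₁ (MulAction.stabilizer (GL (Fin n) F)
    ((u * D.cen (fun i => ϖ ^ v i) * j' : GL (Fin n) F) : GL (Fin n) F ⧸ D.HH hr)) e (by
      intro s hs hsu hsn a c hac h0
      have hne : a ≠ c := fun h => hac.ne (congrArg _ h)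
      rcases Nat.eq_zero_or_pos (e (a, c)) with he | he
      · have := hsn a c
        rwa [Matrix.sub_apply, Matrix.one_apply_ne hne, sub_zero, ← add_zero c₀, ← he] at this
      · have h1 := E4_stab _ _ _ hs
        have e1 : (u * D.cen (fun i => ϖ ^ v i) * j')⁻¹ * s * (u * D.cen (fun i => ϖ ^ v i) * j') =
            (D.cen (fun i => ϖ ^ v i) * j')⁻¹ * (u⁻¹ * s * u) *
              (D.cen (fun i => ϖ ^ v i) * j') := by group
        rw [e1] at h1
        have h2 := D.E4_entry hr ϖ hC1.le v ((hu.inv.mul hsu).mul hu) hj'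
          (hb.mono (le_max_left _ _)) h1 hne
        rw [D.conj_entry hsu hu hac h0] at h2
        have e2 : v (D.b a) - v (D.b c) = ((c₁ + (c₀ + e (a, c)) : ℕ) : ℤ) := by
          simp only [e] at he ⊢
          omega
        rw [e2, zpow_natCast, pow_add, ← mul_assoc] at h2
        exact h2.trans_lt (mul_lt_of_lt_one_left (pow_pos hp _) hc₁'))
  obtain ⟨t, ht⟩ := hdvd
  rw [ht, Nat.cast_mul, Nat.cast_pow, norm_mul, norm_pow]
  have hsum : ∑ x ∈ Finset.univ.filter (fun x : Fin n × Fin n => D.b x.1 < D.b x.2),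
      (v (D.b x.1) - v (D.b x.2)).toNat ≤
      n * n * (c₀ + c₁) +
        ∑ x ∈ Finset.univ.filter (fun x : Fin n × Fin n => D.b x.1 < D.b x.2), e x := by
    calc _ ≤ ∑ x ∈ Finset.univ.filter (fun x : Fin n × Fin n => D.b x.1 < D.b x.2),
          ((c₀ + c₁) + e x) := Finset.sum_le_sum fun x _ => by
            simp only [e]
            omega
      _ ≤ _ := by
        rw [Finset.sum_add_distrib, Finset.sum_const, smul_eq_mul]
        refine Nat.add_le_add_right (Nat.mul_le_mul_right _ ?_) _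
        simpa using Finset.card_filter_le (Finset.univ : Finset (Fin n × Fin n))
          (fun x => D.b x.1 < D.b x.2)
  have h3 := pow_le_pow_of_le_one hq0.le hq1 hsum
  rw [pow_add] at h3
  rw [le_inv_mul_iff₀ (pow_pos hq0 _)]
  refine le_trans ?_ h3
  refine mul_le_mul_of_nonneg_left ?_ (pow_pos hq0 _).le
  exact mul_le_of_le_one_right (pow_pos hq0 _).le (IsUltrametricDist.norm_natCast_le_one E _)

include hϖ hmax in
theorem orbit_bound {κ : ι → F →+* E} {a : ι → Fin n → ℤ}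
    {ρ : GL (Fin n) F →* Matrix (Fin N) (Fin N) E} (ok : AlgOK κ a ρ) (hκ : ∀ σ x, ‖κ σ x‖ = ‖x‖)
    (hcent : ‖((D.omega fun _ => ϖ : Eˣ) : E)‖ * ‖(ϖ : F)‖ ^ (∑ σ, ∑ i, a σ i) = 1)
    (hE : ∀ I, Emerton D a ϖ (resCard F) I) :
    ∃ U : Subgroup (GL (Fin n) F), (∀ u ∈ U, u ∈ D.HH hr ∧ u ∈ D.PP ∧ D.lamF u = 1) ∧
      ∃ C : ℝ, ∀ p ∈ D.PP, ∃ i i', ∀ c c',
        ‖(((MulAction.stabilizer (GL (Fin n) F) (p : GL (Fin n) F ⧸ D.HH hr)).relIndex U : ℕ) :
          E)‖ * ‖D.lamF p c c'‖ ≤ C * ‖ρ p⁻¹ i i'‖ := by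
  have hp : (0 : ℝ) < ‖(ϖ : F)‖ := norm_pos_iff.2 ϖ.ne_zero
  obtain ⟨r₁, hr₁, -, hnear⟩ := D.near_mem hr
  obtain ⟨c₀, hc₀⟩ := exists_pow_lt_of_lt_one hr₁ hϖ
  have h₀ : 0 < ‖(ϖ : F)‖ ^ c₀ := pow_pos hp _
  have h₁ : ‖(ϖ : F)‖ ^ c₀ ≤ 1 := pow_le_one₀ hp.le hϖ.le
  obtain ⟨C₀, hC₀, hcen⟩ := D.exists_cen_pow ϖ hϖ hmax
  obtain ⟨C', hC', hidx⟩ := D.norm_relIndex_le hr ϖ hϖ hmax c₀ h₀ h₁ C₀
  obtain ⟨L, hL, hlam⟩ := D.lam_bdd C₀
  obtain ⟨R, hR, hρ⟩ := ok.bdd hκ C₀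
  obtain ⟨Cl, hCl, hlow⟩ := ok.lower hκ
  have := ok.nonempty
  refine ⟨D.UU ⊓ KK n F (‖(ϖ : F)‖ ^ c₀) h₀ h₁, fun u hu => ?_, C' * L * (Cl * R), ?_⟩
  · have h := hnear u (Near.mono hu.2 hc₀.le)
    exact ⟨h.1, ⟨1, D.J.one_mem, u, hu.1, (one_mul u).symm⟩, h.2⟩
  rintro _ ⟨j, hj, u, hu, rfl⟩
  obtain ⟨v, j', hj', hb, hjj⟩ := hcen j hj
  have hu' : IsUnip D.b (j * u * j⁻¹) := hu.conj (D.levi _ hj)
  have e1 : j * u = j * u * j⁻¹ * D.cen (fun i => ϖ ^ v i) * j' := by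
    rw [mul_assoc _ _ j', ← hjj]
    group
  obtain ⟨⟨i, i'⟩, hi⟩ := Finite.exists_max fun x : Fin N × Fin N => ‖ρ (j * u)⁻¹ x.1 x.2‖
  refine ⟨i, i', fun c c' => ?_⟩
  have hM : MLe ‖ρ (j * u)⁻¹ i i'‖ (ρ (j * u)⁻¹) := fun x y => hi (x, y)
  have h1 := hidx v _ j' hu' hj' hb
  rw [← e1] at h1
  have h2 : ‖D.lamF (j * u) c c'‖ ≤ ‖((D.omega fun i => ϖ ^ v i : Eˣ) : E)‖ * L := by
    have e2 : (⟨j, hj⟩ : D.J) = ⟨_, D.cen_mem fun i => ϖ ^ v i⟩ * ⟨j', hj'⟩ := Subtype.ext hjj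
    rw [D.lamF_mul_unip hj hu, e2, map_mul, D.lam_cen, smul_mul_assoc, one_mul,
      ← D.lamF_of_mem hj']
    exact (hlam j' hj' hb).smul _ c c'
  obtain ⟨s, hs⟩ := emerton_all D a ϖ (resCard F) hcent hE v
  have e3 : j' * (j * u)⁻¹ = D.cen (fun i => ϖ ^ v i)⁻¹ * (j * u * j⁻¹)⁻¹ := by
    rw [D.cen_inv]
    conv_lhs => rw [e1]
    group
  have hup := hu'.inv.isUp1 D.mono
  have h3 : IsUp (j' * (j * u)⁻¹) := by
    intro x y hxy
    rw [e3, Units.val_mul, cen, coe_dg, Matrix.diagonal_mul, hup x y hxy.le,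
      Matrix.one_apply_ne hxy.ne', mul_zero]
  have h4 := hlow s _ h3 (R * ‖ρ (j * u)⁻¹ i i'‖) (mul_nonneg hR.le (norm_nonneg _)) (by
    rw [map_mul]
    exact (hρ j' hb).mul hM hR.le (norm_nonneg _))
  have h5 : ∏ σ, ∏ i, ‖((j' * (j * u)⁻¹ : GL (Fin n) F) : Matrix (Fin n) (Fin n) F) (s i) (s i)‖ ^
      a σ i = (‖(ϖ : F)‖ ^ (∑ σ, ∑ i, a σ i * v (D.b (s i))))⁻¹ := by
    rw [E4_zpow_sum hp.ne', ← Finset.prod_inv_distrib]
    refine Finset.prod_congr rfl fun σ _ => ?_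
    rw [E4_zpow_sum hp.ne', ← Finset.prod_inv_distrib]
    refine Finset.prod_congr rfl fun x _ => ?_
    rw [e3, Units.val_mul, cen, coe_dg, Matrix.diagonal_mul, hup _ _ le_rfl, Matrix.one_apply_eq,
      mul_one]
    simp only [Pi.inv_apply, Units.val_inv_eq_inv_val, norm_inv, Units.val_zpow_eq_zpow_val,
      norm_zpow]
    rw [inv_zpow, ← zpow_mul, mul_comm]
  rw [h5] at h4
  have h6 := (le_mul_inv_iff₀ (zpow_pos hp _)).2 hs
  rw [one_mul] at h6
  have h7 := h6.trans h4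
  calc _ ≤ (C' * ‖(resCard F : E)‖ ^
          (∑ x ∈ Finset.univ.filter (fun x : Fin n × Fin n => D.b x.1 < D.b x.2),
            (v (D.b x.1) - v (D.b x.2)).toNat)) *
        (‖((D.omega fun i => ϖ ^ v i : Eˣ) : E)‖ * L) :=
        mul_le_mul h1 h2 (norm_nonneg _) ((norm_nonneg _).trans h1)
    _ = C' * L * (‖((D.omega fun i => ϖ ^ v i : Eˣ) : E)‖ * ‖(resCard F : E)‖ ^
          (∑ x ∈ Finset.univ.filter (fun x : Fin n × Fin n => D.b x.1 < D.b x.2),
            (v (D.b x.1) - v (D.b x.2)).toNat)) := by ring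
    _ ≤ C' * L * (Cl * (R * ‖ρ (j * u)⁻¹ i i'‖)) :=
        mul_le_mul_of_nonneg_left h7 (mul_pos hC' hL).le
    _ = _ := by ring

end TypeData

end Pool.Agent.MP_4d0c14_b

end

section

/-! Short vectors. -/

namespace Pool.Agent.MP_4d0c14_b

open scoped Matrix

theorem L5_T (C2 C3 e d : ℕ) (hd : 0 < d) : ∃ T : ℕ, C2 * (C3 * T + 1) ^ e < T ^ (e + d) := by
  refine ⟨C2 * (C3 + 1) ^ e + 1, ?_⟩
  set T := C2 * (C3 + 1) ^ e + 1 with hT
  have hT1 : 1 ≤ T := by omega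
  have h1 : C3 * T + 1 ≤ (C3 + 1) * T := by nlinarith
  have h2 : (C3 * T + 1) ^ e ≤ (C3 + 1) ^ e * T ^ e := by
    rw [← mul_pow]; exact Nat.pow_le_pow_left h1 e
  have h3 : 0 < T ^ e := by positivity
  have h4 : T ≤ T ^ d := Nat.le_self_pow hd.ne' T
  calc C2 * (C3 * T + 1) ^ e ≤ C2 * ((C3 + 1) ^ e * T ^ e) := Nat.mul_le_mul_left _ h2
    _ = T ^ e * (C2 * (C3 + 1) ^ e) := by ring
    _ < T ^ e * T := Nat.mul_lt_mul_of_pos_left (by omega) h3
    _ ≤ T ^ e * T ^ d := Nat.mul_le_mul_left _ h4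
    _ = T ^ (e + d) := (pow_add _ _ _).symm

/-- The kernel of a nonzero linear form over a domain of rank `d`. -/
theorem L5_ker {n d : ℕ} {S : Type} [CommRing S] [IsDomain S] (bas : Module.Basis (Fin d) ℤ S)
    (φ : Fin n → S) (hφ : φ ≠ 0) (A : Submodule ℤ (Fin n → S)) (hA : ∀ x ∈ A, φ ⬝ᵥ x = 0) :
    Module.finrank ℤ A + d ≤ d * n := by
  have := Module.Free.of_basis bas
  have := Module.Finite.of_basis bas
  obtain ⟨i, hi⟩ := Function.ne_iff.1 hφ
  have h1 := Submodule.finrank_quotient_add_finrank A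
  have h2 : Module.finrank ℤ (Fin n → S) = d * n := by
    rw [Module.finrank_pi_fintype, Finset.sum_const, Module.finrank_eq_card_basis bas]
    simp [mul_comm]
  have h3 : Function.Injective (A.mkQ ∘ₗ LinearMap.single ℤ (fun _ : Fin n => S) i) := by
    rw [injective_iff_map_eq_zero]
    intro s hs
    have h4 := hA _ ((Submodule.Quotient.mk_eq_zero A).1 hs)
    rw [LinearMap.coe_single, dotProduct_single] at h4
    exact (mul_eq_zero.1 h4).resolve_left hi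
  have h5 := LinearMap.finrank_le_finrank_of_injective h3
  rw [Module.finrank_eq_card_basis bas, Fintype.card_fin] at h5
  omega

variable (p : ℕ) [Fact p.Prime] (n : ℕ) {F S : Type} [NontriviallyNormedField F]
  [IsUltrametricDist F] [NormedAlgebra ℚ_[p] F] [FiniteDimensional ℚ_[p] F] [CommRing S]
  [StarRing S] {j : S →+* F} {bas : Module.Basis (Fin (2 * Module.finrank ℚ_[p] F)) ℤ S}
  {t : S →+ ℝ}

omit [Fact p.Prime] [NormedAlgebra ℚ_[p] F] [FiniteDimensional ℚ_[p] F] in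
theorem InLat.herm {g : GL (Fin n) F} {M : ℕ} {x y : Fin n → S} (hx : InLat p j g M x)
    (hy : InLat p j g M y) : ‖j (∑ i, star (x i) * y i)‖ ≤ ‖(p : F)‖ ^ (2 * M) := by
  have h1 : j (∑ i, star (x i) * y i) =
      ((fun c => j (star (x c))) ᵥ* (g : Matrix (Fin n) (Fin n) F)) ⬝ᵥ
        (((g⁻¹ : GL (Fin n) F) : Matrix (Fin n) (Fin n) F) *ᵥ fun c => j (y c)) := by
    rw [Matrix.dotProduct_mulVec, Matrix.vecMul_vecMul, Units.mul_inv, Matrix.vecMul_one, map_sum]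
    simp only [map_mul, dotProduct]
  rw [h1, two_mul, pow_add]
  refine IsUltrametricDist.norm_sum_le_of_forall_le_of_nonneg (by positivity) fun i _ => ?_
  rw [norm_mul]
  exact mul_le_mul (hx.2 i) (hy.1 i) (norm_nonneg _) (by positivity)

theorem exists_coord_mul {d : ℕ} (bas : Module.Basis (Fin d) ℤ S) : ∃ C : ℕ,
    ∀ (x y : Fin n → S) (T : ℤ), (∀ i l, |bas.repr (x i) l| ≤ T) → (∀ i l, |bas.repr (y i) l| ≤ T) →
      ∀ l, |bas.repr (∑ i, star (x i) * y i) l| ≤ C * T ^ 2 := by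
  obtain ⟨B, hB⟩ := (Set.finite_range fun u : Fin d × Fin d × Fin d =>
    (bas.repr (star (bas u.1) * bas u.2.1) u.2.2).natAbs).bddAbove
  refine ⟨n * (d * (d * B)), fun x y T hx hy l => ?_⟩
  have h1 : ∀ i, bas.repr (star (x i) * y i) l = ∑ a, ∑ b,
      bas.repr (x i) a * bas.repr (y i) b * bas.repr (star (bas a) * bas b) l := by
    intro i
    conv_lhs => rw [← bas.sum_repr (x i), ← bas.sum_repr (y i)]
    rw [star_sum, Finset.sum_mul_sum, map_sum, Finsupp.finsetSum_apply]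
    refine Finset.sum_congr rfl fun a _ => ?_
    rw [map_sum, Finsupp.finsetSum_apply]
    refine Finset.sum_congr rfl fun b _ => ?_
    rw [star_zsmul, smul_mul_smul_comm, map_smul, Finsupp.smul_apply, smul_eq_mul]
  have h2 : ∀ i a b, |bas.repr (x i) a * bas.repr (y i) b * bas.repr (star (bas a) * bas b) l| ≤
      B * T ^ 2 := by
    intro i a b
    have hT : 0 ≤ T := (abs_nonneg _).trans (hx i a)
    have h3 : |bas.repr (star (bas a) * bas b) l| ≤ B := by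
      have := hB ⟨(a, b, l), rfl⟩
      rw [Int.abs_eq_natAbs]
      exact_mod_cast this
    rw [abs_mul, abs_mul]
    calc _ ≤ T * T * B := mul_le_mul (mul_le_mul (hx i a) (hy i b) (abs_nonneg _) hT) h3
          (abs_nonneg _) (by positivity)
      _ = B * T ^ 2 := by ring
  have h4 : ∀ {m : ℕ} (f : Fin m → ℤ) (c : ℤ), (∀ i, |f i| ≤ c) → |∑ i, f i| ≤ m * c := by
    intro m f c hf
    refine (Finset.abs_sum_le_sum_abs _ _).trans ?_
    simpa using Finset.sum_le_card_nsmul Finset.univ (fun i => |f i|) c fun i _ => hf i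
  rw [map_sum, Finsupp.finsetSum_apply]
  refine (h4 _ (d * (d * (B * T ^ 2))) fun i => ?_).trans (le_of_eq (by push_cast; ring))
  rw [h1]
  exact h4 _ _ fun a => h4 _ _ fun b => h2 i a b

/-- The lattice as a subgroup. -/
def L5_lat {F S : Type} [NormedField F] [IsUltrametricDist F] [CommRing S] [StarRing S] (p : ℕ)
    {n : ℕ} (j : S →+* F) (g : GL (Fin n) F) (M : ℕ) : AddSubgroup (Fin n → S) where
  carrier := {x | InLat p j g M x}
  zero_mem' := by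
    constructor
    · intro i
      have : (fun c => j ((0 : Fin n → S) c)) = 0 := by ext c; simp
      rw [this, Matrix.mulVec_zero, Pi.zero_apply, norm_zero]
      positivity
    · intro i
      have : (fun c => j (star ((0 : Fin n → S) c))) = 0 := by ext c; simp
      rw [this, Matrix.zero_vecMul, Pi.zero_apply, norm_zero]
      positivity
  add_mem' := by
    intro x y hx hy
    constructor
    · intro i
      have : (fun c => j ((x + y) c)) = (fun c => j (x c)) + fun c => j (y c) := by ext c; simp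
      rw [this, Matrix.mulVec_add, Pi.add_apply]
      exact (IsUltrametricDist.norm_add_le_max _ _).trans (max_le (hx.1 i) (hy.1 i))
    · intro i
      have : (fun c => j (star ((x + y) c))) =
          (fun c => j (star (x c))) + fun c => j (star (y c)) := by ext c; simp
      rw [this, Matrix.add_vecMul, Pi.add_apply]
      exact (IsUltrametricDist.norm_add_le_max _ _).trans (max_le (hx.2 i) (hy.2 i))
  neg_mem' := by
    intro x hx
    constructor
    · intro i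
      have : (fun c => j ((-x) c)) = -fun c => j (x c) := by ext c; simp
      rw [this, Matrix.mulVec_neg, Pi.neg_apply, norm_neg]
      exact hx.1 i
    · intro i
      have : (fun c => j (star ((-x) c))) = -fun c => j (star (x c)) := by ext c; simp
      rw [this, Matrix.neg_vecMul, Pi.neg_apply, norm_neg]
      exact hx.2 i

omit [FiniteDimensional ℚ_[p] F] in
/-- Nonzero lattice vectors are not too short. -/
theorem L5_long (h : IsOrd p j bas t) : ∃ K c : ℕ, ∀ (g : GL (Fin n) F) (M : ℕ), c ≤ M →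
    ∀ z : Fin n → S, InLat p j g M z → z ≠ 0 → ∀ U : ℤ, (∀ i l, |bas.repr (z i) l| ≤ U) →
      ((p : ℤ) ^ M) ^ 2 ≤ K * U ^ 2 := by
  obtain ⟨c, hc⟩ := h.sat
  obtain ⟨C1, hC1⟩ := exists_coord_mul n bas
  refine ⟨C1 * p ^ c, c, fun g M hM z hz hz0 U hU => ?_⟩
  have hs0 : ∑ i, star (z i) * z i ≠ 0 := fun h0 => hz0 (h.eq_zero h0)
  have hst : star (∑ i, star (z i) * z i) = ∑ i, star (z i) * z i := by
    rw [star_sum]
    refine Finset.sum_congr rfl fun i _ => ?_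
    rw [star_mul, star_star]
  have hn := InLat.herm p n hz hz
  have he : 2 * M = (2 * M - c) + c := by omega
  obtain ⟨s', hs'⟩ := hc (2 * M - c) (∑ i, star (z i) * z i) (by rw [← he]; exact hn)
    (by rw [← he, hst]; exact hn)
  have hs'0 : bas.repr s' ≠ 0 := by
    intro h0
    rw [LinearEquiv.map_eq_zero_iff] at h0
    exact hs0 (by rw [hs', h0, mul_zero])
  obtain ⟨l, hl⟩ := Finsupp.ne_iff.1 hs'0
  have h1 := hC1 z z U hU hU l
  have h2 : (p : S) ^ (2 * M - c) * s' = ((p : ℤ) ^ (2 * M - c)) • s' := by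
    rw [zsmul_eq_mul]; push_cast; rfl
  rw [hs', h2, map_smul, Finsupp.smul_apply, smul_eq_mul, abs_mul, abs_pow, Nat.abs_cast] at h1
  have h3 : 1 ≤ |bas.repr s' l| := Int.one_le_abs hl
  have hp : (0 : ℤ) < p := by exact_mod_cast (Fact.out : p.Prime).pos
  have h4 : (p : ℤ) ^ (2 * M - c) ≤ C1 * U ^ 2 :=
    (le_mul_of_one_le_right (by positivity) h3).trans h1
  calc ((p : ℤ) ^ M) ^ 2 = (p : ℤ) ^ (2 * M - c) * p ^ c := by
        rw [← pow_add, ← he, ← pow_mul, mul_comm]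
    _ ≤ C1 * U ^ 2 * p ^ c := mul_le_mul_of_nonneg_right h4 (by positivity)
    _ = _ := by push_cast; ring

theorem short_vector (h : IsOrd p j bas t) : ∃ T : ℕ, ∀ g : GL (Fin n) F, ∃ M₀ : ℕ, ∀ M, M₀ ≤ M →
    ∀ φ : Fin n → S, φ ≠ 0 → ∃ x : Fin n → S, InLat p j g M x ∧
      (∀ i l, |bas.repr (x i) l| ≤ T * (p : ℤ) ^ M) ∧ φ ⬝ᵥ x ≠ 0 := by
  classical
  have := Module.Free.of_basis bas
  have := Module.Finite.of_basis bas
  have : IsDomain S := h.inj.isDomain j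
  have hd : 0 < 2 * Module.finrank ℚ_[p] F := by
    have := Module.finrank_pos (R := ℚ_[p]) (M := F)
    omega
  obtain ⟨C2, hC2⟩ := exists_hash p n j h.int
  obtain ⟨K, c, hK⟩ := L5_long p n h
  generalize hdd : 2 * Module.finrank ℚ_[p] F = d at bas hd hC2 hK
  obtain ⟨T, hT⟩ := L5_T C2 (K + 1) (d * (n - 1)) d hd
  refine ⟨T, fun g => ?_⟩
  obtain ⟨M₀, hM₀⟩ := hC2 g
  refine ⟨max M₀ c, fun M hM φ hφ => ?_⟩
  obtain ⟨hash, hhash⟩ := hM₀ M ((le_max_left _ _).trans hM)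
  have hKM := hK g M ((le_max_right _ _).trans hM)
  have hn : d * (n - 1) + d = d * n := by
    rcases n with _ | n
    · exact absurd (Subsingleton.elim _ _) hφ
    · simp [mul_add]
  have hp : 0 < p := (Fact.out : p.Prime).pos
  by_contra hcon
  push Not at hcon
  set m := (K + 1) * T + 1 with hm
  let e : (Fin n → Fin d → Fin (T * p ^ M)) → Fin n → S :=
    fun a i => bas.equivFun.symm fun l => ((a i l : ℕ) : ℤ)
  have he : ∀ a i l, bas.repr (e a i) l = ((a i l : ℕ) : ℤ) := by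
    intro a i l
    have := bas.equivFun.apply_symm_apply fun l => ((a i l : ℕ) : ℤ)
    exact congrFun this l
  have hdiff : ∀ a b i l, |bas.repr ((e a - e b) i) l| ≤ T * (p : ℤ) ^ M := by
    intro a b i l
    rw [Pi.sub_apply, map_sub, Finsupp.sub_apply, he, he, abs_le]
    have h1 : ((a i l : ℕ) : ℤ) < T * (p : ℤ) ^ M := by exact_mod_cast (a i l).2
    have h2 : ((b i l : ℕ) : ℤ) < T * (p : ℤ) ^ M := by exact_mod_cast (b i l).2
    have h3 : (0 : ℤ) ≤ ((a i l : ℕ) : ℤ) := by positivity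
    have h4 : (0 : ℤ) ≤ ((b i l : ℕ) : ℤ) := by positivity
    constructor <;> linarith
  have hinj : Function.Injective e := by
    intro a b hab
    ext i l
    have := he a i l
    rw [hab, he] at this
    exact_mod_cast this.symm
  obtain ⟨y, -, hy⟩ := Finset.exists_lt_card_fiber_of_mul_lt_card_of_maps_to
    (s := Finset.univ) (t := Finset.univ) (f := fun a => hash (e a)) (n := m ^ (d * (n - 1)))
    (fun _ _ => Finset.mem_univ _) (by
      simp only [Finset.card_univ, Fintype.card_fin, Fintype.card_pi, Finset.prod_const]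
      rw [hn] at hT
      have : 0 < (p ^ M) ^ (d * n) := by positivity
      calc _ = C2 * m ^ (d * (n - 1)) * (p ^ M) ^ (d * n) := by ring
        _ < T ^ (d * n) * (p ^ M) ^ (d * n) := Nat.mul_lt_mul_of_pos_right hT this
        _ = _ := by rw [← mul_pow, pow_mul])
  set Y := Finset.univ.filter fun a => hash (e a) = y with hY
  obtain ⟨a₀, ha₀⟩ : Y.Nonempty := Finset.card_pos.1 ((Nat.zero_le _).trans_lt hy)
  have hlat : ∀ a ∈ Y, ∀ b ∈ Y, InLat p j g M (e a - e b) := fun a ha b hb =>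
    hhash _ _ ((Finset.mem_filter.1 ha).2.trans (Finset.mem_filter.1 hb).2.symm)
  let ψ : (Fin n → S) →ₗ[ℤ] S :=
    { toFun := fun x => φ ⬝ᵥ x
      map_add' := fun x y => dotProduct_add _ _ _
      map_smul' := fun c x => by rw [dotProduct_smul]; rfl }
  let A : Submodule ℤ (Fin n → S) := (L5_lat p j g M).toIntSubmodule ⊓ LinearMap.ker ψ
  have hA := L5_ker bas φ hφ A fun x hx => hx.2
  have hcard := card_le_of_incongruent A m (by omega) (Y.image fun a => e a - e a₀) (by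
      intro x hx
      obtain ⟨a, ha, rfl⟩ := Finset.mem_image.1 hx
      exact ⟨hlat a ha a₀ ha₀, hcon _ (hlat a ha a₀ ha₀) (hdiff a a₀)⟩) (by
      intro x hx x' hx' z hz hxz
      obtain ⟨a, ha, rfl⟩ := Finset.mem_image.1 hx
      obtain ⟨b, hb, rfl⟩ := Finset.mem_image.1 hx'
      rw [sub_sub_sub_cancel_right] at hxz
      by_cases hz0 : z = 0
      · rw [hz0, smul_zero, sub_eq_zero] at hxz
        rw [hxz]
      exfalso
      have hm0 : (0 : ℤ) < m := by positivity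
      have h1 := hKM z hz.1 hz0 (T * (p : ℤ) ^ M / m) fun i l => by
        have h2 := hdiff a b i l
        rw [hxz, Pi.smul_apply, map_smul, Finsupp.smul_apply, smul_eq_mul, abs_mul,
          abs_of_pos hm0] at h2
        exact Int.le_ediv_of_mul_le hm0 (by rwa [mul_comm])
      have h3 : T * (p : ℤ) ^ M / m * m ≤ T * (p : ℤ) ^ M := Int.ediv_mul_le _ hm0.ne'
      have h4 : 0 ≤ T * (p : ℤ) ^ M / m := Int.ediv_nonneg (by positivity) hm0.le
      generalize T * (p : ℤ) ^ M / m = U at h1 h3 h4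
      have hP : (0 : ℤ) < (p : ℤ) ^ M := by positivity
      generalize (p : ℤ) ^ M = P at h1 h3 hP
      have h5 : (U * m) ^ 2 ≤ (T * P) ^ 2 := pow_le_pow_left₀ (by positivity) h3 2
      have h6 : P ^ 2 * m ^ 2 ≤ P ^ 2 * (K * T ^ 2) := by
        calc P ^ 2 * m ^ 2 ≤ K * U ^ 2 * m ^ 2 := mul_le_mul_of_nonneg_right h1 (by positivity)
          _ = K * (U * m) ^ 2 := by ring
          _ ≤ K * (T * P) ^ 2 := mul_le_mul_of_nonneg_left h5 (by positivity)
          _ = _ := by ring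
      have h7 : (m : ℤ) ^ 2 ≤ K * T ^ 2 := le_of_mul_le_mul_left h6 (by positivity)
      have h8 : (m : ℤ) = (K + 1) * T + 1 := by rw [hm]; push_cast; ring
      rw [h8] at h7
      have hK0 : (0 : ℤ) ≤ K := by positivity
      have hT0 : (0 : ℤ) ≤ T := by positivity
      nlinarith [mul_nonneg hK0 hT0, mul_nonneg hK0 (mul_nonneg hT0 hT0),
        mul_nonneg (mul_nonneg hK0 hK0) (mul_nonneg hT0 hT0), mul_nonneg hT0 hT0])
  rw [Finset.card_image_of_injective _ (fun a b hab => hinj (sub_left_injective hab))] at hcard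
  have h9 : m ^ Module.finrank ℤ A ≤ m ^ (d * (n - 1)) :=
    Nat.pow_le_pow_right (by omega) (by omega)
  omega

theorem short_matrix (h : IsOrd p j bas t) : ∃ T : ℕ, ∀ g : GL (Fin n) F, ∃ M₀ : ℕ, ∀ M, M₀ ≤ M →
    ∃ X : Matrix (Fin n) (Fin n) S, X.det ≠ 0 ∧ (∀ c, InLat p j g M fun i => X i c) ∧
      ∀ i c l, |bas.repr (X i c) l| ≤ T * (p : ℤ) ^ M := by
  have : IsDomain S := h.inj.isDomain j
  obtain ⟨T, hT⟩ := short_vector p n h
  refine ⟨T, fun g => ?_⟩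
  obtain ⟨M₀, hM₀⟩ := hT g
  refine ⟨M₀, fun M hM => ?_⟩
  have key : ∀ k, k ≤ n → ∃ v : Fin k → Fin n → S, LinearIndependent S v ∧
      ∀ c, InLat p j g M (v c) ∧ ∀ i l, |bas.repr (v c i) l| ≤ T * (p : ℤ) ^ M := by
    intro k
    induction k with
    | zero => exact fun _ => ⟨Fin.elim0, linearIndependent_empty_type, fun c => c.elim0⟩
    | succ k ih =>
      intro hk
      obtain ⟨v, hv, hv'⟩ := ih (by omega)
      let X : Matrix (Fin n) (Fin n) S :=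
        Matrix.of fun i c => if hc : (c : ℕ) < k then v ⟨c, hc⟩ i else 0
      have hX : X.det = 0 :=
        Matrix.det_eq_zero_of_column_eq_zero ⟨k, by omega⟩ fun i => by simp [X]
      obtain ⟨φ, hφ, hφX⟩ := Matrix.exists_vecMul_eq_zero_iff.2 hX
      have hφv : ∀ c, φ ⬝ᵥ v c = 0 := by
        intro c
        have := congrFun hφX ⟨c, by omega⟩
        simpa [X, Matrix.vecMul, dotProduct] using this
      obtain ⟨x, hx1, hx2, hx3⟩ := hM₀ M hM φ hφ
      refine ⟨Fin.cons x v, LinearIndependent.finCons' x v hv ?_, ?_⟩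
      · intro c y hy hc
        have h1 : φ ⬝ᵥ y = 0 := by
          obtain ⟨w, rfl⟩ := (Submodule.mem_span_range_iff_exists_fun S).1 hy
          rw [dotProduct_sum]
          exact Finset.sum_eq_zero fun c _ => by rw [dotProduct_smul, hφv, smul_zero]
        have h2 := congrArg (fun u => φ ⬝ᵥ u) hc
        simp only [dotProduct_add, dotProduct_smul, h1, add_zero, dotProduct_zero,
          smul_eq_mul] at h2
        exact (mul_eq_zero.1 h2).resolve_right hx3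
      · exact Fin.cases ⟨hx1, hx2⟩ hv'
  obtain ⟨v, hv, hv'⟩ := key n le_rfl
  refine ⟨Matrix.of fun i c => v c i, fun h0 => ?_, fun c => (hv' c).1, fun i c l => (hv' c).2 i l⟩
  obtain ⟨w, hw0, hw⟩ := Matrix.exists_mulVec_eq_zero_iff.2 h0
  refine hw0 (funext (Fintype.linearIndependent_iff.1 hv w ?_))
  ext i
  have := congrFun hw i
  simpa [Matrix.mulVec, dotProduct, mul_comm] using this

end Pool.Agent.MP_4d0c14_b

end

section

/-! The lattice is cocompact modulo the centre. -/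

namespace Pool.Agent.MP_4d0c14_b

open scoped Matrix

/-- two frames with the same Gram matrix which are congruent differ by an element with only
`p` in the denominators -/
theorem repr_of_congr {p n : ℕ} {F S : Type} [Field F] [CommRing S] [StarRing S] {j : S →+* F}
    (hj : Function.Injective j) (hp : (p : F) ≠ 0) {c M M' e : ℕ}
    {X X' W G₀ : Matrix (Fin n) (Fin n) S} {δ Δ : S} {Y Y' : GL (Fin n) F}
    (hY : (p : F) ^ M • (Y : Matrix (Fin n) (Fin n) F) = X.map j)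
    (hY' : (p : F) ^ M' • (Y' : Matrix (Fin n) (Fin n) F) = X'.map j)
    (hG : (p : S) ^ c • (Xᴴ * X) = (p : S) ^ (2 * M) • G₀)
    (hG' : (p : S) ^ c • (X'ᴴ * X') = (p : S) ^ (2 * M') • G₀)
    (hδ : G₀.det * δ = (p : S) ^ e * Δ) (hΔ : Δ ≠ 0)
    (hW : (p : S) ^ M • X' = (p : S) ^ M' • X + Δ • W) :
    ∃ m Z, Repr p j (Y' * Y⁻¹) m Z := by
  have hm : ∀ (a : S) (A : Matrix (Fin n) (Fin n) S), (a • A).map j = j a • A.map j :=
    fun a A => by ext; simp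
  have ha : ∀ A B : Matrix (Fin n) (Fin n) S, (A + B).map j = A.map j + B.map j :=
    fun A B => by ext; simp
  have hc : ∀ (k : ℕ) {A B : Matrix (Fin n) (Fin n) F}, (p : F) ^ k • A = (p : F) ^ k • B → A = B :=
    fun k _ _ h => smul_right_injective _ (pow_ne_zero k hp) h
  have h1 : (p : F) ^ c • (Xᴴ.map j * Y) = (p : F) ^ M • G₀.map j := by
    have := congrArg (fun A => Matrix.map A j) hG
    simp only [hm, Matrix.map_mul, map_pow, map_natCast, ← hY, Matrix.mul_smul] at this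
    refine hc M ?_
    rw [smul_comm, this, smul_smul, ← pow_add, two_mul]
  have h2 : (δ • G₀.adjugate).map j * G₀.map j = ((p : F) ^ e * j Δ) • 1 := by
    rw [← Matrix.map_mul, Matrix.smul_mul, Matrix.adjugate_mul, smul_smul, mul_comm, hδ, hm,
      Matrix.map_one _ (map_zero j) (map_one j), map_mul, map_pow, map_natCast]
  have h3 := congrArg (fun A => Matrix.map A j) hW
  simp only [hm, ha, map_pow, map_natCast, ← hY, ← hY'] at h3
  obtain ⟨Z, hZ⟩ : ∃ Z : Matrix (Fin n) (Fin n) S,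
      (p : F) ^ (2 * M + M' + e) • (Y' : Matrix (Fin n) (Fin n) F) = Z.map j * Y := by
    refine ⟨(p : S) ^ (2 * M + M' + e) • 1 + (p : S) ^ c • (W * (δ • G₀.adjugate) * Xᴴ), ?_⟩
    rw [ha, hm, hm, Matrix.map_one _ (map_zero j) (map_one j), Matrix.map_mul, Matrix.map_mul,
      map_pow, map_pow, map_natCast, Matrix.add_mul, Matrix.smul_mul, Matrix.smul_mul,
      Matrix.one_mul, Matrix.mul_assoc, ← Matrix.mul_smul, h1, Matrix.mul_smul, Matrix.mul_assoc,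
      h2, Matrix.mul_smul, Matrix.mul_one]
    linear_combination (norm := module) ((p : F) ^ (M + e)) • h3
  generalize 2 * M + M' + e = m at hZ
  have h4 : (p : F) ^ m • ((Y' * Y⁻¹ : GL (Fin n) F) : Matrix (Fin n) (Fin n) F) = Z.map j := by
    rw [Units.val_mul, ← Matrix.smul_mul, hZ, Matrix.mul_assoc, Units.mul_inv, Matrix.mul_one]
  refine ⟨m, Z, h4, ?_⟩
  have h5 : (p : S) ^ M' • (Z * X) = (p : S) ^ (m + M) • X' := by
    refine Matrix.map_injective hj ?_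
    simp only [hm, Matrix.map_mul, map_pow, map_natCast, ← hY, ← hY', Matrix.mul_smul, ← hZ]
    module
  have h6 := congrArg Matrix.conjTranspose h5
  simp only [Matrix.conjTranspose_smul, Matrix.conjTranspose_mul, star_pow, star_natCast] at h6
  have h7 : (p : S) ^ (c + 2 * M') • (Xᴴ * (Zᴴ * Z) * X) =
      (p : S) ^ (c + 2 * M') • (p : S) ^ (2 * m) • (Xᴴ * X) := by
    have e1 : ((p : S) ^ M' • (Xᴴ * Zᴴ)) * ((p : S) ^ M' • (Z * X)) =
        ((p : S) ^ (m + M) • X'ᴴ) * ((p : S) ^ (m + M) • X') := by rw [h5, h6]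
    simp only [Matrix.smul_mul, Matrix.mul_smul, Matrix.mul_assoc] at e1 ⊢
    linear_combination (norm := module) (p : S) ^ c • e1 + (p : S) ^ (2 * (m + M)) • hG' -
      (p : S) ^ (2 * (m + M')) • hG
  have h8 := congrArg (fun A => Matrix.map A j) h7
  simp only [hm, Matrix.map_mul, map_pow, map_natCast] at h8
  have hX : (X.map j).det ≠ 0 := by
    rw [← hY, Matrix.det_smul]
    exact mul_ne_zero (pow_ne_zero _ (pow_ne_zero _ hp)) Y.det_ne_zero
  have hXh : (Xᴴ.map j).det ≠ 0 := by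
    rw [← RingHom.mapMatrix_apply, ← RingHom.map_det] at hX ⊢
    rw [Matrix.det_conjTranspose, map_ne_zero_iff _ hj, star_ne_zero]
    exact (map_ne_zero_iff _ hj).1 hX
  have h9 : Zᴴ.map j * Z.map j = (p : F) ^ (2 * m) • 1 := by
    refine ((Matrix.isUnit_iff_isUnit_det _).2 (IsUnit.mk0 _ hXh)).mul_left_cancel ?_
    refine ((Matrix.isUnit_iff_isUnit_det _).2 (IsUnit.mk0 _ hX)).mul_right_cancel ?_
    simpa using hc _ h8
  refine hc m ?_
  rw [smul_smul, ← pow_add, ← two_mul, ← Matrix.one_mul (Units.val _), ← Matrix.smul_mul, ← h9,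
    ← h4, Matrix.mul_assoc, Matrix.smul_mul, Units.mul_inv, Matrix.mul_smul, Matrix.mul_one]

theorem exists_int_multiple {S : Type} [CommRing S] [IsDomain S] [Module.Free ℤ S]
    [Module.Finite ℤ S] {s : S} (hs : s ≠ 0) : ∃ (N : ℕ) (δ : S), 0 < N ∧ s * δ = N := by
  have := Ideal.finiteQuotientOfFreeOfNeBot (Ideal.span {s}) (by simpa using hs)
  have h1 : Ideal.Quotient.mk (Ideal.span {s}) (Nat.card (S ⧸ Ideal.span {s}) : S) = 0 := by
    rw [map_natCast, ← nsmul_one, card_nsmul_eq_zero']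
  obtain ⟨δ, hδ⟩ := Ideal.mem_span_singleton.1 (Ideal.Quotient.eq_zero_iff_mem.1 h1)
  exact ⟨_, δ, Nat.card_pos, hδ.symm⟩

theorem L6_frame (p : ℕ) [Fact p.Prime] {n : ℕ} {F S : Type} [NontriviallyNormedField F]
    [IsUltrametricDist F] [CommRing S] [StarRing S] {j : S →+* F} (hj : Function.Injective j)
    (hp : (p : F) ≠ 0) {c M : ℕ} (hM : c ≤ M)
    (hc : ∀ (m : ℕ) (s : S), ‖j s‖ ≤ ‖(p : F)‖ ^ (m + c) →
      ‖j (star s)‖ ≤ ‖(p : F)‖ ^ (m + c) → ∃ s', s = (p : S) ^ m * s')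
    {g : GL (Fin n) F} {X : Matrix (Fin n) (Fin n) S} (hX : X.det ≠ 0)
    (hL : ∀ a, InLat p j g M fun i => X i a) :
    ∃ (G : Matrix (Fin n) (Fin n) S) (Y : GL (Fin n) F), Xᴴ * X = (p : S) ^ (2 * M - c) • G ∧
      G.det ≠ 0 ∧ (p : F) ^ M • (Y : Matrix (Fin n) (Fin n) F) = X.map j ∧
      ∀ C, 1 ≤ C → MLe C ((p : F) ^ c • (G.map j)⁻¹) → Bnd C (g⁻¹ * Y) ∧
        ‖((g⁻¹ * Y : GL (Fin n) F) : Matrix (Fin n) (Fin n) F).det‖ ≤ 1 := by
  have := hj.isDomain j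
  have e0 : 2 * M - c + c = 2 * M := by omega
  choose G hG using fun a b => hc (2 * M - c) (∑ i, star (X i a) * X i b)
    (e0.symm ▸ InLat.herm p n (hL a) (hL b))
    (by rw [e0]; simpa [mul_comm] using InLat.herm p n (hL b) (hL a))
  have h1 : Xᴴ * X = (p : S) ^ (2 * M - c) • Matrix.of G := by
    ext a b
    simpa [Matrix.mul_apply] using hG a b
  have hd : ∀ A : Matrix (Fin n) (Fin n) S, A.det ≠ 0 → (A.map j).det ≠ 0 := fun A h => by
    rwa [← RingHom.mapMatrix_apply, ← RingHom.map_det, map_ne_zero_iff _ hj]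
  have h2 : (Matrix.of G).det ≠ 0 := fun h0 => by
    have := congrArg Matrix.det h1
    rw [Matrix.det_mul, Matrix.det_smul, h0, mul_zero, Matrix.det_conjTranspose] at this
    exact mul_ne_zero (star_ne_zero.2 hX) hX this
  have hq := pow_ne_zero M hp
  let Y := Matrix.GeneralLinearGroup.mkOfDetNeZero (((p : F) ^ M)⁻¹ • X.map j) (by
    rw [Matrix.det_smul]; exact mul_ne_zero (pow_ne_zero _ (inv_ne_zero hq)) (hd X hX))
  have hY : (Y : Matrix (Fin n) (Fin n) F) = ((p : F) ^ M)⁻¹ • X.map j := rfl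
  have hs : ∀ A : Matrix (Fin n) (Fin n) F, MLe (‖(p : F)‖ ^ M) A → MLe 1 (((p : F) ^ M)⁻¹ • A) :=
    fun A h => by
      have := h.smul ((p : F) ^ M)⁻¹
      rwa [norm_inv, norm_pow, inv_mul_cancel₀ (pow_ne_zero _ (norm_ne_zero_iff.2 hp))] at this
  have hA : MLe 1 ((g⁻¹ * Y : GL (Fin n) F) : Matrix (Fin n) (Fin n) F) := by
    rw [Units.val_mul, hY, Matrix.mul_smul]
    exact hs _ fun i a => (hL a).1 i
  have hB : MLe 1 (((p : F) ^ M)⁻¹ • (Xᴴ.map j * (g : Matrix (Fin n) (Fin n) F))) :=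
    hs _ fun a i => (hL a).2 i
  refine ⟨Matrix.of G, Y, h1, h2, by rw [hY, smul_inv_smul₀ hq], fun C hC h => ⟨bnd_iff.2
    ⟨hA.mono hC, ?_⟩, by simpa using hA.norm_det_le zero_le_one⟩⟩
  have h3 := h.mul hB (zero_le_one.trans hC) zero_le_one
  rw [mul_one] at h3
  convert h3 using 1
  refine Units.inv_eq_of_mul_eq_one_left ?_
  have h4 : Xᴴ.map j * X.map j = (p : F) ^ (2 * M - c) • (Matrix.of G).map j := by
    rw [← Matrix.map_mul, h1]
    ext
    simp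
  rw [Units.val_mul, hY, Matrix.mul_assoc, Matrix.smul_mul _ (_ * _), Matrix.mul_assoc,
    ← Matrix.mul_assoc g.val, Units.mul_inv, Matrix.one_mul, Matrix.mul_smul (Xᴴ.map j), h4]
  simp only [Matrix.smul_mul, Matrix.mul_smul, smul_smul,
    Matrix.nonsing_inv_mul _ (IsUnit.mk0 _ (hd _ h2))]
  rw [show _ * (_ * _) * _ = (1 : F) by
    field_simp
    rw [← pow_add, e0, ← pow_mul, mul_comm], one_smul]

theorem L6_fin {ρ a : ℝ} (h0 : 0 < ρ) (h1 : ρ < 1) (ha : 0 < a) :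
    {r : ℝ | (∃ e : ℤ, r = ρ ^ e) ∧ a ≤ r ∧ r ≤ 1}.Finite := by
  obtain ⟨k, hk⟩ := exists_pow_lt_of_lt_one ha h1
  refine ((Set.finite_Icc (0 : ℤ) k).image (ρ ^ ·)).subset ?_
  rintro _ ⟨⟨e, rfl⟩, h2, h3⟩
  refine ⟨e, ⟨(zpow_le_one_iff_right_of_lt_one₀ h0 h1).1 h3, ?_⟩, rfl⟩
  rw [← zpow_le_zpow_iff_right_of_lt_one₀ h0 h1, zpow_natCast]
  exact hk.le.trans h2

theorem L6_main (p : ℕ) [Fact p.Prime] (n : ℕ) {F S : Type} [NontriviallyNormedField F]
    [IsUltrametricDist F] [NormedAlgebra ℚ_[p] F] [FiniteDimensional ℚ_[p] F] [CommRing S]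
    [StarRing S] {j : S →+* F} {bas : Module.Basis (Fin (2 * Module.finrank ℚ_[p] F)) ℤ S}
    {t : S →+ ℝ} (h : IsOrd p j bas t) (ϖ : Fˣ) (hϖ : ‖(ϖ : F)‖ < 1)
    (hmax : ∀ x : F, ‖x‖ < 1 → ‖x‖ ≤ ‖(ϖ : F)‖) {a : ℝ} (ha : 0 < a) :
    ∃ C : ℝ, ∀ g : GL (Fin n) F, a ≤ ‖(g : Matrix (Fin n) (Fin n) F).det‖ →
      ‖(g : Matrix (Fin n) (Fin n) F).det‖ ≤ 1 → ∃ γ ∈ Gam p n j, Bnd C (γ⁻¹ * g) := by
  have hpp : p.Prime := Fact.out
  have := h.inj.isDomain j
  have := Module.Free.of_basis bas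
  have := Module.Finite.of_basis bas
  have hp : (p : F) ≠ 0 := by
    rw [← map_natCast (algebraMap ℚ_[p] F), map_ne_zero]
    exact_mod_cast hpp.ne_zero
  obtain ⟨c, hc⟩ := h.sat
  obtain ⟨T, hT⟩ := short_matrix p n h
  obtain ⟨C1, hC1⟩ := exists_coord_mul n bas
  set GG : Set (Matrix (Fin n) (Fin n) S) :=
    {G | ∀ a b l, |bas.repr (G a b) l| ≤ C1 * (T : ℤ) ^ 2 * p ^ c} with hGG
  have hfin : GG.Finite := by
    refine Set.Finite.of_finite_image (f := fun G a b l => bas.repr (G a b) l)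
      ((Set.Finite.pi' fun _ => Set.Finite.pi' fun _ => Set.Finite.pi' fun _ => Set.finite_Icc
        (-(C1 * (T : ℤ) ^ 2 * p ^ c)) (C1 * (T : ℤ) ^ 2 * p ^ c)).subset ?_) fun G _ G' _ e => ?_
    · rintro _ ⟨G, hG, rfl⟩ a b l
      exact abs_le.1 (hG a b l)
    · ext a b
      exact bas.ext_elem fun l => congrFun (congrFun (congrFun e a) b) l
  have hN : ∀ G : Matrix (Fin n) (Fin n) S, ∃ N : ℕ, 0 < N ∧ (G.det ≠ 0 → G.det ∣ N) := fun G => by
    by_cases h0 : G.det = 0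
    · exact ⟨1, one_pos, fun h => absurd h0 h⟩
    · obtain ⟨N, δ, h1, h2⟩ := exists_int_multiple h0
      exact ⟨N, h1, fun _ => ⟨δ, h2.symm⟩⟩
  choose N hN0 hN using hN
  obtain ⟨e, Δ, hΔ, hNΔ⟩ := Nat.exists_eq_pow_mul_and_not_dvd
    (Finset.prod_pos fun G (_ : G ∈ hfin.toFinset) => hN0 G).ne' p hpp.ne_one
  have hΔ0 : Δ ≠ 0 := fun h0 => hΔ (h0 ▸ dvd_zero p)
  have hΔS : (Δ : S) ≠ 0 := fun h0 => by
    have h1 := congrArg j h0
    rw [map_natCast, map_zero, ← map_natCast (algebraMap ℚ_[p] F), map_eq_zero] at h1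
    exact hΔ0 (by exact_mod_cast h1)
  have := Ideal.finiteQuotientOfFreeOfNeBot (Ideal.span {(Δ : S)}) (by simpa using hΔS)
  choose b hb0 hb using fun G : Matrix (Fin n) (Fin n) S =>
    MLe.exists_bound ((p : F) ^ c • (G.map j)⁻¹)
  obtain ⟨C2, hC2⟩ := (hfin.image b).bddAbove
  have hC : (0 : ℝ) < max C2 1 := lt_max_of_lt_right one_pos
  let Fr : Matrix (Fin n) (Fin n) S × Matrix (Fin n) (Fin n) (S ⧸ Ideal.span {(Δ : S)}) × ℝ →
      GL (Fin n) F → Prop := fun τ Y => ∃ (M : ℕ) (X : Matrix (Fin n) (Fin n) S),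
    (Δ : S) ∣ (p : S) ^ M - 1 ∧ (p : F) ^ M • (Y : Matrix (Fin n) (Fin n) F) = X.map j ∧
      (p : S) ^ c • (Xᴴ * X) = (p : S) ^ (2 * M) • τ.1 ∧
      X.map (Ideal.Quotient.mk _) = τ.2.1 ∧ ‖(Y : Matrix (Fin n) (Fin n) F).det‖ = τ.2.2
  choose Y0 hY0 using fun τ => (exists_true_iff_nonempty.2 inferInstance).elim fun Y1 _ =>
    (by
      by_cases h1 : ∃ Y, Fr τ Y
      · exact ⟨h1.choose, fun _ _ => h1.choose_spec⟩
      · exact ⟨Y1, fun Y h2 => absurd ⟨Y, h2⟩ h1⟩ : ∃ Y0, ∀ Y, Fr τ Y → Fr τ Y0)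
  choose b' hb0' hb' using fun τ => exists_bnd (Y0 τ)
  obtain ⟨C3, hC3⟩ := ((hfin.prod (Set.finite_univ.prod (L6_fin (norm_pos_iff.2 ϖ.ne_zero) hϖ
    (mul_pos ha (inv_pos.2 (pow_pos hC n)))))).image b').bddAbove
  refine ⟨C3 * max C2 1, fun g hg1 hg2 => ?_⟩
  obtain ⟨M₀, hM⟩ := hT g
  have hφ : 0 < Δ.totient := Nat.totient_pos.2 (Nat.pos_of_ne_zero hΔ0)
  have hM1 : max M₀ c ≤ Δ.totient * max M₀ c := Nat.le_mul_of_pos_left _ hφ
  have hM2 : (Δ : S) ∣ (p : S) ^ (Δ.totient * max M₀ c) - 1 := by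
    have h1 := (Nat.ModEq.pow_totient ((Nat.Prime.coprime_iff_not_dvd hpp).2 hΔ)).pow (max M₀ c)
    have h2 := _root_.map_dvd (Int.castRingHom S) h1.symm.dvd
    simpa [pow_mul] using h2
  generalize Δ.totient * max M₀ c = M at hM1 hM2
  obtain ⟨X, hX, hL, hco⟩ := hM M ((le_max_left _ _).trans hM1)
  have hcM : c ≤ M := (le_max_right _ _).trans hM1
  obtain ⟨G, Y, h1, h2, h3, h4⟩ := L6_frame p h.inj hp hcM hc hX hL
  have hG : G ∈ GG := fun a b l => by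
    have e1 := hC1 (fun i => X i a) (fun i => X i b) _ (fun i => hco i a) (fun i => hco i b) l
    have e2 : ∑ i, star (X i a) * X i b = ((p : ℤ) ^ (2 * M - c)) • G a b := by
      simpa [Matrix.mul_apply] using congrFun (congrFun h1 a) b
    have e3 : (0 : ℤ) < (p : ℤ) ^ (2 * M - c) := pow_pos (by exact_mod_cast hpp.pos) _
    rw [e2, map_zsmul, Finsupp.smul_apply, smul_eq_mul, abs_mul, abs_of_pos e3] at e1
    refine le_of_mul_le_mul_left (e1.trans_eq ?_) e3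
    rw [mul_pow, ← pow_mul, show M * 2 = 2 * M - c + c by omega, pow_add]
    ring
  obtain ⟨h5, h6⟩ := h4 (max C2 1) (le_max_right _ _)
    ((hb G).mono ((hC2 ⟨G, hG, rfl⟩).trans (le_max_left _ _)))
  have hF : Fr (G, X.map (Ideal.Quotient.mk _), ‖(Y : Matrix (Fin n) (Fin n) F).det‖) Y :=
    ⟨M, X, hM2, h3, by rw [h1, smul_smul, ← pow_add, show c + (2 * M - c) = 2 * M by omega],
      rfl, rfl⟩
  have hdet : ‖(Y : Matrix (Fin n) (Fin n) F).det‖ = ‖(g : Matrix (Fin n) (Fin n) F).det‖ *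
      ‖((g⁻¹ * Y : GL (Fin n) F) : Matrix (Fin n) (Fin n) F).det‖ := by
    rw [← norm_mul, ← Matrix.det_mul, ← Units.val_mul, mul_inv_cancel_left]
  have hb3 := hC3 ⟨(G, X.map (Ideal.Quotient.mk _), ‖(Y : Matrix (Fin n) (Fin n) F).det‖),
    ⟨hG, trivial, exists_norm_eq_zpow ϖ hϖ hmax Y.det_ne_zero, by
      have e1 := (bnd_iff.1 h5).2.norm_det_le hC.le
      rw [Matrix.coe_units_inv, Matrix.det_nonsing_inv, Ring.inverse_eq_inv', norm_inv,
        Fintype.card_fin] at e1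
      rw [hdet]
      exact mul_le_mul hg1 (inv_le_of_inv_le₀ (norm_pos_iff.2 (g⁻¹ * Y).det_ne_zero) e1)
        (inv_pos.2 (pow_pos hC n)).le (norm_nonneg _),
      hdet ▸ mul_le_one₀ hg2 (norm_nonneg _) h6⟩, rfl⟩
  obtain ⟨M', X', k1, k2, k3, k4, k5⟩ := hY0 _ Y hF
  have hb4 := (hb' _).mono hb3
  have hb5 := (hb0' _).le.trans hb3
  generalize Y0 _ = Y' at k2 k5 hb4
  refine ⟨Y * Y'⁻¹, ⟨?_, ?_⟩, ?_⟩
  · rw [Units.val_mul, Matrix.det_mul, Matrix.coe_units_inv, Matrix.det_nonsing_inv,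
      Ring.inverse_eq_inv', norm_mul, norm_inv, k5,
      mul_inv_cancel₀ (norm_ne_zero_iff.2 Y.det_ne_zero)]
  · obtain ⟨δ, hδ⟩ := (hN G h2).trans (Nat.cast_dvd_cast (α := S)
      (Finset.dvd_prod_of_mem N (hfin.mem_toFinset.2 hG)))
    choose W hW using fun a b => Ideal.mem_span_singleton.1
      (Ideal.Quotient.eq.1 (congrFun (congrFun k4 a) b).symm)
    obtain ⟨u, hu⟩ := hM2
    obtain ⟨v, hv⟩ := k1
    refine repr_of_congr (W := Matrix.of W + v • X - u • X') (e := e) h.inj hp k2 h3 k3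
      (by rw [h1, smul_smul, ← pow_add, show c + (2 * M - c) = 2 * M by omega])
      (by rw [← hδ, hNΔ]; simp) hΔS ?_
    ext a b
    have := hW a b
    simp only [Matrix.smul_apply, Matrix.add_apply, Matrix.sub_apply,
      Matrix.of_apply, smul_eq_mul] at this ⊢
    linear_combination this + X a b * hv - X' a b * hu
  · have := hb4.mul h5.inv hb5 hC.le
    rwa [mul_inv_rev, inv_inv, ← mul_assoc, ← inv_inv Y', ← mul_inv_rev] at this

theorem cocompact (p : ℕ) [Fact p.Prime] (n : ℕ) {F S : Type} [NontriviallyNormedField F]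
    [IsUltrametricDist F] [NormedAlgebra ℚ_[p] F] [FiniteDimensional ℚ_[p] F] [CommRing S]
    [StarRing S] {j : S →+* F} {bas : Module.Basis (Fin (2 * Module.finrank ℚ_[p] F)) ℤ S}
    {t : S →+ ℝ} (h : IsOrd p j bas t) (ϖ : Fˣ) (hϖ : ‖(ϖ : F)‖ < 1)
    (hmax : ∀ x : F, ‖x‖ < 1 → ‖x‖ ≤ ‖(ϖ : F)‖) :
    ∃ C : ℝ, ∀ g : GL (Fin n) F, ∃ γ ∈ Gam p n j, ∃ e : ℤ,
      Bnd C (dg (fun _ => ϖ ^ e) * (γ⁻¹ * g)) := by
  rcases Nat.eq_zero_or_pos n with rfl | hn
  · exact ⟨0, fun g => ⟨1, one_mem _, 0, fun i => i.elim0⟩⟩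
  have h0 : 0 < ‖(ϖ : F)‖ := norm_pos_iff.2 ϖ.ne_zero
  obtain ⟨C, hC⟩ := L6_main p n h ϖ hϖ hmax (pow_pos h0 n)
  refine ⟨C, fun g => ?_⟩
  obtain ⟨e, he⟩ := exists_norm_eq_zpow ϖ hϖ hmax g.det_ne_zero
  have hn' : (0 : ℤ) < n := by exact_mod_cast hn
  have h1 : ‖((dg (fun _ => ϖ ^ (-(e / n))) * g : GL (Fin n) F) : Matrix (Fin n) (Fin n) F).det‖ =
      ‖(ϖ : F)‖ ^ (e % n) := by
    rw [Units.val_mul, Matrix.det_mul, norm_mul, he, coe_dg, Matrix.det_diagonal,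
      Finset.prod_const, Finset.card_univ, Fintype.card_fin, norm_pow, Units.val_zpow_eq_zpow_val,
      norm_zpow, ← zpow_natCast, ← zpow_mul, ← zpow_add₀ h0.ne', Int.emod_def]
    congr 1
    ring
  obtain ⟨γ, h2, h3⟩ := hC (dg (fun _ => ϖ ^ (-(e / n))) * g) (by
    rw [h1, ← zpow_natCast]
    exact zpow_le_zpow_right_of_le_one₀ h0 hϖ.le (Int.emod_lt_of_pos _ hn').le) (by
    rw [h1]
    exact zpow_le_one₀ h0 hϖ.le (Int.emod_nonneg _ hn'.ne'))
  refine ⟨γ, h2, -(e / n), ?_⟩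
  rwa [← mul_assoc, dg_const_comm, mul_assoc, ← mul_assoc] at *

end Pool.Agent.MP_4d0c14_b

end
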