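import Pool.Agent.Mg.F4d0c14.Gec9bb9

section

/-! Regular functions, matrix models of the algebraic representation. -/

namespace Pool.Agent.MP_4d0c14_b

open scoped Matrix

variable {n : ℕ} {F E ι : Type} [Field F] [Field E]

/-- The algebra of regular functions on `GL(n, F)` with values in `E`. -/
def Reg (n : ℕ) (κ : ι → F →+* E) : Subalgebra E (GL (Fin n) F → E) :=
  Algebra.adjoin E
    ({f | ∃ σ i j, f = fun g : GL (Fin n) F => κ σ ((g : Matrix (Fin n) (Fin n) F) i j)} ∪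
      {f | ∃ σ i j, f = fun g : GL (Fin n) F =>
        κ σ (((g⁻¹ : GL (Fin n) F) : Matrix (Fin n) (Fin n) F) i j)})

variable [Fintype ι]

/-- The highest weight character. -/
def chi (κ : ι → F →+* E) (a : ι → Fin n → ℤ) (t : Fin n → Fˣ) : E :=
  ∏ σ, ∏ i, κ σ (t i) ^ a σ i

/-- The algebraic representation, unbundled. -/
noncomputable def algR (κ : ι → F →+* E) (a : ι → Fin n → ℤ) :
    Representation E (GL (Fin n) F) (algSpace κ a) :=
  (rightReg (GL (Fin n) F) E E).subrepresentation (algSpace κ a) (algSpace_le κ a)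

theorem algR_apply (κ : ι → F →+* E) (a : ι → Fin n → ℤ) (g : GL (Fin n) F) (φ : algSpace κ a)
    (x : GL (Fin n) F) : (algR κ a g φ).1 x = φ.1 (x * g) := rfl

/-- `ρ` is the matrix of the algebraic representation in the coordinates `e`. -/
def IsModel (κ : ι → F →+* E) (a : ι → Fin n → ℤ) {N : ℕ} (e : algSpace κ a ≃ₗ[E] (Fin N → E))
    (ρ : GL (Fin n) F →* Matrix (Fin N) (Fin N) E) : Prop :=
  ∀ g φ, e (algR κ a g φ) = ρ g *ᵥ e φ

/-- The grading by the principal one-parameter subgroup and the highest weight vector. -/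
structure Graded (κ : ι → F →+* E) (a : ι → Fin n → ℤ) {N : ℕ}
    (ρ : GL (Fin n) F →* Matrix (Fin N) (Fin N) E) (w l : Fin N → E) {D : ℕ}
    (π : Fin (D + 1) → Matrix (Fin N) (Fin N) E) : Prop where
  lw : l ⬝ᵥ w = 1
  up : ∀ u, IsUp1 u → ρ u *ᵥ w = w
  low : ∀ u, IsLow1 u → l ᵥ* ρ u = l
  tor : ∀ t, ρ (dg t) *ᵥ w = chi κ a t • w
  zero : π 0 = Matrix.vecMulVec w l
  sum : ∑ M, π M = 1
  orth : ∀ M M', π M * π M' = if M = M' then π M else 0
  eig : ∀ (z : Fˣ) (y : ℚ), (z : F) = y → ρ (dg fun i => z ^ (i : ℕ)) =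
    chi κ a (fun i => z ^ (i : ℕ)) • ∑ M : Fin (D + 1), ((y : E) ^ (M : ℕ)) • π M

/-- The properties of the algebraic representation used in the proof. -/
structure AlgOK (κ : ι → F →+* E) (a : ι → Fin n → ℤ) {N : ℕ}
    (ρ : GL (Fin n) F →* Matrix (Fin N) (Fin N) E) : Prop where
  reg : ∀ i j, (fun g => ρ g i j) ∈ Reg n κ
  burn : Submodule.span E (Set.range ρ) = ⊤
  form : ∃ S : GL (Fin N) E, ∀ g, (ρ g)ᵀ * S = S * ρ (tr g)
  tri : ∀ s : Equiv.Perm (Fin n), ∃ l w : Fin N → E, ∀ b, IsUp b →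
    l ⬝ᵥ (ρ b *ᵥ w) = ∏ σ, ∏ i, κ σ ((b : Matrix (Fin n) (Fin n) F) (s i) (s i)) ^ a σ i
  cen : ∀ z : Fˣ, ρ (dg fun _ => z) = chi κ a (fun _ => z) • (1 : Matrix (Fin N) (Fin N) E)
  grad : ∃ (w l : Fin N → E) (D : ℕ) (π : Fin (D + 1) → Matrix (Fin N) (Fin N) E),
    Graded κ a ρ w l π

end Pool.Agent.MP_4d0c14_b

end

section

/-! Regular functions: translations, finite rank, polynomial curves, density. -/

namespace Pool.Agent.MP_4d0c14_b

open scoped Matrix
open Polynomial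

variable {n : ℕ} {F E ι : Type}

section Alg

variable [Field F] [Field E] {κ : ι → F →+* E} {f : GL (Fin n) F → E}

theorem A1_ent (κ : ι → F →+* E) (σ : ι) (i j : Fin n) :
    (fun g : GL (Fin n) F => κ σ ((g : Matrix (Fin n) (Fin n) F) i j)) ∈ Reg n κ :=
  Algebra.subset_adjoin (Or.inl ⟨σ, i, j, rfl⟩)

theorem A1_ent' (κ : ι → F →+* E) (σ : ι) (i j : Fin n) :
    (fun g : GL (Fin n) F => κ σ (((g⁻¹ : GL (Fin n) F) : Matrix (Fin n) (Fin n) F) i j)) ∈
      Reg n κ :=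
  Algebra.subset_adjoin (Or.inr ⟨σ, i, j, rfl⟩)

theorem A1_const (κ : ι → F →+* E) (c : E) : (fun _ : GL (Fin n) F => c) ∈ Reg n κ :=
  (Reg n κ).algebraMap_mem c

theorem A1_ind (Q : (GL (Fin n) F → E) → Prop)
    (h1 : ∀ σ i j, Q fun g => κ σ ((g : Matrix (Fin n) (Fin n) F) i j))
    (h2 : ∀ σ i j, Q fun g => κ σ (((g⁻¹ : GL (Fin n) F) : Matrix (Fin n) (Fin n) F) i j))
    (hc : ∀ c : E, Q fun _ => c)
    (ha : ∀ u v, u ∈ Reg n κ → v ∈ Reg n κ → Q u → Q v → Q fun g => u g + v g)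
    (hm : ∀ u v, u ∈ Reg n κ → v ∈ Reg n κ → Q u → Q v → Q fun g => u g * v g)
    (hf : f ∈ Reg n κ) : Q f := by
  induction hf using Algebra.adjoin_induction with
  | mem x hx =>
    rcases hx with ⟨σ, i, j, rfl⟩ | ⟨σ, i, j, rfl⟩
    exacts [h1 σ i j, h2 σ i j]
  | algebraMap r => exact hc r
  | add x y hx hy ihx ihy => exact ha x y hx hy ihx ihy
  | mul x y hx hy ihx ihy => exact hm x y hx hy ihx ihy

theorem A1_rank (hf : f ∈ Reg n κ) : ∃ (T : Type) (_ : Fintype T) (u v : T → GL (Fin n) F → E),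
    (∀ i, u i ∈ Reg n κ ∧ v i ∈ Reg n κ) ∧ ∀ x h, f (x * h) = ∑ i, u i x * v i h := by
  refine A1_ind (fun f => ∃ (T : Type) (_ : Fintype T) (u v : T → GL (Fin n) F → E),
    (∀ i, u i ∈ Reg n κ ∧ v i ∈ Reg n κ) ∧ ∀ x h, f (x * h) = ∑ i, u i x * v i h)
    ?_ ?_ ?_ ?_ ?_ hf
  · intro σ i j
    refine ⟨Fin n, inferInstance, _, _, fun k => ⟨A1_ent κ σ i k, A1_ent κ σ k j⟩, fun x h => ?_⟩
    beta_reduce
    rw [Units.val_mul, Matrix.mul_apply, map_sum]
    exact Finset.sum_congr rfl fun k _ => map_mul _ _ _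
  · intro σ i j
    refine ⟨Fin n, inferInstance, _, _, fun k => ⟨A1_ent' κ σ k j, A1_ent' κ σ i k⟩,
      fun x h => ?_⟩
    beta_reduce
    rw [mul_inv_rev, Units.val_mul, Matrix.mul_apply, map_sum]
    exact Finset.sum_congr rfl fun k _ => (map_mul _ _ _).trans (mul_comm _ _)
  · intro c
    exact ⟨Unit, inferInstance, fun _ _ => c, fun _ _ => 1,
      fun _ => ⟨A1_const κ c, A1_const κ 1⟩, by simp⟩
  · rintro u v - - ⟨T, _, a, b, hab, h⟩ ⟨T', _, a', b', hab', h'⟩
    refine ⟨T ⊕ T', inferInstance, Sum.elim a a', Sum.elim b b', ?_, fun x y => ?_⟩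
    · rintro (i | i)
      exacts [hab i, hab' i]
    · beta_reduce
      rw [h, h', Fintype.sum_sum_type]
      rfl
  · rintro u v - - ⟨T, _, a, b, hab, h⟩ ⟨T', _, a', b', hab', h'⟩
    refine ⟨T × T', inferInstance, fun i => a i.1 * a' i.2, fun i => b i.1 * b' i.2,
      fun i => ⟨mul_mem (hab _).1 (hab' _).1, mul_mem (hab _).2 (hab' _).2⟩, fun x y => ?_⟩
    beta_reduce
    rw [h, h', Finset.sum_mul_sum, Fintype.sum_prod_type]
    refine Finset.sum_congr rfl fun i _ => Finset.sum_congr rfl fun j _ => ?_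
    simp only [Pi.mul_apply]
    ring

theorem reg_finite_rank (hf : f ∈ Reg n κ) : ∃ (N : ℕ) (u v : Fin N → GL (Fin n) F → E),
    (∀ i, u i ∈ Reg n κ ∧ v i ∈ Reg n κ) ∧ ∀ x h, f (x * h) = ∑ i, u i x * v i h := by
  obtain ⟨T, _, u, v, huv, h⟩ := A1_rank hf
  let e := (Fintype.equivFin T).symm
  refine ⟨Fintype.card T, fun i => u (e i), fun i => v (e i), fun i => huv _, fun x y => ?_⟩
  rw [h]
  exact (e.sum_comp fun i => u i x * v i y).symm

theorem reg_left (hf : f ∈ Reg n κ) (g : GL (Fin n) F) : (fun x => f (g * x)) ∈ Reg n κ := by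
  obtain ⟨N, u, v, huv, h⟩ := reg_finite_rank hf
  have e : (fun x => f (g * x)) = ∑ i, u i g • v i := by
    funext x
    rw [h, Finset.sum_apply]
    rfl
  rw [e]
  exact Subalgebra.sum_mem _ fun i _ => Subalgebra.smul_mem _ (huv i).2 _

theorem reg_right (hf : f ∈ Reg n κ) (g : GL (Fin n) F) : (fun x => f (x * g)) ∈ Reg n κ := by
  obtain ⟨N, u, v, huv, h⟩ := reg_finite_rank hf
  have e : (fun x => f (x * g)) = ∑ i, v i g • u i := by
    funext x
    rw [h, Finset.sum_apply]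
    exact Finset.sum_congr rfl fun i _ => mul_comm _ _
  rw [e]
  exact Subalgebra.sum_mem _ fun i _ => Subalgebra.smul_mem _ (huv i).1 _

theorem reg_inv (hf : f ∈ Reg n κ) : (fun x => f x⁻¹) ∈ Reg n κ := by
  refine A1_ind (fun f => (fun x => f x⁻¹) ∈ Reg n κ) ?_ ?_ ?_ ?_ ?_ hf
  · exact fun σ i j => A1_ent' κ σ i j
  · intro σ i j
    simpa only [inv_inv] using A1_ent κ σ i j
  · exact fun c => A1_const κ c
  · exact fun u v _ _ hu hv => add_mem hu hv
  · exact fun u v _ _ hu hv => mul_mem hu hv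

theorem A1_det {m : Type} [Fintype m] [DecidableEq m] (κ : ι → F →+* E) (σ : ι)
    (s t : m → Fin n) : (fun g : GL (Fin n) F =>
      κ σ ((g : Matrix (Fin n) (Fin n) F).submatrix s t).det) ∈ Reg n κ := by
  have e : (fun g : GL (Fin n) F => κ σ ((g : Matrix (Fin n) (Fin n) F).submatrix s t).det) =
      ∑ π : Equiv.Perm m, ((Equiv.Perm.sign π : ℤ) : E) •
        ∏ i, fun g : GL (Fin n) F => κ σ ((g : Matrix (Fin n) (Fin n) F) (s (π i)) (t i)) := by
    funext g
    rw [Matrix.det_apply', map_sum, Finset.sum_apply]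
    refine Finset.sum_congr rfl fun π _ => ?_
    rw [map_mul, map_intCast, map_prod, Pi.smul_apply, Finset.prod_apply]
    rfl
  rw [e]
  exact Subalgebra.sum_mem _ fun π _ => Subalgebra.smul_mem _
    (Subalgebra.prod_mem _ fun i _ => A1_ent κ σ _ _) _

theorem A1_minor_last (g : GL (Fin n) F) (i : Fin n) (hi : ¬ (i : ℕ) + 1 < n) :
    minor g i = (g : Matrix (Fin n) (Fin n) F).det := by
  have hn : (i : ℕ) + 1 = n := le_antisymm i.2 (not_lt.1 hi)
  exact Matrix.det_submatrix_equiv_self (finCongr hn) _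

theorem hw_mem_reg [Fintype ι] (κ : ι → F →+* E) {a : ι → Fin n → ℤ} (ha : ∀ σ, Antitone (a σ)) :
    hw κ a ∈ Reg n κ := by
  have e : hw κ a = ∏ σ, ∏ i, fun g : GL (Fin n) F => κ σ (minor g i) ^ gap (a σ) i := by
    funext g
    simp only [Finset.prod_apply]
    rfl
  rw [e]
  refine Subalgebra.prod_mem _ fun σ _ => Subalgebra.prod_mem _ fun i _ => ?_
  have hm : (fun g : GL (Fin n) F => κ σ (minor g i)) ∈ Reg n κ := A1_det κ σ _ _
  rcases le_or_gt 0 (gap (a σ) i) with h | h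
  · obtain ⟨m, hm'⟩ := Int.eq_ofNat_of_zero_le h
    simp only [hm', zpow_natCast]
    exact pow_mem hm m
  · have hi : ¬ (i : ℕ) + 1 < n := fun hi => by
      rw [gap, dif_pos hi, sub_neg, ← not_le] at h
      exact h (ha σ (Fin.le_def.2 (Nat.le_succ _)))
    obtain ⟨m, hm'⟩ := Int.exists_eq_neg_ofNat h.le
    have h2 := pow_mem (reg_inv hm) m
    convert h2 using 1
    funext g
    rw [hm', zpow_neg, zpow_natCast, ← inv_pow, Pi.pow_apply, A1_minor_last _ _ hi,
      A1_minor_last _ _ hi, ← map_inv₀, Matrix.coe_units_inv, Matrix.det_nonsing_inv,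
      Ring.inverse_eq_inv']

theorem A1_eval [CharZero F] [CharZero E] (φ : F →+* E) (q : F[X]) (y : ℚ) :
    (q.map φ).eval (y : E) = φ (q.eval (y : F)) := by
  rw [eval_map, ← map_ratCast φ y, eval₂_hom]

theorem reg_curve [Fintype ι] [CharZero F] [CharZero E] (hf : f ∈ Reg n κ)
    (M : Matrix (Fin n) (Fin n) F[X]) : ∃ (N : ℕ) (P : E[X]), ∀ (y : ℚ) (g : GL (Fin n) F),
      (g : Matrix (Fin n) (Fin n) F) = M.map (eval (y : F)) →
      f g * (∏ σ, κ σ (g : Matrix (Fin n) (Fin n) F).det) ^ N = P.eval (y : E) := by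
  classical
  have hd : ∀ (y : ℚ) (g : GL (Fin n) F),
      (g : Matrix (Fin n) (Fin n) F) = M.map (eval (y : F)) → ∀ σ,
      (M.det.map (κ σ)).eval (y : E) = κ σ (g : Matrix (Fin n) (Fin n) F).det := by
    intro y g hg σ
    rw [A1_eval, hg]
    exact congrArg _ ((evalRingHom (y : F)).map_det M)
  have hD : ∀ (y : ℚ) (g : GL (Fin n) F),
      (g : Matrix (Fin n) (Fin n) F) = M.map (eval (y : F)) →
      (∏ σ, M.det.map (κ σ)).eval (y : E) = ∏ σ, κ σ (g : Matrix (Fin n) (Fin n) F).det := by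
    intro y g hg
    rw [eval_prod]
    exact Finset.prod_congr rfl fun σ _ => hd y g hg σ
  refine A1_ind (fun f => ∃ (N : ℕ) (P : E[X]), ∀ (y : ℚ) (g : GL (Fin n) F),
      (g : Matrix (Fin n) (Fin n) F) = M.map (eval (y : F)) →
      f g * (∏ σ, κ σ (g : Matrix (Fin n) (Fin n) F).det) ^ N = P.eval (y : E))
    ?_ ?_ ?_ ?_ ?_ hf
  · intro σ i j
    refine ⟨0, (M i j).map (κ σ), fun y g hg => ?_⟩
    beta_reduce
    rw [pow_zero, mul_one, A1_eval, hg, Matrix.map_apply]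
  · intro σ i j
    refine ⟨1, (M.adjugate i j).map (κ σ) * ∏ τ ∈ Finset.univ.erase σ, M.det.map (κ τ),
      fun y g hg => ?_⟩
    have h1 : (M.adjugate i j).eval (y : F) = (g : Matrix (Fin n) (Fin n) F).adjugate i j := by
      rw [hg]
      exact congrFun (congrFun ((evalRingHom (y : F)).map_adjugate M) i) j
    have h2 : (g : Matrix (Fin n) (Fin n) F).det ≠ 0 := Matrix.GeneralLinearGroup.det_ne_zero g
    beta_reduce
    rw [pow_one, eval_mul, eval_prod, Finset.prod_congr rfl fun τ _ => hd y g hg τ, A1_eval, h1,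
      ← Finset.mul_prod_erase _ _ (Finset.mem_univ σ), ← mul_assoc, ← map_mul,
      Matrix.coe_units_inv, Matrix.inv_def, Ring.inverse_eq_inv', Matrix.smul_apply, smul_eq_mul,
      mul_right_comm, inv_mul_cancel₀ h2, one_mul]
  · intro c
    exact ⟨0, C c, fun y g _ => by simp⟩
  · rintro u v - - ⟨N, P, h⟩ ⟨N', P', h'⟩
    refine ⟨N + N', P * (∏ σ, M.det.map (κ σ)) ^ N' + P' * (∏ σ, M.det.map (κ σ)) ^ N,
      fun y g hg => ?_⟩
    beta_reduce
    rw [eval_add, eval_mul, eval_mul, eval_pow, eval_pow, hD y g hg, ← h y g hg, ← h' y g hg]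
    ring
  · rintro u v - - ⟨N, P, h⟩ ⟨N', P', h'⟩
    refine ⟨N + N', P * P', fun y g hg => ?_⟩
    beta_reduce
    rw [eval_mul, ← h y g hg, ← h' y g hg]
    ring

end Alg

variable [NormedField F] [IsUltrametricDist F] [NormedField E] [IsUltrametricDist E]
  {κ : ι → F →+* E} {f : GL (Fin n) F → E}

omit [IsUltrametricDist E] in
theorem reg_eq_zero [Fintype ι] [CharZero F] [CharZero E] (p : ℕ) (hp0 : p ≠ 0) (hp : ‖(p : F)‖ < 1)
    (hf : f ∈ Reg n κ) {r : ℝ} (hr : 0 < r) (h : ∀ k, Near r k → f k = 0) : f = 0 := by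
  funext g
  set Y : Matrix (Fin n) (Fin n) F := (g : Matrix (Fin n) (Fin n) F) - 1 with hY
  let M : Matrix (Fin n) (Fin n) F[X] :=
    Matrix.of fun i j => C ((1 : Matrix (Fin n) (Fin n) F) i j) + X * C (Y i j)
  have hM : ∀ y : F, M.map (eval y) = 1 + y • Y := fun y => by
    ext i j
    simp only [M, Matrix.map_apply, Matrix.of_apply, eval_add, eval_mul, eval_C, eval_X,
      Matrix.add_apply, Matrix.smul_apply, smul_eq_mul]
  obtain ⟨N, P, hP⟩ := reg_curve hf M
  obtain ⟨B, hB0, hB⟩ := MLe.exists_bound Y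
  have hp1 : 2 ≤ p := by
    rcases p with _ | _ | p
    · exact absurd rfl hp0
    · simp at hp
    · omega
  obtain ⟨m₀, hm₀⟩ := exists_pow_lt_of_lt_one (div_pos (lt_min hr one_pos) hB0) hp
  have hroot : ∀ m : ℕ, P.IsRoot (((p ^ (m₀ + m) : ℕ) : E)) := by
    intro m
    have hs : ‖((p ^ (m₀ + m) : ℕ) : F)‖ * B < min r 1 := by
      rw [← lt_div_iff₀ hB0, Nat.cast_pow, norm_pow]
      exact (pow_le_pow_of_le_one (norm_nonneg _) hp.le (Nat.le_add_right _ _)).trans_lt hm₀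
    have hX := hB.smul ((p ^ (m₀ + m) : ℕ) : F)
    obtain ⟨k, hk⟩ := exists_gl_of_mle (hs.trans_le (min_le_right _ _)) hX
    have hn : Near r k := fun i j => by
      rw [hk, add_sub_cancel_left]
      exact (hX i j).trans_lt (hs.trans_le (min_le_left _ _))
    have := hP ((p ^ (m₀ + m) : ℕ) : ℚ) k (by rw [hM, Rat.cast_natCast, hk])
    rw [h k hn, zero_mul, Rat.cast_natCast] at this
    exact this.symm
  have hP0 : P = 0 := by
    refine eq_zero_of_infinite_isRoot P (Set.infinite_of_injective_forall_mem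
      (f := fun m : ℕ => ((p ^ (m₀ + m) : ℕ) : E)) (fun a b hab => ?_) hroot)
    exact Nat.add_left_cancel (Nat.pow_right_injective hp1 (Nat.cast_injective hab))
  have h1 := hP 1 g (by rw [hM, Rat.cast_one, one_smul, hY, add_sub_cancel])
  rw [hP0, eval_zero] at h1
  refine (mul_eq_zero.1 h1).resolve_right (pow_ne_zero _ (Finset.prod_ne_zero_iff.2 fun σ _ => ?_))
  exact (_root_.map_ne_zero _).2 (Matrix.GeneralLinearGroup.det_ne_zero g)

omit [IsUltrametricDist F] in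
theorem reg_bdd (hκ : ∀ σ x, ‖κ σ x‖ = ‖x‖) (hf : f ∈ Reg n κ) (C : ℝ) :
    ∃ C' : ℝ, 0 < C' ∧ ∀ g, Bnd C g → ‖f g‖ ≤ C' := by
  refine A1_ind (fun f => ∃ C' : ℝ, 0 < C' ∧ ∀ g, Bnd C g → ‖f g‖ ≤ C') ?_ ?_ ?_ ?_ ?_ hf
  · intro σ i j
    exact ⟨max C 1, lt_max_of_lt_right one_pos, fun g hg =>
      (hκ _ _).trans_le ((hg i j).1.trans (le_max_left _ _))⟩
  · intro σ i j
    exact ⟨max C 1, lt_max_of_lt_right one_pos, fun g hg =>
      (hκ _ _).trans_le ((hg i j).2.trans (le_max_left _ _))⟩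
  · intro c
    exact ⟨max ‖c‖ 1, lt_max_of_lt_right one_pos, fun g _ => le_max_left _ _⟩
  · rintro u v - - ⟨a, ha, h⟩ ⟨b, -, h'⟩
    exact ⟨max a b, lt_max_of_lt_left ha, fun g hg =>
      (IsUltrametricDist.norm_add_le_max _ _).trans (max_le_max (h g hg) (h' g hg))⟩
  · rintro u v - - ⟨a, ha, h⟩ ⟨b, hb, h'⟩
    exact ⟨a * b, mul_pos ha hb, fun g hg =>
      (norm_mul _ _).trans_le (mul_le_mul (h g hg) (h' g hg) (norm_nonneg _) ha.le)⟩

theorem reg_cont (hκ : ∀ σ x, ‖κ σ x‖ = ‖x‖) (hf : f ∈ Reg n κ) {ε : ℝ} (hε : 0 < ε) :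
    ∃ r : ℝ, 0 < r ∧ ∀ k, Near r k → ‖f k - f 1‖ ≤ ε := by
  revert ε
  refine A1_ind (fun f => ∀ {ε : ℝ}, 0 < ε → ∃ r : ℝ, 0 < r ∧ ∀ k, Near r k → ‖f k - f 1‖ ≤ ε)
    ?_ ?_ ?_ ?_ ?_ hf
  · intro σ i j ε hε
    refine ⟨ε, hε, fun k hk => ?_⟩
    rw [← map_sub, hκ]
    exact (hk i j).le
  · intro σ i j ε hε
    refine ⟨min ε 1, lt_min hε one_pos, fun k hk => ?_⟩
    rw [← map_sub, hκ, inv_one]
    exact (hk.inv (lt_min hε one_pos) (min_le_right _ _) i j).le.trans (min_le_left _ _)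
  · intro c ε hε
    exact ⟨1, one_pos, fun k _ => by simpa using hε.le⟩
  · intro u v _ _ hu hv ε hε
    obtain ⟨r, hr, h⟩ := hu hε
    obtain ⟨s, hs, h'⟩ := hv hε
    refine ⟨min r s, lt_min hr hs, fun k hk => ?_⟩
    rw [add_sub_add_comm]
    exact (IsUltrametricDist.norm_add_le_max _ _).trans
      (max_le (h k (hk.mono (min_le_left _ _))) (h' k (hk.mono (min_le_right _ _))))
  · intro u v hu' hv' hu hv ε hε
    obtain ⟨a, ha, hua⟩ := reg_bdd hκ hu' 1
    obtain ⟨b, hb, hvb⟩ := reg_bdd hκ hv' 1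
    obtain ⟨r, hr, h⟩ := hu (div_pos hε hb)
    obtain ⟨s, hs, h'⟩ := hv (div_pos hε ha)
    refine ⟨min 1 (min r s), lt_min one_pos (lt_min hr hs), fun k hk => ?_⟩
    have e : u k * v k - u 1 * v 1 = u k * (v k - v 1) + (u k - u 1) * v 1 := by ring
    have h1 := hua k ((hk.mono (min_le_left _ _)).bnd one_pos le_rfl)
    have h2 := hvb 1 ((near_one one_pos).bnd one_pos le_rfl)
    have h3 := h k (hk.mono ((min_le_right _ _).trans (min_le_left _ _)))
    have h4 := h' k (hk.mono ((min_le_right _ _).trans (min_le_right _ _)))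
    rw [e]
    refine (IsUltrametricDist.norm_add_le_max _ _).trans (max_le ?_ ?_)
    · rw [norm_mul]
      exact (mul_le_mul h1 h4 (norm_nonneg _) ha.le).trans_eq (mul_div_cancel₀ _ ha.ne')
    · rw [norm_mul]
      exact (mul_le_mul h3 h2 (norm_nonneg _) (div_pos hε hb).le).trans_eq
        (div_mul_cancel₀ _ hb.ne')

end Pool.Agent.MP_4d0c14_b

end

section

/-! Invariance properties of the highest weight function. -/

namespace Pool.Agent.MP_4d0c14_b

open scoped Matrix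

variable {n : ℕ} {F E ι : Type} [Field F] [Field E] [Fintype ι] (κ : ι → F →+* E)
  (a : ι → Fin n → ℤ)

theorem A2_abel (x : ℕ → E) (hx : ∀ i, x i ≠ 0) (c : ℕ → ℤ) (m : ℕ) :
    (∏ i ∈ Finset.range m, (∏ j ∈ Finset.range (i + 1), x j) ^ (c i - c (i + 1))) *
      (∏ j ∈ Finset.range m, x j) ^ c m = ∏ i ∈ Finset.range m, x i ^ c i := by
  induction m with
  | zero => simp
  | succ m ih =>
    rw [Finset.prod_range_succ, mul_assoc,
      ← zpow_add₀ (Finset.prod_ne_zero_iff.2 fun j _ => hx j), sub_add_cancel,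
      Finset.prod_range_succ x, mul_zpow, ← mul_assoc, ih, Finset.prod_range_succ]

theorem A2_det {k : ℕ} (M : Matrix (Fin n) (Fin n) F) (hM : ∀ i j, j < i → M i j = 0)
    (e : Fin k → Fin n) (he : Function.Injective e) :
    (M.submatrix e e).det = ∏ j, M (e j) (e j) := by
  have hs : StrictMono (e ∘ Tuple.sort e) :=
    (Tuple.monotone_sort e).strictMono_of_injective (he.comp (Tuple.sort e).injective)
  rw [← Matrix.det_submatrix_equiv_self (Tuple.sort e), Matrix.det_of_isUpperTriangular,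
    ← Equiv.prod_comp (Tuple.sort e) fun j => M (e j) (e j)]
  · rfl
  · exact fun i j h => hM _ _ (hs h)

theorem A2_minor_up {u : GL (Fin n) F} (hu : IsUp u) (g : GL (Fin n) F) (i : Fin n) :
    minor (g * u) i = minor g i * ∏ j : Fin ((i : ℕ) + 1),
      (u : Matrix (Fin n) (Fin n) F) (Fin.castLE i.2 j) (Fin.castLE i.2 j) := by
  rw [← A2_det _ hu _ (Fin.castLE_injective i.2), minor, minor, ← Matrix.det_mul]
  congr 1
  ext p q
  rw [Units.val_mul, Matrix.submatrix_apply, Matrix.mul_apply, Matrix.mul_apply]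
  refine (Fintype.sum_of_injective _ (Fin.castLE_injective i.2) _ _ (fun c hc => ?_)
    fun _ => rfl).symm
  have h : (i : ℕ) < c := by
    by_contra h
    exact hc ⟨⟨c, by omega⟩, rfl⟩
  rw [hu c _ (by have := q.2; simp only [Fin.lt_def, Fin.val_castLE]; omega), mul_zero]

theorem A2_diag_ne {b : GL (Fin n) F} (hb : IsUp b) (i : Fin n) :
    (b : Matrix (Fin n) (Fin n) F) i i ≠ 0 := by
  have h := (Matrix.isUnits_det_units b).ne_zero
  rw [Matrix.det_of_isUpperTriangular fun i j h => hb i j h] at h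
  exact Finset.prod_ne_zero_iff.1 h i (Finset.mem_univ _)

theorem chi_mul (s t : Fin n → Fˣ) : chi κ a (s * t) = chi κ a s * chi κ a t := by
  simp only [chi, Pi.mul_apply, Units.val_mul, map_mul, mul_zpow, Finset.prod_mul_distrib]

theorem chi_one : chi κ a 1 = 1 := by
  simp [chi]

theorem chi_ne_zero (t : Fin n → Fˣ) : chi κ a t ≠ 0 :=
  Finset.prod_ne_zero_iff.2 fun σ _ => Finset.prod_ne_zero_iff.2 fun i _ =>
    zpow_ne_zero _ ((map_ne_zero (κ σ)).2 (t i).ne_zero)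

theorem prod_gap {x : Fin n → E} (hx : ∀ i, x i ≠ 0) (c : Fin n → ℤ) :
    ∏ i : Fin n, (∏ j : Fin ((i : ℕ) + 1), x (Fin.castLE i.2 j)) ^ gap c i = ∏ i, x i ^ c i := by
  let x' : ℕ → E := fun j => if h : j < n then x ⟨j, h⟩ else 1
  let c' : ℕ → ℤ := fun j => if h : j < n then c ⟨j, h⟩ else 0
  have hx' : ∀ j, x' j ≠ 0 := fun j => by
    simp only [x']
    split_ifs
    · exact hx _
    · exact one_ne_zero
  have h := A2_abel x' hx' c' n
  rw [show c' n = 0 from dif_neg (lt_irrefl n), zpow_zero, mul_one,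
    ← Fin.prod_univ_eq_prod_range
      (fun i => (∏ j ∈ Finset.range (i + 1), x' j) ^ (c' i - c' (i + 1))),
    ← Fin.prod_univ_eq_prod_range (fun i => x' i ^ c' i)] at h
  have e1 : ∀ i : Fin n, x' i = x i := fun i => dif_pos i.2
  have e2 : ∀ i : Fin n, c' i = c i := fun i => dif_pos i.2
  simp only [e1, e2] at h
  rw [← h]
  refine Finset.prod_congr rfl fun i _ => ?_
  rw [← Fin.prod_univ_eq_prod_range x']
  congr 1
  exact Finset.prod_congr rfl fun j _ => (e1 (Fin.castLE i.2 j)).symm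

theorem hw_tr (g : GL (Fin n) F) : hw κ a (tr g) = hw κ a g := by
  have h : ∀ i, minor (tr g) i = minor g i := fun i => by
    rw [minor, minor, coe_tr, ← Matrix.transpose_submatrix, Matrix.det_transpose]
  simp only [hw, h]

theorem hw_mul_up {u : GL (Fin n) F} (hu : IsUp1 u) (g : GL (Fin n) F) :
    hw κ a (g * u) = hw κ a g := by
  have h1 : IsUp u := fun i j h => by rw [hu i j h.le, Matrix.one_apply_ne h.ne']
  have h2 : ∀ i, (u : Matrix (Fin n) (Fin n) F) i i = 1 := fun i => by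
    rw [hu i i le_rfl, Matrix.one_apply_eq]
  simp only [hw, A2_minor_up h1, h2, Finset.prod_const_one, mul_one]

theorem hw_low_mul {u : GL (Fin n) F} (hu : IsLow1 u) (g : GL (Fin n) F) :
    hw κ a (u * g) = hw κ a g := by
  have h : IsUp1 (tr u) := fun i j h => by
    rw [coe_tr, Matrix.transpose_apply, hu j i h, Matrix.one_apply, Matrix.one_apply]
    simp only [eq_comm]
  rw [← hw_tr, tr_mul, hw_mul_up κ a h, hw_tr]

theorem A2_mul_dg (t : Fin n → Fˣ) (g : GL (Fin n) F) :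
    hw κ a (g * dg t) = chi κ a t * hw κ a g := by
  have h1 : IsUp (dg t) := fun i j h => Matrix.diagonal_apply_ne _ h.ne'
  simp only [hw, chi, A2_minor_up h1, coe_dg, Matrix.diagonal_apply_eq, map_mul, map_prod,
    mul_zpow, Finset.prod_mul_distrib]
  rw [mul_comm]
  congr 1
  exact Finset.prod_congr rfl fun σ _ =>
    prod_gap (x := fun i => κ σ (t i)) (fun i => (map_ne_zero (κ σ)).2 (t i).ne_zero) _

theorem hw_dg_mul (t : Fin n → Fˣ) (g : GL (Fin n) F) :
    hw κ a (dg t * g) = chi κ a t * hw κ a g := by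
  rw [← hw_tr, tr_mul, tr_dg, A2_mul_dg, hw_tr]

theorem hw_mul_dg (t : Fin n → Fˣ) (g : GL (Fin n) F) :
    hw κ a (g * dg t) = chi κ a t * hw κ a g := A2_mul_dg κ a t g

theorem hw_one : hw κ a (1 : GL (Fin n) F) = 1 := by
  have h : ∀ i, minor (1 : GL (Fin n) F) i = 1 := fun i => by
    rw [minor, Units.val_one, Matrix.submatrix_one _ (Fin.castLE_injective i.2), Matrix.det_one]
  simp [hw, h]

theorem exists_hw_perm (s : Equiv.Perm (Fin n)) : ∃ w : GL (Fin n) F, ∀ b, IsUp b →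
    hw κ a (w⁻¹ * b * w) =
      ∏ σ, ∏ i, κ σ ((b : Matrix (Fin n) (Fin n) F) (s i) (s i)) ^ a σ i := by
  refine ⟨⟨s.symm.toPEquiv.toMatrix, s.toPEquiv.toMatrix, ?_, ?_⟩, fun b hb => ?_⟩
  · rw [← PEquiv.toMatrix_trans, ← Equiv.toPEquiv_trans, Equiv.symm_trans_self,
      Equiv.toPEquiv_refl, PEquiv.toMatrix_refl]
  · rw [← PEquiv.toMatrix_trans, ← Equiv.toPEquiv_trans, Equiv.self_trans_symm,
      Equiv.toPEquiv_refl, PEquiv.toMatrix_refl]
  · refine Finset.prod_congr rfl fun σ _ => ?_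
    rw [← prod_gap (x := fun i => κ σ ((b : Matrix (Fin n) (Fin n) F) (s i) (s i)))
      fun i => (map_ne_zero (κ σ)).2 (A2_diag_ne hb _)]
    refine Finset.prod_congr rfl fun i _ => ?_
    rw [← map_prod, ← A2_det _ hb (fun j : Fin ((i : ℕ) + 1) => s (Fin.castLE i.2 j))
      (s.injective.comp (Fin.castLE_injective i.2)), minor, Units.val_mul, Units.val_mul,
      Units.inv_mk, PEquiv.toMatrix_toPEquiv_mul, PEquiv.mul_toMatrix_toPEquiv]
    rfl

theorem alg_low_mul (φ : algSpace κ a) {u : GL (Fin n) F} (hu : IsLow1 u) (g : GL (Fin n) F) :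
    φ.1 (u * g) = φ.1 g := by
  obtain ⟨φ, hφ⟩ := φ
  induction hφ using Submodule.span_induction with
  | mem _ h =>
    obtain ⟨y, rfl⟩ := h
    change hw κ a (u * g * y) = hw κ a (g * y)
    rw [mul_assoc, hw_low_mul κ a hu]
  | zero => rfl
  | add f f' _ _ h h' => exact congrArg₂ (· + ·) h h'
  | smul c f _ h => exact congrArg (c • ·) h

theorem alg_dg_mul (φ : algSpace κ a) (t : Fin n → Fˣ) (g : GL (Fin n) F) :
    φ.1 (dg t * g) = chi κ a t * φ.1 g := by
  obtain ⟨φ, hφ⟩ := φ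
  induction hφ using Submodule.span_induction with
  | mem _ h =>
    obtain ⟨y, rfl⟩ := h
    change hw κ a (dg t * g * y) = chi κ a t * hw κ a (g * y)
    rw [mul_assoc, hw_dg_mul]
  | zero => exact (mul_zero _).symm
  | add f f' _ _ h h' => exact (congrArg₂ (· + ·) h h').trans (mul_add _ _ _).symm
  | smul c f _ h => exact (congrArg (c * ·) h).trans (mul_left_comm _ _ _)

theorem hw_mem_algSpace : hw κ a ∈ algSpace κ a :=
  Submodule.subset_span ⟨1, funext fun x => congrArg _ (mul_one x)⟩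

theorem span_orbit_hw :
    Submodule.span E (Set.range fun g => algR κ a g ⟨hw κ a, hw_mem_algSpace κ a⟩) = ⊤ := by
  apply Submodule.map_injective_of_injective (algSpace κ a).injective_subtype
  rw [Submodule.map_span, Submodule.map_subtype_top, ← Set.range_comp]
  rfl

end Pool.Agent.MP_4d0c14_b

end

section

/-! The matrix model and its grading. -/

namespace Pool.Agent.MP_4d0c14_b

open scoped Matrix

variable {n : ℕ} {F E ι : Type} [NormedField F] [IsUltrametricDist F] [CharZero F]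
  [NormedField E] [CharZero E] [Fintype ι] {κ : ι → F →+* E} {a : ι → Fin n → ℤ}

omit [IsUltrametricDist F] [CharZero F] [CharZero E] in
theorem alg_mem_reg (ha : ∀ σ, Antitone (a σ)) (φ : algSpace κ a) : φ.1 ∈ Reg n κ := by
  have h : algSpace κ a ≤ Subalgebra.toSubmodule (Reg n κ) := by
    rw [algSpace, Submodule.span_le]
    rintro _ ⟨g, rfl⟩
    exact reg_right (hw_mem_reg κ ha) g
  exact h φ.2

omit [IsUltrametricDist F] [CharZero F] [CharZero E] in
theorem exists_model (κ : ι → F →+* E) (ha : ∀ σ, Antitone (a σ)) :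
    ∃ (N : ℕ) (e : algSpace κ a ≃ₗ[E] (Fin N → E))
      (ρ : GL (Fin n) F →* Matrix (Fin N) (Fin N) E), IsModel κ a e ρ := by
  obtain ⟨N, u, v, -, h⟩ := reg_finite_rank (hw_mem_reg κ ha)
  have h1 : algSpace κ a ≤ Submodule.span E (Set.range u) := by
    rw [algSpace, Submodule.span_le]
    rintro _ ⟨g, rfl⟩
    have e : (fun x => hw κ a (x * g)) = ∑ i, v i g • u i := by
      funext x
      simp [h, mul_comm]
    simp only [e]
    exact Submodule.sum_mem _ fun i _ => Submodule.smul_mem _ _ (Submodule.subset_span ⟨i, rfl⟩)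
  have := FiniteDimensional.span_of_finite E (Set.finite_range u)
  have := Submodule.finiteDimensional_of_le h1
  let b := Module.finBasis E (algSpace κ a)
  refine ⟨_, b.equivFun, (LinearMap.toMatrixAlgEquiv b).toAlgHom.toMonoidHom.comp (algR κ a),
    fun g φ => ?_⟩
  exact (LinearMap.toMatrix_mulVec_repr b b (algR κ a g) φ).symm

omit [IsUltrametricDist F] [CharZero F] [CharZero E] in
/-- the coordinates are combinations of evaluations at points of a separating set -/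
theorem exists_coord {N : ℕ} (e : algSpace κ a ≃ₗ[E] (Fin N → E)) (A : Set (GL (Fin n) F))
    (hA : ∀ φ : algSpace κ a, (∀ x ∈ A, φ.1 x = 0) → φ = 0) (i : Fin N) :
    ∃ c : GL (Fin n) F →₀ E, (∀ x ∈ c.support, x ∈ A) ∧
      ∀ φ : algSpace κ a, e φ i = c.sum fun x y => y * φ.1 x := by
  have := e.symm.finiteDimensional
  let ev : GL (Fin n) F → algSpace κ a →ₗ[E] E := fun x =>
    (LinearMap.proj x).comp (algSpace κ a).subtype
  have h1 := FiniteDimensional.mem_span_of_iInf_ker_le_ker (L := fun x : A => ev x)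
    (K := (LinearMap.proj i).comp e.toLinearMap) fun φ hφ => by
      rw [hA φ fun x hx => (Submodule.mem_iInf _).1 hφ ⟨x, hx⟩]
      exact zero_mem _
  rw [← Set.image_eq_range, Finsupp.mem_span_image_iff_linearCombination] at h1
  obtain ⟨c, hc, h2⟩ := h1
  refine ⟨c, fun x hx => hc hx, fun φ => ?_⟩
  have h3 := LinearMap.congr_fun h2 φ
  rw [Finsupp.linearCombination_apply, Finsupp.sum, LinearMap.sum_apply] at h3
  exact h3.symm

omit [IsUltrametricDist F] [CharZero F] [CharZero E] in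
theorem A3_entry {N : ℕ} {e : algSpace κ a ≃ₗ[E] (Fin N → E)}
    {ρ : GL (Fin n) F →* Matrix (Fin N) (Fin N) E} (h : IsModel κ a e ρ) (g : GL (Fin n) F)
    (i j : Fin N) : ρ g i j = e (algR κ a g (e.symm (Pi.single j 1))) i := by
  rw [h, e.apply_symm_apply, Matrix.mulVec_single_one]
  rfl

omit [IsUltrametricDist F] [CharZero F] [CharZero E] in
theorem IsModel.reg (ha : ∀ σ, Antitone (a σ)) {N : ℕ} {e : algSpace κ a ≃ₗ[E] (Fin N → E)}
    {ρ : GL (Fin n) F →* Matrix (Fin N) (Fin N) E} (h : IsModel κ a e ρ) (i j : Fin N) :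
    (fun g => ρ g i j) ∈ Reg n κ := by
  obtain ⟨c, -, hc⟩ := exists_coord e Set.univ
    (fun φ hφ => Subtype.ext (funext fun x => hφ x trivial)) i
  have e1 : (fun g => ρ g i j) =
      ∑ x ∈ c.support, c x • fun g => (e.symm (Pi.single j 1)).1 (x * g) := by
    funext g
    rw [A3_entry h, hc, Finset.sum_apply]
    rfl
  rw [e1]
  exact Subalgebra.sum_mem _ fun x _ =>
    Subalgebra.smul_mem _ (reg_left (alg_mem_reg ha _) x) _

theorem alg_eq_zero_of_up (p : ℕ) (hp0 : p ≠ 0) (hp : ‖(p : F)‖ < 1) (ha : ∀ σ, Antitone (a σ))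
    (φ : algSpace κ a) (h : ∀ u, IsUp1 u → φ.1 u = 0) : φ = 0 := by
  refine Subtype.ext (reg_eq_zero p hp0 hp (alg_mem_reg ha φ) one_pos fun k hk => ?_)
  obtain ⟨l, u, t, hl, hu, -, -, -, rfl⟩ := exists_ldu one_pos le_rfl hk
  rw [mul_assoc, alg_low_mul κ a φ hl, alg_dg_mul, h u hu, mul_zero]

omit [IsUltrametricDist F] in
theorem A3_poly (ha : ∀ σ, Antitone (a σ)) (φ : algSpace κ a) (x : GL (Fin n) F) :
    ∃ P : Polynomial E, IsUp1 x → P.eval 0 = φ.1 1 ∧ ∀ (z : Fˣ) (y : ℚ), (z : F) = y →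
      φ.1 (x * dg fun i => z ^ (i : ℕ)) = chi κ a (fun i => z ^ (i : ℕ)) * P.eval (y : E) := by
  obtain ⟨N, P, hP⟩ := reg_curve (alg_mem_reg ha φ) (Matrix.of fun i k : Fin n =>
    if i ≤ k then Polynomial.C (x.val i k) * Polynomial.X ^ ((k : ℕ) - i) else 0)
  refine ⟨P, fun hx => ⟨?_, fun z y hz => ?_⟩⟩
  · have h := hP 0 1 (by
      ext i k
      rcases lt_trichotomy i k with h | rfl | h
      · have h2 : (k : ℕ) - i ≠ 0 := by have : (i : ℕ) < k := h; omega
        simp [h.le, h.ne, h2]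
      · simp [hx i i le_rfl]
      · simp [h.not_ge, h.ne'])
    simpa using h.symm
  · have h := hP y ((dg fun i => z ^ (i : ℕ))⁻¹ * x * dg fun i => z ^ (i : ℕ)) (by
      ext i k
      rw [← dg_inv, ← hz]
      by_cases h : i ≤ k
      · obtain ⟨d, hd⟩ := Nat.exists_eq_add_of_le (show (i : ℕ) ≤ k from h)
        simp only [Units.val_mul, coe_dg, Matrix.mul_diagonal, Matrix.diagonal_mul, h, hd,
          Matrix.map_apply, Matrix.of_apply, if_true, Nat.add_sub_cancel_left, Pi.inv_apply,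
          Polynomial.eval_mul, Polynomial.eval_C, Polynomial.eval_pow, Polynomial.eval_X,
          Units.val_inv_eq_inv_val, Units.val_pow_eq_pow_val, pow_add]
        field_simp
      · have h2 := hx i k (not_le.1 h).le
        rw [Matrix.one_apply_ne (not_le.1 h).ne'] at h2
        simp [h, h2])
    rw [Units.val_mul, Units.val_mul, Matrix.det_mul, Matrix.det_mul, hx.det, mul_one,
      ← Matrix.det_mul, Units.inv_mul, Matrix.det_one] at h
    simp only [map_one, Finset.prod_const_one, one_pow, mul_one] at h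
    rw [← h, ← alg_dg_mul, ← mul_assoc, ← mul_assoc, mul_inv_cancel, one_mul]

theorem A3_coef {N D : ℕ} (c : Fin (D + 1) → Matrix (Fin N) (Fin N) E)
    (h : ∀ y : ℚ, y ≠ 0 → ∑ M : Fin (D + 1), ((y : E) ^ (M : ℕ)) • c M = 0) (M : Fin (D + 1)) :
    c M = 0 := by
  ext i j
  refine congrFun (Matrix.eq_zero_of_forall_index_sum_pow_mul_eq_zero
    (f := fun k : Fin (D + 1) => ((((k : ℕ) + 1 : ℚ)) : E)) (v := fun M => c M i j)
    (fun k k' hk => ?_) fun k => ?_) M
  · have h1 := Rat.cast_injective hk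
    exact Fin.ext (by exact_mod_cast add_right_cancel h1)
  · have h1 := congrFun (congrFun (h ((k : ℕ) + 1) (by positivity)) i) j
    rw [Matrix.sum_apply] at h1
    exact h1

theorem IsModel.graded (p : ℕ) (hp0 : p ≠ 0) (hp : ‖(p : F)‖ < 1) (ha : ∀ σ, Antitone (a σ))
    {N : ℕ} {e : algSpace κ a ≃ₗ[E] (Fin N → E)}
    {ρ : GL (Fin n) F →* Matrix (Fin N) (Fin N) E} (h : IsModel κ a e ρ) :
    ∃ (l : Fin N → E) (D : ℕ) (π : Fin (D + 1) → Matrix (Fin N) (Fin N) E),
      (∀ φ : algSpace κ a, l ⬝ᵥ e φ = φ.1 1) ∧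
      Graded κ a ρ (e ⟨hw κ a, hw_mem_algSpace κ a⟩) l π := by
  let l : Fin N → E := fun j => (e.symm (Pi.single j 1)).1 1
  have hl : ∀ φ : algSpace κ a, l ⬝ᵥ e φ = φ.1 1 := fun φ => by
    conv_rhs => rw [← e.symm_apply_apply φ, pi_eq_sum_univ' (e φ), map_sum]
    simp only [map_smul, Submodule.coe_sum, Submodule.coe_smul, Finset.sum_apply, Pi.smul_apply,
      smul_eq_mul, dotProduct, l, mul_comm]
  choose c hc hc' using exists_coord e {u | IsUp1 u} (alg_eq_zero_of_up p hp0 hp ha)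
  choose P hP using fun j => A3_poly ha (e.symm (Pi.single j 1))
  let Q : Fin N × Fin N → Polynomial E := fun q => ∑ x ∈ (c q.1).support, c q.1 x • P q.2 x
  let D := Finset.univ.sup fun q => (Q q).natDegree
  let π : Fin (D + 1) → Matrix (Fin N) (Fin N) E := fun M => Matrix.of fun i j => (Q (i, j)).coeff M
  have hT : ∀ (y : E) i j, (∑ M : Fin (D + 1), (y ^ (M : ℕ)) • π M) i j = (Q (i, j)).eval y :=
    fun y i j => by
      rw [Polynomial.eval_eq_sum_range' (n := D + 1) (Nat.lt_succ_of_le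
        (Finset.le_sup (f := fun q => (Q q).natDegree) (Finset.mem_univ (i, j)))),
        Finset.sum_range, Matrix.sum_apply]
      exact Finset.sum_congr rfl fun M _ => mul_comm _ _
  have eig : ∀ (z : Fˣ) (y : ℚ), (z : F) = y → ρ (dg fun i => z ^ (i : ℕ)) =
      chi κ a (fun i => z ^ (i : ℕ)) • ∑ M : Fin (D + 1), ((y : E) ^ (M : ℕ)) • π M :=
    fun z y hz => by
      ext i j
      rw [Matrix.smul_apply, hT, A3_entry h, hc', Polynomial.eval_finsetSum, Finsupp.sum,
        smul_eq_mul, Finset.mul_sum]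
      refine Finset.sum_congr rfl fun x hx => ?_
      rw [algR_apply, (hP j x (hc i x hx)).2 z y hz, Polynomial.eval_smul, smul_eq_mul,
        mul_left_comm]
  have hmul : ∀ y y' : ℚ, y ≠ 0 → y' ≠ 0 →
      ∑ M : Fin (D + 1), (((y * y' : ℚ) : E) ^ (M : ℕ)) • π M =
        (∑ M : Fin (D + 1), ((y : E) ^ (M : ℕ)) • π M) *
          ∑ M : Fin (D + 1), ((y' : E) ^ (M : ℕ)) • π M := fun y y' hy hy' => by
    let z : Fˣ := Units.mk0 (y : F) (by exact_mod_cast hy)
    let z' : Fˣ := Units.mk0 (y' : F) (by exact_mod_cast hy')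
    have h1 := eig (z * z') (y * y') (by simp [z, z'])
    have h2 : (fun i : Fin n => (z * z') ^ (i : ℕ)) =
        (fun i : Fin n => z ^ (i : ℕ)) * fun i : Fin n => z' ^ (i : ℕ) :=
      funext fun i => mul_pow _ _ _
    rw [h2, dg_mul, map_mul, eig z y rfl, eig z' y' rfl, chi_mul, smul_mul_smul_comm] at h1
    exact (smul_right_injective _ (mul_ne_zero (chi_ne_zero κ a _) (chi_ne_zero κ a _)) h1).symm
  refine ⟨l, D, π, hl, ?_, fun u hu => ?_, fun u hu => ?_, fun t => ?_, ?_, ?_, fun M M' => ?_, eig⟩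
  · rw [hl]
    exact hw_one κ a
  · rw [← h]
    exact congrArg e (Subtype.ext (funext fun x => hw_mul_up κ a hu x))
  · funext j
    have h1 := hl (algR κ a u (e.symm (Pi.single j 1)))
    rw [h, Matrix.dotProduct_mulVec, e.apply_symm_apply, dotProduct_single_one, algR_apply,
      one_mul, ← mul_one u, alg_low_mul κ a _ hu, mul_one] at h1
    exact h1
  · rw [← h, ← map_smul]
    exact congrArg e (Subtype.ext (funext fun x => hw_mul_dg κ a t x))
  · ext i j
    rw [Matrix.vecMulVec_apply, hc', Finsupp.sum, Finset.sum_mul]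
    change (Q (i, j)).coeff 0 = _
    rw [Polynomial.coeff_zero_eq_eval_zero, Polynomial.eval_finsetSum]
    refine Finset.sum_congr rfl fun x hx => ?_
    have h1 : hw κ a x = 1 := by
      rw [← one_mul x, hw_mul_up κ a (hc i x hx), hw_one]
    simp only [Polynomial.eval_smul, (hP j x (hc i x hx)).1, h1, mul_one, smul_eq_mul, l]
  · have h1 := eig 1 1 (by simp)
    have h2 : (fun i : Fin n => (1 : Fˣ) ^ (i : ℕ)) = 1 := funext fun i => one_pow _
    rw [h2, dg_one, map_one, chi_one] at h1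
    simpa using h1.symm
  · have h1 : ∀ y' : ℚ, y' ≠ 0 → ((y' : E) ^ (M : ℕ)) • π M -
        π M * ∑ M : Fin (D + 1), ((y' : E) ^ (M : ℕ)) • π M = 0 := fun y' hy' =>
      A3_coef (fun M => ((y' : E) ^ (M : ℕ)) • π M -
        π M * ∑ M : Fin (D + 1), ((y' : E) ^ (M : ℕ)) • π M) (fun y hy => by
          have h2 := hmul y y' hy hy'
          rw [Finset.sum_mul] at h2
          simp only [smul_sub, Finset.sum_sub_distrib, smul_smul, ← mul_pow, ← Rat.cast_mul,
            ← smul_mul_assoc, h2, sub_self]) M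
    refine sub_eq_zero.1 (A3_coef (fun M' => π M * π M' - if M = M' then π M else 0)
      (fun y hy => ?_) M')
    have h2 := h1 y hy
    rw [Finset.mul_sum, sub_eq_zero] at h2
    simp only [smul_sub, Finset.sum_sub_distrib, smul_ite, smul_zero, Finset.sum_ite_eq,
      Finset.mem_univ, if_true, h2, mul_smul_comm, sub_self]

end Pool.Agent.MP_4d0c14_b

end

section

/-! Burnside density, the invariant form, and the consequences for open subgroups. -/

namespace Pool.Agent.MP_4d0c14_b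

open scoped Matrix

variable {n : ℕ} {F E ι : Type} [NormedField F] [IsUltrametricDist F] [CharZero F]
  [NormedField E] [CharZero E] [Fintype ι] {κ : ι → F →+* E} {a : ι → Fin n → ℤ}
  {N : ℕ} {ρ : GL (Fin n) F →* Matrix (Fin N) (Fin N) E}

omit [NormedField F] [IsUltrametricDist F] [CharZero F] [CharZero E] [Fintype ι] in
theorem A4_span_top (S : Set (Fin N → E))
    (h : ∀ v : Fin N → E, (∀ y ∈ S, y ⬝ᵥ v = 0) → v = 0) : Submodule.span E S = ⊤ := by
  by_contra hne
  obtain ⟨f, hf0, hf⟩ := Submodule.exists_le_ker_of_lt_top _ (lt_top_iff_ne_top.2 hne)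
  have hfx : ∀ x : Fin N → E, f x = x ⬝ᵥ fun i => f fun j => if i = j then 1 else 0 := fun x => by
    rw [LinearMap.pi_apply_eq_sum_univ f x]
    rfl
  have h0 := h (fun i => f fun j => if i = j then 1 else 0) fun y hy => by
    rw [← hfx]
    exact hf (Submodule.subset_span hy)
  apply hf0
  refine LinearMap.ext fun x => ?_
  rw [hfx, h0, dotProduct_zero]
  rfl

omit [NormedField F] [IsUltrametricDist F] [CharZero F] [CharZero E] [Fintype ι] in
theorem A4_fun_eq (f : Matrix (Fin N) (Fin N) E →ₗ[E] E) (X : Matrix (Fin N) (Fin N) E) :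
    f X = ∑ i, ∑ j, f (Matrix.single i j 1) * X i j := by
  conv_lhs => rw [Matrix.matrix_eq_sum_single X]
  rw [map_sum]
  refine Finset.sum_congr rfl fun i _ => ?_
  rw [map_sum]
  refine Finset.sum_congr rfl fun j _ => ?_
  have : Matrix.single i j (X i j) = X i j • Matrix.single i j (1 : E) := by simp
  rw [this, map_smul, smul_eq_mul, mul_comm]

omit [IsUltrametricDist F] [CharZero F] [CharZero E] in
theorem A4_eval {e : algSpace κ a ≃ₗ[E] (Fin N → E)} (h : IsModel κ a e ρ) {l : Fin N → E}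
    (hl : ∀ φ : algSpace κ a, l ⬝ᵥ e φ = φ.1 1) (g : GL (Fin n) F) (φ : algSpace κ a) :
    (l ᵥ* ρ g) ⬝ᵥ e φ = φ.1 g := by
  rw [← Matrix.dotProduct_mulVec, ← h g φ, hl, algR_apply, one_mul]

omit [IsUltrametricDist F] [CharZero F] [CharZero E] in
theorem A4_span_w {e : algSpace κ a ≃ₗ[E] (Fin N → E)} (h : IsModel κ a e ρ) :
    Submodule.span E (Set.range fun g => ρ g *ᵥ e ⟨hw κ a, hw_mem_algSpace κ a⟩) = ⊤ := by
  have h1 := congrArg (Submodule.map e.toLinearMap) (span_orbit_hw κ a)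
  rw [Submodule.map_span, Submodule.map_top, LinearEquiv.range, ← Set.range_comp] at h1
  rw [← h1]
  congr 2
  funext g
  exact (h g _).symm

omit [IsUltrametricDist F] [CharZero F] [CharZero E] in
theorem A4_span_l {e : algSpace κ a ≃ₗ[E] (Fin N → E)} (h : IsModel κ a e ρ) {l : Fin N → E}
    (hl : ∀ φ : algSpace κ a, l ⬝ᵥ e φ = φ.1 1) :
    Submodule.span E (Set.range fun g => l ᵥ* ρ g) = ⊤ := by
  refine A4_span_top _ fun v hv => ?_
  obtain ⟨φ, rfl⟩ := e.surjective v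
  have : φ = 0 := Subtype.ext (funext fun g => by
    rw [← A4_eval h hl g φ]
    exact hv _ ⟨g, rfl⟩)
  rw [this, map_zero]

omit [IsUltrametricDist F] in
theorem A4_kill {w l : Fin N → E} {D : ℕ} {π : Fin (D + 1) → Matrix (Fin N) (Fin N) E}
    (hG : Graded κ a ρ w l π) (f : Matrix (Fin N) (Fin N) E →ₗ[E] E) (hf : ∀ g, f (ρ g) = 0) :
    f (Matrix.vecMulVec w l) = 0 := by
  have hinj : Function.Injective fun j : Fin (D + 1) => ((((j : ℕ) : ℚ) + 1 : ℚ) : E) := by
    intro i j hij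
    have h1 : ((i : ℕ) : ℚ) + 1 = ((j : ℕ) : ℚ) + 1 := Rat.cast_injective hij
    have h2 : ((i : ℕ) : ℚ) = ((j : ℕ) : ℚ) := add_right_cancel h1
    exact Fin.ext (Nat.cast_injective h2)
  have h0 := Matrix.eq_zero_of_forall_index_sum_pow_mul_eq_zero (v := fun M => f (π M)) hinj
    fun j => by
      have hz : ((((j : ℕ) : ℚ) + 1 : ℚ) : F) ≠ 0 := by
        rw [Rat.cast_ne_zero]
        positivity
      have h1 := hf (dg fun i => (Units.mk0 _ hz) ^ (i : ℕ))
      rw [hG.eig (Units.mk0 _ hz) _ rfl, map_smul, smul_eq_zero, map_sum] at h1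
      rcases h1 with h1 | h1
      · exact absurd h1 (chi_ne_zero κ a _)
      · simpa only [map_smul, smul_eq_mul] using h1
  rw [← hG.zero]
  exact congrFun h0 0

omit [IsUltrametricDist F] in
theorem A4_burn {w l : Fin N → E} {D : ℕ} {π : Fin (D + 1) → Matrix (Fin N) (Fin N) E}
    (hG : Graded κ a ρ w l π) (hw' : Submodule.span E (Set.range fun g => ρ g *ᵥ w) = ⊤)
    (hl' : Submodule.span E (Set.range fun g => l ᵥ* ρ g) = ⊤) :
    Submodule.span E (Set.range ρ) = ⊤ := by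
  by_contra hne
  obtain ⟨f, hf0, hf⟩ := Submodule.exists_le_ker_of_lt_top _ (lt_top_iff_ne_top.2 hne)
  have h1 : ∀ g k, f (Matrix.vecMulVec (ρ g *ᵥ w) (l ᵥ* ρ k)) = 0 := fun g k => by
    have := A4_kill hG (f ∘ₗ (LinearMap.mulLeft E (ρ g) ∘ₗ LinearMap.mulRight E (ρ k))) fun x => by
      change f (ρ g * (ρ x * ρ k)) = 0
      rw [← map_mul, ← map_mul]
      exact hf (Submodule.subset_span ⟨_, rfl⟩)
    change f (ρ g * (Matrix.vecMulVec w l * ρ k)) = 0 at this
    rwa [Matrix.vecMulVec_mul, Matrix.mul_vecMulVec] at this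
  have h2 : ∀ x k, f (Matrix.vecMulVec x (l ᵥ* ρ k)) = 0 := fun x k => by
    have hx : x ∈ Submodule.span E (Set.range fun g => ρ g *ᵥ w) := hw' ▸ Submodule.mem_top
    induction hx using Submodule.span_induction with
    | mem x hx =>
      obtain ⟨g, rfl⟩ := hx
      exact h1 g k
    | zero => simp
    | add x y _ _ hx hy => rw [Matrix.add_vecMulVec, map_add, hx, hy, add_zero]
    | smul c x _ hx => rw [Matrix.smul_vecMulVec, map_smul, hx, smul_zero]
  have h3 : ∀ x y, f (Matrix.vecMulVec x y) = 0 := fun x y => by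
    have hy : y ∈ Submodule.span E (Set.range fun g => l ᵥ* ρ g) := hl' ▸ Submodule.mem_top
    induction hy using Submodule.span_induction with
    | mem y hy =>
      obtain ⟨g, rfl⟩ := hy
      exact h2 x g
    | zero => simp
    | add y z _ _ hy hz => rw [Matrix.vecMulVec_add, map_add, hy, hz, add_zero]
    | smul c y _ hy => rw [Matrix.vecMulVec_smul, map_smul, hy, smul_zero]
  apply hf0
  refine LinearMap.ext fun X => ?_
  rw [A4_fun_eq f X]
  simp [Matrix.single_eq_single_vecMulVec_single, h3]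

omit [IsUltrametricDist F] [CharZero F] [CharZero E] in
theorem A4_form {e : algSpace κ a ≃ₗ[E] (Fin N → E)} (h : IsModel κ a e ρ) {l : Fin N → E}
    (hl : ∀ φ : algSpace κ a, l ⬝ᵥ e φ = φ.1 1) :
    ∃ S : GL (Fin N) E, ∀ g, (ρ g)ᵀ * S = S * ρ (tr g) := by
  set w := e ⟨hw κ a, hw_mem_algSpace κ a⟩ with hwd
  have hB : ∀ g k, (l ᵥ* ρ (tr g)) ⬝ᵥ (ρ k *ᵥ w) = hw κ a (tr g * k) := fun g k => by
    rw [Matrix.dotProduct_mulVec, Matrix.vecMul_vecMul, ← map_mul, hwd, A4_eval h hl]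
  have h1 : ∀ v : Fin N → E, ∃ s : Fin N → E, ∀ k, (ρ k *ᵥ w) ⬝ᵥ s = (l ᵥ* ρ (tr k)) ⬝ᵥ v := by
    intro v
    have hv : v ∈ Submodule.span E (Set.range fun g => ρ g *ᵥ w) :=
      A4_span_w h ▸ Submodule.mem_top
    induction hv using Submodule.span_induction with
    | mem x hx =>
      obtain ⟨g, rfl⟩ := hx
      refine ⟨l ᵥ* ρ (tr g), fun k => ?_⟩
      rw [dotProduct_comm, hB, hB, ← hw_tr κ a (tr g * k), tr_mul, tr_tr]
    | zero => exact ⟨0, fun k => by simp⟩
    | add x y _ _ hx hy =>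
      obtain ⟨s, hs⟩ := hx
      obtain ⟨t, ht⟩ := hy
      exact ⟨s + t, fun k => by rw [dotProduct_add, dotProduct_add, hs, ht]⟩
    | smul c x _ hx =>
      obtain ⟨s, hs⟩ := hx
      exact ⟨c • s, fun k => by rw [dotProduct_smul, dotProduct_smul, hs]⟩
  choose s hs using h1
  let S : Matrix (Fin N) (Fin N) E := Matrix.of fun i j => s (Pi.single j 1) i
  have hS : ∀ k, (ρ k *ᵥ w) ᵥ* S = l ᵥ* ρ (tr k) := fun k => by
    funext j
    have := hs (Pi.single j 1) k
    rw [dotProduct_single_one] at this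
    exact this
  have hunit : IsUnit S := by
    rw [← Matrix.vecMul_surjective_iff_isUnit]
    intro y
    have hy : y ∈ Submodule.span E (Set.range fun g => l ᵥ* ρ g) :=
      A4_span_l h hl ▸ Submodule.mem_top
    induction hy using Submodule.span_induction with
    | mem y hy =>
      obtain ⟨g, rfl⟩ := hy
      exact ⟨ρ (tr g) *ᵥ w, by simpa only [tr_tr] using hS (tr g)⟩
    | zero => exact ⟨0, Matrix.zero_vecMul _⟩
    | add y z _ _ hy hz =>
      obtain ⟨u, rfl⟩ := hy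
      obtain ⟨v, rfl⟩ := hz
      exact ⟨u + v, Matrix.add_vecMul _ _ _⟩
    | smul c y _ hy =>
      obtain ⟨u, rfl⟩ := hy
      exact ⟨c • u, Matrix.smul_vecMul _ _ _⟩
  refine ⟨hunit.unit, fun g => ?_⟩
  rw [IsUnit.unit_spec, Matrix.ext_iff_vecMul]
  intro v
  have hv : v ∈ Submodule.span E (Set.range fun g => ρ g *ᵥ w) :=
    A4_span_w h ▸ Submodule.mem_top
  induction hv using Submodule.span_induction with
  | mem x hx =>
    obtain ⟨k, rfl⟩ := hx
    rw [← Matrix.vecMul_vecMul, ← Matrix.vecMul_vecMul, Matrix.vecMul_transpose,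
      Matrix.mulVec_mulVec, ← map_mul, hS, hS, tr_mul, map_mul, Matrix.vecMul_vecMul]
  | zero => simp
  | add x y _ _ hx hy => rw [Matrix.add_vecMul, Matrix.add_vecMul, hx, hy]
  | smul c x _ hx => rw [Matrix.smul_vecMul, Matrix.smul_vecMul, hx]

theorem IsModel.algOK (p : ℕ) (hp0 : p ≠ 0) (hp : ‖(p : F)‖ < 1) (ha : ∀ σ, Antitone (a σ))
    {e : algSpace κ a ≃ₗ[E] (Fin N → E)} (h : IsModel κ a e ρ) : AlgOK κ a ρ := by
  obtain ⟨l, D, π, hl, hG⟩ := h.graded p hp0 hp ha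
  refine ⟨h.reg ha, A4_burn hG (A4_span_w h) (A4_span_l h hl), A4_form h hl, fun s => ?_,
    fun z => ?_, ⟨_, l, D, π, hG⟩⟩
  · obtain ⟨w, hw'⟩ := exists_hw_perm κ a s
    refine ⟨l ᵥ* ρ w⁻¹, ρ w *ᵥ e ⟨hw κ a, hw_mem_algSpace κ a⟩, fun b hb => ?_⟩
    rw [← hw' b hb, Matrix.mulVec_mulVec, Matrix.dotProduct_mulVec, Matrix.vecMul_vecMul,
      ← map_mul, ← map_mul, A4_eval h hl, mul_assoc]
  · rw [Matrix.ext_iff_mulVec]
    intro v
    obtain ⟨φ, rfl⟩ := e.surjective v
    rw [← h, Matrix.smul_mulVec, Matrix.one_mulVec, ← map_smul]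
    congr 1
    refine Subtype.ext (funext fun x => ?_)
    rw [algR_apply, ← dg_const_comm, alg_dg_mul]
    rfl

omit [IsUltrametricDist F] [CharZero F] [CharZero E] in
theorem AlgOK.nonempty (h : AlgOK κ a ρ) : Nonempty (Fin N) := by
  obtain ⟨w, l, D, π, hG⟩ := h.grad
  by_contra hne
  rw [not_nonempty_iff] at hne
  have := hG.lw
  simp [dotProduct] at this

theorem AlgOK.burn_near (h : AlgOK κ a ρ) (p : ℕ) (hp0 : p ≠ 0) (hp : ‖(p : F)‖ < 1) {r : ℝ}
    (hr : 0 < r) : Submodule.span E {A | ∃ k, Near r k ∧ A = ρ k} = ⊤ := by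
  by_contra hne
  obtain ⟨f, hf0, hf⟩ := Submodule.exists_le_ker_of_lt_top _ (lt_top_iff_ne_top.2 hne)
  have hreg : (fun g => f (ρ g)) ∈ Reg n κ := by
    have : (fun g => f (ρ g)) =
        ∑ i, ∑ j, f (Matrix.single i j 1) • fun g : GL (Fin n) F => ρ g i j := by
      funext g
      rw [A4_fun_eq f (ρ g)]
      simp [Finset.sum_apply]
    rw [this]
    exact Subalgebra.sum_mem _ fun i _ => Subalgebra.sum_mem _ fun j _ =>
      Subalgebra.smul_mem _ (h.reg i j) _
  have h0 := reg_eq_zero p hp0 hp hreg hr fun k hk => hf (Submodule.subset_span ⟨k, hk, rfl⟩)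
  apply hf0
  refine LinearMap.ext_on_range h.burn fun g => congrFun h0 g

theorem AlgOK.schur (h : AlgOK κ a ρ) (p : ℕ) (hp0 : p ≠ 0) (hp : ‖(p : F)‖ < 1) {r : ℝ}
    (hr : 0 < r) {X : Matrix (Fin N) (Fin N) E} (hX : ∀ k, Near r k → ρ k * X = X * ρ k) :
    ∃ c : E, X = c • (1 : Matrix (Fin N) (Fin N) E) := by
  have h1 : ∀ A : Matrix (Fin N) (Fin N) E, A * X = X * A := fun A => by
    have hA : A ∈ Submodule.span E {A | ∃ k, Near r k ∧ A = ρ k} :=
      h.burn_near p hp0 hp hr ▸ Submodule.mem_top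
    induction hA using Submodule.span_induction with
    | mem x hx =>
      obtain ⟨k, hk, rfl⟩ := hx
      exact hX k hk
    | zero => simp
    | add x y _ _ hx hy => rw [add_mul, mul_add, hx, hy]
    | smul c x _ hx => rw [Matrix.smul_mul, Matrix.mul_smul, hx]
  obtain ⟨c, hc⟩ := Matrix.mem_range_scalar_iff_commute_single'.2 fun i j => h1 (Matrix.single i j 1)
  exact ⟨c, by rw [← hc, Matrix.scalar_apply, Matrix.smul_one_eq_diagonal]⟩

theorem AlgOK.irred (h : AlgOK κ a ρ) (p : ℕ) (hp0 : p ≠ 0) (hp : ‖(p : F)‖ < 1) {r : ℝ}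
    (hr : 0 < r) (U : Submodule E (Fin N → E)) (hU : ∀ k, Near r k → ∀ v ∈ U, ρ k *ᵥ v ∈ U)
    {v : Fin N → E} (hv : v ∈ U) (h0 : v ≠ 0) : U = ⊤ := by
  have h1 : ∀ A : Matrix (Fin N) (Fin N) E, A *ᵥ v ∈ U := fun A => by
    have hA : A ∈ Submodule.span E {A | ∃ k, Near r k ∧ A = ρ k} :=
      h.burn_near p hp0 hp hr ▸ Submodule.mem_top
    induction hA using Submodule.span_induction with
    | mem x hx =>
      obtain ⟨k, hk, rfl⟩ := hx
      exact hU k hk v hv
    | zero => simp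
    | add x y _ _ hx hy => rw [Matrix.add_mulVec]; exact U.add_mem hx hy
    | smul c x _ hx => rw [Matrix.smul_mulVec]; exact U.smul_mem c hx
  obtain ⟨i, hi⟩ := Function.ne_iff.1 h0
  have hi' : v i ≠ 0 := hi
  refine eq_top_iff.2 fun u _ => ?_
  have := h1 (Matrix.vecMulVec u (Pi.single i (v i)⁻¹))
  rwa [Matrix.vecMulVec_mulVec, single_dotProduct, inv_mul_cancel₀ hi', MulOpposite.op_one,
    one_smul] at this

variable [IsUltrametricDist E]

omit [IsUltrametricDist F] [CharZero F] [CharZero E] in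
theorem AlgOK.bdd (h : AlgOK κ a ρ) (hκ : ∀ σ x, ‖κ σ x‖ = ‖x‖) (C : ℝ) :
    ∃ C' : ℝ, 0 < C' ∧ ∀ g, Bnd C g → MLe C' (ρ g) := by
  choose c _ hc using fun i j => reg_bdd hκ (h.reg i j) C
  obtain ⟨C', hC', hb⟩ := MLe.exists_bound (Matrix.of c)
  exact ⟨C', hC', fun g hg i j => (hc i j g hg).trans ((le_abs_self _).trans (hb i j))⟩

omit [CharZero F] [CharZero E] in
theorem AlgOK.cont (h : AlgOK κ a ρ) (hκ : ∀ σ x, ‖κ σ x‖ = ‖x‖) {ε : ℝ} (hε : 0 < ε) :
    ∃ r : ℝ, 0 < r ∧ ∀ k, Near r k → MLe ε (ρ k - 1) := by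
  choose r hr hc using fun i j => reg_cont hκ (h.reg i j) hε
  have := h.nonempty
  obtain ⟨x, hx⟩ := Finite.exists_min fun x : Fin N × Fin N => r x.1 x.2
  refine ⟨r x.1 x.2, hr _ _, fun k hk i j => ?_⟩
  have h1 := hc i j k (hk.mono (hx (i, j)))
  rwa [map_one] at h1

omit [IsUltrametricDist F] [CharZero F] [CharZero E] in
theorem AlgOK.lower (h : AlgOK κ a ρ) (hκ : ∀ σ x, ‖κ σ x‖ = ‖x‖) : ∃ C : ℝ, 0 < C ∧
    ∀ (s : Equiv.Perm (Fin n)) (b : GL (Fin n) F), IsUp b → ∀ M : ℝ, 0 ≤ M → MLe M (ρ b) →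
      ∏ σ, ∏ i, ‖(b : Matrix (Fin n) (Fin n) F) (s i) (s i)‖ ^ a σ i ≤ C * M := by
  choose l w hlw using h.tri
  obtain ⟨C, hC⟩ := (Set.finite_range fun s => ‖l s‖ * ‖w s‖).bddAbove
  refine ⟨max C 1, lt_max_of_lt_right one_pos, fun s b hb M hM hρ => ?_⟩
  have h1 : ∏ σ, ∏ i, ‖(b : Matrix (Fin n) (Fin n) F) (s i) (s i)‖ ^ a σ i =
      ‖l s ⬝ᵥ (ρ b *ᵥ w s)‖ := by
    rw [hlw s b hb, norm_prod]
    refine Finset.prod_congr rfl fun σ _ => ?_
    rw [norm_prod]
    refine Finset.prod_congr rfl fun i _ => ?_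
    rw [norm_zpow, hκ]
  have h2 : ‖l s ⬝ᵥ (ρ b *ᵥ w s)‖ ≤ ‖l s‖ * (M * ‖w s‖) := by
    refine IsUltrametricDist.norm_sum_le_of_forall_le_of_nonneg (by positivity) fun x _ => ?_
    rw [norm_mul]
    exact mul_le_mul (norm_le_pi_norm _ x) ((norm_le_pi_norm _ x).trans (hρ.mulVec hM _))
      (norm_nonneg _) (norm_nonneg _)
  have h3 : ‖l s‖ * ‖w s‖ ≤ max C 1 := (hC ⟨s, rfl⟩).trans (le_max_left _ _)
  rw [h1]
  calc _ ≤ ‖l s‖ * (M * ‖w s‖) := h2
    _ = ‖l s‖ * ‖w s‖ * M := by ring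
    _ ≤ max C 1 * M := mul_le_mul_of_nonneg_right h3 hM

end Pool.Agent.MP_4d0c14_b

end

section

/-! Degrees: root subgroups change the degree strictly; the extreme component lemma. -/

namespace Pool.Agent.MP_4d0c14_b

open scoped Matrix

/-- All components of degree less than `d` vanish. -/
def H1_Fil {E J σ : Type} [Field E] [Fintype J] (π : σ → Matrix J J E) (deg : σ → ℤ) (d : ℤ)
    (X : Matrix J J E) : Prop :=
  ∀ A B, deg A - deg B < d → π A * X * π B = 0

theorem H1_Fil_mul {E J σ : Type} [Field E] [Fintype J] [DecidableEq J] [Fintype σ]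
    [DecidableEq σ] {π : σ → Matrix J J E} {deg : σ → ℤ} (hsum : ∑ M, π M = 1)
    (horth : ∀ M M', π M * π M' = if M = M' then π M else 0) {d e : ℤ} {X Y : Matrix J J E}
    (hX : H1_Fil π deg d X) (hY : H1_Fil π deg e Y) : H1_Fil π deg (d + e) (X * Y) := by
  intro A B h
  have h1 : π A * (X * Y) * π B = ∑ C, (π A * X * π C) * (π C * Y * π B) := by
    have h2 : ∀ C, (π A * X * π C) * (π C * Y * π B) = π A * X * π C * (Y * π B) := by
      intro C
      have h3 : π C * π C = π C := by rw [horth, if_pos rfl]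
      calc (π A * X * π C) * (π C * Y * π B) = π A * X * (π C * π C) * (Y * π B) := by
            simp only [Matrix.mul_assoc]
        _ = _ := by rw [h3]
    simp only [h2]
    rw [← Finset.sum_mul, ← Finset.mul_sum, hsum]
    simp only [Matrix.mul_assoc, Matrix.one_mul]
  rw [h1]
  refine Finset.sum_eq_zero fun C _ => ?_
  by_cases h4 : deg A - deg C < d
  · rw [hX A C h4, Matrix.zero_mul]
  · rw [hY C B (by omega), Matrix.mul_zero]

theorem H1_sand {E J σ : Type} [Field E] [Fintype J] [DecidableEq J] [Fintype σ]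
    [DecidableEq σ] {π : σ → Matrix J J E} {deg : σ → ℤ} (hsum : ∑ M, π M = 1)
    (horth : ∀ M M', π M * π M' = if M = M' then π M else 0) {d : ℤ} {U V X : Matrix J J E}
    (hU : H1_Fil π deg 1 (U - 1)) (hV : H1_Fil π deg 1 (V - 1)) (hX : H1_Fil π deg d X)
    {A B : σ} (h : deg A - deg B ≤ d) : π A * (U * X * V) * π B = π A * X * π B := by
  have e : U * X * V = X + ((U - 1) * X + X * (V - 1) + (U - 1) * X * (V - 1)) := by
    noncomm_ring
  have h1 := H1_Fil_mul hsum horth hU hX A B (by omega)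
  have h2 := H1_Fil_mul hsum horth hX hV A B (by omega)
  have h3 := H1_Fil_mul hsum horth (H1_Fil_mul hsum horth hU hX) hV A B (by omega)
  rw [e]
  simp only [Matrix.mul_add, Matrix.add_mul]
  rw [h1, h2, h3]
  simp

theorem H1_zpow_inj {E : Type} [Field E] [CharZero E] {z : ℕ} (hz : 2 ≤ z) {c d : ℤ}
    (h : (z : E) ^ c = (z : E) ^ d) : c = d := by
  have h1 : (z : ℚ) ^ c = (z : ℚ) ^ d := by
    apply Rat.cast_injective (α := E)
    simpa using h
  have h2 : (1 : ℚ) < z := by exact_mod_cast hz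
  exact zpow_right_injective₀ (by linarith) h2.ne' h1

/-- The extreme component lemma. -/
theorem extreme_component {E J A σ : Type} [Field E] [CharZero E] [Fintype J] [DecidableEq J]
    [AddCommGroup A] [Fintype σ] [DecidableEq σ] (B : AddSubgroup A) (π : σ → Matrix J J E)
    (deg : σ → ℤ) (hsum : ∑ M, π M = 1)
    (horth : ∀ M M', π M * π M' = if M = M' then π M else 0)
    (U u : A → Matrix J J E) (u₀ : Matrix J J E) (z : ℕ) (hz : 2 ≤ z) (c : ℕ) (hc : 1 ≤ c)
    (hU : ∀ s ∈ B, ∀ M M', deg M ≤ deg M' → π M * (U s - 1) * π M' = 0)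
    (hu : ∀ s ∈ B, ∀ s' ∈ B, u (s + s') = u s + U s * u s' * U (-s))
    (hu₀ : ∀ M M', deg M ≠ deg M' → π M * u₀ * π M' = 0)
    (hrel : ∀ s ∈ B, ∀ M M', π M * u (z ^ c • s) * π M' =
      (z : E) ^ (deg M - deg M') • (π M * u s * π M') +
        π M * (u₀ - U (z ^ c • s) * u₀ * U (-(z ^ c • s))) * π M') :
    ∀ s ∈ B, ∀ M M', deg M ≤ deg M' → π M * u s * π M' = 0 := by
  classical
  by_contra hcon
  push Not at hcon
  obtain ⟨s₁, hs₁, M₁, M₁', hle₁, hne₁⟩ := hcon
  obtain ⟨⟨M, M'⟩, hmem, hmin⟩ := Finset.exists_min_image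
    (Finset.univ.filter fun x : σ × σ => deg x.1 ≤ deg x.2 ∧ ∃ s ∈ B, π x.1 * u s * π x.2 ≠ 0)
    (fun x => deg x.1 - deg x.2) ⟨(M₁, M₁'), by simpa using ⟨hle₁, s₁, hs₁, hne₁⟩⟩
  obtain ⟨hle, s, hs, hne⟩ := (Finset.mem_filter.1 hmem).2
  simp only at hle hne hmin
  have hUF : ∀ s ∈ B, H1_Fil π deg 1 (U s - 1) := fun s hs A C h => hU s hs A C (by omega)
  have huF : ∀ s ∈ B, H1_Fil π deg (deg M - deg M') (u s) := by
    intro s hs A C h
    by_contra h0
    have := hmin (A, C) (Finset.mem_filter.2 ⟨Finset.mem_univ _, by simp only; omega, s, hs, h0⟩)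
    simp only at this
    omega
  have hadd : ∀ s ∈ B, ∀ s' ∈ B,
      π M * u (s + s') * π M' = π M * u s * π M' + π M * u s' * π M' := by
    intro s hs s' hs'
    rw [hu s hs s' hs', Matrix.mul_add, Matrix.add_mul,
      H1_sand hsum horth (hUF s hs) (hUF _ (B.neg_mem hs)) (huF s' hs') le_rfl]
  have hsm : ∀ m : ℕ, π M * u (m • s) * π M' = (m : E) • (π M * u s * π M') := by
    intro m
    induction m with
    | zero =>
      have := hadd 0 B.zero_mem 0 B.zero_mem
      rw [add_zero] at this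
      simpa using this
    | succ m ih =>
      rw [succ_nsmul, hadd _ (B.nsmul_mem hs m) s hs, ih, Nat.cast_succ, add_smul, one_smul]
  have h0 : H1_Fil π deg 0 u₀ := fun A C h => hu₀ A C (by omega)
  have h1 := hrel s hs M M'
  have hzs := B.nsmul_mem hs (z ^ c)
  rw [hsm, Matrix.mul_sub, Matrix.sub_mul,
    H1_sand hsum horth (hUF _ hzs) (hUF _ (B.neg_mem hzs)) h0 (by omega), sub_self, add_zero,
    Nat.cast_pow, ← zpow_natCast, ← sub_eq_zero, ← sub_smul, smul_eq_zero] at h1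
  rcases h1 with h1 | h1
  · have := H1_zpow_inj hz (sub_eq_zero.1 h1)
    omega
  · exact hne h1

variable {n : ℕ} {F E ι : Type} [Field F] [CharZero F] [Field E] [CharZero E] [Fintype ι]
  {κ : ι → F →+* E} {a : ι → Fin n → ℤ} {N : ℕ} {ρ : GL (Fin n) F →* Matrix (Fin N) (Fin N) E}
  {w l : Fin N → E} {D : ℕ} {π : Fin (D + 1) → Matrix (Fin N) (Fin N) E}

omit [CharZero F] in
theorem H1_conj (h : Graded κ a ρ w l π) (z : Fˣ) (y : ℚ) (hz : (z : F) = y)
    (X : Matrix (Fin N) (Fin N) E) (M M' : Fin (D + 1)) :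
    π M * (ρ (dg fun i => z ^ (i : ℕ)) * X * ρ (dg fun i => z ^ (i : ℕ))⁻¹) * π M' =
      (y : E) ^ (((M : ℕ) : ℤ) - ((M' : ℕ) : ℤ)) • (π M * X * π M') := by
  have hy : y ≠ 0 := by
    rintro rfl
    simp at hz
  have hyE : (y : E) ≠ 0 := by exact_mod_cast hy
  have hχ := chi_ne_zero κ a (fun i : Fin n => z ^ (i : ℕ))
  set χ := chi κ a (fun i : Fin n => z ^ (i : ℕ)) with hχd
  set T : GL (Fin n) F := dg fun i => z ^ (i : ℕ) with hT
  have he : ρ T = χ • ∑ M : Fin (D + 1), ((y : E) ^ (M : ℕ)) • π M := h.eig z y hz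
  have h1 : π M * ρ T = (χ * (y : E) ^ (M : ℕ)) • π M := by
    rw [he, Matrix.mul_smul, Finset.mul_sum, Finset.sum_eq_single M]
    · rw [Matrix.mul_smul, h.orth, if_pos rfl, smul_smul]
    · intro b _ hb
      rw [Matrix.mul_smul, h.orth, if_neg (Ne.symm hb), smul_zero]
    · simp
  have h2 : ρ T * π M' = (χ * (y : E) ^ (M' : ℕ)) • π M' := by
    rw [he, Matrix.smul_mul, Finset.sum_mul, Finset.sum_eq_single M']
    · rw [Matrix.smul_mul, h.orth, if_pos rfl, smul_smul]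
    · intro b _ hb
      rw [Matrix.smul_mul, h.orth, if_neg hb, smul_zero]
    · simp
  have h3 : ρ T⁻¹ * π M' = (χ * (y : E) ^ (M' : ℕ))⁻¹ • π M' := by
    have h4 := congrArg (fun Y => ρ T⁻¹ * Y) h2
    simp only [← Matrix.mul_assoc, ← map_mul, inv_mul_cancel, map_one, Matrix.one_mul,
      Matrix.mul_smul] at h4
    rw [eq_inv_smul_iff₀ (mul_ne_zero hχ (pow_ne_zero _ hyE))]
    exact h4.symm
  calc π M * (ρ T * X * ρ T⁻¹) * π M' = (π M * ρ T) * X * (ρ T⁻¹ * π M') := by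
        simp only [Matrix.mul_assoc]
    _ = _ := by
      rw [h1, h3, Matrix.smul_mul, Matrix.smul_mul, Matrix.mul_smul, smul_smul, zpow_sub₀ hyE,
        zpow_natCast, zpow_natCast]
      congr 1
      field_simp

theorem Graded.comm_dg (h : Graded κ a ρ w l π) (t : Fin n → Fˣ) (M : Fin (D + 1)) :
    π M * ρ (dg t) = ρ (dg t) * π M := by
  have hoff : ∀ A B : Fin (D + 1), A ≠ B → π A * ρ (dg t) * π B = 0 := by
    intro A B hAB
    have h1 := H1_conj h (Units.mk0 (2 : F) two_ne_zero) 2 (by simp) (ρ (dg t)) A B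
    rw [← map_mul, ← map_mul, ← dg_mul, mul_comm _ t, dg_mul, mul_inv_cancel_right,
      ← sub_eq_zero] at h1
    nth_rewrite 1 [← one_smul E (π A * ρ (dg t) * π B)] at h1
    rw [← sub_smul, smul_eq_zero] at h1
    rcases h1 with h1 | h1
    · have h2 : ((2 : ℕ) : E) ^ (0 : ℤ) = ((2 : ℕ) : E) ^ (((A : ℕ) : ℤ) - ((B : ℕ) : ℤ)) := by
        simpa using sub_eq_zero.1 h1
      have h3 := H1_zpow_inj le_rfl h2
      exact absurd (Fin.ext (by omega)) hAB
    · exact h1
  have h1 : π M * ρ (dg t) = π M * ρ (dg t) * π M := by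
    conv_lhs => rw [← Matrix.mul_one (π M * ρ (dg t)), ← h.sum, Finset.mul_sum]
    rw [Finset.sum_eq_single M]
    · intro b _ hb
      exact hoff _ _ (Ne.symm hb)
    · simp
  have h2 : ρ (dg t) * π M = π M * ρ (dg t) * π M := by
    conv_lhs => rw [← Matrix.one_mul (ρ (dg t)), ← h.sum, Finset.sum_mul, Finset.sum_mul]
    rw [Finset.sum_eq_single M]
    · intro b _ hb
      exact hoff _ _ hb
    · simp
  rw [h2, ← h1]

theorem Graded.conj (h : Graded κ a ρ w l π) (z : Fˣ) (y : ℚ) (hz : (z : F) = y)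
    (X : Matrix (Fin N) (Fin N) E) (M M' : Fin (D + 1)) :
    π M * (ρ (dg fun i => z ^ (i : ℕ)) * X * ρ (dg fun i => z ^ (i : ℕ))⁻¹) * π M' =
      (y : E) ^ (((M : ℕ) : ℤ) - ((M' : ℕ) : ℤ)) • (π M * X * π M') :=
  H1_conj h z y hz X M M'

theorem H1_deg (hreg : ∀ i j, (fun g => ρ g i j) ∈ Reg n κ) {i j : Fin n} (hij : i ≠ j) (s : F)
    (P Q : Matrix (Fin N) (Fin N) E) (c e : ℕ) (hc : c ≠ 0)
    (hx : ∀ x : ℚ, x ≠ 0 → (x : E) ^ e • (P * (ρ (tv i j hij ((x : F) ^ c * s)) - 1) * Q) =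
      P * (ρ (tv i j hij s) - 1) * Q) : P * (ρ (tv i j hij s) - 1) * Q = 0 := by
  classical
  ext p q
  have hf : (fun g => (P * (ρ g - 1) * Q) p q) ∈ Reg n κ := by
    have e1 : (fun g => (P * (ρ g - 1) * Q) p q) =
        (∑ k, ∑ m, (P p m * Q k q) • (fun g => ρ g m k)) - algebraMap E _ ((P * Q) p q) := by
      funext g
      rw [Matrix.mul_sub, Matrix.sub_mul, Matrix.mul_one, Matrix.sub_apply]
      simp only [Matrix.mul_apply, Pi.sub_apply, Finset.sum_apply, Pi.smul_apply, smul_eq_mul,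
        Pi.algebraMap_apply, Algebra.algebraMap_self, RingHom.id_apply, Finset.sum_mul]
      congr 1
      refine Finset.sum_congr rfl fun k _ => Finset.sum_congr rfl fun m _ => ?_
      ring
    rw [e1]
    exact Subalgebra.sub_mem _ (Subalgebra.sum_mem _ fun k _ => Subalgebra.sum_mem _ fun m _ =>
      Subalgebra.smul_mem _ (hreg m k) _) (Subalgebra.algebraMap_mem _ _)
  obtain ⟨K, R, hR⟩ := reg_curve hf (Matrix.transvection i j (Polynomial.X * Polynomial.C s))
  have hR' : ∀ y : ℚ, (P * (ρ (tv i j hij ((y : F) * s)) - 1) * Q) p q = R.eval (y : E) := by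
    intro y
    have h1 := hR y (tv i j hij ((y : F) * s)) (by
      ext u v
      simp only [coe_tv, Matrix.transvection, Matrix.add_apply, Matrix.map_apply, Matrix.one_apply,
        Matrix.single_apply]
      split_ifs <;> simp [mul_comm s])
    rw [coe_tv, Matrix.det_transvection_of_ne _ _ hij] at h1
    simpa using h1
  have h0 : R.eval 0 = 0 := by
    have := hR' 0
    rw [Rat.cast_zero, zero_mul, tv_zero, map_one, sub_self] at this
    simpa using this.symm
  have h1 : (P * (ρ (tv i j hij s) - 1) * Q) p q = R.eval 1 := by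
    simpa using hR' 1
  have h2 : R.comp (Polynomial.X ^ c) * Polynomial.X ^ e - Polynomial.C (R.eval 1) = 0 := by
    apply Polynomial.eq_zero_of_infinite_isRoot
    have hinf : ((fun x : ℚ => (x : E)) '' {x | x ≠ 0}).Infinite :=
      Set.Infinite.image Rat.cast_injective.injOn (Set.finite_singleton (0 : ℚ)).infinite_compl
    refine hinf.mono ?_
    rintro _ ⟨x, hx0, rfl⟩
    have h3 := congrFun (congrFun (hx x hx0) p) q
    have h4 := hR' (x ^ c)
    rw [Rat.cast_pow, Rat.cast_pow] at h4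
    rw [Matrix.smul_apply, h4, h1, smul_eq_mul] at h3
    simp only [Set.mem_ofPred_eq, Polynomial.IsRoot.def, Polynomial.eval_sub, Polynomial.eval_mul,
      Polynomial.eval_comp, Polynomial.eval_pow, Polynomial.eval_X, Polynomial.eval_C]
    rw [← h3]
    ring
  have h5 := congrArg (Polynomial.eval 0) h2
  simp only [Polynomial.eval_sub, Polynomial.eval_mul, Polynomial.eval_comp, Polynomial.eval_pow,
    Polynomial.eval_X, Polynomial.eval_C, zero_pow hc, h0, zero_mul, zero_sub, neg_eq_zero,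
    Polynomial.eval_zero] at h5
  rw [h1, h5]
  rfl

theorem H1_conj_tv (h : Graded κ a ρ w l π) {i j : Fin n} (hij : i ≠ j) (s : F) (y : ℚ)
    (hy : y ≠ 0) (M M' : Fin (D + 1)) :
    π M * (ρ (tv i j hij ((y : F) ^ (i : ℕ) * s / (y : F) ^ (j : ℕ))) - 1) * π M' =
      (y : E) ^ (((M : ℕ) : ℤ) - ((M' : ℕ) : ℤ)) • (π M * (ρ (tv i j hij s) - 1) * π M') := by
  have hyF : (y : F) ≠ 0 := by exact_mod_cast hy
  have h1 := H1_conj h (Units.mk0 (y : F) hyF) y rfl (ρ (tv i j hij s) - 1) M M'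
  rw [Matrix.mul_sub, Matrix.sub_mul, Matrix.mul_one, ← map_mul, ← map_mul, ← map_mul,
    mul_inv_cancel, map_one, dg_conj_tv] at h1
  simpa using h1

theorem Graded.deg_up (h : Graded κ a ρ w l π) (hreg : ∀ i j, (fun g => ρ g i j) ∈ Reg n κ)
    {i j : Fin n} (hij : i < j) (s : F) {M M' : Fin (D + 1)} (hM : M' ≤ M) :
    π M * (ρ (tv i j hij.ne s) - 1) * π M' = 0 := by
  have hij' : (i : ℕ) < j := hij
  have hM' : (M' : ℕ) ≤ M := hM
  refine H1_deg hreg hij.ne s _ _ ((j : ℕ) - i) ((M : ℕ) - M') (by omega) fun x hx => ?_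
  have hxF : (x : F) ≠ 0 := by exact_mod_cast hx
  have hxE : (x : E) ≠ 0 := by exact_mod_cast hx
  have h1 := H1_conj_tv h hij.ne s x⁻¹ (inv_ne_zero hx) M M'
  have e : ((x⁻¹ : ℚ) : F) ^ (i : ℕ) * s / ((x⁻¹ : ℚ) : F) ^ (j : ℕ) =
      (x : F) ^ ((j : ℕ) - i) * s := by
    rw [Rat.cast_inv, pow_sub₀ _ hxF hij'.le, inv_pow, inv_pow]
    field_simp
  rw [e] at h1
  rw [h1, smul_smul, Rat.cast_inv, ← Nat.cast_sub hM', zpow_natCast, ← mul_pow,
    mul_inv_cancel₀ hxE, one_pow, one_smul]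

theorem Graded.deg_low (h : Graded κ a ρ w l π) (hreg : ∀ i j, (fun g => ρ g i j) ∈ Reg n κ)
    {i j : Fin n} (hij : j < i) (s : F) {M M' : Fin (D + 1)} (hM : M ≤ M') :
    π M * (ρ (tv i j hij.ne' s) - 1) * π M' = 0 := by
  have hij' : (j : ℕ) < i := hij
  have hM' : (M : ℕ) ≤ M' := hM
  refine H1_deg hreg hij.ne' s _ _ ((i : ℕ) - j) ((M' : ℕ) - M) (by omega) fun x hx => ?_
  have hxF : (x : F) ≠ 0 := by exact_mod_cast hx
  have hxE : (x : E) ≠ 0 := by exact_mod_cast hx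
  have h1 := H1_conj_tv h hij.ne' s x hx M M'
  have e : (x : F) ^ (i : ℕ) * s / (x : F) ^ (j : ℕ) = (x : F) ^ ((i : ℕ) - j) * s := by
    rw [pow_sub₀ _ hxF hij'.le]
    field_simp
  rw [e] at h1
  rw [h1, smul_smul, ← zpow_natCast, ← zpow_add₀ hxE, Nat.cast_sub hM', sub_add_sub_cancel,
    sub_self, zpow_zero, one_smul]

theorem Graded.nilpotent_up (h : Graded κ a ρ w l π)
    (hreg : ∀ i j, (fun g => ρ g i j) ∈ Reg n κ) {i j : Fin n} (hij : i < j) (s : F) :
    IsNilpotent (ρ (tv i j hij.ne s) - 1) := by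
  have h1 : H1_Fil π (fun M => -((M : ℕ) : ℤ)) 1 (ρ (tv i j hij.ne s) - 1) := by
    intro A B hAB
    exact h.deg_up hreg hij s (Fin.le_def.2 (by simp only at hAB; omega))
  have h2 : ∀ m : ℕ, H1_Fil π (fun M => -((M : ℕ) : ℤ)) m ((ρ (tv i j hij.ne s) - 1) ^ m) := by
    intro m
    induction m with
    | zero =>
      intro A B hAB
      rw [pow_zero, Matrix.mul_one, h.orth, if_neg]
      rintro rfl
      simp at hAB
    | succ m ih =>
      rw [pow_succ, Nat.cast_succ]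
      exact H1_Fil_mul h.sum h.orth ih h1
  refine ⟨D + 1, ?_⟩
  rw [← Matrix.one_mul (_ ^ (D + 1)), ← Matrix.mul_one (_ * _), ← h.sum]
  conv_lhs => enter [1, 2, 1, 2]; rw [h.sum]
  rw [Finset.sum_mul, Finset.sum_mul]
  refine Finset.sum_eq_zero fun A _ => ?_
  rw [Finset.mul_sum]
  refine Finset.sum_eq_zero fun B _ => h2 (D + 1) A B ?_
  have := B.2
  simp only
  omega

end Pool.Agent.MP_4d0c14_b

end

section

/-! The torus part of a cocycle. -/

namespace Pool.Agent.MP_4d0c14_b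

open scoped Matrix

/-- `u` is a cocycle of the congruence subgroup of radius `s` for the conjugation action. -/
def Coc {n N : ℕ} {F E : Type} [NormedField F] [Field E]
    (ρ : GL (Fin n) F →* Matrix (Fin N) (Fin N) E) (s : ℝ)
    (u : GL (Fin n) F → Matrix (Fin N) (Fin N) E) : Prop :=
  ∀ k k', Near s k → Near s k' → u (k * k') = u k + ρ k * u k' * ρ k⁻¹

/-- `u` tends to zero at the identity. -/
def Cts {n N : ℕ} {F E : Type} [NormedField F] [NormedField E]
    (u : GL (Fin n) F → Matrix (Fin N) (Fin N) E) : Prop :=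
  ∀ ε : ℝ, 0 < ε → ∃ δ : ℝ, 0 < δ ∧ ∀ k, Near δ k → MLe ε (u k)

theorem sl2_identity {n : ℕ} {F : Type} [Field F] {i j : Fin n} (hij : i ≠ j) (x y : F) (θ : Fˣ)
    (hθ : (θ : F) = 1 + x * y) :
    tv i j hij x * tv j i hij.symm y = tv j i hij.symm (y / θ) *
      dg (fun c => if c = i then θ else if c = j then θ⁻¹ else 1) * tv i j hij (x / θ) := by
  have h0 : (θ : F) ≠ 0 := θ.ne_zero
  have hD : (Matrix.diagonal fun c =>
      (((if c = i then θ else if c = j then θ⁻¹ else 1 : Fˣ)) : F)) =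
      1 + Matrix.single i i ((θ : F) - 1) + Matrix.single j j ((θ : F)⁻¹ - 1) := by
    ext a b
    by_cases hab : a = b
    · subst hab
      by_cases h1 : a = i
      · subst h1
        simp [hij.symm]
      · by_cases h2 : a = j
        · subst h2
          simp [h1, Ne.symm h1]
        · simp [h1, h2, Ne.symm h1, Ne.symm h2]
    · have e1 : ¬ (i = a ∧ i = b) := fun h => hab (h.1.symm.trans h.2)
      have e2 : ¬ (j = a ∧ j = b) := fun h => hab (h.1.symm.trans h.2)
      simp [hab, Matrix.single_apply, e1, e2]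
  apply Units.ext
  simp only [Units.val_mul, coe_tv, coe_dg, hD, Matrix.transvection, Matrix.add_mul,
    Matrix.mul_add, Matrix.one_mul, Matrix.mul_one, Matrix.single_mul_single_same,
    Matrix.single_mul_single_of_ne _ _ _ _ hij, Matrix.single_mul_single_of_ne _ _ _ _ hij.symm,
    add_zero]
  obtain ⟨B, hB⟩ : ∃ B : Fin n → Fin n → Matrix (Fin n) (Fin n) F, ∀ a b c,
      Matrix.single a b c = c • B a b := ⟨fun a b => Matrix.single a b 1, fun a b c => by simp⟩
  simp only [hB]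
  generalize (θ : F) = z at hθ h0
  match_scalars <;> field_simp <;> rw [hθ] <;> ring

theorem H3_nil {J E : Type} [Fintype J] [DecidableEq J] [Field E] {A : Matrix J J E}
    (hA : IsNilpotent A) (B : Matrix J J E) : IsNilpotent (Matrix.fromBlocks A B 0 A) := by
  obtain ⟨m, hm⟩ := hA
  have key : ∀ k : ℕ, ∃ B', (Matrix.fromBlocks A B 0 A) ^ k =
      Matrix.fromBlocks (A ^ k) B' 0 (A ^ k) := by
    intro k
    induction k with
    | zero => exact ⟨0, by simp⟩
    | succ k ih =>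
      obtain ⟨B', h⟩ := ih
      refine ⟨A ^ k * B + B' * A, ?_⟩
      rw [pow_succ, h, Matrix.fromBlocks_multiply, pow_succ]
      simp
  obtain ⟨B', h⟩ := key m
  refine ⟨m * 2, ?_⟩
  rw [pow_mul, h, hm, pow_two, Matrix.fromBlocks_multiply]
  simp

theorem H3_norm_one {F : Type} [NormedField F] [IsUltrametricDist F] {θ : F}
    (h : ‖θ - 1‖ < 1) : ‖θ‖ = 1 := by
  have e : θ = 1 + (θ - 1) := by ring
  rw [e, IsUltrametricDist.norm_add_eq_max_of_norm_ne_norm (by rw [norm_one]; exact h.ne'),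
    norm_one]
  exact max_eq_left h.le

theorem H3_pow_sub {F : Type} [NormedField F] [IsUltrametricDist F] {θ : F}
    (h : ‖θ - 1‖ < 1) (m : ℕ) : ‖θ ^ m - 1‖ ≤ ‖θ - 1‖ := by
  induction m with
  | zero => simp
  | succ m ih =>
    have e : θ ^ (m + 1) - 1 = (θ ^ m - 1) * θ + (θ - 1) := by ring
    rw [e]
    refine (IsUltrametricDist.norm_add_le_max _ _).trans (max_le ?_ le_rfl)
    rw [norm_mul, H3_norm_one h, mul_one]
    exact ih

theorem H3_v {n N : ℕ} {F E : Type} [NormedField F] [Field E]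
    {ρ : GL (Fin n) F →* Matrix (Fin N) (Fin N) E} {s : ℝ}
    {u : GL (Fin n) F → Matrix (Fin N) (Fin N) E} (hu : Coc ρ s u) {k k' : GL (Fin n) F}
    (hk : Near s k) (hk' : Near s k') :
    u (k * k') * ρ (k * k') = u k * ρ k * ρ k' + ρ k * (u k' * ρ k') := by
  have e : ρ k⁻¹ * (ρ k * ρ k') = ρ k' := by
    rw [← mul_assoc, ← map_mul, inv_mul_cancel, map_one, one_mul]
  rw [hu k k' hk hk', map_mul, add_mul, mul_assoc (ρ k * u k'), e]
  simp only [mul_assoc]

theorem H3_cor {n : ℕ} {F : Type} [Field F] {i j : Fin n} (hij : i ≠ j) (θ : Fˣ) :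
    (fun c => if c = i then θ else if c = j then θ⁻¹ else 1) =
      (Pi.mulSingle i θ / Pi.mulSingle j θ : Fin n → Fˣ) := by
  funext c
  by_cases h1 : c = i
  · subst h1
    simp [hij]
  · by_cases h2 : c = j
    · subst h2
      simp [h1]
    · simp [h1, h2]

theorem H3_single {n : ℕ} {F : Type} [NormedField F] {s : ℝ} (hs0 : 0 < s) (i : Fin n) {θ : Fˣ}
    (h : ‖(θ : F) - 1‖ < s) : Near s (dg (Pi.mulSingle i θ : Fin n → Fˣ)) := by
  rw [near_dg hs0]
  intro c
  by_cases h1 : c = i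
  · subst h1
    simpa using h
  · simpa [h1] using hs0

theorem torus_part (p : ℕ) [Fact p.Prime] {n N D : ℕ} {F E ι : Type} [NontriviallyNormedField F]
    [IsUltrametricDist F] [NormedAlgebra ℚ_[p] F] [FiniteDimensional ℚ_[p] F] [NormedField E]
    [IsUltrametricDist E] [NormedAlgebra ℚ_[p] E] [Fintype ι] {κ : ι → F →+* E}
    {a : ι → Fin n → ℤ} {ρ : GL (Fin n) F →* Matrix (Fin N) (Fin N) E} (ok : AlgOK κ a ρ)
    (hκ : ∀ σ x, ‖κ σ x‖ = ‖x‖) {w l : Fin N → E} {π : Fin (D + 1) → Matrix (Fin N) (Fin N) E}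
    (hg : Graded κ a ρ w l π) {s : ℝ} (hs0 : 0 < s) (hs : s ≤ 1)
    {u : GL (Fin n) F → Matrix (Fin N) (Fin N) E} (hu : Coc ρ s u) (hc : Cts u)
    (hz : ∀ z : Fˣ, Near s (dg fun _ : Fin n => z) → u (dg fun _ => z) = 0)
    (hup : ∀ (i j : Fin n) (h : i < j) (x : F), ‖x‖ < s → u (tv i j h.ne x) *ᵥ w = 0)
    (hlow : ∀ (i j : Fin n) (h : j < i) (x : F), ‖x‖ < s → l ᵥ* u (tv i j h.ne' x) = 0)
    (hdg : ∀ t, Near s (dg t) → ∃ c : E, u (dg t) *ᵥ w = c • w)
    (t : Fin n → Fˣ) (ht : Near s (dg t)) : u (dg t) *ᵥ w = 0 := by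
  haveI : CharZero F := charZero_of_injective_algebraMap (algebraMap ℚ_[p] F).injective
  haveI : CharZero E := charZero_of_injective_algebraMap (algebraMap ℚ_[p] E).injective
  haveI : ProperSpace F := FiniteDimensional.proper ℚ_[p] F
  let T : Subgroup (Fin n → Fˣ) := (KK n F s hs0 hs).comap dgHom
  have hT : ∀ t, t ∈ T ↔ Near s (dg t) := fun _ => Iff.rfl
  let H : (Fin n → Fˣ) → E := fun t => l ⬝ᵥ (u (dg t) *ᵥ w)
  have hH : ∀ t ∈ T, u (dg t) *ᵥ w = H t • w := fun t ht => by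
    obtain ⟨c, h⟩ := hdg t ht
    simp only [H, h, dotProduct_smul, hg.lw, smul_eq_mul, mul_one]
  have hv : ∀ t, l ⬝ᵥ ((u (dg t) * ρ (dg t)) *ᵥ w) = chi κ a t * H t := fun t => by
    rw [← Matrix.mulVec_mulVec, hg.tor, Matrix.mulVec_smul, dotProduct_smul, smul_eq_mul]
  have hadd : ∀ t ∈ T, ∀ t' ∈ T, H (t * t') = H t + H t' := fun t ht t' ht' => by
    have h := hv (t * t')
    rw [dg_mul, H3_v hu ((hT t).1 ht) ((hT t').1 ht'), Matrix.add_mulVec, dotProduct_add, ← Matrix.mulVec_mulVec,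
      hg.tor, Matrix.mulVec_smul, dotProduct_smul, hv, ← Matrix.mulVec_mulVec,
      ← Matrix.mulVec_mulVec, hg.tor, Matrix.mulVec_smul, hH t' ht', Matrix.mulVec_smul,
      Matrix.mulVec_smul, hg.tor, chi_mul] at h
    simp only [dotProduct_smul, hg.lw, smul_eq_mul, mul_one] at h
    apply mul_left_cancel₀ (mul_ne_zero (chi_ne_zero κ a t) (chi_ne_zero κ a t'))
    rw [← h]
    ring
  have hone : H 1 = 0 := by
    have := hadd 1 T.one_mem 1 T.one_mem
    rw [mul_one] at this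
    exact left_eq_add.1 this
  have hpow : ∀ t ∈ T, ∀ m : ℕ, H (t ^ m) = m * H t := fun t ht m => by
    induction m with
    | zero => simpa using hone
    | succ m ih => rw [pow_succ, hadd _ (T.pow_mem ht m) _ ht, ih]; push_cast; ring
  have hchi : ∀ (d : Fin n → Fˣ) (m : ℕ), chi κ a (d ^ m) = chi κ a d ^ m := fun d m => by
    induction m with
    | zero => simpa using chi_one κ a
    | succ m ih => rw [pow_succ, chi_mul, ih, pow_succ]
  let Z : Subgroup (Fin n → Fˣ) :=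
    { carrier := {t | t ∈ T ∧ H t = 0}
      mul_mem' := fun {x y} hx hy =>
        ⟨T.mul_mem hx.1 hy.1, by rw [hadd _ hx.1 _ hy.1, hx.2, hy.2, add_zero]⟩
      one_mem' := ⟨T.one_mem, hone⟩
      inv_mem' := fun {x} hx => ⟨T.inv_mem hx.1, by
        have := hadd _ hx.1 _ (T.inv_mem hx.1)
        rw [mul_inv_cancel, hone, hx.2, zero_add] at this
        exact this.symm⟩ }
  have hroot : ∀ t ∈ T, ∀ m : ℕ, 0 < m → t ^ m ∈ Z → t ∈ Z := fun t ht m hm h => by
    refine ⟨ht, ?_⟩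
    have := h.2
    rw [hpow t ht] at this
    exact (mul_eq_zero.1 this).resolve_left (Nat.cast_ne_zero.2 hm.ne')
  have hcor : ∀ (i j : Fin n), i < j → ∀ θ : Fˣ, ‖(θ : F) - 1‖ < s →
      (Pi.mulSingle i θ / Pi.mulSingle j θ : Fin n → Fˣ) ∈ Z := by
    intro i j hij
    have hmem : ∀ θ : Fˣ, ‖(θ : F) - 1‖ < s →
        (Pi.mulSingle i θ / Pi.mulSingle j θ : Fin n → Fˣ) ∈ T := fun θ h =>
      T.div_mem (H3_single hs0 i h) (H3_single hs0 j h)
    have hp : ∀ (θ : Fˣ) (m : ℕ), (Pi.mulSingle i (θ ^ m) / Pi.mulSingle j (θ ^ m) : Fin n → Fˣ) =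
        (Pi.mulSingle i θ / Pi.mulSingle j θ) ^ m := fun θ m => by
      rw [div_pow, Pi.mulSingle_pow, Pi.mulSingle_pow]
    obtain ⟨y, hy0, hy⟩ := NormedField.exists_norm_lt F hs0
    have hy1 : y ≠ 0 := norm_pos_iff.1 hy0
    let U : F → Matrix (Fin N ⊕ Fin N) (Fin N ⊕ Fin N) E := fun x =>
      Matrix.fromBlocks (ρ (tv i j hij.ne x)) (u (tv i j hij.ne x) * ρ (tv i j hij.ne x)) 0
        (ρ (tv i j hij.ne x))
    have hU1 : ∀ x, U x - 1 = Matrix.fromBlocks (ρ (tv i j hij.ne x) - 1)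
        (u (tv i j hij.ne x) * ρ (tv i j hij.ne x)) 0 (ρ (tv i j hij.ne x) - 1) := fun x => by
      ext (c | c) (d | d) <;> simp [U, Matrix.one_apply]
    obtain ⟨s', hs'0, hs', hU⟩ := unip_no_log p U hs0
      (fun x x' hx hx' => by
        simp only [U]
        rw [Matrix.fromBlocks_multiply, tv_add,
          H3_v hu ((near_tv hs0 _ _ _ _).2 hx) ((near_tv hs0 _ _ _ _).2 hx'), map_mul, add_comm]
        simp)
      (fun x _ => by
        rw [hU1]
        exact H3_nil (hg.nilpotent_up ok.reg hij x) _)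
      (fun ε hε => by
        obtain ⟨r, hr, h1⟩ := ok.cont hκ (lt_min hε one_pos)
        obtain ⟨r', hr', h2⟩ := hc ε hε
        refine ⟨min r r', lt_min hr hr', fun x hx => ?_⟩
        have k1 := h1 _ ((near_tv hr i j hij.ne x).2 (hx.trans_le (min_le_left _ _)))
        have k2 := h2 _ ((near_tv hr' i j hij.ne x).2 (hx.trans_le (min_le_right _ _)))
        have k3 : MLe 1 (ρ (tv i j hij.ne x)) := by
          have := (k1.mono (min_le_right _ _)).add MLe.one
          rwa [sub_add_cancel] at this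
        have k4 := k2.mul k3 hε.le zero_le_one
        rw [mul_one] at k4
        rw [hU1]
        rintro (c | c) (d | d)
        · exact k1.mono (min_le_left _ _) c d
        · exact k4 c d
        · simpa using hε.le
        · exact k1.mono (min_le_left _ _) c d)
    have hsy : s' * ‖y‖ < s := by nlinarith
    have hsmall : ∀ θ : Fˣ, ‖(θ : F) - 1‖ < s' * ‖y‖ →
        (Pi.mulSingle i θ / Pi.mulSingle j θ : Fin n → Fˣ) ∈ Z := by
      intro θ hθ
      have hθ1 : ‖(θ : F) - 1‖ < 1 := (hθ.trans hsy).trans_le hs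
      have hx : ∀ m : ℕ, ‖y⁻¹ * ((θ : F) ^ m - 1)‖ < s' := fun m => by
        rw [norm_mul, norm_inv, inv_mul_lt_iff₀ hy0, mul_comm]
        exact (H3_pow_sub hθ1 m).trans_lt hθ
      have hd := hmem θ (hθ.trans hsy)
      refine ⟨hd, hU θ y⁻¹ hx (Matrix.vecMulVec (Sum.elim l 0)
        (Sum.elim ((u (tv j i hij.ne' y) * ρ (tv j i hij.ne' y)) *ᵥ w)
          (ρ (tv j i hij.ne' y) *ᵥ w))) _ _
        (chi_ne_zero κ a (Pi.mulSingle i θ / Pi.mulSingle j θ)) fun m => ?_⟩
      have hn : ‖((θ ^ m : Fˣ) : F)‖ = 1 := by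
        rw [Units.val_pow_eq_pow_val, norm_pow, H3_norm_one hθ1, one_pow]
      have hX := (hx m).trans_le hs'
      have e := sl2_identity hij.ne (y⁻¹ * ((θ : F) ^ m - 1)) y (θ ^ m) (by
        rw [Units.val_pow_eq_pow_val]; field_simp; ring)
      rw [H3_cor hij.ne, hp] at e
      have hL : ‖y / ((θ ^ m : Fˣ) : F)‖ < s := by rwa [norm_div, hn, div_one]
      have hR : ‖y⁻¹ * ((θ : F) ^ m - 1) / ((θ ^ m : Fˣ) : F)‖ < s := by
        rwa [norm_div, hn, div_one]
      have nL := (near_tv hs0 j i hij.ne' _).2 hL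
      have nD := (hT _).1 (T.pow_mem hd m)
      have e1 := H3_v hu ((near_tv hs0 i j hij.ne _).2 hX) ((near_tv hs0 j i hij.ne' _).2 hy)
      rw [e, H3_v hu (nL.mul hs0 hs nD) ((near_tv hs0 i j hij.ne _).2 hR), H3_v hu nL nD] at e1
      have e2 := congrArg (fun X => l ⬝ᵥ (X *ᵥ w)) e1
      have f1 : ∀ X Y : Matrix (Fin N) (Fin N) E,
          l ⬝ᵥ ((u (tv j i hij.ne' (y / ((θ ^ m : Fˣ) : F))) * X * Y) *ᵥ w) = 0 := fun X Y => by
        rw [mul_assoc, ← Matrix.mulVec_mulVec, Matrix.dotProduct_mulVec, hlow j i hij _ hL,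
          zero_dotProduct]
      have f2 : ∀ X : Matrix (Fin N) (Fin N) E,
          l ⬝ᵥ ((ρ (tv j i hij.ne' (y / ((θ ^ m : Fˣ) : F))) * X) *ᵥ w) = l ⬝ᵥ (X *ᵥ w) :=
        fun X => by
          rw [← Matrix.mulVec_mulVec, Matrix.dotProduct_mulVec, hg.low _ (isLow1_tv hij _)]
      have f3 := hg.up _ (isUp1_tv hij (y⁻¹ * ((θ : F) ^ m - 1) / ((θ ^ m : Fˣ) : F)))
      simp only [Matrix.add_mulVec, dotProduct_add] at e2
      rw [← Matrix.mulVec_mulVec, f3, Matrix.add_mulVec, dotProduct_add, f1, f2, hv,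
        ← Matrix.mulVec_mulVec, ← Matrix.mulVec_mulVec, f3, hup i j hij _ hR,
        Matrix.mulVec_zero, dotProduct_zero, hchi, hpow _ hd] at e2
      have e3 : ∀ (L W : Fin N ⊕ Fin N → E) (X : Matrix (Fin N ⊕ Fin N) (Fin N ⊕ Fin N) E),
          ∑ c, ∑ d, Matrix.vecMulVec L W c d * X c d = L ⬝ᵥ (X *ᵥ W) := fun L W X => by
        simp only [Matrix.vecMulVec_apply, dotProduct, Matrix.mulVec, Finset.mul_sum]
        exact Finset.sum_congr rfl fun c _ => Finset.sum_congr rfl fun d _ => by ring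
      rw [e3]
      simp only [U, Matrix.fromBlocks_mulVec, sumElim_dotProduct_sumElim, zero_dotProduct,
        add_zero, Sum.elim_comp_inl, Sum.elim_comp_inr, dotProduct_add, Matrix.mulVec_mulVec]
      linear_combination e2
    intro θ hθ
    obtain ⟨m, hm, h⟩ := exists_pow_sub_one_lt (H3_norm_one (hθ.trans_le hs))
      (mul_pos hs'0 hy0)
    refine hroot _ (hmem θ hθ) m hm ?_
    rw [← hp]
    exact hsmall _ (by rwa [Units.val_pow_eq_pow_val])
  have hsing : ∀ (i : Fin n) (θ : Fˣ), ‖(θ : F) - 1‖ < s →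
      (Pi.mulSingle i θ : Fin n → Fˣ) ∈ Z := by
    intro i θ hθ
    refine hroot _ (H3_single hs0 i hθ) n (Fin.pos i) ?_
    have hc : (fun _ : Fin n => θ) ∈ Z := by
      have hn : Near s (dg fun _ : Fin n => θ) := (near_dg hs0 _).2 fun _ => hθ
      exact ⟨hn, by simp only [H, hz θ hn, Matrix.zero_mulVec, dotProduct_zero]⟩
    have e : (Pi.mulSingle i θ : Fin n → Fˣ) ^ n =
        (∏ j, (Pi.mulSingle i θ / Pi.mulSingle j θ : Fin n → Fˣ)) * fun _ => θ := by
      rw [Finset.prod_div_distrib, Finset.prod_const, Finset.card_univ, Fintype.card_fin,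
        Finset.univ_prod_mulSingle (fun _ : Fin n => θ), div_mul_cancel]
    rw [e]
    refine Z.mul_mem (Z.prod_mem fun j _ => ?_) hc
    rcases lt_trichotomy i j with h | h | h
    · exact hcor i j h θ hθ
    · rw [h, div_self']
      exact Z.one_mem
    · rw [← inv_div]
      exact Z.inv_mem (hcor j i h θ hθ)
  have hZ : t ∈ Z := by
    rw [← Finset.univ_prod_mulSingle t]
    exact Z.prod_mem fun i _ => hsing i _ ((near_dg hs0 t).1 ht i)
  rw [hH t ht, hZ.2, zero_smul]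

end Pool.Agent.MP_4d0c14_b

end
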