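import Pool.Agent.Mg.F4d0c14.G0f4b62
import Pool.Agent.Mg.F4d0c14.G69f392
import Pool.Agent.Mg.F4d0c14.G40661c
import Pool.Agent.Mg.F4d0c14.Ge1179e

section

/-! The kernels `kap j`, the function `phi` and the eigenvalue relation. -/

namespace Pool.Agent.MP_4d0c14_b

open scoped Matrix

namespace Iw

variable {G E ι : Type} [Group G] [Field E] [Fintype ι] [DecidableEq ι] (D : Iw G E ι)

theorem I1_invH {h : G} (hh : h ∈ D.H) : D.lam h * D.lam h⁻¹ = 1 := by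
  rw [← D.lam_mulH _ hh _ (D.H.inv_mem hh), mul_inv_cancel, D.lam_one]

theorem I1_invP {p : G} (hp : p ∈ D.P) : D.lam p * D.lam p⁻¹ = 1 := by
  rw [← D.lam_mulP _ hp _ (D.P.inv_mem hp), mul_inv_cancel, D.lam_one]

theorem I1_invP' {p : G} (hp : p ∈ D.P) : D.lam p⁻¹ * D.lam p = 1 := by
  rw [← D.lam_mulP _ (D.P.inv_mem hp) _ hp, inv_mul_cancel, D.lam_one]

theorem dec' {h : G} (hh : h ∈ D.H) : ∃ c ∈ D.L, ∃ p ∈ D.P, c ∈ D.H ∧ p ∈ D.H ∧ h = c * p := by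
  obtain ⟨p, hp, c, hc, hpH, hcH, e⟩ := D.dec _ (D.H.inv_mem hh)
  refine ⟨c⁻¹, D.L.inv_mem hc, p⁻¹, D.P.inv_mem hp, D.H.inv_mem hcH, D.H.inv_mem hpH, ?_⟩
  rw [← mul_inv_rev, ← e, inv_inv]

theorem pos_pow {j : G} (hj : D.Pos j) (K : ℕ) : D.Pos (j ^ K) := by
  induction K with
  | zero => rw [pow_zero]; exact D.pos_one
  | succ k ih => rw [pow_succ]; exact D.pos_mul _ _ ih hj

theorem phi_mul {p h : G} (hp : p ∈ D.P) (hh : h ∈ D.H) :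
    D.phi (p * h) = D.lam p * D.lam h := by
  have hx : ∃ y : G × G, y.1 ∈ D.P ∧ y.2 ∈ D.H ∧ p * h = y.1 * y.2 := ⟨(p, h), hp, hh, rfl⟩
  unfold phi
  rw [dif_pos hx]
  obtain ⟨h1, h2, h3⟩ := hx.choose_spec
  generalize hx.choose.1 = a at h1 h3 ⊢
  generalize hx.choose.2 = b at h2 h3 ⊢
  have e1 : a⁻¹ * p = b * h⁻¹ := by
    rw [inv_mul_eq_iff_eq_mul, ← mul_assoc, ← h3, mul_inv_cancel_right]
  have hsP : a⁻¹ * p ∈ D.P := D.P.mul_mem (D.P.inv_mem h1) hp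
  have hsH : a⁻¹ * p ∈ D.H := e1 ▸ D.H.mul_mem h2 (D.H.inv_mem hh)
  have e2 : D.lam p = D.lam a * D.lam (a⁻¹ * p) := by
    rw [← D.lam_mulP _ h1 _ hsP, mul_inv_cancel_left]
  have e3 : D.lam b = D.lam (a⁻¹ * p) * D.lam h := by
    rw [← D.lam_mulH _ hsH _ hh, e1, inv_mul_cancel_right]
  rw [e2, e3, mul_assoc]

theorem phi_eq_zero {x : G} (hx : ¬∃ p ∈ D.P, ∃ h ∈ D.H, x = p * h) : D.phi x = 0 := by
  unfold phi
  exact dif_neg fun ⟨y, h1, h2, h3⟩ => hx ⟨y.1, h1, y.2, h2, h3⟩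

theorem phi_one : D.phi 1 = 1 := by
  have := D.phi_mul D.P.one_mem D.H.one_mem
  rwa [mul_one, D.lam_one, mul_one] at this

theorem phi_left {p : G} (hp : p ∈ D.P) (x : G) : D.phi (p * x) = D.lam p * D.phi x := by
  by_cases hx : ∃ p ∈ D.P, ∃ h ∈ D.H, x = p * h
  · obtain ⟨a, ha, h, hh, rfl⟩ := hx
    rw [← mul_assoc, D.phi_mul (D.P.mul_mem hp ha) hh, D.phi_mul ha hh, D.lam_mulP _ hp _ ha,
      mul_assoc]
  · rw [D.phi_eq_zero hx, mul_zero]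
    refine D.phi_eq_zero fun ⟨a, ha, h, hh, e⟩ =>
      hx ⟨p⁻¹ * a, D.P.mul_mem (D.P.inv_mem hp) ha, h, hh, ?_⟩
    rw [mul_assoc, ← e, inv_mul_cancel_left]

theorem phi_right {h : G} (hh : h ∈ D.H) (x : G) : D.phi (x * h) = D.phi x * D.lam h := by
  by_cases hx : ∃ p ∈ D.P, ∃ h ∈ D.H, x = p * h
  · obtain ⟨a, ha, b, hb, rfl⟩ := hx
    rw [mul_assoc, D.phi_mul ha (D.H.mul_mem hb hh), D.phi_mul ha hb, D.lam_mulH _ hb _ hh,
      mul_assoc]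
  · rw [D.phi_eq_zero hx, zero_mul]
    refine D.phi_eq_zero fun ⟨a, ha, b, hb, e⟩ =>
      hx ⟨a, ha, b * h⁻¹, D.H.mul_mem hb (D.H.inv_mem hh), ?_⟩
    rw [← mul_assoc, ← e, mul_inv_cancel_right]

theorem I1_key {j s s' : G} (hj : D.Pos j) (hs : s ∈ D.H) (hs' : s' ∈ D.H) (e : s * j = j * s') :
    D.lam j⁻¹ * D.lam s = D.lam s' * D.lam j⁻¹ := by
  obtain ⟨c, hc, p, hp, hcH, hpH, rfl⟩ := D.dec' hs
  have hjP := D.pos_mem j hj
  have h1 : j⁻¹ * p * j ∈ D.H := D.pos_P j hj p hp hpH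
  have h2 : j⁻¹ * p * j ∈ D.P := D.P.mul_mem (D.P.mul_mem (D.P.inv_mem hjP) hp) hjP
  have e1 : s' = (j⁻¹ * c * j) * (j⁻¹ * p * j) := by
    have : s' = j⁻¹ * (c * p * j) := by rw [e, inv_mul_cancel_left]
    rw [this]; group
  have h3 : j⁻¹ * c * j ∈ D.H := by
    have : j⁻¹ * c * j = s' * (j⁻¹ * p * j)⁻¹ := by rw [e1, mul_inv_cancel_right]
    rw [this]; exact D.H.mul_mem hs' (D.H.inv_mem h1)
  rw [e1, D.lam_mulH _ hcH _ hpH, D.lam_L c hc hcH, one_mul, D.lam_mulH _ h3 _ h1,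
    D.lam_L _ (D.pos_L j hj c hc).2.1 h3, one_mul, ← D.lam_mulP _ (D.P.inv_mem hjP) _ hp,
    ← D.lam_mulP _ h2 _ (D.P.inv_mem hjP), mul_inv_cancel_right]

theorem kap_mul {j h h' : G} (hj : D.Pos j) (hh : h ∈ D.H) (hh' : h' ∈ D.H) :
    D.kap j (h * j * h') = D.lam h'⁻¹ * D.lam j⁻¹ * D.lam h⁻¹ := by
  have hx : ∃ y : G × G, y.1 ∈ D.H ∧ y.2 ∈ D.H ∧ h * j * h' = y.1 * j * y.2 :=
    ⟨(h, h'), hh, hh', rfl⟩
  unfold kap
  rw [dif_pos hx]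
  obtain ⟨h1, h2, h3⟩ := hx.choose_spec
  generalize hx.choose.1 = a at h1 h3 ⊢
  generalize hx.choose.2 = b at h2 h3 ⊢
  have hs : a⁻¹ * h ∈ D.H := D.H.mul_mem (D.H.inv_mem h1) hh
  have hs' : b * h'⁻¹ ∈ D.H := D.H.mul_mem h2 (D.H.inv_mem hh')
  have e : a⁻¹ * h * j = j * (b * h'⁻¹) := by
    have : a⁻¹ * h * j = a⁻¹ * (h * j * h') * h'⁻¹ := by group
    rw [this, h3]; group
  have e1 : D.lam a⁻¹ = D.lam (a⁻¹ * h) * D.lam h⁻¹ := by
    rw [← D.lam_mulH _ hs _ (D.H.inv_mem hh), mul_inv_cancel_right]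
  have e2 : D.lam h'⁻¹ = D.lam b⁻¹ * D.lam (b * h'⁻¹) := by
    rw [← D.lam_mulH _ (D.H.inv_mem h2) _ hs', inv_mul_cancel_left]
  rw [e1, e2, mul_assoc (D.lam b⁻¹) (D.lam (b * h'⁻¹)), ← D.I1_key hj hs hs' e]
  simp only [mul_assoc]

theorem kap_eq_zero {j x : G} (hx : ¬∃ h ∈ D.H, ∃ h' ∈ D.H, x = h * j * h') : D.kap j x = 0 := by
  unfold kap
  exact dif_neg fun ⟨y, h1, h2, h3⟩ => hx ⟨y.1, h1, y.2, h2, h3⟩

theorem I1_mem {j x : G} (hx : D.kap j x ≠ 0) : ∃ h ∈ D.H, ∃ h' ∈ D.H, x = h * j * h' := by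
  by_contra h
  exact hx (D.kap_eq_zero h)

theorem I1_self {j : G} (hj : D.Pos j) : D.kap j j = D.lam j⁻¹ := by
  have := D.kap_mul hj D.H.one_mem D.H.one_mem
  rwa [one_mul, mul_one, inv_one, D.lam_one, one_mul, mul_one] at this

theorem kap_ker {j : G} (hj : D.Pos j) : D.fib.Ker (D.kap j) := by
  refine ⟨fun x h hh => ?_, fun x h hh => ?_, ?_⟩
  · have hh : h ∈ D.H := hh
    change _ = D.lam h⁻¹ * _
    by_cases hx : ∃ h ∈ D.H, ∃ h' ∈ D.H, x = h * j * h'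
    · obtain ⟨a, ha, b, hb, rfl⟩ := hx
      rw [mul_assoc (a * j), D.kap_mul hj ha (D.H.mul_mem hb hh), D.kap_mul hj ha hb, mul_inv_rev,
        D.lam_mulH _ (D.H.inv_mem hh) _ (D.H.inv_mem hb)]
      simp only [mul_assoc]
    · rw [D.kap_eq_zero hx, mul_zero]
      refine D.kap_eq_zero fun ⟨a, ha, b, hb, e⟩ =>
        hx ⟨a, ha, b * h⁻¹, D.H.mul_mem hb (D.H.inv_mem hh), ?_⟩
      rw [← mul_assoc, ← e, mul_inv_cancel_right]
  · have hh : h ∈ D.H := hh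
    change _ = _ * D.lam h⁻¹
    by_cases hx : ∃ h ∈ D.H, ∃ h' ∈ D.H, x = h * j * h'
    · obtain ⟨a, ha, b, hb, rfl⟩ := hx
      rw [← mul_assoc, ← mul_assoc, D.kap_mul hj (D.H.mul_mem hh ha) hb, D.kap_mul hj ha hb,
        mul_inv_rev, D.lam_mulH _ (D.H.inv_mem ha) _ (D.H.inv_mem hh)]
      simp only [mul_assoc]
    · rw [D.kap_eq_zero hx, zero_mul]
      refine D.kap_eq_zero fun ⟨a, ha, b, hb, e⟩ =>
        hx ⟨h⁻¹ * a, D.H.mul_mem (D.H.inv_mem hh) ha, b, hb, ?_⟩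
      rw [mul_assoc, mul_assoc, ← mul_assoc a, ← e, inv_mul_cancel_left]
  · obtain ⟨T, hT⟩ := D.fin j
    refine ⟨T, fun x hx => ?_⟩
    obtain ⟨a, ha, b, hb, rfl⟩ := D.I1_mem hx
    obtain ⟨t, ht, h1⟩ := hT a ha
    refine ⟨t, ht, ?_⟩
    rw [← mul_assoc]
    exact D.H.mul_mem h1 hb

theorem kap_one : D.kap 1 = D.fib.del := by
  funext x
  unfold Fib.del
  split_ifs with hx
  · have := D.kap_mul D.pos_one hx D.H.one_mem
    rw [mul_one, mul_one, inv_one, D.lam_one, one_mul, one_mul] at this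
    exact this
  · refine D.kap_eq_zero fun ⟨a, ha, b, hb, e⟩ => hx ?_
    rw [e, mul_one]
    exact D.H.mul_mem ha hb

theorem kap_congr {j j' : G} (hj : D.Pos j) (hj' : D.Pos j') (h : j⁻¹ * j' ∈ D.H) :
    D.kap j' = D.kap j := by
  funext x
  have hP : j⁻¹ * j' ∈ D.P := D.P.mul_mem (D.P.inv_mem (D.pos_mem j hj)) (D.pos_mem j' hj')
  by_cases hx : ∃ h ∈ D.H, ∃ h' ∈ D.H, x = h * j' * h'
  · obtain ⟨a, ha, b, hb, rfl⟩ := hx
    have e : a * j' * b = a * j * (j⁻¹ * j' * b) := by group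
    have e2 : D.lam j'⁻¹ = D.lam (j⁻¹ * j')⁻¹ * D.lam j⁻¹ := by
      rw [← D.lam_mulP _ (D.P.inv_mem hP) _ (D.P.inv_mem (D.pos_mem j hj))]
      congr 1
      group
    rw [D.kap_mul hj' ha hb, e, D.kap_mul hj ha (D.H.mul_mem h hb), mul_inv_rev,
      D.lam_mulH _ (D.H.inv_mem hb) _ (D.H.inv_mem h), e2]
    simp only [mul_assoc]
  · rw [D.kap_eq_zero hx]
    refine (D.kap_eq_zero fun ⟨a, ha, b, hb, e⟩ =>
      hx ⟨a, ha, (j⁻¹ * j')⁻¹ * b, D.H.mul_mem (D.H.inv_mem h) hb, ?_⟩).symm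
    rw [e]; group

/-- a point of the cell of `y ∈ H j H` -/
theorem cell_rep {j y u : G} (hj : D.Pos j) (hy : ∃ h ∈ D.H, ∃ h' ∈ D.H, y = h * j * h')
    (hu : ∃ p ∈ D.P, ∃ h ∈ D.H, u * y = p * h) :
    ∃ c ∈ D.H, (c * j)⁻¹ * y ∈ D.H ∧ u * c ∈ D.P := by
  obtain ⟨h, hh, h', hh', rfl⟩ := hy
  obtain ⟨p, hp, h3, hh3, e⟩ := hu
  obtain ⟨c0, _, p0, hp0, hc0H, hp0H, rfl⟩ := D.dec' hh
  have h2 : j⁻¹ * p0 * j * h' ∈ D.H := D.H.mul_mem (D.pos_P j hj p0 hp0 hp0H) hh'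
  obtain ⟨p', hp', c', hc', _, hc'H, e'⟩ := D.dec _ (D.H.mul_mem hh3 (D.H.inv_mem h2))
  refine ⟨c0 * (j * c' * j⁻¹)⁻¹,
    D.H.mul_mem hc0H (D.H.inv_mem ((D.pos_L j hj c' hc').2.2 hc'H)), ?_, ?_⟩
  · have : (c0 * (j * c' * j⁻¹)⁻¹ * j)⁻¹ * (c0 * p0 * j * h') = c' * (j⁻¹ * p0 * j * h') := by
      group
    rw [this]
    exact D.H.mul_mem hc'H h2
  · have : u * (c0 * (j * c' * j⁻¹)⁻¹) =
        u * (c0 * p0 * j * h') * (j⁻¹ * p0 * j * h')⁻¹ * c'⁻¹ * j⁻¹ := by group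
    rw [this, e, mul_assoc p, e', ← mul_assoc p, mul_inv_cancel_right]
    exact D.P.mul_mem (D.P.mul_mem hp hp') (D.P.inv_mem (D.pos_mem j hj))

/-- the cells of the cosets in `H j H` are disjoint -/
theorem cell_unique {j y y' u : G} (hj : D.Pos j) (hy : ∃ h ∈ D.H, ∃ h' ∈ D.H, y = h * j * h')
    (hy' : ∃ h ∈ D.H, ∃ h' ∈ D.H, y' = h * j * h')
    (hu : ∃ p ∈ D.P, ∃ h ∈ D.H, u * y = p * h) (hu' : ∃ p ∈ D.P, ∃ h ∈ D.H, u * y' = p * h) :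
    y⁻¹ * y' ∈ D.H := by
  obtain ⟨c, hc, h1, h2⟩ := D.cell_rep hj hy hu
  obtain ⟨c', hc', h1', h2'⟩ := D.cell_rep hj hy' hu'
  have hP : c⁻¹ * c' ∈ D.P := by
    have : c⁻¹ * c' = (u * c)⁻¹ * (u * c') := by group
    rw [this]
    exact D.P.mul_mem (D.P.inv_mem h2) h2'
  have h3 := D.pos_P j hj _ hP (D.H.mul_mem (D.H.inv_mem hc) hc')
  have : y⁻¹ * y' = ((c * j)⁻¹ * y)⁻¹ * (j⁻¹ * (c⁻¹ * c') * j) * ((c' * j)⁻¹ * y') := by group
  rw [this]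
  exact D.H.mul_mem (D.H.mul_mem (D.H.inv_mem h1) h3) h1'

theorem phi_mul_kap {j y u : G} (hj : D.Pos j) (hy : ∃ h ∈ D.H, ∃ h' ∈ D.H, y = h * j * h')
    (hu : ∃ p ∈ D.P, ∃ h ∈ D.H, u * y = p * h) : D.phi (u * y) * D.kap j y = D.phi u := by
  obtain ⟨c, hc, h1, h2⟩ := D.cell_rep hj hy hu
  obtain ⟨h, hh⟩ : ∃ h, h = (c * j)⁻¹ * y := ⟨_, rfl⟩
  obtain ⟨p, hp⟩ : ∃ p, p = u * c := ⟨_, rfl⟩
  rw [← hh] at h1
  rw [← hp] at h2
  have ey : y = c * j * h := by rw [hh, mul_inv_cancel_left]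
  have eu : u = p * c⁻¹ := by rw [hp, mul_inv_cancel_right]
  have hjP := D.pos_mem j hj
  have e : u * y = p * j * h := by rw [eu, ey]; group
  rw [e, D.phi_mul (D.P.mul_mem h2 hjP) h1, ey, D.kap_mul hj hc h1, eu,
    D.phi_mul h2 (D.H.inv_mem hc), D.lam_mulP _ h2 _ hjP]
  calc D.lam p * D.lam j * D.lam h * (D.lam h⁻¹ * D.lam j⁻¹ * D.lam c⁻¹)
      = D.lam p * (D.lam j * (D.lam h * D.lam h⁻¹) * D.lam j⁻¹) * D.lam c⁻¹ := by
        simp only [mul_assoc]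
    _ = _ := by rw [D.I1_invH h1, mul_one, D.I1_invP hjP, mul_one]

theorem mem_dc_mul {j j' h : G} (hj : D.Pos j) (hj' : D.Pos j') (hh : h ∈ D.H) :
    ∃ c ∈ D.H, ∃ h' ∈ D.H, j * h * j' = c * (j * j') * h' ∧
      D.lam j * D.lam h * D.lam j' = D.lam c * D.lam (j * j') * D.lam h' := by
  obtain ⟨c0, hc0, p0, hp0, hc0H, hp0H, rfl⟩ := D.dec' hh
  have hjP := D.pos_mem j hj
  have hjP' := D.pos_mem j' hj'
  have h1 := (D.pos_L j hj c0 hc0).2.2 hc0H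
  refine ⟨j * c0 * j⁻¹, h1, j'⁻¹ * p0 * j', D.pos_P j' hj' p0 hp0 hp0H, by group, ?_⟩
  rw [D.lam_mulH _ hc0H _ hp0H, D.lam_L _ hc0 hc0H, one_mul,
    D.lam_L _ (D.pos_L j hj c0 hc0).1 h1, one_mul, ← D.lam_mulP _ hjP _ hp0,
    ← D.lam_mulP _ (D.P.mul_mem hjP hp0) _ hjP', ← D.lam_mulP _ (D.P.mul_mem hjP hjP') _
      (D.P.mul_mem (D.P.mul_mem (D.P.inv_mem hjP') hp0) hjP')]
  congr 1
  group

theorem I1_conv_at {j j' : G} (hj : D.Pos j) (hj' : D.Pos j') :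
    D.fib.conv (D.kap j) (D.kap j') (j' * j) = D.lam (j' * j)⁻¹ := by
  rw [Fib.conv_eq_sum (D.kap_ker hj).2.1 (D.kap_ker hj').1 _ {j'} (by simp), Finset.sum_singleton,
    inv_mul_cancel_left, D.I1_self hj, D.I1_self hj', mul_inv_rev,
    D.lam_mulP _ (D.P.inv_mem (D.pos_mem j hj)) _ (D.P.inv_mem (D.pos_mem j' hj'))]
  intro g hg
  obtain ⟨a1, ha1, b1, hb1, e1⟩ := D.I1_mem (left_ne_zero_of_mul hg)
  obtain ⟨a, ha, b, hb, rfl⟩ := D.I1_mem (right_ne_zero_of_mul hg)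
  obtain ⟨c, hc, p, hp, _, hpH, rfl⟩ := D.dec' ha
  have hb2 : j'⁻¹ * p * j' * b ∈ D.H := D.H.mul_mem (D.pos_P j' hj' p hp hpH) hb
  obtain ⟨c1, hc1, p1, hp1, hc1H, hp1H, e2⟩ := D.dec' (D.H.mul_mem hb2 ha1)
  have hh1 : j⁻¹ * p1 * j * b1 ∈ D.H := D.H.mul_mem (D.pos_P j hj p1 hp1 hp1H) hb1
  have heL : c1⁻¹ * (j'⁻¹ * c⁻¹ * j') ∈ D.L :=
    D.L.mul_mem (D.L.inv_mem hc1) (D.pos_L j' hj' _ (D.L.inv_mem hc)).2.1
  have e3 : j⁻¹ * p1 * j * b1 = j⁻¹ * (c1⁻¹ * (j'⁻¹ * c⁻¹ * j')) * j := by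
    have h2 : j⁻¹ * p1 * j * b1 = j⁻¹ * c1⁻¹ * ((c1 * p1) * a1⁻¹) * (a1 * j * b1) := by group
    rw [h2, ← e2, ← e1]
    group
  have h4 := (D.pos_L j hj _ (D.pos_L j hj _ heL).2.1).2.2 (e3 ▸ hh1)
  refine ⟨j', Finset.mem_singleton_self _, ?_⟩
  have e5 : j'⁻¹ * (c * p * j' * b) =
      (c1 * (j * (j⁻¹ * (c1⁻¹ * (j'⁻¹ * c⁻¹ * j')) * j) * j⁻¹))⁻¹ * (j'⁻¹ * p * j' * b) := by group
  change _ ∈ D.H
  rw [e5]
  exact D.H.mul_mem (D.H.inv_mem (D.H.mul_mem hc1H h4)) hb2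

theorem conv_kap {j j' : G} (hj : D.Pos j) (hj' : D.Pos j') :
    D.fib.conv (D.kap j) (D.kap j') = D.kap (j' * j) := by
  funext x
  have hK := (D.kap_ker hj).conv (D.kap_ker hj')
  by_cases hx : ∃ h ∈ D.H, ∃ h' ∈ D.H, x = h * (j' * j) * h'
  · obtain ⟨a, ha, b, hb, rfl⟩ := hx
    rw [hK.1 _ b hb, hK.2.1 _ a ha, D.I1_conv_at hj hj', D.kap_mul (D.pos_mul _ _ hj' hj) ha hb,
      mul_assoc]
    rfl
  · rw [D.kap_eq_zero hx, Fib.conv_eq_sum (D.kap_ker hj).2.1 (D.kap_ker hj').1 _ ∅ (by simp),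
      Finset.sum_empty]
    intro g hg
    obtain ⟨a1, ha1, b1, hb1, e1⟩ := D.I1_mem (left_ne_zero_of_mul hg)
    obtain ⟨a, ha, b, hb, rfl⟩ := D.I1_mem (right_ne_zero_of_mul hg)
    obtain ⟨c, hc, h', hh', e2, _⟩ := D.mem_dc_mul hj' hj (D.H.mul_mem hb ha1)
    refine absurd ⟨a * c, D.H.mul_mem ha hc, h' * b1, D.H.mul_mem hh' hb1, ?_⟩ hx
    have h1 : x = a * (j' * (b * a1) * j) * b1 := by
      rw [← mul_inv_cancel_left (a * j' * b) x, e1]; group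
    rw [h1, e2]; group

theorem pmap_eq_conv (Y : G → Matrix ι ι E) (u : G) :
    D.pmap Y u = D.fib.conv (fun z => D.phi z⁻¹) Y u⁻¹ := by
  unfold pmap Fib.conv
  simp only [mul_inv_rev, inv_inv]
  rfl

theorem pmap_kap {j : G} (hj : D.Pos j) : D.pmap (D.kap j) = D.phi := by
  funext u
  have hL : D.fib.LEqv (fun z => D.phi z⁻¹) := by
    intro x h hh
    change D.phi (h * x)⁻¹ = D.phi x⁻¹ * D.lam h⁻¹
    rw [mul_inv_rev, D.phi_right (D.H.inv_mem hh)]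
  have hm : ∀ g, D.phi (g⁻¹ * u⁻¹)⁻¹ * D.kap j g ≠ 0 →
      (∃ h ∈ D.H, ∃ h' ∈ D.H, g = h * j * h') ∧ ∃ p ∈ D.P, ∃ h ∈ D.H, u * g = p * h := by
    intro g hg
    refine ⟨D.I1_mem (right_ne_zero_of_mul hg), ?_⟩
    by_contra h
    apply left_ne_zero_of_mul hg
    rw [mul_inv_rev, inv_inv, inv_inv]
    exact D.phi_eq_zero h
  rw [D.pmap_eq_conv]
  by_cases hu : ∃ p ∈ D.P, ∃ h ∈ D.H, u = p * h
  · obtain ⟨p, hp, h, hh, e⟩ := hu
    have h1 : ∃ a ∈ D.H, ∃ b ∈ D.H, h⁻¹ * j = a * j * b :=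
      ⟨h⁻¹, D.H.inv_mem hh, 1, D.H.one_mem, (mul_one _).symm⟩
    have h2 : ∃ p ∈ D.P, ∃ b ∈ D.H, u * (h⁻¹ * j) = p * b :=
      ⟨p * j, D.P.mul_mem hp (D.pos_mem j hj), 1, D.H.one_mem, by rw [e]; group⟩
    rw [Fib.conv_eq_sum hL (D.kap_ker hj).1 _ {h⁻¹ * j} (by simp), Finset.sum_singleton,
      mul_inv_rev, inv_inv, inv_inv, D.phi_mul_kap hj h1 h2]
    intro g hg
    exact ⟨_, Finset.mem_singleton_self _, D.cell_unique hj h1 (hm g hg).1 h2 (hm g hg).2⟩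
  · rw [Fib.conv_eq_sum hL (D.kap_ker hj).1 _ ∅ (by simp), Finset.sum_empty, D.phi_eq_zero hu]
    intro g hg
    refine absurd ?_ hg
    rw [mul_inv_rev, inv_inv, inv_inv, D.phi_mul_kap hj (hm g hg).1 (hm g hg).2, D.phi_eq_zero hu]

end Iw

end Pool.Agent.MP_4d0c14_b

end

section

/-! The kernel of `pmap` is generated by the relations `U_j - 1`. -/

namespace Pool.Agent.MP_4d0c14_b

open scoped Matrix

namespace Iw

variable {G E ι : Type} [Group G] [Field E] [Fintype ι] [DecidableEq ι] (D : Iw G E ι)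

/-- the generator `[g] A` of the compact induction -/
noncomputable def gen (g : G) (A : Matrix ι ι E) : G → Matrix ι ι E :=
  fun x => D.fib.del (g⁻¹ * x) * A

/-- the relations -/
def Rel : Submodule E (G → Matrix ι ι E) :=
  Submodule.span E {Z | ∃ j A, D.Pos j ∧ D.fib.Eqv A ∧ D.fib.Fin0 A ∧
    Z = D.fib.conv (D.kap j) A - A}

theorem I2_del_mem {x : G} (hx : x ∈ D.H) : D.fib.del x = D.lam x⁻¹ := by
  unfold Fib.del
  exact if_pos hx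

theorem I2_del_not {x : G} (hx : x ∉ D.H) : D.fib.del x = 0 := by
  unfold Fib.del
  exact if_neg hx

theorem I2_rel {j : G} (hj : D.Pos j) (g : G) (A : Matrix ι ι E) :
    (fun x => D.kap j (g⁻¹ * x) * A) - D.gen g A ∈ D.Rel := by
  have hd : D.fib.Ker D.fib.del := Fib.del_ker
  refine Submodule.subset_span ⟨j, D.gen g A, hj, hd.1.translate g⁻¹ A,
    hd.2.2.translate g⁻¹ A, ?_⟩
  congr 1
  funext x
  have h := Fib.conv_translate (D.kap_ker hj).2.1 hd.1 (Or.inr hd.2.2) g⁻¹ A x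
  rw [Fib.conv_del (D.kap_ker hj).2.1] at h
  exact h.symm

theorem I2_kap_phi {j w : G} (hj : D.Pos j) (hw : ∃ h ∈ D.H, ∃ h' ∈ D.H, w = h * j * h') :
    D.kap j w = D.phi w⁻¹ := by
  have h := D.phi_mul_kap (u := w⁻¹) hj hw ⟨1, D.P.one_mem, 1, D.H.one_mem, by simp⟩
  rwa [inv_mul_cancel, D.phi_one, Matrix.one_mul] at h

theorem I2_cell {j w : G} (hj : D.Pos j) (hw : ∃ h ∈ D.H, ∃ h' ∈ D.H, w = h * j * h') :
    ∃ p ∈ D.P, ∃ h ∈ D.H, w⁻¹ = p * h := by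
  obtain ⟨c, hc, -, hp⟩ := D.cell_rep (u := w⁻¹) hj hw ⟨1, D.P.one_mem, 1, D.H.one_mem, by simp⟩
  exact ⟨_, hp, c⁻¹, D.H.inv_mem hc, by simp⟩

theorem I2_dc {j j' a b : G} (hj : D.Pos j) (hj' : D.Pos j')
    (ha : ∃ h ∈ D.H, ∃ h' ∈ D.H, a = h * j * h') (hb : ∃ h ∈ D.H, ∃ h' ∈ D.H, b = h * j' * h') :
    ∃ h ∈ D.H, ∃ h' ∈ D.H, a * b = h * (j * j') * h' := by
  obtain ⟨h1, hh1, h2, hh2, rfl⟩ := ha
  obtain ⟨h3, hh3, h4, hh4, rfl⟩ := hb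
  obtain ⟨c, hc, h', hh', e, -⟩ := D.mem_dc_mul hj hj' (D.H.mul_mem hh2 hh3)
  refine ⟨h1 * c, D.H.mul_mem hh1 hc, h' * h4, D.H.mul_mem hh' hh4, ?_⟩
  calc h1 * j * h2 * (h3 * j' * h4) = h1 * (j * (h2 * h3) * j') * h4 := by group
    _ = h1 * c * (j * j') * (h' * h4) := by rw [e]; group

theorem I2_point (g : G) (T : Finset G) (j : G → G) {s : G} (hs : D.Pos s)
    (hj : ∀ y ∈ T, D.Pos (j y) ∧ ∃ h ∈ D.H, ∃ h' ∈ D.H, g⁻¹ * y = h * j y * h')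
    (hj' : ∀ y ∈ T, D.Pos ((j y)⁻¹ * s))
    (hT : ∀ u, (∃ p ∈ D.P, ∃ h ∈ D.H, u * g = p * h) →
      ∃! y, y ∈ T ∧ ∃ p ∈ D.P, ∃ h ∈ D.H, u * y = p * h) (x : G) :
    D.kap s (g⁻¹ * x) = ∑ y ∈ T, D.kap ((j y)⁻¹ * s) (y⁻¹ * x) * D.phi (y⁻¹ * g) := by
  have hdc : ∀ y ∈ T, ∀ b, (∃ h ∈ D.H, ∃ h' ∈ D.H, b = h * ((j y)⁻¹ * s) * h') →
      ∃ h ∈ D.H, ∃ h' ∈ D.H, g⁻¹ * y * b = h * s * h' := by
    intro y hy b hb
    have h := D.I2_dc (hj y hy).1 (hj' y hy) (hj y hy).2 hb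
    rwa [mul_inv_cancel_left] at h
  by_cases hx : ∃ h ∈ D.H, ∃ h' ∈ D.H, g⁻¹ * x = h * s * h'
  · have hu := D.I2_cell hs hx
    rw [mul_inv_rev, inv_inv] at hu
    obtain ⟨y, ⟨hy, p, hp, h, hh, e⟩, hun⟩ := hT x⁻¹ hu
    rw [Finset.sum_eq_single_of_mem y hy]
    · have hz := hdc y hy (h⁻¹ * ((j y)⁻¹ * s) * 1) ⟨h⁻¹, D.H.inv_mem hh, 1, D.H.one_mem, rfl⟩
      have hm := D.cell_unique (u := x⁻¹ * g) hs hz hx
        ⟨p * ((j y)⁻¹ * s), D.P.mul_mem hp (D.pos_mem _ (hj' y hy)), 1, D.H.one_mem, by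
          calc x⁻¹ * g * (g⁻¹ * y * (h⁻¹ * ((j y)⁻¹ * s) * 1))
              = x⁻¹ * y * (h⁻¹ * ((j y)⁻¹ * s)) := by group
            _ = p * ((j y)⁻¹ * s) * 1 := by rw [e]; group⟩
        ⟨1, D.P.one_mem, 1, D.H.one_mem, by group⟩
      have h1 := D.I2_kap_phi (w := y⁻¹ * x) (hj' y hy) ⟨h⁻¹, D.H.inv_mem hh, _, hm, by group⟩
      have h2 := D.I2_kap_phi hs hx
      have h3 := D.I2_kap_phi (hj y hy).1 (hj y hy).2
      have e' : x⁻¹ * g * (g⁻¹ * y) = x⁻¹ * y := by group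
      have h4 := D.phi_mul_kap (u := x⁻¹ * g) (hj y hy).1 (hj y hy).2
        ⟨p, hp, h, hh, by rw [e', e]⟩
      rw [mul_inv_rev, inv_inv] at h1 h2 h3
      rw [h1, h2, ← h3, ← h4, e']
    · intro y' hy' hne
      rw [D.kap_eq_zero, Matrix.zero_mul]
      intro hb
      have h1 := D.I2_cell (hj' y' hy') hb
      rw [mul_inv_rev, inv_inv] at h1
      exact hne (hun y' ⟨hy', h1⟩)
  · rw [D.kap_eq_zero hx]
    refine (Finset.sum_eq_zero fun y hy => ?_).symm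
    rw [D.kap_eq_zero, Matrix.zero_mul]
    intro hb
    have h := hdc y hy _ hb
    rw [mul_assoc, mul_inv_cancel_left] at h
    exact hx h

/-- decomposition of a function of finite support into generators -/
theorem eq_sum_gen {Y : G → Matrix ι ι E} (he : D.fib.Eqv Y) (T : Finset G)
    (hT : ∀ t ∈ T, ∀ t' ∈ T, t⁻¹ * t' ∈ D.H → t = t')
    (hs : ∀ x, Y x ≠ 0 → ∃ t ∈ T, t⁻¹ * x ∈ D.H) : Y = ∑ t ∈ T, D.gen t (Y t) := by
  funext x
  rw [Finset.sum_apply]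
  by_cases hx : ∃ t ∈ T, t⁻¹ * x ∈ D.H
  · obtain ⟨t, ht, htx⟩ := hx
    rw [Finset.sum_eq_single_of_mem t ht]
    · have h := he t _ htx
      rw [mul_inv_cancel_left] at h
      rw [h, gen, D.I2_del_mem htx]
      rfl
    · intro t' ht' hne
      rw [gen, D.I2_del_not, Matrix.zero_mul]
      intro h
      refine hne (hT t' ht' t ht ?_)
      have h1 := D.H.mul_mem h (D.H.inv_mem htx)
      rwa [mul_inv_rev, inv_inv, mul_assoc, mul_inv_cancel_left] at h1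
  · have h0 : Y x = 0 := by
      by_contra h
      exact hx (hs x h)
    rw [h0]
    refine (Finset.sum_eq_zero fun t ht => ?_).symm
    rw [gen, D.I2_del_not fun h => hx ⟨t, ht, h⟩, Matrix.zero_mul]

/-- a tiling of the cell of `g` -/
theorem tiling (g : G) (A : Matrix ι ι E) (T : Finset G) (j : G → G)
    (hj : ∀ y ∈ T, D.Pos (j y) ∧ ∃ h ∈ D.H, ∃ h' ∈ D.H, g⁻¹ * y = h * j y * h')
    (hT : ∀ u, (∃ p ∈ D.P, ∃ h ∈ D.H, u * g = p * h) →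
      ∃! y, y ∈ T ∧ ∃ p ∈ D.P, ∃ h ∈ D.H, u * y = p * h) :
    D.gen g A - ∑ y ∈ T, D.gen y (D.phi (y⁻¹ * g) * A) ∈ D.Rel := by
  obtain ⟨L, hL⟩ := ((Filter.eventually_all_finset T).2
    fun y hy => D.ev_pos (j y) (hj y hy).1).exists
  have hs := D.pos_pow D.pos_t L
  have h1 := D.I2_rel hs g A
  have h2 := D.Rel.sum_mem fun y (hy : y ∈ T) => D.I2_rel (hL y hy) y (D.phi (y⁻¹ * g) * A)
  have h3 : (fun x => D.kap (D.t ^ L) (g⁻¹ * x) * A) = ∑ y ∈ T,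
      fun x => D.kap ((j y)⁻¹ * D.t ^ L) (y⁻¹ * x) * (D.phi (y⁻¹ * g) * A) := by
    funext x
    rw [D.I2_point g T j hs hj hL hT x, Finset.sum_apply, Finset.sum_mul]
    exact Finset.sum_congr rfl fun y _ => Matrix.mul_assoc _ _ _
  rw [Finset.sum_sub_distrib, ← h3] at h2
  have h4 := D.Rel.sub_mem h2 h1
  rwa [sub_sub_sub_cancel_left] at h4

/-- small cells meeting the cell of `g` refine it -/
theorem key (g : G) : ∀ᶠ K : ℕ in Filter.atTop, ∀ y u,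
    (∃ h ∈ D.H, ∃ h' ∈ D.H, y = h * D.t ^ K * h') → (∃ p ∈ D.P, ∃ h ∈ D.H, u * y = p * h) →
    (∃ p ∈ D.P, ∃ h ∈ D.H, u * g = p * h) →
    ∃ j, D.Pos j ∧ ∃ h ∈ D.H, ∃ h' ∈ D.H, g⁻¹ * y = h * j * h' := by
  obtain ⟨T, hT⟩ := D.fin g
  have h1 : ∀ τ ∈ T, ∀ᶠ K : ℕ in Filter.atTop, ∀ p' ∈ D.P, τ⁻¹ * p' ∈ D.H →
      ∃ j, D.Pos j ∧ ∃ h ∈ D.H, ∃ h' ∈ D.H, p'⁻¹ * D.t ^ K = h * j * h' := by
    intro τ _
    by_cases hτ : ∃ p ∈ D.P, τ⁻¹ * p ∈ D.H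
    · obtain ⟨p, hp, hτp⟩ := hτ
      filter_upwards [D.ev_P p⁻¹ (D.P.inv_mem hp)] with K hK p' _ hτp'
      obtain ⟨j, hj, hh⟩ := hK
      exact ⟨j, hj, _, D.H.mul_mem (D.H.inv_mem hτp') hτp, _, hh, by group⟩
    · exact Filter.Eventually.of_forall fun K p' hp' h => absurd ⟨p', hp', h⟩ hτ
  filter_upwards [(Filter.eventually_all_finset T).2 h1] with K hK y u hy hu hg
  obtain ⟨c, hc, h2, huc⟩ := D.cell_rep (D.pos_pow D.pos_t K) hy hu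
  obtain ⟨p, hp, h, hh, e⟩ := hg
  obtain ⟨τ, hτ, h3⟩ := hT c⁻¹ (D.H.inv_mem hc)
  have e1 : (u * c)⁻¹ * p = c⁻¹ * g * h⁻¹ := by
    calc (u * c)⁻¹ * p = (u * c)⁻¹ * (p * h) * h⁻¹ := by group
      _ = c⁻¹ * g * h⁻¹ := by rw [← e]; group
  obtain ⟨j, hj, a, ha, b, hb, e2⟩ := hK τ hτ _ (D.P.mul_mem (D.P.inv_mem huc) hp) (by
    rw [e1, ← mul_assoc]
    exact D.H.mul_mem h3 (D.H.inv_mem hh))
  refine ⟨j, hj, h⁻¹ * a, D.H.mul_mem (D.H.inv_mem hh) ha, _, D.H.mul_mem hb h2, ?_⟩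
  rw [e1] at e2
  calc g⁻¹ * y = h⁻¹ * ((c⁻¹ * g * h⁻¹)⁻¹ * D.t ^ K) * ((c * D.t ^ K)⁻¹ * y) := by group
    _ = h⁻¹ * a * j * (b * ((c * D.t ^ K)⁻¹ * y)) := by rw [e2]; group

end Iw

end Pool.Agent.MP_4d0c14_b

end

section

/-! The presentation of the parabolic induction. -/

namespace Pool.Agent.MP_4d0c14_b

open scoped Matrix

namespace Iw

variable {G E ι : Type} [Group G] [Field E] [Fintype ι] [DecidableEq ι] (D : Iw G E ι)

/-- `u` lies in the cell of `g` -/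
def I3_cell (g u : G) : Prop := ∃ p ∈ D.P, ∃ h ∈ D.H, u * g = p * h

theorem I3_self (y : G) : D.I3_cell y y⁻¹ := ⟨1, one_mem _, 1, one_mem _, by simp⟩

theorem I3_up {a y j u : G} (hj : D.Pos j) (hy : ∃ h ∈ D.H, ∃ h' ∈ D.H, a⁻¹ * y = h * j * h')
    (hu : D.I3_cell y u) : D.I3_cell a u := by
  obtain ⟨c, hc, -, h⟩ := D.cell_rep (u := u * a) hj hy
    (by rwa [mul_assoc, mul_inv_cancel_left])
  exact ⟨_, h, c⁻¹, inv_mem hc, by rw [mul_inv_cancel_right]⟩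

theorem I3_reps {j : G} (hj : D.Pos j) : ∃ R : Finset G,
    (∀ s ∈ R, ∃ h ∈ D.H, ∃ h' ∈ D.H, s = h * j * h') ∧
    ∀ a u, D.I3_cell a u → ∃! s, s ∈ R ∧ D.I3_cell (a * s) u := by
  classical
  obtain ⟨T, hT⟩ := D.fin j
  obtain ⟨R, h1, h2, h3⟩ := Fib.exists_reps D.H
    (T.filter fun s => ∃ h ∈ D.H, ∃ h' ∈ D.H, s = h * j * h')
  have h4 := fun s (hs : s ∈ R) => (Finset.mem_filter.1 (h1 hs)).2
  refine ⟨R, h4, fun a u ⟨p, hp, h, hh, e⟩ => ?_⟩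
  obtain ⟨s, hs, h5⟩ := hT h⁻¹ (inv_mem hh)
  obtain ⟨s', hs', h6⟩ := h3 s (Finset.mem_filter.2 ⟨hs, h⁻¹, inv_mem hh, _, inv_mem h5, by group⟩)
  have h7 : D.I3_cell (a * s') u := ⟨p * j, mul_mem hp (D.pos_mem j hj), _,
    inv_mem (mul_mem h6 h5), by rw [← mul_assoc, e]; group⟩
  refine ⟨s', ⟨hs', h7⟩, fun y hy => h2 y hy.1 s' hs' (D.cell_unique (u := u * a) hj (h4 y hy.1)
    (h4 s' hs') ?_ ?_)⟩
  · rw [mul_assoc]; exact hy.2
  · rw [mul_assoc]; exact h7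

theorem I3_tile (T : Finset G) : ∃ W : Finset G, ∀ a ∈ T,
    (∀ y ∈ W, D.I3_cell a y⁻¹ → ∃ j, D.Pos j ∧ ∃ h ∈ D.H, ∃ h' ∈ D.H, a⁻¹ * y = h * j * h') ∧
    ∀ u, D.I3_cell a u → ∃! y, (y ∈ W ∧ D.I3_cell a y⁻¹) ∧ D.I3_cell y u := by
  classical
  obtain ⟨K, hK⟩ := ((Filter.eventually_all_finset T).2 fun a₀ _ =>
    (Filter.eventually_all_finset T).2 fun a _ => D.key (a₀⁻¹ * a)).exists
  obtain ⟨R, r1, r2⟩ := D.I3_reps (D.pos_pow D.pos_t K)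
  have f1 : ∀ a₀ ∈ T, ∀ a ∈ T, ∀ y u, a₀⁻¹ * y ∈ R → D.I3_cell y u → D.I3_cell a u →
      ∃ j, D.Pos j ∧ ∃ h ∈ D.H, ∃ h' ∈ D.H, a⁻¹ * y = h * j * h' := by
    intro a₀ h₀ a ha y u h1 h2 h3
    have := hK a₀ h₀ a ha (a₀⁻¹ * y) (u * a₀) (r1 _ h1) (by rwa [mul_assoc, mul_inv_cancel_left])
      (by rwa [mul_assoc, mul_inv_cancel_left])
    rwa [mul_inv_rev, inv_inv, mul_assoc, mul_inv_cancel_left] at this
  have f2 : ∀ a₀ ∈ T, ∀ y u, a₀⁻¹ * y ∈ R → D.I3_cell y u → ∀ a ∈ T,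
      (D.I3_cell a u ↔ D.I3_cell a y⁻¹) := by
    intro a₀ h₀ y u h1 h2 a ha
    constructor <;> intro h3
    · obtain ⟨j, hj, h4⟩ := f1 a₀ h₀ a ha y u h1 h2 h3
      exact D.I3_up hj h4 (D.I3_self y)
    · obtain ⟨j, hj, h4⟩ := f1 a₀ h₀ a ha y y⁻¹ h1 (D.I3_self y) h3
      exact D.I3_up hj h4 h2
  obtain ⟨c, c1, c2⟩ : ∃ c : G → G, (∀ a ∈ T, ∀ u, D.I3_cell a u → c u ∈ T ∧ D.I3_cell (c u) u) ∧
      ∀ u u', (∀ a ∈ T, D.I3_cell a u ↔ D.I3_cell a u') → c u = c u' :=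
    ⟨fun u => Classical.epsilon fun a => a ∈ T ∧ D.I3_cell a u,
      fun a ha u h => Classical.epsilon_spec (p := fun a => a ∈ T ∧ D.I3_cell a u) ⟨a, ha, h⟩,
      fun u u' h => congrArg _ (funext fun a => propext (and_congr_right (h a)))⟩
  refine ⟨((T ×ˢ R).image fun x => x.1 * x.2).filter fun y => c y⁻¹ ∈ T ∧ (c y⁻¹)⁻¹ * y ∈ R,
    fun a ha => ⟨fun y hy h => ?_, fun u hu => ?_⟩⟩
  · obtain ⟨-, h1, h2⟩ := Finset.mem_filter.1 hy
    exact f1 _ h1 a ha y _ h2 (D.I3_self y) h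
  · obtain ⟨h1, h2⟩ := c1 a ha u hu
    obtain ⟨s, ⟨h3, h4⟩, h5⟩ := r2 _ _ h2
    have h6 := f2 _ h1 (c u * s) u (by rwa [inv_mul_cancel_left]) h4
    have h7 := c2 _ _ h6
    refine ⟨c u * s, ⟨⟨Finset.mem_filter.2 ⟨Finset.mem_image.2
      ⟨(c u, s), Finset.mem_product.2 ⟨h1, h3⟩, rfl⟩, ?_⟩, (h6 a ha).1 hu⟩, h4⟩, fun y hy => ?_⟩
    · rw [← h7, inv_mul_cancel_left]
      exact ⟨h1, h3⟩
    · obtain ⟨-, h8, h9⟩ := Finset.mem_filter.1 hy.1.1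
      rw [← c2 _ _ (f2 _ h8 y u h9 hy.2)] at h9
      rw [← h5 _ ⟨h9, by rw [mul_inv_cancel_left]; exact hy.2⟩, mul_inv_cancel_left]

/-- the span of the images of the generators -/
def I3_R {d : ℕ} (γ : Fin d → G) : Submodule E (G → Matrix ι ι E) where
  carrier := {Y | ∃ A : Fin d → G → Matrix ι ι E, (∀ i, D.fib.Eqv (A i) ∧ D.fib.Fin0 (A i)) ∧
    Y = ∑ i, D.fib.conv (D.kap (γ i) - D.fib.del) (A i)}
  add_mem' := by
    rintro _ _ ⟨A, hA, rfl⟩ ⟨B, hB, rfl⟩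
    refine ⟨A + B, fun i => ⟨(hA i).1.add (hB i).1, (hA i).2.add (hB i).2⟩, ?_⟩
    rw [← Finset.sum_add_distrib]
    exact Finset.sum_congr rfl fun i _ => (Fib.conv_add_right (Or.inr ⟨(hA i).2, (hB i).2⟩)).symm
  zero_mem' := ⟨0, fun _ => ⟨Fib.Eqv.zero, Fib.Fin0.zero⟩,
    (Finset.sum_eq_zero fun _ _ => Fib.conv_zero_right).symm⟩
  smul_mem' := by
    rintro c _ ⟨A, hA, rfl⟩
    refine ⟨c • A, fun i => ⟨(hA i).1.smul c, (hA i).2.smul c⟩, ?_⟩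
    rw [Finset.smul_sum]
    exact Finset.sum_congr rfl fun i _ => (Fib.conv_smul_right c).symm

theorem I3_conv {a a' : G} (ha : D.Pos a) (ha' : D.Pos a') {A : G → Matrix ι ι E}
    (h1 : D.fib.Eqv A) (h2 : D.fib.Fin0 A) :
    D.fib.conv (D.kap (a * a')) A = D.fib.conv (D.kap a') (D.fib.conv (D.kap a) A) ∧
      D.fib.Eqv (D.fib.conv (D.kap a) A) ∧ D.fib.Fin0 (D.fib.conv (D.kap a) A) :=
  ⟨by rw [Fib.conv_assoc (D.kap_ker ha').2.1 (D.kap_ker ha) h1 (Or.inr h2), D.conv_kap ha' ha],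
    Fib.conv_eqv (D.kap_ker ha).1 (Or.inr h2), Fib.conv_fin0 (D.kap_ker ha).2.2 h2⟩

theorem I3_closure {d : ℕ} {γ : Fin d → G} (hγ : ∀ i, D.Pos (γ i)) {a : G}
    (ha : a ∈ Submonoid.closure (Set.range γ)) : D.Pos a ∧ ∀ A, D.fib.Eqv A → D.fib.Fin0 A →
      D.fib.conv (D.kap a) A - A ∈ D.I3_R γ := by
  induction ha using Submonoid.closure_induction with
  | mem x hx =>
    obtain ⟨i, rfl⟩ := hx
    refine ⟨hγ i, fun A h1 h2 => ⟨Pi.single i A, fun k => ?_, ?_⟩⟩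
    · rcases eq_or_ne k i with rfl | h
      · rw [Pi.single_eq_same]; exact ⟨h1, h2⟩
      · rw [Pi.single_eq_of_ne h]; exact ⟨Fib.Eqv.zero, Fib.Fin0.zero⟩
    · rw [Finset.sum_eq_single i (fun k _ h => by rw [Pi.single_eq_of_ne h, Fib.conv_zero_right])
        (by simp), Pi.single_eq_same, Fib.conv_sub_left (Or.inr h2), Fib.del_conv h1]
  | one =>
    refine ⟨D.pos_one, fun A h1 _ => ?_⟩
    rw [D.kap_one, Fib.del_conv h1, sub_self]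
    exact zero_mem _
  | mul x y _ _ hx hy =>
    refine ⟨D.pos_mul _ _ hx.1 hy.1, fun A h1 h2 => ?_⟩
    obtain ⟨h3, h4, h5⟩ := D.I3_conv hx.1 hy.1 h1 h2
    rw [h3, ← sub_add_sub_cancel _ (D.fib.conv (D.kap x) A)]
    exact add_mem (hy.2 _ h4 h5) (hx.2 _ h1 h2)

theorem mem_rel {Y : G → Matrix ι ι E} (he : D.fib.Eqv Y) (hf : D.fib.Fin0 Y)
    (h0 : ∀ u, D.pmap Y u = 0) : Y ∈ D.Rel := by
  classical
  obtain ⟨T₀, hT₀⟩ := hf
  obtain ⟨T, -, t1, t2⟩ := Fib.exists_reps D.H T₀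
  have hs : ∀ x, Y x ≠ 0 → ∃ t ∈ T, t⁻¹ * x ∈ D.H := fun x hx => by
    obtain ⟨t, ht, h1⟩ := hT₀ x hx
    obtain ⟨t', ht', h2⟩ := t2 t ht
    exact ⟨t', ht', by simpa [mul_assoc] using mul_mem h2 h1⟩
  have h1 : ∀ u, ∑ a ∈ T, D.phi (u * a) * Y a = 0 := fun u => by
    rw [← h0 u, D.pmap_eq_conv, Fib.conv_eq_sum (fun x h hh => by
      rw [mul_inv_rev]; exact D.phi_right (inv_mem hh) _) he _ T t1
      fun g hg => hs g fun e => hg (by rw [e, mul_zero])]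
    simp
  obtain ⟨W, hW⟩ := D.I3_tile T
  have h2 : ∀ a ∈ T, D.gen a (Y a) - ∑ y ∈ W, D.gen y (D.phi (y⁻¹ * a) * Y a) ∈ D.Rel := by
    intro a ha
    obtain ⟨w1, w2⟩ := hW a ha
    choose! j hj using w1
    rw [← Finset.sum_filter_of_ne (p := fun y => D.I3_cell a y⁻¹) fun y _ h => not_not.1 fun e =>
      h (funext fun x => by simp [gen, D.phi_eq_zero e])]
    refine D.tiling a _ _ j (fun y hy => hj y (Finset.mem_filter.1 hy).1 (Finset.mem_filter.1 hy).2)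
      fun u hu => ?_
    simp only [Finset.mem_filter]
    exact w2 u hu
  have h3 := Submodule.sum_mem _ h2
  rw [Finset.sum_sub_distrib, ← D.eq_sum_gen he T t1 hs, Finset.sum_comm,
    Finset.sum_eq_zero fun y _ => funext fun x => ?_, sub_zero] at h3
  · exact h3
  · simp only [Finset.sum_apply, gen]
    rw [← Finset.mul_sum, h1, mul_zero]
    rfl

theorem rel_gen {d : ℕ} {γ : Fin d → G} (hγ : D.Gen γ) {Y : G → Matrix ι ι E} (hY : Y ∈ D.Rel) :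
    ∃ A : Fin d → G → Matrix ι ι E, (∀ i, D.fib.Eqv (A i) ∧ D.fib.Fin0 (A i)) ∧
      Y = ∑ i, D.fib.conv (D.kap (γ i) - D.fib.del) (A i) := by
  refine (Submodule.span_le (p := D.I3_R γ)).2 ?_ hY
  rintro _ ⟨j, A, hj, h1, h2, rfl⟩
  obtain ⟨a, ha, b, hb, h3⟩ := hγ.2 j hj
  obtain ⟨a1, a2⟩ := D.I3_closure hγ.1 ha
  obtain ⟨b1, b2⟩ := D.I3_closure hγ.1 hb
  obtain ⟨h4, h5, h6⟩ := D.I3_conv hj a1 h1 h2
  have h7 := sub_mem (b2 A h1 h2) (a2 _ h5 h6)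
  rw [← D.kap_congr b1 (D.pos_mul _ _ hj a1) h3, h4, sub_sub_sub_cancel_left] at h7
  exact h7

end Iw

end Pool.Agent.MP_4d0c14_b

end

section

/-! Twisting by a representation `ρ` of the whole group. -/

namespace Pool.Agent.MP_4d0c14_b

open scoped Matrix Kronecker

namespace Iw

variable {G E ι ι₁ : Type} [Group G] [Field E] [Fintype ι] [DecidableEq ι] (D : Iw G E ι)
  [Fintype ι₁] [DecidableEq ι₁] (ρ : G →* Matrix ι₁ ι₁ E)

/-- the right factor of a Kronecker product as an additive map -/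
def I4_kr {ι ι₁ E : Type} [Field E] (A : Matrix ι₁ ι₁ E) :
    Matrix ι ι E →+ Matrix (ι₁ × ι) (ι₁ × ι) E where
  toFun := fun B => A ⊗ₖ B
  map_zero' := Matrix.kronecker_zero A
  map_add' := Matrix.kronecker_add A

/-- a block of a matrix -/
def I4_blk {ι ι₁ E : Type} [Field E] (i i' : ι₁) :
    Matrix (ι₁ × ι) (ι₁ × ι) E →+ Matrix ι ι E where
  toFun := fun M => Matrix.of fun a a' => M (i, a) (i', a')
  map_zero' := rfl
  map_add' := fun _ _ => rfl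

omit [DecidableEq ι] in
theorem I4_blk_mul (i i' : ι₁) (A : Matrix ι ι E) (M : Matrix (ι₁ × ι) (ι₁ × ι) E) :
    I4_blk i i' (((1 : Matrix ι₁ ι₁ E) ⊗ₖ A) * M) = A * I4_blk i i' M := by
  ext a a'
  change (((1 : Matrix ι₁ ι₁ E) ⊗ₖ A) * M) (i, a) (i', a') = ∑ j, A a j * M (i, j) (i', a')
  simp [Matrix.mul_apply, Fintype.sum_prod_type, Matrix.one_apply]

omit [Fintype ι] [DecidableEq ι] [Fintype ι₁] [DecidableEq ι₁] in
theorem I4_blk_ext {M M' : Matrix (ι₁ × ι) (ι₁ × ι) E}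
    (h : ∀ i i', I4_blk i i' M = I4_blk i i' M') : M = M' := by
  ext ⟨i, a⟩ ⟨i', a'⟩
  exact congrFun (congrFun (h i i') a) a'

theorem I4_U_mul (x y : G) (A : Matrix ι ι E) :
    (ρ x ⊗ₖ (1 : Matrix ι ι E)) * (ρ y ⊗ₖ A) = ρ (x * y) ⊗ₖ A := by
  rw [← Matrix.mul_kronecker_mul, one_mul, map_mul]

theorem I4_split (x : G) (A : Matrix ι ι E) :
    ρ x ⊗ₖ A = ((1 : Matrix ι₁ ι₁ E) ⊗ₖ A) * (ρ x ⊗ₖ (1 : Matrix ι ι E)) := by
  rw [← Matrix.mul_kronecker_mul, one_mul, mul_one]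

theorem I4_U_cancel (x : G) (M : Matrix (ι₁ × ι) (ι₁ × ι) E) :
    (ρ x⁻¹ ⊗ₖ (1 : Matrix ι ι E)) * ((ρ x ⊗ₖ (1 : Matrix ι ι E)) * M) = M := by
  rw [← mul_assoc, I4_U_mul, inv_mul_cancel, map_one, Matrix.one_kronecker_one, one_mul]

theorem I4_U_cancel' (x : G) (M : Matrix (ι₁ × ι) (ι₁ × ι) E) :
    (ρ x ⊗ₖ (1 : Matrix ι ι E)) * ((ρ x⁻¹ ⊗ₖ (1 : Matrix ι ι E)) * M) = M := by
  rw [← mul_assoc, I4_U_mul, mul_inv_cancel, map_one, Matrix.one_kronecker_one, one_mul]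

theorem tdel (x : G) : (D.tfib ρ).del x = ρ x⁻¹ ⊗ₖ D.fib.del x := by
  by_cases hx : x ∈ D.H
  · have h1 : x ∈ (D.tfib ρ).H := hx
    have h2 : x ∈ D.fib.H := hx
    simp only [Fib.del, if_pos h1, if_pos h2]
    rfl
  · have h1 : x ∉ (D.tfib ρ).H := hx
    have h2 : x ∉ D.fib.H := hx
    simp only [Fib.del, if_neg h1, if_neg h2, Matrix.kronecker_zero]

theorem I4_twist_eqv {q : G → Matrix ι ι E} (hq : D.fib.Eqv q) :
    (D.tfib ρ).Eqv fun x => ρ x⁻¹ ⊗ₖ q x := by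
  intro x h hh
  change ρ (x * h)⁻¹ ⊗ₖ q (x * h) = (ρ h⁻¹ ⊗ₖ D.lam h⁻¹) * (ρ x⁻¹ ⊗ₖ q x)
  rw [hq x h hh, ← Matrix.mul_kronecker_mul, mul_inv_rev, map_mul]
  rfl

theorem I4_twist_leqv {q : G → Matrix ι ι E} (hq : D.fib.LEqv q) :
    (D.tfib ρ).LEqv fun x => ρ x⁻¹ ⊗ₖ q x := by
  intro x h hh
  change ρ (h * x)⁻¹ ⊗ₖ q (h * x) = (ρ x⁻¹ ⊗ₖ q x) * (ρ h⁻¹ ⊗ₖ D.lam h⁻¹)
  rw [hq x h hh, ← Matrix.mul_kronecker_mul, mul_inv_rev, map_mul]
  rfl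

theorem I4_twist_fin0 {q : G → Matrix ι ι E} (hq : D.fib.Fin0 q) :
    (D.tfib ρ).Fin0 fun x => ρ x⁻¹ ⊗ₖ q x := by
  obtain ⟨T, hT⟩ := hq
  refine ⟨T, fun x hx => hT x fun h0 => hx ?_⟩
  simp only [h0, Matrix.kronecker_zero]

theorem twist_ker {q : G → Matrix ι ι E} (hq : D.fib.Ker q) :
    (D.tfib ρ).Ker fun x => ρ x⁻¹ ⊗ₖ q x :=
  ⟨D.I4_twist_eqv ρ hq.1, D.I4_twist_leqv ρ hq.2.1, D.I4_twist_fin0 ρ hq.2.2⟩

theorem I4_twist_conv {q q' : G → Matrix ι ι E} (hq : D.fib.Fin0 q ∨ D.fib.Fin0 q') (x : G) :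
    (D.tfib ρ).conv (fun x => ρ x⁻¹ ⊗ₖ q x) (fun x => ρ x⁻¹ ⊗ₖ q' x) x =
      ρ x⁻¹ ⊗ₖ D.fib.conv q q' x := by
  have h := (I4_kr (ι := ι) (ρ x⁻¹)).map_finsum (Fib.term_finite hq x)
  refine Eq.trans ?_ h.symm
  refine finsum_congr fun r => ?_
  change (ρ (r.out⁻¹ * x)⁻¹ ⊗ₖ q (r.out⁻¹ * x)) * (ρ r.out⁻¹ ⊗ₖ q' r.out) =
    ρ x⁻¹ ⊗ₖ (q (r.out⁻¹ * x) * q' r.out)
  rw [← Matrix.mul_kronecker_mul, ← map_mul]
  congr 2
  group

theorem twist_conv {q q' : G → Matrix ι ι E} (hq : D.fib.Fin0 q) (x : G) :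
    (D.tfib ρ).conv (fun x => ρ x⁻¹ ⊗ₖ q x) (fun x => ρ x⁻¹ ⊗ₖ q' x) x =
      ρ x⁻¹ ⊗ₖ D.fib.conv q q' x := D.I4_twist_conv ρ (Or.inl hq) x

theorem I4_rel_ker {j : G} (hj : D.Pos j) : D.fib.Ker (D.kap j - D.fib.del) :=
  (D.kap_ker hj).sub Fib.del_ker

theorem tker_ker {j : G} (hj : D.Pos j) : (D.tfib ρ).Ker (D.tker ρ j) :=
  D.twist_ker ρ (D.I4_rel_ker hj)

theorem I4_conv_rel {j j' : G} (hj : D.Pos j) (hj' : D.Pos j') :
    D.fib.conv (D.kap j - D.fib.del) (D.kap j' - D.fib.del) =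
      D.kap (j' * j) - D.kap j' - (D.kap j - D.fib.del) := by
  rw [Fib.conv_sub_right (Or.inl (D.I4_rel_ker hj).2.2), Fib.conv_del (D.I4_rel_ker hj).2.1,
    Fib.conv_sub_left (Or.inr (D.kap_ker hj').2.2), D.conv_kap hj hj',
    Fib.del_conv (D.kap_ker hj').1]

theorem tker_comm {j j' : G} (hj : D.Pos j) (hj' : D.Pos j') (h : (j * j')⁻¹ * (j' * j) ∈ D.H) :
    (D.tfib ρ).conv (D.tker ρ j) (D.tker ρ j') = (D.tfib ρ).conv (D.tker ρ j') (D.tker ρ j) := by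
  funext x
  have h1 := D.twist_conv ρ (q' := D.kap j' - D.fib.del) (D.I4_rel_ker hj).2.2 x
  have h2 := D.twist_conv ρ (q' := D.kap j - D.fib.del) (D.I4_rel_ker hj').2.2 x
  refine h1.trans (Eq.trans ?_ h2.symm)
  rw [D.I4_conv_rel hj hj', D.I4_conv_rel hj' hj,
    D.kap_congr (D.pos_mul _ _ hj hj') (D.pos_mul _ _ hj' hj) h]
  congr 1
  simp only [Pi.sub_apply]
  abel

theorem I4_phi_leqv : D.fib.LEqv fun z => D.phi z⁻¹ := by
  intro x h hh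
  change D.phi (h * x)⁻¹ = D.phi x⁻¹ * D.lam h⁻¹
  rw [mul_inv_rev, D.phi_right (D.H.inv_mem hh)]

theorem I4_tpmap_eq {Y : G → Matrix (ι₁ × ι) (ι₁ × ι) E} (hf : (D.tfib ρ).Fin0 Y) (u : G) :
    D.tpmap ρ Y u = (ρ u⁻¹ ⊗ₖ (1 : Matrix ι ι E)) *
      (D.tfib ρ).conv (fun z => ρ z⁻¹ ⊗ₖ D.phi z⁻¹) Y u⁻¹ := by
  have h := mul_finsum' _ (ρ u⁻¹ ⊗ₖ (1 : Matrix ι ι E))
    (Fib.term_finite (κ := fun z => ρ z⁻¹ ⊗ₖ D.phi z⁻¹) (Or.inr hf) u⁻¹)
  refine Eq.trans ?_ h.symm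
  refine finsum_congr fun r => ?_
  change (ρ r.out ⊗ₖ D.phi (u * r.out)) * Y r.out = (ρ u⁻¹ ⊗ₖ (1 : Matrix ι ι E)) *
    ((ρ (r.out⁻¹ * u⁻¹)⁻¹ ⊗ₖ D.phi (r.out⁻¹ * u⁻¹)⁻¹) * Y r.out)
  rw [← mul_assoc, I4_U_mul, mul_inv_rev, inv_inv, inv_inv, inv_mul_cancel_left]

theorem tpmap_del (u : G) : D.tpmap ρ (D.tfib ρ).del u = (1 : Matrix ι₁ ι₁ E) ⊗ₖ D.phi u := by
  rw [D.I4_tpmap_eq ρ Fib.del_ker.2.2, Fib.conv_del (D.I4_twist_leqv ρ D.I4_phi_leqv), I4_U_mul,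
    inv_inv, inv_mul_cancel, map_one]

theorem tpmap_sub {Y Y' : G → Matrix (ι₁ × ι) (ι₁ × ι) E} (hY : (D.tfib ρ).Fin0 Y)
    (hY' : (D.tfib ρ).Fin0 Y') (u : G) :
    D.tpmap ρ (Y - Y') u = D.tpmap ρ Y u - D.tpmap ρ Y' u := by
  rw [D.I4_tpmap_eq ρ hY, D.I4_tpmap_eq ρ hY', D.I4_tpmap_eq ρ (hY.sub hY'),
    Fib.conv_sub_right (Or.inr ⟨hY, hY'⟩), Pi.sub_apply, mul_sub]

theorem tpmap_sum {σ : Type} {s : Finset σ} {Y : σ → G → Matrix (ι₁ × ι) (ι₁ × ι) E}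
    (hY : ∀ i ∈ s, (D.tfib ρ).Fin0 (Y i)) (u : G) :
    D.tpmap ρ (∑ i ∈ s, Y i) u = ∑ i ∈ s, D.tpmap ρ (Y i) u := by
  rw [D.I4_tpmap_eq ρ (Fib.Fin0.sum hY), Fib.conv_sum_right (Or.inr hY), Finset.sum_apply,
    Finset.mul_sum]
  exact Finset.sum_congr rfl fun i hi => (D.I4_tpmap_eq ρ (hY i hi) u).symm

theorem tpmap_translate {Y : G → Matrix (ι₁ × ι) (ι₁ × ι) E} (he : (D.tfib ρ).Eqv Y)
    (hf : (D.tfib ρ).Fin0 Y) (g : G) (A : Matrix (ι₁ × ι) (ι₁ × ι) E) (u : G) :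
    D.tpmap ρ (fun x => Y (g⁻¹ * x) * A) u =
      (ρ g ⊗ₖ (1 : Matrix ι ι E)) * D.tpmap ρ Y (u * g) * A := by
  rw [D.I4_tpmap_eq ρ (hf.translate g⁻¹ A), D.I4_tpmap_eq ρ hf,
    Fib.conv_translate (D.I4_twist_leqv ρ D.I4_phi_leqv) he (Or.inr hf), ← mul_assoc, ← mul_assoc,
    I4_U_mul, mul_inv_rev, mul_inv_cancel_left]

theorem tpmap_tker {j : G} (hj : D.Pos j) {Y : G → Matrix (ι₁ × ι) (ι₁ × ι) E}
    (he : (D.tfib ρ).Eqv Y) (hf : (D.tfib ρ).Fin0 Y) (u : G) :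
    D.tpmap ρ ((D.tfib ρ).conv (D.tker ρ j) Y) u = 0 := by
  have h0 : (D.tfib ρ).conv (fun z => ρ z⁻¹ ⊗ₖ D.phi z⁻¹) (D.tker ρ j) = 0 := by
    funext x
    have h1 := D.I4_twist_conv ρ (q := fun z => D.phi z⁻¹) (Or.inr (D.I4_rel_ker hj).2.2) x
    refine h1.trans ?_
    have h2 := D.pmap_eq_conv (D.kap j) x⁻¹
    rw [inv_inv, D.pmap_kap hj] at h2
    rw [Fib.conv_sub_right (Or.inr ⟨(D.kap_ker hj).2.2, Fib.del_ker.2.2⟩),
      Fib.conv_del D.I4_phi_leqv, Pi.sub_apply, ← h2, sub_self, Matrix.kronecker_zero]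
    rfl
  rw [D.I4_tpmap_eq ρ (Fib.conv_fin0 (D.tker_ker ρ hj).2.2 hf),
    Fib.conv_assoc (D.I4_twist_leqv ρ D.I4_phi_leqv) (D.tker_ker ρ hj) he (Or.inr hf), h0]
  simp [Fib.conv]

theorem I4_blk_conv {q : G → Matrix ι ι E} {Y : G → Matrix (ι₁ × ι) (ι₁ × ι) E}
    (hf : (D.tfib ρ).Fin0 Y) (i i' : ι₁) (x : G) :
    I4_blk i i' ((ρ x ⊗ₖ (1 : Matrix ι ι E)) * (D.tfib ρ).conv (fun z => ρ z⁻¹ ⊗ₖ q z) Y x) =
      D.fib.conv q (fun z => I4_blk i i' ((ρ z ⊗ₖ (1 : Matrix ι ι E)) * Y z)) x := by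
  have h := ((I4_blk (ι := ι) i i').comp
    (AddMonoidHom.mulLeft (ρ x ⊗ₖ (1 : Matrix ι ι E)))).map_finsum
    (Fib.term_finite (κ := fun z => ρ z⁻¹ ⊗ₖ q z) (Or.inr hf) x)
  refine h.trans (finsum_congr fun r => ?_)
  change I4_blk i i' ((ρ x ⊗ₖ (1 : Matrix ι ι E)) *
    ((ρ (r.out⁻¹ * x)⁻¹ ⊗ₖ q (r.out⁻¹ * x)) * Y r.out)) =
    q (r.out⁻¹ * x) * I4_blk i i' ((ρ r.out ⊗ₖ (1 : Matrix ι ι E)) * Y r.out)
  rw [← mul_assoc, I4_U_mul, mul_inv_rev, inv_inv, mul_inv_cancel_left, I4_split, mul_assoc,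
    I4_blk_mul]

theorem I4_untw_eqv {Y : G → Matrix (ι₁ × ι) (ι₁ × ι) E} (he : (D.tfib ρ).Eqv Y) (i i' : ι₁) :
    D.fib.Eqv fun z => I4_blk i i' ((ρ z ⊗ₖ (1 : Matrix ι ι E)) * Y z) := by
  intro x h hh
  have h1 : Y (x * h) = (ρ h⁻¹ ⊗ₖ D.lam h⁻¹) * Y x := he x h hh
  change I4_blk i i' ((ρ (x * h) ⊗ₖ (1 : Matrix ι ι E)) * Y (x * h)) =
    D.lam h⁻¹ * I4_blk i i' ((ρ x ⊗ₖ (1 : Matrix ι ι E)) * Y x)
  rw [h1, ← mul_assoc, I4_U_mul, mul_inv_cancel_right, I4_split, mul_assoc, I4_blk_mul]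

theorem I4_untw_fin0 {Y : G → Matrix (ι₁ × ι) (ι₁ × ι) E} (hf : (D.tfib ρ).Fin0 Y) (i i' : ι₁) :
    D.fib.Fin0 fun z => I4_blk i i' ((ρ z ⊗ₖ (1 : Matrix ι ι E)) * Y z) := by
  obtain ⟨T, hT⟩ := hf
  refine ⟨T, fun x hx => hT x fun h0 => hx ?_⟩
  simp only [h0, mul_zero, map_zero]

/-- the matrix with given blocks -/
def I4_asm {ι ι₁ E : Type} (B : ι₁ → ι₁ → Matrix ι ι E) : Matrix (ι₁ × ι) (ι₁ × ι) E :=
  Matrix.of fun p p' => B p.1 p'.1 p.2 p'.2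

omit [Fintype ι] [DecidableEq ι] [Fintype ι₁] [DecidableEq ι₁] in
theorem I4_blk_asm (B : ι₁ → ι₁ → Matrix ι ι E) (i i' : ι₁) : I4_blk i i' (I4_asm B) = B i i' :=
  rfl

theorem I4_tw_eqv {B : ι₁ → ι₁ → G → Matrix ι ι E} (hB : ∀ i i', D.fib.Eqv (B i i')) :
    (D.tfib ρ).Eqv fun x => (ρ x⁻¹ ⊗ₖ (1 : Matrix ι ι E)) * I4_asm fun i i' => B i i' x := by
  intro x h hh
  have h1 : (I4_asm fun i i' => B i i' (x * h)) =
      ((1 : Matrix ι₁ ι₁ E) ⊗ₖ D.lam h⁻¹) * I4_asm fun i i' => B i i' x :=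
    I4_blk_ext fun i i' => by
      rw [I4_blk_mul, I4_blk_asm, I4_blk_asm]
      exact hB i i' x h hh
  change (ρ (x * h)⁻¹ ⊗ₖ (1 : Matrix ι ι E)) * (I4_asm fun i i' => B i i' (x * h)) =
    (ρ h⁻¹ ⊗ₖ D.lam h⁻¹) * ((ρ x⁻¹ ⊗ₖ (1 : Matrix ι ι E)) * I4_asm fun i i' => B i i' x)
  rw [h1, ← mul_assoc, ← mul_assoc, ← Matrix.mul_kronecker_mul, ← Matrix.mul_kronecker_mul,
    mul_one, one_mul, mul_one, mul_inv_rev, map_mul]

theorem I4_tw_fin0 {B : ι₁ → ι₁ → G → Matrix ι ι E} (hB : ∀ i i', D.fib.Fin0 (B i i')) :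
    (D.tfib ρ).Fin0 fun x => (ρ x⁻¹ ⊗ₖ (1 : Matrix ι ι E)) * I4_asm fun i i' => B i i' x := by
  classical
  choose T hT using hB
  refine ⟨Finset.univ.biUnion fun p : ι₁ × ι₁ => T p.1 p.2, fun x hx => ?_⟩
  by_contra hne
  apply hx
  have h1 : (I4_asm fun i i' => B i i' x) = 0 := I4_blk_ext fun i i' => by
    rw [I4_blk_asm, map_zero]
    by_contra h0
    obtain ⟨t, ht, ht'⟩ := hT i i' x h0
    exact hne ⟨t, Finset.mem_biUnion.2 ⟨(i, i'), Finset.mem_univ _, ht⟩, ht'⟩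
  simp only [h1, mul_zero]

theorem tpresentation {d : ℕ} {γ : Fin d → G} (hγ : D.Gen γ)
    {Y : G → Matrix (ι₁ × ι) (ι₁ × ι) E} (he : (D.tfib ρ).Eqv Y) (hf : (D.tfib ρ).Fin0 Y)
    (h0 : ∀ u, D.tpmap ρ Y u = 0) :
    ∃ A : Fin d → G → Matrix (ι₁ × ι) (ι₁ × ι) E,
      (∀ i, (D.tfib ρ).Eqv (A i) ∧ (D.tfib ρ).Fin0 (A i)) ∧
      Y = ∑ i, (D.tfib ρ).conv (D.tker ρ (γ i)) (A i) := by
  have hrel : ∀ i i' : ι₁,
      (fun z => I4_blk i i' ((ρ z ⊗ₖ (1 : Matrix ι ι E)) * Y z)) ∈ D.Rel := by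
    intro i i'
    refine D.mem_rel (D.I4_untw_eqv ρ he i i') (D.I4_untw_fin0 ρ hf i i') fun u => ?_
    have h1 := h0 u
    rw [D.I4_tpmap_eq ρ hf] at h1
    rw [D.pmap_eq_conv, ← D.I4_blk_conv ρ hf, h1, map_zero]
  choose B hB hBY using fun i i' => D.rel_gen hγ (hrel i i')
  have hfin := fun l => D.I4_tw_fin0 ρ (B := fun i i' => B i i' l) fun i i' => (hB i i' l).2
  refine ⟨fun l x => (ρ x⁻¹ ⊗ₖ (1 : Matrix ι ι E)) * I4_asm fun i i' => B i i' l x,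
    fun l => ⟨D.I4_tw_eqv ρ fun i i' => (hB i i' l).1, hfin l⟩, ?_⟩
  funext x
  rw [← I4_U_cancel ρ x (Y x), ← I4_U_cancel ρ x ((∑ i, _ : G → _) x)]
  congr 1
  refine I4_blk_ext fun i i' => ?_
  refine (congrFun (hBY i i') x).trans ?_
  rw [Finset.sum_apply, Finset.sum_apply, Finset.mul_sum, map_sum]
  refine Finset.sum_congr rfl fun l _ => ?_
  refine Eq.trans ?_ (D.I4_blk_conv ρ (q := D.kap (γ l) - D.fib.del) (hfin l) i i' x).symm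
  simp only [I4_U_cancel', I4_blk_asm]

end Iw

end Pool.Agent.MP_4d0c14_b

end

section

/-! Either the quotient seminorm is a norm, or the image of the Hecke operators is dense. -/

namespace Pool.Agent.MP_4d0c14_b

open scoped Matrix Kronecker TensorProduct

/-- `ρ ⊗ π` has an invariant ultrametric norm. -/
def NormOn {G E ι₁ W : Type} [Group G] [NormedField E] [Fintype ι₁] [DecidableEq ι₁]
    [AddCommGroup W] [Module E W] (ρ : G →* Matrix ι₁ ι₁ E) (π : Representation E G W) : Prop :=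
  ∃ N : Seminorm E ((ι₁ → E) ⊗[E] W), (∀ x, N x = 0 → x = 0) ∧
    (∀ x y, N (x + y) ≤ max (N x) (N y)) ∧
    ∀ g x, N (TensorProduct.map (Matrix.toLin' (ρ g)) (π g) x) = N x

theorem I5_quot {G E κ X : Type} [Group G] [NontriviallyNormedField E] [IsUltrametricDist E]
    [Fintype κ] [AddCommGroup X] [Module E X] (p : (G →₀ (κ → E)) →ₗ[E] X)
    (hs : Function.Surjective p) (T : G → X → X)
    (hT : ∀ g z, p (Finsupp.mapDomain (g * ·) z) = T g (p z)) :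
    ∃ N : Seminorm E X, (∀ x y, N (x + y) ≤ max (N x) (N y)) ∧ (∀ g x, N (T g x) = N x) ∧
      ∀ x, N x = 0 → ∀ ε : ℝ, 0 < ε → ∃ z, p z = x ∧ ∀ g, ‖z g‖ ≤ ε := by
  let A : X → Set ℝ := fun x => {r | ∃ z, p z = x ∧ ∀ g, ‖z g‖ ≤ r}
  have hne : ∀ x, (A x).Nonempty := by
    intro x
    obtain ⟨z, rfl⟩ := hs x
    refine ⟨∑ g ∈ z.support, ‖z g‖, z, rfl, fun g => ?_⟩
    by_cases hg : z g = 0
    · rw [hg, norm_zero]
      exact Finset.sum_nonneg fun _ _ => norm_nonneg _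
    · exact Finset.single_le_sum (f := fun g => ‖z g‖) (fun _ _ => norm_nonneg _)
        (Finsupp.mem_support_iff.2 hg)
  have hpos : ∀ x, ∀ r ∈ A x, 0 ≤ r := by
    rintro x r ⟨z, -, hz⟩
    exact (norm_nonneg _).trans (hz 1)
  have hbd : ∀ x, BddBelow (A x) := fun x => ⟨0, hpos x⟩
  have hnn : ∀ x, 0 ≤ sInf (A x) := fun x => le_csInf (hne x) (hpos x)
  have hlt : ∀ x r, sInf (A x) < r → r ∈ A x := by
    intro x r hr
    obtain ⟨s, ⟨z, hz, hz'⟩, hsr⟩ := exists_lt_of_csInf_lt (hne x) hr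
    exact ⟨z, hz, fun g => (hz' g).trans hsr.le⟩
  have h0 : sInf (A 0) = 0 :=
    le_antisymm (csInf_le (hbd 0) ⟨0, map_zero _, fun g => by simp⟩) (hnn 0)
  have hmax : ∀ x y, sInf (A (x + y)) ≤ max (sInf (A x)) (sInf (A y)) := by
    intro x y
    refine le_of_forall_gt_imp_ge_of_dense fun r hr => csInf_le (hbd _) ?_
    obtain ⟨z, hz, hz'⟩ := hlt x r ((le_max_left _ _).trans_lt hr)
    obtain ⟨u, hu, hu'⟩ := hlt y r ((le_max_right _ _).trans_lt hr)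
    refine ⟨z + u, by rw [map_add, hz, hu], fun g => ?_⟩
    rw [Finsupp.add_apply]
    exact (IsUltrametricDist.norm_add_le_max _ _).trans (max_le (hz' g) (hu' g))
  have hsm : ∀ (a : E) x, sInf (A (a • x)) ≤ ‖a‖ * sInf (A x) := by
    intro a x
    by_cases ha : a = 0
    · rw [ha, zero_smul, h0, norm_zero, zero_mul]
    have ha' : 0 < ‖a‖ := norm_pos_iff.2 ha
    rw [← div_le_iff₀' ha']
    refine le_csInf (hne x) ?_
    rintro r ⟨z, hz, hz'⟩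
    rw [div_le_iff₀' ha']
    refine csInf_le (hbd _) ⟨a • z, by rw [map_smul, hz], fun g => ?_⟩
    rw [Finsupp.smul_apply, norm_smul]
    exact mul_le_mul_of_nonneg_left (hz' g) ha'.le
  have hact : ∀ g x, A x ⊆ A (T g x) := by
    rintro g x r ⟨z, rfl, hz⟩
    refine ⟨_, hT g z, fun h => ?_⟩
    have := Finsupp.mapDomain_apply (mul_right_injective g) z (g⁻¹ * h)
    rw [mul_inv_cancel_left] at this
    rw [this]
    exact hz _
  have hinv : ∀ g x, T g⁻¹ (T g x) = x := by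
    intro g x
    obtain ⟨z, rfl⟩ := hs x
    rw [← hT, ← hT, ← Finsupp.mapDomain_comp]
    congr 1
    exact (Finsupp.mapDomain_congr fun h _ => by simp).trans Finsupp.mapDomain_id
  refine ⟨Seminorm.ofSMulLE (fun x => sInf (A x)) h0 (fun x y => (hmax x y).trans
    (max_le (le_add_of_nonneg_right (hnn y)) (le_add_of_nonneg_left (hnn x)))) hsm, hmax,
    fun g x => ?_, fun x hx ε hε => hlt x ε ?_⟩
  · change sInf (A _) = sInf (A x)
    congr 1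
    refine subset_antisymm ?_ (hact g x)
    have := hact g⁻¹ (T g x)
    rwa [hinv] at this
  · change sInf (A x) = 0 at hx
    rwa [hx]

section Alg

variable {G E ι ι₁ W : Type} [Group G] [Field E] [Fintype ι] [DecidableEq ι] [Fintype ι₁]
  [DecidableEq ι₁] (ρ : G →* Matrix ι₁ ι₁ E) [AddCommGroup W] [Module E W]

/-- The representation on column vectors. -/
noncomputable def I5_rep : Representation E G (ι₁ → E) :=
  (Matrix.toLinAlgEquiv' : Matrix ι₁ ι₁ E ≃ₐ[E] _).toMonoidHom.comp ρ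

theorem I5_rep_apply (g : G) : I5_rep ρ g = Matrix.toLin' (ρ g) := rfl

/-- The presentation map. -/
noncomputable def I5_pv (π : Representation E G W) (w : ι → W) :
    (G →₀ (ι₁ × ι → E)) →ₗ[E] (ι₁ → E) ⊗[E] W :=
  Finsupp.lsum E fun g => Fintype.linearCombination E fun c : ι₁ × ι =>
    (ρ g *ᵥ Pi.single c.1 1) ⊗ₜ[E] π g (w c.2)

omit [DecidableEq ι] in
theorem I5_pv_single (π : Representation E G W) (w : ι → W) (g : G) (z : ι₁ × ι → E) :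
    I5_pv ρ π w (Finsupp.single g z) =
      ∑ c, z c • (ρ g *ᵥ Pi.single c.1 1) ⊗ₜ[E] π g (w c.2) := by
  rw [I5_pv, Finsupp.lsum_single, Fintype.linearCombination_apply]

omit [DecidableEq ι] in
theorem I5_pv_act (π : Representation E G W) (w : ι → W) (g : G) (z : G →₀ (ι₁ × ι → E)) :
    I5_pv ρ π w (Finsupp.mapDomain (g * ·) z) =
      TensorProduct.map (Matrix.toLin' (ρ g)) (π g) (I5_pv ρ π w z) := by
  induction z using Finsupp.induction_linear with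
  | zero => simp only [Finsupp.mapDomain_zero, map_zero]
  | add a b ha hb => simp only [Finsupp.mapDomain_add, map_add, ha, hb]
  | single h v =>
    rw [Finsupp.mapDomain_single, I5_pv_single, I5_pv_single, map_sum]
    refine Finset.sum_congr rfl fun c _ => ?_
    rw [map_smul, TensorProduct.map_tmul, Matrix.toLin'_apply, Matrix.mulVec_mulVec, map_mul,
      map_mul, Module.End.mul_apply]

theorem I5_pv_surj (π : Representation E G W) (hirr : π.IsIrreducible) (w : ι → W) {a : ι}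
    (ha : w a ≠ 0) : Function.Surjective (I5_pv ρ π w) := by
  have htop : Submodule.span E (Set.range fun g => π g (w a)) = ⊤ := by
    refine MP_4d0c14_nt.SF_irr π hirr _ (fun g u hu => ?_) (Submodule.subset_span ⟨1, by simp⟩) ha
    have : Submodule.span E (Set.range fun g => π g (w a)) ≤
        (Submodule.span E (Set.range fun g => π g (w a))).comap (π g) := by
      rw [Submodule.span_le]
      rintro _ ⟨h, rfl⟩
      exact Submodule.subset_span ⟨g * h, by simp⟩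
    exact this hu
  rw [← LinearMap.range_eq_top, eq_top_iff]
  rintro x -
  induction x using TensorProduct.induction_on with
  | zero => exact zero_mem _
  | add a b ha hb => exact add_mem ha hb
  | tmul v u =>
    have : Submodule.span E (Set.range fun g => π g (w a)) ≤
        (LinearMap.range (I5_pv ρ π w)).comap (TensorProduct.mk E (ι₁ → E) W v) := by
      rw [Submodule.span_le]
      rintro _ ⟨h, rfl⟩
      refine ⟨Finsupp.single h fun c => if c.2 = a then (ρ h⁻¹ *ᵥ v) c.1 else 0, ?_⟩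
      have e : v = ∑ i, (ρ h⁻¹ *ᵥ v) i • ρ h *ᵥ Pi.single i 1 := by
        simp only [← Matrix.mulVec_smul, ← Matrix.mulVec_sum]
        rw [← pi_eq_sum_univ' (ρ h⁻¹ *ᵥ v), Matrix.mulVec_mulVec, ← map_mul, mul_inv_cancel,
          map_one, Matrix.one_mulVec]
      rw [I5_pv_single, Fintype.sum_prod_type, TensorProduct.mk_apply]
      conv_rhs => rw [e, TensorProduct.sum_tmul]
      refine Finset.sum_congr rfl fun i _ => ?_
      rw [Finset.sum_eq_single a (fun b _ hb => by simp [hb]) (by simp), if_pos rfl,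
        TensorProduct.smul_tmul']
    exact this (by rw [htop]; trivial)

/-- Evaluation of tensors as functions on the group. -/
noncomputable def I5_psi (ev : W →ₗ[E] G → ι → E) :
    (ι₁ → E) ⊗[E] W →ₗ[E] G → ι₁ × ι → E :=
  TensorProduct.lift (LinearMap.mk₂ E (fun v f u c => v c.1 * ev f u c.2)
    (fun _ _ _ => by ext; simp [add_mul]) (fun _ _ _ => by ext; simp [mul_assoc])
    (fun _ _ _ => by ext; simp [mul_add]) (fun _ _ _ => by ext; simp [mul_left_comm]))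

theorem I5_psi_pv (π : Representation E G W) (w : ι → W) (ev : W →ₗ[E] G → ι → E)
    (hev : ∀ g w u, ev (π g w) u = ev w (u * g)) (φ : G → Matrix ι ι E)
    (hw : ∀ a u, ev (w a) u = φ u *ᵥ Pi.single a 1) (z : G →₀ (ι₁ × ι → E)) (u : G) :
    I5_psi ev (I5_pv ρ π w z) u = z.sum fun g v => (ρ g ⊗ₖ φ (u * g)) *ᵥ v := by
  induction z using Finsupp.induction_linear with
  | zero => simp
  | add a b ha hb =>
    rw [map_add, map_add, Pi.add_apply, ha, hb, Finsupp.sum_add_index' (by simp)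
      (fun _ _ _ => Matrix.mulVec_add _ _ _)]
  | single h v =>
    rw [Finsupp.sum_single_index (by simp), I5_pv_single, map_sum]
    ext c
    simp [I5_psi, hev, hw, Matrix.mulVec, dotProduct, Finset.sum_apply, Pi.single_apply, mul_comm]

end Alg

namespace Iw

variable {G E ι ι₁ W : Type} [Group G] [NontriviallyNormedField E] [IsUltrametricDist E]
  [Fintype ι] [DecidableEq ι] (D : Iw G E ι) [Fintype ι₁] [DecidableEq ι₁]
  (ρ : G →* Matrix ι₁ ι₁ E) [AddCommGroup W] [Module E W]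

theorem norm_or_dense [Nonempty ι] (hB : (D.tfib ρ).Bdd) {d : ℕ} {γ : Fin d → G} (hγ : D.Gen γ)
    (π : Representation E G W) (hirr : π.IsIrreducible) (ev : W →ₗ[E] G → ι → E)
    (hinj : Function.Injective ev) (hev : ∀ g w u, ev (π g w) u = ev w (u * g))
    (hphi : ∀ v : ι → E, ∃ w, ∀ u, ev w u = D.phi u *ᵥ v)
    (hsm : ∀ T : Finset W,
      Submodule.span E {A | ∃ k, (∀ w ∈ T, π k w = w) ∧ A = ρ k} = ⊤) :
    NormOn ρ π ∨ (D.tfib ρ).Dense fun i => D.tker ρ (γ i) := by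
  classical
  choose w hw using fun a : ι => hphi (Pi.single a 1)
  obtain ⟨a⟩ := ‹Nonempty ι›
  have ha : w a ≠ 0 := fun h => by
    have := congrFun (hw a 1) a
    rw [h, D.phi_one] at this
    simp at this
  obtain ⟨N, h1, h2, h3⟩ := I5_quot (I5_pv ρ π w) (I5_pv_surj ρ π hirr w ha) _ (I5_pv_act ρ π w)
  let K : Submodule E ((ι₁ → E) ⊗[E] W) :=
    { carrier := {x | N x = 0}
      add_mem' := fun {a b} (ha : N a = 0) (hb : N b = 0) =>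
        le_antisymm ((h1 a b).trans (by rw [ha, hb, max_self])) (apply_nonneg N _)
      zero_mem' := map_zero N
      smul_mem' := fun c x (hx : N x = 0) => by
        change N (c • x) = 0
        rw [map_smul_eq_mul, hx, mul_zero] }
  have hsm' : ∀ T : Finset W,
      Submodule.span E {A | ∃ k, (∀ w ∈ T, π k w = w) ∧ A = I5_rep ρ k} = ⊤ := by
    intro T
    have h := congrArg (Submodule.map (Matrix.toLin' (R := E) (m := ι₁) (n := ι₁)).toLinearMap)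
      (hsm T)
    rw [Submodule.map_span, Submodule.map_top, LinearEquiv.range] at h
    rw [eq_top_iff, ← h]
    refine Submodule.span_mono ?_
    rintro _ ⟨_, ⟨k, hk, rfl⟩, rfl⟩
    exact ⟨k, hk, rfl⟩
  rcases MP_4d0c14_nt.prasad (I5_rep ρ) π hirr hsm' K
    (fun g x (hx : N x = 0) => (h2 g x).trans hx) with h | h
  · refine Or.inl ⟨N, fun x hx => ?_, h1, h2⟩
    have : x ∈ K := hx
    rwa [h] at this
  refine Or.inr fun ε hε => ?_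
  obtain ⟨C, hC, hμ⟩ := hB
  have hx : ∀ c : ι₁ × ι, N (I5_pv ρ π w (Finsupp.single 1 (Pi.single c 1))) = 0 := fun c =>
    show _ ∈ K by rw [h]; trivial
  choose z hz hz' using fun c => h3 _ (hx c) (ε / C) (div_pos hε hC)
  obtain ⟨de, -, df⟩ := Fib.del_ker (D := D.tfib ρ)
  let Y : ι₁ × ι → G → G → Matrix (ι₁ × ι) (ι₁ × ι) E := fun c g x =>
    (D.tfib ρ).del (g⁻¹ * x) * Matrix.vecMulVec (z c g) (Pi.single c 1)
  have Yf : ∀ c, (D.tfib ρ).Fin0 (∑ g ∈ (z c).support, Y c g) := fun c =>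
    Fib.Fin0.sum fun g _ => df.translate _ _
  have Sf : (D.tfib ρ).Fin0 (∑ c, ∑ g ∈ (z c).support, Y c g) := Fib.Fin0.sum fun c _ => Yf c
  have Se : (D.tfib ρ).Eqv (∑ c, ∑ g ∈ (z c).support, Y c g) :=
    Fib.Eqv.sum fun c _ => Fib.Eqv.sum fun g _ => de.translate _ _
  have hc : ∀ c u, D.tpmap ρ (∑ g ∈ (z c).support, Y c g) u =
      Matrix.vecMulVec (((1 : Matrix ι₁ ι₁ E) ⊗ₖ D.phi u) *ᵥ Pi.single c 1) (Pi.single c 1) := by
    intro c u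
    have e := I5_psi_pv ρ π w ev hev D.phi hw (z c) u
    rw [hz, I5_psi_pv ρ π w ev hev D.phi hw, Finsupp.sum_single_index (by simp), map_one,
      mul_one] at e
    have e' : ∀ (T : Finset G) (v : G → ι₁ × ι → E) (y : ι₁ × ι → E),
        Matrix.vecMulVec (∑ g ∈ T, v g) y = ∑ g ∈ T, Matrix.vecMulVec (v g) y := by
      intro T v y
      ext i j
      simp [Matrix.sum_apply, Matrix.vecMulVec_apply, Finset.sum_mul]
    rw [D.tpmap_sum ρ fun g _ => df.translate _ _, e, Finsupp.sum, e']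
    refine Finset.sum_congr rfl fun g _ => ?_
    rw [D.tpmap_translate ρ de df, D.tpmap_del, ← Matrix.mul_kronecker_mul, mul_one, one_mul,
      Matrix.mul_vecMulVec]
  obtain ⟨A, hA, hA'⟩ := D.tpresentation ρ hγ (de.sub Se) (df.sub Sf) fun u => by
    rw [D.tpmap_sub ρ df Sf, D.tpmap_sum ρ fun c _ => Yf c, D.tpmap_del, sub_eq_zero]
    ext i j
    simp [hc, Matrix.sum_apply, Matrix.vecMulVec_apply, Pi.single_apply]
  refine ⟨A, hA, fun x => ?_⟩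
  have e := congrFun hA' x
  rw [Pi.sub_apply, Finset.sum_apply, Finset.sum_apply] at e
  rw [← e, sub_sub_cancel]
  refine MLe.sum hε.le fun c _ => ?_
  rw [Finset.sum_apply]
  refine MLe.sum hε.le fun g _ => ?_
  have b1 : MLe C ((D.tfib ρ).del (g⁻¹ * x)) := by
    unfold Fib.del
    split_ifs with hm
    · exact hμ _ ((D.tfib ρ).H.inv_mem hm)
    · exact MLe.zero hC.le
  have b2 : MLe (ε / C) (Matrix.vecMulVec (z c g) (Pi.single c (1 : E))) := fun i j => by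
    rw [Matrix.vecMulVec_apply, Pi.single_apply]
    split_ifs
    · rw [mul_one]
      exact (norm_le_pi_norm _ i).trans (hz' c g)
    · rw [mul_zero, norm_zero]
      exact (div_pos hε hC).le
  have b3 := b1.mul b2 hC.le (div_pos hε hC).le
  rwa [mul_div_cancel₀ _ hC.ne'] at b3

end Iw

end Pool.Agent.MP_4d0c14_b

end

section

/-! Boundedness, Burnside hypotheses and transport of invariant norms. -/

namespace Pool.Agent.MP_4d0c14_b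

open scoped Matrix Kronecker TensorProduct

theorem NormOn.of_equiv {G E ι₁ W W' : Type} [Group G] [NormedField E] [Fintype ι₁]
    [DecidableEq ι₁] [AddCommGroup W] [Module E W] [AddCommGroup W'] [Module E W']
    {ρ : G →* Matrix ι₁ ι₁ E} {π : Representation E G W} {π' : Representation E G W'}
    (e : W ≃ₗ[E] W') (he : ∀ g w, e (π g w) = π' g (e w)) (h : NormOn ρ π') : NormOn ρ π := by
  obtain ⟨N, h0, h1, h2⟩ := h
  refine ⟨N.comp (e.lTensor (ι₁ → E)).toLinearMap, fun x hx => ?_, fun x y => ?_, fun g x => ?_⟩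
  · exact (e.lTensor (ι₁ → E)).map_eq_zero_iff.1 (h0 _ hx)
  · simp only [Seminorm.comp_apply, map_add]
    exact h1 _ _
  · simp only [Seminorm.comp_apply]
    rw [← h2 g ((e.lTensor (ι₁ → E)).toLinearMap x)]
    congr 1
    induction x using TensorProduct.induction_on with
    | zero => simp
    | tmul a b => simp [he]
    | add a b ha hb => simp only [map_add, ha, hb]

theorem isIrreducible_of_equiv {G E W W' : Type} [Group G] [Field E] [AddCommGroup W]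
    [Module E W] [AddCommGroup W'] [Module E W'] {π : Representation E G W}
    {π' : Representation E G W'} (e : W ≃ₗ[E] W') (he : ∀ g w, e (π g w) = π' g (e w))
    (h : π.IsIrreducible) : π'.IsIrreducible := by
  have he' : ∀ g w, e.symm (π' g w) = π g (e.symm w) := fun g w => by
    rw [e.symm_apply_eq, he, e.apply_symm_apply]
  let f : Subrepresentation π' ≃o Subrepresentation π :=
    { toFun := fun U => ⟨U.toSubmodule.comap e.toLinearMap, fun g v hv => by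
        change e (π g v) ∈ U.toSubmodule
        rw [he]
        exact U.apply_mem_toSubmodule g hv⟩
      invFun := fun U => ⟨U.toSubmodule.comap e.symm.toLinearMap, fun g v hv => by
        change e.symm (π' g v) ∈ U.toSubmodule
        rw [he']
        exact U.apply_mem_toSubmodule g hv⟩
      left_inv := fun U => Subrepresentation.toSubmodule_injective (by ext v; simp)
      right_inv := fun U => Subrepresentation.toSubmodule_injective (by ext v; simp)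
      map_rel_iff' := fun {U V} =>
        Submodule.comap_le_comap_iff_of_surjective (f := e.toLinearMap) e.surjective }
  exact f.isSimpleOrder_iff.2 h

theorem NormOn.hasInvariantNorm {n N : ℕ} {F E ι : Type} [Field F] [NormedField E] [Fintype ι]
    {κ : ι → F →+* E} {a : ι → Fin n → ℤ} {e : algSpace κ a ≃ₗ[E] (Fin N → E)}
    {ρ : GL (Fin n) F →* Matrix (Fin N) (Fin N) E} (he : IsModel κ a e ρ)
    (B : Rep E (GL (Fin n) F)) (h : NormOn ρ B.ρ) : HasInvariantNorm (algRep κ a) B := by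
  obtain ⟨M, h0, h1, h2⟩ := h
  have key : ∀ g (x : algSpace κ a ⊗[E] B.V), e.rTensor B.V ((algR κ a).tprod B.ρ g x) =
      TensorProduct.map (Matrix.toLin' (ρ g)) (B.ρ g) (e.rTensor B.V x) := fun g x => by
    induction x using TensorProduct.induction_on with
    | zero => simp
    | tmul a b => simp [he g]
    | add a b ha hb => simp only [map_add, ha, hb]
  refine ⟨fun x => M (e.rTensor B.V x), fun x => apply_nonneg M _,
    fun x hx => (e.rTensor B.V).map_eq_zero_iff.1 (h0 _ hx), fun c x => ?_, fun x y => ?_,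
    fun g x => (congrArg M (key g x)).trans (h2 g _)⟩
  · exact (congrArg M (map_smul (e.rTensor B.V) c x)).trans (map_smul_eq_mul M c _)
  · exact (congrArg M (map_add (e.rTensor B.V) x y)).le.trans (h1 _ _)

namespace TypeData

variable {n k m N : ℕ} {F E ι : Type} [NormedField F] [IsUltrametricDist F] [ProperSpace F]
  [NormedField E] [Fintype ι] (D : TypeData n k m F E) {r : ℝ} (hr : D.Good r) (ϖ : Fˣ)
  (hϖ : ‖(ϖ : F)‖ < 1) {κ : ι → F →+* E} {a : ι → Fin n → ℤ}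
  {ρ : GL (Fin n) F →* Matrix (Fin N) (Fin N) E}

omit [IsUltrametricDist F] [ProperSpace F] in
theorem nonempty_of_irr (h : (indRep D).ρ.IsIrreducible) : Nonempty (Fin m) := by
  by_contra h0
  have := not_nonempty_iff.1 h0
  have : Subsingleton (indRep D).V := inferInstanceAs (Subsingleton (indSpace D))
  exact bot_ne_top (α := Subrepresentation (indRep D).ρ)
    (Subrepresentation.toSubmodule_injective (Subsingleton.elim _ _))

theorem tfib_bdd [IsUltrametricDist E] (ok : AlgOK κ a ρ) (hκ : ∀ σ x, ‖κ σ x‖ = ‖x‖)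
    (hcent : ‖((D.omega fun _ => ϖ : Eˣ) : E)‖ * ‖(ϖ : F)‖ ^ (∑ σ, ∑ i, a σ i) = 1) :
    ((D.iw hr ϖ hϖ).tfib ρ).Bdd := by
  obtain ⟨C, hC, h1⟩ := D.hh_bnd hr ϖ hϖ
  obtain ⟨C₁, hC₁, h2⟩ := ok.bdd hκ C
  obtain ⟨C₂, hC₂, h3⟩ := D.lam_bdd C
  refine ⟨C₁ * C₂, mul_pos hC₁ hC₂, fun h hh => ?_⟩
  obtain ⟨e, he⟩ := h1 h hh
  obtain ⟨g, hg, hb, rfl⟩ : ∃ g ∈ D.HH hr, Bnd C g ∧ h = dg (fun _ => ϖ ^ (-e)) * g := by
    refine ⟨_, (D.HH hr).mul_mem (D.scalar_mem hr _).1 hh, he, ?_⟩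
    rw [← mul_assoc, ← dg_mul, zpow_neg]
    exact (one_mul h).symm.trans (congrArg (· * h)
      (dg_one.symm.trans (congrArg dg (funext fun _ => (inv_mul_cancel _).symm))))
  have h4 : MLe C₂ (D.lamF g) := by
    obtain ⟨j, hj, _, X, h5, h6, h7⟩ := hg
    have h8 : (j : Matrix (Fin n) (Fin n) F) = D.dpart g := by
      rw [h7, D.dpart_levi_mul (D.levi _ hj), D.dpart_add, h5, add_zero, ← Units.val_one,
        D.dpart_unip isUnip_one, mul_one]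
    have h9 : ((j⁻¹ : GL (Fin n) F) : Matrix (Fin n) (Fin n) F) =
        (1 + X) * ((g⁻¹ : GL (Fin n) F) : Matrix (Fin n) (Fin n) F) := by
      rw [Units.eq_mul_inv_iff_mul_eq, h7, Units.inv_mul_cancel_left]
    rw [D.lamF_eq hj h8, ← D.lamF_of_mem hj]
    refine h3 j hj (bnd_iff.2 ⟨fun a c => ?_, ?_⟩)
    · rw [h8, dpart, Matrix.of_apply]
      split_ifs
      · exact (hb a c).1
      · exact norm_zero.le.trans hC.le
    · rw [h9, ← one_mul C]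
      exact (MLe.one.add ((Bd.mle D h6).mono hr.2.1.le)).mul (bnd_iff.1 hb).2 zero_le_one hC.le
  have h5 : ‖chi κ a (fun _ => ϖ ^ (-e))‖ * ‖(D.omega fun _ => ϖ ^ (-e) : E)‖ = 1 := by
    have h6 : (D.omega fun _ => ϖ ^ (-e)) = D.omega (fun _ => ϖ) ^ (-e) := map_zpow D.omega _ _
    have h7 : (‖(ϖ : F)‖) ≠ 0 := norm_ne_zero_iff.2 ϖ.ne_zero
    have h8 : ‖chi κ a (fun _ => ϖ ^ (-e))‖ = (‖(ϖ : F)‖ ^ ∑ σ, ∑ i, a σ i) ^ (-e) := by
      have h9 : ∀ {β : Type} (s : Finset β) (f : β → ℤ),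
          ‖(ϖ : F)‖ ^ ∑ i ∈ s, f i = ∏ i ∈ s, ‖(ϖ : F)‖ ^ f i := fun s f => by
        classical
        induction s using Finset.induction_on with
        | empty => simp
        | insert x s hx ih => rw [Finset.sum_insert hx, Finset.prod_insert hx, zpow_add₀ h7, ih]
      simp only [chi, norm_prod, norm_zpow, hκ, Units.val_zpow_eq_zpow_val, h9,
        Finset.prod_zpow, zpow_comm _ (-e)]
    rw [h6, h8, Units.val_zpow_eq_zpow_val, norm_zpow, ← mul_zpow, mul_comm, hcent, one_zpow]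
  change MLe _ (ρ _ ⊗ₖ D.lamF _)
  rw [map_mul, (InH.mul D hr (D.scalar_mem hr _).1 hg).2, ok.cen, (D.scalar_mem hr _).2,
    smul_one_mul, smul_one_mul, Matrix.smul_kronecker, Matrix.kronecker_smul, smul_smul]
  have h6 := ((h2 g hb).kron h4).smul (chi κ a (fun _ => ϖ ^ (-e)) * D.omega fun _ => ϖ ^ (-e))
  rwa [norm_mul, h5, one_mul] at h6

theorem burn_conj [CharZero F] [CharZero E] (ok : AlgOK κ a ρ) (p : ℕ) (hp0 : p ≠ 0)
    (hp : ‖(p : F)‖ < 1) (x : GL (Fin n) F) :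
    Submodule.span E {A | ∃ g ∈ (D.iw hr ϖ hϖ).H, x⁻¹ * g * x ∈ (D.iw hr ϖ hϖ).H ∧
      (D.iw hr ϖ hϖ).lam g = 1 ∧ (D.iw hr ϖ hϖ).lam (x⁻¹ * g * x) = 1 ∧ A = ρ g} = ⊤ := by
  obtain ⟨r₁, h1, _, h2⟩ := D.near_mem hr
  obtain ⟨s, h3, h4⟩ := exists_near_conj x h1
  refine top_unique ((ok.burn_near p hp0 hp (lt_min h1 h3)).ge.trans (Submodule.span_mono ?_))
  rintro _ ⟨g, hg, rfl⟩
  have h5 := h2 g (hg.mono (min_le_left _ _))
  have h6 := h2 _ (h4 g (hg.mono (min_le_right _ _)))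
  exact ⟨g, h5.1, h6.1, h5.2, h6.2, rfl⟩

omit [ProperSpace F] in
theorem burn_fix [CharZero F] [CharZero E] (ok : AlgOK κ a ρ) (p : ℕ) (hp0 : p ≠ 0)
    (hp : ‖(p : F)‖ < 1) (T : Finset (indRep D).V) :
    Submodule.span E {A | ∃ g, (∀ w ∈ T, (indRep D).ρ g w = w) ∧ A = ρ g} = ⊤ := by
  classical
  obtain ⟨s, h1, h2⟩ : ∃ s : ℝ, 0 < s ∧ ∀ g, Near s g → ∀ w ∈ T, (indRep D).ρ g w = w := by
    induction T using Finset.induction_on with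
    | empty => exact ⟨1, one_pos, by simp⟩
    | insert w T _ ih =>
      obtain ⟨s, h1, h2⟩ := ih
      obtain ⟨_, ⟨t, h3, h4⟩, _⟩ := (show indSpace D from w).2
      refine ⟨min s t, lt_min h1 h3, fun g hg => Finset.forall_mem_insert _ _ _ |>.2
        ⟨Subtype.ext (funext fun x => h4 g x (hg.mono (min_le_right _ _))),
          h2 g (hg.mono (min_le_left _ _))⟩⟩
  refine top_unique ((ok.burn_near p hp0 hp h1).ge.trans (Submodule.span_mono ?_))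
  rintro _ ⟨g, hg, rfl⟩
  exact ⟨g, h2 g hg, rfl⟩

end TypeData

end Pool.Agent.MP_4d0c14_b

end
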