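import Pool.Agent.Mg.F4d0c14.G0f4b62

section

/-! Direct finiteness for equivariant operators on `C₀(Γ, W)`, `Γ` residually finite. -/

namespace Pool.Agent.MP_4d0c14_b

open scoped ZeroAtInfty

/-- Pure linear algebra: a separating family of stable subspaces of finite codimension. -/
theorem mul_eq_one_symm_of_family {E V σ : Type} [Field E] [AddCommGroup V] [Module E V]
    (N : σ → Submodule E V) (hfin : ∀ i, FiniteDimensional E (V ⧸ N i))
    (hsep : ∀ y, (∀ i, y ∈ N i) → y = 0) (α β : V →ₗ[E] V)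
    (hα : ∀ i, ∀ y ∈ N i, α y ∈ N i) (hβ : ∀ i, ∀ y ∈ N i, β y ∈ N i)
    (h : ∀ y, α (β y) = y) (y : V) : β (α y) = y := by
  rw [← sub_eq_zero]
  refine hsep _ fun i => ?_
  have := hfin i
  have h1 : (N i).mapQ (N i) α (hα i) * (N i).mapQ (N i) β (hβ i) = 1 := by
    refine LinearMap.ext fun z => ?_
    obtain ⟨z, rfl⟩ := (N i).mkQ_surjective z
    simp [Module.End.mul_apply, h]
  have h2 := congrArg (fun f : Module.End E (V ⧸ N i) => f ((N i).mkQ y)) (mul_eq_one_comm.1 h1)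
  simp only [Module.End.mul_apply, Submodule.mkQ_apply, Submodule.mapQ_apply,
    Module.End.one_apply] at h2
  exact (Submodule.Quotient.eq _).1 h2

theorem G1_quot {E V U : Type} [Field E] [AddCommGroup V] [Module E V] [AddCommGroup U]
    [Module E U] [FiniteDimensional E U] (N : Submodule E V) (L : U →ₗ[E] V)
    (h : ∀ z, z ∈ N ⊔ LinearMap.range L) : FiniteDimensional E (V ⧸ N) := by
  refine Module.Finite.of_surjective (N.mkQ.comp L) fun z => ?_
  obtain ⟨z, rfl⟩ := N.mkQ_surjective z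
  obtain ⟨a, ha, b, ⟨w, rfl⟩, rfl⟩ := Submodule.mem_sup.1 (h z)
  refine ⟨w, ?_⟩
  rw [map_add, Submodule.mkQ_apply _ a, (Submodule.Quotient.mk_eq_zero _).2 ha, zero_add]
  rfl

variable {Γ W E : Type} [Group Γ] [TopologicalSpace Γ] [DiscreteTopology Γ]
  [NontriviallyNormedField E] [NormedAddCommGroup W] [NormedSpace E W]

/-- `S` commutes with left translations. -/
def IsEquiv (S : C₀(Γ, W) →L[E] C₀(Γ, W)) : Prop :=
  ∀ (γ : Γ) (y y' : C₀(Γ, W)), (∀ x, y' x = y (γ * x)) → ∀ x, S y' x = S y (γ * x)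

omit [Group Γ] in
theorem G1_tendsto (y : C₀(Γ, W)) : Filter.Tendsto y Filter.cofinite (nhds 0) := by
  have := y.zero_at_infty'
  rwa [Filter.cocompact_eq_cofinite] at this

/-- left translation -/
def G1_tr (γ : Γ) (y : C₀(Γ, W)) : C₀(Γ, W) where
  toFun x := y (γ * x)
  continuous_toFun := continuous_of_discreteTopology
  zero_at_infty' := by
    rw [Filter.cocompact_eq_cofinite]
    exact (G1_tendsto y).comp (mul_right_injective γ).tendsto_cofinite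

theorem G1_tr_apply (γ : Γ) (y : C₀(Γ, W)) (x : Γ) : G1_tr γ y x = y (γ * x) := rfl

theorem exists_translate (γ : Γ) (y : C₀(Γ, W)) : ∃ y' : C₀(Γ, W), ∀ x, y' x = y (γ * x) :=
  ⟨G1_tr γ y, fun _ => rfl⟩

theorem IsEquiv.one : IsEquiv (1 : C₀(Γ, W) →L[E] C₀(Γ, W)) := fun _ _ _ h x => h x

theorem IsEquiv.mul {S T : C₀(Γ, W) →L[E] C₀(Γ, W)} (hS : IsEquiv S) (hT : IsEquiv T) :
    IsEquiv (S * T) := fun γ y y' h x => hS γ (T y) (T y') (hT γ y y' h) x

theorem IsEquiv.add {S T : C₀(Γ, W) →L[E] C₀(Γ, W)} (hS : IsEquiv S) (hT : IsEquiv T) :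
    IsEquiv (S + T) := fun γ y y' h x => by
  change S y' x + T y' x = S y (γ * x) + T y (γ * x)
  rw [hS γ y y' h x, hT γ y y' h x]

theorem IsEquiv.neg {S : C₀(Γ, W) →L[E] C₀(Γ, W)} (hS : IsEquiv S) : IsEquiv (-S) :=
  fun γ y y' h x => by
    change -(S y' x) = -(S y (γ * x))
    rw [hS γ y y' h x]

theorem IsEquiv.sub {S T : C₀(Γ, W) →L[E] C₀(Γ, W)} (hS : IsEquiv S) (hT : IsEquiv T) :
    IsEquiv (S - T) := by
  rw [sub_eq_add_neg]
  exact hS.add hT.neg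

theorem IsEquiv.sum {σ : Type} {s : Finset σ} {S : σ → C₀(Γ, W) →L[E] C₀(Γ, W)}
    (hS : ∀ i ∈ s, IsEquiv (S i)) : IsEquiv (∑ i ∈ s, S i) :=
  Finset.sum_induction S IsEquiv (fun _ _ ha hb => ha.add hb) (fun _ _ _ _ _ => rfl) hS

theorem G1_comm {S : C₀(Γ, W) →L[E] C₀(Γ, W)} (hS : IsEquiv S) (γ : Γ) (y : C₀(Γ, W)) :
    S (G1_tr γ y) = G1_tr γ (S y) :=
  ZeroAtInftyContinuousMap.ext fun x => hS γ y _ (fun _ => rfl) x

theorem IsEquiv.inv {S T : C₀(Γ, W) →L[E] C₀(Γ, W)} (hS : IsEquiv S) (h₁ : S * T = 1)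
    (h₂ : T * S = 1) : IsEquiv T := by
  intro γ y y' h x
  have h1 : S (T y) = y := congrArg (fun f : C₀(Γ, W) →L[E] C₀(Γ, W) => f y) h₁
  have h2 : ∀ z, T (S z) = z := fun z => congrArg (fun f : C₀(Γ, W) →L[E] C₀(Γ, W) => f z) h₂
  have h3 : y' = S (G1_tr γ (T y)) := by
    rw [G1_comm hS, h1]
    exact ZeroAtInftyContinuousMap.ext h
  rw [h3, h2, G1_tr_apply]

omit [Group Γ] in
theorem G1_norm_le (y : C₀(Γ, W)) (x : Γ) : ‖y x‖ ≤ ‖y‖ := y.toBCF.norm_coe_le_norm x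

omit [Group Γ] in
theorem G1_fin (y : C₀(Γ, W)) {ε : ℝ} (hε : 0 < ε) : {x | ε ≤ ‖y x‖}.Finite := by
  have h := (G1_tendsto y).eventually (Metric.ball_mem_nhds (0 : W) hε)
  rw [Filter.eventually_cofinite] at h
  simpa using h

open Classical in
/-- the delta functions -/
noncomputable def G1_d (γ : Γ) : W →ₗ[E] C₀(Γ, W) where
  toFun v :=
    { toFun x := if x = γ then v else 0
      continuous_toFun := continuous_of_discreteTopology
      zero_at_infty' := by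
        rw [Filter.cocompact_eq_cofinite]
        refine tendsto_const_nhds.congr' ?_
        filter_upwards [Filter.eventually_cofinite_ne γ] with x hx
        simp [hx] }
  map_add' v w := ZeroAtInftyContinuousMap.ext fun x => by
    change (if x = γ then v + w else 0) = (if x = γ then v else 0) + (if x = γ then w else 0)
    split_ifs <;> simp
  map_smul' c v := ZeroAtInftyContinuousMap.ext fun x => by
    change (if x = γ then c • v else 0) = c • (if x = γ then v else 0)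
    split_ifs <;> simp

omit [Group Γ] in
open Classical in
theorem G1_d_apply (γ : Γ) (v : W) (x : Γ) :
    G1_d (E := E) γ v x = if x = γ then v else 0 := rfl

omit [Group Γ] in
theorem G1_sum_apply {σ : Type} (s : Finset σ) (f : σ → C₀(Γ, W)) (x : Γ) :
    (∑ i ∈ s, f i) x = ∑ i ∈ s, f i x := by
  classical
  induction s using Finset.induction_on with
  | empty => rfl
  | insert a s ha ih =>
    rw [Finset.sum_insert ha, Finset.sum_insert ha, ← ih]
    rfl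

omit [Group Γ] in
theorem G1_dense (M : Submodule E C₀(Γ, W)) (hM : IsClosed (M : Set C₀(Γ, W)))
    (hd : ∀ γ v, G1_d (E := E) γ v ∈ M) (y : C₀(Γ, W)) : y ∈ M := by
  classical
  refine hM.closure_subset (Metric.mem_closure_iff.2 fun ε hε => ?_)
  have hf := G1_fin y (half_pos hε)
  refine ⟨∑ x ∈ hf.toFinset, G1_d (E := E) x (y x), M.sum_mem fun x _ => hd _ _, ?_⟩
  refine lt_of_le_of_lt ?_ (half_lt_self hε)
  rw [dist_eq_norm, ← ZeroAtInftyContinuousMap.norm_toBCF_eq_norm,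
    BoundedContinuousFunction.norm_le (half_pos hε).le]
  intro x
  change ‖y x - (∑ x ∈ hf.toFinset, G1_d (E := E) x (y x)) x‖ ≤ ε / 2
  rw [G1_sum_apply]
  simp only [G1_d_apply, Finset.sum_ite_eq, Set.Finite.mem_toFinset, Set.mem_ofPred_eq]
  split_ifs with h
  · rw [sub_self, norm_zero]
    exact (half_pos hε).le
  · rw [sub_zero]
    exact (not_le.1 h).le

theorem G1_summable [CompleteSpace W] [IsUltrametricDist W] (H : Subgroup Γ) (g : Γ)
    (y : C₀(Γ, W)) : Summable fun h : H => y (h * g) :=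
  NonarchimedeanAddGroup.summable_of_tendsto_cofinite_zero ((G1_tendsto y).comp
    (Function.Injective.tendsto_cofinite fun _ _ h => Subtype.ext (mul_right_cancel h)))

/-- the sum over a coset -/
noncomputable def G1_av [CompleteSpace W] [IsUltrametricDist W] (H : Subgroup Γ) (g : Γ) :
    C₀(Γ, W) →L[E] W :=
  LinearMap.mkContinuous
    { toFun y := ∑' h : H, y (h * g)
      map_add' y z := (G1_summable H g y).tsum_add (G1_summable H g z)
      map_smul' c y := (G1_summable H g y).tsum_const_smul c } 1 fun y => by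
    rw [one_mul]
    exact IsUltrametricDist.norm_tsum_le_of_forall_le_of_nonneg (norm_nonneg _)
      fun h => G1_norm_le y _

theorem G1_av_apply [CompleteSpace W] [IsUltrametricDist W] (H : Subgroup Γ) (g : Γ)
    (y : C₀(Γ, W)) : G1_av (E := E) H g y = ∑' h : H, y (h * g) := rfl

/-- the closed span of the differences of translates -/
noncomputable def G1_N (E : Type) [NontriviallyNormedField E] [NormedSpace E W]
    (H : Subgroup Γ) : Submodule E C₀(Γ, W) :=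
  (Submodule.span E {z | ∃ n ∈ H, ∃ y : C₀(Γ, W), z = G1_tr n y - y}).topologicalClosure

theorem G1_mem (H : Subgroup Γ) {n : Γ} (hn : n ∈ H) (y : C₀(Γ, W)) :
    G1_tr n y - y ∈ G1_N E H :=
  Submodule.le_topologicalClosure _ (Submodule.subset_span ⟨n, hn, y, rfl⟩)

theorem G1_le (H : Subgroup Γ) (M : Submodule E C₀(Γ, W)) (hM : IsClosed (M : Set C₀(Γ, W)))
    (h : ∀ n ∈ H, ∀ y : C₀(Γ, W), G1_tr n y - y ∈ M) : G1_N E H ≤ M := by
  refine Submodule.topologicalClosure_minimal _ (Submodule.span_le.2 ?_) hM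
  rintro z ⟨n, hn, y, rfl⟩
  exact h n hn y

omit [TopologicalSpace Γ] [DiscreteTopology Γ] in
theorem G1_sep [Group.ResiduallyFinite Γ] (s : Finset Γ) :
    ∃ H : FiniteIndexNormalSubgroup Γ, ∀ x ∈ s, x ∈ H.toSubgroup → x = 1 := by
  classical
  induction s using Finset.induction_on with
  | empty => exact ⟨.ofSubgroup ⊤, by simp⟩
  | insert a s ha ih =>
    obtain ⟨H, hH⟩ := ih
    by_cases h1 : a = 1
    · refine ⟨H, fun x hx hxH => ?_⟩
      rcases Finset.mem_insert.1 hx with rfl | hx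
      · exact h1
      · exact hH x hx hxH
    · obtain ⟨H', hH'⟩ := Group.exists_finiteIndexNormalSubgroup_notMem a h1
      refine ⟨.ofSubgroup (H.toSubgroup ⊓ H'.toSubgroup), fun x hx hxH => ?_⟩
      rcases Finset.mem_insert.1 hx with rfl | hx
      · exact absurd hxH.2 hH'
      · exact hH x hx hxH.1

theorem exists_family [Group.ResiduallyFinite Γ] [CompleteSpace E] [IsUltrametricDist W]
    [FiniteDimensional E W] :
    ∃ (σ : Type) (N : σ → Submodule E C₀(Γ, W)), (∀ i, FiniteDimensional E (C₀(Γ, W) ⧸ N i)) ∧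
      (∀ y, (∀ i, y ∈ N i) → y = 0) ∧
      ∀ S : C₀(Γ, W) →L[E] C₀(Γ, W), IsEquiv S → ∀ i, ∀ y ∈ N i, S y ∈ N i := by
  classical
  have hW : CompleteSpace W := FiniteDimensional.complete E W
  refine ⟨FiniteIndexNormalSubgroup Γ, fun H => G1_N E H.toSubgroup, fun H => ?_, fun y hy => ?_,
    fun S hS H => ?_⟩
  · have hfq : Fintype (Γ ⧸ H.toSubgroup) := Fintype.ofFinite _
    let L : ((Γ ⧸ H.toSubgroup) → W) →ₗ[E] C₀(Γ, W) :=
      ∑ q : Γ ⧸ H.toSubgroup, (G1_d q.out).comp (LinearMap.proj q)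
    have hL : ∀ (q : Γ ⧸ H.toSubgroup) (v : W), L (Pi.single q v) = G1_d (E := E) q.out v := by
      intro q v
      simp only [L, LinearMap.sum_apply, LinearMap.comp_apply, LinearMap.proj_apply]
      rw [Finset.sum_eq_single q]
      · rw [Pi.single_eq_same]
      · intro b _ hb
        rw [Pi.single_eq_of_ne hb, map_zero]
      · intro h
        exact absurd (Finset.mem_univ q) h
    have hcl : IsClosed ((G1_N E H.toSubgroup ⊔ LinearMap.range L : Submodule E C₀(Γ, W)) :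
        Set C₀(Γ, W)) :=
      Submodule.isClosed_sup_finiteDimensional _ _ (Submodule.isClosed_topologicalClosure _)
    have htop := G1_dense _ hcl (by
      intro γ v
      have h1 : ((γ : Γ ⧸ H.toSubgroup).out)⁻¹ * γ ∈ H.toSubgroup :=
        QuotientGroup.eq.1 (QuotientGroup.out_eq' _)
      have h2 : γ * ((γ : Γ ⧸ H.toSubgroup).out)⁻¹ ∈ H.toSubgroup :=
        H.isNormal'.mem_comm h1
      have h3 : G1_tr (γ * ((γ : Γ ⧸ H.toSubgroup).out)⁻¹) (G1_d (E := E) γ v) =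
          G1_d (E := E) (γ : Γ ⧸ H.toSubgroup).out v := by
        refine ZeroAtInftyContinuousMap.ext fun x => ?_
        rw [G1_tr_apply, G1_d_apply, G1_d_apply]
        refine if_congr ?_ rfl rfl
        rw [mul_assoc, mul_eq_left, inv_mul_eq_one, eq_comm]
      have h4 := G1_mem (E := E) H.toSubgroup h2 (G1_d (E := E) γ v)
      rw [h3] at h4
      have h5 := Submodule.sub_mem _ (Submodule.mem_sup_right (S := G1_N E H.toSubgroup)
        (LinearMap.mem_range.2 ⟨_, hL γ v⟩)) (Submodule.mem_sup_left h4)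
      rwa [sub_sub_cancel] at h5)
    exact G1_quot _ L htop
  · refine ZeroAtInftyContinuousMap.ext fun g => ?_
    by_contra hne
    have hpos : 0 < ‖y g‖ := norm_pos_iff.2 hne
    have hf := G1_fin y (half_pos hpos)
    obtain ⟨H, hH⟩ := G1_sep (hf.toFinset.image (· * g⁻¹))
    have hker : G1_N E H.toSubgroup ≤ LinearMap.ker (G1_av (E := E) (W := W) H.toSubgroup g :
        C₀(Γ, W) →ₗ[E] W) := by
      refine G1_le _ _ (G1_av (E := E) (W := W) H.toSubgroup g).isClosed_ker fun n hn z => ?_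
      rw [LinearMap.mem_ker, map_sub, sub_eq_zero]
      change ∑' h : H.toSubgroup, z (n * (h * g)) = ∑' h : H.toSubgroup, z (h * g)
      rw [← (Equiv.mulLeft (⟨n, hn⟩ : H.toSubgroup)).tsum_eq fun h : H.toSubgroup => z (h * g)]
      simp [mul_assoc]
    have h0 : ∑' h : H.toSubgroup, y (h * g) = 0 := hker (hy H)
    rw [(G1_summable H.toSubgroup g y).tsum_eq_add_tsum_ite 1] at h0
    have h1 : ‖∑' h : H.toSubgroup, if h = 1 then 0 else y (h * g)‖ ≤ ‖y g‖ / 2 := by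
      refine IsUltrametricDist.norm_tsum_le_of_forall_le_of_nonneg (half_pos hpos).le fun h => ?_
      split_ifs with hh
      · rw [norm_zero]
        exact (half_pos hpos).le
      · by_contra hlt
        refine hh (Subtype.ext (hH h (Finset.mem_image.2 ⟨h * g, ?_, by simp⟩) h.2))
        rw [Set.Finite.mem_toFinset]
        exact (not_le.1 hlt).le
    rw [← neg_eq_iff_add_eq_zero] at h0
    rw [← h0, norm_neg, OneMemClass.coe_one, one_mul] at h1
    linarith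
  · refine G1_le H.toSubgroup ((G1_N E H.toSubgroup).comap (S : C₀(Γ, W) →ₗ[E] C₀(Γ, W)))
      ((Submodule.isClosed_topologicalClosure _).preimage S.continuous) fun n hn y => ?_
    rw [Submodule.mem_comap, map_sub]
    change S (G1_tr n y) - S y ∈ _
    rw [G1_comm hS]
    exact G1_mem _ hn _

end Pool.Agent.MP_4d0c14_b

end

section

/-! Equivariant one-sided inverses from the density hypothesis. -/

namespace Pool.Agent.MP_4d0c14_b

open scoped ZeroAtInfty Matrix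

section G2_Alg

variable {Γ J E : Type} [Group Γ] [Fintype J] [DecidableEq J] [Field E]

/-- The product of two kernels. -/
noncomputable def G2_mul (k k' : Γ →₀ Matrix J J E) : Γ →₀ Matrix J J E :=
  k.sum fun η A => k'.sum fun η' A' => Finsupp.single (η * η') (A * A')

/-- Evaluation of the operator as an additive function of the kernel. -/
noncomputable def G2_opH (y : Γ → J → E) (γ : Γ) : (Γ →₀ Matrix J J E) →+ (J → E) :=
  AddMonoidHom.mk' (fun k => op k y γ) fun _ _ =>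
    Finsupp.sum_add_index' (fun _ => Matrix.zero_mulVec _) fun _ _ _ => Matrix.add_mulVec _ _ _

omit [DecidableEq J] in
theorem G2_opH_apply (y : Γ → J → E) (γ : Γ) (k : Γ →₀ Matrix J J E) :
    G2_opH y γ k = op k y γ := rfl

omit [DecidableEq J] in
theorem G2_op_single (η : Γ) (A : Matrix J J E) (y : Γ → J → E) (γ : Γ) :
    op (Finsupp.single η A) y γ = A *ᵥ y (γ * η) :=
  Finsupp.sum_single_index (Matrix.zero_mulVec _)

omit [DecidableEq J] in
theorem G2_op_mul (k k' : Γ →₀ Matrix J J E) (y : Γ → J → E) (γ : Γ) :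
    op (G2_mul k k') y γ = op k (op k' y) γ := by
  rw [← G2_opH_apply]
  simp only [G2_mul, Finsupp.sum, map_sum, G2_opH_apply, G2_op_single]
  simp only [op, Finsupp.sum, Matrix.mulVec_sum, Matrix.mulVec_mulVec, mul_assoc]

omit [DecidableEq J] in
theorem G2_mul_apply (k k' : Γ →₀ Matrix J J E) (ζ : Γ) :
    G2_mul k k' ζ = k.sum fun η A => A * k' (η⁻¹ * ζ) := by
  classical
  simp only [G2_mul, Finsupp.sum, Finsupp.finsetSum_apply]
  refine Finset.sum_congr rfl fun η _ => ?_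
  rw [Finset.sum_eq_single (η⁻¹ * ζ)]
  · rw [mul_inv_cancel_left, Finsupp.single_eq_same]
  · intro b _ hb
    refine Finsupp.single_eq_of_ne fun h => hb ?_
    rw [h, inv_mul_cancel_left]
  · intro h
    rw [Finsupp.notMem_support_iff.1 h, Matrix.mul_zero, Finsupp.single_zero, Finsupp.zero_apply]

omit [DecidableEq J] in
theorem G2_mul_apply' (k k' : Γ →₀ Matrix J J E) (ζ : Γ) :
    G2_mul k k' ζ = k'.sum fun η A => k (ζ * η⁻¹) * A := by
  classical
  simp only [G2_mul, Finsupp.sum, Finsupp.finsetSum_apply]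
  rw [Finset.sum_comm]
  refine Finset.sum_congr rfl fun η _ => ?_
  rw [Finset.sum_eq_single (ζ * η⁻¹)]
  · rw [inv_mul_cancel_right, Finsupp.single_eq_same]
  · intro b _ hb
    refine Finsupp.single_eq_of_ne fun h => hb ?_
    rw [h, mul_inv_cancel_right]
  · intro h
    rw [Finsupp.notMem_support_iff.1 h, Matrix.zero_mul, Finsupp.single_zero, Finsupp.zero_apply]

omit [DecidableEq J] in
theorem G2_op_st (k : Γ →₀ Matrix J J E) (y : Γ → J → E) (γ : Γ) :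
    op (st k) y γ = k.sum fun η A => Aᵀ *ᵥ y (γ * η⁻¹) := by
  rw [op, st, Finsupp.sum_mapRange_index (fun _ => Matrix.zero_mulVec _),
    Finsupp.sum_equivMapDomain]
  rfl

omit [Group Γ] [DecidableEq J] in
theorem G2_exists_ker (y : J → Γ → J → E) (hy : ∀ j, (Function.support (y j)).Finite) :
    ∃ r : Γ →₀ Matrix J J E, ∀ η j q, r η j q = y j η q := by
  refine ⟨Finsupp.ofSupportFinite (fun η => Matrix.of fun j q => y j η q) ?_, fun _ _ _ => rfl⟩
  refine (Set.finite_iUnion hy).subset fun η hη => ?_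
  by_contra h
  refine hη ?_
  ext j q
  have : y j η = 0 := by
    by_contra h'
    exact h (Set.mem_iUnion.2 ⟨j, h'⟩)
  simp [this]

omit [DecidableEq J] in
theorem G2_right (a r : Γ →₀ Matrix J J E) (y : J → Γ → J → E) (hr : ∀ η j q, r η j q = y j η q)
    (ζ : Γ) (p j : J) : G2_mul a (st r) ζ p j = op a (y j) ζ⁻¹ p := by
  rw [G2_mul_apply]
  simp only [op, Finsupp.sum, Matrix.sum_apply, Finset.sum_apply, Matrix.mul_apply, st_apply,
    Matrix.transpose_apply, hr, Matrix.mulVec, dotProduct, mul_inv_rev, inv_inv]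

omit [DecidableEq J] in
theorem G2_left (a r : Γ →₀ Matrix J J E) (y : J → Γ → J → E) (hr : ∀ η j q, r η j q = y j η q)
    (ζ : Γ) (j p : J) : G2_mul r a ζ j p = op (st a) (y j) ζ p := by
  rw [G2_mul_apply', G2_op_st]
  simp only [Finsupp.sum, Matrix.sum_apply, Finset.sum_apply, Matrix.mul_apply,
    Matrix.transpose_apply, hr, Matrix.mulVec, dotProduct, mul_comm]

theorem G2_op_err {d : ℕ} (a b : Fin d → Γ →₀ Matrix J J E) (y : Γ → J → E) (γ : Γ) :
    op (Finsupp.single 1 1 - ∑ i, G2_mul (a i) (b i)) y γ =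
      y γ - ∑ i, op (a i) (op (b i) y) γ := by
  rw [← G2_opH_apply, map_sub, map_sum]
  simp only [G2_opH_apply, G2_op_single, G2_op_mul, Matrix.one_mulVec, mul_one]

end G2_Alg

variable {Γ J E : Type} [Group Γ] [TopologicalSpace Γ] [DiscreteTopology Γ] [Fintype J]
  [DecidableEq J] [NontriviallyNormedField E] [IsUltrametricDist E]

theorem c0_coe (y : C₀(Γ, J → E)) : C0 (fun γ => y γ) := by
  intro ε hε
  have h := y.zero_at_infty'
  rw [Filter.cocompact_eq_cofinite, NormedAddGroup.tendsto_nhds_zero] at h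
  exact (Filter.eventually_cofinite.1 (h ε hε)).subset fun γ hγ => not_lt.2 (le_of_lt hγ)

theorem C0.exists_coe {y : Γ → J → E} (h : C0 y) : ∃ y' : C₀(Γ, J → E), ∀ γ, y' γ = y γ := by
  refine ⟨⟨⟨y, continuous_of_discreteTopology⟩, ?_⟩, fun _ => rfl⟩
  rw [Filter.cocompact_eq_cofinite, NormedAddGroup.tendsto_nhds_zero]
  intro ε hε
  refine Filter.eventually_cofinite.2 ((h (ε / 2) (half_pos hε)).subset fun γ hγ => ?_)
  exact (half_lt_self hε).trans_le (not_lt.1 hγ)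

omit [DecidableEq J] [IsUltrametricDist E] in
theorem G2_tendsto (k : Γ →₀ Matrix J J E) (y : C₀(Γ, J → E)) :
    Filter.Tendsto (op k fun η => y η) (Filter.cocompact Γ) (nhds 0) := by
  have h := y.zero_at_infty'
  rw [Filter.cocompact_eq_cofinite] at h ⊢
  have h1 : ∀ η ∈ k.support, Filter.Tendsto (fun γ => k η *ᵥ y (γ * η)) Filter.cofinite
      (nhds 0) := by
    intro η _
    have hc : Continuous fun v : J → E => k η *ᵥ v :=
      Continuous.matrix_mulVec continuous_const continuous_id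
    have h2 := (hc.tendsto 0).comp (h.comp (mul_left_injective η).tendsto_cofinite)
    rw [Matrix.mulVec_zero] at h2
    exact h2
  have h3 := tendsto_finsetSum k.support h1
  rw [Finset.sum_const_zero] at h3
  exact h3

/-- The operator as a linear map. -/
noncomputable def G2_lin (k : Γ →₀ Matrix J J E) : C₀(Γ, J → E) →ₗ[E] C₀(Γ, J → E) where
  toFun y := ⟨⟨op k fun η => y η, continuous_of_discreteTopology⟩, G2_tendsto k y⟩
  map_add' y y' := by
    ext1 γ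
    change op k (fun η => (y + y') η) γ = op k (fun η => y η) γ + op k (fun η => y' η) γ
    simp only [op, Finsupp.sum, ZeroAtInftyContinuousMap.add_apply, Matrix.mulVec_add,
      Finset.sum_add_distrib]
  map_smul' c y := by
    ext1 γ
    change op k (fun η => (c • y) η) γ = c • op k (fun η => y η) γ
    simp only [op, Finsupp.sum, ZeroAtInftyContinuousMap.smul_apply, Matrix.mulVec_smul,
      Finset.smul_sum]

omit [DecidableEq J] in
theorem G2_lin_le (k : Γ →₀ Matrix J J E) {ε : ℝ} (hε : 0 ≤ ε) (h : ∀ η ∈ k.support, MLe ε (k η))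
    (y : C₀(Γ, J → E)) : ‖G2_lin k y‖ ≤ ε * ‖y‖ := by
  have h0 : 0 ≤ ε * ‖y‖ := mul_nonneg hε (norm_nonneg _)
  rw [← ZeroAtInftyContinuousMap.norm_toBCF_eq_norm]
  refine (BoundedContinuousFunction.norm_le h0).2 fun γ => ?_
  change ‖∑ η ∈ k.support, k η *ᵥ y (γ * η)‖ ≤ _
  refine IsUltrametricDist.norm_sum_le_of_forall_le_of_nonneg h0 fun η hη => ?_
  refine ((h η hη).mulVec hε _).trans (mul_le_mul_of_nonneg_left ?_ hε)
  exact y.toBCF.norm_coe_le_norm (γ * η)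

theorem exists_opL (k : Γ →₀ Matrix J J E) : ∃ S : C₀(Γ, J → E) →L[E] C₀(Γ, J → E),
    (∀ y γ, S y γ = op k (fun η => y η) γ) ∧ IsEquiv S ∧
      ∀ ε : ℝ, 0 ≤ ε → (∀ η, MLe ε (k η)) → ‖S‖ ≤ ε := by
  choose C hC0 hC using fun η => MLe.exists_bound (k η)
  have h0 : 0 ≤ ∑ η ∈ k.support, C η := Finset.sum_nonneg fun η _ => (hC0 η).le
  have h1 : ∀ η ∈ k.support, MLe (∑ η ∈ k.support, C η) (k η) := fun η hη =>
    (hC η).mono (Finset.single_le_sum (fun η _ => (hC0 η).le) hη)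
  refine ⟨(G2_lin k).mkContinuous _ (G2_lin_le k h0 h1), fun _ _ => rfl, ?_, fun ε hε h => ?_⟩
  · intro γ y y' hy x
    change op k (fun η => y' η) x = op k (fun η => y η) (γ * x)
    simp only [op, hy, mul_assoc]
  · exact ContinuousLinearMap.opNorm_le_bound _ hε (G2_lin_le k hε fun η _ => h η)

theorem G2_unit {E V : Type} [NontriviallyNormedField E] [NormedAddCommGroup V] [NormedSpace E V]
    [CompleteSpace V] (S : V →L[E] V) (h : ‖S‖ < 1) :
    ∃ U : V →L[E] V, (1 - S) * U = 1 ∧ U * (1 - S) = 1 := by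
  obtain ⟨u, hu⟩ := isUnit_one_sub_of_norm_lt_one h
  exact ⟨(u⁻¹ : Units _), hu ▸ u.mul_inv, hu ▸ u.inv_mul⟩

theorem G2_inv [CompleteSpace E] {d : ℕ} (a b : Fin d → Γ →₀ Matrix J J E)
    (A B : Fin d → C₀(Γ, J → E) →L[E] C₀(Γ, J → E))
    (hA : ∀ i y γ, A i y γ = op (a i) (fun η => y η) γ)
    (hB : ∀ i y γ, B i y γ = op (b i) (fun η => y η) γ)
    (h : ∀ η, MLe (1 / 2) ((Finsupp.single 1 1 - ∑ i, G2_mul (a i) (b i) :
      Γ →₀ Matrix J J E) η)) :
    ∃ U : C₀(Γ, J → E) →L[E] C₀(Γ, J → E), IsEquiv U ∧ (∑ i, A i * B i) * U = 1 ∧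
      U * ∑ i, A i * B i = 1 := by
  obtain ⟨S, hS, hSe, hSn⟩ := exists_opL (Finsupp.single 1 1 - ∑ i, G2_mul (a i) (b i))
  have h1 : ‖S‖ < 1 := (hSn _ (by norm_num) h).trans_lt (by norm_num)
  have h2 : ∑ i, A i * B i = 1 - S := by
    ext1 y
    ext1 γ
    have h3 : ∀ s : Finset (Fin d), (∑ i ∈ s, A i * B i) y γ = ∑ i ∈ s, A i (B i y) γ := by
      intro s
      induction s using Finset.induction_on with
      | empty => rfl
      | insert i s hi ih => rw [Finset.sum_insert hi, Finset.sum_insert hi, ← ih]; rfl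
    change _ = y γ - S y γ
    rw [h3, hS, G2_op_err, sub_sub_cancel]
    refine Finset.sum_congr rfl fun i _ => ?_
    rw [hA]
    congr 1
    funext η
    exact hB i y η
  obtain ⟨U, hU, hU'⟩ := G2_unit (V := C₀(Γ, J → E)) S h1
  rw [h2]
  exact ⟨U, (IsEquiv.one.sub hSe).inv hU hU', hU, hU'⟩

theorem exists_right_inv [CompleteSpace E] {d : ℕ} (a : Fin d → Γ →₀ Matrix J J E)
    (ha : DenseG a) (A : Fin d → C₀(Γ, J → E) →L[E] C₀(Γ, J → E))
    (hA : ∀ i y γ, A i y γ = op (a i) (fun η => y η) γ) :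
    ∃ s : Fin d → C₀(Γ, J → E) →L[E] C₀(Γ, J → E), (∀ i, IsEquiv (s i)) ∧
      ∑ i, A i * s i = 1 := by
  classical
  choose y hy hy' using ha
  choose r hr using fun i => G2_exists_ker (fun j => y j i) fun j => hy j i
  choose B hB hBe _ using fun i => exists_opL (st (r i))
  obtain ⟨U, hU, h1, -⟩ := G2_inv a (fun i => st (r i)) A B hA hB (by
    intro η p j
    refine le_trans (le_of_eq ?_) ((norm_le_pi_norm _ p).trans (hy' j η⁻¹))
    congr 1
    simp only [Finsupp.sub_apply, Finsupp.finsetSum_apply, Matrix.sub_apply, Matrix.sum_apply,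
      Pi.sub_apply, Finset.sum_apply, G2_right _ _ _ (hr _)]
    congr 1
    by_cases h : η = 1
    · subst h
      simp [Matrix.one_apply, Pi.single_apply]
    · simp [h])
  refine ⟨fun i => B i * U, fun i => (hBe i).mul hU, ?_⟩
  rw [← h1]
  ext1 v
  simp only [ContinuousLinearMap.sum_apply, ContinuousLinearMap.mul_apply]

theorem exists_left_inv [CompleteSpace E] {d : ℕ} (a : Fin d → Γ →₀ Matrix J J E)
    (ha : DenseG fun i => st (a i)) (A : Fin d → C₀(Γ, J → E) →L[E] C₀(Γ, J → E))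
    (hA : ∀ i y γ, A i y γ = op (a i) (fun η => y η) γ) :
    ∃ r : Fin d → C₀(Γ, J → E) →L[E] C₀(Γ, J → E), (∀ i, IsEquiv (r i)) ∧
      ∑ i, r i * A i = 1 := by
  classical
  choose y hy hy' using ha
  choose r hr using fun i => G2_exists_ker (fun j => y j i) fun j => hy j i
  choose B hB hBe _ using fun i => exists_opL (r i)
  obtain ⟨U, hU, -, h1⟩ := G2_inv r a B A hB hA (by
    intro η j p
    refine le_trans (le_of_eq ?_) ((norm_le_pi_norm _ p).trans (hy' j η))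
    congr 1
    simp only [Finsupp.sub_apply, Finsupp.finsetSum_apply, Matrix.sub_apply, Matrix.sum_apply,
      Pi.sub_apply, Finset.sum_apply, G2_left _ _ _ (hr _)]
    congr 1
    by_cases h : η = 1
    · subst h
      simp [Matrix.one_apply, Pi.single_apply, eq_comm]
    · simp [h])
  refine ⟨fun i => U * B i, fun i => hU.mul (hBe i), ?_⟩
  rw [← h1]
  ext1 v
  simp only [ContinuousLinearMap.sum_apply, ContinuousLinearMap.mul_apply, map_sum]

end Pool.Agent.MP_4d0c14_b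

end

section

/-! Exactness of the Koszul complex on `c₀(Γ)^J` for one and for two operators. -/

namespace Pool.Agent.MP_4d0c14_b

open scoped ZeroAtInfty

theorem G3_prod_fin {E V : Type} [Field E] [AddCommGroup V] [Module E V] (N : Submodule E V)
    [FiniteDimensional E (V ⧸ N)] : FiniteDimensional E ((V × V) ⧸ N.prod N) := by
  let f : V × V →ₗ[E] (V ⧸ N) × (V ⧸ N) := N.mkQ.prodMap N.mkQ
  have hk : LinearMap.ker f = N.prod N := by
    simp only [f, LinearMap.ker_prodMap, Submodule.ker_mkQ]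
  refine FiniteDimensional.of_injective ((N.prod N).liftQ f hk.ge) ?_
  rw [← LinearMap.ker_eq_bot]
  exact Submodule.ker_liftQ_eq_bot _ _ _ hk.le

theorem G3_two {E V σ : Type} [Field E] [AddCommGroup V] [Module E V]
    (N : σ → Submodule E V) (hfin : ∀ i, FiniteDimensional E (V ⧸ N i))
    (hsep : ∀ y, (∀ i, y ∈ N i) → y = 0) (A₀ A₁ s₀ s₁ r₀ r₁ : V →ₗ[E] V)
    (hA₀ : ∀ i, ∀ y ∈ N i, A₀ y ∈ N i) (hA₁ : ∀ i, ∀ y ∈ N i, A₁ y ∈ N i)
    (hs₀ : ∀ i, ∀ y ∈ N i, s₀ y ∈ N i) (hs₁ : ∀ i, ∀ y ∈ N i, s₁ y ∈ N i)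
    (hr₀ : ∀ i, ∀ y ∈ N i, r₀ y ∈ N i) (hr₁ : ∀ i, ∀ y ∈ N i, r₁ y ∈ N i)
    (hs : ∀ y, A₀ (s₀ y) + A₁ (s₁ y) = y) (hr : ∀ y, r₀ (A₀ y) + r₁ (A₁ y) = y)
    (hc : ∀ y, A₀ (A₁ y) = A₁ (A₀ y)) (y₀ y₁ : V) (hy : A₀ y₀ + A₁ y₁ = 0) :
    ∃ z, y₀ = -A₁ z ∧ y₁ = A₀ z := by
  let d : V × V →ₗ[E] V := A₀.coprod A₁
  let β : V × V →ₗ[E] V × V := (s₀.coprod (-A₁)).prod (s₁.coprod A₀)
  let α : V × V →ₗ[E] V × V :=
    d.prod (r₀ ∘ₗ (LinearMap.snd E V V - s₁ ∘ₗ d) - r₁ ∘ₗ (LinearMap.fst E V V - s₀ ∘ₗ d))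
  have hβ : ∀ v : V × V, β v = (s₀ v.1 - A₁ v.2, s₁ v.1 + A₀ v.2) := fun v => by
    simp [β, sub_eq_add_neg]
  have hα : ∀ v : V × V, α v = (A₀ v.1 + A₁ v.2,
      r₀ (v.2 - s₁ (A₀ v.1 + A₁ v.2)) - r₁ (v.1 - s₀ (A₀ v.1 + A₁ v.2))) := fun v => by
    simp [α, d]
  have key := mul_eq_one_symm_of_family (fun i => (N i).prod (N i))
    (fun i => haveI := hfin i; G3_prod_fin (N i))
    (fun v hv => Prod.ext (hsep _ fun i => (hv i).1) (hsep _ fun i => (hv i).2)) α β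
    (fun i v hv => by
      have h1 : A₀ v.1 + A₁ v.2 ∈ N i := (N i).add_mem (hA₀ i _ hv.1) (hA₁ i _ hv.2)
      rw [hα]
      exact ⟨h1, (N i).sub_mem (hr₀ i _ ((N i).sub_mem hv.2 (hs₁ i _ h1)))
        (hr₁ i _ ((N i).sub_mem hv.1 (hs₀ i _ h1)))⟩)
    (fun i v hv => by
      rw [hβ]
      exact ⟨(N i).sub_mem (hs₀ i _ hv.1) (hA₁ i _ hv.2),
        (N i).add_mem (hs₁ i _ hv.1) (hA₀ i _ hv.2)⟩)
    (fun v => by
      have h1 : A₀ (s₀ v.1 - A₁ v.2) + A₁ (s₁ v.1 + A₀ v.2) = v.1 := by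
        rw [map_sub, map_add, hc]
        conv_rhs => rw [← hs v.1]
        abel
      rw [hβ, hα]
      refine Prod.ext h1 ?_
      simp only [h1]
      rw [add_sub_cancel_left, sub_sub_cancel_left, map_neg, sub_neg_eq_add, hr]) (y₀, y₁)
  rw [hα, hβ] at key
  simp only [hy, map_zero, sub_zero, zero_sub, zero_add] at key
  exact ⟨_, (congrArg Prod.fst key).symm, (congrArg Prod.snd key).symm⟩

variable {Γ J E : Type} [Group Γ] [Group.ResiduallyFinite Γ] [Fintype J]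
  [DecidableEq J] [NontriviallyNormedField E] [IsUltrametricDist E] [CompleteSpace E]

theorem koszul_one (a : Fin 1 → Γ →₀ Matrix J J E) (ha : DenseG a) :
    (∀ y, C0 y → ∃ z, C0 z ∧ op (a 0) z = y) ∧ ∀ z, C0 z → op (a 0) z = 0 → z = 0 := by
  letI : TopologicalSpace Γ := ⊥
  haveI : DiscreteTopology Γ := ⟨rfl⟩
  choose A hA hAe _ using fun i => exists_opL (E := E) (a i)
  obtain ⟨s, hse, hs⟩ := exists_right_inv a ha A hA
  obtain ⟨σ, N, hfin, hsep, hN⟩ := exists_family (Γ := Γ) (W := J → E) (E := E)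
  have hs' : ∀ y, A 0 (s 0 y) = y := fun y => by
    have := congrArg (fun T => T y) hs
    simpa using this
  refine ⟨fun y hy => ?_, fun z hz h0 => ?_⟩
  · obtain ⟨y', hy'⟩ := hy.exists_coe
    refine ⟨fun γ => s 0 y' γ, c0_coe _, funext fun γ => ?_⟩
    rw [← hA, hs', hy']
  · obtain ⟨z', hz'⟩ := hz.exists_coe
    have h1 : A 0 z' = 0 := by
      ext γ : 1
      rw [hA, funext hz', h0]; rfl
    have h2 := mul_eq_one_symm_of_family N hfin hsep (A 0).toLinearMap (s 0).toLinearMap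
      (hN _ (hAe 0)) (hN _ (hse 0)) hs' z'
    simp only [ContinuousLinearMap.coe_coe, h1, map_zero] at h2
    funext γ
    rw [← hz', ← h2]; rfl

theorem koszul_two (a : Fin 2 → Γ →₀ Matrix J J E) (ha : DenseG a)
    (ha' : DenseG fun i => st (a i))
    (hc : ∀ y, C0 y → op (a 0) (op (a 1) y) = op (a 1) (op (a 0) y)) :
    (∀ y, C0 y → ∃ z₀ z₁, C0 z₀ ∧ C0 z₁ ∧ op (a 0) z₀ + op (a 1) z₁ = y) ∧
    (∀ y₀ y₁, C0 y₀ → C0 y₁ → op (a 0) y₀ + op (a 1) y₁ = 0 →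
      ∃ z, C0 z ∧ y₀ = -op (a 1) z ∧ y₁ = op (a 0) z) ∧
    ∃ C : ℝ, 0 < C ∧ ∀ z, C0 z → ∀ M : ℝ, 0 ≤ M → (∀ γ, ‖op (a 0) z γ‖ ≤ M) →
      (∀ γ, ‖op (a 1) z γ‖ ≤ M) → ∀ γ, ‖z γ‖ ≤ C * M := by
  letI : TopologicalSpace Γ := ⊥
  haveI : DiscreteTopology Γ := ⟨rfl⟩
  choose A hA hAe _ using fun i => exists_opL (E := E) (a i)
  obtain ⟨s, hse, hs⟩ := exists_right_inv a ha A hA
  obtain ⟨r, hre, hr⟩ := exists_left_inv a ha' A hA
  obtain ⟨σ, N, hfin, hsep, hN⟩ := exists_family (Γ := Γ) (W := J → E) (E := E)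
  have hA' : ∀ i y, (fun γ => A i y γ) = op (a i) (fun η => y η) := fun i y => funext (hA i y)
  have hs' : ∀ y, A 0 (s 0 y) + A 1 (s 1 y) = y := fun y => by
    have := congrArg (fun T => T y) hs
    simpa [Fin.sum_univ_two] using this
  have hr' : ∀ y, r 0 (A 0 y) + r 1 (A 1 y) = y := fun y => by
    have := congrArg (fun T => T y) hr
    simpa [Fin.sum_univ_two] using this
  have hc' : ∀ y, A 0 (A 1 y) = A 1 (A 0 y) := fun y => by
    ext γ : 1
    rw [hA, hA, hA', hA', hc _ (c0_coe y)]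
  refine ⟨fun y hy => ?_, fun y₀ y₁ h₀ h₁ h => ?_, ‖r 0‖ + ‖r 1‖ + 1, by positivity,
    fun z hz M hM m₀ m₁ γ => ?_⟩
  · obtain ⟨y', hy'⟩ := hy.exists_coe
    refine ⟨fun γ => s 0 y' γ, fun γ => s 1 y' γ, c0_coe _, c0_coe _, funext fun γ => ?_⟩
    rw [Pi.add_apply, ← hA, ← hA, ← hy', ← ZeroAtInftyContinuousMap.add_apply, hs']
  · obtain ⟨y₀', e₀⟩ := h₀.exists_coe
    obtain ⟨y₁', e₁⟩ := h₁.exists_coe
    have h2 : A 0 y₀' + A 1 y₁' = 0 := by
      ext γ : 1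
      rw [ZeroAtInftyContinuousMap.add_apply, hA, hA, funext e₀, funext e₁, ← Pi.add_apply, h]; rfl
    obtain ⟨z, z₀, z₁⟩ := G3_two N hfin hsep (A 0).toLinearMap (A 1).toLinearMap
      (s 0).toLinearMap (s 1).toLinearMap (r 0).toLinearMap (r 1).toLinearMap
      (hN _ (hAe 0)) (hN _ (hAe 1)) (hN _ (hse 0)) (hN _ (hse 1)) (hN _ (hre 0)) (hN _ (hre 1))
      hs' hr' hc' y₀' y₁' h2
    refine ⟨fun γ => z γ, c0_coe _, funext fun γ => ?_, funext fun γ => ?_⟩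
    · rw [← e₀, z₀, Pi.neg_apply, ← hA]; rfl
    · rw [← e₁, z₁, ← hA]; rfl
  · obtain ⟨z', e⟩ := hz.exists_coe
    have nb : ∀ y : C₀(Γ, J → E), (∀ γ, ‖y γ‖ ≤ M) → ‖y‖ ≤ M := fun y hy => by
      rw [← ZeroAtInftyContinuousMap.norm_toBCF_eq_norm]
      exact (BoundedContinuousFunction.norm_le hM).2 hy
    have b₀ : ‖A 0 z'‖ ≤ M := nb _ fun γ => by rw [hA, funext e]; exact m₀ γ
    have b₁ : ‖A 1 z'‖ ≤ M := nb _ fun γ => by rw [hA, funext e]; exact m₁ γ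
    have b₂ : ‖z γ‖ ≤ ‖z'‖ := by
      rw [← e, ← ZeroAtInftyContinuousMap.norm_toBCF_eq_norm]
      exact z'.toBCF.norm_coe_le_norm γ
    have b₃ : ‖z'‖ ≤ ‖r 0‖ * M + ‖r 1‖ * M := by
      conv_lhs => rw [← hr' z']
      exact (norm_add_le _ _).trans (add_le_add ((r 0).le_opNorm_of_le b₀)
        ((r 1).le_opNorm_of_le b₁))
    nlinarith

end Pool.Agent.MP_4d0c14_b

end

section

/-! Restriction of equivariant functions on `G` to a lattice acting freely on `G ⧸ H`. -/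

namespace Pool.Agent.MP_4d0c14_b

open scoped Matrix

theorem HasLat.free {G : Type} [Group G] {H : Subgroup G} (h : HasLat H) :
    Nonempty (FreeLat H) := by
  classical
  obtain ⟨Γ, rf, ⟨T, hT⟩, hfin⟩ := h
  let B : Set Γ := {γ | γ ≠ 1 ∧ ∃ t ∈ T, t⁻¹ * (γ : G) * t ∈ H}
  have hB : B.Finite := by
    refine (T.finite_toSet.biUnion fun t _ =>
      (hfin t).preimage Subtype.val_injective.injOn).subset ?_
    rintro γ ⟨-, t, ht, h⟩
    exact Set.mem_biUnion ht ⟨γ.2, h⟩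
  have := hB.to_subtype
  choose K hK using fun γ : B => Group.exists_finiteIndexNormalSubgroup_notMem γ.1 γ.2.1
  let N₀ : Subgroup Γ := ⨅ γ, (K γ).toSubgroup
  have hN₁ : N₀.FiniteIndex := Subgroup.finiteIndex_iInf fun γ => inferInstance
  have hN₂ : N₀.Normal := Subgroup.normal_iInf_normal fun γ => inferInstance
  let Λ : Subgroup G := N₀.map Γ.subtype
  have free : ∀ x : G, ∀ g ∈ Λ, x⁻¹ * g * x ∈ H → g = 1 := by
    rintro x _ ⟨g, hg, rfl⟩ hx
    obtain ⟨γ, hγ, t, ht, h1⟩ := hT x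
    have h2 := hN₂.conj_mem' g hg ⟨γ, hγ⟩
    by_contra h0
    have h3 : (⟨γ, hγ⟩ : Γ)⁻¹ * g * ⟨γ, hγ⟩ ∈ B := by
      refine ⟨fun h4 => h0 ?_, t, ht, ?_⟩
      · rw [mul_assoc, inv_mul_eq_one, right_eq_mul] at h4
        rw [h4, map_one]
      · convert H.mul_mem (H.mul_mem h1 hx) (H.inv_mem h1) using 1
        simp only [Subgroup.coe_mul, Subgroup.coe_inv, Subgroup.coe_subtype]
        group
    exact hK ⟨_, h3⟩ (Subgroup.mem_iInf.1 h2 _)
  let s : Setoid G := ⟨fun x y => ∃ g ∈ Λ, (g * x)⁻¹ * y ∈ H,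
    fun x => ⟨1, Λ.one_mem, by simp⟩,
    fun ⟨g, hg, h⟩ => ⟨g⁻¹, Λ.inv_mem hg, by convert H.inv_mem h using 1; group⟩,
    fun ⟨g, hg, h⟩ ⟨g', hg', h'⟩ => ⟨g' * g, Λ.mul_mem hg' hg, by
      convert H.mul_mem h h' using 1; group⟩⟩
  have hQ : Finite (Quotient s) := by
    refine Finite.of_surjective
      (fun z : (Γ ⧸ N₀) × T => Quotient.mk s ((z.1.out⁻¹ : Γ) * z.2)) fun q => ?_
    obtain ⟨x, rfl⟩ := Quotient.exists_rep q
    obtain ⟨γ, hγ, t, ht, h1⟩ := hT x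
    obtain ⟨m, hm⟩ := QuotientGroup.mk_out_eq_mul N₀ (⟨γ, hγ⟩ : Γ)⁻¹
    refine ⟨(QuotientGroup.mk (⟨γ, hγ⟩ : Γ)⁻¹, ⟨t, ht⟩), Quotient.sound ⟨m, ⟨m, m.2, rfl⟩, ?_⟩⟩
    rw [hm]
    convert h1 using 1
    simp only [mul_inv_rev, inv_inv, Subgroup.coe_mul, Subgroup.coe_inv]
    group
  let e := Finite.equivFin (Quotient s)
  refine ⟨⟨Λ, ?_, _, fun i => (e.symm i).out, ?_, fun q => ?_⟩⟩
  · rw [Group.residuallyFinite_iff_forall_finiteIndexNormalSubgroup]
    intro g hg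
    have h1 := Group.eq_one_iff_forall_finiteIndexNormalSubroup
      (Subgroup.inclusion (Subgroup.map_subtype_le N₀) g) fun K => hg (K.comap _)
    exact Subtype.ext (congrArg (fun z : Γ => (z : G)) h1)
  · rintro ⟨g, i⟩ ⟨g', i'⟩ h
    have h1 := QuotientGroup.eq.1 h
    have h2 : i = i' := by
      refine e.symm.injective ?_
      rw [← Quotient.out_eq (e.symm i), ← Quotient.out_eq (e.symm i')]
      refine Quotient.sound ⟨(g' : G)⁻¹ * g, Λ.mul_mem (Λ.inv_mem g'.2) g.2, ?_⟩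
      convert h1 using 1
      group
    subst h2
    have h3 := free (e.symm i).out _ (Λ.mul_mem (Λ.inv_mem g.2) g'.2) (by
      convert h1 using 1
      group)
    exact Prod.ext (Subtype.ext (inv_mul_eq_one.1 h3)) rfl
  · obtain ⟨x, rfl⟩ := QuotientGroup.mk_surjective q
    obtain ⟨g, hg, h⟩ := Quotient.mk_out (s := s) x
    refine ⟨(⟨g, hg⟩, e (Quotient.mk s x)), QuotientGroup.eq.2 ?_⟩
    simpa using h

namespace Fib

variable {G E ι : Type} [Group G] [NormedField E] [IsUltrametricDist E] [Fintype ι]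
  [DecidableEq ι] {D : Fib G E ι} (L : FreeLat D.H)

/-- the column `c` of `Y`, as a function on the lattice -/
def res (Y : G → Matrix ι ι E) (c : ι) : L.Γ → Fin L.N × ι → E :=
  fun γ p => Y (γ * L.a p.1) p.2 c

/-- `k` is the matrix of the convolution by `κ` -/
def IsMat (κ : G → Matrix ι ι E) (k : L.Γ →₀ Matrix (Fin L.N × ι) (Fin L.N × ι) E) : Prop :=
  ∀ η p' p, k η p' p = κ (((η : G) * L.a p.1)⁻¹ * L.a p'.1) p'.2 p.2

omit [IsUltrametricDist E] in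
theorem G4_rep (x : G) : ∃ p : L.Γ × Fin L.N, ((p.1 : G) * L.a p.2)⁻¹ * x ∈ D.H := by
  obtain ⟨p, hp⟩ := L.bij.2 (x : G ⧸ D.H)
  exact ⟨p, QuotientGroup.eq.1 hp⟩

omit [IsUltrametricDist E] in
theorem G4_uniq {p q : L.Γ × Fin L.N}
    (h : ((p.1 : G) * L.a p.2)⁻¹ * ((q.1 : G) * L.a q.2) ∈ D.H) : p = q :=
  L.bij.1 (QuotientGroup.eq.2 h)

omit [IsUltrametricDist E] in
theorem G4_fin (T : Finset G) :
    {γ : L.Γ | ∃ b, ∃ t ∈ T, t⁻¹ * ((γ : G) * L.a b) ∈ D.H}.Finite := by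
  choose ρ hρ using G4_rep L
  refine (T.finite_toSet.image fun t => (ρ t).1).subset ?_
  rintro γ ⟨b, t, ht, h⟩
  have h1 := D.H.mul_mem (hρ t) h
  rw [mul_assoc, mul_inv_cancel_left] at h1
  exact ⟨t, ht, congrArg Prod.fst (G4_uniq L (q := (γ, b)) h1)⟩

omit [IsUltrametricDist E] in
theorem G4_eqv {Y : G → Matrix ι ι E} (hY : D.Eqv Y) {z x : G} (h : z⁻¹ * x ∈ D.H) :
    Y x = D.μ (z⁻¹ * x)⁻¹ * Y z := by
  rw [← hY z _ h, mul_inv_cancel_left]

theorem exists_mat {κ : G → Matrix ι ι E} (hκ : D.Fin0 κ) : ∃ k, IsMat L κ k := by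
  classical
  obtain ⟨T, hT⟩ := hκ
  refine ⟨Finsupp.ofSupportFinite (fun η => Matrix.of fun p' p =>
    κ (((η : G) * L.a p.1)⁻¹ * L.a p'.1) p'.2 p.2) ?_, fun _ _ _ => rfl⟩
  refine ((G4_fin L ((Finset.univ ×ˢ T).image fun z => L.a z.1 * z.2)).preimage
    inv_injective.injOn).subset fun η hη => ?_
  by_contra hc
  refine hη (Matrix.ext fun p' p => ?_)
  by_contra h0
  obtain ⟨t, ht, h1⟩ := hT (((η : G) * L.a p.1)⁻¹ * L.a p'.1) fun h => h0 (congrFun (congrFun h p'.2) p.2)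
  refine hc ⟨p'.1, _, Finset.mem_image.2 ⟨(p.1, t), by simpa using ht, rfl⟩, ?_⟩
  convert h1 using 1
  simp only [Subgroup.coe_inv]
  group

theorem IsMat.dual {κ : G → Matrix ι ι E} {k : L.Γ →₀ Matrix (Fin L.N × ι) (Fin L.N × ι) E}
    (h : IsMat L κ k) : IsMat (D := D.dual) L (dK κ) (st k) := by
  intro η p' p
  have h1 := h η⁻¹ p p'
  have e : (((η⁻¹ : L.Γ) : G) * L.a p'.1)⁻¹ * L.a p.1 = (((η : G) * L.a p.1)⁻¹ * L.a p'.1)⁻¹ := by
    simp only [Subgroup.coe_inv]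
    group
  rw [e] at h1
  exact (congrFun (congrFun (st_apply k η) p') p).trans h1

theorem res_conv {κ Y : G → Matrix ι ι E} {k : L.Γ →₀ Matrix (Fin L.N × ι) (Fin L.N × ι) E}
    (h : IsMat L κ k) (hκ : D.Ker κ) (hY : D.Eqv Y) (c : ι) :
    res L (D.conv κ Y) c = op k (res L Y c) := by
  classical
  funext γ p'
  have hi : ∀ z z' : L.Γ × Fin L.N, ((γ : G) * z.1 * L.a z.2)⁻¹ * (γ * z'.1 * L.a z'.2) ∈ D.H →
      z = z' := fun z z' hz => G4_uniq L (by convert hz using 1; group)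
  have key := conv_eq_sum hκ.2.1 hY (γ * L.a p'.1)
    ((k.support ×ˢ Finset.univ).image fun z : L.Γ × Fin L.N => (γ : G) * z.1 * L.a z.2)
    (by
      simp only [Finset.forall_mem_image]
      intro z _ z' _ hz
      rw [hi z z' hz])
    (fun g hg => by
      obtain ⟨z, hz⟩ := G4_rep L ((γ : G)⁻¹ * g)
      refine ⟨_, Finset.mem_image.2 ⟨z, ?_, rfl⟩, by convert hz using 1; group⟩
      simp only [Finset.mem_product, Finset.mem_univ, and_true, Finsupp.mem_support_iff]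
      intro h0
      have h1 : κ (((z.1 : G) * L.a z.2)⁻¹ * L.a p'.1) = 0 := Matrix.ext fun i' i => by
        rw [← h z.1 (p'.1, i') (z.2, i), h0]
        rfl
      have h2 := hκ.2.1 (((z.1 : G) * L.a z.2)⁻¹ * L.a p'.1) _ (D.H.inv_mem hz)
      have e : (((z.1 : G) * L.a z.2)⁻¹ * ((γ : G)⁻¹ * g))⁻¹ *
          (((z.1 : G) * L.a z.2)⁻¹ * L.a p'.1) = g⁻¹ * (γ * L.a p'.1) := by group
      rw [e, h1, Matrix.zero_mul] at h2
      exact hg (by rw [h2, Matrix.zero_mul]))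
  rw [res, key, Finset.sum_image fun z _ z' _ hz => hi z z' (by
    rw [hz, inv_mul_cancel]; exact D.H.one_mem), Finset.sum_product, Matrix.sum_apply, op,
    Finsupp.sum, Finset.sum_apply]
  refine Finset.sum_congr rfl fun η _ => ?_
  rw [Matrix.sum_apply, Matrix.mulVec, dotProduct, Fintype.sum_prod_type]
  refine Finset.sum_congr rfl fun b _ => ?_
  rw [Matrix.mul_apply]
  refine Finset.sum_congr rfl fun i _ => ?_
  have e : ((γ : G) * η * L.a b)⁻¹ * (γ * L.a p'.1) = ((η : G) * L.a b)⁻¹ * L.a p'.1 := by group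
  rw [h η p' (b, i), e]
  rfl

theorem res_inj {Y Y' : G → Matrix ι ι E} (hY : D.Eqv Y) (hY' : D.Eqv Y')
    (h : ∀ c, res L Y c = res L Y' c) : Y = Y' := by
  funext x
  obtain ⟨p, hp⟩ := G4_rep L x
  have e : Y (p.1 * L.a p.2) = Y' (p.1 * L.a p.2) :=
    Matrix.ext fun i c => congrFun (congrFun (h c) p.1) (p.2, i)
  rw [G4_eqv hY hp, G4_eqv hY' hp, e]

theorem exists_lift (y : ι → L.Γ → Fin L.N × ι → E) :
    ∃ Y, D.Eqv Y ∧ ∀ c, res L Y c = y c := by
  choose ρ hρ using G4_rep L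
  refine ⟨fun x => D.μ (x⁻¹ * ((ρ x).1 * L.a (ρ x).2)) *
    Matrix.of fun i c => y c (ρ x).1 ((ρ x).2, i), fun x h hh => ?_, fun c => ?_⟩
  · have h1 : x⁻¹ * ((ρ x).1 * L.a (ρ x).2) ∈ D.H := by
      convert D.H.inv_mem (hρ x) using 1
      group
    have h2 : ρ (x * h) = ρ x := G4_uniq L (by
      convert D.H.mul_mem (D.H.mul_mem (hρ (x * h)) (D.H.inv_mem hh)) h1 using 1
      group)
    simp only [h2]
    rw [mul_inv_rev, mul_assoc, D.μ_mul _ (D.H.inv_mem hh) _ h1, Matrix.mul_assoc]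
  · funext γ p
    have h1 : ρ (γ * L.a p.1) = (γ, p.1) := G4_uniq L (hρ _)
    simp only [res, h1, inv_mul_cancel, D.μ_one, Matrix.one_mul, Matrix.of_apply]

theorem Dec.c0_res {Y : G → Matrix ι ι E} (h : D.Dec Y) (c : ι) : C0 (res L Y c) := by
  intro ε hε
  obtain ⟨T, hT⟩ := h ε hε
  refine (G4_fin L T).subset fun γ hγ => ?_
  by_contra hc
  exact not_le.2 hγ ((pi_norm_le_iff_of_nonneg hε.le).2 fun p : Fin L.N × ι =>
    hT _ (fun t ht h1 => hc ⟨p.1, t, ht, h1⟩) p.2 c)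

theorem G4_mle {C M : ℝ} (hC : 0 ≤ C) (hM : 0 ≤ M) (hB : ∀ h ∈ D.H, MLe C (D.μ h))
    {Y : G → Matrix ι ι E} (hY : D.Eqv Y) {x : G} {p : L.Γ × Fin L.N}
    (hp : ((p.1 : G) * L.a p.2)⁻¹ * x ∈ D.H) (h : ∀ c, ‖res L Y c p.1‖ ≤ M) :
    MLe (C * M) (Y x) := by
  rw [G4_eqv hY hp]
  exact (hB _ (D.H.inv_mem hp)).mul
    (fun i c => (norm_le_pi_norm (res L Y c p.1) (p.2, i)).trans (h c)) hC hM

theorem dec_of_res (hB : D.Bdd) {Y : G → Matrix ι ι E} (hY : D.Eqv Y)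
    (h : ∀ c, C0 (res L Y c)) : D.Dec Y := by
  classical
  obtain ⟨C, hC, hB⟩ := hB
  intro ε hε
  have h1 := Set.finite_iUnion fun c => h c (ε / C) (div_pos hε hC)
  refine ⟨(h1.toFinset ×ˢ Finset.univ).image fun z : L.Γ × Fin L.N => (z.1 : G) * L.a z.2,
    fun x hx => ?_⟩
  obtain ⟨p, hp⟩ := G4_rep L x
  have h2 := G4_mle L hC.le (div_pos hε hC).le hB hY hp fun c => not_lt.1 fun hc =>
    hx _ (Finset.mem_image.2 ⟨p, Finset.mem_product.2
      ⟨h1.mem_toFinset.2 (Set.mem_iUnion.2 ⟨c, hc⟩), Finset.mem_univ _⟩, rfl⟩) hp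
  rwa [mul_div_cancel₀ _ hC.ne'] at h2

theorem norm_res_le {Y : G → Matrix ι ι E} {M : ℝ} (hM : 0 ≤ M) (h : ∀ x, MLe M (Y x)) (c : ι)
    (γ : L.Γ) : ‖res L Y c γ‖ ≤ M :=
  (pi_norm_le_iff_of_nonneg hM).2 fun p => h _ p.2 c

theorem mle_of_res (hB : D.Bdd) : ∃ C : ℝ, 0 < C ∧ ∀ Y : G → Matrix ι ι E, D.Eqv Y →
    ∀ M : ℝ, 0 ≤ M → (∀ c γ, ‖res L Y c γ‖ ≤ M) → ∀ x, MLe (C * M) (Y x) := by
  obtain ⟨C, hC, hB⟩ := hB
  refine ⟨C, hC, fun Y hY M hM h x => ?_⟩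
  obtain ⟨p, hp⟩ := G4_rep L x
  exact G4_mle L hC.le hM hB hY hp fun c => h c _

theorem Dense.denseG {d : ℕ} {κ : Fin d → G → Matrix ι ι E} (hd : D.Dense κ)
    (hκ : ∀ i, D.Ker (κ i)) {k : Fin d → L.Γ →₀ Matrix (Fin L.N × ι) (Fin L.N × ι) E}
    (h : ∀ i, IsMat L (κ i) (k i)) : DenseG k := by
  classical
  rintro ⟨b, i⟩
  obtain ⟨Y, hY, hx⟩ := hd (1 / 2) (by norm_num)
  refine ⟨fun l => res L (fun x => Y l ((L.a b)⁻¹ * x) * 1) i, fun l => ?_, fun γ => ?_⟩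
  · obtain ⟨T, hT⟩ := (hY l).2.translate (L.a b)⁻¹ 1
    refine (G4_fin L T).subset fun γ hγ => ?_
    obtain ⟨p, hp⟩ := Function.ne_iff.1 hγ
    obtain ⟨t, ht, h1⟩ := hT (γ * L.a p.1) fun h0 => hp (congrFun (congrFun h0 p.2) i)
    exact ⟨p.1, t, ht, h1⟩
  · refine (pi_norm_le_iff_of_nonneg (by norm_num)).2 fun p => ?_
    refine le_of_eq_of_le (congrArg norm ?_) (hx ((L.a b)⁻¹ * (γ * L.a p.1)) p.2 i)
    rw [Pi.sub_apply, Matrix.sub_apply, Finset.sum_apply, Matrix.sum_apply]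
    congr 1
    · have hu : (L.a b)⁻¹ * (γ * L.a p.1) ∈ D.H → ((1 : L.Γ), b) = (γ, p.1) := fun h1 =>
        G4_uniq L (by simpa using h1)
      rw [del]
      split_ifs with h1 h2 h2
      · obtain rfl : b = p.1 := congrArg Prod.snd (hu h2)
        subst h1
        simp [D.μ_one, Pi.single_apply, Matrix.one_apply, Prod.ext_iff]
      · rw [Pi.single_eq_of_ne, Matrix.zero_apply]
        rintro rfl
        exact h2 (by simp [h1])
      · exact absurd (congrArg Prod.fst (hu h2)).symm h1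
      · rfl
    · refine Finset.sum_congr rfl fun l _ => ?_
      rw [← res_conv L (h l) (hκ l) ((hY l).1.translate _ _), res,
        conv_translate (hκ l).2.1 (hY l).1 (Or.inr (hY l).2), Matrix.mul_one]

end Fib

end Pool.Agent.MP_4d0c14_b

end

section

/-! Exactness of the Koszul complex on the completed compact induction; the case of one
operator. -/

namespace Pool.Agent.MP_4d0c14_b

open scoped Matrix

namespace Fib

variable {G E ι : Type} [Group G] [NontriviallyNormedField E] [IsUltrametricDist E]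
  [CompleteSpace E] [Fintype ι] [DecidableEq ι] {D : Fib G E ι}

omit [IsUltrametricDist E] [CompleteSpace E] in
theorem G5_res_add (L : FreeLat D.H) (Y Y' : G → Matrix ι ι E) (c : ι) :
    res L (Y + Y') c = res L Y c + res L Y' c := rfl

omit [IsUltrametricDist E] [CompleteSpace E] in
theorem G5_res_neg (L : FreeLat D.H) (Y : G → Matrix ι ι E) (c : ι) :
    res L (-Y) c = -res L Y c := rfl

theorem exact_one (hB : D.Bdd) (hL : HasLat D.H) (κ : Fin 1 → G → Matrix ι ι E)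
    (hκ : ∀ i, D.Ker (κ i)) (hd : D.Dense κ) :
    (∀ Y, D.Eqv Y → D.Dec Y → ∃ Z, D.Eqv Z ∧ D.Dec Z ∧ D.conv (κ 0) Z = Y) ∧
      ∀ Z, D.Eqv Z → D.Dec Z → D.conv (κ 0) Z = 0 → Z = 0 := by
  obtain ⟨L⟩ := hL.free
  have := L.rf
  choose k hk using fun i => exists_mat L (hκ i).2.2
  obtain ⟨h1, h2⟩ := koszul_one k (hd.denseG L hκ hk)
  have he : ∀ i Z, D.Eqv (D.conv (κ i) Z) := fun i Z =>
    conv_eqv (hκ i).1 (Or.inl (hκ i).2.2)
  refine ⟨fun Y hY hY' => ?_, fun Z hZ hZ' h0 => ?_⟩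
  · choose z hz hz' using fun c => h1 (res L Y c) (hY'.c0_res L c)
    obtain ⟨Z, hZ, hZz⟩ := exists_lift L z
    refine ⟨Z, hZ, dec_of_res L hB hZ fun c => by rw [hZz]; exact hz c, ?_⟩
    refine res_inj L (he 0 Z) hY fun c => ?_
    rw [res_conv L (hk 0) (hκ 0) hZ c, hZz, hz']
  · refine res_inj L hZ Eqv.zero fun c => ?_
    refine h2 _ (hZ'.c0_res L c) ?_
    rw [← res_conv L (hk 0) (hκ 0) hZ c, h0]
    rfl

theorem exact_two (hB : D.Bdd) (hL : HasLat D.H) (κ : Fin 2 → G → Matrix ι ι E)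
    (hκ : ∀ i, D.Ker (κ i)) (hc : D.conv (κ 0) (κ 1) = D.conv (κ 1) (κ 0)) (hd : D.Dense κ)
    (hd' : D.dual.Dense fun i => dK (κ i)) :
    (∀ Y, D.Eqv Y → D.Dec Y → ∃ Z₀ Z₁, (D.Eqv Z₀ ∧ D.Dec Z₀) ∧ (D.Eqv Z₁ ∧ D.Dec Z₁) ∧
      D.conv (κ 0) Z₀ + D.conv (κ 1) Z₁ = Y) ∧
    (∀ Y₀ Y₁, D.Eqv Y₀ → D.Dec Y₀ → D.Eqv Y₁ → D.Dec Y₁ →
      D.conv (κ 0) Y₀ + D.conv (κ 1) Y₁ = 0 →
      ∃ Z, D.Eqv Z ∧ D.Dec Z ∧ Y₀ = -D.conv (κ 1) Z ∧ Y₁ = D.conv (κ 0) Z) ∧
    ∃ C : ℝ, 0 < C ∧ ∀ Z, D.Eqv Z → D.Dec Z → ∀ M : ℝ, 0 ≤ M →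
      (∀ x, MLe M (D.conv (κ 0) Z x)) → (∀ x, MLe M (D.conv (κ 1) Z x)) →
      ∀ x, MLe (C * M) (Z x) := by
  obtain ⟨L⟩ := hL.free
  have := L.rf
  choose k hk using fun i => exists_mat L (hκ i).2.2
  have he : ∀ i Z, D.Eqv (D.conv (κ i) Z) := fun i Z =>
    conv_eqv (hκ i).1 (Or.inl (hκ i).2.2)
  have hc' : ∀ y, C0 y → op (k 0) (op (k 1) y) = op (k 1) (op (k 0) y) := by
    intro y _
    obtain ⟨Y, hY, hYy⟩ := exists_lift L fun _ : ι => y
    funext γ p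
    have e1 : op (k 0) (op (k 1) y) = res L (D.conv (D.conv (κ 0) (κ 1)) Y) p.2 := by
      rw [← conv_assoc (hκ 0).2.1 (hκ 1) hY (Or.inl (hκ 0).2.2),
        res_conv L (hk 0) (hκ 0) (he 1 Y), res_conv L (hk 1) (hκ 1) hY, hYy]
    have e2 : op (k 1) (op (k 0) y) = res L (D.conv (D.conv (κ 1) (κ 0)) Y) p.2 := by
      rw [← conv_assoc (hκ 1).2.1 (hκ 0) hY (Or.inl (hκ 1).2.2),
        res_conv L (hk 1) (hκ 1) (he 0 Y), res_conv L (hk 0) (hκ 0) hY, hYy]
    rw [e1, e2, hc]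
  obtain ⟨h1, h2, C, hC, h3⟩ := koszul_two k (hd.denseG L hκ hk)
    (hd'.denseG (D := D.dual) L (fun i => (hκ i).dual) (fun i => (hk i).dual L)) hc'
  refine ⟨fun Y hY hY' => ?_, fun Y₀ Y₁ hY₀ hY₀' hY₁ hY₁' h0 => ?_, ?_⟩
  · choose z₀ z₁ hz₀ hz₁ hz using fun c => h1 (res L Y c) (hY'.c0_res L c)
    obtain ⟨Z₀, hZ₀, hZz₀⟩ := exists_lift L z₀
    obtain ⟨Z₁, hZ₁, hZz₁⟩ := exists_lift L z₁
    refine ⟨Z₀, Z₁, ⟨hZ₀, dec_of_res L hB hZ₀ fun c => by rw [hZz₀]; exact hz₀ c⟩,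
      ⟨hZ₁, dec_of_res L hB hZ₁ fun c => by rw [hZz₁]; exact hz₁ c⟩, ?_⟩
    refine res_inj L ((he 0 Z₀).add (he 1 Z₁)) hY fun c => ?_
    rw [G5_res_add, res_conv L (hk 0) (hκ 0) hZ₀ c, res_conv L (hk 1) (hκ 1) hZ₁ c, hZz₀, hZz₁,
      hz]
  · have hs : ∀ c, op (k 0) (res L Y₀ c) + op (k 1) (res L Y₁ c) = 0 := fun c => by
      rw [← res_conv L (hk 0) (hκ 0) hY₀ c, ← res_conv L (hk 1) (hκ 1) hY₁ c, ← G5_res_add, h0]
      rfl
    choose z hz hz₀ hz₁ using fun c =>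
      h2 (res L Y₀ c) (res L Y₁ c) (hY₀'.c0_res L c) (hY₁'.c0_res L c) (hs c)
    obtain ⟨Z, hZ, hZz⟩ := exists_lift L z
    refine ⟨Z, hZ, dec_of_res L hB hZ fun c => by rw [hZz]; exact hz c, ?_, ?_⟩
    · refine res_inj L hY₀ (he 1 Z).neg fun c => ?_
      rw [G5_res_neg, res_conv L (hk 1) (hκ 1) hZ c, hZz, hz₀]
    · refine res_inj L hY₁ (he 0 Z) fun c => ?_
      rw [res_conv L (hk 0) (hκ 0) hZ c, hZz, hz₁]
  · obtain ⟨C', hC', hm⟩ := mle_of_res L hB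
    refine ⟨C' * C, mul_pos hC' hC, fun Z hZ hZ' M hM b0 b1 x => ?_⟩
    rw [mul_assoc]
    refine hm Z hZ (C * M) (mul_nonneg hC.le hM) (fun c γ => ?_) x
    refine h3 _ (hZ'.c0_res L c) M hM (fun η => ?_) (fun η => ?_) γ
    · rw [← res_conv L (hk 0) (hκ 0) hZ c]
      exact norm_res_le L hM b0 c η
    · rw [← res_conv L (hk 1) (hκ 1) hZ c]
      exact norm_res_le L hM b1 c η

theorem core_one (hB : D.Bdd) (hL : HasLat D.H) (κ : Fin 1 → G → Matrix ι ι E)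
    (hκ : ∀ i, D.Ker (κ i)) (hd : D.Dense κ) : D.Approx κ := by
  obtain ⟨h1, h2⟩ := exact_one hB hL κ hκ hd
  obtain ⟨Z, hZ, hZ', hZe⟩ := h1 D.del del_ker.1 del_ker.2.2.dec
  have hl : D.LEqv Z := by
    intro x h hh
    have h0 := h2 ((fun y => Z (h * y) * D.μ h) - Z) ((hZ.translate h _).sub hZ)
      ((hZ'.translate h _).sub hZ') (by
        rw [conv_sub_right (Or.inl (hκ 0).2.2)]
        funext y
        rw [Pi.sub_apply, conv_translate (hκ 0).2.1 hZ (Or.inl (hκ 0).2.2), hZe,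
          del_ker.2.1 y h hh, mul_assoc, D.μ_inv_mul hh, mul_one, sub_self, Pi.zero_apply])
    have h3 : Z (h * x) * D.μ h = Z x := sub_eq_zero.mp (congrFun h0 x)
    rw [← h3, mul_assoc, D.μ_mul_inv hh, mul_one]
  refine approx_of_sol hB hκ (fun _ => Z) (fun _ => ⟨hZ, hl, hZ'⟩) ?_
  rw [Fin.sum_univ_one, hZe]

end Fib

end Pool.Agent.MP_4d0c14_b

end

section

/-! The case of two operators. -/

namespace Pool.Agent.MP_4d0c14_b

open scoped Matrix

namespace Fib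

section C4aux

variable {G E ι : Type} [Group G] [Field E] [Fintype ι] [DecidableEq ι] {D : Fib G E ι}

/-- the left action -/
def C4_act (D : Fib G E ι) (h : G) (Y : G → Matrix ι ι E) : G → Matrix ι ι E :=
  fun x => Y (h⁻¹ * x) * D.μ h⁻¹

theorem C4_add (h : G) (Y Y' : G → Matrix ι ι E) :
    C4_act D h (Y + Y') = C4_act D h Y + C4_act D h Y' := by
  funext x
  simp only [C4_act, Pi.add_apply, Matrix.add_mul]

theorem C4_sub (h : G) (Y Y' : G → Matrix ι ι E) :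
    C4_act D h (Y - Y') = C4_act D h Y - C4_act D h Y' := by
  funext x
  simp only [C4_act, Pi.sub_apply, Matrix.sub_mul]

theorem C4_mul {h h' : G} (hh : h ∈ D.H) (hh' : h' ∈ D.H) (Y : G → Matrix ι ι E) :
    C4_act D (h * h') Y = C4_act D h (C4_act D h' Y) := by
  funext x
  simp only [C4_act, mul_inv_rev, mul_assoc,
    D.μ_mul _ (D.H.inv_mem hh') _ (D.H.inv_mem hh)]

theorem C4_conv {κ Y : G → Matrix ι ι E} (hκ : D.Ker κ) (hY : D.Eqv Y) (h : G) :
    D.conv κ (C4_act D h Y) = C4_act D h (D.conv κ Y) :=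
  funext fun x => conv_translate hκ.2.1 hY (Or.inl hκ.2.2) _ _ x

theorem C4_leqv {Y : G → Matrix ι ι E} (hY : D.LEqv Y) {h : G} (hh : h ∈ D.H) :
    C4_act D h Y = Y := by
  funext x
  rw [C4_act, hY x _ (D.H.inv_mem hh), Matrix.mul_assoc, D.μ_inv_mul (D.H.inv_mem hh),
    Matrix.mul_one]

theorem C4_cen {Y : G → Matrix ι ι E} (hY : D.Eqv Y) {z : G} (hz : z ∈ D.H)
    (hc : ∀ g, z⁻¹ * g = g * z⁻¹) (hs : ∃ c : E, D.μ z⁻¹ = c • (1 : Matrix ι ι E)) :
    C4_act D z Y = Y := by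
  funext x
  obtain ⟨c, hs⟩ := hs
  have h1 := D.μ_inv_mul (D.H.inv_mem hz)
  rw [C4_act, hc, hY x _ (D.H.inv_mem hz)]
  rw [hs, Matrix.mul_smul, Matrix.mul_one] at h1
  rw [hs, Matrix.mul_smul, Matrix.mul_one, ← Matrix.smul_mul, h1, Matrix.one_mul]

end C4aux

variable {G E ι : Type} [Group G] [NontriviallyNormedField E] [IsUltrametricDist E]
  [CompleteSpace E] [CharZero E] [Fintype ι] [DecidableEq ι] {D : Fib G E ι}

/-- the left action of `K i` on a function tending to zero is continuous -/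
theorem act_cont (hB : D.Bdd) (X : D.H1Data) {Y : G → Matrix ι ι E} (he : D.Eqv Y) (hd : D.Dec Y)
    (ε : ℝ) (hε : 0 < ε) :
    ∃ i, ∀ k ∈ X.K i, ∀ x, MLe ε (Y (k⁻¹ * x) * D.μ k⁻¹ - Y x) := by
  classical
  obtain ⟨M, hM, hY⟩ := Dec.exists_bound hB he hd
  obtain ⟨C, hC, hμ⟩ := hB
  obtain ⟨T, hT⟩ := hd (min ε (ε / C)) (lt_min hε (div_pos hε hC))
  have hδ : 0 < ε / (C * M * (C + 1)) := by positivity
  set δ := ε / (C * M * (C + 1)) with hδ'
  choose j hj using fun x => X.cont x δ hδ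
  refine ⟨(insert 1 T).sup j, fun k hk x => ?_⟩
  have hk' : ∀ t ∈ insert 1 T, ∀ k ∈ X.K ((insert 1 T).sup j), k ∈ X.K (j t) :=
    fun t ht k hk => X.anti (Finset.le_sup ht) hk
  have hkH : k ∈ D.H := X.Kp_le (X.K_le (X.anti (Nat.zero_le _) hk))
  have hki := D.H.inv_mem hkH
  by_cases hx : ∀ t ∈ T, t⁻¹ * x ∉ D.H
  · have h1 : ∀ t ∈ T, t⁻¹ * (k⁻¹ * x) ∉ D.H := fun t ht h => by
      have h2 := D.H.mul_mem (hj t k (hk' t (Finset.mem_insert_of_mem ht) k hk)).1 h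
      refine hx t ht ?_
      convert h2 using 1
      group
    refine MLe.sub ((((hT _ h1).mono (min_le_right _ _)).mul (hμ _ hki) (div_pos hε hC).le
      hC.le).mono (le_of_eq ?_)) ((hT _ hx).mono (min_le_left _ _))
    field_simp
  · push Not at hx
    obtain ⟨t, ht, hx⟩ := hx
    obtain ⟨hA, hA'⟩ := hj t k (hk' t (Finset.mem_insert_of_mem ht) k hk)
    have hB' := (hj 1 k⁻¹ (hk' 1 (Finset.mem_insert_self _ _) _ (inv_mem hk))).2
    rw [inv_one, one_mul, mul_one] at hB'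
    have e1 : Y x = D.μ (t⁻¹ * x)⁻¹ * Y t := by
      rw [← he t _ hx, mul_inv_cancel_left]
    have e2 : Y (k⁻¹ * x) = D.μ (t⁻¹ * x)⁻¹ * D.μ (t⁻¹ * k * t) * Y t := by
      have h3 := he t _ (D.H.mul_mem (D.H.inv_mem hA) hx)
      rw [mul_inv_rev (t⁻¹ * k * t)⁻¹, inv_inv, D.μ_mul _ (D.H.inv_mem hx) _ hA] at h3
      rw [← h3]
      congr 1
      group
    have e3 : Y (k⁻¹ * x) * D.μ k⁻¹ - Y x = D.μ (t⁻¹ * x)⁻¹ *
        ((D.μ (t⁻¹ * k * t) - 1) * Y t * D.μ k⁻¹ + Y t * (D.μ k⁻¹ - 1)) := by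
      rw [e1, e2]
      noncomm_ring
    rw [e3]
    have h4 : MLe (δ * M * (C + 1)) ((D.μ (t⁻¹ * k * t) - 1) * Y t * D.μ k⁻¹) :=
      ((hA'.mul (hY t) hδ.le hM.le).mul (hμ _ hki) (mul_pos hδ hM).le hC.le).mono
        (mul_le_mul_of_nonneg_left (by linarith) (mul_pos hδ hM).le)
    have h5 : MLe (δ * M * (C + 1)) (Y t * (D.μ k⁻¹ - 1)) :=
      ((hY t).mul hB' hM.le hδ.le).mono (by nlinarith [mul_pos (mul_pos hδ hM) hC])
    refine ((hμ _ (D.H.inv_mem hx)).mul (h4.add h5) hC.le (by positivity)).mono (le_of_eq ?_)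
    rw [hδ']
    field_simp

theorem core_two (hB : D.Bdd) (hL : HasLat D.H) (X : D.H1Data) (κ : Fin 2 → G → Matrix ι ι E)
    (hκ : ∀ i, D.Ker (κ i)) (hc : D.conv (κ 0) (κ 1) = D.conv (κ 1) (κ 0)) (hd : D.Dense κ)
    (hd' : D.dual.Dense fun i => dK (κ i)) : D.Approx κ := by
  obtain ⟨hs, hk, C, hC, hb⟩ := exact_two hB hL κ hκ hc hd hd'
  obtain ⟨Y₀, Y₁, ⟨e0, d0⟩, ⟨e1, d1⟩, hY⟩ := hs D.del del_ker.1 del_ker.2.2.dec
  have f0 := (hκ 0).2.2
  have f1 := (hκ 1).2.2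
  have hZ : ∀ h ∈ D.H, ∃ Z, D.Eqv Z ∧ D.Dec Z ∧ C4_act D h Y₀ - Y₀ = -D.conv (κ 1) Z ∧
      C4_act D h Y₁ - Y₁ = D.conv (κ 0) Z := fun h hh => by
    refine hk _ _ ((e0.translate _ _).sub e0) ((d0.translate _ _).sub d0)
      ((e1.translate _ _).sub e1) ((d1.translate _ _).sub d1) ?_
    have h1 := C4_leqv (D := D) del_ker.2.1 hh
    rw [← hY, C4_add] at h1
    show D.conv (κ 0) (C4_act D h Y₀ - Y₀) + D.conv (κ 1) (C4_act D h Y₁ - Y₁) = 0
    rw [conv_sub_right (Or.inl f0), conv_sub_right (Or.inl f1), C4_conv (hκ 0) e0,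
      C4_conv (hκ 1) e1, sub_add_sub_comm, h1, sub_self]
  choose! Z hZe hZd hZ0 hZ1 using hZ
  have hZ0' : ∀ h ∈ D.H, D.conv (κ 1) (Z h) = Y₀ - C4_act D h Y₀ := fun h hh => by
    rw [← neg_sub, hZ0 h hh, neg_neg]
  have uniq : ∀ W, D.Eqv W → D.Dec W → D.conv (κ 0) W = 0 → D.conv (κ 1) W = 0 → W = 0 := by
    intro W hW hW' h0 h1
    funext x
    have h2 := hb W hW hW' 0 le_rfl (fun x => by rw [h0]; exact MLe.zero le_rfl)
      (fun x => by rw [h1]; exact MLe.zero le_rfl) x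
    rw [mul_zero] at h2
    exact MLe.eq_zero fun ε hε => h2.mono hε.le
  have cen : ∀ z ∈ X.Z, ∀ Y, D.Eqv Y → C4_act D z Y = Y := fun z hz Y hY =>
    C4_cen hY (X.Z_le hz) (X.Z_cen _ (inv_mem hz)) (X.Z_sc _ (inv_mem hz))
  have hKH : ∀ i, ∀ k ∈ X.K i, k ∈ D.H := fun i k hk =>
    X.Kp_le (X.K_le (X.anti (Nat.zero_le _) hk))
  obtain ⟨β, be, bd, hβ⟩ := glue hB X Z (fun k hk => ⟨hZe k hk, hZd k hk⟩)
    (fun k hk k' hk' x => by
      have hkk := D.H.mul_mem hk hk'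
      have h1 := uniq (Z (k * k') - (Z k + C4_act D k (Z k')))
        ((hZe _ hkk).sub ((hZe _ hk).add ((hZe _ hk').translate _ _)))
        ((hZd _ hkk).sub ((hZd _ hk).add ((hZd _ hk').translate _ _)))
        (by
          rw [conv_sub_right (Or.inl f0), conv_add_right (Or.inl f0), C4_conv (hκ 0) (hZe _ hk'),
            ← hZ1 _ hkk, ← hZ1 _ hk, ← hZ1 _ hk', C4_sub, C4_mul hk hk']
          abel)
        (by
          rw [conv_sub_right (Or.inl f1), conv_add_right (Or.inl f1), C4_conv (hκ 1) (hZe _ hk'),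
            hZ0' _ hkk, hZ0' _ hk, hZ0' _ hk', C4_sub, C4_mul hk hk']
          abel)
      exact congrFun (sub_eq_zero.1 h1) x)
    (fun z hz => uniq _ (hZe _ (X.Z_le hz)) (hZd _ (X.Z_le hz))
      (by rw [← hZ1 _ (X.Z_le hz), cen z hz _ e1, sub_self])
      (by rw [hZ0' _ (X.Z_le hz), cen z hz _ e0, sub_self]))
    (fun ε hε => by
      obtain ⟨i0, h0⟩ := act_cont hB X e0 d0 (ε / C) (div_pos hε hC)
      obtain ⟨i1, h1⟩ := act_cont hB X e1 d1 (ε / C) (div_pos hε hC)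
      refine ⟨max i0 i1, fun k hk x => ?_⟩
      have hH := hKH _ k hk
      refine (hb (Z k) (hZe k hH) (hZd k hH) (ε / C) (div_pos hε hC).le (fun y => ?_)
        (fun y => ?_) x).mono (le_of_eq ?_)
      · rw [← hZ1 k hH]
        exact h1 k (X.anti (le_max_right _ _) hk) y
      · rw [hZ0' k hH, ← neg_sub]
        exact (h0 k (X.anti (le_max_left _ _) hk) y).neg
      · field_simp)
  have hβ' : ∀ k ∈ X.K 0, Z k = C4_act D k β - β := fun k hk => funext (hβ k hk)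
  have E0 : D.Eqv (Y₀ + D.conv (κ 1) β) := e0.add (conv_eqv (hκ 1).1 (Or.inl f1))
  have E1 : D.Eqv (Y₁ - D.conv (κ 0) β) := e1.sub (conv_eqv (hκ 0).1 (Or.inl f0))
  have I0 : ∀ k ∈ X.K 0, C4_act D k (Y₀ + D.conv (κ 1) β) = Y₀ + D.conv (κ 1) β := fun k hk => by
    have h1 := hZ0' k (hKH 0 k hk)
    rw [hβ' k hk, conv_sub_right (Or.inl f1), C4_conv (hκ 1) be, sub_eq_sub_iff_add_eq_add] at h1
    rw [C4_add, add_comm, h1]
  have I1 : ∀ k ∈ X.K 0, C4_act D k (Y₁ - D.conv (κ 0) β) = Y₁ - D.conv (κ 0) β := fun k hk => by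
    have h1 := hZ1 k (hKH 0 k hk)
    rw [hβ' k hk, conv_sub_right (Or.inl f0), C4_conv (hκ 0) be, sub_eq_sub_iff_sub_eq_sub] at h1
    rw [C4_sub, h1]
  have key : ∀ Y, D.Eqv Y → (∀ k ∈ X.K 0, C4_act D k Y = Y) → ∀ g ∈ X.Kp, ∀ x,
      Y (g⁻¹ * x) * D.μ g⁻¹ = Y x := fun Y hY hI g hg x => by
    obtain ⟨k, hk, z, hz, rfl⟩ := X.Kp_dec g hg
    have h1 := C4_mul (hKH 0 k hk) (X.Z_le hz) Y
    rw [cen z hz Y hY, hI k hk] at h1
    exact congrFun h1 x
  obtain ⟨Y', hY', hsum⟩ := exists_avg_left X.Kp X.Kp_le X.Kp_fin hκ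
    ![Y₀ + D.conv (κ 1) β, Y₁ - D.conv (κ 0) β]
    (Fin.forall_fin_two.2 ⟨⟨E0, d0.add (conv_dec hB (hκ 1) bd)⟩,
      ⟨E1, d1.sub (conv_dec hB (hκ 0) bd)⟩⟩)
    (Fin.forall_fin_two.2 ⟨key _ E0 I0, key _ E1 I1⟩)
    (by
      rw [Fin.sum_univ_two]
      show D.conv (κ 0) (Y₀ + D.conv (κ 1) β) + D.conv (κ 1) (Y₁ - D.conv (κ 0) β) = _
      rw [conv_add_right (Or.inl f0), conv_sub_right (Or.inl f1),
        conv_assoc (hκ 0).2.1 (hκ 1) be (Or.inl f0), conv_assoc (hκ 1).2.1 (hκ 0) be (Or.inl f1),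
        hc, ← hY]
      abel)
  exact approx_of_sol hB hκ Y' hY' hsum

end Fib

end Pool.Agent.MP_4d0c14_b

end
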