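import Pool.Agent.Mg.F4d0c14.Ge1179e
import Pool.Agent.Mg.F4d0c14.G2b7368
import Pool.Agent.Mg.F4d0c14.G1b9b80
import Pool.Agent.Mg.F4d0c14.G40661c
import Pool.Agent.Mg.F4d0c14.G677ce9
import Pool.Agent.Mg.F4d0c14.G0f4b62
import Pool.Agent.Mg.F4d0c14.Gd13caf

section

/-! The uniform bound for the coboundary. -/

namespace Pool.Agent.MP_4d0c14_b

open scoped Matrix

theorem H5_pow {F : Type} [NormedField F] [IsUltrametricDist F] {z : F} {r : ℝ} (hr : r ≤ 1)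
    (h : ‖z - 1‖ < r) (i : ℕ) : ‖z ^ i - 1‖ < r := by
  induction i with
  | zero => simpa using (norm_nonneg _).trans_lt h
  | succ i ih =>
    have e : z ^ (i + 1) - 1 = (z ^ i - 1) * (z - 1) + ((z ^ i - 1) + (z - 1)) := by ring
    rw [e]
    refine (IsUltrametricDist.norm_add_le_max _ _).trans_lt (max_lt ?_
      ((IsUltrametricDist.norm_add_le_max _ _).trans_lt (max_lt ih h)))
    rw [norm_mul]
    exact (mul_le_of_le_one_left (norm_nonneg _) (ih.le.trans hr)).trans_lt h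

theorem H5_span {E : Type} [NormedField E] {N : ℕ} {S : Set (Fin N → E)}
    (hS : Submodule.span E S = ⊤) : ∃ C : ℝ, 0 < C ∧ ∀ (X : Matrix (Fin N) (Fin N) E) (B : ℝ),
      0 ≤ B → (∀ v ∈ S, ‖X *ᵥ v‖ ≤ B) → MLe (C * B) X := by
  have h : ∀ v ∈ Submodule.span E S, ∃ C : ℝ, 0 ≤ C ∧ ∀ (X : Matrix (Fin N) (Fin N) E) (B : ℝ),
      (∀ v ∈ S, ‖X *ᵥ v‖ ≤ B) → ‖X *ᵥ v‖ ≤ C * B := fun v hv => by
    induction hv using Submodule.span_induction with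
    | mem v hv => exact ⟨1, zero_le_one, fun X B h => (h v hv).trans_eq (one_mul B).symm⟩
    | zero => exact ⟨0, le_rfl, fun X B _ => by simp⟩
    | add v v' _ _ h h' =>
      obtain ⟨C, hC, h⟩ := h
      obtain ⟨C', hC', h'⟩ := h'
      refine ⟨C + C', add_nonneg hC hC', fun X B hB => ?_⟩
      rw [Matrix.mulVec_add, add_mul]
      exact (norm_add_le _ _).trans (add_le_add (h X B hB) (h' X B hB))
    | smul c v _ h =>
      obtain ⟨C, hC, h⟩ := h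
      refine ⟨‖c‖ * C, mul_nonneg (norm_nonneg c) hC, fun X B hB => ?_⟩
      rw [Matrix.mulVec_smul, norm_smul, mul_assoc]
      exact mul_le_mul_of_nonneg_left (h X B hB) (norm_nonneg c)
  choose C hC hC' using fun j : Fin N => h (Pi.single j 1) (hS ▸ Submodule.mem_top)
  refine ⟨1 + ∑ j, C j, add_pos_of_pos_of_nonneg one_pos (Finset.sum_nonneg fun j _ => hC j),
    fun X B hB hX i j => ?_⟩
  have h1 := (norm_le_pi_norm _ i).trans (hC' j X B hX)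
  rw [Matrix.mulVec_single_one, Matrix.col_apply] at h1
  refine h1.trans (mul_le_mul_of_nonneg_right ?_ hB)
  linarith [Finset.single_le_sum (fun j _ => hC j) (Finset.mem_univ j)]

theorem H5_conj {n : ℕ} {F : Type} [NormedField F] {r : ℝ} {t : Fin n → Fˣ}
    (ht : Monotone fun i => ‖(t i : F)‖) {k : GL (Fin n) F} (hk : Near r k) (hl : IsLow1 k) :
    Near r ((dg t)⁻¹ * k * dg t) := fun i j => by
  have e : ((((dg t)⁻¹ * k * dg t : GL (Fin n) F) : Matrix (Fin n) (Fin n) F) - 1) i j =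
      ((k : Matrix (Fin n) (Fin n) F) - 1) i j * (t j / t i) := by
    rw [← dg_inv]
    by_cases h : i = j
    · subst h
      simp [mul_comm]
    · simp [h, div_eq_mul_inv]
      ring
  rw [e, norm_mul]
  rcases le_total i j with h | h
  · have h1 := hk i j
    rw [Matrix.sub_apply, hl i j h, sub_self, norm_zero] at h1 ⊢
    rwa [zero_mul]
  · refine (mul_le_of_le_one_right (norm_nonneg _) ?_).trans_lt (hk i j)
    rw [norm_div]
    exact div_le_one_of_le₀ (ht h) (norm_nonneg _)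

variable {n N : ℕ} {F E ι : Type} [NormedField F] [IsUltrametricDist F] [CharZero F]
  [NormedField E] [IsUltrametricDist E] [CharZero E] [Fintype ι] {κ : ι → F →+* E}
  {a : ι → Fin n → ℤ} {ρ : GL (Fin n) F →* Matrix (Fin N) (Fin N) E}

omit [IsUltrametricDist E] in
theorem span_low (ok : AlgOK κ a ρ) (p : ℕ) (hp0 : p ≠ 0) (hp : ‖(p : F)‖ < 1) {D : ℕ}
    {w l : Fin N → E} {π : Fin (D + 1) → Matrix (Fin N) (Fin N) E} (hg : Graded κ a ρ w l π)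
    {r : ℝ} (hr0 : 0 < r) (hr : r ≤ 1) :
    Submodule.span E {v | ∃ k, Near r k ∧ IsLow1 k ∧ v = ρ k *ᵥ w} = ⊤ := by
  refine ok.irred p hp0 hp hr0 _ (fun k hk v hv => ?_) (v := w) (Submodule.subset_span
    ⟨1, near_one hr0, fun _ _ _ => rfl, by simp⟩) fun h => ?_
  · induction hv using Submodule.span_induction with
    | mem v hv =>
      obtain ⟨k', hk', -, rfl⟩ := hv
      obtain ⟨l', u, t, hl, hu, hl', -, -, e⟩ := exists_ldu hr0 hr (hk.mul hr0 hr hk')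
      rw [Matrix.mulVec_mulVec, ← map_mul, e, map_mul, map_mul, ← Matrix.mulVec_mulVec,
        ← Matrix.mulVec_mulVec, hg.up u hu, hg.tor, Matrix.mulVec_smul]
      exact Submodule.smul_mem _ _ (Submodule.subset_span ⟨l', hl', hl, rfl⟩)
    | zero => simp
    | add v v' _ _ h h' => rw [Matrix.mulVec_add]; exact add_mem h h'
    | smul c v _ h => rw [Matrix.mulVec_smul]; exact Submodule.smul_mem _ _ h
  · have h1 := hg.lw
    rw [h, dotProduct_zero] at h1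
    exact zero_ne_one h1

omit [IsUltrametricDist F] [CharZero F] [IsUltrametricDist E] [CharZero E] in
theorem H5_tor {D : ℕ} {w l : Fin N → E} {π : Fin (D + 1) → Matrix (Fin N) (Fin N) E}
    (hg : Graded κ a ρ w l π) (t : Fin n → Fˣ) :
    ρ (dg t)⁻¹ *ᵥ w = (chi κ a t)⁻¹ • w := by
  rw [eq_inv_smul_iff₀ (chi_ne_zero κ a t), ← Matrix.mulVec_smul, ← hg.tor, Matrix.mulVec_mulVec,
    ← map_mul, inv_mul_cancel, map_one, Matrix.one_mulVec]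

omit [IsUltrametricDist F] [CharZero F] [IsUltrametricDist E] in
theorem H5_inv {D : ℕ} {w l : Fin N → E} {π : Fin (D + 1) → Matrix (Fin N) (Fin N) E}
    (hg : Graded κ a ρ w l π) {y : ℚ} (hy : 1 < y) :
    (∑ M : Fin (D + 1), ((y : E) ^ (M : ℕ) - 1)⁻¹ • π M) *
      (∑ M : Fin (D + 1), (y : E) ^ (M : ℕ) • π M - 1) = 1 - π 0 := by
  have e : ∀ M : Fin (D + 1), π M * (∑ M : Fin (D + 1), (y : E) ^ (M : ℕ) • π M - 1) =
      ((y : E) ^ (M : ℕ) - 1) • π M := fun M => by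
    simp only [Matrix.mul_sub, Matrix.mul_sum, Matrix.mul_smul, hg.orth, Matrix.mul_one, smul_ite,
      smul_zero, Finset.sum_ite_eq, Finset.mem_univ, if_true, sub_smul, one_smul]
  simp only [Matrix.sum_mul, Matrix.smul_mul, e, smul_smul]
  rw [← hg.sum, Fin.sum_univ_succ, Fin.sum_univ_succ, add_sub_cancel_left, Fin.val_zero, pow_zero,
    sub_self, mul_zero, zero_smul, zero_add]
  refine Finset.sum_congr rfl fun M _ => ?_
  rw [inv_mul_cancel₀, one_smul]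
  rw [sub_ne_zero, Fin.val_succ]
  exact_mod_cast (one_lt_pow₀ hy (Nat.succ_ne_zero _)).ne'

theorem bound_diag (ok : AlgOK κ a ρ) (hκ : ∀ σ x, ‖κ σ x‖ = ‖x‖) (p : ℕ) (hp0 : p ≠ 0)
    (hp : ‖(p : F)‖ < 1) {r : ℝ} (hr0 : 0 < r) (hr : r ≤ 1) : ∃ C : ℝ, 0 < C ∧
    ∀ t : Fin n → Fˣ, (Monotone fun i => ‖(t i : F)‖) → ∀ b : Matrix (Fin N) (Fin N) E,
      ∃ c : E, ∀ M : ℝ, 0 ≤ M → (∀ k, Near r k → Near r ((dg t)⁻¹ * k * dg t) →
        MLe M (ρ ((dg t)⁻¹ * k * dg t) * b * ρ k⁻¹ - b)) → MLe (C * M) (b - c • ρ (dg t)⁻¹) := by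
  obtain ⟨w, l, D, π, hg⟩ := ok.grad
  obtain ⟨C₁, hC₁, h₁⟩ := ok.bdd hκ 1
  obtain ⟨C₂, hC₂, h₂⟩ := H5_span (span_low ok p hp0 hp hg hr0 hr)
  obtain ⟨m, hm⟩ := exists_pow_lt_of_lt_one hr0 hp
  have hz0 : (1 + (p : F) ^ m) ≠ 0 := by exact_mod_cast (by positivity : 1 + p ^ m ≠ 0)
  obtain ⟨z, hz⟩ : ∃ z : Fˣ, (z : F) = 1 + (p : F) ^ m := ⟨Units.mk0 _ hz0, rfl⟩
  have hy : (1 : ℚ) < 1 + (p : ℚ) ^ m := lt_add_of_pos_right _ (by positivity)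
  have h3 := hg.eig z (1 + (p : ℚ) ^ m) (by rw [hz]; push_cast; rfl)
  have h4 := H5_inv hg hy
  have h5 : Near r (dg fun i : Fin n => z ^ (i : ℕ)) := (near_dg hr0 _).2 fun i => by
    rw [Units.val_pow_eq_pow_val]
    exact H5_pow hr (by rwa [hz, add_sub_cancel_left, norm_pow]) _
  generalize (∑ M : Fin (D + 1), (((1 + (p : ℚ) ^ m : ℚ) : E) ^ (M : ℕ) - 1)⁻¹ • π M) = A at h4
  generalize (∑ M : Fin (D + 1), ((1 + (p : ℚ) ^ m : ℚ) : E) ^ (M : ℕ) • π M) = T at h3 h4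
  generalize (fun i : Fin n => z ^ (i : ℕ)) = s at h3 h5
  obtain ⟨C₃, hC₃, h₃⟩ := MLe.exists_bound A
  refine ⟨C₂ * (C₁ * (1 + C₃) * (‖w‖ + 1)), by positivity, fun t ht b =>
    ⟨chi κ a t * (l ⬝ᵥ b *ᵥ w), fun M hM h => ?_⟩⟩
  have h6 : (dg t)⁻¹ * dg s * dg t = dg s := by
    rw [mul_assoc, ← dg_mul, mul_comm s t, dg_mul, inv_mul_cancel_left]
  have h7 : (b - (chi κ a t * (l ⬝ᵥ b *ᵥ w)) • ρ (dg t)⁻¹) *ᵥ w =
      A *ᵥ ((ρ ((dg t)⁻¹ * dg s * dg t) * b * ρ (dg s)⁻¹ - b) *ᵥ w) := by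
    have e : (ρ (dg s) * b * ρ (dg s)⁻¹ - b) *ᵥ w = (T - 1) *ᵥ (b *ᵥ w) := by
      rw [Matrix.sub_mulVec, Matrix.sub_mulVec, Matrix.one_mulVec, ← Matrix.mulVec_mulVec,
        ← Matrix.mulVec_mulVec, H5_tor hg, h3, Matrix.smul_mulVec, Matrix.mulVec_smul,
        Matrix.mulVec_smul, smul_inv_smul₀ (chi_ne_zero κ a s)]
    rw [h6, e, Matrix.mulVec_mulVec (b *ᵥ w), h4, Matrix.sub_mulVec, Matrix.sub_mulVec,
      Matrix.one_mulVec, Matrix.smul_mulVec, H5_tor hg, hg.zero, Matrix.vecMulVec_mulVec,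
      smul_smul, mul_right_comm, mul_inv_cancel₀ (chi_ne_zero κ a t), one_mul, op_smul_eq_smul]
  have h8 : ∀ k, ρ ((dg t)⁻¹ * k * dg t) * b * ρ k⁻¹ - b =
      ρ ((dg t)⁻¹ * k * dg t) * (b - (chi κ a t * (l ⬝ᵥ b *ᵥ w)) • ρ (dg t)⁻¹) * ρ k⁻¹ -
        (b - (chi κ a t * (l ⬝ᵥ b *ᵥ w)) • ρ (dg t)⁻¹) := fun k => by
    rw [Matrix.mul_sub, Matrix.sub_mul, Matrix.mul_smul, Matrix.smul_mul, ← map_mul, ← map_mul,
      mul_inv_cancel_right, mul_inv_cancel_right, sub_sub_sub_cancel_right]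
  have h9 : ‖(b - (chi κ a t * (l ⬝ᵥ b *ᵥ w)) • ρ (dg t)⁻¹) *ᵥ w‖ ≤ C₃ * (M * ‖w‖) := by
    rw [h7]
    exact (h₃.mulVec hC₃.le _).trans (mul_le_mul_of_nonneg_left
      ((h _ h5 (h6.symm ▸ h5)).mulVec hM w) hC₃.le)
  simp only [h8] at h
  generalize b - (chi κ a t * (l ⬝ᵥ b *ᵥ w)) • ρ (dg t)⁻¹ = b₁ at h h9 ⊢
  rw [mul_assoc]
  refine h₂ b₁ _ (by positivity) ?_
  rintro _ ⟨k, hk, hl, rfl⟩
  have h10 := H5_conj ht hk hl
  have h11 := (h k⁻¹ (hk.inv hr0 hr) (H5_conj ht (hk.inv hr0 hr) hl.inv)).mulVec hM w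
  have e : b₁ *ᵥ ρ k *ᵥ w = ρ ((dg t)⁻¹ * k * dg t) *ᵥ
      ((ρ ((dg t)⁻¹ * k⁻¹ * dg t) * b₁ * ρ k⁻¹⁻¹ - b₁) *ᵥ w + b₁ *ᵥ w) := by
    rw [← Matrix.add_mulVec, sub_add_cancel, Matrix.mulVec_mulVec, Matrix.mulVec_mulVec, inv_inv,
      ← Matrix.mul_assoc, ← Matrix.mul_assoc, ← map_mul,
      show (dg t)⁻¹ * k * dg t * ((dg t)⁻¹ * k⁻¹ * dg t) = 1 by group, map_one, Matrix.one_mul]
  rw [e]
  refine ((h₁ _ (h10.bnd hr0 hr)).mulVec hC₁.le _).trans ((mul_le_mul_of_nonneg_left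
    ((norm_add_le _ _).trans (add_le_add h11 h9)) hC₁.le).trans ?_)
  have h12 : 0 ≤ C₁ * (1 + C₃) * M := by positivity
  nlinarith

theorem bound_all (ok : AlgOK κ a ρ) (hκ : ∀ σ x, ‖κ σ x‖ = ‖x‖) (p : ℕ) (hp0 : p ≠ 0)
    (hp : ‖(p : F)‖ < 1) {r : ℝ} (hr0 : 0 < r) (hr : r ≤ 1) : ∃ C : ℝ, 0 < C ∧
    ∀ (x : GL (Fin n) F) (b : Matrix (Fin N) (Fin N) E),
      ∃ c : E, ∀ M : ℝ, 0 ≤ M → (∀ k, Near r k → Near r (x⁻¹ * k * x) →
        MLe M (ρ (x⁻¹ * k * x) * b * ρ k⁻¹ - b)) → MLe (C * M) (b - c • ρ x⁻¹) := by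
  obtain ⟨C₁, hC₁, h₁⟩ := ok.bdd hκ 1
  obtain ⟨C, hC, h₂⟩ := bound_diag ok hκ p hp0 hp hr0 hr
  refine ⟨C₁ * (C * (C₁ * C₁)) * C₁, by positivity, fun x b => ?_⟩
  obtain ⟨k₁, k₂, t, hk₁, hk₂, ht, rfl⟩ := exists_cartan x
  obtain ⟨c, hc⟩ := h₂ t ht (ρ k₂ * b * ρ k₁)
  refine ⟨c, fun M hM h => ?_⟩
  have h3 := hc (C₁ * M * C₁) (by positivity) fun k hk hk' => by
    have e1 : (k₁ * dg t * k₂)⁻¹ * (k₁⁻¹⁻¹ * k * k₁⁻¹) * (k₁ * dg t * k₂) =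
        k₂⁻¹ * ((dg t)⁻¹ * k * dg t) * k₂ := by group
    have h4 := h _ (hk.conj hr0 hk₁.inv) (e1 ▸ hk'.conj hr0 hk₂)
    have e2 : ρ ((dg t)⁻¹ * k * dg t) * (ρ k₂ * b * ρ k₁) * ρ k⁻¹ - ρ k₂ * b * ρ k₁ =
        ρ k₂ * (ρ (k₂⁻¹ * ((dg t)⁻¹ * k * dg t) * k₂) * b * ρ (k₁⁻¹⁻¹ * k * k₁⁻¹)⁻¹ - b) *
          ρ k₁ := by
      have e3 : k₂ * (k₂⁻¹ * ((dg t)⁻¹ * k * dg t) * k₂) = (dg t)⁻¹ * k * dg t * k₂ := by group
      have e4 : (k₁⁻¹⁻¹ * k * k₁⁻¹)⁻¹ * k₁ = k₁ * k⁻¹ := by group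
      rw [Matrix.mul_sub, Matrix.sub_mul, ← Matrix.mul_assoc (ρ k₂), ← Matrix.mul_assoc (ρ k₂),
        ← map_mul, e3, Matrix.mul_assoc _ (ρ _⁻¹) (ρ k₁), ← map_mul, e4, map_mul ρ _ k₂, map_mul ρ k₁]
      simp only [Matrix.mul_assoc]
    rw [e1] at h4
    rw [e2]
    exact ((h₁ _ hk₂).mul h4 hC₁.le hM).mul (h₁ _ hk₁) (by positivity) hC₁.le
  have e : b - c • ρ (k₁ * dg t * k₂)⁻¹ =
      ρ k₂⁻¹ * (ρ k₂ * b * ρ k₁ - c • ρ (dg t)⁻¹) * ρ k₁⁻¹ := by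
    rw [Matrix.mul_sub, Matrix.sub_mul, Matrix.mul_smul, Matrix.smul_mul, ← map_mul, ← map_mul,
      ← Matrix.mul_assoc, ← Matrix.mul_assoc, ← map_mul, inv_mul_cancel, map_one, Matrix.one_mul,
      Matrix.mul_assoc, ← map_mul, mul_inv_cancel, map_one, Matrix.mul_one, mul_inv_rev,
      mul_inv_rev, mul_assoc]
  rw [e]
  exact (((h₁ _ hk₂.inv).mul h3 hC₁.le (by positivity)).mul (h₁ _ hk₁.inv) (by positivity)
    hC₁.le).mono (le_of_eq (by ring))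

end Pool.Agent.MP_4d0c14_b

end

section

/-! The local vanishing statement with a uniform bound. -/

namespace Pool.Agent.MP_4d0c14_b

open scoped Matrix Kronecker

theorem H6_ext {G R E : Type} [Group G] [Ring R] [Field E] [CharZero E] [Algebra E R]
    (ρ : G →* R) (S T : G → Prop) (v : G → R) (hS : ∀ k k', S k → S k' → S (k * k'))
    (hTS : ∀ k, T k → S k) (hconj : ∀ k m, S k → T m → T (k⁻¹ * m * k))
    (hpow : ∀ k, S k → ∃ m : ℕ, 0 < m ∧ T (k ^ m))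
    (hschur : ∀ X : R, (∀ k, T k → ρ k * X = X * ρ k) → ∃ c : E, X = c • (1 : R))
    (hv : ∀ k k', S k → S k' → v (k * k') = v k + ρ k * v k' * ρ k⁻¹)
    (h0 : ∀ k, T k → v k = 0) (k : G) (hk : S k) : v k = 0 := by
  have hi : ∀ g : G, ρ g⁻¹ * ρ g = 1 := fun g => by rw [← map_mul, inv_mul_cancel, map_one]
  have hi' : ∀ g : G, ρ g * ρ g⁻¹ = 1 := fun g => by rw [← map_mul, mul_inv_cancel, map_one]
  obtain ⟨c, hc⟩ := hschur (v k) fun m hm => by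
    have h1 := hv m k (hTS m hm) hk
    have h2 := hv k _ hk (hTS _ (hconj k m hk hm))
    rw [h0 _ (hconj k m hk hm), mul_zero, zero_mul, add_zero,
      show k * (k⁻¹ * m * k) = m * k by group, h1, h0 m hm, zero_add] at h2
    calc ρ m * v k = ρ m * v k * ρ m⁻¹ * ρ m := by rw [mul_assoc _ _ (ρ m), hi, mul_one]
      _ = v k * ρ m := by rw [h2]
  have h3 : ∀ j : ℕ, S (k ^ (j + 1)) ∧ v (k ^ (j + 1)) = ((j + 1 : ℕ) : E) • v k := by
    intro j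
    induction j with
    | zero => simpa using hk
    | succ j ih =>
      rw [pow_succ' k (j + 1)]
      refine ⟨hS _ _ hk ih.1, ?_⟩
      rw [hv _ _ hk ih.1, ih.2, hc, smul_smul, mul_smul_comm, mul_one, smul_mul_assoc, hi',
        smul_smul, ← add_smul]
      congr 1
      push_cast
      ring
  obtain ⟨m, hm, hm'⟩ := hpow k hk
  obtain ⟨j, rfl⟩ := Nat.exists_eq_succ_of_ne_zero hm.ne'
  have h4 := (h3 j).2
  rw [h0 _ hm'] at h4
  exact (smul_eq_zero.1 h4.symm).resolve_left (Nat.cast_ne_zero.2 j.succ_ne_zero)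

theorem H6_block {I J E : Type} [Fintype I] [Fintype J] [DecidableEq J] [CommRing E]
    (A B : Matrix I I E) (X : Matrix (I × J) (I × J) E) (i i' : I) (c c' : J) :
    ((A ⊗ₖ (1 : Matrix J J E)) * X * (B ⊗ₖ (1 : Matrix J J E))) (i, c) (i', c') =
      (A * (Matrix.of fun j j' => X (j, c) (j', c')) * B) i i' := by
  simp [Matrix.mul_apply, Fintype.sum_prod_type, Matrix.one_apply]

variable (p : ℕ) [Fact p.Prime] {n N : ℕ} {F E ι : Type} [NontriviallyNormedField F]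
  [IsUltrametricDist F] [NormedAlgebra ℚ_[p] F] [FiniteDimensional ℚ_[p] F] [NormedField E]
  [IsUltrametricDist E] [NormedAlgebra ℚ_[p] E] [Fintype ι] {κ : ι → F →+* E}
  {a : ι → Fin n → ℤ} {ρ : GL (Fin n) F →* Matrix (Fin N) (Fin N) E}

include p in
theorem h1_local (ok : AlgOK κ a ρ) (hκ : ∀ σ x, ‖κ σ x‖ = ‖x‖) {r : ℝ} (hr0 : 0 < r)
    (hr : r ≤ 1) : ∃ C : ℝ, 0 < C ∧
    ∀ (x : GL (Fin n) F) (u : GL (Fin n) F → Matrix (Fin N) (Fin N) E),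
      (∀ k k', Near r k → Near r k' → Near r (x⁻¹ * k * x) → Near r (x⁻¹ * k' * x) →
        u (k * k') = u k + ρ (x⁻¹ * k * x) * u k' * ρ k⁻¹) →
      (∀ z : Fˣ, Near r (dg fun _ : Fin n => z) → u (dg fun _ => z) = 0) → Cts u →
      ∃ b : Matrix (Fin N) (Fin N) E,
        (∀ k, Near r k → Near r (x⁻¹ * k * x) → u k = ρ (x⁻¹ * k * x) * b * ρ k⁻¹ - b) ∧
        ∀ M : ℝ, 0 ≤ M → (∀ k, Near r k → Near r (x⁻¹ * k * x) → MLe M (u k)) →
          MLe (C * M) b := by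
  have : ProperSpace F := FiniteDimensional.proper ℚ_[p] F
  have : CharZero E := charZero_of_injective_algebraMap (algebraMap ℚ_[p] E).injective
  have : CharZero F := charZero_of_injective_algebraMap (algebraMap ℚ_[p] F).injective
  have hp0 : p ≠ 0 := (Fact.out : p.Prime).ne_zero
  have hp : ‖(p : F)‖ < 1 := by
    have : (p : F) = algebraMap ℚ_[p] F p := by simp
    rw [this, norm_algebraMap']
    exact Padic.norm_p_lt_one
  obtain ⟨C, hC, hb⟩ := bound_all ok hκ p hp0 hp hr0 hr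
  refine ⟨C, hC, fun x u hu hz hc => ?_⟩
  obtain ⟨s₀, hs₀, hsr⟩ := exists_near_conj x hr0
  have hs0 : 0 < min s₀ r := lt_min hs₀ hr0
  have hs1 : min s₀ r ≤ 1 := (min_le_right _ _).trans hr
  have hTS : ∀ k : GL (Fin n) F, Near (min s₀ r) k → Near r k ∧ Near r (x⁻¹ * k * x) :=
    fun k hk => ⟨hk.mono (min_le_right _ _), hsr k (hk.mono (min_le_left _ _))⟩
  have hu' : ∀ k k' : GL (Fin n) F, Near r k ∧ Near r (x⁻¹ * k * x) →
      Near r k' ∧ Near r (x⁻¹ * k' * x) →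
      ρ x * u (k * k') = ρ x * u k + ρ k * (ρ x * u k') * ρ k⁻¹ := fun k k' hk hk' => by
    have e : ρ x * ρ (x⁻¹ * k * x) = ρ k * ρ x := by
      rw [← map_mul, ← map_mul]; congr 1; group
    rw [hu k k' hk.1 hk'.1 hk.2 hk'.2, mul_add, ← mul_assoc, ← mul_assoc, e, mul_assoc (ρ k)]
  obtain ⟨b', hb'⟩ := whitehead p ok hκ hs0 hs1 (u := fun k => ρ x * u k)
    (fun k k' hk hk' => hu' k k' (hTS k hk) (hTS k' hk'))
    (fun ε hε => by
      obtain ⟨B, hB, hB'⟩ := MLe.exists_bound (ρ x)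
      obtain ⟨δ, hδ, h⟩ := hc (ε / B) (div_pos hε hB)
      refine ⟨δ, hδ, fun k hk => ?_⟩
      have := hB'.mul (h k hk) hB.le (div_pos hε hB).le
      rwa [mul_div_cancel₀ _ hB.ne'] at this)
    (fun z h => by simp only [hz z (hTS _ h).1, mul_zero])
  have key := H6_ext (E := E) ρ (fun k => Near r k ∧ Near r (x⁻¹ * k * x)) (Near (min s₀ r))
    (fun k => ρ x * u k - (ρ k * b' * ρ k⁻¹ - b'))
    (fun k k' hk hk' => ⟨hk.1.mul hr0 hr hk'.1, by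
      rw [show x⁻¹ * (k * k') * x = x⁻¹ * k * x * (x⁻¹ * k' * x) by group]
      exact hk.2.mul hr0 hr hk'.2⟩) hTS
    (fun k m hk hm => hm.conj hs0 (hk.1.bnd hr0 hr))
    (fun k hk => exists_pow_near (hk.1.bnd hr0 hr) hs0)
    (fun X hX => ok.schur p hp0 hp hs0 hX)
    (fun k k' hk hk' => by
      simp only [hu' k k' hk hk', mul_inv_rev, map_mul]
      noncomm_ring)
    (fun k hk => sub_eq_zero.2 (hb' k hk))
  have h1 : ∀ k, Near r k → Near r (x⁻¹ * k * x) →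
      u k = ρ (x⁻¹ * k * x) * (ρ x⁻¹ * b') * ρ k⁻¹ - ρ x⁻¹ * b' := fun k hk hk' => by
    have e : ρ (x⁻¹ * k * x) * ρ x⁻¹ = ρ x⁻¹ * ρ k := by
      rw [← map_mul, ← map_mul]; congr 1; group
    have e' : u k = ρ x⁻¹ * (ρ x * u k) := by
      rw [← mul_assoc, ← map_mul, inv_mul_cancel, map_one, one_mul]
    rw [e', sub_eq_zero.1 (key k ⟨hk, hk'⟩), ← mul_assoc (ρ (x⁻¹ * k * x)), e]
    noncomm_ring
  obtain ⟨c, hc'⟩ := hb x (ρ x⁻¹ * b')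
  refine ⟨ρ x⁻¹ * b' - c • ρ x⁻¹, fun k hk hk' => ?_,
    fun M hM h => hc' M hM fun k hk hk' => h1 k hk hk' ▸ h k hk hk'⟩
  have e : ρ (x⁻¹ * k * x) * ρ x⁻¹ * ρ k⁻¹ = ρ x⁻¹ := by
    rw [← map_mul, ← map_mul]; congr 1; group
  rw [mul_sub, sub_mul, mul_smul_comm, smul_mul_assoc, e, h1 k hk hk']
  abel

include p in
theorem h1_local_kron (ok : AlgOK κ a ρ) (hκ : ∀ σ x, ‖κ σ x‖ = ‖x‖) {r : ℝ} (hr0 : 0 < r)
    (hr : r ≤ 1) (J : Type) [Fintype J] [DecidableEq J] : ∃ C : ℝ, 0 < C ∧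
    ∀ (x : GL (Fin n) F) (u : GL (Fin n) F → Matrix (Fin N × J) (Fin N × J) E),
      (∀ k k', Near r k → Near r k' → Near r (x⁻¹ * k * x) → Near r (x⁻¹ * k' * x) →
        u (k * k') = u k + (ρ (x⁻¹ * k * x) ⊗ₖ (1 : Matrix J J E)) * u k' *
          (ρ k⁻¹ ⊗ₖ (1 : Matrix J J E))) →
      (∀ z : Fˣ, Near r (dg fun _ : Fin n => z) → u (dg fun _ => z) = 0) →
      (∀ ε : ℝ, 0 < ε → ∃ δ : ℝ, 0 < δ ∧ ∀ k, Near δ k → MLe ε (u k)) →
      ∃ b : Matrix (Fin N × J) (Fin N × J) E,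
        (∀ k, Near r k → Near r (x⁻¹ * k * x) → u k =
          (ρ (x⁻¹ * k * x) ⊗ₖ (1 : Matrix J J E)) * b * (ρ k⁻¹ ⊗ₖ (1 : Matrix J J E)) - b) ∧
        ∀ M : ℝ, 0 ≤ M → (∀ k, Near r k → Near r (x⁻¹ * k * x) → MLe M (u k)) →
          MLe (C * M) b := by
  obtain ⟨C, hC, h⟩ := h1_local p ok hκ hr0 hr
  refine ⟨C, hC, fun x u hu hz hc => ?_⟩
  choose b hb hM using fun c c' : J =>
    h x (fun k => Matrix.of fun i i' => u k (i, c) (i', c'))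
      (fun k k' h1 h2 h3 h4 => by
        ext i i'
        rw [Matrix.add_apply, ← H6_block, Matrix.of_apply, hu k k' h1 h2 h3 h4]
        rfl)
      (fun z hz' => by simp only [hz z hz']; rfl)
      (fun ε hε => by
        obtain ⟨δ, hδ, h⟩ := hc ε hε
        exact ⟨δ, hδ, fun k hk i i' => h k hk _ _⟩)
  refine ⟨Matrix.of fun i i' => b i.2 i'.2 i.1 i'.1, fun k hk hk' => ?_,
    fun M hM0 hu' i i' => hM i.2 i'.2 M hM0 (fun k hk hk' j j' => hu' k hk hk' _ _) _ _⟩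
  ext ⟨i, c⟩ ⟨i', c'⟩
  rw [Matrix.sub_apply, H6_block]
  exact congrFun (congrFun (hb c c' k hk hk') i) i'

end Pool.Agent.MP_4d0c14_b

end

section

/-! The data for the vanishing of the obstruction in degree one. -/

namespace Pool.Agent.MP_4d0c14_b

open scoped Matrix Kronecker

section Aux

variable {n : ℕ} {F : Type}

/-- The scalar matrices. -/
def F2_sc (n : ℕ) [Field F] : Fˣ →* GL (Fin n) F where
  toFun z := dg fun _ => z
  map_one' := dg_one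
  map_mul' s t := dg_mul (fun _ => s) (fun _ => t)

theorem F2_sc_comm [Field F] (z : Fˣ) (g : GL (Fin n) F) : F2_sc n z * g = g * F2_sc n z :=
  dg_const_comm z g

theorem F2_pos {s : ℝ} (h0 : 0 < s) (i : ℕ) : 0 < s / (i + 1) := by positivity

theorem F2_le {s : ℝ} (h0 : 0 < s) (i : ℕ) : s / (i + 1) ≤ s :=
  div_le_self h0.le (by linarith [(Nat.cast_nonneg i : (0 : ℝ) ≤ i)])

theorem F2_small (s : ℝ) {δ : ℝ} (hδ : 0 < δ) : ∃ i : ℕ, s / (i + 1) ≤ δ := by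
  obtain ⟨i, hi⟩ := exists_nat_ge (s / δ)
  refine ⟨i, ?_⟩
  rw [div_le_iff₀ hδ] at hi
  rw [div_le_iff₀ (by positivity)]
  nlinarith

variable [NormedField F] [IsUltrametricDist F] {s : ℝ}

/-- The decreasing sequence of congruence subgroups. -/
noncomputable def F2_K (n : ℕ) (F : Type) [NormedField F] [IsUltrametricDist F] (h0 : 0 < s) (h1 : s ≤ 1)
    (i : ℕ) : Subgroup (GL (Fin n) F) :=
  KK n F (s / (i + 1)) (F2_pos h0 i) ((F2_le h0 i).trans h1)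

theorem F2_mem {h0 : 0 < s} {h1 : s ≤ 1} {i : ℕ} {g : GL (Fin n) F} :
    g ∈ F2_K n F h0 h1 i ↔ Near (s / (i + 1)) g := Iff.rfl

theorem F2_mem0 {h0 : 0 < s} {h1 : s ≤ 1} {g : GL (Fin n) F} :
    g ∈ F2_K n F h0 h1 0 ↔ Near s g := by
  rw [F2_mem, Nat.cast_zero, zero_add, div_one]

/-- The congruence subgroup times the powers of `ϖ`. -/
def F2_Kp (n : ℕ) (h0 : 0 < s) (h1 : s ≤ 1) (ϖ : Fˣ) : Subgroup (GL (Fin n) F) where
  carrier := {g | ∃ (k : GL (Fin n) F) (e : ℤ), Near s k ∧ g = k * F2_sc n (ϖ ^ e)}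
  mul_mem' := by
    rintro _ _ ⟨k, e, hk, rfl⟩ ⟨k', e', hk', rfl⟩
    refine ⟨k * k', e + e', hk.mul h0 h1 hk', ?_⟩
    rw [zpow_add, map_mul, mul_assoc, ← mul_assoc (F2_sc n (ϖ ^ e)), F2_sc_comm (ϖ ^ e) k',
      mul_assoc, mul_assoc]
  one_mem' := ⟨1, 0, near_one h0, by rw [zpow_zero, map_one, mul_one]⟩
  inv_mem' := by
    rintro _ ⟨k, e, hk, rfl⟩
    refine ⟨k⁻¹, -e, hk.inv h0 h1, ?_⟩
    rw [mul_inv_rev, zpow_neg, ← map_inv, F2_sc_comm]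

theorem F2_near_mem {h0 : 0 < s} {h1 : s ≤ 1} (ϖ : Fˣ) {g : GL (Fin n) F} (hg : Near s g) :
    g ∈ F2_Kp n h0 h1 ϖ := ⟨g, 0, hg, by rw [zpow_zero, map_one, mul_one]⟩

theorem F2_key {h0 : 0 < s} {h1 : s ≤ 1} {ϖ : Fˣ} (hϖ : ‖(ϖ : F)‖ < 1) {x k : GL (Fin n) F}
    (hk : Near s k) (h : x⁻¹ * k * x ∈ F2_Kp n h0 h1 ϖ) : Near s (x⁻¹ * k * x) := by
  obtain ⟨k', e, hk', he⟩ := h
  rcases Nat.eq_zero_or_pos n with rfl | hn
  · exact fun i => i.elim0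
  have d1 := (hk.bnd h0 h1).norm_det
  have d2 := (hk'.bnd h0 h1).norm_det
  have d3 : ((x⁻¹ * k * x : GL (Fin n) F) : Matrix (Fin n) (Fin n) F).det =
      (k : Matrix (Fin n) (Fin n) F).det := by
    rw [Units.val_mul, Units.val_mul, Matrix.det_mul, Matrix.det_mul, mul_right_comm,
      ← Matrix.det_mul, Units.inv_mul, Matrix.det_one, one_mul]
  have d4 : ((F2_sc n (ϖ ^ e) : GL (Fin n) F) : Matrix (Fin n) (Fin n) F).det =
      ((ϖ : F) ^ e) ^ n := by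
    have : ((F2_sc n (ϖ ^ e) : GL (Fin n) F) : Matrix (Fin n) (Fin n) F) =
        Matrix.diagonal fun _ => ((ϖ ^ e : Fˣ) : F) := rfl
    rw [this, Matrix.det_diagonal]
    simp
  rw [he, Units.val_mul, Matrix.det_mul, d4] at d3
  have d5 := congrArg norm d3
  rw [norm_mul, d1, d2, one_mul, norm_pow, norm_zpow,
    pow_eq_one_iff_of_nonneg (zpow_nonneg (norm_nonneg _) _) hn.ne',
    zpow_eq_one_iff_right₀ (norm_nonneg _) hϖ.ne] at d5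
  rw [he, d5, zpow_zero, map_one, mul_one]
  exact hk'

theorem F2_kron {α β E : Type} [DecidableEq α] [DecidableEq β] [NormedField E] {ε : ℝ}
    {A : Matrix α α E} (h : MLe ε (A - 1)) : MLe ε (A ⊗ₖ (1 : Matrix β β E) - 1) := by
  have e : A ⊗ₖ (1 : Matrix β β E) - 1 = (A - 1) ⊗ₖ (1 : Matrix β β E) := by
    rw [← Matrix.one_kronecker_one (α := E) (m := α) (n := β)]
    ext i j
    simp only [Matrix.sub_apply, Matrix.kroneckerMap_apply, sub_mul]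
  rw [e]
  simpa using h.kron (MLe.one (α := β) (E := E))

end Aux

theorem TypeData.nonempty_h1Data (p : ℕ) [Fact p.Prime] {n k m N : ℕ} {F E ι : Type}
    [NontriviallyNormedField F] [IsUltrametricDist F] [NormedAlgebra ℚ_[p] F]
    [FiniteDimensional ℚ_[p] F] [ProperSpace F] [NormedField E] [IsUltrametricDist E]
    [NormedAlgebra ℚ_[p] E] [Fintype ι] (D : TypeData n k m F E) {r : ℝ} (hr : D.Good r)
    (ϖ : Fˣ) (hϖ : ‖(ϖ : F)‖ < 1) {κ : ι → F →+* E} {a : ι → Fin n → ℤ}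
    {ρ : GL (Fin n) F →* Matrix (Fin N) (Fin N) E} (ok : AlgOK κ a ρ)
    (hκ : ∀ σ x, ‖κ σ x‖ = ‖x‖) : Nonempty ((D.iw hr ϖ hϖ).tfib ρ).H1Data := by
  obtain ⟨s, h0, h1, hs⟩ := D.near_mem hr
  have hμ : ∀ g, Near s g → ((D.iw hr ϖ hϖ).tfib ρ).μ g =
      ρ g ⊗ₖ (1 : Matrix (Fin m) (Fin m) E) := fun g hg =>
    congrArg (fun A => ρ g ⊗ₖ A) (hs g hg).2
  refine ⟨⟨F2_K n F h0 h1, F2_Kp n h0 h1 ϖ, (F2_sc n).range, ?_, ?_, ?_, ?_, ?_, ?_, ?_, ?_, ?_,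
    ?_, ?_⟩⟩
  · intro i j hij g hg
    refine Near.mono (F2_mem.1 hg) (div_le_div_of_nonneg_left h0.le (by positivity) ?_)
    have : (i : ℝ) ≤ j := Nat.cast_le.2 hij
    linarith
  · exact fun g hg => F2_near_mem ϖ (F2_mem0.1 hg)
  · rintro _ ⟨g, e, hg, rfl⟩
    exact (D.HH hr).mul_mem (hs g hg).1 (D.scalar_mem hr _).1
  · rintro _ ⟨z, rfl⟩
    exact (D.scalar_mem hr z).1
  · rintro _ ⟨z, rfl⟩ g
    exact F2_sc_comm z g
  · rintro _ ⟨z, rfl⟩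
    refine ⟨chi κ a (fun _ => z) * (D.omega fun _ => z : E), ?_⟩
    have e : ((D.iw hr ϖ hϖ).tfib ρ).μ (F2_sc n z) =
        ρ (dg fun _ => z) ⊗ₖ D.lamF (dg fun _ => z) := rfl
    rw [e, ok.cen, (D.scalar_mem hr z).2, Matrix.smul_kronecker, Matrix.kronecker_smul,
      Matrix.one_kronecker_one, smul_smul]
  · rintro _ ⟨g, e, hg, rfl⟩
    exact ⟨g, F2_mem0.2 hg, _, ⟨_, rfl⟩, rfl⟩
  · obtain ⟨T, -, hT⟩ := D.hh_cover hr ϖ hϖ h0
    refine ⟨T, fun h hh => ?_⟩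
    obtain ⟨t, ht, e, he⟩ := hT h hh
    refine ⟨t, ht, t⁻¹ * (F2_sc n (ϖ ^ e) * h), -e, he, ?_⟩
    rw [F2_sc_comm, zpow_neg, map_inv, ← mul_assoc, mul_inv_cancel_right]
  · intro i
    obtain ⟨T, -, hT⟩ := finite_cover_of_subset (n := n) (F := F) 1 (F2_pos h0 i) {g | Near s g}
      fun g hg => Near.bnd h0 h1 hg
    classical
    refine ⟨T.image Inv.inv, fun g hg => ?_⟩
    obtain ⟨t, ht, h⟩ := hT g⁻¹ ((F2_mem0.1 hg).inv h0 h1)
    refine ⟨t⁻¹, Finset.mem_image_of_mem _ ht, ?_⟩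
    have := (F2_K n F h0 h1 i).inv_mem (F2_mem.2 h)
    rwa [mul_inv_rev, inv_inv] at this
  · intro x ε hε
    obtain ⟨δ, hδ, hc⟩ := ok.cont hκ hε
    obtain ⟨η, hη, hx⟩ := exists_near_conj x (lt_min h0 hδ)
    obtain ⟨i, hi⟩ := F2_small s hη
    refine ⟨i, fun g hg => ?_⟩
    have h2 := hx g ((F2_mem.1 hg).mono hi)
    have h3 := h2.mono (min_le_left _ _)
    refine ⟨(hs _ h3).1, ?_⟩
    rw [hμ _ h3]
    exact F2_kron (hc _ (h2.mono (min_le_right _ _)))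
  · obtain ⟨C, hC, H⟩ := h1_local_kron p ok hκ h0 h1 (Fin m)
    refine ⟨C, hC, fun x u hu hz hc => ?_⟩
    obtain ⟨b, hb, hM⟩ := H x u
      (fun g g' hg hg' hx hx' => by
        rw [hu g (F2_mem0.2 hg) g' (F2_mem0.2 hg') (F2_near_mem ϖ hx) (F2_near_mem ϖ hx'),
          hμ _ hx, hμ _ (hg.inv h0 h1)])
      (fun z hn => hz _ ⟨z, rfl⟩ (F2_mem0.2 hn))
      (fun ε hε => by
        obtain ⟨i, hi⟩ := hc ε hε
        obtain ⟨η, hη, hx⟩ := exists_near_conj x h0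
        exact ⟨min (s / (i + 1)) η, lt_min (F2_pos h0 i) hη, fun g hg =>
          hi g (F2_mem.2 (hg.mono (min_le_left _ _)))
            (F2_near_mem ϖ (hx g (hg.mono (min_le_right _ _))))⟩)
    refine ⟨b, fun g hg hx => ?_, fun M hM0 h => hM M hM0 fun g hg hx =>
      h g (F2_mem0.2 hg) (F2_near_mem ϖ hx)⟩
    have hg' := F2_mem0.1 hg
    have hx' := F2_key hϖ hg' hx
    rw [hμ _ hx', hμ _ (hg'.inv h0 h1)]
    exact hb g hg' hx'

end Pool.Agent.MP_4d0c14_b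

end

section

/-! The approximate inverse contradicts the orbit estimate. -/

namespace Pool.Agent.MP_4d0c14_b

open scoped Matrix Kronecker

/-- a matrix commuting with all `A ⊗ 1` is of the form `1 ⊗ B` -/
theorem eq_one_kron {E ι₁ ι : Type} [Field E] [Fintype ι₁] [DecidableEq ι₁] [Fintype ι]
    [DecidableEq ι] (S : Set (Matrix ι₁ ι₁ E)) (hS : Submodule.span E S = ⊤)
    (X : Matrix (ι₁ × ι) (ι₁ × ι) E)
    (hX : ∀ A ∈ S, (A ⊗ₖ (1 : Matrix ι ι E)) * X = X * (A ⊗ₖ (1 : Matrix ι ι E))) (i : ι₁) :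
    X = (1 : Matrix ι₁ ι₁ E) ⊗ₖ Matrix.of fun a b => X (i, a) (i, b) := by
  have h1 : ∀ A : Matrix ι₁ ι₁ E,
      (A ⊗ₖ (1 : Matrix ι ι E)) * X = X * (A ⊗ₖ (1 : Matrix ι ι E)) := by
    intro A
    have hA : A ∈ Submodule.span E S := hS ▸ Submodule.mem_top
    induction hA using Submodule.span_induction with
    | mem A h => exact hX A h
    | zero => simp
    | add A B _ _ hA hB => rw [Matrix.add_kronecker, add_mul, mul_add, hA, hB]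
    | smul c A _ hA => rw [Matrix.smul_kronecker, smul_mul_assoc, mul_smul_comm, hA]
  ext ⟨j, a⟩ ⟨k, b⟩
  have := congrFun (congrFun (h1 (Matrix.single i j 1)) (i, a)) (k, b)
  simp only [Matrix.mul_apply, Fintype.sum_prod_type, Matrix.kroneckerMap_apply, Matrix.single,
    Matrix.one_apply, Matrix.of_apply] at this ⊢
  by_cases hjk : j = k
  · subst hjk
    simpa [ite_and, Finset.sum_ite_eq, Finset.sum_ite_eq'] using this
  · simpa [ite_and, hjk, Finset.sum_ite_eq, Finset.sum_ite_eq'] using this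

/-- the map `B ↦ 1 ⊗ B` -/
def E1_ok (ι₁ : Type) {E ι : Type} [Field E] [DecidableEq ι₁] :
    Matrix ι ι E →+ Matrix (ι₁ × ι) (ι₁ × ι) E where
  toFun B := (1 : Matrix ι₁ ι₁ E) ⊗ₖ B
  map_zero' := Matrix.kronecker_zero _
  map_add' := fun _ _ => Matrix.kronecker_add _ _ _

theorem E1_ok_inj {ι₁ E ι : Type} [Field E] [DecidableEq ι₁] [Nonempty ι₁] {B B' : Matrix ι ι E}
    (h : (1 : Matrix ι₁ ι₁ E) ⊗ₖ B = (1 : Matrix ι₁ ι₁ E) ⊗ₖ B') : B = B' := by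
  obtain ⟨i⟩ := ‹Nonempty ι₁›
  ext a b
  simpa using congrFun (congrFun h (i, a)) (i, b)

/-- grouping a finite invariant sum by orbits -/
theorem E1_orbit_sum {N α E ι : Type} [Group N] [MulAction N α] [NormedField E]
    [IsUltrametricDist E] (t : α → Matrix ι ι E) (hfin : (Function.support t).Finite)
    (hinv : ∀ (u : N) c, t (u • c) = t c) {a : ℝ} (ha : 0 ≤ a)
    (hb : ∀ c, t c ≠ 0 → MLe a ((((MulAction.stabilizer N c).index : ℕ) : E) • t c)) :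
    MLe a (∑ᶠ c, t c) := by
  classical
  rw [finsum_eq_sum t hfin, Finset.sum_partition (MulAction.orbitRel N α)]
  refine MLe.sum ha fun y hy => ?_
  obtain ⟨c, hc, rfl⟩ := Finset.mem_image.1 hy
  have hc' : t c ≠ 0 := by simpa using hc
  have h1 : ∀ y, (Quotient.mk (MulAction.orbitRel N α) y = Quotient.mk _ c) ↔
      y ∈ MulAction.orbit N c := fun y => by
    rw [Quotient.eq, MulAction.orbitRel_apply]
  have h2 : ((hfin.toFinset.filter fun y =>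
      Quotient.mk (MulAction.orbitRel N α) y = Quotient.mk _ c : Finset α) : Set α) =
      MulAction.orbit N c := by
    ext y
    simp only [Finset.coe_filter, Set.Finite.mem_toFinset, Function.mem_support, Set.mem_ofPred_eq,
      h1]
    refine ⟨fun h => h.2, fun h => ⟨?_, h⟩⟩
    obtain ⟨u, rfl⟩ := h
    simpa [hinv] using hc'
  rw [Finset.sum_congr rfl (g := fun _ => t c), Finset.sum_const, ← Set.ncard_coe_finset, h2,
    ← MulAction.index_stabilizer, ← Nat.cast_smul_eq_nsmul E]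
  · exact hb c hc'
  · intro y hy
    obtain ⟨u, rfl⟩ := (h1 y).1 (Finset.mem_filter.1 hy).2
    exact hinv u c

namespace Iw

variable {G E ι ι₁ : Type} [Group G] [NormedField E] [IsUltrametricDist E]
  [Fintype ι] [DecidableEq ι] (D : Iw G E ι) [Fintype ι₁] [DecidableEq ι₁]
  (ρ : G →* Matrix ι₁ ι₁ E)

theorem exists_small_unit [Nonempty ι₁] {d : ℕ} {γ : Fin d → G} (hγ : ∀ i, D.Pos (γ i))
    (hburn : ∀ x : G, Submodule.span E {A | ∃ k ∈ D.H, x⁻¹ * k * x ∈ D.H ∧ D.lam k = 1 ∧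
      D.lam (x⁻¹ * k * x) = 1 ∧ A = ρ k} = ⊤)
    (h : (D.tfib ρ).Approx fun i => D.tker ρ (γ i)) (ε : ℝ) (hε : 0 < ε) :
    ∃ q : G → Matrix ι ι E, D.fib.Ker q ∧ (∀ x, MLe ε (ρ x⁻¹ ⊗ₖ q x)) ∧ D.pmap q 1 = 1 := by
  obtain ⟨Y, hY, hle⟩ := h ε hε
  obtain ⟨i⟩ := ‹Nonempty ι₁›
  have hc : ∀ j, (D.tfib ρ).Ker ((D.tfib ρ).conv (D.tker ρ (γ j)) (Y j)) := fun j =>
    (D.tker_ker ρ (hγ j)).conv (hY j)
  obtain ⟨Q, hQ⟩ : ∃ Q, Q = (D.tfib ρ).del - ∑ j, (D.tfib ρ).conv (D.tker ρ (γ j)) (Y j) :=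
    ⟨_, rfl⟩
  have hs : (D.tfib ρ).Ker (∑ j, (D.tfib ρ).conv (D.tker ρ (γ j)) (Y j)) :=
    ⟨Fib.Eqv.sum fun j _ => (hc j).1, Fib.LEqv.sum fun j _ => (hc j).2.1,
      Fib.Fin0.sum fun j _ => (hc j).2.2⟩
  have hK : (D.tfib ρ).Ker Q := hQ ▸ Fib.del_ker.sub hs
  have hle' : ∀ x, MLe ε (Q x) := fun x => by
    rw [hQ, Pi.sub_apply, Finset.sum_apply]
    exact hle x
  have hp : D.tpmap ρ Q 1 = 1 := by
    rw [hQ, D.tpmap_sub ρ Fib.del_ker.2.2 hs.2.2, D.tpmap_sum ρ fun j _ => (hc j).2.2,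
      D.tpmap_del, D.phi_one, Matrix.one_kronecker_one, Finset.sum_eq_zero, sub_zero]
    exact fun j _ => D.tpmap_tker ρ (hγ j) (hY j).1 (hY j).2.2 1
  have hR : ∀ x, ∀ k ∈ D.H, Q (x * k) = (ρ k⁻¹ ⊗ₖ D.lam k⁻¹) * Q x := hK.1
  have hL : ∀ x, ∀ k ∈ D.H, Q (k * x) = Q x * (ρ k⁻¹ ⊗ₖ D.lam k⁻¹) := hK.2.1
  have hX : ∀ x, ∃ B : Matrix ι ι E,
      (ρ x ⊗ₖ (1 : Matrix ι ι E)) * Q x = (1 : Matrix ι₁ ι₁ E) ⊗ₖ B := by
    intro x
    refine ⟨_, eq_one_kron _ (hburn x) _ ?_ i⟩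
    rintro A ⟨k, hk, hk', h1, h2, rfl⟩
    have e1 := hL x k⁻¹ (D.H.inv_mem hk)
    have e2 := hR x (x⁻¹ * k * x)⁻¹ (D.H.inv_mem hk')
    have e3 : x * (x⁻¹ * k * x)⁻¹ = k⁻¹ * x := by group
    rw [inv_inv, h1] at e1
    rw [inv_inv, h2, e3, e1] at e2
    rw [Matrix.mul_assoc, e2, ← Matrix.mul_assoc, ← Matrix.mul_assoc, ← Matrix.mul_kronecker_mul,
      ← Matrix.mul_kronecker_mul, ← map_mul, ← map_mul]
    congr 3
    group
  choose q hq using hX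
  have hQq : ∀ x, Q x = ρ x⁻¹ ⊗ₖ q x := fun x => by
    have e : (ρ x⁻¹ ⊗ₖ (1 : Matrix ι ι E)) * ((ρ x ⊗ₖ (1 : Matrix ι ι E)) * Q x) = Q x := by
      rw [← Matrix.mul_assoc, ← Matrix.mul_kronecker_mul, ← map_mul, inv_mul_cancel, map_one,
        Matrix.one_mul, Matrix.one_kronecker_one, Matrix.one_mul]
    rw [← e, hq, ← Matrix.mul_kronecker_mul, Matrix.mul_one, Matrix.one_mul]
  refine ⟨q, ⟨fun x k hk => ?_, fun x k hk => ?_, ?_⟩, fun x => hQq x ▸ hle' x, ?_⟩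
  · apply E1_ok_inj (ι₁ := ι₁)
    rw [← hq, hR x k hk, hQq x, ← Matrix.mul_kronecker_mul, ← Matrix.mul_kronecker_mul,
      ← map_mul, ← map_mul, ← mul_inv_rev, mul_inv_cancel, map_one, Matrix.one_mul]
    rfl
  · apply E1_ok_inj (ι₁ := ι₁)
    rw [← hq, hL x k hk, hQq x, ← Matrix.mul_kronecker_mul, ← Matrix.mul_kronecker_mul,
      ← map_mul, ← map_mul, ← mul_inv_rev, mul_inv_cancel, map_one, Matrix.one_mul]
    rfl
  · obtain ⟨T, hT⟩ := hK.2.2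
    refine ⟨T, fun x hx => hT x fun h0 => hx ?_⟩
    apply E1_ok_inj (ι₁ := ι₁)
    rw [← hq, h0, Matrix.mul_zero, Matrix.kronecker_zero]
  · apply E1_ok_inj (ι₁ := ι₁)
    rw [Matrix.one_kronecker_one, ← hp]
    have e := (E1_ok ι₁ (E := E) (ι := ι)).map_finsum_of_preimage_zero
      (fun B hB => E1_ok_inj (ι₁ := ι₁) (hB.trans (Matrix.kronecker_zero _).symm))
      fun c : G ⧸ D.H => D.phi (1 * c.out) * q c.out
    refine e.trans (finsum_congr fun c => ?_)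
    rw [hQq, ← Matrix.mul_kronecker_mul, ← map_mul, mul_inv_cancel, map_one]
    rfl

theorem not_small_unit [Nonempty ι] (N : Subgroup G) (hN : ∀ u ∈ N, u ∈ D.H ∧ u ∈ D.P ∧ D.lam u = 1)
    (C : ℝ) (hC : ∀ p ∈ D.P, ∃ i i', ∀ a a',
      ‖(((MulAction.stabilizer G (p : G ⧸ D.H)).relIndex N : ℕ) : E)‖ * ‖D.lam p a a'‖ ≤
        C * ‖ρ p⁻¹ i i'‖) :
    ¬∀ ε : ℝ, 0 < ε →
      ∃ q : G → Matrix ι ι E, D.fib.Ker q ∧ (∀ x, MLe ε (ρ x⁻¹ ⊗ₖ q x)) ∧ D.pmap q 1 = 1 := by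
  intro h
  have hpos : 0 < 2 * (|C| + 1) := by positivity
  obtain ⟨q, ⟨hR, hL, T, hT⟩, hle, h1⟩ := h (1 / (2 * (|C| + 1))) (by positivity)
  set ε := 1 / (2 * (|C| + 1)) with hε
  have hε0 : 0 < ε := by positivity
  have hR' : ∀ x, ∀ k ∈ D.H, q (x * k) = D.lam k⁻¹ * q x := hR
  have hL' : ∀ x, ∀ k ∈ D.H, q (k * x) = q x * D.lam k⁻¹ := hL
  have e1 : ∀ g, ∀ k ∈ D.H, D.phi (g * k) * q (g * k) = D.phi g * q g := fun g k hk => by
    have e : D.lam k * D.lam k⁻¹ = 1 := D.fib.μ_mul_inv hk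
    rw [D.phi_right hk, hR' g k hk, Matrix.mul_assoc, ← Matrix.mul_assoc (D.lam k), e,
      Matrix.one_mul]
  have e2 : ∀ g, ∀ u ∈ N, D.phi (u * g) * q (u * g) = D.phi g * q g := fun g u hu => by
    rw [D.phi_left (hN u hu).2.1, hL' g u (hN u hu).1, (hN u hu).2.2,
      (hN u⁻¹ (N.inv_mem hu)).2.2, Matrix.one_mul, Matrix.mul_one]
  obtain ⟨t, ht⟩ : ∃ t : G ⧸ D.H → Matrix ι ι E, t = fun c => D.phi (1 * c.out) * q c.out :=
    ⟨_, rfl⟩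
  have e3 : ∀ g : G, t (g : G ⧸ D.H) = D.phi g * q g := fun g => by
    obtain ⟨k, hk⟩ := QuotientGroup.mk_out_eq_mul D.H g
    rw [ht]
    simp only [one_mul]
    rw [hk, e1 g k k.2]
  have hfin : (Function.support t).Finite := by
    refine (T.finite_toSet.image fun g : G => (g : G ⧸ D.H)).subset fun c hc => ?_
    obtain ⟨g, rfl⟩ := QuotientGroup.mk_surjective c
    rw [Function.mem_support, e3] at hc
    obtain ⟨s, hs, hs'⟩ := hT g fun h0 => hc (by rw [h0, Matrix.mul_zero])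
    exact ⟨s, hs, QuotientGroup.eq.2 hs'⟩
  have hsum : ∑ᶠ c, t c = 1 := by rw [ht]; exact h1
  have hM := E1_orbit_sum (N := N) t hfin (a := |C| * ε) (fun u c => ?_) (by positivity)
    fun c hc => ?_
  · obtain ⟨a⟩ := ‹Nonempty ι›
    have h2 := hM a a
    rw [hsum, Matrix.one_apply_eq, norm_one, hε, mul_one_div, le_div_iff₀ hpos] at h2
    linarith [abs_nonneg C]
  · obtain ⟨g, rfl⟩ := QuotientGroup.mk_surjective c
    have e : (u • (g : G ⧸ D.H)) = (((u : G) * g : G) : G ⧸ D.H) := rfl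
    rw [e, e3, e3, e2 g u u.2]
  · obtain ⟨g, rfl⟩ := QuotientGroup.mk_surjective c
    rw [e3] at hc
    obtain ⟨p, hp, k, hk, rfl⟩ : ∃ p ∈ D.P, ∃ k ∈ D.H, g = p * k := by
      by_contra h0
      exact hc (by rw [D.phi_eq_zero h0, Matrix.zero_mul])
    have e4 : ((p * k : G) : G ⧸ D.H) = (p : G ⧸ D.H) := QuotientGroup.mk_mul_of_mem p hk
    have e5 : D.phi p = D.lam p := by
      have := D.phi_mul hp D.H.one_mem
      rwa [mul_one, D.lam_one, Matrix.mul_one] at this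
    have e6 : (MulAction.stabilizer N (p : G ⧸ D.H)).index =
        (MulAction.stabilizer G (p : G ⧸ D.H)).relIndex N := rfl
    rw [e4, e3, e5, e6]
    obtain ⟨i, i', hi⟩ := hC p hp
    intro a b
    rw [← Matrix.smul_mul, Matrix.mul_apply]
    refine IsUltrametricDist.norm_sum_le_of_forall_le_of_nonneg (by positivity) fun a' _ => ?_
    have h3 := hle p (i, a') (i', b)
    rw [Matrix.kroneckerMap_apply, norm_mul] at h3
    rw [Matrix.smul_apply, norm_mul, smul_eq_mul, norm_mul]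
    calc _ ≤ (|C| * ‖ρ p⁻¹ i i'‖) * ‖q p a' b‖ :=
          mul_le_mul_of_nonneg_right ((hi a a').trans
            (mul_le_mul_of_nonneg_right (le_abs_self C) (norm_nonneg _))) (norm_nonneg _)
      _ = |C| * (‖ρ p⁻¹ i i'‖ * ‖q p a' b‖) := mul_assoc _ _ _
      _ ≤ |C| * ε := mul_le_mul_of_nonneg_left h3 (abs_nonneg C)

end Iw

end Pool.Agent.MP_4d0c14_b

end

section

/-! Generators of the positive elements for two and for three blocks. -/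

namespace Pool.Agent.MP_4d0c14_b

theorem exists_gen_int {J : Type} [Group J] (φ : J →* Multiplicative ℤ)
    (h : ∃ j, 0 < (φ j).toAdd) :
    ∃ γ, 0 < (φ γ).toAdd ∧ ∀ j, ∃ c : ℤ, (φ j).toAdd = c * (φ γ).toAdd := by
  let S : AddSubgroup ℤ :=
    { carrier := {x | ∃ j, (φ j).toAdd = x}
      add_mem' := by
        rintro _ _ ⟨a, rfl⟩ ⟨b, rfl⟩
        exact ⟨a * b, by simp⟩
      zero_mem' := ⟨1, by simp⟩
      neg_mem' := by
        rintro _ ⟨a, rfl⟩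
        exact ⟨a⁻¹, by simp⟩ }
  obtain ⟨a, ha⟩ := Int.subgroup_cyclic S
  have hmem : ∀ j, ∃ c : ℤ, (φ j).toAdd = c * a := by
    intro j
    have h1 : (φ j).toAdd ∈ S := ⟨j, rfl⟩
    rw [ha, AddSubgroup.mem_closure_singleton] at h1
    obtain ⟨c, hc⟩ := h1
    exact ⟨c, by rw [← hc, zsmul_eq_mul, Int.cast_id]⟩
  have haS : a ∈ S := by
    rw [ha]
    exact AddSubgroup.subset_closure rfl
  obtain ⟨g, hg⟩ := haS
  rcases lt_trichotomy a 0 with h0 | h0 | h0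
  · refine ⟨g⁻¹, by simp [hg, h0], fun j => ?_⟩
    obtain ⟨c, hc⟩ := hmem j
    exact ⟨-c, by simp [hg, hc]⟩
  · obtain ⟨j, hj⟩ := h
    obtain ⟨c, hc⟩ := hmem j
    rw [hc, h0] at hj
    simp at hj
  · refine ⟨g, by rw [hg]; exact h0, fun j => ?_⟩
    obtain ⟨c, hc⟩ := hmem j
    exact ⟨c, by rw [hg, hc]⟩

theorem exists_gen_int_two {J : Type} [Group J] (φ : J →* Multiplicative (ℤ × ℤ))
    (h₁ : ∃ j, 0 < (φ j).toAdd.1) (h₂ : ∃ j, (φ j).toAdd.1 = 0 ∧ 0 < (φ j).toAdd.2) :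
    ∃ γ₁ γ₂, 0 ≤ (φ γ₁).toAdd ∧ 0 ≤ (φ γ₂).toAdd ∧
      ∀ j, ∃ c₁ c₂ : ℤ, (φ j).toAdd = c₁ • (φ γ₁).toAdd + c₂ • (φ γ₂).toAdd := by
  let φ₁ : J →* Multiplicative ℤ :=
    MonoidHom.mk' (fun j => Multiplicative.ofAdd (φ j).toAdd.1) (fun a b => by
      simp [← ofAdd_add])
  let φ₂ : φ₁.ker →* Multiplicative ℤ :=
    MonoidHom.mk' (fun j => Multiplicative.ofAdd (φ j.1).toAdd.2) (fun a b => by
      simp [← ofAdd_add])
  have hker : ∀ j, j ∈ φ₁.ker ↔ (φ j).toAdd.1 = 0 := fun j => by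
    rw [MonoidHom.mem_ker]
    exact ofAdd_eq_one
  obtain ⟨g₁, hg₁, hgen₁⟩ := exists_gen_int φ₁ h₁
  obtain ⟨g₂, hg₂, hgen₂⟩ := exists_gen_int φ₂ (by
    obtain ⟨j, hj, hj'⟩ := h₂
    exact ⟨⟨j, (hker j).2 hj⟩, hj'⟩)
  have hg₁' : 0 < (φ g₁).toAdd.1 := hg₁
  have hg₂' : 0 < (φ g₂.1).toAdd.2 := hg₂
  have hg₂0 : (φ g₂.1).toAdd.1 = 0 := (hker _).1 g₂.2
  refine ⟨g₁ * g₂.1 ^ |(φ g₁).toAdd.2|, g₂.1, ?_, ?_, fun j => ?_⟩
  · rw [map_mul, map_zpow, toAdd_mul, toAdd_zpow, Prod.le_def]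
    simp only [Prod.fst_add, Prod.snd_add, Prod.smul_fst, Prod.smul_snd, Prod.fst_zero,
      Prod.snd_zero, hg₂0, smul_eq_mul, mul_zero, add_zero]
    refine ⟨hg₁'.le, ?_⟩
    have h1 := neg_abs_le (φ g₁).toAdd.2
    have h2 := abs_nonneg (φ g₁).toAdd.2
    nlinarith
  · rw [Prod.le_def]
    exact ⟨hg₂0.ge, hg₂'.le⟩
  · obtain ⟨c₁, hc₁⟩ := hgen₁ j
    have hc₁' : (φ j).toAdd.1 = c₁ * (φ g₁).toAdd.1 := hc₁
    have hk : j * g₁ ^ (-c₁) ∈ φ₁.ker := by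
      rw [hker, map_mul, map_zpow, toAdd_mul, toAdd_zpow]
      simp [hc₁']
    obtain ⟨c₂, hc₂⟩ := hgen₂ ⟨_, hk⟩
    have hc₂' : (φ (j * g₁ ^ (-c₁))).toAdd.2 = c₂ * (φ g₂.1).toAdd.2 := hc₂
    rw [map_mul, map_zpow, toAdd_mul, toAdd_zpow] at hc₂'
    simp only [Prod.snd_add, Prod.smul_snd, smul_eq_mul] at hc₂'
    refine ⟨c₁, c₂ - c₁ * |(φ g₁).toAdd.2|, ?_⟩
    rw [map_mul, map_zpow, toAdd_mul, toAdd_zpow]
    refine Prod.ext ?_ ?_
    · simp only [Prod.fst_add, Prod.smul_fst, smul_eq_mul, hg₂0, hc₁']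
      ring
    · simp only [Prod.snd_add, Prod.smul_snd, smul_eq_mul]
      linear_combination hc₂'

namespace TypeData

variable {n k m : ℕ} {F E : Type} [NormedField F] [IsUltrametricDist F] [Field E]

theorem exists_slope_hom (D : TypeData n k m F E) (ϖ : Fˣ) (hϖ : ‖(ϖ : F)‖ < 1)
    (hmax : ∀ x : F, ‖x‖ < 1 → ‖x‖ ≤ ‖(ϖ : F)‖) : ∃ φ : D.J →* Multiplicative (Fin k → ℤ),
      ∀ (j : D.J) i, D.sl j i ^ n.factorial = ‖(ϖ : F)‖ ^ (φ j).toAdd i := by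
  have h0 : 0 < ‖(ϖ : F)‖ := norm_pos_iff.2 ϖ.ne_zero
  have hex : ∀ (j : D.J) (i : Fin k), ∃ e : ℤ, D.sl j i ^ n.factorial = ‖(ϖ : F)‖ ^ e :=
    fun j i => D.sl_pow_factorial ϖ (fun x hx => exists_norm_eq_zpow ϖ hϖ hmax hx)
      (D.levi _ j.2) i
  choose e he using hex
  refine ⟨MonoidHom.mk' (fun j => Multiplicative.ofAdd (e j)) (fun a b => ?_), he⟩
  rw [← ofAdd_add]
  congr 1
  funext i
  apply zpow_right_injective₀ h0 hϖ.ne
  change ‖(ϖ : F)‖ ^ e (a * b) i = ‖(ϖ : F)‖ ^ (e a i + e b i)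
  rw [zpow_add₀ h0.ne', ← he, ← he, ← he, ← mul_pow, Subgroup.coe_mul,
    D.sl_mul (D.levi _ a.2) (D.levi _ b.2)]

theorem comm_mem (D : TypeData n k m F E) {r : ℝ} (hr : D.Good r) {j j' : GL (Fin n) F}
    (hj : j ∈ D.J) (hj' : j' ∈ D.J) : (j * j')⁻¹ * (j' * j) ∈ D.HH hr := by
  have h1 : j * j' ∈ D.J := D.J.mul_mem hj hj'
  have h2 : j' * j ∈ D.J := D.J.mul_mem hj' hj
  have h3 : (j * j')⁻¹ * (j' * j) ∈ D.J := D.J.mul_mem (D.J.inv_mem h1) h2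
  have h4 : ∀ i, D.sl ((j * j')⁻¹ * (j' * j)) i = 1 := fun i => by
    rw [D.sl_mul (D.levi _ (D.J.inv_mem h1)) (D.levi _ h2), D.sl_inv (D.levi _ h1),
      D.sl_mul (D.levi _ hj) (D.levi _ hj'), D.sl_mul (D.levi _ hj') (D.levi _ hj),
      mul_comm (D.sl j' i)]
    exact inv_mul_cancel₀ (mul_pos (D.sl_pos (D.levi _ hj) i) (D.sl_pos (D.levi _ hj') i)).ne'
  exact (D.inH_iff_flat hr (D.levi _ h3)).2 ⟨h3, fun i i' => by rw [h4, h4]⟩

omit [IsUltrametricDist F] in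
theorem GE5_pos (D : TypeData n k m F E) (ϖ : Fˣ) (hϖ : ‖(ϖ : F)‖ < 1)
    (φ : D.J →* Multiplicative (Fin k → ℤ))
    (hφ : ∀ (j : D.J) i, D.sl j i ^ n.factorial = ‖(ϖ : F)‖ ^ (φ j).toAdd i) (j : D.J)
    (hj : Monotone (φ j).toAdd) : D.Pos j := by
  have h0 : 0 < ‖(ϖ : F)‖ := norm_pos_iff.2 ϖ.ne_zero
  refine ⟨j.2, fun i i' h => ?_⟩
  have h1 : D.sl j i' ^ n.factorial ≤ D.sl j i ^ n.factorial := by
    rw [hφ, hφ]
    exact (zpow_le_zpow_iff_right_of_lt_one₀ h0 hϖ).2 (hj h)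
  exact (pow_le_pow_iff_left₀ (D.sl_pos (D.levi _ j.2) i').le (D.sl_pos (D.levi _ j.2) i).le
    n.factorial_ne_zero).1 h1

theorem GE5_flat (D : TypeData n k m F E) {r : ℝ} (hr : D.Good r) (ϖ : Fˣ)
    (φ : D.J →* Multiplicative (Fin k → ℤ))
    (hφ : ∀ (j : D.J) i, D.sl j i ^ n.factorial = ‖(ϖ : F)‖ ^ (φ j).toAdd i) (j : D.J)
    (hj : ∀ i i', (φ j).toAdd i = (φ j).toAdd i') : (j : GL (Fin n) F) ∈ D.HH hr := by
  refine (D.inH_iff_flat hr (D.levi _ j.2)).2 ⟨j.2, fun i i' => ?_⟩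
  have h1 : D.sl j i ^ n.factorial = D.sl j i' ^ n.factorial := by rw [hφ, hφ, hj i i']
  exact (pow_left_inj₀ (D.sl_pos (D.levi _ j.2) i).le (D.sl_pos (D.levi _ j.2) i').le
    n.factorial_ne_zero).1 h1

omit [IsUltrametricDist F] in
theorem GE5_cen (D : TypeData n k m F E) (ϖ : Fˣ) (hϖ : ‖(ϖ : F)‖ < 1)
    (φ : D.J →* Multiplicative (Fin k → ℤ))
    (hφ : ∀ (j : D.J) i, D.sl j i ^ n.factorial = ‖(ϖ : F)‖ ^ (φ j).toAdd i) (e : Fin k → ℕ) :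
    ∃ j : D.J, ∀ i, (φ j).toAdd i = e i * n.factorial := by
  have h0 : 0 < ‖(ϖ : F)‖ := norm_pos_iff.2 ϖ.ne_zero
  refine ⟨⟨D.cen fun i => ϖ ^ e i, D.cen_mem _⟩, fun i => ?_⟩
  apply zpow_right_injective₀ h0 hϖ.ne
  change ‖(ϖ : F)‖ ^ _ = ‖(ϖ : F)‖ ^ _
  rw [← hφ, D.sl_cen, Units.val_pow_eq_pow_val, norm_pow, ← pow_mul, ← zpow_natCast]
  simp

variable [ProperSpace F]

theorem exists_gen_two (D : TypeData n 2 m F E) {r : ℝ} (hr : D.Good r) (ϖ : Fˣ)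
    (hϖ : ‖(ϖ : F)‖ < 1) (hmax : ∀ x : F, ‖x‖ < 1 → ‖x‖ ≤ ‖(ϖ : F)‖) :
    ∃ γ : Fin 1 → GL (Fin n) F, (D.iw hr ϖ hϖ).Gen γ := by
  obtain ⟨φ, hφ⟩ := D.exists_slope_hom ϖ hϖ hmax
  let ψ : D.J →* Multiplicative ℤ :=
    MonoidHom.mk' (fun j => Multiplicative.ofAdd ((φ j).toAdd 1 - (φ j).toAdd 0)) (fun a b => by
      rw [← ofAdd_add, map_mul, toAdd_mul, Pi.add_apply, Pi.add_apply]
      congr 1
      ring)
  have hψ : ∀ j, (ψ j).toAdd = (φ j).toAdd 1 - (φ j).toAdd 0 := fun j => rfl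
  obtain ⟨g, hg, hgen⟩ := exists_gen_int ψ (by
    obtain ⟨j, hj⟩ := D.GE5_cen ϖ hϖ φ hφ ![0, 1]
    refine ⟨j, ?_⟩
    rw [hψ, hj, hj]
    simpa using n.factorial_pos)
  refine ⟨fun _ => g, fun _ => D.GE5_pos ϖ hϖ φ hφ g ?_, fun j hj => ?_⟩
  · rw [Fin.monotone_iff_le_succ]
    intro i
    fin_cases i
    have := hψ g
    change (φ g).toAdd 0 ≤ (φ g).toAdd 1
    omega
  · have hjJ : j ∈ D.J := hj.1
    obtain ⟨c, hc⟩ := hgen ⟨j, hjJ⟩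
    have hm : (g : GL (Fin n) F) ∈ Submonoid.closure
        (Set.range fun _ : Fin 1 => (g : GL (Fin n) F)) := Submonoid.subset_closure ⟨0, rfl⟩
    refine ⟨g ^ (-c).toNat, pow_mem hm _, g ^ c.toNat, pow_mem hm _, ?_⟩
    obtain ⟨x, hx⟩ : ∃ x : D.J, x = (g ^ c.toNat)⁻¹ * (⟨j, hjJ⟩ * g ^ (-c).toNat) := ⟨_, rfl⟩
    have h1 : (ψ x).toAdd = 0 := by
      rw [hx]
      simp only [map_mul, map_inv, map_pow, toAdd_mul, toAdd_inv, toAdd_pow, hc, nsmul_eq_mul]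
      have h2 := Int.toNat_sub_toNat_neg c
      linear_combination (-(ψ g).toAdd) * h2
    rw [hψ] at h1
    have h3 : ∀ i, (φ x).toAdd i = (φ x).toAdd 0 := by
      intro i
      fin_cases i
      · rfl
      · exact sub_eq_zero.1 h1
    have h4 := D.GE5_flat hr ϖ φ hφ x fun i i' => by rw [h3 i, h3 i']
    rw [hx] at h4
    exact h4

theorem exists_gen_three (D : TypeData n 3 m F E) {r : ℝ} (hr : D.Good r) (ϖ : Fˣ)
    (hϖ : ‖(ϖ : F)‖ < 1) (hmax : ∀ x : F, ‖x‖ < 1 → ‖x‖ ≤ ‖(ϖ : F)‖) :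
    ∃ γ : Fin 2 → GL (Fin n) F, (D.iw hr ϖ hϖ).Gen γ := by
  obtain ⟨φ, hφ⟩ := D.exists_slope_hom ϖ hϖ hmax
  let ψ : D.J →* Multiplicative (ℤ × ℤ) :=
    MonoidHom.mk' (fun j => Multiplicative.ofAdd
      ((φ j).toAdd 1 - (φ j).toAdd 0, (φ j).toAdd 2 - (φ j).toAdd 1)) (fun a b => by
      rw [← ofAdd_add, map_mul, toAdd_mul, Pi.add_apply, Pi.add_apply, Pi.add_apply,
        Prod.mk_add_mk]
      congr 2 <;> ring)
  have hψ : ∀ j, (ψ j).toAdd =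
      ((φ j).toAdd 1 - (φ j).toAdd 0, (φ j).toAdd 2 - (φ j).toAdd 1) := fun j => rfl
  obtain ⟨g₁, g₂, hg₁, hg₂, hgen⟩ := exists_gen_int_two ψ (by
    obtain ⟨j, hj⟩ := D.GE5_cen ϖ hϖ φ hφ ![0, 1, 1]
    refine ⟨j, ?_⟩
    rw [hψ, hj, hj]
    simpa using n.factorial_pos) (by
    obtain ⟨j, hj⟩ := D.GE5_cen ϖ hϖ φ hφ ![0, 0, 1]
    refine ⟨j, ?_⟩
    rw [hψ, hj, hj, hj]
    simpa using n.factorial_pos)
  have hpos : ∀ g : D.J, 0 ≤ (ψ g).toAdd → D.Pos g := fun g hg => by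
    refine D.GE5_pos ϖ hϖ φ hφ g ?_
    rw [hψ, Prod.le_def] at hg
    obtain ⟨h1, h2⟩ := hg
    rw [Fin.monotone_iff_le_succ]
    intro i
    fin_cases i
    · exact sub_nonneg.1 h1
    · exact sub_nonneg.1 h2
  refine ⟨![g₁, g₂], fun i => ?_, fun j hj => ?_⟩
  · fin_cases i
    · exact hpos g₁ hg₁
    · exact hpos g₂ hg₂
  · have hjJ : j ∈ D.J := hj.1
    obtain ⟨c₁, c₂, hc⟩ := hgen ⟨j, hjJ⟩
    have hm₁ : (g₁ : GL (Fin n) F) ∈ Submonoid.closure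
        (Set.range ![(g₁ : GL (Fin n) F), g₂]) := Submonoid.subset_closure ⟨0, rfl⟩
    have hm₂ : (g₂ : GL (Fin n) F) ∈ Submonoid.closure
        (Set.range ![(g₁ : GL (Fin n) F), g₂]) := Submonoid.subset_closure ⟨1, rfl⟩
    refine ⟨g₁ ^ (-c₁).toNat * g₂ ^ (-c₂).toNat, mul_mem (pow_mem hm₁ _) (pow_mem hm₂ _),
      g₁ ^ c₁.toNat * g₂ ^ c₂.toNat, mul_mem (pow_mem hm₁ _) (pow_mem hm₂ _), ?_⟩
    obtain ⟨x, hx⟩ : ∃ x : D.J, x = (g₁ ^ c₁.toNat * g₂ ^ c₂.toNat)⁻¹ *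
      (⟨j, hjJ⟩ * (g₁ ^ (-c₁).toNat * g₂ ^ (-c₂).toNat)) := ⟨_, rfl⟩
    have h1 : (ψ x).toAdd = 0 := by
      rw [hx]
      simp only [map_mul, map_inv, map_pow, toAdd_mul, toAdd_inv, toAdd_pow, hc]
      have h2 := Int.toNat_sub_toNat_neg c₁
      have h3 := Int.toNat_sub_toNat_neg c₂
      refine Prod.ext ?_ ?_
      · simp only [Prod.fst_add, Prod.fst_neg, Prod.smul_fst, Prod.fst_zero]
        simp only [nsmul_eq_mul, smul_eq_mul]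
        linear_combination (-(ψ g₁).toAdd.1) * h2 + (-(ψ g₂).toAdd.1) * h3
      · simp only [Prod.snd_add, Prod.snd_neg, Prod.smul_snd, Prod.snd_zero]
        simp only [nsmul_eq_mul, smul_eq_mul]
        linear_combination (-(ψ g₁).toAdd.2) * h2 + (-(ψ g₂).toAdd.2) * h3
    rw [hψ, Prod.ext_iff] at h1
    have h4 : (φ x).toAdd 1 = (φ x).toAdd 0 := sub_eq_zero.1 h1.1
    have h5 : (φ x).toAdd 2 = (φ x).toAdd 1 := sub_eq_zero.1 h1.2
    have h6 : ∀ i, (φ x).toAdd i = (φ x).toAdd 0 := by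
      intro i
      fin_cases i
      · rfl
      · exact h4
      · exact h5.trans h4
    have h7 := D.GE5_flat hr ϖ φ hφ x fun i i' => by rw [h6 i, h6 i']
    rw [hx] at h7
    exact h7

end TypeData

end Pool.Agent.MP_4d0c14_b

end

section

/-! Transport of the density property along an automorphism. -/

namespace Pool.Agent.MP_4d0c14_b

open scoped Matrix

/-- the bijection of coset spaces induced by an automorphism -/
def T1_quot {G : Type} [Group G] (θ : G ≃* G) (H H' : Subgroup G) (hH : ∀ g, g ∈ H' ↔ θ g ∈ H) :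
    G ⧸ H' ≃ G ⧸ H :=
  Quotient.congr θ.toEquiv fun a b => by
    rw [QuotientGroup.leftRel_apply, QuotientGroup.leftRel_apply, hH, map_mul, map_inv]
    rfl

theorem T1_quot_mk {G : Type} [Group G] (θ : G ≃* G) (H H' : Subgroup G)
    (hH : ∀ g, g ∈ H' ↔ θ g ∈ H) (g : G) :
    T1_quot θ H H' hH (g : G ⧸ H') = (θ g : G ⧸ H) := rfl

/-- conjugation by an invertible matrix as an additive equivalence -/
def T1_conj {E ι : Type} [Field E] [Fintype ι] [DecidableEq ι] (S S' : Matrix ι ι E)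
    (hS : S' * S = 1) : Matrix ι ι E ≃+ Matrix ι ι E where
  toFun X := S * X * S'
  invFun X := S' * X * S
  left_inv X := by
    show S' * (S * X * S') * S = X
    rw [← Matrix.mul_assoc, ← Matrix.mul_assoc, hS, Matrix.one_mul, Matrix.mul_assoc, hS,
      Matrix.mul_one]
  right_inv X := by
    have hS' : S * S' = 1 := mul_eq_one_comm.mp hS
    show S * (S' * X * S) * S' = X
    rw [← Matrix.mul_assoc, ← Matrix.mul_assoc, hS', Matrix.one_mul, Matrix.mul_assoc, hS',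
      Matrix.mul_one]
  map_add' X Y := by rw [Matrix.mul_add, Matrix.add_mul]

theorem T1_conv {G E ι : Type} [Group G] [Field E]
    [Fintype ι] [DecidableEq ι] {D D' : Fib G E ι} (θ : G ≃* G) (S S' : Matrix ι ι E)
    (hS : S' * S = 1) (hH : ∀ g, g ∈ D'.H ↔ θ g ∈ D.H) {κ κ' Y : G → Matrix ι ι E}
    (hκ : D.LEqv κ) (hκ' : ∀ x, κ' x = S * κ (θ x) * S') (hY : D.Eqv Y) (x : G) :
    D'.conv κ' (fun y => S * Y (θ y) * S') x = S * D.conv κ Y (θ x) * S' := by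
  have e := (T1_conj S S' hS).map_finsum fun q : G ⧸ D.H => κ (q.out⁻¹ * θ x) * Y q.out
  refine Eq.trans ?_ e.symm
  rw [← finsum_comp_equiv (T1_quot θ D.H D'.H hH)]
  refine finsum_congr fun q => ?_
  have hq : T1_quot θ D.H D'.H hH q = (θ q.out : G ⧸ D.H) := by
    rw [← T1_quot_mk θ D.H D'.H hH, QuotientGroup.out_eq']
  rw [hq, Fib.term_out hκ hY, hκ', map_mul, map_inv]
  show _ = S * _ * S'
  simp only [Matrix.mul_assoc]
  rw [← Matrix.mul_assoc S' S, hS, Matrix.one_mul]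

theorem T1_del {G E ι : Type} [Group G] [Field E]
    [Fintype ι] [DecidableEq ι] {D D' : Fib G E ι} (θ : G ≃* G) (S S' : Matrix ι ι E)
    (hH : ∀ g, g ∈ D'.H ↔ θ g ∈ D.H)
    (hμ : ∀ h ∈ D'.H, D'.μ h = S * D.μ (θ h) * S') (x : G) :
    D'.del x = S * D.del (θ x) * S' := by
  unfold Fib.del
  by_cases hx : x ∈ D'.H
  · rw [if_pos hx, if_pos ((hH x).1 hx), hμ _ (D'.H.inv_mem hx), map_inv]
  · rw [if_neg hx, if_neg (fun h => hx ((hH x).2 h)), Matrix.mul_zero, Matrix.zero_mul]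

theorem Fib.Dense.transport {G E ι : Type} [Group G] [NormedField E] [IsUltrametricDist E]
    [Fintype ι] [DecidableEq ι] {D D' : Fib G E ι} (θ : G ≃* G) (S S' : Matrix ι ι E)
    (hS : S' * S = 1) (hH : ∀ g, g ∈ D'.H ↔ θ g ∈ D.H)
    (hμ : ∀ h ∈ D'.H, D'.μ h = S * D.μ (θ h) * S') {d : ℕ} {κ κ' : Fin d → G → Matrix ι ι E}
    (hκ : ∀ i, D.LEqv (κ i)) (hκ' : ∀ i x, κ' i x = S * κ i (θ x) * S') (h : D.Dense κ) :
    D'.Dense κ' := by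
  classical
  intro ε hε
  obtain ⟨C, hC, hSC⟩ := MLe.exists_bound S
  obtain ⟨C', hC', hSC'⟩ := MLe.exists_bound S'
  have hε' : 0 < ε / (C * C') := by positivity
  obtain ⟨Y, hY, hYε⟩ := h _ hε'
  refine ⟨fun i y => S * Y i (θ y) * S', fun i => ⟨fun x g hg => ?_, ?_⟩, fun x => ?_⟩
  · show S * Y i (θ (x * g)) * S' = D'.μ g⁻¹ * (S * Y i (θ x) * S')
    rw [map_mul, (hY i).1 _ _ ((hH g).1 hg), hμ _ (D'.H.inv_mem hg), map_inv]
    simp only [Matrix.mul_assoc]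
    rw [← Matrix.mul_assoc S' S, hS, Matrix.one_mul]
  · obtain ⟨T, hT⟩ := (hY i).2
    refine ⟨T.image θ.symm, fun x hx => ?_⟩
    obtain ⟨t, ht, htx⟩ := hT (θ x) fun h0 => hx (by
      show S * Y i (θ x) * S' = 0
      rw [h0, Matrix.mul_zero, Matrix.zero_mul])
    refine ⟨θ.symm t, Finset.mem_image_of_mem _ ht, ?_⟩
    rw [hH, map_mul, map_inv, MulEquiv.apply_symm_apply]
    exact htx
  · have e : D'.del x - ∑ i, D'.conv (κ' i) (fun y => S * Y i (θ y) * S') x =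
        S * (D.del (θ x) - ∑ i, D.conv (κ i) (Y i) (θ x)) * S' := by
      rw [T1_del θ S S' hH hμ, Matrix.mul_sub, Matrix.sub_mul, Matrix.mul_sum, Matrix.sum_mul]
      congr 1
      exact Finset.sum_congr rfl fun i _ => T1_conv θ S S' hS hH (hκ i) (hκ' i) (hY i).1 x
    rw [e]
    refine ((hSC.mul (hYε (θ x)) hC.le hε'.le).mul hSC' (by positivity) hC'.le).mono (le_of_eq ?_)
    field_simp

end Pool.Agent.MP_4d0c14_b

end

section

/-! The generators of the induced representation; transposition. -/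

namespace Pool.Agent.MP_4d0c14_b

open scoped Matrix Kronecker

namespace TypeData

variable {n k m : ℕ} {F E : Type} [NormedField F] [IsUltrametricDist F] [ProperSpace F]

section aux

variable [Field E] (D : TypeData n k m F E)

omit [IsUltrametricDist F] [ProperSpace F]

theorem GE6_mem {j : GL (Fin n) F} : tr j ∈ D.transpose.J ↔ j ∈ D.J := by
  change tr (tr j) ∈ D.J ↔ _
  rw [tr_tr]

theorem GE6_mem2 {j : GL (Fin n) F} : j ∈ D.transpose.transpose.J ↔ j ∈ D.J := D.GE6_mem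

theorem GE6_dpart (X : Matrix (Fin n) (Fin n) F) : D.transpose.dpart Xᵀ = (D.dpart X)ᵀ := by
  ext a c
  change (if D.b a = D.b c then X c a else 0) = if D.b c = D.b a then X c a else 0
  simp only [eq_comm]

theorem GE6_inH {r : ℝ} (hr : 0 ≤ r) {g : GL (Fin n) F} (h : D.InH r g) :
    D.transpose.InH r (tr g) := by
  obtain ⟨j, hj, hf, X, hX, hB, hg⟩ := h
  have h1 : tr j ∈ D.transpose.J := D.GE6_mem.2 hj
  have h2 : D.transpose.Flat (tr j) := fun i i' => by rw [D.sl_tr, D.sl_tr, hf i i']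
  have h3 := D.transpose.levi _ h1
  refine ⟨tr j, h1, h2, ((tr j)⁻¹ : GL (Fin n) F) * Xᵀ * ((tr j)⁻¹⁻¹ : GL (Fin n) F), ?_, ?_, ?_⟩
  · rw [D.transpose.dpart_mul_levi h3.inv.inv, D.transpose.dpart_levi_mul h3.inv, D.GE6_dpart, hX]
    simp
  · have := Bd.conj D.transpose (D.bd_tr.2 hB) hr (D.transpose.J.inv_mem h1) zero_le_one
      fun a c _ => by
        rw [D.transpose.sl_inv h3, D.transpose.sl_inv h3, one_mul, h2 (D.transpose.b a)]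
    rwa [one_mul] at this
  · rw [inv_inv, Matrix.mul_add, Matrix.mul_one, ← Matrix.mul_assoc, ← Matrix.mul_assoc,
      Units.mul_inv, Matrix.one_mul, coe_tr, coe_tr, hg, Matrix.transpose_mul,
      Matrix.transpose_add, Matrix.transpose_one, Matrix.add_mul, Matrix.one_mul]

theorem GE6_levi {r : ℝ} {y w : GL (Fin n) F} (hy : IsLevi D.b y) (hw : IsUnip D.b w)
    (h : D.InH r (y * w)) : y ∈ D.J := by
  obtain ⟨j, hj, -, X, hX, -, hg⟩ := h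
  have h1 := congrArg D.dpart hg
  have h2 : D.dpart 1 = 1 := D.dpart_unip isUnip_one
  rw [Units.val_mul, D.dpart_levi_mul hy, D.dpart_unip hw, D.dpart_levi_mul (D.levi _ hj),
    D.dpart_add, hX, h2, add_zero, Matrix.mul_one, Matrix.mul_one] at h1
  rwa [Units.ext h1]

end aux

theorem GE6_kron {ι κ E : Type} [Field E] [Fintype ι] [DecidableEq ι] [Fintype κ] [DecidableEq κ]
    {S : GL ι E} {A A' : Matrix ι ι E} (h : Aᵀ * S = S * A') (B : Matrix κ κ E) :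
    (A ⊗ₖ B)ᵀ = ((S : Matrix ι ι E) ⊗ₖ (1 : Matrix κ κ E)) * (A' ⊗ₖ Bᵀ) *
      (((S⁻¹ : GL ι E) : Matrix ι ι E) ⊗ₖ (1 : Matrix κ κ E)) := by
  rw [← Matrix.mul_kronecker_mul, ← Matrix.mul_kronecker_mul, ← h, Matrix.one_mul, Matrix.mul_one,
    Matrix.mul_assoc, Units.mul_inv, Matrix.mul_one, Matrix.kroneckerMap_transpose]

/-- Inverse transpose. -/
def GE6_theta (n : ℕ) (F : Type) [Field F] : GL (Fin n) F ≃* GL (Fin n) F where
  toFun g := tr g⁻¹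
  invFun g := tr g⁻¹
  left_inv g := by simp only [← tr_inv, inv_inv, tr_tr]
  right_inv g := by simp only [← tr_inv, inv_inv, tr_tr]
  map_mul' g h := by rw [mul_inv_rev, tr_mul]

section

variable [Field E] (D : TypeData n k m F E) {r : ℝ} (hr : D.Good r) (ϖ : Fˣ)
  (hϖ : ‖(ϖ : F)‖ < 1)

theorem phi_mem (v : Fin m → E) : (fun u => (D.iw hr ϖ hϖ).phi u *ᵥ v) ∈ indSpace D := by
  classical
  obtain ⟨r₁, h1, -, h2⟩ := D.near_mem hr
  refine ⟨fun j u g hu => ?_, ⟨r₁, h1, fun h g hh => ?_⟩, fun g => ?_⟩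
  · have h3 := (D.iw hr ϖ hϖ).phi_left (p := j * u) ⟨j, j.2, u, hu, rfl⟩ g
    have h4 : (D.iw hr ϖ hϖ).lam (j * u) = D.lam j := D.lamF_mul_unip j.2 hu
    simp only [h3, h4, Matrix.mulVec_mulVec]
  · have h3 := (D.iw hr ϖ hϖ).phi_right (h2 h hh).1 g
    have h4 : (D.iw hr ϖ hϖ).lam h = 1 := (h2 h hh).2
    simp only [h3, h4, Matrix.mul_one]
  · have key : ∀ x, (D.iw hr ϖ hϖ).phi (x * g) *ᵥ v ≠ 0 →
        ∃ j ∈ D.J, ∃ u, IsUnip D.b u ∧ ∃ h ∈ D.HH hr, x * g = j * u * h := by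
      intro x hx
      by_contra hc
      refine hx ?_
      rw [(D.iw hr ϖ hϖ).phi_eq_zero, Matrix.zero_mulVec]
      rintro ⟨_, ⟨j, hj, u, hu, rfl⟩, h, hh, e⟩
      exact hc ⟨j, hj, u, hu, h, hh, e⟩
    by_cases h0 : ∃ x₀, IsLevi D.b x₀ ∧ (D.iw hr ϖ hϖ).phi (x₀ * g) *ᵥ v ≠ 0
    · obtain ⟨x₀, hx₀, h0⟩ := h0
      obtain ⟨j₀, hj₀, u₀, hu₀, h₀, hh₀, e₀⟩ := key x₀ h0
      refine ⟨{x₀}, fun x hx h3 => ⟨x₀, Finset.mem_singleton_self _, ?_⟩⟩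
      obtain ⟨j, hj, u, hu, h, hh, e⟩ := key x h3
      have hy : IsLevi D.b (j⁻¹ * (x * x₀⁻¹) * j₀) :=
        ((D.levi _ hj).inv.mul (hx.mul hx₀.inv)).mul (D.levi _ hj₀)
      have h4 : j⁻¹ * (x * x₀⁻¹) * j₀ *
          ((j⁻¹ * (x * x₀⁻¹) * j₀)⁻¹ * u⁻¹ * (j⁻¹ * (x * x₀⁻¹) * j₀)⁻¹⁻¹ * u₀) = h * h₀⁻¹ := by
        rw [eq_mul_inv_of_mul_eq e, eq_mul_inv_of_mul_eq e₀]
        group
      have h5 := D.GE6_levi (r := r) hy ((hu.inv.conj hy.inv).mul hu₀)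
        (h4 ▸ (D.HH hr).mul_mem hh ((D.HH hr).inv_mem hh₀))
      have h6 := D.J.mul_mem (D.J.mul_mem hj h5) (D.J.inv_mem hj₀)
      rwa [show j * (j⁻¹ * (x * x₀⁻¹) * j₀) * j₀⁻¹ = x * x₀⁻¹ by group] at h6
    · exact ⟨∅, fun x hx h3 => (h0 ⟨x, hx, h3⟩).elim⟩

omit [IsUltrametricDist F] [ProperSpace F] in
theorem Good.transpose (hr : D.Good r) : D.transpose.Good r := by
  refine ⟨hr.1, hr.2.1, fun g hg hn => ?_⟩
  obtain ⟨h1, h2⟩ := hr.2.2 (tr g) (IsLevi.tr hg) hn.tr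
  exact ⟨h1, (congrArg Matrix.transpose h2).trans Matrix.transpose_one⟩

omit [IsUltrametricDist F] [ProperSpace F] in
theorem inH_tr (hr : D.Good r) (g : GL (Fin n) F) : D.transpose.InH r (tr g) ↔ D.InH r g := by
  refine ⟨fun h => ?_, D.GE6_inH hr.1.le⟩
  obtain ⟨j, hj, hf, X, hX, hB, hg⟩ := D.transpose.GE6_inH hr.1.le h
  exact ⟨j, D.GE6_mem2.1 hj, hf, X, hX,
    fun a ha a' ha' => hB a (D.GE6_mem2.2 ha) a' (D.GE6_mem2.2 ha'), hg⟩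

omit [IsUltrametricDist F] [ProperSpace F] in
theorem lamF_tr (g : GL (Fin n) F) : D.transpose.lamF (tr g) = (D.lamF g)ᵀ := by
  by_cases h : ∃ j : D.J, ((j : GL (Fin n) F) : Matrix (Fin n) (Fin n) F) = D.dpart g
  · obtain ⟨⟨j, hj⟩, h⟩ := h
    rw [D.lamF_eq hj h, D.transpose.lamF_eq (D.GE6_mem.2 hj)
      (by rw [coe_tr, coe_tr, D.GE6_dpart, ← h])]
    exact congrArg (fun x => (D.lam x)ᵀ) (Subtype.ext (tr_tr j))
  · have h' : ¬∃ j : D.transpose.J, ((j : GL (Fin n) F) : Matrix (Fin n) (Fin n) F) =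
        D.transpose.dpart (tr g : GL (Fin n) F) := by
      rintro ⟨j, hj⟩
      refine h ⟨⟨tr j.1, j.2⟩, ?_⟩
      rw [coe_tr, hj, coe_tr, D.GE6_dpart, Matrix.transpose_transpose]
    rw [lamF, lamF, dif_neg h, dif_neg h', Matrix.transpose_zero]

omit [IsUltrametricDist F] [ProperSpace F] in
theorem pos_tr (j : GL (Fin n) F) : D.transpose.Pos (tr j) ↔ D.Pos j := by
  have h : D.transpose.sl (tr j) = D.sl j := funext (D.sl_tr j)
  rw [Pos, Pos, h, D.GE6_mem]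

theorem kap_tr {j : GL (Fin n) F} (hj : D.Pos j) (x : GL (Fin n) F) :
    (D.transpose.iw (Good.transpose D hr) ϖ hϖ).kap (tr j) (tr x) =
      ((D.iw hr ϖ hϖ).kap j x)ᵀ := by
  by_cases h : ∃ h ∈ D.HH hr, ∃ h' ∈ D.HH hr, x = h * j * h'
  · obtain ⟨h, hh, h', hh', rfl⟩ := h
    rw [(D.iw hr ϖ hϖ).kap_mul hj hh hh', tr_mul, tr_mul, ← mul_assoc,
      (D.transpose.iw (Good.transpose D hr) ϖ hϖ).kap_mul ((D.pos_tr j).2 hj)
        ((D.inH_tr hr h').2 hh') ((D.inH_tr hr h).2 hh), Matrix.transpose_mul,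
      Matrix.transpose_mul, ← tr_inv, ← tr_inv, ← tr_inv, ← Matrix.mul_assoc]
    change D.transpose.lamF _ * D.transpose.lamF _ * D.transpose.lamF _ = _
    rw [D.lamF_tr, D.lamF_tr, D.lamF_tr]
    rfl
  · rw [(D.iw hr ϖ hϖ).kap_eq_zero h, (D.transpose.iw (Good.transpose D hr) ϖ hϖ).kap_eq_zero,
      Matrix.transpose_zero]
    rintro ⟨a, ha, a', ha', e⟩
    refine h ⟨tr a', (D.inH_tr hr _).1 (by rwa [tr_tr]), tr a, (D.inH_tr hr _).1 (by rwa [tr_tr]),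
      ?_⟩
    rw [← tr_tr x, e, tr_mul, tr_mul, tr_tr, mul_assoc]

theorem gen_tr {d : ℕ} {γ : Fin d → GL (Fin n) F} (h : (D.iw hr ϖ hϖ).Gen γ) :
    (D.transpose.iw (Good.transpose D hr) ϖ hϖ).Gen fun i => tr (γ i) := by
  have key : ∀ a ∈ Submonoid.closure (Set.range γ),
      a ∈ D.J ∧ tr a ∈ Submonoid.closure (Set.range fun i => tr (γ i)) := by
    intro a ha
    induction ha using Submonoid.closure_induction with
    | mem x hx =>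
      obtain ⟨i, rfl⟩ := hx
      exact ⟨(h.1 i).1, Submonoid.subset_closure ⟨i, rfl⟩⟩
    | one => exact ⟨D.J.one_mem, by rw [tr_one]; exact Submonoid.one_mem _⟩
    | mul x y _ _ hx hy =>
      exact ⟨D.J.mul_mem hx.1 hy.1, (tr_mul x y).symm ▸ Submonoid.mul_mem _ hy.2 hx.2⟩
  refine ⟨fun i => (D.pos_tr _).2 (h.1 i), fun j hj => ?_⟩
  have hj' : D.Pos (tr j) := (D.pos_tr _).1 (by rwa [tr_tr])
  obtain ⟨a, ha, b, hb, h1⟩ := h.2 _ hj'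
  refine ⟨tr a, (key a ha).2, tr b, (key b hb).2, ?_⟩
  have la := D.levi _ (key a ha).1
  have lb := (D.levi _ (key b hb).1).inv
  have lj := D.levi _ hj'.1
  have h2 := ((D.inH_iff_flat hr (lb.mul (lj.mul la))).1 h1).2
  have h3 : D.InH r (a * tr j * b⁻¹) := (D.inH_iff_flat hr ((la.mul lj).mul lb)).2
    ⟨D.J.mul_mem (D.J.mul_mem (key a ha).1 hj'.1) (D.J.inv_mem (key b hb).1), fun i i' => by
      have := h2 i i'
      rw [D.sl_mul lb (lj.mul la), D.sl_mul lb (lj.mul la), D.sl_mul lj la, D.sl_mul lj la] at this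
      rw [D.sl_mul (la.mul lj) lb, D.sl_mul (la.mul lj) lb, D.sl_mul la lj, D.sl_mul la lj]
      linear_combination this⟩
  have h4 := (D.inH_tr hr _).2 h3
  rwa [tr_mul, tr_mul, tr_tr, tr_inv] at h4

end

theorem dense_dual [NormedField E] [IsUltrametricDist E] (D : TypeData n k m F E) {r : ℝ}
    (hr : D.Good r) (ϖ : Fˣ) (hϖ : ‖(ϖ : F)‖ < 1) {N : ℕ}
    (ρ : GL (Fin n) F →* Matrix (Fin N) (Fin N) E)
    (hform : ∃ S : GL (Fin N) E, ∀ g, (ρ g)ᵀ * S = S * ρ (tr g)) {d : ℕ}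
    {γ : Fin d → GL (Fin n) F} (hγ : ∀ i, D.Pos (γ i))
    (h : ((D.transpose.iw (Good.transpose D hr) ϖ hϖ).tfib ρ).Dense
      fun i => (D.transpose.iw (Good.transpose D hr) ϖ hϖ).tker ρ (tr (γ i))) :
    ((D.iw hr ϖ hϖ).tfib ρ).dual.Dense fun i => dK ((D.iw hr ϖ hϖ).tker ρ (γ i)) := by
  obtain ⟨S, hS⟩ := hform
  refine Fib.Dense.transport (GE6_theta n F)
    ((S : Matrix (Fin N) (Fin N) E) ⊗ₖ (1 : Matrix (Fin m) (Fin m) E))
    (((S⁻¹ : GL (Fin N) E) : Matrix (Fin N) (Fin N) E) ⊗ₖ (1 : Matrix (Fin m) (Fin m) E))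
    ?_ (fun g => ?_) (fun g _ => ?_) (fun i => ?_) (fun i x => ?_) h
  · rw [← Matrix.mul_kronecker_mul, Units.inv_mul, Matrix.one_mul, Matrix.one_kronecker_one]
  · exact (D.HH hr).inv_mem_iff.symm.trans (D.inH_tr hr g⁻¹).symm
  · change (ρ g⁻¹ ⊗ₖ D.lamF g⁻¹)ᵀ = _ * (ρ (tr g⁻¹) ⊗ₖ D.transpose.lamF (tr g⁻¹)) * _
    rw [D.lamF_tr, GE6_kron (hS g⁻¹)]
  · exact ((D.transpose.iw (Good.transpose D hr) ϖ hϖ).tker_ker ρ ((D.pos_tr _).2 (hγ i))).2.1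
  · have h1 := D.kap_tr hr ϖ hϖ D.pos_one x⁻¹
    rw [tr_one, Iw.kap_one, Iw.kap_one] at h1
    change (ρ x⁻¹⁻¹ ⊗ₖ ((D.iw hr ϖ hϖ).kap (γ i) x⁻¹ - (D.iw hr ϖ hϖ).fib.del x⁻¹))ᵀ =
      _ * (ρ (tr x⁻¹)⁻¹ ⊗ₖ ((D.transpose.iw (Good.transpose D hr) ϖ hϖ).kap (tr (γ i)) (tr x⁻¹) -
        (D.transpose.iw (Good.transpose D hr) ϖ hϖ).fib.del (tr x⁻¹))) * _
    rw [D.kap_tr hr ϖ hϖ (hγ i), h1, ← Matrix.transpose_sub, ← tr_inv, GE6_kron (hS _)]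

end TypeData

end Pool.Agent.MP_4d0c14_b

end

section

/-! The lattice acts on `G ⧸ H` with finite stabilisers and finitely many orbits. -/

namespace Pool.Agent.MP_4d0c14_b

theorem L7_norm_p (p : ℕ) [Fact p.Prime] (F : Type) [NontriviallyNormedField F]
    [NormedAlgebra ℚ_[p] F] : ‖(p : F)‖ = ‖(p : ℚ_[p])‖ := by
  rw [← map_natCast (algebraMap ℚ_[p] F) p, norm_algebraMap']

theorem TypeData.hasLat (p : ℕ) [Fact p.Prime] {n k m : ℕ} {F E : Type}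
    [NontriviallyNormedField F] [IsUltrametricDist F] [NormedAlgebra ℚ_[p] F]
    [FiniteDimensional ℚ_[p] F] [Field E] (D : TypeData n k m F E) {r : ℝ} (hr : D.Good r)
    (ϖ : Fˣ) (hϖ : ‖(ϖ : F)‖ < 1) (hmax : ∀ x : F, ‖x‖ < 1 → ‖x‖ ≤ ‖(ϖ : F)‖) :
    HasLat (D.HH hr) := by
  have : ProperSpace F := FiniteDimensional.proper ℚ_[p] F
  have hp : ‖(p : F)‖ < 1 := by
    rw [L7_norm_p]
    exact Padic.norm_p_lt_one
  have hp0 : (p : F) ≠ 0 := by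
    rw [← norm_ne_zero_iff, L7_norm_p, norm_ne_zero_iff]
    exact Nat.cast_ne_zero.2 (Fact.out : p.Prime).ne_zero
  obtain ⟨S, _, _, j, bas, t, h⟩ := exists_ord p F
  refine ⟨Gam p n j, h.residuallyFinite hp0, ?_, fun x => ?_⟩
  · obtain ⟨C, hC⟩ := cocompact p n h ϖ hϖ hmax
    obtain ⟨r₁, hr₁, -, hnear⟩ := D.near_mem hr
    obtain ⟨T, hT⟩ := finite_cover (n := n) (F := F) C hr₁
    refine ⟨T, fun x => ?_⟩
    obtain ⟨γ, hγ, e, hb⟩ := hC x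
    obtain ⟨s, hs, -, hn⟩ := hT _ hb
    refine ⟨γ, hγ, s, hs, ?_⟩
    have h1 := (hnear _ hn).1
    have h2 := (D.scalar_mem hr (ϖ ^ e)).1
    have e1 : (γ * s)⁻¹ * x =
        (dg (fun _ => ϖ ^ e))⁻¹ * (s⁻¹ * (dg (fun _ => ϖ ^ e) * (γ⁻¹ * x))) := by
      rw [← mul_assoc s⁻¹, ← dg_const_comm, mul_assoc, inv_mul_cancel_left, mul_inv_rev,
        mul_assoc]
    rw [e1]
    exact (D.HH hr).mul_mem ((D.HH hr).inv_mem h2) h1
  · obtain ⟨C, hC0, hC⟩ := D.hh_bnd_of_det hr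
    obtain ⟨B, hB0, hB⟩ := exists_bnd x
    refine (h.finite_bnd (n := n) hp0 hp (B * C * B)).subset ?_
    rintro γ ⟨hγ, hx⟩
    refine ⟨hγ, ?_⟩
    have hd : ‖((x⁻¹ * γ * x : GL (Fin n) F) : Matrix (Fin n) (Fin n) F).det‖ = 1 := by
      rw [Units.val_mul, Units.val_mul, Matrix.det_mul, Matrix.det_mul, mul_right_comm,
        ← Matrix.det_mul, ← Units.val_mul, inv_mul_cancel, Units.val_one, Matrix.det_one, one_mul]
      exact hγ.1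
    have h1 := (hB.mul (hC _ hx hd) hB0.le hC0.le).mul hB.inv (by positivity) hB0.le
    have e1 : x * (x⁻¹ * γ * x) * x⁻¹ = γ := by group
    rwa [e1] at h1

end Pool.Agent.MP_4d0c14_b

end

section

/-! The theorems for two and for three blocks. -/

namespace Pool.Agent.MP_4d0c14_b

open scoped Matrix

namespace TypeData

variable {n k m N : ℕ} {F E ι : Type} [NormedField F] [IsUltrametricDist F] [ProperSpace F]
  [CharZero F] [NontriviallyNormedField E] [IsUltrametricDist E] [CharZero E] [Fintype ι]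
  (D : TypeData n k m F E) {r : ℝ} (hr : D.Good r) (ϖ : Fˣ)
  (hϖ : ‖(ϖ : F)‖ < 1) {κ : ι → F →+* E} {a : ι → Fin n → ℤ}
  {ρ : GL (Fin n) F →* Matrix (Fin N) (Fin N) E}

theorem norm_or_dense (ok : AlgOK κ a ρ) (hκ : ∀ σ x, ‖κ σ x‖ = ‖x‖) (p : ℕ) (hp0 : p ≠ 0)
    (hp : ‖(p : F)‖ < 1)
    (hcent : ‖((D.omega fun _ => ϖ : Eˣ) : E)‖ * ‖(ϖ : F)‖ ^ (∑ σ, ∑ i, a σ i) = 1)
    (hirr : (indRep D).ρ.IsIrreducible) {d : ℕ} {γ : Fin d → GL (Fin n) F}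
    (hγ : (D.iw hr ϖ hϖ).Gen γ) :
    NormOn ρ (indRep D).ρ ∨
      ((D.iw hr ϖ hϖ).tfib ρ).Dense fun i => (D.iw hr ϖ hϖ).tker ρ (γ i) := by
  have := D.nonempty_of_irr hirr
  exact (D.iw hr ϖ hϖ).norm_or_dense ρ (D.tfib_bdd hr ϖ hϖ ok hκ hcent) hγ (indRep D).ρ hirr
    (indSpace D).subtype Subtype.val_injective (fun _ _ _ => rfl)
    (fun v => ⟨⟨_, D.phi_mem hr ϖ hϖ v⟩, fun _ => rfl⟩) (D.burn_fix ok p hp0 hp)

theorem not_approx (hmax : ∀ x : F, ‖x‖ < 1 → ‖x‖ ≤ ‖(ϖ : F)‖) (ok : AlgOK κ a ρ)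
    (hκ : ∀ σ x, ‖κ σ x‖ = ‖x‖) (p : ℕ) (hp0 : p ≠ 0) (hp : ‖(p : F)‖ < 1)
    (hcent : ‖((D.omega fun _ => ϖ : Eˣ) : E)‖ * ‖(ϖ : F)‖ ^ (∑ σ, ∑ i, a σ i) = 1)
    (hE : ∀ I, Emerton D a ϖ (resCard F) I) (hirr : (indRep D).ρ.IsIrreducible) {d : ℕ}
    {γ : Fin d → GL (Fin n) F} (hγ : (D.iw hr ϖ hϖ).Gen γ) :
    ¬((D.iw hr ϖ hϖ).tfib ρ).Approx fun i => (D.iw hr ϖ hϖ).tker ρ (γ i) := by
  intro h
  have := D.nonempty_of_irr hirr
  have := ok.nonempty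
  obtain ⟨U, hU, C, hC⟩ := D.orbit_bound hr ϖ hϖ hmax ok hκ hcent hE
  exact (D.iw hr ϖ hϖ).not_small_unit ρ U hU C hC
    ((D.iw hr ϖ hϖ).exists_small_unit ρ hγ.1 (D.burn_conj hr ϖ hϖ ok p hp0 hp) h)

end TypeData

variable (p : ℕ) [Fact p.Prime] {n m : ℕ} {F E : Type}
  [NontriviallyNormedField F] [IsUltrametricDist F] [NormedAlgebra ℚ_[p] F]
  [FiniteDimensional ℚ_[p] F]
  [NontriviallyNormedField E] [NormedAlgebra ℚ_[p] E] [CompleteSpace E]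

omit [IsUltrametricDist F] [FiniteDimensional ℚ_[p] F] in
theorem norm_p_lt : ‖(p : F)‖ < 1 := by
  have : (p : F) = algebraMap ℚ_[p] F p := by simp
  rw [this, norm_algebraMap']
  exact Padic.norm_p_lt_one

theorem two_blocks (a : (F →ₐ[ℚ_[p]] E) → Fin n → ℤ) (ha : ∀ σ, Antitone (a σ))
    (D : TypeData n 2 m F E) (ϖ : Fˣ) (hϖ : ‖(ϖ : F)‖ < 1)
    (hmax : ∀ x : F, ‖x‖ < 1 → ‖x‖ ≤ ‖(ϖ : F)‖)
    (hcent : ‖((D.omega fun _ => ϖ : Eˣ) : E)‖ * ‖(ϖ : F)‖ ^ (∑ σ, ∑ i, a σ i) = 1)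
    (hE : ∀ I, Emerton D a ϖ (resCard F) I) (hirr : (indRep D).ρ.IsIrreducible) :
    HasInvariantNorm (algRep (fun σ : F →ₐ[ℚ_[p]] E => σ.toRingHom) a) (indRep D) := by
  have : IsUltrametricDist E := IsUltrametricDist.of_normedAlgebra ℚ_[p]
  have : ProperSpace F := FiniteDimensional.proper ℚ_[p] F
  have : CharZero E := charZero_of_injective_algebraMap (algebraMap ℚ_[p] E).injective
  have : CharZero F := charZero_of_injective_algebraMap (algebraMap ℚ_[p] F).injective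
  have hp0 : p ≠ 0 := (Fact.out : p.Prime).ne_zero
  have hp : ‖(p : F)‖ < 1 := norm_p_lt p
  have hκ : ∀ (σ : F →ₐ[ℚ_[p]] E) (x : F), ‖σ.toRingHom x‖ = ‖x‖ :=
    fun σ x => MP_4d0c14_nt.norm_emb p σ x
  obtain ⟨N, e, ρ, he⟩ := exists_model (fun σ : F →ₐ[ℚ_[p]] E => σ.toRingHom) ha
  have ok := he.algOK p hp0 hp ha
  obtain ⟨r, hr⟩ := D.exists_good
  obtain ⟨γ, hγ⟩ := D.exists_gen_two hr ϖ hϖ hmax
  refine NormOn.hasInvariantNorm he _ ((D.norm_or_dense hr ϖ hϖ ok hκ p hp0 hp hcent hirr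
    hγ).resolve_right fun hd => D.not_approx hr ϖ hϖ hmax ok hκ p hp0 hp hcent hE hirr hγ ?_)
  exact Fib.core_one (D.tfib_bdd hr ϖ hϖ ok hκ hcent) (D.hasLat p hr ϖ hϖ hmax) _
    (fun i => (D.iw hr ϖ hϖ).tker_ker ρ (hγ.1 i)) hd

theorem three_blocks (a : (F →ₐ[ℚ_[p]] E) → Fin n → ℤ) (ha : ∀ σ, Antitone (a σ))
    (D : TypeData n 3 m F E) (ϖ : Fˣ) (hϖ : ‖(ϖ : F)‖ < 1)
    (hmax : ∀ x : F, ‖x‖ < 1 → ‖x‖ ≤ ‖(ϖ : F)‖)
    (hcent : ‖((D.omega fun _ => ϖ : Eˣ) : E)‖ * ‖(ϖ : F)‖ ^ (∑ σ, ∑ i, a σ i) = 1)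
    (hE : ∀ I, Emerton D a ϖ (resCard F) I) (hirr : (indRep D).ρ.IsIrreducible)
    (hdual : Nonempty (indRep D ≅ indRep D.transpose)) :
    HasInvariantNorm (algRep (fun σ : F →ₐ[ℚ_[p]] E => σ.toRingHom) a) (indRep D) := by
  have : IsUltrametricDist E := IsUltrametricDist.of_normedAlgebra ℚ_[p]
  have : ProperSpace F := FiniteDimensional.proper ℚ_[p] F
  have : CharZero E := charZero_of_injective_algebraMap (algebraMap ℚ_[p] E).injective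
  have : CharZero F := charZero_of_injective_algebraMap (algebraMap ℚ_[p] F).injective
  have hp0 : p ≠ 0 := (Fact.out : p.Prime).ne_zero
  have hp : ‖(p : F)‖ < 1 := norm_p_lt p
  have hκ : ∀ (σ : F →ₐ[ℚ_[p]] E) (x : F), ‖σ.toRingHom x‖ = ‖x‖ :=
    fun σ x => MP_4d0c14_nt.norm_emb p σ x
  obtain ⟨N, e, ρ, he⟩ := exists_model (fun σ : F →ₐ[ℚ_[p]] E => σ.toRingHom) ha
  have ok := he.algOK p hp0 hp ha
  obtain ⟨r, hr⟩ := D.exists_good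
  obtain ⟨γ, hγ⟩ := D.exists_gen_three hr ϖ hϖ hmax
  obtain ⟨φ⟩ := hdual
  let f := Representation.equivOfIso φ
  have hf : ∀ g w, f.toLinearEquiv ((indRep D).ρ g w) =
      (indRep D.transpose).ρ g (f.toLinearEquiv w) :=
    fun g w => LinearMap.congr_fun (f.isIntertwining' g) w
  refine NormOn.hasInvariantNorm he _ ?_
  by_contra hno
  have hd := (D.norm_or_dense hr ϖ hϖ ok hκ p hp0 hp hcent hirr hγ).resolve_left hno
  have hd' := (D.transpose.norm_or_dense (TypeData.Good.transpose D hr) ϖ hϖ ok hκ p hp0 hp hcent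
    (isIrreducible_of_equiv f.toLinearEquiv hf hirr) (D.gen_tr hr ϖ hϖ hγ)).resolve_left
    fun h => hno (h.of_equiv f.toLinearEquiv hf)
  obtain ⟨X⟩ := D.nonempty_h1Data p hr ϖ hϖ ok hκ
  refine D.not_approx hr ϖ hϖ hmax ok hκ p hp0 hp hcent hE hirr hγ ?_
  exact Fib.core_two (D.tfib_bdd hr ϖ hϖ ok hκ hcent) (D.hasLat p hr ϖ hϖ hmax) X _
    (fun i => (D.iw hr ϖ hϖ).tker_ker ρ (hγ.1 i))
    ((D.iw hr ϖ hϖ).tker_comm ρ (hγ.1 0) (hγ.1 1) (D.comm_mem hr (hγ.1 0).1 (hγ.1 1).1)) hd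
    (D.dense_dual hr ϖ hϖ ρ ok.form hγ.1 hd')

end Pool.Agent.MP_4d0c14_b

end
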